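import Pool.Agent.Q133.ArcDefs

/-! Crossings of the arcs with the lines through the centre. -/

namespace Q133.ArcVis

open Complex Set

/-- The coordinates of the points in which the arc meets the line of angle `θ`. -/
def X (A : Arc) (θ : ℝ) : Set ℝ := {c | (c : ℂ) * exp ((θ : ℂ) * I) ∈ A.pts}

theorem X_iff (A : Arc) (θ c : ℝ) : c ∈ X A θ ↔
    (c = A.r ∧ ∃ n : ℤ, θ + n * (2 * Real.pi) ∈ Icc A.a (A.a + A.l)) ∨
    (c = -A.r ∧ ∃ n : ℤ, θ + Real.pi + n * (2 * Real.pi) ∈ Icc A.a (A.a + A.l)) := by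
  have hr := A.r_pos
  have hr' : (A.r : ℂ) ≠ 0 := by exact_mod_cast hr.ne'
  constructor
  · rintro ⟨t, ht, h⟩
    have hn : |c| = A.r := by
      have := congrArg norm h
      rw [norm_mul, norm_mul, Complex.norm_exp_ofReal_mul_I, Complex.norm_exp_ofReal_mul_I,
        mul_one, mul_one, Complex.norm_real, Complex.norm_real, Real.norm_eq_abs,
        Real.norm_eq_abs, abs_of_pos hr] at this
      exact this
    rcases (abs_eq hr.le).1 hn with hc | hc
    · left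
      refine ⟨hc, ?_⟩
      rw [hc] at h
      have h2 := mul_left_cancel₀ hr' h
      obtain ⟨n, hn⟩ := Complex.exp_eq_exp_iff_exists_int.1 h2
      refine ⟨-n, ?_⟩
      have : (θ : ℂ) = t + n * (2 * Real.pi) := by
        have h3 : (θ : ℂ) * I = (t + n * (2 * Real.pi)) * I := by rw [hn]; ring
        exact mul_right_cancel₀ I_ne_zero h3
      have h4 : θ = t + n * (2 * Real.pi) := by exact_mod_cast this
      rw [h4]; push_cast; ring_nf; exact ht
    · right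
      refine ⟨hc, ?_⟩
      rw [hc] at h
      have h2 : exp (((θ + Real.pi : ℝ) : ℂ) * I) = exp ((t : ℂ) * I) := by
        apply mul_left_cancel₀ hr'
        rw [← h]
        push_cast
        rw [add_mul, Complex.exp_add, Complex.exp_pi_mul_I]; ring
      obtain ⟨n, hn⟩ := Complex.exp_eq_exp_iff_exists_int.1 h2
      refine ⟨-n, ?_⟩
      have : ((θ + Real.pi : ℝ) : ℂ) = t + n * (2 * Real.pi) := by
        have h3 : ((θ + Real.pi : ℝ) : ℂ) * I = (t + n * (2 * Real.pi)) * I := by rw [hn]; ring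
        exact mul_right_cancel₀ I_ne_zero h3
      have h4 : θ + Real.pi = t + n * (2 * Real.pi) := by exact_mod_cast this
      rw [h4]; push_cast; ring_nf; exact ht
  · rintro (⟨hc, n, hn⟩ | ⟨hc, n, hn⟩)
    · refine ⟨_, hn, ?_⟩
      rw [hc]
      congr 1
      refine Complex.exp_eq_exp_iff_exists_int.2 ⟨-n, ?_⟩
      push_cast; ring
    · refine ⟨_, hn, ?_⟩
      rw [hc]
      have : exp (((θ + Real.pi + n * (2 * Real.pi) : ℝ) : ℂ) * I)
          = exp (((θ + Real.pi : ℝ) : ℂ) * I) := by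
        refine Complex.exp_eq_exp_iff_exists_int.2 ⟨n, ?_⟩
        push_cast; ring
      rw [this]
      push_cast
      rw [add_mul, Complex.exp_add, Complex.exp_pi_mul_I]; ring

theorem X_pi (A : Arc) (θ c : ℝ) : c ∈ X A (θ + Real.pi) ↔ -c ∈ X A θ := by
  unfold X
  simp only [mem_ofPred_eq]
  have : (c : ℂ) * exp (((θ + Real.pi : ℝ) : ℂ) * I) = ((-c : ℝ) : ℂ) * exp ((θ : ℂ) * I) := by
    push_cast
    rw [add_mul, Complex.exp_add, Complex.exp_pi_mul_I]; ring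
  rw [this]

theorem X_two_pi (A : Arc) (θ c : ℝ) (n : ℤ) :
    c ∈ X A (θ + n * (2 * Real.pi)) ↔ c ∈ X A θ := by
  unfold X
  simp only [mem_ofPred_eq]
  have : exp (((θ + n * (2 * Real.pi) : ℝ) : ℂ) * I) = exp ((θ : ℂ) * I) := by
    refine Complex.exp_eq_exp_iff_exists_int.2 ⟨n, ?_⟩
    push_cast; ring
  rw [this]

/-- The arc meets the line of angle `θ`. -/
def Crosses (A : Arc) (θ : ℝ) : Prop := (X A θ).Nonempty

theorem crosses_iff (A : Arc) (θ : ℝ) :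
    Crosses A θ ↔ ∃ n : ℤ, θ + n * Real.pi ∈ Icc A.a (A.a + A.l) := by
  constructor
  · rintro ⟨c, hc⟩
    rcases (X_iff A θ c).1 hc with ⟨-, n, hn⟩ | ⟨-, n, hn⟩
    · refine ⟨2 * n, ?_⟩
      push_cast; convert hn using 1; ring
    · refine ⟨2 * n + 1, ?_⟩
      push_cast; convert hn using 1; ring
  · rintro ⟨n, hn⟩
    rcases Int.even_or_odd' n with ⟨m, rfl | rfl⟩
    · refine ⟨A.r, (X_iff A θ _).2 (Or.inl ⟨rfl, m, ?_⟩)⟩
      push_cast at hn; convert hn using 1; ring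
    · refine ⟨-A.r, (X_iff A θ _).2 (Or.inr ⟨rfl, m, ?_⟩)⟩
      push_cast at hn; convert hn using 1; ring

theorem crosses_add (A : Arc) (θ : ℝ) (m : ℤ) :
    Crosses A (θ + m * Real.pi) ↔ Crosses A θ := by
  rw [crosses_iff, crosses_iff]
  constructor
  · rintro ⟨n, hn⟩
    refine ⟨n + m, ?_⟩
    push_cast; convert hn using 1; ring
  · rintro ⟨n, hn⟩
    refine ⟨n - m, ?_⟩
    push_cast; convert hn using 1; ring

theorem crosses_of_mem (A : Arc) {θ : ℝ} (h : θ ∈ Icc A.a (A.a + A.l)) : Crosses A θ :=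
  (crosses_iff A θ).2 ⟨0, by simpa using h⟩

theorem seg_iff (z : ℂ) (c d : ℝ) (w : ℂ) :
    w ∈ segment ℝ ((c : ℂ) * z) ((d : ℂ) * z) ↔ ∃ e ∈ uIcc c d, w = (e : ℂ) * z := by
  rw [← segment_eq_uIcc]
  constructor
  · rintro ⟨α, β, hα, hβ, hs, rfl⟩
    refine ⟨α * c + β * d, ⟨α, β, hα, hβ, hs, rfl⟩, ?_⟩
    simp only [Complex.real_smul]
    push_cast; ring
  · rintro ⟨e, ⟨α, β, hα, hβ, hs, rfl⟩, rfl⟩
    refine ⟨α, β, hα, hβ, hs, ?_⟩
    simp only [Complex.real_smul, smul_eq_mul]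
    push_cast; ring

theorem exp_ne (θ : ℝ) : exp ((θ : ℂ) * I) ≠ 0 := Complex.exp_ne_zero _

variable {V : Type}

/-- The arcs (other than those of `u` and `v`) which meet the segment from `c` to `d` on the line
of angle `θ`. -/
def Bl (A : V → Arc) (θ : ℝ) (u v : V) (c d : ℝ) : Set V :=
  {w | w ≠ u ∧ w ≠ v ∧ ∃ e ∈ X (A w) θ, e ∈ uIcc c d}

theorem bl_eq (A : V → Arc) (θ : ℝ) (u v : V) (c d : ℝ) :
    {w : V | w ≠ u ∧ w ≠ v ∧ ((A w).pts ∩
      segment ℝ ((c : ℂ) * exp ((θ : ℂ) * I)) ((d : ℂ) * exp ((θ : ℂ) * I))).Nonempty}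
      = Bl A θ u v c d := by
  ext w
  simp only [mem_ofPred_eq, Bl]
  refine and_congr_right fun _ => and_congr_right fun _ => ?_
  constructor
  · rintro ⟨z, hz, hz2⟩
    obtain ⟨e, he, rfl⟩ := (seg_iff _ _ _ _).1 hz2
    exact ⟨e, hz, he⟩
  · rintro ⟨e, he, he2⟩
    exact ⟨_, he, (seg_iff _ _ _ _).2 ⟨e, he2, rfl⟩⟩

theorem sees_iff (A : V → Arc) (k : ℕ) (u v : V) : Sees A k u v ↔
    ∃ θ : ℝ, ∃ c ∈ X (A u) θ, ∃ d ∈ X (A v) θ, (Bl A θ u v c d).ncard ≤ k := by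
  constructor
  · rintro ⟨p, hp, q, hq, ⟨z, x, y, hpz, hqz⟩, hk⟩
    obtain ⟨t, ht, hpt⟩ := hp
    have hr := (A u).r_pos
    have hr' : ((A u).r : ℂ) ≠ 0 := by exact_mod_cast hr.ne'
    have hx : (x : ℂ) ≠ 0 := by
      intro hx
      rw [hx, zero_mul, hpt] at hpz
      exact mul_ne_zero hr' (exp_ne t) hpz
    have hz : z = (((A u).r / x : ℝ) : ℂ) * exp ((t : ℂ) * I) := by
      have : (x : ℂ) * z = ((A u).r : ℂ) * exp ((t : ℂ) * I) := by rw [← hpz, hpt]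
      push_cast
      field_simp
      linear_combination this
    have hq2 : q = ((y * ((A u).r / x) : ℝ) : ℂ) * exp ((t : ℂ) * I) := by
      rw [hqz, hz]; push_cast; ring
    refine ⟨t, (A u).r, ?_, y * ((A u).r / x), ?_, ?_⟩
    · exact ⟨t, ht, rfl⟩
    · show _ ∈ (A v).pts
      rw [← hq2]; exact hq
    · rw [← bl_eq, ← hq2, ← hpt]; exact hk
  · rintro ⟨θ, c, hc, d, hd, hk⟩
    refine ⟨_, hc, _, hd, ⟨exp ((θ : ℂ) * I), c, d, rfl, rfl⟩, ?_⟩
    rw [bl_eq]; exact hk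

theorem bl_symm (A : V → Arc) (θ : ℝ) (u v : V) (c d : ℝ) :
    Bl A θ u v c d = Bl A θ v u d c := by
  ext w
  simp only [Bl, mem_ofPred_eq, uIcc_comm c d]
  tauto

theorem Sees.symm {A : V → Arc} {k : ℕ} {u v : V} (h : Sees A k u v) : Sees A k v u := by
  rw [sees_iff] at h ⊢
  obtain ⟨θ, c, hc, d, hd, hk⟩ := h
  exact ⟨θ, d, hd, c, hc, by rwa [bl_symm]⟩

theorem Sees.crosses {A : V → Arc} {k : ℕ} {u v : V} (h : Sees A k u v) :
    ∃ θ, Crosses (A u) θ ∧ Crosses (A v) θ := by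
  rw [sees_iff] at h
  obtain ⟨θ, c, hc, d, hd, -⟩ := h
  exact ⟨θ, ⟨c, hc⟩, ⟨d, hd⟩⟩

/-- The visibility graph of a family of arcs. -/
def visGraph (A : V → Arc) (k : ℕ) : SimpleGraph V where
  Adj u v := u ≠ v ∧ Sees A k u v
  symm := ⟨fun _ _ h => ⟨h.1.symm, h.2.symm⟩⟩
  loopless := ⟨fun _ h => h.1 rfl⟩

theorem isArcVis_visGraph (A : V → Arc) (k : ℕ)
    (hA : ∀ u v, u ≠ v → Disjoint (A u).pts (A v).pts) : IsArcVis k (visGraph A k) :=
  ⟨A, hA, fun _ _ h => ⟨fun h2 => h2.2, fun h2 => ⟨h, h2⟩⟩⟩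

/-- different arcs meet a line in different points -/
theorem X_disj {A : V → Arc} (hA : ∀ u v, u ≠ v → Disjoint (A u).pts (A v).pts) {u v : V}
    {θ c : ℝ} (hu : c ∈ X (A u) θ) (hv : c ∈ X (A v) θ) : u = v := by
  by_contra h
  exact Set.disjoint_left.1 (hA u v h) hu hv

end Q133.ArcVis
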