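import Mathlib

/-!
# Arc `k`-visibility graphs

All arcs are closed circular arcs with the common centre `O = 0` in the plane `ℂ`.
-/

namespace Q133.ArcVis

open Complex

/-- A closed circular arc with centre `0`: radius `r > 0`, from the angle `a` counterclockwise to
the angle `a + l`, where `0 ≤ l < 2 π`. -/
structure Arc where
  /-- the radius -/
  r : ℝ
  /-- the angle at which the arc starts -/
  a : ℝ
  /-- the angular length -/
  l : ℝ
  r_pos : 0 < r
  l_nonneg : 0 ≤ l
  l_lt : l < 2 * Real.pi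

/-- The set of the points of the arc. -/
def Arc.pts (A : Arc) : Set ℂ :=
  {z | ∃ t ∈ Set.Icc A.a (A.a + A.l), z = (A.r : ℂ) * exp ((t : ℂ) * I)}

/-- The arcs of `u` and `v` are joined by a line of sight (a segment which lies on a line through
`0`, with one end on each of the two arcs) which meets at most `k` further arcs. -/
def Sees {V : Type} (A : V → Arc) (k : ℕ) (u v : V) : Prop :=
  ∃ p ∈ (A u).pts, ∃ q ∈ (A v).pts, (∃ (z : ℂ) (x y : ℝ), p = (x : ℂ) * z ∧ q = (y : ℂ) * z) ∧
    {w : V | w ≠ u ∧ w ≠ v ∧ ((A w).pts ∩ segment ℝ p q).Nonempty}.ncard ≤ k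

/-- `G` is an arc `k`-visibility graph (`V` is finite). -/
def IsArcVis {V : Type} (k : ℕ) (G : SimpleGraph V) : Prop :=
  ∃ A : V → Arc, (∀ u v, u ≠ v → Disjoint (A u).pts (A v).pts) ∧
    ∀ u v, u ≠ v → (G.Adj u v ↔ Sees A k u v)

end Q133.ArcVis
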