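import Pool.Agent.Q133.ArcNot

/-! Two families of arcs, and the main theorem on the classes of arc `k`-visibility graphs. -/

namespace Q133.ArcVis

open Complex Set

/-- arcs of the angles between `0` and `3` -/
def Narrow (A : Arc) : Prop := 0 ≤ A.a ∧ A.a + A.l ≤ 3

theorem Narrow.X_iff {A : Arc} (hA : Narrow A) {θ : ℝ} (h0 : 0 ≤ θ) (h3 : θ ≤ 3) (e : ℝ) :
    e ∈ X A θ ↔ e = A.r ∧ θ ∈ Icc A.a (A.a + A.l) := by
  have hpi := Real.pi_gt_three
  rw [ArcVis.X_iff]
  constructor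
  · rintro (⟨he, n, hn⟩ | ⟨he, n, hn⟩)
    · have h1 := hA.1.trans hn.1
      have h2 := hn.2.trans hA.2
      have hn0 : n = 0 := by
        by_contra hne
        rcases lt_or_gt_of_ne hne with h | h
        · have : (n : ℝ) ≤ -1 := by exact_mod_cast (by omega : n ≤ -1)
          nlinarith
        · have : (1 : ℝ) ≤ n := by exact_mod_cast (by omega : 1 ≤ n)
          nlinarith
      subst hn0
      exact ⟨he, by simpa using hn⟩
    · exfalso
      have h1 := hA.1.trans hn.1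
      have h2 := hn.2.trans hA.2
      rcases lt_or_ge n 0 with h | h
      · have : (n : ℝ) ≤ -1 := by exact_mod_cast (by omega : n ≤ -1)
        nlinarith
      · have : (0 : ℝ) ≤ n := by exact_mod_cast h
        nlinarith
  · rintro ⟨he, h⟩
    exact Or.inl ⟨he, 0, by simpa using h⟩

theorem Narrow.disj {A B : Arc} (hA : Narrow A) (hB : Narrow B)
    (h : ∀ t, A.r = B.r → t ∈ Icc A.a (A.a + A.l) → t ∉ Icc B.a (B.a + B.l)) :
    Disjoint A.pts B.pts := by
  rw [Set.disjoint_left]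
  rintro z ⟨t, ht, rfl⟩ hz
  have h1 : A.r ∈ X B t := hz
  rw [hB.X_iff (hA.1.trans ht.1) (ht.2.trans hA.2)] at h1
  exact h t h1.1 ht h1.2

variable {V : Type}

theorem narrow_sees [Finite V] {A : V → Arc} (hA : ∀ v, Narrow (A v)) (k : ℕ) (u v : V) :
    Sees A k u v ↔ ∃ t, t ∈ Icc (A u).a ((A u).a + (A u).l) ∧
      t ∈ Icc (A v).a ((A v).a + (A v).l) ∧
      {w | w ≠ u ∧ w ≠ v ∧ t ∈ Icc (A w).a ((A w).a + (A w).l) ∧
        (A w).r ∈ uIcc (A u).r (A v).r}.ncard ≤ k := by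
  constructor
  · intro h
    obtain ⟨θ, hθ, d, hd, hk⟩ := sees_norm h
    have h0 := (hA u).1.trans hθ.1
    have h3 := hθ.2.trans (hA u).2
    rw [(hA v).X_iff h0 h3] at hd
    refine ⟨θ, hθ, hd.2, le_trans (Set.ncard_le_ncard ?_ (Set.toFinite _)) hk⟩
    rintro w ⟨h1, h2, h4, h5⟩
    exact ⟨h1, h2, (A w).r, ((hA w).X_iff h0 h3 _).2 ⟨rfl, h4⟩, by rw [hd.1]; exact h5⟩
  · rintro ⟨t, h1, h2, hk⟩
    have h0 := (hA u).1.trans h1.1
    have h3 := h1.2.trans (hA u).2
    rw [sees_iff]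
    refine ⟨t, (A u).r, ((hA u).X_iff h0 h3 _).2 ⟨rfl, h1⟩, (A v).r,
      ((hA v).X_iff h0 h3 _).2 ⟨rfl, h2⟩, le_trans (Set.ncard_le_ncard ?_ (Set.toFinite _)) hk⟩
    rintro w ⟨h4, h5, e, he, he2⟩
    rw [(hA w).X_iff h0 h3] at he
    exact ⟨h4, h5, he.2, he.1 ▸ he2⟩

/-- an arc with all data -/
def mk (r a l : ℝ) (hr : 0 < r) (h0 : 0 ≤ l) (h3 : l ≤ 3) : Arc :=
  ⟨r, a, l, hr, h0, by linarith [Real.pi_gt_three]⟩

/-! ### first family -/

section fam1

variable (j : ℕ)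

/-- vertices of the first family: `c`, `d_s`, `a_m`, `b_m` -/
abbrev V1 := Option (Fin j ⊕ (Fin 3 × Bool))

/-- first family -/
noncomputable def F1 : V1 j → Arc
  | none => mk 1 0 3 one_pos (by norm_num) le_rfl
  | some (Sum.inl s) => mk (2 + (s : ℕ)) 0 3 (by positivity) (by norm_num) le_rfl
  | some (Sum.inr (m, false)) => mk (j + 2) (m : ℕ) (1 / 2) (by positivity) (by norm_num)
      (by norm_num)
  | some (Sum.inr (m, true)) => mk (j + 3) (m : ℕ) (1 / 2) (by positivity) (by norm_num)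
      (by norm_num)

theorem F1_narrow (v : V1 j) : Narrow (F1 j v) := by
  have h3 : ∀ m : Fin 3, ((m : ℕ) : ℝ) ≤ 2 := by
    intro m; exact_mod_cast (by omega : (m : ℕ) ≤ 2)
  rcases v with _ | s | ⟨m, _ | _⟩
  · exact ⟨le_rfl, by simp [F1, mk]⟩
  · exact ⟨le_rfl, by simp [F1, mk]⟩
  · exact ⟨by simp [F1, mk], by simp only [F1, mk]; linarith [h3 m]⟩
  · exact ⟨by simp [F1, mk], by simp only [F1, mk]; linarith [h3 m]⟩

theorem sep3 {m n : Fin 3} (h : m ≠ n) {t : ℝ} (h1 : t ∈ Icc ((m : ℕ) : ℝ) ((m : ℕ) + 1 / 2))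
    (h2 : t ∈ Icc ((n : ℕ) : ℝ) ((n : ℕ) + 1 / 2)) : False := by
  rcases lt_or_gt_of_ne h with h | h
  · have : ((m : ℕ) : ℝ) + 1 ≤ (n : ℕ) := by exact_mod_cast h
    linarith [h1.2, h2.1]
  · have : ((n : ℕ) : ℝ) + 1 ≤ (m : ℕ) := by exact_mod_cast h
    linarith [h1.1, h2.2]

theorem F1_disj (u v : V1 j) (huv : u ≠ v) : Disjoint (F1 j u).pts (F1 j v).pts := by
  refine (F1_narrow j u).disj (F1_narrow j v) ?_
  intro t hr h1 h2
  have hs : ∀ s : Fin j, ((s : ℕ) : ℝ) < j := fun s => by exact_mod_cast s.2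
  have hs0 : ∀ s : Fin j, (0 : ℝ) ≤ ((s : ℕ) : ℝ) := fun s => by positivity
  rcases u with _ | s | ⟨m, _ | _⟩ <;> rcases v with _ | s' | ⟨m', _ | _⟩ <;>
    simp only [F1, mk] at hr h1 h2
  · exact huv rfl
  · linarith [hs0 s']
  · linarith [(Nat.cast_nonneg j : (0 : ℝ) ≤ j)]
  · linarith [(Nat.cast_nonneg j : (0 : ℝ) ≤ j)]
  · linarith [hs0 s]
  · have : s = s' := by
      have h5 : ((s : ℕ) : ℝ) = (s' : ℕ) := by linarith
      exact Fin.ext (by exact_mod_cast h5)
    exact huv (by rw [this])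
  · linarith [hs s]
  · linarith [hs s]
  · linarith [(Nat.cast_nonneg j : (0 : ℝ) ≤ j)]
  · linarith [hs s']
  · have : m ≠ m' := fun h => huv (by rw [h])
    exact sep3 this h1 h2
  · linarith
  · linarith [(Nat.cast_nonneg j : (0 : ℝ) ≤ j)]
  · linarith [hs s']
  · linarith
  · have : m ≠ m' := fun h => huv (by rw [h])
    exact sep3 this h1 h2

theorem F1_side {m n : Fin 3} (x y : Bool) (h : m ≠ n) :
    ¬ Sees (F1 j) j (some (Sum.inr (m, x))) (some (Sum.inr (n, y))) := by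
  rw [narrow_sees (F1_narrow j)]
  rintro ⟨t, h1, h2, -⟩
  cases x <;> cases y <;> exact sep3 h h1 h2

theorem F1_ca (m : Fin 3) : Sees (F1 j) j none (some (Sum.inr (m, false))) := by
  rw [narrow_sees (F1_narrow j)]
  have hm : ((m : ℕ) : ℝ) ≤ 2 := by exact_mod_cast (by omega : (m : ℕ) ≤ 2)
  refine ⟨(m : ℕ), ⟨by simp [F1, mk], by simp only [F1, mk]; linarith⟩,
    ⟨by simp [F1, mk], by simp [F1, mk]⟩, ?_⟩
  have hsub : {w | w ≠ none ∧ w ≠ some (Sum.inr (m, false)) ∧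
      ((m : ℕ) : ℝ) ∈ Icc (F1 j w).a ((F1 j w).a + (F1 j w).l) ∧
      (F1 j w).r ∈ uIcc (F1 j none).r (F1 j (some (Sum.inr (m, false)))).r} ⊆
      Set.range fun s : Fin j => (some (Sum.inl s) : V1 j) := by
    rintro w ⟨h1, h2, h3, h4⟩
    rcases w with _ | s | ⟨m', _ | _⟩
    · exact absurd rfl h1
    · exact ⟨s, rfl⟩
    · exfalso
      have hne : m' ≠ m := fun h => h2 (by rw [h])
      exact sep3 hne h3 (t := ((m : ℕ) : ℝ)) ⟨le_rfl, by linarith⟩
    · exfalso
      rw [Set.uIcc_of_le (by simp only [F1, mk]; linarith [(Nat.cast_nonneg j : (0 : ℝ) ≤ j)])]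
        at h4
      have := h4.2
      simp only [F1, mk] at this
      linarith
  refine (Set.ncard_le_ncard hsub (Set.toFinite _)).trans ?_
  rw [← Set.image_univ]
  refine (Set.ncard_image_le (Set.toFinite _)).trans ?_
  rw [Set.ncard_univ]; simp

theorem F1_ab (m : Fin 3) :
    Sees (F1 j) j (some (Sum.inr (m, false))) (some (Sum.inr (m, true))) := by
  rw [narrow_sees (F1_narrow j)]
  refine ⟨(m : ℕ), ⟨by simp [F1, mk], by simp [F1, mk]⟩, ⟨by simp [F1, mk], by simp [F1, mk]⟩, ?_⟩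
  have hsub : {w | w ≠ some (Sum.inr (m, false)) ∧ w ≠ some (Sum.inr (m, true)) ∧
      ((m : ℕ) : ℝ) ∈ Icc (F1 j w).a ((F1 j w).a + (F1 j w).l) ∧
      (F1 j w).r ∈ uIcc (F1 j (some (Sum.inr (m, false)))).r
        (F1 j (some (Sum.inr (m, true)))).r} ⊆ ∅ := by
    rintro w ⟨h1, h2, h3, h4⟩
    rw [Set.uIcc_of_le (by simp only [F1, mk]; linarith)] at h4
    rcases w with _ | s | ⟨m', _ | _⟩
    · have := h4.1
      simp only [F1, mk] at this
      linarith [(Nat.cast_nonneg j : (0 : ℝ) ≤ j)]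
    · have := h4.1
      simp only [F1, mk] at this
      have hs : ((s : ℕ) : ℝ) < j := by exact_mod_cast s.2
      linarith
    · have hne : m' ≠ m := fun h => h1 (by rw [h])
      exact sep3 hne h3 (t := ((m : ℕ) : ℝ)) ⟨le_rfl, by linarith⟩
    · have hne : m' ≠ m := fun h => h2 (by rw [h])
      exact sep3 hne h3 (t := ((m : ℕ) : ℝ)) ⟨le_rfl, by linarith⟩
  refine (Set.ncard_le_ncard hsub (Set.toFinite _)).trans ?_
  simp

theorem F1_cb (m : Fin 3) : ¬ Sees (F1 j) j none (some (Sum.inr (m, true))) := by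
  rw [narrow_sees (F1_narrow j)]
  rintro ⟨t, h1, h2, hk⟩
  have h1' : t ∈ Icc (0 : ℝ) (0 + 3) := h1
  have h2' : t ∈ Icc ((m : ℕ) : ℝ) ((m : ℕ) + 1 / 2) := h2
  have hj0 : (0 : ℝ) ≤ j := Nat.cast_nonneg j
  have hsub : insert (some (Sum.inr (m, false)) : V1 j)
      (Set.range fun s : Fin j => (some (Sum.inl s) : V1 j)) ⊆
      {w | w ≠ none ∧ w ≠ some (Sum.inr (m, true)) ∧
      t ∈ Icc (F1 j w).a ((F1 j w).a + (F1 j w).l) ∧
      (F1 j w).r ∈ uIcc (F1 j none).r (F1 j (some (Sum.inr (m, true)))).r} := by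
    rintro w (rfl | ⟨s, rfl⟩)
    · refine ⟨by simp, by simp, h2', ?_⟩
      rw [Set.uIcc_of_le (by simp only [F1, mk]; linarith)]
      simp only [F1, mk]
      constructor <;> linarith
    · refine ⟨by simp, by simp, h1', ?_⟩
      rw [Set.uIcc_of_le (by simp only [F1, mk]; linarith)]
      simp only [F1, mk]
      have hs : ((s : ℕ) : ℝ) < j := by exact_mod_cast s.2
      have hs0 : (0 : ℝ) ≤ ((s : ℕ) : ℝ) := by positivity
      constructor <;> linarith
  have hc := (Set.ncard_le_ncard hsub (Set.toFinite _)).trans hk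
  rw [Set.ncard_insert_of_notMem (by simp) (Set.toFinite _), ← Set.image_univ,
    Set.ncard_image_of_injective _ (by intro a b h; simpa using h), Set.ncard_univ] at hc
  simp at hc

theorem F1_color : (visGraph (F1 j) j).Colorable (j + 2) := by
  refine ⟨SimpleGraph.Coloring.mk (fun v : V1 j => match v with
    | none => ⟨j, by omega⟩
    | some (Sum.inl s) => ⟨s, by omega⟩
    | some (Sum.inr (_, false)) => ⟨j + 1, by omega⟩
    | some (Sum.inr (_, true)) => ⟨j, by omega⟩) ?_⟩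
  rintro u v ⟨huv, hs⟩
  rcases u with _ | s | ⟨m, _ | _⟩ <;> rcases v with _ | s' | ⟨m', _ | _⟩ <;>
    simp only [ne_eq, Fin.ext_iff] <;> try omega
  · exact absurd rfl huv
  · exact fun _ => F1_cb j m' hs
  · exact fun h => huv (by rw [Fin.ext h])
  · have : m ≠ m' := fun h => huv (by rw [h])
    exact fun _ => F1_side j _ _ this hs
  · exact fun _ => F1_cb j m hs.symm
  · have : m ≠ m' := fun h => huv (by rw [h])
    exact fun _ => F1_side j _ _ this hs

end fam1

theorem down {i j : ℕ} (h : j < i) :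
    ∃ (V : Type) (_ : Finite V) (G : SimpleGraph V), IsArcVis j G ∧ ¬ IsArcVis i G := by
  refine ⟨V1 j, inferInstance, visGraph (F1 j) j, isArcVis_visGraph _ _ (F1_disj j), ?_⟩
  refine not_arcVis_spider ((F1_color j).cliqueFree (by omega)) none
    (fun m => some (Sum.inr (m, false))) (fun m => some (Sum.inr (m, true))) ?_ ?_ ?_ ?_ ?_ ?_
  · exact fun m => ⟨by simp, F1_ca j m⟩
  · exact fun m => ⟨by simp, F1_ab j m⟩
  · exact fun m hm => F1_cb j m hm.2
  · exact fun m => by simp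
  · exact fun m n hmn hm => F1_side j _ _ hmn hm.2
  · intro m n hmn
    simpa using hmn

/-! ### second family -/

section fam2

variable (j N : ℕ)

/-- vertices of the second family -/
abbrev V2 := Fin (2 * j + 2) ⊕ Fin N

/-- second family -/
noncomputable def F2 : V2 j N → Arc
  | Sum.inl s => mk (if (s : ℕ) ≤ j then (s : ℕ) + 1 else (s : ℕ) + 2) 0 3
      (by split_ifs <;> positivity) (by norm_num) le_rfl
  | Sum.inr t => mk (j + 2) (2 * (t : ℕ) / (2 * N)) (1 / (2 * N)) (by positivity) (by positivity)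
      (by
        rcases Nat.eq_zero_or_pos N with h | h
        · subst h; simp
        · have : (1 : ℝ) ≤ N := by exact_mod_cast h
          rw [div_le_iff₀ (by positivity)]; linarith)

theorem F2_narrow (v : V2 j N) : Narrow (F2 j N v) := by
  rcases v with s | t
  · exact ⟨le_rfl, by simp [F2, mk]⟩
  · have hN : 0 < N := lt_of_le_of_lt (Nat.zero_le _) t.2
    have hN' : (1 : ℝ) ≤ N := by exact_mod_cast hN
    have ht : ((t : ℕ) : ℝ) + 1 ≤ N := by exact_mod_cast t.2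
    refine ⟨by simp only [F2, mk]; positivity, ?_⟩
    simp only [F2, mk]
    rw [← add_div, div_le_iff₀ (by positivity)]
    linarith

theorem sepN {t t' : Fin N} (h : t ≠ t') {z : ℝ}
    (h1 : z ∈ Icc (2 * ((t : ℕ) : ℝ) / (2 * N)) (2 * ((t : ℕ) : ℝ) / (2 * N) + 1 / (2 * N)))
    (h2 : z ∈ Icc (2 * ((t' : ℕ) : ℝ) / (2 * N)) (2 * ((t' : ℕ) : ℝ) / (2 * N) + 1 / (2 * N))) :
    False := by
  have hN : 0 < N := lt_of_le_of_lt (Nat.zero_le _) t.2
  have hN' : (0 : ℝ) < 2 * N := by positivity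
  obtain ⟨a1, a2⟩ := h1
  obtain ⟨b1, b2⟩ := h2
  rw [← add_div, le_div_iff₀ hN'] at a2 b2
  rw [div_le_iff₀ hN'] at a1 b1
  rcases lt_or_gt_of_ne h with h | h
  · have : ((t : ℕ) : ℝ) + 1 ≤ (t' : ℕ) := by exact_mod_cast h
    linarith
  · have : ((t' : ℕ) : ℝ) + 1 ≤ (t : ℕ) := by exact_mod_cast h
    linarith

theorem F2_disj (u v : V2 j N) (huv : u ≠ v) : Disjoint (F2 j N u).pts (F2 j N v).pts := by
  refine (F2_narrow j N u).disj (F2_narrow j N v) ?_
  intro z hr h1 h2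
  rcases u with s | t <;> rcases v with s' | t' <;> simp only [F2, mk] at hr h1 h2
  · have hne : s ≠ s' := fun h => huv (by rw [h])
    apply hne
    apply Fin.ext
    split_ifs at hr with h3 h4 h4
    · have : ((s : ℕ) : ℝ) = (s' : ℕ) := by linarith
      exact_mod_cast this
    · have : ((s : ℕ) : ℝ) = ((s' : ℕ) + 1 : ℕ) := by push_cast; linarith
      have : (s : ℕ) = (s' : ℕ) + 1 := by exact_mod_cast this
      omega
    · have : ((s' : ℕ) : ℝ) = ((s : ℕ) + 1 : ℕ) := by push_cast; linarith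
      have : (s' : ℕ) = (s : ℕ) + 1 := by exact_mod_cast this
      omega
    · have : ((s : ℕ) : ℝ) = (s' : ℕ) := by linarith
      exact_mod_cast this
  · split_ifs at hr with h3
    · have : ((s : ℕ) : ℝ) = ((j + 1 : ℕ) : ℝ) := by push_cast; linarith
      have : (s : ℕ) = j + 1 := by exact_mod_cast this
      omega
    · have : ((s : ℕ) : ℝ) = ((j : ℕ) : ℝ) := by linarith
      have : (s : ℕ) = j := by exact_mod_cast this
      omega
  · split_ifs at hr with h3
    · have : ((s' : ℕ) : ℝ) = ((j + 1 : ℕ) : ℝ) := by push_cast; linarith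
      have : (s' : ℕ) = j + 1 := by exact_mod_cast this
      omega
    · have : ((s' : ℕ) : ℝ) = ((j : ℕ) : ℝ) := by linarith
      have : (s' : ℕ) = j := by exact_mod_cast this
      omega
  · have hne : t ≠ t' := fun h => huv (by rw [h])
    exact sepN N hne h1 h2

theorem F2_xx {t t' : Fin N} (h : t ≠ t') : ¬ Sees (F2 j N) j (Sum.inr t) (Sum.inr t') := by
  rw [narrow_sees (F2_narrow j N)]
  rintro ⟨z, h1, h2, -⟩
  exact sepN N h h1 h2

theorem F2_xq (t : Fin N) (s : Fin (2 * j + 2)) :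
    Sees (F2 j N) j (Sum.inr t) (Sum.inl s) := by
  rw [narrow_sees (F2_narrow j N)]
  have hN : 0 < N := lt_of_le_of_lt (Nat.zero_le _) t.2
  have hN' : (0 : ℝ) < 2 * N := by positivity
  have hz := F2_narrow j N (Sum.inr t)
  have hz1 : (F2 j N (Sum.inr t)).a = 2 * ((t : ℕ) : ℝ) / (2 * N) := rfl
  refine ⟨(F2 j N (Sum.inr t)).a, ⟨le_rfl, by linarith [(F2 j N (Sum.inr t)).l_nonneg]⟩,
    ⟨hz.1, ?_⟩, ?_⟩
  · have := hz.2
    have := (F2 j N (Sum.inr t)).l_nonneg
    simp only [F2, mk] at *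
    linarith
  -- the blockers are `q`s on the same side and between
  have hblock : ∀ w ∈ {w : V2 j N | w ≠ Sum.inr t ∧ w ≠ Sum.inl s ∧
      (F2 j N (Sum.inr t)).a ∈ Icc (F2 j N w).a ((F2 j N w).a + (F2 j N w).l) ∧
      (F2 j N w).r ∈ uIcc (F2 j N (Sum.inr t)).r (F2 j N (Sum.inl s)).r},
      ∃ s' : Fin (2 * j + 2), w = Sum.inl s' ∧ s' ≠ s ∧
        (((s' : ℕ) ≤ j ∧ (s : ℕ) ≤ j ∧ (s : ℕ) < s') ∨
          (j < (s' : ℕ) ∧ j < (s : ℕ) ∧ (s' : ℕ) < s)) := by
    rintro w ⟨h1, h2, h3, h4⟩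
    rcases w with s' | t'
    · have hne : s' ≠ s := fun h => h2 (by rw [h])
      have hne' : (s' : ℕ) ≠ s := fun h => hne (Fin.ext h)
      refine ⟨s', rfl, hne, ?_⟩
      simp only [F2, mk] at h4
      rw [Set.mem_uIcc] at h4
      by_cases ha : (s' : ℕ) ≤ j <;> by_cases hb : (s : ℕ) ≤ j
      · rw [if_pos ha, if_pos hb] at h4
        rcases h4 with h | h
        · have : ((j + 2 : ℕ) : ℝ) ≤ ((s' : ℕ) + 1 : ℕ) := by push_cast; linarith [h.1]
          have : j + 2 ≤ (s' : ℕ) + 1 := by exact_mod_cast this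
          omega
        · have : (((s : ℕ) : ℕ) : ℝ) ≤ ((s' : ℕ) : ℕ) := by linarith [h.1]
          have : (s : ℕ) ≤ s' := by exact_mod_cast this
          left; omega
      · rw [if_pos ha, if_neg hb] at h4
        rcases h4 with h | h
        · have : ((j + 2 : ℕ) : ℝ) ≤ ((s' : ℕ) + 1 : ℕ) := by push_cast; linarith [h.1]
          have : j + 2 ≤ (s' : ℕ) + 1 := by exact_mod_cast this
          omega
        · have : (((s : ℕ) + 2 : ℕ) : ℝ) ≤ ((s' : ℕ) + 1 : ℕ) := by push_cast; linarith [h.1]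
          have : (s : ℕ) + 2 ≤ s' + 1 := by exact_mod_cast this
          omega
      · rw [if_neg ha, if_pos hb] at h4
        rcases h4 with h | h
        · have : (((s' : ℕ) + 2 : ℕ) : ℝ) ≤ ((s : ℕ) + 1 : ℕ) := by push_cast; linarith [h.2]
          have : (s' : ℕ) + 2 ≤ s + 1 := by exact_mod_cast this
          omega
        · have : (((s' : ℕ) + 2 : ℕ) : ℝ) ≤ ((j : ℕ) + 2 : ℕ) := by push_cast; linarith [h.2]
          have : (s' : ℕ) + 2 ≤ j + 2 := by exact_mod_cast this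
          omega
      · rw [if_neg ha, if_neg hb] at h4
        rcases h4 with h | h
        · have : (((s' : ℕ) : ℕ) : ℝ) ≤ ((s : ℕ) : ℕ) := by linarith [h.2]
          have : (s' : ℕ) ≤ s := by exact_mod_cast this
          right; omega
        · have : (((s' : ℕ) + 2 : ℕ) : ℝ) ≤ ((j : ℕ) + 2 : ℕ) := by push_cast; linarith [h.2]
          have : (s' : ℕ) + 2 ≤ j + 2 := by exact_mod_cast this
          omega
    · exfalso
      have hne : t' ≠ t := fun h => h1 (by rw [h])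
      refine sepN N hne (z := 2 * ((t : ℕ) : ℝ) / (2 * N)) h3 ⟨le_rfl, ?_⟩
      have : (0 : ℝ) ≤ 1 / (2 * N) := by positivity
      linarith
  by_cases hs : (s : ℕ) ≤ j
  · refine (Set.ncard_le_ncard_of_injOn (t := ((Finset.Ioc (s : ℕ) j : Finset ℕ) : Set ℕ))
      (fun w => Sum.elim (fun s' : Fin (2 * j + 2) => (s' : ℕ)) (fun _ => 0) w) ?_ ?_
      (Finset.finite_toSet _)).trans ?_
    · intro w hw
      obtain ⟨s', rfl, hne, h | h⟩ := hblock w hw
      · simp only [Sum.elim_inl, Finset.coe_Ioc, Set.mem_Ioc]; omega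
      · omega
    · intro w hw w' hw' h
      obtain ⟨s', rfl, -, -⟩ := hblock w hw
      obtain ⟨s'', rfl, -, -⟩ := hblock w' hw'
      simp only [Sum.elim_inl] at h
      rw [Fin.ext h]
    · rw [Set.ncard_coe_finset, Nat.card_Ioc]; omega
  · refine (Set.ncard_le_ncard_of_injOn (t := ((Finset.Ico (j + 1) (s : ℕ) : Finset ℕ) : Set ℕ))
      (fun w => Sum.elim (fun s' : Fin (2 * j + 2) => (s' : ℕ)) (fun _ => 0) w) ?_ ?_
      (Finset.finite_toSet _)).trans ?_
    · intro w hw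
      obtain ⟨s', rfl, hne, h | h⟩ := hblock w hw
      · omega
      · simp only [Sum.elim_inl, Finset.coe_Ico, Set.mem_Ico]; omega
    · intro w hw w' hw' h
      obtain ⟨s', rfl, -, -⟩ := hblock w hw
      obtain ⟨s'', rfl, -, -⟩ := hblock w' hw'
      simp only [Sum.elim_inl] at h
      rw [Fin.ext h]
    · rw [Set.ncard_coe_finset, Nat.card_Ico]; omega

end fam2

theorem up {i j : ℕ} (h : i < j) :
    ∃ (V : Type) (_ : Finite V) (G : SimpleGraph V), IsArcVis j G ∧ ¬ IsArcVis i G := by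
  refine ⟨V2 j ((2 * j + 2) * 2 * (2 * (2 * j + 2) + 1) + 1), inferInstance,
    visGraph (F2 j _) j, isArcVis_visGraph _ _ (F2_disj j _), ?_⟩
  refine not_arcVis_join (i := i) Sum.inl Sum.inr Sum.inl_injective (fun _ _ => by simp) ?_ ?_
    Sum.inr_injective ?_ (by omega) (Nat.lt_succ_self _)
  · rintro (s | t)
    · exact Or.inl ⟨s, rfl⟩
    · exact Or.inr ⟨t, rfl⟩
  · exact fun s t => ⟨by simp, F2_xq j _ t s⟩
  · exact fun t t' htt h2 => F2_xx j _ htt h2.2

/-- No class of arc `k`-visibility graphs contains another one. -/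
theorem no_inclusion (i j : ℕ) (hij : i ≠ j) :
    ∃ (V : Type) (_ : Finite V) (G : SimpleGraph V), IsArcVis j G ∧ ¬ IsArcVis i G := by
  rcases lt_or_gt_of_ne hij with h | h
  · exact up h
  · exact down h

end Q133.ArcVis
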