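import Pool.Agent.Q133.ArcBasic

/-! Two obstructions to being an arc `i`-visibility graph. -/

namespace Q133.ArcVis

open Complex Set

theorem exists_lower (s : Finset ℝ) : ∀ n ≤ s.card, ∃ T ⊆ s, T.card = n ∧
    ∀ x ∈ T, ∀ y ∈ s, y ∉ T → x < y := by
  classical
  induction s using Finset.induction_on_max with
  | empty =>
    intro n hn
    refine ⟨∅, by simp, ?_, by simp⟩
    simp at hn ⊢; omega
  | insert a s ha ih =>
    intro n hn
    have has : a ∉ s := fun h => lt_irrefl _ (ha a h)
    rw [Finset.card_insert_of_notMem has] at hn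
    rcases Nat.lt_or_ge s.card n with h | h
    · refine ⟨insert a s, subset_rfl, ?_, fun x _ y hy hy2 => absurd hy hy2⟩
      rw [Finset.card_insert_of_notMem has]; omega
    · obtain ⟨T, hT, hc, hl⟩ := ih n h
      refine ⟨T, hT.trans (Finset.subset_insert _ _), hc, fun x hx y hy hyT => ?_⟩
      rcases Finset.mem_insert.1 hy with rfl | hy
      · exact ha x (hT hx)
      · exact hl x hx y hy hyT

section

variable {V : Type} [Finite V] {G : SimpleGraph V} {A : V → Arc} {i : ℕ}

/-- If `G` has no clique with `i + 2` vertices, then arcs which meet a common line are adjacent. -/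
theorem adj_of_crosses (hA : ∀ u v, u ≠ v → Disjoint (A u).pts (A v).pts)
    (hG : ∀ u v, u ≠ v → (G.Adj u v ↔ Sees A i u v)) (hcf : G.CliqueFree (i + 2))
    {θ : ℝ} {u v : V} (huv : u ≠ v) (hu : Crosses (A u) θ) (hv : Crosses (A v) θ) :
    G.Adj u v := by
  classical
  have := Fintype.ofFinite V
  set D : Finset V := Finset.univ.filter fun w => Crosses (A w) θ with hD
  by_cases hDc : D.card ≤ i + 1
  · rw [hG u v huv, sees_iff]
    obtain ⟨c, hc⟩ := hu
    obtain ⟨d, hd⟩ := hv
    refine ⟨θ, c, hc, d, hd, ?_⟩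
    have hsub : Bl A θ u v c d ⊆ ((D.erase u).erase v : Finset V) := by
      rintro w ⟨h1, h2, e, he, -⟩
      simp only [Finset.coe_erase, mem_sdiff, mem_singleton_iff, Finset.mem_coe]
      exact ⟨⟨by rw [hD]; simp only [Finset.mem_filter, Finset.mem_univ, true_and]; exact ⟨e, he⟩,
        h1⟩, h2⟩
    have h1 := Set.ncard_le_ncard hsub (Finset.finite_toSet _)
    rw [Set.ncard_coe_finset] at h1
    have hvD : v ∈ D.erase u := by
      simp [hD, huv.symm]; exact ⟨d, hd⟩
    rw [Finset.card_erase_of_mem hvD] at h1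
    have : (D.erase u).card ≤ D.card := Finset.card_le_card (Finset.erase_subset _ _)
    omega
  · exfalso
    push Not at hDc
    have hch : ∀ w : V, ∃ m : ℝ, Crosses (A w) θ → m ∈ X (A w) θ ∧ ∀ e ∈ X (A w) θ, m ≤ e := by
      intro w
      by_cases hw : Crosses (A w) θ
      · have hfin : (X (A w) θ).Finite := by
          refine Set.Finite.subset (Set.toFinite {(A w).r, -(A w).r}) ?_
          intro c hc
          rcases (X_iff _ _ _).1 hc with ⟨h, -⟩ | ⟨h, -⟩ <;> simp [h]
        obtain ⟨m, hm, hm2⟩ := Set.exists_min_image _ id hfin hw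
        exact ⟨m, fun _ => ⟨hm, hm2⟩⟩
      · exact ⟨0, fun h => absurd h hw⟩
    choose m hm using hch
    have hminj : Set.InjOn m D := by
      intro w hw w' hw' h
      simp only [hD, Finset.coe_filter, Finset.mem_univ, true_and, mem_ofPred_eq] at hw hw'
      have h1 := (hm w hw).1
      have h2 := (hm w' hw').1
      rw [h] at h1
      exact X_disj hA h1 h2
    obtain ⟨T, hT, hTc, hTl⟩ := exists_lower (D.image m) (i + 2) (by
      rw [Finset.card_image_of_injOn hminj]; omega)
    set T' : Finset V := D.filter fun w => m w ∈ T with hT'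
    have hT'c : T'.card = i + 2 := by
      rw [← hTc]
      have : T'.image m = T := by
        ext x
        simp only [hT', Finset.mem_image, Finset.mem_filter]
        constructor
        · rintro ⟨w, ⟨-, h⟩, rfl⟩; exact h
        · intro hx
          obtain ⟨w, hw, rfl⟩ := Finset.mem_image.1 (hT hx)
          exact ⟨w, ⟨hw, hx⟩, rfl⟩
      rw [← this, Finset.card_image_of_injOn]
      exact hminj.mono (by intro w hw; exact (Finset.mem_filter.1 hw).1)
    refine hcf T' ⟨?_, hT'c⟩
    intro a ha b hb hab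
    have ha' := (Finset.mem_filter.1 (Finset.mem_coe.1 ha))
    have hb' := (Finset.mem_filter.1 (Finset.mem_coe.1 hb))
    have haD : Crosses (A a) θ := (Finset.mem_filter.1 ha'.1).2
    have hbD : Crosses (A b) θ := (Finset.mem_filter.1 hb'.1).2
    rw [hG a b hab, sees_iff]
    refine ⟨θ, m a, (hm a haD).1, m b, (hm b hbD).1, ?_⟩
    have hsub : Bl A θ a b (m a) (m b) ⊆ ((T'.erase a).erase b : Finset V) := by
      rintro w ⟨h1, h2, e, he, he2⟩
      have hwD : w ∈ D := by
        rw [hD]; simp only [Finset.mem_filter, Finset.mem_univ, true_and]; exact ⟨e, he⟩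
      have hwc : Crosses (A w) θ := ⟨e, he⟩
      have hwT : m w ∈ T := by
        by_contra hcon
        have h3 := hTl _ ha'.2 (m w) (Finset.mem_image_of_mem m hwD) hcon
        have h4 := hTl _ hb'.2 (m w) (Finset.mem_image_of_mem m hwD) hcon
        have h5 := (hm w hwc).2 e he
        rcases Set.mem_uIcc.1 he2 with h | h <;> linarith [h.1, h.2]
      simp only [Finset.coe_erase, mem_sdiff, mem_singleton_iff, Finset.mem_coe]
      exact ⟨⟨Finset.mem_filter.2 ⟨hwD, hwT⟩, h1⟩, h2⟩
    have h1 := Set.ncard_le_ncard hsub (Finset.finite_toSet _)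
    rw [Set.ncard_coe_finset, Finset.card_erase_of_mem, Finset.card_erase_of_mem, hT'c] at h1
    · omega
    · exact Finset.mem_coe.1 ha
    · refine Finset.mem_erase.2 ⟨hab.symm, Finset.mem_coe.1 hb⟩

/-- A graph without a clique on `i + 2` vertices and with an induced subdivided claw is not an
arc `i`-visibility graph. -/
theorem not_arcVis_spider (hcf : G.CliqueFree (i + 2)) (c : V) (a b : Fin 3 → V)
    (hca : ∀ m, G.Adj c (a m)) (hab : ∀ m, G.Adj (a m) (b m)) (hcb : ∀ m, ¬ G.Adj c (b m))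
    (hcb' : ∀ m, c ≠ b m) (haa : ∀ m n, m ≠ n → ¬ G.Adj (a m) (a n)) (hinj : Function.Injective a) :
    ¬ IsArcVis i G := by
  rintro ⟨A, hA, hG⟩
  have key : ∀ m, Crosses (A (a m)) (A c).a ∨ Crosses (A (a m)) ((A c).a + (A c).l) := by
    intro m
    obtain ⟨θ, h1, h2⟩ := ((hG _ _ (hca m).ne).1 (hca m)).crosses
    obtain ⟨ψ, h3, h4⟩ := ((hG _ _ (hab m).ne).1 (hab m)).crosses
    obtain ⟨n, hn⟩ := (crosses_iff _ _).1 h1
    have h2' := (crosses_add (A (a m)) θ n).2 h2
    set θ' := θ + n * Real.pi with hθ'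
    obtain ⟨p, hp⟩ := (crosses_iff _ _).1 h2'
    obtain ⟨q, hq⟩ := (crosses_iff _ _).1 h3
    set ψ' := ψ + (q - p : ℤ) * Real.pi with hψ'
    have h4' : Crosses (A (b m)) ψ' := (crosses_add _ _ _).2 h4
    have hψ'2 : ψ' + p * Real.pi ∈ Icc (A (a m)).a ((A (a m)).a + (A (a m)).l) := by
      convert hq using 1; rw [hψ']; push_cast; ring
    have hnot : ψ' ∉ Icc (A c).a ((A c).a + (A c).l) := by
      intro h
      exact hcb m (adj_of_crosses hA hG hcf (hcb' m) (crosses_of_mem _ h) h4')
    rw [mem_Icc, not_and_or, not_le, not_le] at hnot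
    rcases hnot with h | h
    · left
      refine (crosses_iff _ _).2 ⟨p, ?_, ?_⟩
      · have := hψ'2.1; linarith
      · have := hp.2; have := hn.1; linarith
    · right
      refine (crosses_iff _ _).2 ⟨p, ?_, ?_⟩
      · have := hp.1; have := hn.2; linarith
      · have := hψ'2.2; linarith
  have contra : ∀ m n, m ≠ n → ∀ θ, Crosses (A (a m)) θ → Crosses (A (a n)) θ → False :=
    fun m n hmn θ h1 h2 => haa m n hmn (adj_of_crosses hA hG hcf (hinj.ne hmn) h1 h2)
  rcases key 0 with h0 | h0 <;> rcases key 1 with h1 | h1 <;> rcases key 2 with h2 | h2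
  · exact contra 0 1 (by decide) _ h0 h1
  · exact contra 0 1 (by decide) _ h0 h1
  · exact contra 0 2 (by decide) _ h0 h2
  · exact contra 1 2 (by decide) _ h1 h2
  · exact contra 1 2 (by decide) _ h1 h2
  · exact contra 0 2 (by decide) _ h0 h2
  · exact contra 0 1 (by decide) _ h0 h1
  · exact contra 0 1 (by decide) _ h0 h1

end


section

variable {V : Type} {A : V → Arc}

theorem bl_two_pi (A : V → Arc) (θ : ℝ) (u v : V) (c d : ℝ) (n : ℤ) :
    Bl A (θ + n * (2 * Real.pi)) u v c d = Bl A θ u v c d := by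
  ext w
  simp only [Bl, mem_ofPred_eq, X_two_pi]

theorem bl_pi (A : V → Arc) (θ : ℝ) (u v : V) (c d : ℝ) :
    Bl A (θ + Real.pi) u v c d = Bl A θ u v (-c) (-d) := by
  ext w
  simp only [Bl, mem_ofPred_eq, X_pi]
  refine and_congr_right fun _ => and_congr_right fun _ => ?_
  constructor
  · rintro ⟨e, he, he2⟩
    refine ⟨-e, he, ?_⟩
    rw [mem_uIcc] at he2 ⊢
    rcases he2 with h | h
    · right; constructor <;> linarith [h.1, h.2]
    · left; constructor <;> linarith [h.1, h.2]
  · rintro ⟨e, he, he2⟩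
    refine ⟨-e, by rwa [neg_neg], ?_⟩
    rw [mem_uIcc] at he2 ⊢
    rcases he2 with h | h
    · right; constructor <;> linarith [h.1, h.2]
    · left; constructor <;> linarith [h.1, h.2]

theorem shift_mem (B C : Arc) (h1 : ¬ Crosses B C.a) (h2 : ¬ Crosses B (C.a + C.l)) {θ θ' : ℝ}
    (hθ : θ ∈ Icc B.a (B.a + B.l)) (hθ' : θ' ∈ Icc B.a (B.a + B.l)) (k : ℤ)
    (h : θ + k * Real.pi ∈ Icc C.a (C.a + C.l)) : θ' + k * Real.pi ∈ Icc C.a (C.a + C.l) := by
  by_contra hcon
  rw [mem_Icc, not_and_or, not_le, not_le] at hcon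
  rcases hcon with hc | hc
  · apply h1
    refine (crosses_iff _ _).2 ⟨-k, ?_⟩
    push_cast
    constructor
    · linarith [hθ'.1, h.1]
    · linarith [hθ.2, h.1]
  · apply h2
    refine (crosses_iff _ _).2 ⟨-k, ?_⟩
    push_cast
    constructor
    · linarith [hθ.1, h.2]
    · linarith [hθ'.2, h.2]

theorem X_const (B C : Arc) (h1 : ¬ Crosses B C.a) (h2 : ¬ Crosses B (C.a + C.l)) {θ θ' : ℝ}
    (hθ : θ ∈ Icc B.a (B.a + B.l)) (hθ' : θ' ∈ Icc B.a (B.a + B.l)) {e : ℝ} (he : e ∈ X C θ) :
    e ∈ X C θ' := by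
  rcases (X_iff _ _ _).1 he with ⟨hr, n, hn⟩ | ⟨hr, n, hn⟩
  · refine (X_iff _ _ _).2 (Or.inl ⟨hr, n, ?_⟩)
    have := shift_mem B C h1 h2 hθ hθ' (2 * n) (by push_cast; convert hn using 1; ring)
    push_cast at this; convert this using 1; ring
  · refine (X_iff _ _ _).2 (Or.inr ⟨hr, n, ?_⟩)
    have := shift_mem B C h1 h2 hθ hθ' (2 * n + 1) (by push_cast; convert hn using 1; ring)
    push_cast at this; convert this using 1; ring

/-- normalisation of a line of sight: it starts at the point of coordinate `r` -/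
theorem sees_norm {k : ℕ} {u v : V} (h : Sees A k u v) :
    ∃ θ ∈ Icc (A u).a ((A u).a + (A u).l), ∃ d ∈ X (A v) θ,
      (Bl A θ u v (A u).r d).ncard ≤ k := by
  obtain ⟨θ, c, hc, d, hd, hk⟩ := (sees_iff _ _ _ _).1 h
  rcases (X_iff _ _ _).1 hc with ⟨rfl, n, hn⟩ | ⟨rfl, n, hn⟩
  · exact ⟨_, hn, d, (X_two_pi _ _ _ _).2 hd, by rwa [bl_two_pi]⟩
  · refine ⟨_, hn, -d, (X_two_pi _ _ _ _).2 ((X_pi _ _ _).2 (by rwa [neg_neg])), ?_⟩
    rwa [bl_two_pi, bl_pi, neg_neg]

end

section

variable {V : Type} [Finite V] {G : SimpleGraph V} {i Qn N : ℕ}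

theorem not_arcVis_join (q : Fin Qn → V) (x : Fin N → V) (hqi : Function.Injective q)
    (hqx : ∀ s t, q s ≠ x t) (hcov : ∀ v, (∃ s, v = q s) ∨ ∃ t, v = x t)
    (hadj : ∀ s t, G.Adj (x t) (q s)) (hxi : Function.Injective x)
    (hind : ∀ t t', t ≠ t' → ¬ G.Adj (x t) (x t')) (hQ : 2 * (i + 1) < Qn)
    (hN : Qn * 2 * (2 * Qn + 1) < N) : ¬ IsArcVis i G := by
  classical
  rintro ⟨A, hA, hG⟩
  -- every arc of an `x` contains an end of some arc of a `q`
  have claim1 : ∀ t, ∃ s, Crosses (A (x t)) (A (q s)).a ∨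
      Crosses (A (x t)) ((A (q s)).a + (A (q s)).l) := by
    intro t
    by_contra hcon
    push Not at hcon
    have hsee : ∀ s, ∃ d : ℝ, d ∈ X (A (q s)) (A (x t)).a ∧
        (Finset.univ.filter fun s' => s' ≠ s ∧ ∃ e ∈ X (A (q s')) (A (x t)).a,
          e ∈ uIcc (A (x t)).r d).card ≤ i := by
      intro s
      obtain ⟨θ, hθ, d, hd, hk⟩ := sees_norm ((hG _ _ (hqx s t).symm).1 (hadj s t))
      have hmem : (A (x t)).a ∈ Icc (A (x t)).a ((A (x t)).a + (A (x t)).l) :=
        ⟨le_rfl, by linarith [(A (x t)).l_nonneg]⟩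
      refine ⟨d, X_const _ _ (hcon s).1 (hcon s).2 hθ hmem hd, le_trans ?_ hk⟩
      rw [← Set.ncard_coe_finset]
      refine Set.ncard_le_ncard_of_injOn q ?_ (hqi.injOn) (Set.toFinite _)
      intro s' hs'
      simp only [Finset.coe_filter, Finset.mem_univ, true_and, mem_ofPred_eq] at hs'
      obtain ⟨h1, e, he, he2⟩ := hs'
      exact ⟨hqx s' t, hqi.ne h1, e,
        X_const _ _ (hcon s').1 (hcon s').2 hmem hθ he, he2⟩
    choose d hd1 hd2 using hsee
    have hrx : (A (x t)).r ∈ X (A (x t)) (A (x t)).a :=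
      (X_iff _ _ _).2 (Or.inl ⟨rfl, 0, by simp [(A (x t)).l_nonneg]⟩)
    have hdne : ∀ s, d s ≠ (A (x t)).r := by
      intro s h
      have := hd1 s
      rw [h] at this
      exact hqx s t (X_disj hA this hrx)
    have hplus : (Finset.univ.filter fun s => (A (x t)).r < d s).card ≤ i + 1 := by
      by_contra hc
      push Not at hc
      obtain ⟨s, hs, hmax⟩ := Finset.exists_max_image _ d (Finset.card_pos.1 (by omega :
        0 < (Finset.univ.filter fun s => (A (x t)).r < d s).card))
      have hsub : (Finset.univ.filter fun s => (A (x t)).r < d s).erase s ⊆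
          Finset.univ.filter fun s' => s' ≠ s ∧ ∃ e ∈ X (A (q s')) (A (x t)).a,
            e ∈ uIcc (A (x t)).r (d s) := by
        intro s' hs'
        rw [Finset.mem_erase, Finset.mem_filter] at hs'
        refine Finset.mem_filter.2 ⟨Finset.mem_univ _, hs'.1, d s', hd1 s', ?_⟩
        exact mem_uIcc.2 (Or.inl ⟨hs'.2.2.le, hmax s' (Finset.mem_filter.2 hs'.2)⟩)
      have h1 := (Finset.card_le_card hsub).trans (hd2 s)
      rw [Finset.card_erase_of_mem hs] at h1
      omega
    have hminus : (Finset.univ.filter fun s => d s < (A (x t)).r).card ≤ i + 1 := by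
      by_contra hc
      push Not at hc
      obtain ⟨s, hs, hmin⟩ := Finset.exists_min_image _ d (Finset.card_pos.1 (by omega :
        0 < (Finset.univ.filter fun s => d s < (A (x t)).r).card))
      have hsub : (Finset.univ.filter fun s => d s < (A (x t)).r).erase s ⊆
          Finset.univ.filter fun s' => s' ≠ s ∧ ∃ e ∈ X (A (q s')) (A (x t)).a,
            e ∈ uIcc (A (x t)).r (d s) := by
        intro s' hs'
        rw [Finset.mem_erase, Finset.mem_filter] at hs'
        refine Finset.mem_filter.2 ⟨Finset.mem_univ _, hs'.1, d s', hd1 s', ?_⟩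
        exact mem_uIcc.2 (Or.inr ⟨hmin s' (Finset.mem_filter.2 hs'.2), hs'.2.2.le⟩)
      have h1 := (Finset.card_le_card hsub).trans (hd2 s)
      rw [Finset.card_erase_of_mem hs] at h1
      omega
    have hun : (Finset.univ : Finset (Fin Qn)) ⊆
        (Finset.univ.filter fun s => (A (x t)).r < d s) ∪
          (Finset.univ.filter fun s => d s < (A (x t)).r) := by
      intro s _
      rcases lt_or_gt_of_ne (hdne s) with h | h
      · exact Finset.mem_union_right _ (Finset.mem_filter.2 ⟨Finset.mem_univ _, h⟩)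
      · exact Finset.mem_union_left _ (Finset.mem_filter.2 ⟨Finset.mem_univ _, h⟩)
    have h1 := (Finset.card_le_card hun).trans (Finset.card_union_le _ _)
    rw [Finset.card_univ, Fintype.card_fin] at h1
    omega
  -- a line meets few arcs of `x`s
  have claim2 : ∀ θ, (Finset.univ.filter fun t => Crosses (A (x t)) θ).card ≤ 2 * Qn + 1 := by
    intro θ
    have hch : ∀ t : Fin N, ∃ m : ℝ, Crosses (A (x t)) θ → m ∈ X (A (x t)) θ := by
      intro t
      by_cases hw : Crosses (A (x t)) θ
      · obtain ⟨m, hm⟩ := hw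
        exact ⟨m, fun _ => hm⟩
      · exact ⟨0, fun h => absurd h hw⟩
    choose m hm using hch
    have hsep : ∀ t t', Crosses (A (x t)) θ → Crosses (A (x t')) θ → m t < m t' →
        ∃ s, ∃ e ∈ X (A (q s)) θ, m t < e ∧ e < m t' := by
      intro t t' ht ht' hlt
      by_contra hno
      push Not at hno
      have htt : t ≠ t' := by rintro rfl; exact lt_irrefl _ hlt
      set E : Set ℝ := {e | e ∈ Icc (m t) (m t') ∧ ∃ t'', t'' ≠ t ∧ e ∈ X (A (x t'')) θ} with hE
      have hEfin : E.Finite := by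
        refine Set.Finite.subset (Set.finite_iUnion (fun v : Fin N =>
          Set.toFinite {(A (x v)).r, -(A (x v)).r})) ?_
        rintro e ⟨-, t'', -, he⟩
        refine Set.mem_iUnion.2 ⟨t'', ?_⟩
        rcases (X_iff _ _ _).1 he with ⟨h, -⟩ | ⟨h, -⟩ <;> simp [h]
      have hEne : E.Nonempty := ⟨m t', ⟨hlt.le, le_rfl⟩, t', htt.symm, hm t' ht'⟩
      obtain ⟨e0, ⟨he0, t'', ht'', hx0⟩, hmin⟩ := Set.exists_min_image E id hEfin hEne
      refine hind t t'' ht''.symm ?_
      rw [hG _ _ (hxi.ne ht''.symm), sees_iff]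
      refine ⟨θ, m t, hm t ht, e0, hx0, ?_⟩
      have : Bl A θ (x t) (x t'') (m t) e0 = ∅ := by
        rw [Set.eq_empty_iff_forall_notMem]
        rintro w ⟨h1, h2, e, he, he2⟩
        rw [Set.uIcc_of_le he0.1] at he2
        rcases hcov w with ⟨s, rfl⟩ | ⟨s, rfl⟩
        · have h3 : e ≠ m t := fun h => h1 (X_disj hA he (h ▸ hm t ht))
          have h4 : e ≠ m t' := fun h => hqx s t' (X_disj hA he (h ▸ hm t' ht'))
          exact absurd (lt_of_le_of_ne (he2.2.trans he0.2) h4)
            (not_lt.2 (hno s e he (lt_of_le_of_ne he2.1 h3.symm)))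
        · have hst : s ≠ t := fun h => h1 (by rw [h])
          have h3 : e0 ≤ e := hmin e ⟨⟨he2.1, he2.2.trans he0.2⟩, s, hst, he⟩
          have h4 : e = e0 := le_antisymm he2.2 h3
          exact h2 (X_disj hA he (h4 ▸ hx0))
      rw [this]; simp
    set P : Finset ℝ := ((Finset.univ : Finset (Fin Qn × Bool)).image
      fun p => if p.2 then (A (q p.1)).r else -(A (q p.1)).r).filter
        fun e => ∃ s, e ∈ X (A (q s)) θ with hP
    have hPc : P.card ≤ 2 * Qn := by
      refine (Finset.card_filter_le _ _).trans (Finset.card_image_le.trans ?_)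
      simp [mul_comm]
    have hPm : ∀ s, ∀ e ∈ X (A (q s)) θ, e ∈ P := by
      intro s e he
      refine Finset.mem_filter.2 ⟨Finset.mem_image.2 ?_, s, he⟩
      rcases (X_iff _ _ _).1 he with ⟨h, -⟩ | ⟨h, -⟩
      · exact ⟨(s, true), Finset.mem_univ _, by simp [h]⟩
      · exact ⟨(s, false), Finset.mem_univ _, by simp [h]⟩
    have hg : ∀ t t', Crosses (A (x t)) θ → Crosses (A (x t')) θ → m t < m t' →
        (P.filter (· < m t)).card < (P.filter (· < m t')).card := by
      intro t t' ht ht' hlt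
      obtain ⟨s, e, he, h1, h2⟩ := hsep t t' ht ht' hlt
      refine Finset.card_lt_card (Finset.ssubset_iff_of_subset ?_ |>.2 ⟨e, ?_, ?_⟩)
      · intro y hy
        rw [Finset.mem_filter] at hy ⊢
        exact ⟨hy.1, hy.2.trans hlt⟩
      · exact Finset.mem_filter.2 ⟨hPm s e he, h2⟩
      · intro hy
        exact absurd (Finset.mem_filter.1 hy).2 (not_lt.2 h1.le)
    have hle := Finset.card_le_card_of_injOn
      (s := Finset.univ.filter fun t => Crosses (A (x t)) θ) (t := Finset.range (2 * Qn + 1))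
      (fun t => (P.filter (· < m t)).card) (by
        intro t _
        simp only [Finset.coe_range, Set.mem_Iio]
        exact Nat.lt_succ_of_le ((Finset.card_filter_le _ _).trans hPc)) (by
        intro t ht t' ht' h
        have ht1 : Crosses (A (x t)) θ := (Finset.mem_filter.1 (Finset.mem_coe.1 ht)).2
        have ht2 : Crosses (A (x t')) θ := (Finset.mem_filter.1 (Finset.mem_coe.1 ht')).2
        by_contra hne
        rcases lt_trichotomy (m t) (m t') with hlt | heq | hlt
        · exact absurd h (hg t t' ht1 ht2 hlt).ne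
        · have h3 := hm t ht1
          rw [heq] at h3
          exact hne (hxi (X_disj hA h3 (hm t' ht2)))
        · exact absurd h (hg t' t ht2 ht1 hlt).ne')
    rwa [Finset.card_range] at hle
  -- pigeonhole
  have hf : ∀ t : Fin N, ∃ p : Fin Qn × Bool, Crosses (A (x t))
      (if p.2 then (A (q p.1)).a else (A (q p.1)).a + (A (q p.1)).l) := by
    intro t
    obtain ⟨s, h | h⟩ := claim1 t
    · exact ⟨(s, true), by simpa using h⟩
    · exact ⟨(s, false), by simpa using h⟩
  choose f hf using hf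
  obtain ⟨p, hp⟩ := Fintype.exists_lt_card_fiber_of_mul_lt_card f (n := 2 * Qn + 1) (by
    simpa using hN)
  have h1 := claim2 (if p.2 then (A (q p.1)).a else (A (q p.1)).a + (A (q p.1)).l)
  have h2 : (Finset.univ.filter fun t => f t = p).card ≤ 2 * Qn + 1 := by
    refine le_trans (Finset.card_le_card ?_) h1
    intro t ht
    rw [Finset.mem_filter] at ht ⊢
    refine ⟨Finset.mem_univ _, ?_⟩
    rw [← ht.2]; exact hf t
  omega

end

end Q133.ArcVis
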