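import Pool.Agent.Q133.BHData

/-! Every orientation of the 58-vertex graph has a vertex with two out-neighbours and two
in-neighbours. -/

set_option autoImplicit false

namespace Pool.Agent.Q133.BH

theorem or_shift_testBit {A v w : ℕ} (h : (A ||| 1 <<< v).testBit w = true) :
    A.testBit w = true ∨ w = v := by
  rw [Nat.testBit_or, Bool.or_eq_true] at h
  rcases h with h | h
  · exact Or.inl h
  · right
    rw [Nat.one_shiftLeft, Nat.testBit_two_pow] at h
    simp only [decide_eq_true_eq] at h
    exact h.symm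

theorem ok_sound (t : Tr) : ∀ (A B : ℕ) (c : ℕ → Bool), ok t A B = true →
    (∀ v, A.testBit v = true → c v = true) → (∀ v, B.testBit v = true → c v = false) →
    ∃ (S : ℕ) (b : Bool), (∀ v, S.testBit v = true → c v = b) ∧
      (S.testBit 18 = true ∨ S.testBit 19 = true ∨ S.testBit 20 = true) ∧ pop S ≤ ecount S := by
  induction t with
  | lf S =>
    intro A B c h hA hB
    simp only [ok, Bool.and_eq_true, Bool.or_eq_true, beq_iff_eq, Nat.ble_eq] at h
    obtain ⟨h1, h2, h3⟩ := h
    rcases h1 with h1 | h1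
    · refine ⟨S, true, ?_, ?_, h3⟩
      · intro v hv
        apply hA
        rw [← h1, Nat.testBit_and, Bool.and_eq_true] at hv
        exact hv.2
      · rcases h2 with (h2 | h2) | h2
        · exact Or.inl h2
        · exact Or.inr (Or.inl h2)
        · exact Or.inr (Or.inr h2)
    · refine ⟨S, false, ?_, ?_, h3⟩
      · intro v hv
        apply hB
        rw [← h1, Nat.testBit_and, Bool.and_eq_true] at hv
        exact hv.2
      · rcases h2 with (h2 | h2) | h2
        · exact Or.inl h2
        · exact Or.inr (Or.inl h2)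
        · exact Or.inr (Or.inr h2)
  | nd v l r ihl ihr =>
    intro A B c h hA hB
    simp only [ok, Bool.and_eq_true] at h
    cases hc : c v with
    | true =>
      refine ihl _ _ c h.1 ?_ hB
      intro w hw
      rcases or_shift_testBit hw with h' | h'
      · exact hA w h'
      · rw [h', hc]
    | false =>
      refine ihr _ _ c h.2 hA ?_
      intro w hw
      rcases or_shift_testBit hw with h' | h'
      · exact hB w h'
      · rw [h', hc]

theorem T_lemma (c : ℕ → Bool) :
    ∃ (S : ℕ) (b : Bool), (∀ v, S.testBit v = true → c v = b) ∧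
      (S.testBit 18 = true ∨ S.testBit 19 = true ∨ S.testBit 20 = true) ∧ pop S ≤ ecount S :=
  ok_sound tree 0 0 c ok_tree (by simp) (by simp)

theorem ET_nodup : ET.Nodup := by decide +kernel
theorem ET_lt : ∀ e ∈ ET, e.1 < e.2 ∧ e.2 < 21 := by decide +kernel

theorem phi_inj : ∀ i < 3, ∀ v < 21, ∀ w < 21, phi i v = phi i w → v = w := by decide +kernel
theorem phi_lt : ∀ i < 3, ∀ v < 21, phi i v < 58 := by decide +kernel

/-- the common corner vertex of two copies other than 57 -/
def com (i j : ℕ) : ℕ := if i + j = 1 then 55 else if i + j = 3 then 56 else 54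

def phiComB : Bool :=
  (List.range 3).all fun i => (List.range 3).all fun j => (i == j) ||
    (List.range 21).all fun v => (List.range 21).all fun w =>
      (phi i v != phi j w) || (phi i v == 57 || phi i v == com i j)

theorem phiComB_ok : phiComB = true := by decide +kernel

theorem phi_common : ∀ i < 3, ∀ j < 3, i ≠ j → ∀ v < 21, ∀ w < 21, phi i v = phi j w →
    (phi i v = 57 ∨ phi i v = com i j) := by
  intro i hi j hj hij v hv w hw h
  have := phiComB_ok
  simp only [phiComB, List.all_eq_true, List.mem_range, Bool.or_eq_true, beq_iff_eq, bne_iff_ne]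
    at this
  rcases this i hi j hj with h' | h'
  · exact absurd h' hij
  · rcases h' v hv w hw with h'' | h''
    · exact absurd h h''
    · exact h''

theorem mem_E0 {i : ℕ} (hi : i < 3) {e : ℕ × ℕ} (he : e ∈ ET) : (phi i e.1, phi i e.2) ∈ E0 := by
  unfold E0
  simp only [List.mem_append, List.mem_map]
  interval_cases i
  · exact Or.inl ⟨e, he, rfl⟩
  · exact Or.inr (Or.inl ⟨e, he, rfl⟩)
  · exact Or.inr (Or.inr ⟨e, he, rfl⟩)

def cornersB : Bool :=
  (List.range 3).all fun i => (List.range 3).all fun j =>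
    (List.range 21).all fun v => (List.range 21).all fun w => (Nat.blt v 18 || Nat.blt w 18) ||
      (phi i v == phi j w || (E0.contains (phi i v, phi j w) || E0.contains (phi j w, phi i v)))

theorem cornersB_ok : cornersB = true := by decide +kernel

/-- any two corners are adjacent or equal -/
theorem corners : ∀ i < 3, ∀ j < 3, ∀ v < 21, ∀ w < 21, 18 ≤ v → 18 ≤ w →
    phi i v = phi j w ∨ (phi i v, phi j w) ∈ E0 ∨ (phi j w, phi i v) ∈ E0 := by
  intro i hi j hj v hv w hw hv' hw'
  have := cornersB_ok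
  simp only [cornersB, List.all_eq_true, List.mem_range, Bool.or_eq_true, beq_iff_eq,
    List.contains_iff_mem, Nat.blt_eq] at this
  rcases this i hi j hj v hv w hw with h' | h'
  · omega
  · exact h'

/-- the graph relation of a colour class -/
def R (D : ℕ → ℕ → Prop) (b : Bool) (u v : ℕ) : Prop := if b = true then D u v else D v u

theorem closure {D : ℕ → ℕ → Prop} (hD : ∀ e ∈ E0, D e.1 e.2 ∨ D e.2 e.1) {c : ℕ → Bool}
    (huniq : ∀ v w w', R D (c v) v w → R D (c v) v w' → w = w')
    {i : ℕ} (hi : i < 3) {S : ℕ} {b : Bool}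
    (hS : ∀ v < 21, S.testBit v = true → c (phi i v) = b) (hcard : pop S ≤ ecount S) :
    ∀ v < 21, S.testBit v = true → ∃ w < 21, S.testBit w = true ∧ R D b (phi i v) (phi i w) := by
  classical
  set F : Finset (ℕ × ℕ) := (ET.filter (fun e => S.testBit e.1 && S.testBit e.2)).toFinset with hF
  set P : Finset ℕ := ((List.range 21).filter (fun v => S.testBit v)).toFinset with hP
  have hFc : F.card = ecount S := by
    rw [hF, List.toFinset_card_of_nodup (ET_nodup.filter _)]
    rfl
  have hPc : P.card = pop S := by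
    rw [hP, List.toFinset_card_of_nodup (List.nodup_range.filter _)]
    rfl
  have hmF : ∀ e, e ∈ F ↔ e ∈ ET ∧ S.testBit e.1 = true ∧ S.testBit e.2 = true := by
    intro e
    rw [hF, List.mem_toFinset, List.mem_filter, Bool.and_eq_true]
  have hmP : ∀ v, v ∈ P ↔ v < 21 ∧ S.testBit v = true := by
    intro v
    rw [hP, List.mem_toFinset, List.mem_filter, List.mem_range]
  let src : ℕ × ℕ → ℕ := fun e => if R D b (phi i e.1) (phi i e.2) then e.1 else e.2
  have hdir : ∀ e ∈ F, ¬ R D b (phi i e.1) (phi i e.2) → R D b (phi i e.2) (phi i e.1) := by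
    intro e he hn
    have h := hD _ (mem_E0 hi ((hmF e).1 he).1)
    unfold R at hn ⊢
    cases b <;> simp_all
  have hmaps : ∀ e ∈ F, src e ∈ P := by
    intro e he
    have h := (hmF e).1 he
    have h' := ET_lt e h.1
    rw [hmP]
    simp only [src]
    split_ifs
    · exact ⟨by omega, h.2.1⟩
    · exact ⟨h'.2, h.2.2⟩
  have hinj : Set.InjOn src F := by
    intro e he f hf hef
    have he1 := (hmF e).1 he
    have hf1 := (hmF f).1 hf
    have he2 := ET_lt e he1.1
    have hf2 := ET_lt f hf1.1
    have ce1 := hS e.1 (by omega) he1.2.1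
    have ce2 := hS e.2 (by omega) he1.2.2
    have cf1 := hS f.1 (by omega) hf1.2.1
    have cf2 := hS f.2 (by omega) hf1.2.2
    by_cases h1 : R D b (phi i e.1) (phi i e.2) <;> by_cases h2 : R D b (phi i f.1) (phi i f.2)
    · simp only [src, if_pos h1, if_pos h2] at hef
      rw [← hef] at h2
      have := huniq (phi i e.1) _ _ (by rw [ce1]; exact h1) (by rw [ce1]; exact h2)
      have := phi_inj i hi _ (by omega) _ (by omega) this
      exact Prod.ext hef this
    · have h2' := hdir f hf h2
      simp only [src, if_pos h1, if_neg h2] at hef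
      rw [← hef] at h2'
      have := huniq (phi i e.1) _ _ (by rw [ce1]; exact h1) (by rw [ce1]; exact h2')
      have := phi_inj i hi _ (by omega) _ (by omega) this
      omega
    · have h1' := hdir e he h1
      simp only [src, if_neg h1, if_pos h2] at hef
      rw [← hef] at h2
      have := huniq (phi i e.2) _ _ (by rw [ce2]; exact h1') (by rw [ce2]; exact h2)
      have := phi_inj i hi _ (by omega) _ (by omega) this
      omega
    · have h1' := hdir e he h1
      have h2' := hdir f hf h2
      simp only [src, if_neg h1, if_neg h2] at hef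
      rw [← hef] at h2'
      have := huniq (phi i e.2) _ _ (by rw [ce2]; exact h1') (by rw [ce2]; exact h2')
      have := phi_inj i hi _ (by omega) _ (by omega) this
      exact Prod.ext this hef
  have hsurj := Finset.surjOn_of_injOn_of_card_le src hmaps hinj (by rw [hFc, hPc]; exact hcard)
  intro v hv hSv
  obtain ⟨e, he, hev⟩ := hsurj (Finset.mem_coe.2 ((hmP v).2 ⟨hv, hSv⟩))
  have he' := Finset.mem_coe.1 he
  have he1 := (hmF e).1 he'
  have he2 := ET_lt e he1.1
  by_cases h1 : R D b (phi i e.1) (phi i e.2)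
  · simp only [src, if_pos h1] at hev
    exact ⟨e.2, he2.2, he1.2.2, by rw [← hev]; exact h1⟩
  · simp only [src, if_neg h1] at hev
    exact ⟨e.1, by omega, he1.2.1, by rw [← hev]; exact hdir e he' h1⟩

theorem two_copies {D : ℕ → ℕ → Prop} (hD : ∀ e ∈ E0, D e.1 e.2 ∨ D e.2 e.1)
    (hasym : ∀ i j, D i j → ¬ D j i) {c : ℕ → Bool}
    (huniq : ∀ v w w', R D (c v) v w → R D (c v) v w' → w = w')
    {i j : ℕ} (hi : i < 3) (hj : j < 3) (hij : i ≠ j) {S S' : ℕ} {b : Bool}
    (hS : ∀ v < 21, S.testBit v = true → c (phi i v) = b) (hcard : pop S ≤ ecount S)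
    (hS' : ∀ v < 21, S'.testBit v = true → c (phi j v) = b) (hcard' : pop S' ≤ ecount S')
    {p q : ℕ} (hp : 18 ≤ p) (hp' : p < 21) (hpS : S.testBit p = true)
    (hq : 18 ≤ q) (hq' : q < 21) (hqS : S'.testBit q = true) : False := by
  have hasymR : ∀ u v, R D b u v → ¬ R D b v u := by
    intro u v h
    unfold R at h ⊢
    cases b <;> simp_all
  have hcl := closure hD huniq hi hS hcard
  have hcl' := closure hD huniq hj hS' hcard'
  -- a common element
  have hcom : ∃ r, (∃ v < 21, S.testBit v = true ∧ phi i v = r) ∧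
      (∃ w < 21, S'.testBit w = true ∧ phi j w = r) := by
    rcases corners i hi j hj p hp' q hq' hp hq with h | h
    · exact ⟨phi i p, ⟨p, hp', hpS, rfl⟩, ⟨q, hq', hqS, h.symm⟩⟩
    · have hR : R D b (phi i p) (phi j q) ∨ R D b (phi j q) (phi i p) := by
        unfold R
        rcases h with h | h
        · have h3 := hD _ h
          cases b
          · simpa using h3.symm
          · simpa using h3
        · have h3 := hD _ h
          cases b
          · simpa using h3
          · simpa using h3.symm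
      rcases hR with hR | hR
      · obtain ⟨w, hw, hwS, hw2⟩ := hcl p hp' hpS
        have := huniq (phi i p) _ _ (by rw [hS p hp' hpS]; exact hR)
          (by rw [hS p hp' hpS]; exact hw2)
        exact ⟨phi j q, ⟨w, hw, hwS, this.symm⟩, ⟨q, hq', hqS, rfl⟩⟩
      · obtain ⟨w, hw, hwS, hw2⟩ := hcl' q hq' hqS
        have := huniq (phi j q) _ _ (by rw [hS' q hq' hqS]; exact hR)
          (by rw [hS' q hq' hqS]; exact hw2)
        exact ⟨phi i p, ⟨p, hp', hpS, rfl⟩, ⟨w, hw, hwS, this.symm⟩⟩
  have hnext : ∀ r, ((∃ v < 21, S.testBit v = true ∧ phi i v = r) ∧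
      (∃ w < 21, S'.testBit w = true ∧ phi j w = r)) →
      ∃ r', R D b r r' ∧ ((∃ v < 21, S.testBit v = true ∧ phi i v = r') ∧
      (∃ w < 21, S'.testBit w = true ∧ phi j w = r')) := by
    rintro r ⟨⟨v, hv, hvS, rfl⟩, ⟨w, hw, hwS, hw2⟩⟩
    obtain ⟨v', h1, h2, h3⟩ := hcl v hv hvS
    obtain ⟨w', h1', h2', h3'⟩ := hcl' w hw hwS
    rw [hw2] at h3'
    have := huniq (phi i v) _ _ (by rw [hS v hv hvS]; exact h3)
      (by rw [hS v hv hvS]; exact h3')
    exact ⟨phi i v', h3, ⟨v', h1, h2, rfl⟩, ⟨w', h1', h2', this.symm⟩⟩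
  have hmem : ∀ r, ((∃ v < 21, S.testBit v = true ∧ phi i v = r) ∧
      (∃ w < 21, S'.testBit w = true ∧ phi j w = r)) → r = 57 ∨ r = com i j := by
    rintro r ⟨⟨v, hv, hvS, rfl⟩, ⟨w, hw, hwS, hw2⟩⟩
    exact phi_common i hi j hj hij v hv w hw hw2.symm
  obtain ⟨r, hr⟩ := hcom
  obtain ⟨r1, hR1, hr1⟩ := hnext r hr
  obtain ⟨r2, hR2, hr2⟩ := hnext r1 hr1
  have hne : r ≠ r1 := by
    rintro rfl
    exact hasymR _ _ hR1 hR1
  have hne2 : r1 ≠ r2 := by
    rintro rfl
    exact hasymR _ _ hR2 hR2
  have hne3 : r ≠ r2 := by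
    rintro rfl
    exact hasymR _ _ hR1 hR2
  rcases hmem r hr with h | h <;> rcases hmem r1 hr1 with h' | h' <;>
    rcases hmem r2 hr2 with h'' | h'' <;> first
      | exact hne (h.trans h'.symm)
      | exact hne2 (h'.trans h''.symm)
      | exact hne3 (h.trans h''.symm)

/-- every orientation of `E0` has a vertex with two out-neighbours and two in-neighbours -/
theorem core (D : ℕ → ℕ → Prop) (hD : ∀ e ∈ E0, D e.1 e.2 ∨ D e.2 e.1)
    (hasym : ∀ i j, D i j → ¬ D j i) :
    ∃ v, (∃ w w', w ≠ w' ∧ D v w ∧ D v w') ∧ (∃ w w', w ≠ w' ∧ D w v ∧ D w' v) := by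
  classical
  by_contra hcon
  let c : ℕ → Bool := fun v => decide (¬ ∃ w w', w ≠ w' ∧ D v w ∧ D v w')
  have huniq : ∀ v w w', R D (c v) v w → R D (c v) v w' → w = w' := by
    intro v w w' h h'
    by_contra hne
    by_cases hv : ∃ w w', w ≠ w' ∧ D v w ∧ D v w'
    · have hc : c v = false := by simp only [c, decide_eq_false_iff_not, not_not]; exact hv
      rw [hc] at h h'
      simp only [R, Bool.false_eq_true, if_false] at h h'
      obtain ⟨a, a', h1, h2, h3⟩ := hv
      exact hcon ⟨v, ⟨a, a', h1, h2, h3⟩, ⟨w, w', hne, h, h'⟩⟩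
    · have hc : c v = true := by simp only [c, decide_eq_true_eq]; exact hv
      rw [hc] at h h'
      simp only [R, if_true] at h h'
      exact hv ⟨w, w', hne, h, h'⟩
  have key : ∀ i < 3, ∃ (S : ℕ) (b : Bool) (p : ℕ),
      (∀ v < 21, S.testBit v = true → c (phi i v) = b) ∧ pop S ≤ ecount S ∧ 18 ≤ p ∧ p < 21 ∧
      S.testBit p = true := by
    intro i hi
    obtain ⟨S, b, h1, h2, h3⟩ := T_lemma (fun v => c (phi i v))
    rcases h2 with h2 | h2 | h2
    · exact ⟨S, b, 18, fun v _ hv => h1 v hv, h3, by norm_num, by norm_num, h2⟩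
    · exact ⟨S, b, 19, fun v _ hv => h1 v hv, h3, by norm_num, by norm_num, h2⟩
    · exact ⟨S, b, 20, fun v _ hv => h1 v hv, h3, by norm_num, by norm_num, h2⟩
  obtain ⟨S0, b0, p0, h01, h02, h03, h04, h05⟩ := key 0 (by norm_num)
  obtain ⟨S1, b1, p1, h11, h12, h13, h14, h15⟩ := key 1 (by norm_num)
  obtain ⟨S2, b2, p2, h21, h22, h23, h24, h25⟩ := key 2 (by norm_num)
  have hb : b0 = b1 ∨ b0 = b2 ∨ b1 = b2 := by
    cases b0 <;> cases b1 <;> cases b2 <;> simp
  rcases hb with rfl | rfl | rfl
  · exact two_copies hD hasym huniq (i := 0) (j := 1) (by norm_num) (by norm_num) (by norm_num)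
      h01 h02 h11 h12 h03 h04 h05 h13 h14 h15
  · exact two_copies hD hasym huniq (i := 0) (j := 2) (by norm_num) (by norm_num) (by norm_num)
      h01 h02 h21 h22 h03 h04 h05 h23 h24 h25
  · exact two_copies hD hasym huniq (i := 1) (j := 2) (by norm_num) (by norm_num) (by norm_num)
      h11 h12 h21 h22 h13 h14 h15 h23 h24 h25

end Pool.Agent.Q133.BH
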