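import Mathlib

/-! Data: the 21-vertex triangulation `T` (edges `ET`; outer triangle 18, 19, 20), three copies of it
glued into three faces of a complete graph on four vertices, a straight-line drawing, and a decision
tree showing that every 2-colouring of `T` has a monochromatic set meeting the outer triangle which
spans at least as many edges as it has vertices. -/

set_option autoImplicit false

namespace Pool.Agent.Q133.BH

/-- decision trees -/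
inductive Tr where
  | lf (S : ℕ) : Tr
  | nd (v : ℕ) (l r : Tr) : Tr

/-- edges of `T` -/
def ET : List (ℕ × ℕ) := [(0, 1), (0, 2), (0, 5), (0, 6), (0, 7), (0, 10), (0, 18), (0, 19), (1, 2), (1, 3), (1, 4), (1, 5), (1, 9), (1, 13), (1, 14), (1, 18), (2, 3), (2, 6), (2, 11), (2, 12), (2, 13), (3, 4), (3, 6), (3, 11), (3, 14), (3, 15), (3, 16), (4, 5), (4, 6), (5, 6), (5, 7), (5, 8), (5, 9), (7, 8), (7, 10), (8, 9), (8, 10), (8, 20), (9, 18), (9, 20), (10, 19), (10, 20), (11, 12), (11, 16), (12, 13), (12, 16), (12, 17), (13, 14), (13, 17), (14, 15), (14, 17), (15, 16), (15, 17), (16, 17), (18, 19), (18, 20), (19, 20)]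

/-- the three copies -/
def phi (i j : ℕ) : ℕ :=
  if j < 18 then 18 * i + j
  else if j = 18 then 54 + i
  else if j = 19 then 54 + (i + 1) % 3
  else 57

/-- all edges -/
def E0 : List (ℕ × ℕ) :=
  ET.map (fun e => (phi 0 e.1, phi 0 e.2)) ++ (ET.map (fun e => (phi 1 e.1, phi 1 e.2)) ++
    ET.map (fun e => (phi 2 e.1, phi 2 e.2)))

/-- abscissae, 16 bits each -/
def PX : ℕ := 69244620833380724051137404368157288504415971444838519284609429665340942526349268977285551652055547599882586223078611596628855870260797901707430111680505066873048435749276019968003789842524113931038482443054584962259648488480073112686651280821567771193148028657256575296139430245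

/-- ordinates, 16 bits each -/
def PY : ℕ := 69247790552200729168740733988667011238410128190837347166772854660152978048329192894514960308987382640525582111414370237671596641080920064704810861564192940940030260972935563859945613337443758885187732477322762550891732485291842158449063546906993030931007762321010845328573726905

def cx (i : ℕ) : ℕ := (PX >>> (16 * i)) % 65536
def cy (i : ℕ) : ℕ := (PY >>> (16 * i)) % 65536

/-- the tree -/
def tree : Tr := (.nd 0 (.nd 18 (.nd 1 (.lf 262147) (.nd 19 (.lf 786433) (.nd 10 (.nd 7 (.lf 263297) (.nd 20 (.lf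
  1311745) (.nd 5 (.nd 6 (.lf 263265) (.nd 8 (.lf 263457) (.nd 9 (.lf 263713) (.lf 1573762))))
  (.nd 8 (.nd 9 (.lf 263937) (.lf 1573538)) (.lf 1573282))))) (.nd 20 (.nd 9 (.lf 1311233) (.nd
  5 (.nd 6 (.lf 1310817) (.nd 7 (.lf 1310881) (.nd 8 (.lf 1311009) (.lf 526210)))) (.nd 7 (.nd 8
  (.lf 1311105) (.lf 526114)) (.lf 525986)))) (.lf 1573888))))) (.nd 19 (.nd 10 (.lf 525313)
  (.nd 1 (.nd 2 (.lf 524295) (.nd 5 (.lf 524323) (.nd 9 (.nd 20 (.lf 1573379) (.nd 8 (.nd 7 (.lf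
  525187) (.nd 6 (.nd 3 (.lf 525131) (.nd 4 (.lf 525139) (.nd 11 (.nd 12 (.nd 13 (.nd 14 (.lf
  555843) (.nd 15 (.nd 16 (.lf 637763) (.nd 17 (.lf 703299) (.lf 1524924))) (.lf 1361084))) (.nd
  14 (.nd 16 (.nd 15 (.lf 645955) (.nd 17 (.lf 744259) (.lf 1483964))) (.nd 15 (.nd 17 (.lf
  711491) (.lf 1516732)) (.lf 1418428))) (.lf 1336508))) (.nd 13 (.nd 14 (.lf 549699) (.nd 15
  (.nd 16 (.nd 17 (.lf 764739) (.lf 1463484)) (.lf 1397948)) (.lf 1365180))) (.lf 1324220)))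
  (.lf 1313980)))) (.nd 3 (.nd 4 (.lf 525083) (.lf 1311988)) (.lf 1311980)))) (.lf 1312032)))
  (.nd 8 (.nd 20 (.nd 7 (.lf 1573251) (.nd 6 (.nd 3 (.lf 1573195) (.nd 4 (.lf 1573203) (.nd 11
  (.nd 12 (.nd 13 (.nd 14 (.lf 1603907) (.nd 15 (.nd 16 (.lf 1685827) (.nd 17 (.lf 1751363) (.lf
  476860))) (.lf 313020))) (.nd 14 (.nd 16 (.nd 15 (.lf 1694019) (.nd 17 (.lf 1792323) (.lf
  435900))) (.nd 15 (.nd 17 (.lf 1759555) (.lf 468668)) (.lf 370364))) (.lf 288444))) (.nd 13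
  (.nd 14 (.lf 1597763) (.nd 15 (.nd 16 (.nd 17 (.lf 1812803) (.lf 415420)) (.lf 349884)) (.lf
  317116))) (.lf 276156))) (.lf 265916)))) (.nd 3 (.nd 4 (.lf 1573147) (.lf 263924)) (.lf
  263916)))) (.lf 1312288)) (.lf 263968))))) (.nd 9 (.nd 5 (.nd 6 (.lf 524897) (.nd 7 (.lf
  524961) (.nd 8 (.lf 525089) (.nd 20 (.lf 1573409) (.lf 1312130))))) (.nd 4 (.nd 6 (.nd 2 (.lf
  524373) (.nd 3 (.lf 524377) (.lf 262190))) (.nd 2 (.nd 3 (.nd 11 (.lf 526365) (.nd 20 (.nd 8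
  (.lf 1573661) (.nd 7 (.nd 12 (.nd 13 (.lf 1585821) (.nd 14 (.nd 15 (.lf 1626781) (.nd 16 (.lf
  1659549) (.nd 17 (.lf 1725085) (.lf 503138)))) (.lf 288098))) (.nd 13 (.nd 14 (.lf 1598109)
  (.nd 16 (.nd 15 (.lf 1680029) (.nd 17 (.lf 1778333) (.lf 449890))) (.nd 15 (.nd 17 (.lf
  1745565) (.lf 482658)) (.lf 384354)))) (.nd 14 (.nd 15 (.lf 1622685) (.nd 16 (.nd 17 (.lf
  1786525) (.lf 441698)) (.lf 376162))) (.lf 294242)))) (.lf 263650))) (.nd 7 (.nd 8 (.nd 12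
  (.nd 13 (.lf 537501) (.nd 14 (.nd 15 (.lf 578461) (.nd 16 (.lf 611229) (.nd 17 (.lf 676765)
  (.lf 1551458)))) (.lf 1336418))) (.nd 13 (.nd 14 (.lf 549789) (.nd 16 (.nd 15 (.lf 631709)
  (.nd 17 (.lf 730013) (.lf 1498210))) (.nd 15 (.nd 17 (.lf 697245) (.lf 1530978)) (.lf
  1432674)))) (.nd 14 (.nd 15 (.lf 574365) (.nd 16 (.nd 17 (.lf 738205) (.lf 1490018)) (.lf
  1424482))) (.lf 1342562)))) (.lf 1312098)) (.lf 1311970)))) (.lf 262250)) (.lf 262246))) (.lf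
  262194))) (.lf 262658)))) (.nd 20 (.nd 9 (.nd 8 (.lf 1049344) (.nd 7 (.nd 5 (.lf 1049249) (.nd
  10 (.lf 1050241) (.nd 1 (.nd 2 (.lf 1049223) (.nd 6 (.nd 3 (.lf 1049291) (.nd 4 (.lf 1049299)
  (.nd 11 (.nd 12 (.nd 13 (.nd 14 (.lf 1080003) (.nd 15 (.nd 16 (.lf 1161923) (.nd 17 (.lf
  1227459) (.lf 1000764))) (.lf 836924))) (.nd 14 (.nd 16 (.nd 15 (.lf 1170115) (.nd 17 (.lf
  1268419) (.lf 959804))) (.nd 15 (.nd 17 (.lf 1235651) (.lf 992572)) (.lf 894268))) (.lf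
  812348))) (.nd 13 (.nd 14 (.lf 1073859) (.nd 15 (.nd 16 (.nd 17 (.lf 1288899) (.lf 939324))
  (.lf 873788)) (.lf 841020))) (.lf 800060))) (.lf 789820)))) (.nd 3 (.nd 4 (.lf 1049243) (.lf
  787828)) (.lf 787820)))) (.lf 787746)))) (.nd 10 (.nd 1 (.lf 1050115) (.nd 5 (.lf 1050145)
  (.lf 786850))) (.lf 787840)))) (.nd 1 (.nd 5 (.nd 8 (.lf 1048867) (.nd 10 (.lf 1049635) (.lf
  788224))) (.nd 8 (.nd 10 (.lf 1049859) (.nd 7 (.nd 2 (.lf 1048967) (.nd 6 (.nd 3 (.lf 1049035)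
  (.nd 4 (.lf 1049043) (.nd 11 (.nd 12 (.nd 13 (.nd 14 (.lf 1079747) (.nd 15 (.nd 16 (.lf
  1161667) (.nd 17 (.lf 1227203) (.lf 1001020))) (.lf 837180))) (.nd 14 (.nd 16 (.nd 15 (.lf
  1169859) (.nd 17 (.lf 1268163) (.lf 960060))) (.nd 15 (.nd 17 (.lf 1235395) (.lf 992828)) (.lf
  894524))) (.lf 812604))) (.nd 13 (.nd 14 (.lf 1073603) (.nd 15 (.nd 16 (.nd 17 (.lf 1288643)
  (.lf 939580)) (.lf 874044)) (.lf 841276))) (.lf 800316))) (.lf 790076)))) (.nd 3 (.nd 4 (.lf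
  1048987) (.lf 788084)) (.lf 788076)))) (.lf 788128))) (.lf 787232))) (.lf 786946))) (.lf
  1835008)))) (.nd 18 (.nd 19 (.nd 20 (.lf 1835008) (.nd 9 (.nd 1 (.lf 786946) (.nd 5 (.nd 8
  (.lf 787232) (.nd 10 (.nd 7 (.lf 788128) (.nd 2 (.nd 6 (.nd 3 (.lf 788076) (.nd 4 (.lf 788084)
  (.lf 1048987))) (.nd 3 (.nd 4 (.nd 11 (.lf 790076) (.nd 12 (.nd 13 (.lf 800316) (.nd 14 (.nd
  15 (.lf 841276) (.nd 16 (.lf 874044) (.nd 17 (.lf 939580) (.lf 1288643)))) (.lf 1073603)))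
  (.nd 13 (.nd 14 (.lf 812604) (.nd 16 (.nd 15 (.lf 894524) (.nd 17 (.lf 992828) (.lf 1235395)))
  (.nd 15 (.nd 17 (.lf 960060) (.lf 1268163)) (.lf 1169859)))) (.nd 14 (.nd 15 (.lf 837180) (.nd
  16 (.nd 17 (.lf 1001020) (.lf 1227203)) (.lf 1161667))) (.lf 1079747))))) (.lf 1049043)) (.lf
  1049035))) (.lf 1048967))) (.lf 1049859))) (.nd 8 (.nd 10 (.lf 788224) (.lf 1049635)) (.lf
  1048867)))) (.nd 8 (.nd 7 (.nd 10 (.lf 787840) (.nd 1 (.nd 5 (.lf 786850) (.lf 1050145)) (.lf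
  1050115))) (.nd 5 (.nd 10 (.nd 1 (.lf 787746) (.nd 2 (.nd 6 (.nd 3 (.lf 787820) (.nd 4 (.lf
  787828) (.lf 1049243))) (.nd 3 (.nd 4 (.nd 11 (.lf 789820) (.nd 12 (.nd 13 (.lf 800060) (.nd
  14 (.nd 15 (.lf 841020) (.nd 16 (.lf 873788) (.nd 17 (.lf 939324) (.lf 1288899)))) (.lf
  1073859))) (.nd 13 (.nd 14 (.lf 812348) (.nd 16 (.nd 15 (.lf 894268) (.nd 17 (.lf 992572) (.lf
  1235651))) (.nd 15 (.nd 17 (.lf 959804) (.lf 1268419)) (.lf 1170115)))) (.nd 14 (.nd 15 (.lf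
  836924) (.nd 16 (.nd 17 (.lf 1000764) (.lf 1227459)) (.lf 1161923))) (.lf 1080003))))) (.lf
  1049299)) (.lf 1049291))) (.lf 1049223))) (.lf 1050241)) (.lf 1049249))) (.lf 1049344)))) (.nd
  10 (.nd 1 (.nd 9 (.lf 262658) (.nd 5 (.nd 4 (.lf 262194) (.nd 6 (.nd 2 (.lf 262246) (.nd 3
  (.lf 262250) (.nd 11 (.nd 20 (.nd 7 (.lf 1311970) (.nd 8 (.lf 1312098) (.nd 12 (.nd 13 (.nd 14
  (.lf 1342562) (.nd 15 (.nd 16 (.lf 1424482) (.nd 17 (.lf 1490018) (.lf 738205))) (.lf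
  574365))) (.nd 14 (.nd 16 (.nd 15 (.lf 1432674) (.nd 17 (.lf 1530978) (.lf 697245))) (.nd 15
  (.nd 17 (.lf 1498210) (.lf 730013)) (.lf 631709))) (.lf 549789))) (.nd 13 (.nd 14 (.lf
  1336418) (.nd 15 (.nd 16 (.nd 17 (.lf 1551458) (.lf 676765)) (.lf 611229)) (.lf 578461))) (.lf
  537501))))) (.nd 8 (.nd 7 (.lf 263650) (.nd 12 (.nd 13 (.nd 14 (.lf 294242) (.nd 15 (.nd 16
  (.lf 376162) (.nd 17 (.lf 441698) (.lf 1786525))) (.lf 1622685))) (.nd 14 (.nd 16 (.nd 15 (.lf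
  384354) (.nd 17 (.lf 482658) (.lf 1745565))) (.nd 15 (.nd 17 (.lf 449890) (.lf 1778333)) (.lf
  1680029))) (.lf 1598109))) (.nd 13 (.nd 14 (.lf 288098) (.nd 15 (.nd 16 (.nd 17 (.lf 503138)
  (.lf 1725085)) (.lf 1659549)) (.lf 1626781))) (.lf 1585821)))) (.lf 1573661))) (.lf 526365))))
  (.nd 2 (.nd 3 (.lf 262190) (.lf 524377)) (.lf 524373)))) (.nd 6 (.nd 7 (.nd 8 (.nd 20 (.lf
  1312130) (.lf 1573409)) (.lf 525089)) (.lf 524961)) (.lf 524897)))) (.nd 2 (.nd 5 (.nd 9 (.nd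
  8 (.lf 263968) (.nd 20 (.lf 1312288) (.nd 7 (.nd 6 (.nd 3 (.lf 263916) (.nd 4 (.lf 263924)
  (.lf 1573147))) (.nd 3 (.nd 4 (.nd 11 (.lf 265916) (.nd 12 (.nd 13 (.lf 276156) (.nd 14 (.nd
  15 (.lf 317116) (.nd 16 (.lf 349884) (.nd 17 (.lf 415420) (.lf 1812803)))) (.lf 1597763)))
  (.nd 13 (.nd 14 (.lf 288444) (.nd 16 (.nd 15 (.lf 370364) (.nd 17 (.lf 468668) (.lf 1759555)))
  (.nd 15 (.nd 17 (.lf 435900) (.lf 1792323)) (.lf 1694019)))) (.nd 14 (.nd 15 (.lf 313020) (.nd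
  16 (.nd 17 (.lf 476860) (.lf 1751363)) (.lf 1685827))) (.lf 1603907))))) (.lf 1573203)) (.lf
  1573195))) (.lf 1573251)))) (.nd 20 (.nd 8 (.lf 1312032) (.nd 7 (.nd 6 (.nd 3 (.lf 1311980)
  (.nd 4 (.lf 1311988) (.lf 525083))) (.nd 3 (.nd 4 (.nd 11 (.lf 1313980) (.nd 12 (.nd 13 (.lf
  1324220) (.nd 14 (.nd 15 (.lf 1365180) (.nd 16 (.lf 1397948) (.nd 17 (.lf 1463484) (.lf
  764739)))) (.lf 549699))) (.nd 13 (.nd 14 (.lf 1336508) (.nd 16 (.nd 15 (.lf 1418428) (.nd 17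
  (.lf 1516732) (.lf 711491))) (.nd 15 (.nd 17 (.lf 1483964) (.lf 744259)) (.lf 645955)))) (.nd
  14 (.nd 15 (.lf 1361084) (.nd 16 (.nd 17 (.lf 1524924) (.lf 703299)) (.lf 637763))) (.lf
  555843))))) (.lf 525139)) (.lf 525131))) (.lf 525187))) (.lf 1573379))) (.lf 524323)) (.lf
  524295))) (.lf 525313))) (.nd 1 (.nd 19 (.nd 10 (.nd 20 (.lf 1573888) (.nd 9 (.nd 5 (.nd 7
  (.lf 525986) (.nd 8 (.lf 526114) (.lf 1311105))) (.nd 6 (.nd 7 (.nd 8 (.lf 526210) (.lf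
  1311009)) (.lf 1310881)) (.lf 1310817))) (.lf 1311233))) (.nd 7 (.nd 20 (.nd 5 (.nd 8 (.lf
  1573282) (.nd 9 (.lf 1573538) (.lf 263937))) (.nd 6 (.nd 8 (.nd 9 (.lf 1573762) (.lf 263713))
  (.lf 263457)) (.lf 263265))) (.lf 1311745)) (.lf 263297))) (.lf 786433)) (.lf 262147))))

/-- number of edges of `T` inside `S` -/
def ecount (S : ℕ) : ℕ := (ET.filter (fun e => S.testBit e.1 && S.testBit e.2)).length

/-- number of elements of `S` below 21 -/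
def pop (S : ℕ) : ℕ := ((List.range 21).filter (fun v => S.testBit v)).length

/-- checker -/
def ok : Tr → ℕ → ℕ → Bool
  | .lf S, A, B => ((S &&& A) == S || (S &&& B) == S) &&
      ((S.testBit 18 || S.testBit 19 || S.testBit 20) && Nat.ble (pop S) (ecount S))
  | .nd v l r, A, B => ok l (A ||| 1 <<< v) B && ok r A (B ||| 1 <<< v)

theorem ok_tree : ok tree 0 0 = true := by decide +kernel

/-- orientation test -/
def ccw (a b c : ℕ) : Bool :=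
  Nat.blt (cy a * cx b + cy b * cx c + cy c * cx a) (cx a * cy b + cx b * cy c + cx c * cy a)

def noncol : Bool :=
  E0.all fun e => (List.range 58).all fun w =>
    (w == e.1 || w == e.2) || (ccw e.1 e.2 w || ccw e.2 e.1 w)

def sepa (a b c d : ℕ) : Bool :=
  (ccw a b c && ccw a b d) || (ccw b a c && ccw b a d)

def nocross : Bool :=
  E0.all fun e => E0.all fun f =>
    (e.1 == f.1 || e.1 == f.2 || e.2 == f.1 || e.2 == f.2) ||
      (sepa e.1 e.2 f.1 f.2 || sepa f.1 f.2 e.1 e.2)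

theorem noncol_ok : noncol = true := by decide +kernel

theorem nocross_ok : nocross = true := by decide +kernel

end Pool.Agent.Q133.BH
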