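import Pool.Agent.Q133.BHCore

/-! A straight-line drawing of disjoint copies of the 58-vertex graph. -/

set_option autoImplicit false

namespace Pool.Agent.Q133.BH

def distinctB : Bool :=
  (List.range 58).all fun i => (List.range 58).all fun j =>
    i == j || (cx i != cx j || cy i != cy j)
theorem distinctB_ok : distinctB = true := by decide +kernel

def boundB : Bool := (List.range 58).all fun i => Nat.ble (cx i) 6000
theorem boundB_ok : boundB = true := by decide +kernel

def E0rangeB : Bool := E0.all fun e => Nat.blt e.1 58 && Nat.blt e.2 58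
theorem E0rangeB_ok : E0rangeB = true := by decide +kernel

theorem E0_lt {e : ℕ × ℕ} (he : e ∈ E0) : e.1 < 58 ∧ e.2 < 58 := by
  have := E0rangeB_ok
  simp only [E0rangeB, List.all_eq_true, Bool.and_eq_true, Nat.blt_eq] at this
  exact this e he

theorem E0_irrefl (i : ℕ) : (i, i) ∉ E0 := by
  intro h
  have h1 : (E0.all fun e => e.1 != e.2) = true := by decide +kernel
  simp only [List.all_eq_true, bne_iff_ne] at h1
  exact h1 _ h rfl

/-- adjacency in the disjoint union of copies -/
def adjN (i j : ℕ) : Prop :=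
  i / 58 = j / 58 ∧ ((i % 58, j % 58) ∈ E0 ∨ (j % 58, i % 58) ∈ E0)

/-- orientation determinant -/
def o (a b c : ℝ × ℝ) : ℝ := (b.1 - a.1) * (c.2 - a.2) - (b.2 - a.2) * (c.1 - a.1)

theorem o_seg {a b z : ℝ × ℝ} (hz : z ∈ segment ℝ a b) : o a b z = 0 := by
  obtain ⟨s, t, hs, ht, hst, rfl⟩ := hz
  have : s = 1 - t := by linarith
  subst this
  simp only [o, Prod.fst_add, Prod.snd_add, Prod.smul_fst, Prod.smul_snd, smul_eq_mul]
  ring

theorem o_pos {a b c d z : ℝ × ℝ} (h1 : 0 < o a b c) (h2 : 0 < o a b d)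
    (hz : z ∈ segment ℝ c d) : 0 < o a b z := by
  obtain ⟨s, t, hs, ht, hst, rfl⟩ := hz
  have h : o a b (s • c + t • d) = s * o a b c + t * o a b d := by
    have : s = 1 - t := by linarith
    subst this
    simp only [o, Prod.fst_add, Prod.snd_add, Prod.smul_fst, Prod.smul_snd, smul_eq_mul]
    ring
  rw [h]
  rcases hs.eq_or_lt with hs' | hs'
  · have : t = 1 := by linarith
    rw [← hs', this]
    linarith
  · have := mul_pos hs' h1
    have := mul_nonneg ht h2.le
    linarith

theorem o_swap (a b c : ℝ × ℝ) : o b a c = - o a b c := by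
  simp only [o]
  ring

/-- the point of vertex `i` -/
noncomputable def P (i : ℕ) : ℝ × ℝ :=
  ((cx (i % 58) : ℝ) + 7000 * ((i / 58 : ℕ) : ℝ), (cy (i % 58) : ℝ))

theorem ccw_o {i j k : ℕ} (hij : i / 58 = j / 58) (hik : i / 58 = k / 58)
    (h : ccw (i % 58) (j % 58) (k % 58) = true) : 0 < o (P i) (P j) (P k) := by
  rw [ccw, Nat.blt_eq] at h
  have h' : ((cy (i % 58) * cx (j % 58) + cy (j % 58) * cx (k % 58) + cy (k % 58) * cx (i % 58) :
      ℕ) : ℝ) < ((cx (i % 58) * cy (j % 58) + cx (j % 58) * cy (k % 58) +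
        cx (k % 58) * cy (i % 58) : ℕ) : ℝ) := by exact_mod_cast h
  push_cast at h'
  simp only [o, P, ← hij, ← hik]
  nlinarith [h']

theorem cx_le (i : ℕ) : (cx (i % 58) : ℝ) ≤ 6000 := by
  have := boundB_ok
  simp only [boundB, List.all_eq_true, List.mem_range, Nat.ble_eq] at this
  exact_mod_cast this (i % 58) (Nat.mod_lt _ (by norm_num))

/-- the block of a point of a segment -/
theorem seg_x {i j : ℕ} (hij : i / 58 = j / 58) {z : ℝ × ℝ} (hz : z ∈ segment ℝ (P i) (P j)) :
    7000 * ((i / 58 : ℕ) : ℝ) ≤ z.1 ∧ z.1 ≤ 7000 * ((i / 58 : ℕ) : ℝ) + 6000 := by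
  obtain ⟨s, t, hs, ht, hst, rfl⟩ := hz
  have h1 := cx_le i
  have h2 := cx_le j
  have h3 : (0 : ℝ) ≤ (cx (i % 58) : ℝ) := Nat.cast_nonneg _
  have h4 : (0 : ℝ) ≤ (cx (j % 58) : ℝ) := Nat.cast_nonneg _
  have hs' : s = 1 - t := by linarith
  simp only [P, ← hij, Prod.fst_add, Prod.smul_fst, smul_eq_mul]
  have e : s * ((cx (i % 58) : ℝ) + 7000 * ((i / 58 : ℕ) : ℝ)) +
      t * ((cx (j % 58) : ℝ) + 7000 * ((i / 58 : ℕ) : ℝ)) =
      s * (cx (i % 58) : ℝ) + t * (cx (j % 58) : ℝ) + 7000 * ((i / 58 : ℕ) : ℝ) := by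
    subst hs'
    ring
  rw [e]
  have h5 : s * (cx (i % 58) : ℝ) ≤ s * 6000 := mul_le_mul_of_nonneg_left h1 hs
  have h6 : t * (cx (j % 58) : ℝ) ≤ t * 6000 := mul_le_mul_of_nonneg_left h2 ht
  have h7 := mul_nonneg hs h3
  have h8 := mul_nonneg ht h4
  constructor
  · linarith
  · have : s * 6000 + t * 6000 = 6000 := by rw [← add_mul, hst, one_mul]
    linarith

theorem block_sep {a b : ℕ} (hab : a ≠ b) {x : ℝ}
    (h1 : 7000 * (a : ℝ) ≤ x ∧ x ≤ 7000 * (a : ℝ) + 6000)
    (h2 : 7000 * (b : ℝ) ≤ x ∧ x ≤ 7000 * (b : ℝ) + 6000) : False := by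
  rcases Nat.lt_or_gt_of_ne hab with h | h
  · have : (a : ℝ) + 1 ≤ b := by exact_mod_cast h
    linarith
  · have : (b : ℝ) + 1 ≤ a := by exact_mod_cast h
    linarith

theorem P_mem_self (i : ℕ) : P i ∈ segment ℝ (P i) (P i) := left_mem_segment ℝ _ _

theorem P_inj {i j : ℕ} (h : P i = P j) : i = j := by
  have hb : i / 58 = j / 58 := by
    by_contra hne
    have h1 := seg_x (i := i) (j := i) rfl (P_mem_self i)
    have h2 := seg_x (i := j) (j := j) rfl (P_mem_self j)
    rw [← h] at h2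
    exact block_sep hne h1 h2
  have hm : i % 58 = j % 58 := by
    by_contra hne
    have := distinctB_ok
    simp only [distinctB, List.all_eq_true, List.mem_range, Bool.or_eq_true, beq_iff_eq,
      bne_iff_ne] at this
    have h1 := this (i % 58) (Nat.mod_lt _ (by norm_num)) (j % 58) (Nat.mod_lt _ (by norm_num))
    have hx := congrArg Prod.fst h
    have hy := congrArg Prod.snd h
    simp only [P, hb] at hx hy
    have hx' : cx (i % 58) = cx (j % 58) := by
      have : (cx (i % 58) : ℝ) = (cx (j % 58) : ℝ) := by linarith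
      exact_mod_cast this
    have hy' : cy (i % 58) = cy (j % 58) := by exact_mod_cast hy
    rcases h1 with h1 | h1 | h1
    · exact hne h1
    · exact h1 hx'
    · exact h1 hy'
  have e1 := Nat.div_add_mod i 58
  have e2 := Nat.div_add_mod j 58
  rw [← e1, ← e2, hb, hm]

theorem noncol_o {i j k : ℕ} (hij : adjN i j) (hik : i / 58 = k / 58) (h1 : k ≠ i) (h2 : k ≠ j) :
    o (P i) (P j) (P k) ≠ 0 := by
  obtain ⟨hb, he⟩ := hij
  have hk : k % 58 < 58 := Nat.mod_lt _ (by norm_num)
  have n1 : k % 58 ≠ i % 58 := by omega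
  have n2 : k % 58 ≠ j % 58 := by omega
  have := noncol_ok
  simp only [noncol, List.all_eq_true, List.mem_range, Bool.or_eq_true, beq_iff_eq] at this
  rcases he with he | he
  · rcases this _ he (k % 58) hk with h | h | h
    · exact absurd h (by simp only; omega)
    · exact (ccw_o hb hik h).ne'
    · have := ccw_o hb.symm (hb.symm.trans hik) h
      rw [o_swap] at this
      intro h0
      rw [h0] at this
      simp at this
  · rcases this _ he (k % 58) hk with h | h | h
    · exact absurd h (by simp only; omega)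
    · have := ccw_o hb.symm (hb.symm.trans hik) h
      rw [o_swap] at this
      intro h0
      rw [h0] at this
      simp at this
    · exact (ccw_o hb hik h).ne'

theorem not_on {i j k : ℕ} (hij : adjN i j) (h1 : k ≠ i) (h2 : k ≠ j) :
    P k ∉ segment ℝ (P i) (P j) := by
  intro hk
  by_cases hb : i / 58 = k / 58
  · exact noncol_o hij hb h1 h2 (o_seg hk)
  · have h3 := seg_x hij.1 hk
    have h4 := seg_x (i := k) (j := k) rfl (P_mem_self k)
    exact block_sep hb h3 h4

theorem sepa_disj {i j k l : ℕ} (hij : i / 58 = j / 58) (hik : i / 58 = k / 58)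
    (hil : i / 58 = l / 58) (h : sepa (i % 58) (j % 58) (k % 58) (l % 58) = true) :
    Disjoint (segment ℝ (P i) (P j)) (segment ℝ (P k) (P l)) := by
  rw [Set.disjoint_left]
  intro z hz hz'
  simp only [sepa, Bool.or_eq_true, Bool.and_eq_true] at h
  rcases h with ⟨h1, h2⟩ | ⟨h1, h2⟩
  · have := o_pos (ccw_o hij hik h1) (ccw_o hij hil h2) hz'
    rw [o_seg hz] at this
    exact lt_irrefl _ this
  · have := o_pos (ccw_o hij.symm (hij.symm.trans hik) h1)
      (ccw_o hij.symm (hij.symm.trans hil) h2) hz'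
    rw [segment_symm] at hz
    rw [o_seg hz] at this
    exact lt_irrefl _ this

theorem cross_aux {i j k l : ℕ} (hij : i / 58 = j / 58) (he : (i % 58, j % 58) ∈ E0)
    (hkl : k / 58 = l / 58) (hf : (k % 58, l % 58) ∈ E0)
    (h1 : i ≠ k) (h2 : i ≠ l) (h3 : j ≠ k) (h4 : j ≠ l) :
    Disjoint (segment ℝ (P i) (P j)) (segment ℝ (P k) (P l)) := by
  by_cases hb : i / 58 = k / 58
  · have := nocross_ok
    simp only [nocross, List.all_eq_true, Bool.or_eq_true, beq_iff_eq] at this
    rcases this _ he _ hf with h | h | h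
    · exfalso
      simp only at h
      omega
    · exact sepa_disj hij hb (hb.trans hkl) h
    · exact (sepa_disj hkl hb.symm (hb.symm.trans hij) h).symm
  · rw [Set.disjoint_left]
    intro z hz hz'
    exact block_sep hb (seg_x hij hz) (seg_x hkl hz')

theorem cross {i j k l : ℕ} (hij : adjN i j) (hkl : adjN k l)
    (h1 : i ≠ k) (h2 : i ≠ l) (h3 : j ≠ k) (h4 : j ≠ l) :
    Disjoint (segment ℝ (P i) (P j)) (segment ℝ (P k) (P l)) := by
  obtain ⟨hb, he⟩ := hij
  obtain ⟨hb', hf⟩ := hkl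
  rcases he with he | he <;> rcases hf with hf | hf
  · exact cross_aux hb he hb' hf h1 h2 h3 h4
  · have := cross_aux hb he hb'.symm hf h2 h1 h4 h3
    rwa [segment_symm ℝ (P k) (P l)]
  · have := cross_aux hb.symm he hb' hf h3 h4 h1 h2
    rwa [segment_symm ℝ (P i) (P j)]
  · have := cross_aux hb.symm he hb'.symm hf h4 h3 h2 h1
    rwa [segment_symm ℝ (P i) (P j), segment_symm ℝ (P k) (P l)]

end Pool.Agent.Q133.BH
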