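import Mathlib

set_option autoImplicit false

/-!
# Packings of balls, height functions and nearest-lower-neighbour augmentations
-/

namespace Q133.BallPack

open Metric

/-- `(closedBall (c v) (r v))` is a family of closed balls of positive radius in `ℝ^d` with pairwise
disjoint interiors, two of them (externally) tangent iff the vertices are adjacent in `G`. -/
structure IsPacking {V : Type} (d : ℕ) (G : SimpleGraph V) (c : V → EuclideanSpace ℝ (Fin d))
    (r : V → ℝ) : Prop where
  pos : ∀ v, 0 < r v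
  disj : ∀ u v, u ≠ v →
    Disjoint (interior (closedBall (c u) (r u))) (interior (closedBall (c v) (r v)))
  tangent : ∀ u v, G.Adj u v ↔
    u ≠ v ∧ (closedBall (c u) (r u) ∩ closedBall (c v) (r v)).Nonempty

/-- `G` is packable by balls of `ℝ^d`. -/
def Packable {V : Type} (d : ℕ) (G : SimpleGraph V) : Prop :=
  ∃ (c : V → EuclideanSpace ℝ (Fin d)) (r : V → ℝ), IsPacking d G c r

/-- `f` is a height function on `G`. -/
def IsHeight {V : Type} (G : SimpleGraph V) (f : V → ℤ) : Prop :=
  ∀ u v, G.Adj u v → |f u - f v| ≤ 1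

/-- `g` chooses, for each vertex `v` for which some vertex is lower, a nearest lower vertex. -/
def IsNearestChoice {V : Type} (f : V → ℤ) (c : V → EuclideanSpace ℝ (Fin 2)) (g : V → V) : Prop :=
  ∀ v, (∃ u, f u < f v) → f (g v) < f v ∧ ∀ u, f u < f v → dist (c (g v)) (c v) ≤ dist (c u) (c v)

/-- The augmented graph: the edges of `G` and the edges `v — g v` for each vertex `v` for which
some vertex is lower. -/
def augmented {V : Type} (G : SimpleGraph V) (f : V → ℤ) (g : V → V) : SimpleGraph V where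
  Adj u v := u ≠ v ∧ (G.Adj u v ∨ ((∃ x, f x < f u) ∧ g u = v) ∨ ((∃ x, f x < f v) ∧ g v = u))
  symm := ⟨fun u v h => by
    obtain ⟨hne, h⟩ := h
    refine ⟨hne.symm, ?_⟩
    rcases h with h | h | h
    · exact Or.inl h.symm
    · exact Or.inr (Or.inr h)
    · exact Or.inr (Or.inl h)⟩
  loopless := ⟨fun u h => h.1 rfl⟩

/-! ## Lorentz vectors of balls in `ℝ³` -/

/-- The Lorentz vector of the ball with centre `c` and radius `r`. -/
noncomputable def lv (c : EuclideanSpace ℝ (Fin 3)) (r : ℝ) : Fin 5 → ℝ :=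
  ![c 0 / r, c 1 / r, c 2 / r, (c 0 ^ 2 + c 1 ^ 2 + c 2 ^ 2 - r ^ 2) / r, 1 / r]

/-- The Lorentz form. -/
noncomputable def B (x y : Fin 5 → ℝ) : ℝ :=
  x 0 * y 0 + x 1 * y 1 + x 2 * y 2 - (x 3 * y 4 + x 4 * y 3) / 2

theorem B_comm (x y : Fin 5 → ℝ) : B x y = B y x := by unfold B; ring

theorem B_add (x y z : Fin 5 → ℝ) : B x (y + z) = B x y + B x z := by
  unfold B; simp only [Pi.add_apply]; ring

theorem B_sub (x y z : Fin 5 → ℝ) : B x (y - z) = B x y - B x z := by
  unfold B; simp only [Pi.sub_apply]; ring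

theorem B_smul (x y : Fin 5 → ℝ) (t : ℝ) : B x (t • y) = t * B x y := by
  unfold B; simp only [Pi.smul_apply, smul_eq_mul]; ring

theorem B_zero (x : Fin 5 → ℝ) : B x 0 = 0 := by
  unfold B; simp

theorem dist_sq3 (c c' : EuclideanSpace ℝ (Fin 3)) :
    dist c c' ^ 2 = (c 0 - c' 0) ^ 2 + (c 1 - c' 1) ^ 2 + (c 2 - c' 2) ^ 2 := by
  rw [EuclideanSpace.dist_eq, Real.sq_sqrt (Finset.sum_nonneg (fun i _ => sq_nonneg _)),
    Fin.sum_univ_three]
  simp only [Real.dist_eq, sq_abs]

theorem B_lv (c c' : EuclideanSpace ℝ (Fin 3)) (r r' : ℝ) (hr : 0 < r) (hr' : 0 < r') :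
    B (lv c r) (lv c' r') = (r ^ 2 + r' ^ 2 - dist c c' ^ 2) / (2 * r * r') := by
  rw [dist_sq3]
  unfold B lv
  simp
  field_simp
  ring

theorem B_self (c : EuclideanSpace ℝ (Fin 3)) (r : ℝ) (hr : 0 < r) : B (lv c r) (lv c r) = 1 := by
  rw [B_lv _ _ _ _ hr hr, dist_self]
  field_simp
  ring

/-- Tangent balls. -/
theorem B_tangent (c c' : EuclideanSpace ℝ (Fin 3)) (r r' : ℝ) (hr : 0 < r) (hr' : 0 < r')
    (h : dist c c' = r + r') : B (lv c r) (lv c' r') = -1 := by
  rw [B_lv _ _ _ _ hr hr', h]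
  field_simp
  ring

theorem dist_of_B (c c' : EuclideanSpace ℝ (Fin 3)) (r r' : ℝ) (hr : 0 < r) (hr' : 0 < r')
    (h : B (lv c r) (lv c' r') = -1) : dist c c' = r + r' := by
  rw [B_lv _ _ _ _ hr hr', div_eq_iff (by positivity)] at h
  have h2 : dist c c' ^ 2 = (r + r') ^ 2 := by linarith
  exact (sq_eq_sq₀ dist_nonneg (by positivity)).1 h2

theorem B_sep (c c' : EuclideanSpace ℝ (Fin 3)) (r r' : ℝ) (hr : 0 < r) (hr' : 0 < r')
    (h : r + r' ≤ dist c c') : B (lv c r) (lv c' r') ≤ -1 := by
  rw [B_lv _ _ _ _ hr hr', div_le_iff₀ (by positivity)]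
  have h2 : (r + r') ^ 2 ≤ dist c c' ^ 2 := by gcongr
  linarith

/-- Two different vectors of the (pseudo-)sphere tangent to four mutually tangent ones sum to the
sum of the four. -/
theorem six (v : Fin 6 → Fin 5 → ℝ) (β : ℝ) (hβ : β ≤ -1)
    (hself : ∀ i, B (v i) (v i) = 1)
    (hβ1 : B (v 4) (v 5) = β)
    (h : ∀ i j, i ≠ j → ¬ (i = 4 ∧ j = 5) → ¬ (i = 5 ∧ j = 4) → B (v i) (v j) = -1) :
    v 4 + v 5 = v 0 + v 1 + v 2 + v 3 := by
  have hdep : ¬ LinearIndependent ℝ v := by
    intro hli
    have := hli.fintype_card_le_finrank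
    simp at this
  rw [Fintype.not_linearIndependent_iff] at hdep
  obtain ⟨l, hl, i0, hi0⟩ := hdep
  have hB : ∀ j, ∑ i, l i * B (v j) (v i) = 0 := by
    intro j
    have h1 : B (v j) (∑ i, l i • v i) = 0 := by rw [hl, B_zero]
    rw [← h1]
    simp only [Fin.sum_univ_six, B_add, B_smul]
  have e : ∀ j, l 0 * B (v j) (v 0) + l 1 * B (v j) (v 1) + l 2 * B (v j) (v 2) +
      l 3 * B (v j) (v 3) + l 4 * B (v j) (v 4) + l 5 * B (v j) (v 5) = 0 := by
    intro j
    have := hB j
    rwa [Fin.sum_univ_six] at this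
  have e0 := e 0
  have e1 := e 1
  have e2 := e 2
  have e3 := e 3
  have e4 := e 4
  have e5 := e 5
  have hβ2 : B (v 5) (v 4) = β := by rw [B_comm, hβ1]
  rw [hself 0, h 0 1 (by decide) (by decide) (by decide), h 0 2 (by decide) (by decide) (by decide),
    h 0 3 (by decide) (by decide) (by decide), h 0 4 (by decide) (by decide) (by decide),
    h 0 5 (by decide) (by decide) (by decide)] at e0
  rw [hself 1, h 1 0 (by decide) (by decide) (by decide), h 1 2 (by decide) (by decide) (by decide),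
    h 1 3 (by decide) (by decide) (by decide), h 1 4 (by decide) (by decide) (by decide),
    h 1 5 (by decide) (by decide) (by decide)] at e1
  rw [hself 2, h 2 0 (by decide) (by decide) (by decide), h 2 1 (by decide) (by decide) (by decide),
    h 2 3 (by decide) (by decide) (by decide), h 2 4 (by decide) (by decide) (by decide),
    h 2 5 (by decide) (by decide) (by decide)] at e2
  rw [hself 3, h 3 0 (by decide) (by decide) (by decide), h 3 1 (by decide) (by decide) (by decide),
    h 3 2 (by decide) (by decide) (by decide), h 3 4 (by decide) (by decide) (by decide),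
    h 3 5 (by decide) (by decide) (by decide)] at e3
  rw [hself 4, h 4 0 (by decide) (by decide) (by decide), h 4 1 (by decide) (by decide) (by decide),
    h 4 2 (by decide) (by decide) (by decide), h 4 3 (by decide) (by decide) (by decide),
    hβ1] at e4
  rw [hself 5, h 5 0 (by decide) (by decide) (by decide), h 5 1 (by decide) (by decide) (by decide),
    h 5 2 (by decide) (by decide) (by decide), h 5 3 (by decide) (by decide) (by decide),
    hβ2] at e5
  have h45 : l 4 = l 5 := by
    have : (1 - β) * (l 4 - l 5) = 0 := by linarith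
    rcases mul_eq_zero.1 this with h1 | h1
    · linarith
    · linarith
  have h01 : l 0 = l 1 := by linarith
  have h02 : l 0 = l 2 := by linarith
  have h03 : l 0 = l 3 := by linarith
  have h04 : l 4 = - l 0 := by linarith
  have hl0 : l 0 ≠ 0 := by
    intro h0
    apply hi0
    fin_cases i0
    · exact h0
    · exact h01 ▸ h0
    · exact h02 ▸ h0
    · exact h03 ▸ h0
    · show l 4 = 0; rw [h04, h0, neg_zero]
    · show l 5 = 0; rw [← h45, h04, h0, neg_zero]
  rw [Fin.sum_univ_six, ← h01, ← h02, ← h03, ← h45, h04] at hl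
  funext k
  have hk := congrFun hl k
  simp only [Pi.add_apply, Pi.smul_apply, smul_eq_mul, Pi.zero_apply] at hk
  simp only [Pi.add_apply]
  have : l 0 * ((v 4 k + v 5 k) - (v 0 k + v 1 k + v 2 k + v 3 k)) = 0 := by linarith
  rcases mul_eq_zero.1 this with h1 | h1
  · exact absurd h1 hl0
  · linarith

end Q133.BallPack
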