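import Mathlib
import Pool.Agent.Q133.BallPack

set_option autoImplicit false

/-!
# A non-packable augmentation
-/

namespace Q133.BallPack

open Metric

theorem six' (a b c m x y : Fin 5 → ℝ) (hxy : B x y ≤ -1)
    (haa : B a a = 1) (hbb : B b b = 1) (hcc : B c c = 1) (hmm : B m m = 1) (hxx : B x x = 1)
    (hyy : B y y = 1) (hab : B a b = -1) (hac : B a c = -1) (hbc : B b c = -1)
    (ham : B a m = -1) (hbm : B b m = -1) (hcm : B c m = -1)
    (hax : B a x = -1) (hbx : B b x = -1) (hcx : B c x = -1)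
    (hay : B a y = -1) (hby : B b y = -1) (hcy : B c y = -1)
    (hmx : B m x = -1) (hmy : B m y = -1) : y = a + b + c + m - x := by
  have h := six ![a, b, c, m, x, y] (B x y) hxy
    (by intro i; fin_cases i <;> simpa)
    rfl
    (by
      intro i j hij h1 h2
      fin_cases i <;> fin_cases j <;>
        first
        | exact absurd rfl hij
        | exact absurd ⟨rfl, rfl⟩ h1
        | exact absurd ⟨rfl, rfl⟩ h2
        | assumption
        | (rw [B_comm]; assumption))
  have h' : x + y = a + b + c + m := h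
  rw [← h']
  abel

theorem packing_iff {V : Type} (d : ℕ) (G : SimpleGraph V) (c : V → EuclideanSpace ℝ (Fin d))
    (r : V → ℝ) (hpos : ∀ v, 0 < r v) (hsep : ∀ u v, u ≠ v → r u + r v ≤ dist (c u) (c v))
    (hadj : ∀ u v, G.Adj u v ↔ u ≠ v ∧ dist (c u) (c v) = r u + r v) : IsPacking d G c r := by
  refine ⟨hpos, ?_, ?_⟩
  · intro u v huv
    rw [interior_closedBall _ (hpos u).ne', interior_closedBall _ (hpos v).ne',
      disjoint_ball_ball_iff (hpos u) (hpos v)]
    exact hsep u v huv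
  · intro u v
    rw [hadj]
    refine and_congr_right fun huv => ?_
    rw [← Set.not_disjoint_iff_nonempty_inter, disjoint_closedBall_closedBall_iff (hpos u).le
      (hpos v).le, not_lt]
    exact ⟨fun h => h.le, fun h => le_antisymm h (hsep u v huv)⟩

theorem packing_dist {V : Type} {d : ℕ} {G : SimpleGraph V} {c : V → EuclideanSpace ℝ (Fin d)}
    {r : V → ℝ} (h : IsPacking d G c r) {u v : V} (huv : u ≠ v) : r u + r v ≤ dist (c u) (c v) := by
  have := h.disj u v huv
  rwa [interior_closedBall _ (h.pos u).ne', interior_closedBall _ (h.pos v).ne',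
    disjoint_ball_ball_iff (h.pos u) (h.pos v)] at this

theorem packing_adj {V : Type} {d : ℕ} {G : SimpleGraph V} {c : V → EuclideanSpace ℝ (Fin d)}
    {r : V → ℝ} (h : IsPacking d G c r) {u v : V} (huv : G.Adj u v) :
    dist (c u) (c v) = r u + r v := by
  obtain ⟨hne, h2⟩ := (h.tangent u v).1 huv
  rw [← Set.not_disjoint_iff_nonempty_inter, disjoint_closedBall_closedBall_iff (h.pos u).le
      (h.pos v).le, not_lt] at h2
  exact le_antisymm h2 (packing_dist h hne)

theorem packing_adj' {V : Type} {d : ℕ} {G : SimpleGraph V} {c : V → EuclideanSpace ℝ (Fin d)}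
    {r : V → ℝ} (h : IsPacking d G c r) {u v : V} (hne : u ≠ v)
    (hd : dist (c u) (c v) = r u + r v) : G.Adj u v := by
  rw [h.tangent u v, ← Set.not_disjoint_iff_nonempty_inter,
    disjoint_closedBall_closedBall_iff (h.pos u).le (h.pos v).le, not_lt]
  exact ⟨hne, hd.le⟩

/-- The join of a triangle (`0,1,2`) and a path on six vertices (`3,…,8`) is not packable by
balls of `ℝ³`: Soddy's hexlet closes up. -/
theorem not_packable (H : SimpleGraph (Fin 9)) (h01 : H.Adj 0 1) (h02 : H.Adj 0 2)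
    (h12 : H.Adj 1 2) (hj : ∀ i j : Fin 9, i ≤ 2 → 3 ≤ j → H.Adj i j)
    (h34 : H.Adj 3 4) (h45 : H.Adj 4 5) (h56 : H.Adj 5 6) (h67 : H.Adj 6 7) (h78 : H.Adj 7 8)
    (h38 : ¬ H.Adj 3 8) : ¬ Packable 3 H := by
  rintro ⟨c, r, hp⟩
  set w : Fin 9 → Fin 5 → ℝ := fun i => lv (c i) (r i) with hw
  have hs : ∀ i, B (w i) (w i) = 1 := fun i => B_self _ _ (hp.pos i)
  have ht : ∀ i j, H.Adj i j → B (w i) (w j) = -1 := fun i j hij =>
    B_tangent _ _ _ _ (hp.pos i) (hp.pos j) (packing_adj hp hij)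
  have hle : ∀ i j, i ≠ j → B (w i) (w j) ≤ -1 := fun i j hij =>
    B_sep _ _ _ _ (hp.pos i) (hp.pos j) (packing_dist hp hij)
  have step : ∀ x m y : Fin 9, 3 ≤ x → 3 ≤ m → 3 ≤ y → x ≠ y → H.Adj m x → H.Adj m y →
      w y = w 0 + w 1 + w 2 + w m - w x := by
    intro x m y hx hm hy hxy h1 h2
    exact six' (w 0) (w 1) (w 2) (w m) (w x) (w y) (hle x y hxy) (hs 0) (hs 1) (hs 2) (hs m) (hs x)
      (hs y) (ht _ _ h01) (ht _ _ h02) (ht _ _ h12)
      (ht _ _ (hj 0 m (by decide) hm)) (ht _ _ (hj 1 m (by decide) hm))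
      (ht _ _ (hj 2 m (by decide) hm))
      (ht _ _ (hj 0 x (by decide) hx)) (ht _ _ (hj 1 x (by decide) hx))
      (ht _ _ (hj 2 x (by decide) hx))
      (ht _ _ (hj 0 y (by decide) hy)) (ht _ _ (hj 1 y (by decide) hy))
      (ht _ _ (hj 2 y (by decide) hy))
      (ht _ _ h1) (ht _ _ h2)
  have e5 := step 3 4 5 (by decide) (by decide) (by decide) (by decide) h34.symm h45
  have e6 := step 4 5 6 (by decide) (by decide) (by decide) (by decide) h45.symm h56
  have e7 := step 5 6 7 (by decide) (by decide) (by decide) (by decide) h56.symm h67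
  have e8 := step 6 7 8 (by decide) (by decide) (by decide) (by decide) h67.symm h78
  have e8' : w 8 = w 0 + w 1 + w 2 + w 3 - w 4 := by
    rw [e8, e7, e6, e5]; abel
  have hB : B (w 3) (w 8) = -1 := by
    rw [e8', B_sub, B_add, B_add, B_add, hs 3, ht 3 4 h34,
      ht 3 0 (hj 0 3 (by decide) (by decide)).symm, ht 3 1 (hj 1 3 (by decide) (by decide)).symm,
      ht 3 2 (hj 2 3 (by decide) (by decide)).symm]
    norm_num
  exact h38 (packing_adj' hp (by decide)
    (dist_of_B _ _ _ _ (hp.pos 3) (hp.pos 8) hB))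

/-! ## The circle packing -/

/-- First coordinates of the centres. -/
noncomputable def cx : Fin 9 → ℝ :=
  ![0, 0, 2, 2 / 3, 4 / 15, 6 / 35, 8 / 63, 10 / 99, 12 / 143]

/-- Second coordinates of the centres. -/
noncomputable def cy : Fin 9 → ℝ := ![1 / 2, -1 / 2, 0, 0, 0, 0, 0, 0, 0]

/-- Radii. -/
noncomputable def cr : Fin 9 → ℝ :=
  ![1 / 2, 1 / 2, 1, 1 / 3, 1 / 15, 1 / 35, 1 / 63, 1 / 99, 1 / 143]

/-- The centres. -/
noncomputable def cc (i : Fin 9) : EuclideanSpace ℝ (Fin 2) := !₂[cx i, cy i]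

/-- The contact graph. -/
noncomputable def cG : SimpleGraph (Fin 9) where
  Adj u v := u ≠ v ∧ dist (cc u) (cc v) = cr u + cr v
  symm := ⟨fun u v h => ⟨h.1.symm, by rw [dist_comm, h.2, add_comm]⟩⟩
  loopless := ⟨fun u h => h.1 rfl⟩

/-- The height function. -/
def cf : Fin 9 → ℤ := ![1, 1, 0, 1, 1, 1, 1, 1, 1]

theorem cdist (u v : Fin 9) : dist (cc u) (cc v) ^ 2 = (cx u - cx v) ^ 2 + (cy u - cy v) ^ 2 := by
  rw [EuclideanSpace.dist_eq, Real.sq_sqrt (Finset.sum_nonneg (fun i _ => sq_nonneg _)),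
    Fin.sum_univ_two]
  simp only [Real.dist_eq, sq_abs]
  rfl

theorem cpos (v : Fin 9) : 0 < cr v := by
  fin_cases v <;> simp [cr]

theorem cdist_le (u v : Fin 9) (h : (cr u + cr v) ^ 2 ≤ (cx u - cx v) ^ 2 + (cy u - cy v) ^ 2) :
    cr u + cr v ≤ dist (cc u) (cc v) := by
  rw [← cdist] at h
  exact le_of_sq_le_sq h dist_nonneg

theorem cdist_eq (u v : Fin 9) : dist (cc u) (cc v) = cr u + cr v ↔
    (cx u - cx v) ^ 2 + (cy u - cy v) ^ 2 = (cr u + cr v) ^ 2 := by
  rw [← cdist]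
  exact (sq_eq_sq₀ dist_nonneg (add_pos (cpos u) (cpos v)).le).symm

theorem csep (u v : Fin 9) (h : u ≠ v) :
    (cr u + cr v) ^ 2 ≤ (cx u - cx v) ^ 2 + (cy u - cy v) ^ 2 := by
  fin_cases u <;> fin_cases v <;> first | exact absurd rfl h | (simp [cr, cx, cy]; norm_num)

end Q133.BallPack
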