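import Mathlib

set_option autoImplicit false

open Finset

namespace Q133.BipartPoly

open scoped Classical in
/-- `∂W`: the set of edges of `G` with exactly one endpoint in `W` -/
noncomputable def boundary {V : Type*} [Fintype V] (G : SimpleGraph V) (W : Finset V) :
    Finset (Sym2 V) :=
  univ.filter fun e => e ∈ G.edgeSet ∧ ∃ u v, u ∈ W ∧ v ∉ W ∧ e = s(u, v)

open scoped Classical in
/-- `N_{(V,F)}(W)`: vertices outside `W` joined to a vertex of `W` by an edge of `F` -/
noncomputable def nbrs {V : Type*} [Fintype V] (F : Finset (Sym2 V)) (W : Finset V) : Finset V :=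
  univ.filter fun v => v ∉ W ∧ ∃ u ∈ W, s(u, v) ∈ F

/-- the bipartition polynomial `B(G;x,y,z)`, with `x = X 0`, `y = X 1`, `z = X 2` -/
noncomputable def bipartitionPoly {V : Type*} [Fintype V] (G : SimpleGraph V) :
    MvPolynomial (Fin 3) ℤ :=
  ∑ W : Finset V, MvPolynomial.X 0 ^ W.card *
    ∑ F ∈ (boundary G W).powerset, MvPolynomial.X 1 ^ (nbrs F W).card * MvPolynomial.X 2 ^ F.card

open scoped Classical in
/-- neighbours of `v` in `W` -/
noncomputable def nb {V : Type*} (G : SimpleGraph V) (W : Finset V) (v : V) : Finset V :=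
  W.filter fun u => G.Adj u v

open scoped Classical in
noncomputable def nbT {V : Type*} (G : SimpleGraph V) (W : Finset V) (v : V) : Finset V :=
  if v ∈ W then ∅ else nb G W v

open scoped Classical in
theorem inner_sum {V : Type*} [Fintype V] (G : SimpleGraph V) (W : Finset V) {R : Type*}
    [CommRing R] (y z : R) :
    ∑ F ∈ (boundary G W).powerset, y ^ (nbrs F W).card * z ^ F.card =
      ∏ v ∈ Wᶜ, (1 - y + y * (1 + z) ^ (nb G W v).card) := by
  -- product as a sum over families of sets
  have h1 : ∏ v ∈ Wᶜ, (1 - y + y * (1 + z) ^ (nb G W v).card) =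
      ∏ v : V, ∑ A ∈ (nbT G W v).powerset, (if A = ∅ then 1 else y) * z ^ A.card := by
    rw [← Finset.prod_subset (Finset.subset_univ Wᶜ)]
    · refine Finset.prod_congr rfl fun v hv => ?_
      have hvW : v ∉ W := by simpa using hv
      have : nbT G W v = nb G W v := by simp [nbT, hvW]
      rw [this]
      have e1 : ∀ A : Finset V, (if A = ∅ then (1:R) else y) * z ^ A.card =
          y * z ^ A.card + (if A = ∅ then (1 - y) else 0) := by
        intro A
        split_ifs with h
        · subst h; simp
        · simp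
      rw [Finset.sum_congr rfl (fun A _ => e1 A), Finset.sum_add_distrib, ← Finset.mul_sum]
      have e2 : ∑ A ∈ (nb G W v).powerset, z ^ A.card = (1 + z) ^ (nb G W v).card := by
        have := Finset.prod_add (fun _ : V => z) (fun _ : V => (1:R)) (nb G W v)
        simp only [Finset.prod_const, one_pow, mul_one] at this
        rw [← this, add_comm]
      have e3 : ∑ A ∈ (nb G W v).powerset, (if A = ∅ then (1 - y) else 0) = 1 - y := by
        rw [Finset.sum_ite_eq' ]
        simp
      rw [e2, e3]; ring
    · intro v _ hv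
      have hvW : v ∈ W := by simpa using hv
      have : nbT G W v = ∅ := by simp [nbT, hvW]
      rw [this]; simp
  rw [h1, Finset.prod_univ_sum]
  refine Finset.sum_bij' (fun F _ => fun v => if v ∈ W then ∅ else W.filter (fun u => s(u, v) ∈ F))
    (fun x _ => univ.biUnion (fun v => (x v).image (fun u => s(u, v)))) ?_ ?_ ?_ ?_ ?_
  · intro F hF
    rw [Finset.mem_powerset] at hF
    rw [Fintype.mem_piFinset]
    intro v
    rw [Finset.mem_powerset]
    by_cases hv : v ∈ W
    · simp [hv]
    · simp only [hv, if_false, nbT, nb]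
      intro u hu
      rw [Finset.mem_filter] at hu ⊢
      refine ⟨hu.1, ?_⟩
      have := hF hu.2
      simp only [boundary, Finset.mem_filter, Finset.mem_univ, true_and] at this
      simpa using this.1
  · intro x hx
    rw [Fintype.mem_piFinset] at hx
    rw [Finset.mem_powerset]
    intro e he
    simp only [Finset.mem_biUnion, Finset.mem_univ, true_and, Finset.mem_image] at he
    obtain ⟨v, u, hu, rfl⟩ := he
    have h2 := hx v
    rw [Finset.mem_powerset] at h2
    have h3 := h2 hu
    simp only [nbT, nb] at h3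
    split_ifs at h3 with hv
    · simp at h3
    · rw [Finset.mem_filter] at h3
      simp only [boundary, Finset.mem_filter, Finset.mem_univ, true_and]
      exact ⟨by simpa using h3.2, u, v, h3.1, hv, rfl⟩
  · intro F hF
    rw [Finset.mem_powerset] at hF
    ext e
    simp only [Finset.mem_biUnion, Finset.mem_univ, true_and, Finset.mem_image]
    constructor
    · rintro ⟨v, u, hu, rfl⟩
      split_ifs at hu with hv
      · simp at hu
      · rw [Finset.mem_filter] at hu; exact hu.2
    · intro he
      have := hF he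
      simp only [boundary, Finset.mem_filter, Finset.mem_univ, true_and] at this
      obtain ⟨_, u, v, hu, hv, rfl⟩ := this
      refine ⟨v, u, ?_, rfl⟩
      simp only [hv, if_false, Finset.mem_filter]
      exact ⟨hu, he⟩
  · intro x hx
    rw [Fintype.mem_piFinset] at hx
    funext v
    have h2 := hx v
    rw [Finset.mem_powerset] at h2
    simp only [nbT, nb] at h2
    by_cases hv : v ∈ W
    · simp only [hv, if_true] at h2 ⊢
      exact (Finset.subset_empty.mp h2).symm
    · simp only [hv, if_false] at h2 ⊢
      ext u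
      simp only [Finset.mem_filter, Finset.mem_biUnion, Finset.mem_univ, true_and,
        Finset.mem_image]
      constructor
      · rintro ⟨huW, v', u', hu', he⟩
        rw [Sym2.eq_iff] at he
        rcases he with ⟨rfl, rfl⟩ | ⟨rfl, rfl⟩
        · exact hu'
        · -- u' = v, v' = u ∈ W
          have h4 := hx v'
          rw [Finset.mem_powerset] at h4
          simp only [nbT, huW, if_true] at h4
          exact absurd (h4 hu') (by simp)
      · intro hu
        exact ⟨(Finset.mem_filter.mp (h2 hu)).1, v, u, hu, rfl⟩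
  · intro F hF
    rw [Finset.mem_powerset] at hF
    rw [Finset.prod_mul_distrib]
    congr 1
    · -- y powers
      have : nbrs F W = univ.filter (fun v => (if v ∈ W then (∅ : Finset V) else
          W.filter (fun u => s(u, v) ∈ F)) ≠ ∅) := by
        ext v
        simp only [nbrs, Finset.mem_filter, Finset.mem_univ, true_and]
        by_cases hv : v ∈ W
        · simp [hv]
        · simp only [hv, not_false_eq_true, true_and, if_false]
          rw [← Finset.nonempty_iff_ne_empty]
          constructor
          · rintro ⟨u, hu, hF⟩; exact ⟨u, by simp [hu, hF]⟩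
          · rintro ⟨u, hu⟩; rw [Finset.mem_filter] at hu; exact ⟨u, hu.1, hu.2⟩
      rw [this, Finset.card_filter]
      rw [← Finset.prod_pow_eq_pow_sum]
      refine Finset.prod_congr rfl fun v _ => ?_
      by_cases h : (if v ∈ W then (∅ : Finset V) else W.filter (fun u => s(u, v) ∈ F)) = ∅
      · simp [h]
      · simp [h]
    · rw [Finset.prod_pow_eq_pow_sum]
      congr 1
      -- |F| = sum
      have hFe : F = univ.biUnion (fun v => ((if v ∈ W then (∅ : Finset V) else
          W.filter (fun u => s(u, v) ∈ F))).image (fun u => s(u, v))) := by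
        ext e
        simp only [Finset.mem_biUnion, Finset.mem_univ, true_and, Finset.mem_image]
        constructor
        · intro he
          have := hF he
          simp only [boundary, Finset.mem_filter, Finset.mem_univ, true_and] at this
          obtain ⟨_, u, v, hu, hv, rfl⟩ := this
          refine ⟨v, u, ?_, rfl⟩
          simp only [hv, if_false, Finset.mem_filter]
          exact ⟨hu, he⟩
        · rintro ⟨v, u, hu, rfl⟩
          split_ifs at hu with hv
          · simp at hu
          · rw [Finset.mem_filter] at hu; exact hu.2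
      conv_lhs => rw [hFe]
      rw [Finset.card_biUnion]
      · refine Finset.sum_congr rfl fun v _ => ?_
        rw [Finset.card_image_of_injOn]
        intro a _ b _ hab
        have hab' : s(a, v) = s(b, v) := hab
        rw [Sym2.eq_iff] at hab'
        rcases hab' with ⟨h, _⟩ | ⟨h, h'⟩
        · exact h
        · rw [h, ← h']
      · intro v _ v' _ hvv'
        rw [Function.onFun, Finset.disjoint_left]
        intro e he he'
        rw [Finset.mem_image] at he he'
        obtain ⟨u, hu, rfl⟩ := he
        obtain ⟨u', hu', he⟩ := he'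
        rw [Sym2.eq_iff] at he
        rcases he with ⟨_, h⟩ | ⟨h, h'⟩
        · exact hvv' h.symm
        · by_cases hv : v ∈ W
          · simp [hv] at hu
          · by_cases hv' : v' ∈ W
            · simp [hv'] at hu'
            · simp only [hv, if_false, Finset.mem_filter] at hu
              rw [h'] at hv'
              exact hv' hu.1

theorem card_nb_compl {V : Type*} [Fintype V] (G : SimpleGraph V) (W : Finset V) (v : V)
    (hv : v ∉ W) : (nb Gᶜ W v).card + (nb G W v).card = W.card := by
  classical
  have : nb Gᶜ W v = W.filter (fun u => ¬ G.Adj u v) := by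
    ext u
    simp only [nb, Finset.mem_filter, SimpleGraph.compl_adj]
    constructor
    · rintro ⟨h1, h2, h3⟩; exact ⟨h1, h3⟩
    · rintro ⟨h1, h2⟩
      exact ⟨h1, fun h => hv (h ▸ h1), h2⟩
  rw [this]
  have := Finset.card_filter_add_card_filter_not (s := W) (fun u => G.Adj u v)
  unfold nb
  omega

/-- coefficient of `x^k` as a function of `y` and `t = 1+z` -/
noncomputable def cf {V : Type*} [Fintype V] (G : SimpleGraph V) (k : ℕ) (y t : ℝ) : ℝ :=
  ∑ W ∈ (univ : Finset V).powersetCard k,
    haveI := Classical.decEq V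
    ∏ v ∈ Wᶜ, (1 - y + y * t ^ (nb G W v).card)

theorem eval_bip {V : Type*} [Fintype V] (G : SimpleGraph V) (a : Fin 3 → ℝ) :
    MvPolynomial.eval a (MvPolynomial.map (Int.castRingHom ℝ) (bipartitionPoly G)) =
      ∑ k ∈ range (Fintype.card V + 1), cf G k (a 1) (1 + a 2) * a 0 ^ k := by
  classical
  unfold bipartitionPoly
  simp only [map_sum, map_mul, map_pow, MvPolynomial.map_X, MvPolynomial.eval_X]
  simp only [inner_sum]
  have : ∀ W : Finset V, W ∈ (univ : Finset V).powerset := by intro W; simp
  have hu : (univ : Finset (Finset V)) = (univ : Finset V).powerset := by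
    ext W; simp
  rw [hu, Finset.sum_powerset]
  rw [Finset.card_univ]
  refine Finset.sum_congr rfl fun k _ => ?_
  unfold cf
  rw [Finset.sum_mul]
  refine Finset.sum_congr rfl fun W hW => ?_
  rw [(Finset.mem_powersetCard.mp hW).2, mul_comm]

theorem cf_compl {V : Type*} [Fintype V] (G : SimpleGraph V) (k : ℕ)
    (y t : ℝ) (ht : 0 < t)
    (hD : 1 - y + y * t ^ k ≠ 0) :
    cf G k y t = (1 - y + y * t ^ k) ^ (Fintype.card V - k) *
      cf Gᶜ k (y * t ^ k / (1 - y + y * t ^ k)) t⁻¹ := by
  classical
  unfold cf
  rw [Finset.mul_sum]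
  refine Finset.sum_congr rfl fun W hW => ?_
  have hWk := (Finset.mem_powersetCard.mp hW).2
  have hcard : Fintype.card V - k = (Wᶜ).card := by
    rw [Finset.card_compl, hWk]
  have e : ∀ (f : V → ℝ) (S : Finset V) (c : ℝ), c ^ S.card * ∏ v ∈ S, f v = ∏ v ∈ S, (c * f v) := by
    intro f S c
    rw [Finset.prod_mul_distrib, Finset.prod_const]
  rw [hcard]
  have key : ∀ v ∈ Wᶜ, (1 - y + y * t ^ (nb G W v).card) =
     (1 - y + y * t ^ k) * (1 - (y * t ^ k / (1 - y + y * t ^ k)) +
       (y * t ^ k / (1 - y + y * t ^ k)) * t⁻¹ ^ (nb Gᶜ W v).card) := by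
    intro v hv
    have hv' : v ∉ W := by simpa using hv
    have h1 := card_nb_compl G W v hv'
    rw [hWk] at h1
    have h2 : t ^ k * t⁻¹ ^ (nb Gᶜ W v).card = t ^ (nb G W v).card := by
      rw [← h1, pow_add, inv_pow]
      have : t ^ (nb Gᶜ W v).card ≠ 0 := by positivity
      field_simp
    rw [mul_add, mul_sub, mul_one]
    have h3 : (1 - y + y * t ^ k) * (y * t ^ k / (1 - y + y * t ^ k)) = y * t ^ k := by
      field_simp
    rw [h3, ← mul_assoc, h3, mul_assoc, h2]
    ring
  rw [e]
  convert Finset.prod_congr rfl key using 1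

theorem cf_one {U : Type*} [Fintype U] (K : SimpleGraph U) (k : ℕ) : cf K k 1 (1 + 0) =
    ((Fintype.card U).choose k : ℝ) := by
  unfold cf
  simp [Finset.card_powersetCard, Finset.card_univ]

theorem cf_of_bip_eq {V V' : Type*} [Fintype V] [Fintype V'] (G : SimpleGraph V)
    (H : SimpleGraph V') (h : bipartitionPoly G = bipartitionPoly H) :
    Fintype.card V = Fintype.card V' ∧
      ∀ k ≤ Fintype.card V, ∀ y t : ℝ, cf G k y t = cf H k y t := by
  have hcard : Fintype.card V = Fintype.card V' := by
    have h1 := congrArg (fun P => MvPolynomial.eval (![1, 1, 0] : Fin 3 → ℝ)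
      (MvPolynomial.map (Int.castRingHom ℝ) P)) h
    simp only [eval_bip] at h1
    have v0 : (![1, 1, 0] : Fin 3 → ℝ) 0 = 1 := rfl
    have v1 : (![1, 1, 0] : Fin 3 → ℝ) 1 = 1 := rfl
    have v2 : (![1, 1, 0] : Fin 3 → ℝ) 2 = 0 := rfl
    simp only [v0, v1, v2, cf_one, one_pow, mul_one] at h1
    have h2 : ∀ n : ℕ, ∑ k ∈ range (n + 1), ((n.choose k : ℕ) : ℝ) = 2 ^ n := by
      intro n
      exact_mod_cast Nat.sum_range_choose n
    rw [h2, h2] at h1
    exact pow_right_injective₀ (by norm_num) (by norm_num) h1
  refine ⟨hcard, ?_⟩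
  intro k hk y t
  have hp : (∑ k ∈ range (Fintype.card V + 1), Polynomial.C (cf G k y t) * Polynomial.X ^ k) =
      (∑ k ∈ range (Fintype.card V + 1), Polynomial.C (cf H k y t) * Polynomial.X ^ k) := by
    refine Polynomial.funext fun x => ?_
    have h1 := congrArg (fun P => MvPolynomial.eval (![x, y, t - 1] : Fin 3 → ℝ)
      (MvPolynomial.map (Int.castRingHom ℝ) P)) h
    simp only [eval_bip] at h1
    have v0 : (![x, y, t - 1] : Fin 3 → ℝ) 0 = x := rfl
    have v1 : (![x, y, t - 1] : Fin 3 → ℝ) 1 = y := rfl
    have v2 : (![x, y, t - 1] : Fin 3 → ℝ) 2 = t - 1 := rfl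
    simp only [v0, v1, v2, add_sub_cancel, ← hcard] at h1
    simpa [Polynomial.eval_finsetSum] using h1
  have h2 := congrArg (fun P => Polynomial.coeff P k) hp
  simp only [Polynomial.finsetSum_coeff, Polynomial.coeff_C_mul, Polynomial.coeff_X_pow] at h2
  simpa [Nat.lt_succ_of_le hk] using h2

theorem main {V V' : Type*} [Fintype V] [Fintype V'] (G : SimpleGraph V)
    (H : SimpleGraph V') (h : bipartitionPoly Gᶜ = bipartitionPoly Hᶜ) :
    bipartitionPoly G = bipartitionPoly H := by
  obtain ⟨hc, hcf⟩ := cf_of_bip_eq Gᶜ Hᶜ h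
  have hinj : Function.Injective (MvPolynomial.map (σ := Fin 3) (Int.castRingHom ℝ)) :=
    MvPolynomial.map_injective _ Int.cast_injective
  apply hinj
  apply MvPolynomial.funext_set (s := fun i : Fin 3 => Set.Ioo (0:ℝ) 1)
  · intro i
    exact Set.Ioo_infinite (by norm_num)
  · intro a ha
    have ha' : ∀ i, a i ∈ Set.Ioo (0:ℝ) 1 := fun i => ha i (Set.mem_univ i)
    rw [eval_bip, eval_bip, ← hc]
    refine Finset.sum_congr rfl fun k hk => ?_
    have hk' : k ≤ Fintype.card V := Nat.lt_succ_iff.mp (Finset.mem_range.mp hk)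
    have hy := ha' 1
    have hz := ha' 2
    have ht : (0:ℝ) < 1 + a 2 := by linarith [hz.1]
    have hD : 1 - a 1 + a 1 * (1 + a 2) ^ k ≠ 0 := by
      have h1 : 0 < a 1 * (1 + a 2) ^ k := mul_pos hy.1 (pow_pos ht k)
      have h2 := hy.2
      linarith
    rw [cf_compl G k _ _ ht hD, cf_compl H k _ _ ht hD, hcf k hk', hc]

end Q133.BipartPoly
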