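import Mathlib

/-!
# Regular and almost regular graphs
-/

namespace Pool.Agent.Q133.CircGraph

open Finset
open scoped Classical

/-- the property of the differences, in terms of `0 ≤ v < m` -/
def SP (m r v : ℕ) : Prop := 0 < v ∧ (v ≤ r / 2 ∨ m ≤ v + r / 2 ∨ (Odd r ∧ 2 * v = m))

/-- counting the differences -/
lemma card_SP (m r : ℕ) (hr : r < m) (hpar : Even m ∨ Even r) :
    ((range m).filter (SP m r)).card = r := by
  rcases Nat.even_or_odd r with he | ho
  · obtain ⟨j, rfl⟩ := he
    have h1 : (range m).filter (SP m (j + j)) = Ico 1 (j + 1) ∪ Ico (m - j) m := by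
      ext v
      simp only [mem_filter, mem_range, SP, mem_union, mem_Ico]
      have : (j + j) / 2 = j := by omega
      rw [this]
      constructor
      · rintro ⟨h1, h2, h3 | h3 | ⟨h3, -⟩⟩
        · left; omega
        · right; omega
        · exact absurd h3 (by rw [Nat.not_odd_iff_even]; exact ⟨j, rfl⟩)
      · rintro (h | h)
        · exact ⟨by omega, by omega, Or.inl (by omega)⟩
        · exact ⟨by omega, by omega, Or.inr (Or.inl (by omega))⟩
    rw [h1, card_union_of_disjoint, Nat.card_Ico, Nat.card_Ico]
    · omega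
    · rw [disjoint_left]
      intro v hv hv'
      rw [mem_Ico] at hv hv'
      omega
  · obtain ⟨j, rfl⟩ := ho
    have hm : Even m := by
      rcases hpar with h | h
      · exact h
      · rw [Nat.even_iff] at h; omega
    obtain ⟨h, rfl⟩ := hm
    have h1 : (range (h + h)).filter (SP (h + h) (2 * j + 1)) =
        (Ico 1 (j + 1) ∪ {h}) ∪ Ico (h + h - j) (h + h) := by
      ext v
      simp only [mem_filter, mem_range, SP, mem_union, mem_Ico, mem_singleton]
      have : (2 * j + 1) / 2 = j := by omega
      rw [this]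
      constructor
      · rintro ⟨h1, h2, h3 | h3 | ⟨-, h3⟩⟩
        · left; left; omega
        · right; omega
        · left; right; omega
      · rintro ((h | h) | h)
        · exact ⟨by omega, by omega, Or.inl (by omega)⟩
        · exact ⟨by omega, by omega, Or.inr (Or.inr ⟨⟨j, rfl⟩, by omega⟩)⟩
        · exact ⟨by omega, by omega, Or.inr (Or.inl (by omega))⟩
    rw [h1, card_union_of_disjoint, card_union_of_disjoint, Nat.card_Ico, Nat.card_Ico,
      card_singleton]
    · omega
    · rw [disjoint_singleton_right, mem_Ico]; omega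
    · rw [disjoint_left]
      intro v hv hv'
      rw [mem_union, mem_Ico, mem_singleton] at hv
      rw [mem_Ico] at hv'
      omega

/-- counting in `ZMod m` -/
lemma card_val (m : ℕ) [NeZero m] (p : ℕ → Prop) :
    (univ.filter (fun z : ZMod m => p z.val)).card = ((range m).filter p).card := by
  apply card_bij (fun z _ => z.val)
  · intro z hz
    rw [mem_filter] at hz
    rw [mem_filter, mem_range]
    exact ⟨ZMod.val_lt z, hz.2⟩
  · intro a _ b _ h
    exact ZMod.val_injective m h
  · intro v hv
    rw [mem_filter, mem_range] at hv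
    refine ⟨(v : ZMod m), ?_, ZMod.val_cast_of_lt hv.1⟩
    rw [mem_filter, ZMod.val_cast_of_lt hv.1]
    exact ⟨mem_univ _, hv.2⟩

lemma SP_symm (m r : ℕ) [NeZero m] (z : ZMod m) (h : SP m r z.val) : SP m r (-z).val := by
  have hz : z ≠ 0 := by
    rintro rfl
    have := h.1
    simp at this
  have h1 : (-z).val = m - z.val := by
    have := ZMod.neg_val z
    rw [if_neg hz] at this
    exact this
  have h2 := ZMod.val_lt z
  rw [h1]
  refine ⟨by omega, ?_⟩
  rcases h.2 with h3 | h3 | ⟨h3, h4⟩
  · right; left; omega
  · left; omega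
  · right; right; exact ⟨h3, by omega⟩

/-- the circulant graph -/
def circ (m r : ℕ) [NeZero m] : SimpleGraph (ZMod m) where
  Adj x y := SP m r (x - y).val
  symm := ⟨fun x y h => by
    have := SP_symm m r _ h
    rwa [neg_sub] at this⟩
  loopless := ⟨fun x h => by
    have := h.1
    simp at this⟩

lemma circ_degree (m r : ℕ) [NeZero m] (hr : r < m) (hpar : Even m ∨ Even r) (x : ZMod m) :
    (circ m r).degree x = r := by
  rw [← SimpleGraph.card_neighborFinset_eq_degree, SimpleGraph.neighborFinset_eq_filter]
  refine Eq.trans ?_ (card_SP m r hr hpar)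
  rw [← card_val m (SP m r)]
  apply card_bij (fun y _ => x - y)
  · intro y hy
    rw [mem_filter] at hy ⊢
    exact ⟨mem_univ _, hy.2⟩
  · intro a _ b _ h
    exact sub_right_injective h
  · intro z hz
    rw [mem_filter] at hz
    refine ⟨x - z, ?_, by ring⟩
    rw [mem_filter]
    refine ⟨mem_univ _, ?_⟩
    show SP m r (x - (x - z)).val
    rw [sub_sub_cancel]
    exact hz.2

/-- the removed antipodal edges -/
def AP (h t v : ℕ) : Prop := v % h < t

lemma card_AP (h t : ℕ) (_hh : 0 < h) (ht : t ≤ h) : ((range (2 * h)).filter (AP h t)).card = 2 * t := by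
  have h1 : (range (2 * h)).filter (AP h t) = range t ∪ Ico h (h + t) := by
    ext v
    simp only [mem_filter, mem_range, AP, mem_union, mem_Ico]
    constructor
    · rintro ⟨h1, h2⟩
      rcases Nat.lt_or_ge v h with h3 | h3
      · rw [Nat.mod_eq_of_lt h3] at h2; left; exact h2
      · right
        have : v % h = v - h := by
          rw [Nat.mod_eq_sub_mod h3, Nat.mod_eq_of_lt (by omega)]
        omega
    · rintro (h1 | h1)
      · exact ⟨by omega, by rw [Nat.mod_eq_of_lt (by omega)]; exact h1⟩
      · refine ⟨by omega, ?_⟩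
        rw [Nat.mod_eq_sub_mod h1.1, Nat.mod_eq_of_lt (by omega)]
        omega
  rw [h1, card_union_of_disjoint, card_range, Nat.card_Ico]
  · omega
  · rw [disjoint_left]
    intro v hv hv'
    rw [mem_range] at hv
    rw [mem_Ico] at hv'
    omega

/-- antipodal points -/
lemma AP_anti (h t : ℕ) (hh : 0 < h) [NeZero (2 * h)] (x y : ZMod (2 * h))
    (hxy : (x - y).val = h) (hx : AP h t x.val) : AP h t y.val := by
  have h1 : x = y + (h : ZMod (2 * h)) := by
    have h2 : ((x - y).val : ZMod (2 * h)) = x - y := ZMod.natCast_zmod_val _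
    rw [hxy] at h2
    rw [h2]; ring
  have h3 : x.val = (y.val + h) % (2 * h) := by
    have h4 : x = ((y.val + h : ℕ) : ZMod (2 * h)) := by
      rw [h1]; push_cast; rw [ZMod.natCast_zmod_val]
    rw [h4, ZMod.val_natCast]
  unfold AP at hx ⊢
  rw [h3, Nat.mod_mul_left_mod, Nat.add_mod_right] at hx
  exact hx

/-- the graph with `2 h` vertices of degree `r` and one of degree `2 t` -/
def near (h r t : ℕ) [NeZero (2 * h)] (hh : 0 < h) : SimpleGraph (Option (ZMod (2 * h))) where
  Adj a b := match a, b with
    | some x, some y => SP (2 * h) r (x - y).val ∧ ¬ ((x - y).val = h ∧ AP h t x.val)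
    | none, some y => AP h t y.val
    | some x, none => AP h t x.val
    | none, none => False
  symm := ⟨by
    rintro (_ | x) (_ | y) hab
    · exact hab
    · exact hab
    · exact hab
    · refine ⟨?_, ?_⟩
      · have := SP_symm (2 * h) r _ hab.1
        rwa [neg_sub] at this
      · rintro ⟨h1, h2⟩
        apply hab.2
        have h3 : (x - y).val = h := by
          have hne : y - x ≠ 0 := by
            intro h0; rw [h0] at h1; simp at h1; omega
          have := ZMod.neg_val (y - x)
          rw [if_neg hne, neg_sub] at this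
          omega
        exact ⟨h3, AP_anti h t hh y x h1 h2⟩⟩
  loopless := ⟨by
    rintro (_ | x) hab
    · exact hab
    · have := hab.1.1
      simp at this⟩

lemma near_degree_none (h r t : ℕ) [NeZero (2 * h)] (hh : 0 < h) (ht : t ≤ h) :
    (near h r t hh).degree none = 2 * t := by
  rw [← SimpleGraph.card_neighborFinset_eq_degree, SimpleGraph.neighborFinset_eq_filter]
  refine Eq.trans ?_ (card_AP h t hh ht)
  rw [← card_val (2 * h) (AP h t)]
  symm
  apply card_bij (fun y _ => some y)
  · intro y hy
    rw [mem_filter] at hy ⊢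
    exact ⟨mem_univ _, hy.2⟩
  · intro a _ b _ h
    exact Option.some_injective _ h
  · rintro (_ | y) hy
    · rw [mem_filter] at hy; exact hy.2.elim
    · rw [mem_filter] at hy
      exact ⟨y, by rw [mem_filter]; exact ⟨mem_univ _, hy.2⟩, rfl⟩

lemma near_degree_some (h r t : ℕ) [NeZero (2 * h)] (hh : 0 < h) (hr : Odd r) (hrm : r < 2 * h)
    (x : ZMod (2 * h)) : (near h r t hh).degree (some x) = r := by
  rw [← SimpleGraph.card_neighborFinset_eq_degree, SimpleGraph.neighborFinset_eq_filter]
  have hdeg := circ_degree (2 * h) r hrm (Or.inl (even_two_mul h)) x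
  rw [← SimpleGraph.card_neighborFinset_eq_degree, SimpleGraph.neighborFinset_eq_filter] at hdeg
  -- the antipode
  set z : ZMod (2 * h) := x - (h : ZMod (2 * h)) with hz
  have hxz : (x - z).val = h := by
    rw [hz, sub_sub_cancel, ZMod.val_natCast, Nat.mod_eq_of_lt (by omega)]
  have huniq : ∀ y : ZMod (2 * h), (x - y).val = h → y = z := by
    intro y hy
    have h1 : x - y = x - z := ZMod.val_injective _ (hy.trans hxz.symm)
    exact sub_right_injective h1
  have hSz : SP (2 * h) r (x - z).val := by
    rw [hxz]; exact ⟨hh, Or.inr (Or.inr ⟨hr, rfl⟩)⟩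
  refine Eq.trans ?_ hdeg
  by_cases hA : AP h t x.val
  · -- replace `z` by `none`
    apply card_bij (fun a _ => (a.getD z))
    · rintro (_ | y) hy
      · rw [mem_filter]; exact ⟨mem_univ _, hSz⟩
      · rw [mem_filter] at hy ⊢
        exact ⟨mem_univ _, hy.2.1⟩
    · rintro (_ | a) ha (_ | b) hb hab
      · rfl
      · exfalso
        rw [mem_filter] at hb
        apply hb.2.2
        have : z = b := hab
        rw [← this]
        exact ⟨hxz, hA⟩
      · exfalso
        rw [mem_filter] at ha
        apply ha.2.2
        have : a = z := hab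
        rw [this]
        exact ⟨hxz, hA⟩
      · have : a = b := hab
        rw [this]
    · intro y hy
      rw [mem_filter] at hy
      by_cases hyz : y = z
      · refine ⟨none, ?_, hyz.symm⟩
        rw [mem_filter]
        exact ⟨mem_univ _, hA⟩
      · refine ⟨some y, ?_, rfl⟩
        rw [mem_filter]
        exact ⟨mem_univ _, hy.2, fun h1 => hyz (huniq y h1.1)⟩
  · symm
    apply card_bij (fun y _ => some y)
    · intro y hy
      rw [mem_filter] at hy ⊢
      exact ⟨mem_univ _, hy.2, fun h1 => hA h1.2⟩
    · intro a _ b _ h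
      exact Option.some_injective _ h
    · rintro (_ | y) hy
      · rw [mem_filter] at hy; exact absurd hy.2 hA
      · rw [mem_filter] at hy
        exact ⟨y, by rw [mem_filter]; exact ⟨mem_univ _, hy.2.1⟩, rfl⟩

lemma card_eq_of_equiv {α β : Type} (i : Fintype α) (j : Fintype β) (E : α ≃ β) :
    @Fintype.card α i = @Fintype.card β j := Fintype.card_congr E

/-- transport to `Fin n` -/
lemma transport {V : Type} [Fintype V] (G : SimpleGraph V) {n : ℕ} (hn : Fintype.card V = n) :
    ∃ (G' : SimpleGraph (Fin n)) (e : V ≃ Fin n), ∀ v, G'.degree (e v) = G.degree v := by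
  have e : V ≃ Fin n := Fintype.equivFinOfCardEq hn
  refine ⟨SimpleGraph.map (⇑e) G, e, fun v => ?_⟩
  rw [← SimpleGraph.card_neighborSet_eq_degree, ← SimpleGraph.card_neighborSet_eq_degree]
  have E : (SimpleGraph.map (⇑e) G).neighborSet (e v) ≃ G.neighborSet v :=
    ((SimpleGraph.Iso.map e G).mapNeighborSet v).symm
  exact card_eq_of_equiv _ _ E

/-- regular graphs -/
theorem exists_regular (n r : ℕ) (hr : r < n) (hpar : Even n ∨ Even r) :
    ∃ G : SimpleGraph (Fin n), ∀ v, G.degree v = r := by
  have : NeZero n := ⟨by omega⟩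
  obtain ⟨G', e, h⟩ := transport (circ n r) (n := n) (by rw [ZMod.card])
  refine ⟨G', fun v => ?_⟩
  have := h (e.symm v)
  rw [Equiv.apply_symm_apply, circ_degree n r hr hpar] at this
  exact this

/-- one vertex of even degree `s`, the others of odd degree `r` -/
theorem exists_near (n r s : ℕ) (hn : Odd n) (hr : Odd r) (hs : Even s) (hrn : r < n) (hsn : s < n) :
    ∃ (G : SimpleGraph (Fin n)) (v : Fin n), G.degree v = s ∧ ∀ w, w ≠ v → G.degree w = r := by
  obtain ⟨h, rfl⟩ := hn
  obtain ⟨t, rfl⟩ := hs
  obtain ⟨j, rfl⟩ := hr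
  have hh : 0 < h := by omega
  have : NeZero (2 * h) := ⟨by omega⟩
  obtain ⟨G', e, he⟩ := transport (near h (2 * j + 1) t hh) (n := 2 * h + 1)
    (by rw [Fintype.card_option, ZMod.card])
  refine ⟨G', e none, ?_, fun w hw => ?_⟩
  · rw [he, near_degree_none h _ t hh (by omega)]
    omega
  · obtain ⟨a, rfl⟩ := e.surjective w
    rcases a with _ | x
    · exact absurd rfl hw
    · rw [he, near_degree_some h _ t hh ⟨j, rfl⟩ (by omega)]

end Pool.Agent.Q133.CircGraph
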