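import Mathlib
import Pool.Agent.H255R3.STC.Chordal

set_option autoImplicit false
set_option linter.unusedSectionVars false

open Polynomial Classical

namespace Q133.CliqueRoots

open Pool.Agent.H255R3.STC (IsChordal exists_simplicial)

variable {V : Type} [Fintype V]

/-- `b` is reachable from `a` inside `s`. -/
def Reach (G : SimpleGraph V) (s : Finset V) (a b : V) : Prop :=
  Relation.ReflTransGen (fun x y => G.Adj x y ∧ x ∈ s ∧ y ∈ s) a b

/-- connectivity inside `s` -/
def Conn (G : SimpleGraph V) (s : Finset V) : Prop := ∀ a ∈ s, ∀ b ∈ s, Reach G s a b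

/-- `z` is simplicial in `G[s]`. -/
def Simpl (G : SimpleGraph V) (s : Finset V) (z : V) : Prop :=
  ∀ a ∈ s, ∀ b ∈ s, G.Adj z a → G.Adj z b → a ≠ b → G.Adj a b

theorem Reach.mem {G : SimpleGraph V} {s : Finset V} {a b : V} (h : Reach G s a b) (ha : a ∈ s) :
    b ∈ s := by
  rcases Relation.ReflTransGen.cases_tail h with h1 | ⟨c, _, hc⟩
  · rw [h1]; exact ha
  · exact hc.2.2

theorem Conn.erase {G : SimpleGraph V} {s : Finset V} {z : V} (h : Conn G s) (hz : Simpl G s z) :
    Conn G (s.erase z) := by
  intro a ha b hb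
  rw [Finset.mem_erase] at ha hb
  have key : ∀ y, Reach G s a y →
      (y ≠ z ∧ Reach G (s.erase z) a y) ∨
      (y = z ∧ ∃ w, w ∈ s ∧ w ≠ z ∧ G.Adj z w ∧ Reach G (s.erase z) a w) := by
    intro y hy
    induction hy with
    | refl => exact Or.inl ⟨ha.1, Relation.ReflTransGen.refl⟩
    | @tail y y' hy hyy' ih =>
      rcases ih with ⟨h1, h2⟩ | ⟨h1, w, hw1, hw2, hw3, hw4⟩
      · by_cases hy'z : y' = z
        · right
          refine ⟨hy'z, y, hyy'.2.1, h1, ?_, h2⟩
          rw [← hy'z]; exact hyy'.1.symm
        · left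
          refine ⟨hy'z, h2.tail ⟨hyy'.1, ?_, ?_⟩⟩
          · exact Finset.mem_erase.mpr ⟨h1, hyy'.2.1⟩
          · exact Finset.mem_erase.mpr ⟨hy'z, hyy'.2.2⟩
      · left
        subst h1
        have h3 : y' ≠ y := fun hh => by
          have := hyy'.1
          rw [hh] at this
          exact G.loopless.irrefl _ this
        refine ⟨h3, ?_⟩
        by_cases h4 : w = y'
        · rw [← h4]; exact hw4
        · refine hw4.tail ⟨hz w hw1 y' hyy'.2.2 hw3 hyy'.1 h4, ?_, ?_⟩
          · exact Finset.mem_erase.mpr ⟨hw2, hw1⟩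
          · exact Finset.mem_erase.mpr ⟨h3, hyy'.2.2⟩
  rcases key b (h a ha.2 b hb.2) with h1 | h1
  · exact h1.2
  · exact absurd h1.1 hb.1

/-- `G[s]` is `l`-connected. -/
def KConn (G : SimpleGraph V) (l : ℕ) (s : Finset V) : Prop :=
  l + 1 ≤ s.card ∧ ∀ S : Finset V, S ⊆ s → S.card < l → Conn G (s \ S)

theorem KConn.erase {G : SimpleGraph V} {l : ℕ} {s : Finset V} {z : V} (h : KConn G l s)
    (hs : l + 2 ≤ s.card) (hz : z ∈ s) (hsz : Simpl G s z) : KConn G l (s.erase z) := by
  refine ⟨by rw [Finset.card_erase_of_mem hz]; omega, fun S hS hSc => ?_⟩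
  have h1 : s.erase z \ S = (s \ S).erase z := by
    ext x
    simp only [Finset.mem_sdiff, Finset.mem_erase]
    tauto
  rw [h1]
  refine Conn.erase (h.2 S (hS.trans (Finset.erase_subset _ _)) hSc) ?_
  intro a ha b hb
  exact hsz a (Finset.mem_sdiff.mp ha).1 b (Finset.mem_sdiff.mp hb).1

/-- a vertex of a connected set with at least two elements has a neighbour -/
theorem exists_adj {G : SimpleGraph V} {s : Finset V} (h : Conn G s) {a b : V} (ha : a ∈ s)
    (hb : b ∈ s) (hab : a ≠ b) : ∃ c ∈ s, G.Adj a c := by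
  rcases Relation.ReflTransGen.cases_head (h a ha b hb) with h1 | ⟨c, hc, _⟩
  · exact absurd h1 hab
  · exact ⟨c, hc.2.2, hc.1⟩

/-- neighbours of `z` in `s` -/
noncomputable def nb (G : SimpleGraph V) (s : Finset V) (z : V) : Finset V := s.filter (fun a => G.Adj z a)

omit [Fintype V] in
theorem nb_sub (G : SimpleGraph V) (s : Finset V) (z : V) : nb G s z ⊆ s := Finset.filter_subset _ _

theorem le_nb {G : SimpleGraph V} {l : ℕ} {s : Finset V} {z : V} (h : KConn G l s)
    (hz : z ∈ s) : l ≤ (nb G s z).card := by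
  by_contra hcon
  push Not at hcon
  have h1 := h.2 (nb G s z) (Finset.filter_subset _ _) hcon
  have h2 : z ∈ s \ nb G s z := by
    rw [Finset.mem_sdiff, nb, Finset.mem_filter]
    exact ⟨hz, fun hh => G.loopless.irrefl _ hh.2⟩
  have h3 : 1 < (s \ nb G s z).card := by
    rw [Finset.card_sdiff_of_subset (nb_sub G s z)]
    have := h.1
    omega
  obtain ⟨b, hb, hbz⟩ := Finset.exists_mem_ne h3 z
  obtain ⟨c, hc, hzc⟩ := exists_adj h1 h2 hb hbz.symm
  rw [Finset.mem_sdiff, nb, Finset.mem_filter] at hc
  exact hc.2 ⟨hc.1, hzc⟩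

/-- clique polynomial of `G[s]` -/
noncomputable def cp (G : SimpleGraph V) (s : Finset V) : ℝ[X] :=
  ∑ K ∈ s.powerset.filter (fun K : Finset V => G.IsClique (K : Set V)), X ^ K.card

theorem cp_clique {G : SimpleGraph V} {s : Finset V} (h : G.IsClique (s : Set V)) :
    cp G s = (1 + X) ^ s.card := by
  rw [cp, Finset.filter_true_of_mem]
  · have := Finset.sum_pow_mul_eq_add_pow (X : ℝ[X]) 1 s
    simp only [one_pow, mul_one] at this
    rw [this, add_comm]
  · intro K hK
    exact h.subset (Finset.coe_subset.mpr (Finset.mem_powerset.mp hK))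

theorem cp_erase {G : SimpleGraph V} {s : Finset V} {z : V} (hz : z ∈ s) (hsz : Simpl G s z) :
    cp G s = cp G (s.erase z) + X * (1 + X) ^ (nb G s z).card := by
  have h0 : G.IsClique ((nb G s z : Finset V) : Set V) := by
    intro a ha b hb hab
    have ha' := Finset.mem_filter.mp (Finset.mem_coe.mp ha)
    have hb' := Finset.mem_filter.mp (Finset.mem_coe.mp hb)
    exact hsz a ha'.1 b hb'.1 ha'.2 hb'.2 hab
  rw [← cp_clique h0, cp, ← Finset.sum_filter_add_sum_filter_not _ (fun K : Finset V => z ∉ K)]
  congr 1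
  · rw [cp]
    refine Finset.sum_congr ?_ fun _ _ => rfl
    ext K
    simp only [Finset.mem_filter, Finset.mem_powerset, Finset.subset_erase]
    tauto
  · rw [cp, Finset.mul_sum]
    refine Finset.sum_nbij' (fun K => K.erase z) (fun K => insert z K) ?_ ?_ ?_ ?_ ?_
    · intro K hK
      simp only [Finset.mem_filter, Finset.mem_powerset, not_not] at hK ⊢
      refine ⟨?_, hK.1.2.subset (Finset.coe_subset.mpr (Finset.erase_subset _ _))⟩
      intro a ha
      rw [Finset.mem_erase] at ha
      rw [nb, Finset.mem_filter]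
      exact ⟨hK.1.1 ha.2, hK.1.2 hK.2 ha.2 (Ne.symm ha.1)⟩
    · intro K hK
      simp only [Finset.mem_filter, Finset.mem_powerset, not_not] at hK ⊢
      refine ⟨⟨?_, ?_⟩, Finset.mem_insert_self _ _⟩
      · intro a ha
        rw [Finset.mem_insert] at ha
        rcases ha with rfl | ha
        · exact hz
        · exact (Finset.mem_filter.mp (hK.1 ha)).1
      · rw [Finset.coe_insert]
        refine SimpleGraph.IsClique.insert hK.2 ?_
        intro b hb _
        exact (Finset.mem_filter.mp (hK.1 hb)).2
    · intro K hK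
      simp only [Finset.mem_filter, Finset.mem_powerset, not_not] at hK
      exact Finset.insert_erase hK.2
    · intro K hK
      simp only [Finset.mem_filter, Finset.mem_powerset] at hK
      refine Finset.erase_insert ?_
      intro hh
      exact G.loopless.irrefl _ (Finset.mem_filter.mp (hK.1 hh)).2
    · intro K hK
      simp only [Finset.mem_filter, Finset.mem_powerset, not_not] at hK
      rw [Finset.card_erase_of_mem hK.2, ← pow_succ']
      congr 1
      have : 0 < K.card := Finset.card_pos.mpr ⟨z, hK.2⟩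
      omega

theorem cp_form {G : SimpleGraph V} (hG : IsChordal G) (l : ℕ) (hfree : G.CliqueFree (l + 3)) :
    ∀ (n : ℕ) (s : Finset V), s.card = n → KConn G l s →
      ∃ α β : ℕ, cp G s = (1 + X) ^ l * (1 + C ((α : ℝ) + β + 1) * X + C (β : ℝ) * X ^ 2) := by
  intro n
  induction n with
  | zero =>
    intro s hs h
    have := h.1
    omega
  | succ n ih =>
    intro s hs h
    rcases Nat.lt_or_ge s.card (l + 2) with hc | hc
    · -- base case: complete graph on l+1 vertices
      have hsl : s.card = l + 1 := by have := h.1; omega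
      have hcl : G.IsClique (s : Set V) := by
        intro a ha b hb hab
        by_contra hnadj
        have h1 := h.2 ((s.erase a).erase b) ((Finset.erase_subset _ _).trans (Finset.erase_subset _ _))
          (by
            rw [Finset.card_erase_of_mem (Finset.mem_erase.mpr ⟨hab.symm, hb⟩),
              Finset.card_erase_of_mem ha]
            have : 1 < s.card := Finset.one_lt_card.mpr ⟨a, ha, b, hb, hab⟩
            omega)
        have ha2 : a ∈ s \ (s.erase a).erase b := by
          simp only [Finset.mem_sdiff, Finset.mem_erase]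
          exact ⟨ha, by tauto⟩
        have hb2 : b ∈ s \ (s.erase a).erase b := by
          simp only [Finset.mem_sdiff, Finset.mem_erase]
          exact ⟨hb, by tauto⟩
        obtain ⟨c, hc', hac⟩ := exists_adj h1 ha2 hb2 hab
        simp only [Finset.mem_sdiff, Finset.mem_erase] at hc'
        have hca : c ≠ a := hac.ne'
        have hcb : c ≠ b := fun hh => hnadj (hh ▸ hac)
        exact hc'.2 ⟨hcb, hca, hc'.1⟩
      refine ⟨0, 0, ?_⟩
      rw [cp_clique hcl, hsl, pow_succ]
      simp
    · -- find a simplicial vertex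
      have hsimp : ∃ z ∈ s, Simpl G s z := by
        by_cases hcl : G.IsClique (s : Set V)
        · obtain ⟨z, hz⟩ : s.Nonempty := Finset.card_pos.mp (by omega)
          exact ⟨z, hz, fun a ha b hb _ _ hab => hcl ha hb hab⟩
        · rw [SimpleGraph.isClique_iff, Set.Pairwise] at hcl
          push Not at hcl
          obtain ⟨v, hv, w, hw, hvw, hnadj⟩ := hcl
          obtain ⟨z, hz, _, _, hz'⟩ := exists_simplicial hG s.card s le_rfl v hv w hw hvw.symm hnadj
          exact ⟨z, hz, hz'⟩
      obtain ⟨z, hz, hsz⟩ := hsimp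
      obtain ⟨α, β, hαβ⟩ := ih (s.erase z) (by rw [Finset.card_erase_of_mem hz, hs]; rfl)
        (h.erase hc hz hsz)
      have hlow := le_nb h hz
      have hup : (nb G s z).card ≤ l + 1 := by
        by_contra hcon
        push Not at hcon
        have hcl2 : G.IsClique ((insert z (nb G s z) : Finset V) : Set V) := by
          rw [Finset.coe_insert]
          refine SimpleGraph.IsClique.insert ?_ ?_
          · intro a ha b hb hab
            have ha' := Finset.mem_filter.mp (Finset.mem_coe.mp ha)
            have hb' := Finset.mem_filter.mp (Finset.mem_coe.mp hb)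
            exact hsz a ha'.1 b hb'.1 ha'.2 hb'.2 hab
          · intro b hb _
            exact (Finset.mem_filter.mp hb).2
        have hcard : l + 3 ≤ (insert z (nb G s z)).card := by
          rw [Finset.card_insert_of_notMem]
          · omega
          · intro hh
            exact G.loopless.irrefl _ (Finset.mem_filter.mp hh).2
        obtain ⟨t, ht, htc⟩ := Finset.exists_subset_card_eq hcard
        exact hfree t ⟨hcl2.subset (Finset.coe_subset.mpr ht), htc⟩
      rw [cp_erase hz hsz, hαβ]
      rcases Nat.eq_or_lt_of_le hlow with h1 | h1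
      · refine ⟨α + 1, β, ?_⟩
        rw [← h1]
        push_cast
        simp only [C_add, C_1]
        ring
      · have h2 : (nb G s z).card = l + 1 := by omega
        refine ⟨α, β + 1, ?_⟩
        rw [h2]
        push_cast
        simp only [C_add, C_1]
        ring

theorem quad_real (α β : ℕ) (z : ℂ) (h : 1 + ((α : ℂ) + β + 1) * z + (β : ℂ) * z ^ 2 = 0) :
    z.im = 0 := by
  have hre := congrArg Complex.re h
  have him := congrArg Complex.im h
  simp only [pow_two, Complex.add_re, Complex.add_im, Complex.mul_re, Complex.mul_im,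
    Complex.natCast_re, Complex.natCast_im, Complex.one_re, Complex.one_im, Complex.zero_re,
    Complex.zero_im] at hre him
  set a := z.re
  set b := z.im
  by_contra hb
  have hα : (0 : ℝ) ≤ α := Nat.cast_nonneg α
  have hβ : (0 : ℝ) ≤ β := Nat.cast_nonneg β
  have h1 : (α : ℝ) + β + 1 + 2 * β * a = 0 := by
    have : b * ((α : ℝ) + β + 1 + 2 * β * a) = 0 := by linarith
    exact (mul_eq_zero.mp this).resolve_left hb
  have h2 : (4 * β - ((α : ℝ) + β + 1) ^ 2) - (2 * β * b) ^ 2 = 0 := by
    have h3 : 2 * β * a = -((α : ℝ) + β + 1) := by linarith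
    have h4 : 4 * β * (1 + ((α : ℝ) + β + 1) * a + β * (a * a - b * b)) = 0 := by
      have : 1 + ((α : ℝ) + β + 1) * a + β * (a * a - b * b) = 0 := by linarith
      rw [this]; ring
    have h5 : 4 * β * (1 + ((α : ℝ) + β + 1) * a + β * (a * a - b * b)) =
        4 * β + 2 * ((α : ℝ) + β + 1) * (2 * β * a) + (2 * β * a) ^ 2 - (2 * β * b) ^ 2 := by ring
    rw [h5, h3] at h4
    linarith
  have h6 : (2 * (β : ℝ) * b) ^ 2 ≤ 0 := by nlinarith [sq_nonneg ((β : ℝ) - 1), mul_nonneg hα hβ]
  have h7 : 2 * (β : ℝ) * b = 0 := by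
    have := le_antisymm h6 (sq_nonneg _)
    exact pow_eq_zero_iff (two_ne_zero) |>.mp this
  have h8 : (β : ℝ) = 0 := by
    rcases mul_eq_zero.mp h7 with h | h
    · linarith
    · exact absurd h hb
  rw [h8] at h1
  linarith

end Q133.CliqueRoots
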