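import Mathlib

set_option autoImplicit false

open Polynomial

namespace Q133.ConnSet

/-- connected vertex sets -/
def IsConnSet {V : Type*} (G : SimpleGraph V) (S : Finset V) : Prop :=
  (G.induce (S : Set V)).Connected

/-- disjoint union of complete graphs of orders `s i` -/
def cliques {ι : Type*} (s : ι → ℕ) : SimpleGraph (Σ i : ι, Fin (s i)) where
  Adj x y := x ≠ y ∧ x.1 = y.1
  symm := ⟨fun _ _ h => ⟨h.1.symm, h.2.symm⟩⟩
  loopless := ⟨fun _ h => h.1 rfl⟩

theorem reach_fst {ι : Type*} (s : ι → ℕ) (S : Set (Σ i : ι, Fin (s i)))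
    {x y : S} (h : ((cliques s).induce S).Reachable x y) : x.1.1 = y.1.1 := by
  obtain ⟨w⟩ := h
  induction w with
  | nil => rfl
  | cons h _ ih => exact h.2.trans ih

theorem isConnSet_iff {ι : Type*} (s : ι → ℕ) (S : Finset (Σ i : ι, Fin (s i))) :
    IsConnSet (cliques s) S ↔ S.Nonempty ∧ ∀ x ∈ S, ∀ y ∈ S, x.1 = y.1 := by
  constructor
  · intro h
    refine ⟨?_, ?_⟩
    · obtain ⟨⟨x, hx⟩⟩ := h.nonempty
      exact ⟨x, hx⟩
    · intro x hx y hy
      exact reach_fst s _ (h.preconnected ⟨x, hx⟩ ⟨y, hy⟩)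
  · rintro ⟨⟨x0, hx0⟩, h⟩
    have : Nonempty ((S : Set (Σ i : ι, Fin (s i))) : Type _) := ⟨⟨x0, hx0⟩⟩
    refine SimpleGraph.Connected.mk ?_
    rintro ⟨x, hx⟩ ⟨y, hy⟩
    by_cases hxy : x = y
    · subst hxy; exact SimpleGraph.Reachable.refl _
    · exact SimpleGraph.Adj.reachable ⟨hxy, h x hx y hy⟩

open Classical in
theorem sum_connSets {ι : Type*} [Fintype ι] (s : ι → ℕ) :
    ∑ S ∈ (Finset.univ : Finset (Finset (Σ i : ι, Fin (s i)))).filter (IsConnSet (cliques s)),
      (X : ℝ[X]) ^ S.card = ∑ i : ι, ((1 + X) ^ (s i) - 1) := by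
  classical
  set F : ι → Finset (Σ i : ι, Fin (s i)) := fun i => Finset.univ.filter (fun x => x.1 = i) with hF
  have hFcard : ∀ i, (F i).card = s i := by
    intro i
    have : F i = (Finset.univ : Finset (Fin (s i))).map ⟨fun a => (⟨i, a⟩ : Σ i : ι, Fin (s i)),
        fun a b h => by simpa using h⟩ := by
      ext ⟨j, a⟩
      simp only [hF, Finset.mem_filter, Finset.mem_univ, true_and, Finset.mem_map]
      constructor
      · rintro rfl; exact ⟨a, rfl⟩
      · rintro ⟨b, hb⟩
        exact (congrArg Sigma.fst hb).symm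
    rw [this, Finset.card_map, Finset.card_univ, Fintype.card_fin]
  have hset : (Finset.univ : Finset (Finset (Σ i : ι, Fin (s i)))).filter (IsConnSet (cliques s)) =
      (Finset.univ : Finset ι).biUnion (fun i => (F i).powerset.erase ∅) := by
    ext S
    simp only [Finset.mem_filter, Finset.mem_univ, true_and, Finset.mem_biUnion,
      Finset.mem_erase, Finset.mem_powerset]
    rw [isConnSet_iff]
    constructor
    · rintro ⟨⟨x, hx⟩, h⟩
      refine ⟨x.1, Finset.nonempty_iff_ne_empty.mp ⟨x, hx⟩, ?_⟩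
      intro y hy
      simp only [hF, Finset.mem_filter, Finset.mem_univ, true_and]
      exact h y hy x hx
    · rintro ⟨i, hne, hsub⟩
      refine ⟨Finset.nonempty_iff_ne_empty.mpr hne, ?_⟩
      intro x hx y hy
      have h1 := hsub hx
      have h2 := hsub hy
      simp only [hF, Finset.mem_filter, Finset.mem_univ, true_and] at h1 h2
      rw [h1, h2]
  rw [hset, Finset.sum_biUnion]
  · refine Finset.sum_congr rfl fun i _ => ?_
    have h1 : ∑ S ∈ (F i).powerset, (X : ℝ[X]) ^ S.card = (1 + X) ^ (s i) := by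
      have := Finset.sum_pow_mul_eq_add_pow (X : ℝ[X]) 1 (F i)
      simp only [one_pow, mul_one] at this
      rw [this, hFcard, add_comm]
    have h2 := Finset.sum_erase_eq_sub (s := (F i).powerset) (f := fun S => (X : ℝ[X]) ^ S.card)
      (a := ∅) (Finset.empty_mem_powerset _)
    rw [h2, h1]
    simp
  · intro i _ j _ hij
    rw [Function.onFun, Finset.disjoint_left]
    intro S hS hS'
    simp only [Finset.mem_erase, Finset.mem_powerset] at hS hS'
    obtain ⟨x, hx⟩ := Finset.nonempty_iff_ne_empty.mpr hS.1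
    have h1 := hS.2 hx
    have h2 := hS'.2 hx
    simp only [hF, Finset.mem_filter, Finset.mem_univ, true_and] at h1 h2
    exact hij (h1.symm.trans h2)

theorem reach_fst' {ι : Type*} (s : ι → ℕ)
    {x y : Σ i : ι, Fin (s i)} (h : (cliques s).Reachable x y) : x.1 = y.1 := by
  obtain ⟨w⟩ := h
  induction w with
  | nil => rfl
  | cons h _ ih => exact h.2.trans ih

/-- multiplicities -/
def M (n k : ℕ) : ℕ := n.choose k * (n + 1) ^ (n - k)

theorem M_succ_le (n k : ℕ) : M n (k + 1) ≤ M n k := by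
  unfold M
  rcases Nat.lt_or_ge k n with h | h
  · have h1 : n - k = (n - (k + 1)) + 1 := by omega
    rw [h1, pow_succ]
    have h2 : n.choose (k + 1) ≤ n.choose k * (n + 1) := by
      have h3 : n.choose (k + 1) * (k + 1) = n.choose k * (n - k) := Nat.choose_succ_right_eq n k
      calc n.choose (k + 1) ≤ n.choose (k + 1) * (k + 1) := Nat.le_mul_of_pos_right _ (Nat.succ_pos k)
        _ = n.choose k * (n - k) := h3
        _ ≤ n.choose k * (n + 1) := Nat.mul_le_mul_left _ (by omega)
    calc n.choose (k + 1) * (n + 1) ^ (n - (k + 1)) ≤ (n.choose k * (n + 1)) * (n + 1) ^ (n - (k + 1)) :=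
          Nat.mul_le_mul_right _ h2
      _ = n.choose k * ((n + 1) ^ (n - (k + 1)) * (n + 1)) := by ring
  · rw [Nat.choose_eq_zero_of_lt (by omega : n < k + 1)]
    simp

theorem M_antitone (n : ℕ) : Antitone (M n) := antitone_nat_of_succ_le (M_succ_le n)

/-- component orders -/
def ord (n : ℕ) (i : Fin (M n 0)) : ℕ := ((Finset.range (n + 1)).filter (fun k => (i : ℕ) < M n k)).card

theorem filter_eq (n : ℕ) (i : Fin (M n 0)) :
    (Finset.range (n + 1)).filter (fun k => (i : ℕ) < M n k) = Finset.range (ord n i) := by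
  set T := (Finset.range (n + 1)).filter (fun k => (i : ℕ) < M n k) with hT
  have hlow : ∀ a ∈ T, ∀ b, b ≤ a → b ∈ T := by
    intro a ha b hb
    simp only [hT, Finset.mem_filter, Finset.mem_range] at ha ⊢
    exact ⟨by omega, lt_of_lt_of_le ha.2 (M_antitone n hb)⟩
  have hsub : T ⊆ Finset.range T.card := by
    intro a ha
    rw [Finset.mem_range]
    have h1 : Finset.range (a + 1) ⊆ T := by
      intro b hb
      rw [Finset.mem_range] at hb
      exact hlow a ha b (by omega)
    have := Finset.card_le_card h1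
    rw [Finset.card_range] at this
    omega
  exact Finset.eq_of_subset_of_card_le hsub (by rw [Finset.card_range]; exact le_of_eq rfl)

theorem poly_eq (n : ℕ) :
    ∑ i : Fin (M n 0), (((1 : ℝ[X]) + X) ^ (ord n i) - 1) = X * (X + C ((n : ℝ) + 2)) ^ n := by
  have h1 : ∀ i : Fin (M n 0), (((1 : ℝ[X]) + X) ^ (ord n i) - 1) =
      ∑ k ∈ Finset.range (n + 1), if (i : ℕ) < M n k then X * (1 + X) ^ k else 0 := by
    intro i
    rw [← Finset.sum_filter, filter_eq, ← Finset.mul_sum]
    have := mul_geom_sum ((1 : ℝ[X]) + X) (ord n i)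
    rw [← this]
    ring
  rw [Finset.sum_congr rfl (fun i _ => h1 i), Finset.sum_comm]
  have h2 : ∀ k ∈ Finset.range (n + 1), ∑ i : Fin (M n 0),
      (if (i : ℕ) < M n k then (X : ℝ[X]) * (1 + X) ^ k else 0) = (M n k : ℝ[X]) * (X * (1 + X) ^ k) := by
    intro k _
    rw [← Finset.sum_filter, Finset.sum_const, nsmul_eq_mul]
    congr 2
    rw [Fin.card_filter_val_lt]
    exact min_eq_right (M_antitone n (Nat.zero_le k))
  rw [Finset.sum_congr rfl h2]
  have h3 : (X + C ((n : ℝ) + 2) : ℝ[X]) ^ n = ∑ k ∈ Finset.range (n + 1), (M n k : ℝ[X]) * (1 + X) ^ k := by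
    have h4 : (X + C ((n : ℝ) + 2) : ℝ[X]) = (1 + X) + ((n : ℝ[X]) + 1) := by
      simp only [C_add, C_ofNat, map_natCast]
      ring
    rw [h4, add_pow]
    refine Finset.sum_congr rfl fun k _ => ?_
    unfold M
    push_cast
    ring
  rw [h3, Finset.mul_sum]
  refine Finset.sum_congr rfl fun k _ => ?_
  ring

theorem ord_pos (n : ℕ) (i : Fin (M n 0)) : 0 < ord n i := by
  unfold ord
  rw [Finset.card_pos]
  exact ⟨0, by simp [i.2]⟩

theorem not_connected (n : ℕ) (hn : 1 ≤ n) : ¬ (cliques (ord n)).Connected := by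
  intro h
  have h2 : 2 ≤ M n 0 := by
    unfold M
    rw [Nat.choose_zero_right, one_mul, Nat.sub_zero]
    calc 2 ≤ n + 1 := by omega
      _ = (n + 1) ^ 1 := (pow_one _).symm
      _ ≤ (n + 1) ^ n := Nat.pow_le_pow_right (by omega) hn
  have := reach_fst' _ (h.preconnected ⟨⟨0, by omega⟩, ⟨0, ord_pos n _⟩⟩ ⟨⟨1, by omega⟩, ⟨0, ord_pos n _⟩⟩)
  simp at this

end Q133.ConnSet
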