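import Mathlib

set_option autoImplicit false

open Finset Polynomial

namespace Q133.CyclePoly

/-- number of cycles of a permutation of `V`; fixed points count as cycles -/
def numCycles {V : Type*} [Fintype V] [DecidableEq V] (σ : Equiv.Perm V) : ℕ :=
  Multiset.card σ.cycleType + (Fintype.card V - σ.support.card)

/-- number of permutations of `V` with exactly `k` cycles such that `v` and `σ v` are adjacent
whenever `σ v ≠ v` -/
def bracket {V : Type*} [Fintype V] [DecidableEq V] (G : SimpleGraph V) [DecidableRel G.Adj]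
    (k : ℕ) : ℕ :=
  ((univ : Finset (Equiv.Perm V)).filter
    (fun σ => numCycles σ = k ∧ ∀ v, σ v ≠ v → G.Adj v (σ v))).card

/-- the graphical cycle polynomial `∑_{k=1}^{n} [G,k] x^k` -/
noncomputable def cyclePoly {V : Type*} [Fintype V] [DecidableEq V] (G : SimpleGraph V)
    [DecidableRel G.Adj] : ℤ[X] :=
  ∑ k ∈ Finset.Icc 1 (Fintype.card V), (bracket G k : ℤ[X]) * X ^ k

/-- `G` is chordal: every cycle `f 0, f 1, …, f (n-1)` of length `n ≥ 4` has a chord, i.e. an edge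
joining two non-consecutive vertices of the cycle -/
def IsChordal {V : Type*} (G : SimpleGraph V) : Prop :=
  ∀ n : ℕ, 4 ≤ n → ∀ f : ZMod n → V, Function.Injective f →
    (∀ i, G.Adj (f i) (f (i + 1))) →
    ∃ i j : ZMod n, i ≠ j ∧ j ≠ i + 1 ∧ i ≠ j + 1 ∧ G.Adj (f i) (f j)

/-- the fan: the path `0-1-2-3` and a vertex `4` joined to all of it -/
def fan : SimpleGraph (Fin 5) where
  Adj i j := (i ≠ 4 ∧ j ≠ 4 ∧ (i.val + 1 = j.val ∨ j.val + 1 = i.val)) ∨
    (i = 4 ∧ j ≠ 4) ∨ (i ≠ 4 ∧ j = 4)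
  symm := ⟨by decide⟩
  loopless := ⟨by decide⟩

instance : DecidableRel fan.Adj := fun i j =>
  inferInstanceAs (Decidable ((i ≠ 4 ∧ j ≠ 4 ∧ (i.val + 1 = j.val ∨ j.val + 1 = i.val)) ∨
    (i = 4 ∧ j ≠ 4) ∨ (i ≠ 4 ∧ j = 4)))

theorem chordal4 : ∀ f : ZMod 4 → Fin 5, Function.Injective f →
    (∀ i, fan.Adj (f i) (f (i + 1))) →
    ∃ i j : ZMod 4, i ≠ j ∧ j ≠ i + 1 ∧ i ≠ j + 1 ∧ fan.Adj (f i) (f j) := by decide +kernel

theorem chordal5 : ∀ f : ZMod 5 → Fin 5, Function.Injective f →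
    (∀ i, fan.Adj (f i) (f (i + 1))) →
    ∃ i j : ZMod 5, i ≠ j ∧ j ≠ i + 1 ∧ i ≠ j + 1 ∧ fan.Adj (f i) (f j) := by decide +kernel

theorem fan_chordal : IsChordal fan := by
  intro n hn f hf hadj
  have hcard : n ≤ 5 := by
    have hn0 : NeZero n := ⟨by omega⟩
    have := Fintype.card_le_of_injective f hf
    rwa [ZMod.card, Fintype.card_fin] at this
  have h45 : n = 4 ∨ n = 5 := by omega
  rcases h45 with rfl | rfl
  · exact chordal4 f hf hadj
  · exact chordal5 f hf hadj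

theorem b1 : bracket fan 1 = 2 := by decide +kernel
theorem b2 : bracket fan 2 = 8 := by decide +kernel
theorem b3 : bracket fan 3 = 13 := by decide +kernel
theorem b4 : bracket fan 4 = 7 := by decide +kernel
theorem b5 : bracket fan 5 = 1 := by decide +kernel

theorem cyclePoly_fan : cyclePoly fan = X * (X ^ 4 + 7 * X ^ 3 + 13 * X ^ 2 + 8 * X + 2) := by
  unfold cyclePoly
  have : Finset.Icc 1 (Fintype.card (Fin 5)) = {1, 2, 3, 4, 5} := by decide
  rw [this]
  simp [b1, b2, b3, b4, b5]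
  ring

theorem root_cubic (b c d : ℂ) : ∃ z : ℂ, z ^ 3 + b * z ^ 2 + c * z + d = 0 := by
  obtain ⟨z, hz⟩ := IsAlgClosed.exists_root (X ^ 3 + C b * X ^ 2 + C c * X + C d : ℂ[X]) (by
    have : (X ^ 3 + C b * X ^ 2 + C c * X + C d : ℂ[X]).degree = 3 := by compute_degree!
    rw [this]; norm_num)
  refine ⟨z, ?_⟩
  simpa using hz

theorem root_quad (b c : ℂ) : ∃ z : ℂ, z ^ 2 + b * z + c = 0 := by
  obtain ⟨z, hz⟩ := IsAlgClosed.exists_root (X ^ 2 + C b * X + C c : ℂ[X]) (by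
    have : (X ^ 2 + C b * X + C c : ℂ[X]).degree = 2 := by compute_degree!
    rw [this]; norm_num)
  refine ⟨z, ?_⟩
  simpa using hz

theorem root_quartic (a b c d : ℂ) : ∃ z : ℂ, z ^ 4 + a * z ^ 3 + b * z ^ 2 + c * z + d = 0 := by
  obtain ⟨z, hz⟩ := IsAlgClosed.exists_root (X ^ 4 + C a * X ^ 3 + C b * X ^ 2 + C c * X + C d : ℂ[X])
    (by
    have : (X ^ 4 + C a * X ^ 3 + C b * X ^ 2 + C c * X + C d : ℂ[X]).degree = 4 := by
      compute_degree!
    rw [this]; norm_num)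
  refine ⟨z, ?_⟩
  simpa using hz

theorem nonreal : ∃ z : ℂ, z ^ 4 + 7 * z ^ 3 + 13 * z ^ 2 + 8 * z + 2 = 0 ∧ z.im ≠ 0 := by
  by_contra hcon
  push Not at hcon
  obtain ⟨r, hr⟩ := root_quartic 7 13 8 2
  obtain ⟨s, hs⟩ := root_cubic (7 + r) (13 + r * (7 + r)) (8 + r * (13 + r * (7 + r)))
  obtain ⟨t, ht⟩ := root_quad (7 + r + s) (13 + r * (7 + r) + s * (7 + r + s))
  obtain ⟨u, hu⟩ : ∃ u : ℂ, u = -(7 + r + s + t) := ⟨_, rfl⟩
  -- the identity q(z) = (z-r)(z-s)(z-t)(z-u)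
  have e4 : r * s * t * u = 2 := by
    rw [hu]
    linear_combination (-1 : ℂ) * hr + r * hs - r * s * ht
  have e3 : r * s * t + r * s * u + r * t * u + s * t * u = -8 := by
    rw [hu]
    linear_combination hs - (r + s) * ht
  have e2 : r * s + r * t + r * u + s * t + s * u + t * u = 13 := by
    rw [hu]
    linear_combination (-1 : ℂ) * ht
  have hs' : s ^ 4 + 7 * s ^ 3 + 13 * s ^ 2 + 8 * s + 2 = 0 := by
    linear_combination (s - r) * hs + hr
  have ht' : t ^ 4 + 7 * t ^ 3 + 13 * t ^ 2 + 8 * t + 2 = 0 := by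
    linear_combination (t - r) * (t - s) * ht + (t - r) * hs + hr
  have hu' : u ^ 4 + 7 * u ^ 3 + 13 * u ^ 2 + 8 * u + 2 = 0 := by
    have : u + 7 + r + s + t = 0 := by rw [hu]; ring
    linear_combination (u - r) * (u - s) * (u - t) * this + (u - r) * (u - s) * ht +
      (u - r) * hs + hr
  have ir := hcon r hr
  have is := hcon s hs'
  have it := hcon t ht'
  have iu := hcon u hu'
  obtain ⟨a, rfl⟩ : ∃ a : ℝ, r = a := ⟨r.re, Complex.ext rfl (by simpa using ir)⟩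
  obtain ⟨b, rfl⟩ : ∃ a : ℝ, s = a := ⟨s.re, Complex.ext rfl (by simpa using is)⟩
  obtain ⟨c, rfl⟩ : ∃ a : ℝ, t = a := ⟨t.re, Complex.ext rfl (by simpa using it)⟩
  obtain ⟨d, rfl⟩ : ∃ a : ℝ, u = a := ⟨u.re, Complex.ext rfl (by simpa using iu)⟩
  have f4 : a * b * c * d = 2 := by exact_mod_cast e4
  have f3 : a * b * c + a * b * d + a * c * d + b * c * d = -8 := by exact_mod_cast e3
  have f2 : a * b + a * c + a * d + b * c + b * d + c * d = 13 := by exact_mod_cast e2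
  have key : (a * b * c) ^ 2 + (a * b * d) ^ 2 + (a * c * d) ^ 2 + (b * c * d) ^ 2 = 12 := by
    have : (a * b * c) ^ 2 + (a * b * d) ^ 2 + (a * c * d) ^ 2 + (b * c * d) ^ 2 =
      (a * b * c + a * b * d + a * c * d + b * c * d) ^ 2 -
        2 * (a * b * c * d) * (a * b + a * c + a * d + b * c + b * d + c * d) := by ring
    rw [this, f4, f3, f2]; norm_num
  nlinarith [sq_nonneg (a * b * c - a * b * d), sq_nonneg (a * b * c - a * c * d),
    sq_nonneg (a * b * c - b * c * d), sq_nonneg (a * b * d - a * c * d),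
    sq_nonneg (a * b * d - b * c * d), sq_nonneg (a * c * d - b * c * d)]

end Q133.CyclePoly
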