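import Mathlib

/-!
# Products of consecutive signs: elementary inequalities
-/

namespace Pool.Agent.Q133.EL

open Finset

/-- shifting the summation by one changes the sum by at most `2` -/
lemma sum_shift {y : ℕ → ℝ} (hy : ∀ n, |y n| ≤ 1) (N : ℕ) :
    |∑ n ∈ range N, y (n + 1) - ∑ n ∈ range N, y n| ≤ 2 := by
  have h1 : ∑ n ∈ range N, y (n + 1) - ∑ n ∈ range N, y n = y N - y 0 := by
    rw [← sum_sub_distrib]
    exact sum_range_sub y N
  rw [h1]
  have h2 := abs_le.1 (hy N)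
  have h3 := abs_le.1 (hy 0)
  rw [abs_le]
  constructor <;> linarith

/-- if neighbouring terms are uncorrelated then the mean is at most one half -/
lemma half {y : ℕ → ℝ} (hy : ∀ n, |y n| ≤ 1) (N : ℕ) (δ : ℝ)
    (h : |∑ n ∈ range N, y n * y (n + 1)| ≤ δ) :
    |∑ n ∈ range N, y n| ≤ N / 2 + (δ / 2 + 1) := by
  have key : ∀ σ : ℝ, (σ = 1 ∨ σ = -1) → 2 * (σ * ∑ n ∈ range N, y n) ≤ N + δ + 2 := by
    intro σ hσ
    have hσ2 : σ * σ = 1 := by rcases hσ with rfl | rfl <;> norm_num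
    have hσa : |σ| = 1 := by rcases hσ with rfl | rfl <;> norm_num
    have h0 : 0 ≤ ∑ n ∈ range N, (1 - σ * y n) * (1 - σ * y (n + 1)) := by
      apply sum_nonneg
      intro n _
      have e : ∀ m, 0 ≤ 1 - σ * y m := by
        intro m
        have h1 : |σ * y m| ≤ 1 := by rw [abs_mul, hσa, one_mul]; exact hy m
        linarith [(abs_le.1 h1).2]
      exact mul_nonneg (e n) (e (n + 1))
    have h1 : ∑ n ∈ range N, (1 - σ * y n) * (1 - σ * y (n + 1)) =
        N - σ * ∑ n ∈ range N, y n - σ * ∑ n ∈ range N, y (n + 1) +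
          ∑ n ∈ range N, y n * y (n + 1) := by
      have : ∀ n ∈ range N, (1 - σ * y n) * (1 - σ * y (n + 1)) =
          1 - σ * y n - σ * y (n + 1) + y n * y (n + 1) := by
        intro n _
        have : (1 - σ * y n) * (1 - σ * y (n + 1)) =
          1 - σ * y n - σ * y (n + 1) + (σ * σ) * (y n * y (n + 1)) := by ring
        rw [this, hσ2, one_mul]
      rw [sum_congr rfl this, sum_add_distrib, sum_sub_distrib, sum_sub_distrib, ← mul_sum,
        ← mul_sum]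
      simp
    have h2 := sum_shift hy N
    have h3 : |σ * (∑ n ∈ range N, y (n + 1) - ∑ n ∈ range N, y n)| ≤ 2 := by
      rw [abs_mul, hσa, one_mul]; exact h2
    have h4 := abs_le.1 h3
    have h5 := abs_le.1 h
    rw [h1] at h0
    nlinarith [h4.1, h4.2, h5.1, h5.2]
  have h1 := key 1 (Or.inl rfl)
  have h2 := key (-1) (Or.inr rfl)
  rw [abs_le]
  constructor <;> linarith

/-- the basic inequality for the products of `k - 1`, `k` and `k + 1` consecutive signs -/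
lemma four {s a b : ℕ → ℝ} (hs : ∀ n, |s n| ≤ 1) (ha : ∀ n, |a n| ≤ 1) (hb : ∀ n, |b n| ≤ 1)
    (N : ℕ) (δ : ℝ) (h1 : |∑ n ∈ range N, a n| ≤ δ) (h2 : |∑ n ∈ range N, b n| ≤ δ)
    (h3 : |∑ n ∈ range N, a n * b n| ≤ δ) (α β : ℝ) (hα : α = 1 ∨ α = -1) (hβ : β = 1 ∨ β = -1) :
    |∑ n ∈ range N, s n + α * ∑ n ∈ range N, s n * a n + β * ∑ n ∈ range N, s n * b n +
      α * β * ∑ n ∈ range N, s n * (a n * b n)| ≤ N + 3 * δ := by
  have hαa : |α| = 1 := by rcases hα with rfl | rfl <;> norm_num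
  have hβa : |β| = 1 := by rcases hβ with rfl | rfl <;> norm_num
  have e1 : ∑ n ∈ range N, s n + α * ∑ n ∈ range N, s n * a n + β * ∑ n ∈ range N, s n * b n +
      α * β * ∑ n ∈ range N, s n * (a n * b n) =
      ∑ n ∈ range N, s n * ((1 + α * a n) * (1 + β * b n)) := by
    simp only [mul_sum, ← sum_add_distrib]
    refine sum_congr rfl fun n _ => ?_
    ring
  rw [e1]
  refine (abs_sum_le_sum_abs _ _).trans ?_
  have e2 : ∀ n ∈ range N, |s n * ((1 + α * a n) * (1 + β * b n))| ≤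
      1 + α * a n + β * b n + α * β * (a n * b n) := by
    intro n _
    have h4 : 0 ≤ 1 + α * a n := by
      have h1 : |α * a n| ≤ 1 := by rw [abs_mul, hαa, one_mul]; exact ha n
      linarith [(abs_le.1 h1).1]
    have h5 : 0 ≤ 1 + β * b n := by
      have h1 : |β * b n| ≤ 1 := by rw [abs_mul, hβa, one_mul]; exact hb n
      linarith [(abs_le.1 h1).1]
    have h6 := mul_nonneg h4 h5
    rw [abs_mul, abs_of_nonneg h6]
    calc |s n| * ((1 + α * a n) * (1 + β * b n)) ≤ 1 * ((1 + α * a n) * (1 + β * b n)) :=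
          mul_le_mul_of_nonneg_right (hs n) h6
      _ = _ := by ring
  refine (sum_le_sum e2).trans ?_
  have e3 : ∑ n ∈ range N, (1 + α * a n + β * b n + α * β * (a n * b n)) =
      N + α * ∑ n ∈ range N, a n + β * ∑ n ∈ range N, b n +
        α * β * ∑ n ∈ range N, a n * b n := by
    simp only [mul_sum, sum_add_distrib]
    simp
  rw [e3]
  have f1 : |α * ∑ n ∈ range N, a n| ≤ δ := by rw [abs_mul, hαa, one_mul]; exact h1
  have f2 : |β * ∑ n ∈ range N, b n| ≤ δ := by rw [abs_mul, hβa, one_mul]; exact h2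
  have f3 : |α * β * ∑ n ∈ range N, a n * b n| ≤ δ := by
    rw [abs_mul, abs_mul, hαa, hβa, one_mul, one_mul]; exact h3
  have := (abs_le.1 f1).2
  have := (abs_le.1 f2).2
  have := (abs_le.1 f3).2
  linarith

/-- `2 |x| + |y + z| ≤ T` from the four inequalities -/
lemma two_abs {x y z T : ℝ}
    (h : ∀ α β : ℝ, (α = 1 ∨ α = -1) → (β = 1 ∨ β = -1) → |x + α * y + β * z + α * β * x| ≤ T) :
    2 * |x| + |y + z| ≤ T := by
  have h1 := abs_le.1 (h 1 1 (Or.inl rfl) (Or.inl rfl))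
  have h2 := abs_le.1 (h (-1) (-1) (Or.inr rfl) (Or.inr rfl))
  rcases abs_cases x with ⟨hx, _⟩ | ⟨hx, _⟩ <;> rcases abs_cases (y + z) with ⟨hy, _⟩ | ⟨hy, _⟩ <;>
    rw [hx, hy] <;> linarith [h1.1, h1.2, h2.1, h2.2]

/-- the product of `k` consecutive terms -/
def pr (x : ℕ → ℝ) (k n : ℕ) : ℝ := ∏ j ∈ range k, x (n + j)

lemma pr_abs {x : ℕ → ℝ} (hx : ∀ n, x n = 1 ∨ x n = -1) (k n : ℕ) : |pr x k n| ≤ 1 := by
  unfold pr
  rw [abs_prod]
  apply le_of_eq
  apply prod_eq_one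
  intro j _
  rcases hx (n + j) with h | h <;> rw [h] <;> norm_num

lemma pr_pm {x : ℕ → ℝ} (hx : ∀ n, x n = 1 ∨ x n = -1) (k n : ℕ) :
    pr x k n = 1 ∨ pr x k n = -1 := by
  unfold pr
  induction k with
  | zero => simp
  | succ k ih =>
    rw [prod_range_succ]
    rcases ih with h | h <;> rcases hx (n + k) with h' | h' <;> rw [h, h'] <;> norm_num

lemma pr_succ (x : ℕ → ℝ) (k n : ℕ) : pr x (k + 1) n = pr x k n * x (n + k) := by
  unfold pr
  rw [prod_range_succ]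

lemma pr_succ' (x : ℕ → ℝ) (k n : ℕ) : pr x (k + 1) n = x n * pr x k (n + 1) := by
  unfold pr
  rw [prod_range_succ', mul_comm]
  congr 1
  refine prod_congr rfl fun j _ => ?_
  congr 1
  ring

lemma sq_one {x : ℕ → ℝ} (hx : ∀ n, x n = 1 ∨ x n = -1) (n : ℕ) : x n * x n = 1 := by
  rcases hx n with h | h <;> rw [h] <;> norm_num

lemma pr_mul_next {x : ℕ → ℝ} (hx : ∀ n, x n = 1 ∨ x n = -1) (k n : ℕ) :
    pr x k n * pr x k (n + 1) = x n * x (n + k) := by
  have h1 := pr_succ x k n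
  have h2 := pr_succ' x k n
  have h3 : pr x k n * pr x k n = 1 := by
    rcases pr_pm hx k n with h | h <;> rw [h] <;> norm_num
  have h4 : x n * pr x k (n + 1) = pr x k n * x (n + k) := by rw [← h2, h1]
  have h5 := sq_one hx n
  calc pr x k n * pr x k (n + 1) = pr x k n * ((x n * x n) * pr x k (n + 1)) := by
        rw [h5, one_mul]
    _ = x n * (pr x k n * (x n * pr x k (n + 1))) := by ring
    _ = x n * (pr x k n * (pr x k n * x (n + k))) := by rw [h4]
    _ = x n * ((pr x k n * pr x k n) * x (n + k)) := by ring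
    _ = _ := by rw [h3, one_mul]

/-- the half bound for weighted products of consecutive signs -/
lemma half_pr {x : ℕ → ℝ} (hx : ∀ n, x n = 1 ∨ x n = -1) (k : ℕ) {b : ℕ → ℝ}
    (hb : ∀ n, |b n| ≤ 1) (N : ℕ) (δ : ℝ)
    (h : |∑ n ∈ range N, (b n * b (n + 1)) * (x n * x (n + k))| ≤ δ) :
    |∑ n ∈ range N, b n * pr x k n| ≤ N / 2 + (δ / 2 + 1) := by
  apply half (y := fun n => b n * pr x k n)
  · intro n
    rw [abs_mul]
    exact mul_le_one₀ (hb n) (abs_nonneg _) (pr_abs hx k n)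
  · have : ∀ n, (fun n => b n * pr x k n) n * (fun n => b n * pr x k n) (n + 1) =
        (b n * b (n + 1)) * (x n * x (n + k)) := by
      intro n
      rw [← pr_mul_next hx k n]
      ring
    rw [sum_congr rfl fun n _ => this n]
    exact h

/-- the inequality for the neighbouring lengths -/
lemma three_pr {x : ℕ → ℝ} (hx : ∀ n, x n = 1 ∨ x n = -1) (k N : ℕ) (δ : ℝ)
    (h1 : |∑ n ∈ range N, x n| ≤ δ) (h3 : |∑ n ∈ range N, x n * x (n + (k + 1))| ≤ δ)
    (h2 : |∑ n ∈ range N, x (n + (k + 1))| ≤ δ) :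
    2 * |∑ n ∈ range N, pr x (k + 1) n| +
      |∑ n ∈ range N, pr x k n + ∑ n ∈ range N, pr x (k + 2) n| ≤ N + 3 * δ + 4 := by
  have hxa : ∀ n, |x n| ≤ 1 := by
    intro n
    rcases hx n with h | h <;> rw [h] <;> norm_num
  have key : ∀ α β : ℝ, (α = 1 ∨ α = -1) → (β = 1 ∨ β = -1) →
      |∑ n ∈ range N, pr x (k + 1) n + α * ∑ n ∈ range N, pr x k n +
        β * ∑ n ∈ range N, pr x (k + 2) n + α * β * ∑ n ∈ range N, pr x (k + 1) n| ≤
        N + 3 * δ + 4 := by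
    intro α β hα hβ
    have hαa : |α| = 1 := by rcases hα with rfl | rfl <;> norm_num
    have hβa : |β| = 1 := by rcases hβ with rfl | rfl <;> norm_num
    have h4 := four (s := pr x (k + 1)) (a := x) (b := fun n => x (n + (k + 1)))
      (pr_abs hx (k + 1)) hxa (fun n => hxa _) N δ h1 h2 h3 α β hα hβ
    have e1 : ∀ n, pr x (k + 1) n * x n = pr x k (n + 1) := by
      intro n
      rw [pr_succ']
      have := sq_one hx n
      calc x n * pr x k (n + 1) * x n = (x n * x n) * pr x k (n + 1) := by ring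
        _ = _ := by rw [this, one_mul]
    have e2 : ∀ n, pr x (k + 1) n * x (n + (k + 1)) = pr x (k + 2) n := by
      intro n
      rw [pr_succ x (k + 1) n]
    have e3 : ∀ n, pr x (k + 1) n * (x n * x (n + (k + 1))) = pr x (k + 1) (n + 1) := by
      intro n
      rw [← mul_assoc, e1, pr_succ]
      congr 2
      ring
    simp only [e1, e2, e3] at h4
    have g1 := sum_shift (y := pr x k) (pr_abs hx k) N
    have g2 := sum_shift (y := pr x (k + 1)) (pr_abs hx (k + 1)) N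
    have g3 : |α * (∑ n ∈ range N, pr x k (n + 1) - ∑ n ∈ range N, pr x k n)| ≤ 2 := by
      rw [abs_mul, hαa, one_mul]; exact g1
    have g4 : |α * β * (∑ n ∈ range N, pr x (k + 1) (n + 1) - ∑ n ∈ range N, pr x (k + 1) n)| ≤ 2 := by
      rw [abs_mul, abs_mul, hαa, hβa, one_mul, one_mul]; exact g2
    have g5 := abs_le.1 h4
    have g6 := abs_le.1 g3
    have g7 := abs_le.1 g4
    rw [abs_le]
    constructor <;> nlinarith [g5.1, g5.2, g6.1, g6.2, g7.1, g7.2]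
  exact two_abs key

/-- Bessel's inequality for almost orthogonal sign sequences -/
lemma bessel {ι : Type*} (I : Finset ι) (v : ι → ℕ → ℝ) (hv : ∀ i ∈ I, ∀ n, v i n = 1 ∨ v i n = -1)
    (N : ℕ) (δ : ℝ) (hδ : 0 ≤ δ) (h : ∀ i ∈ I, ∀ j ∈ I, i ≠ j → |∑ n ∈ range N, v i n * v j n| ≤ δ * N)
    (g : ℕ → ℂ) (hg : ∀ n, ‖g n‖ ≤ 1) :
    ∑ i ∈ I, ‖∑ n ∈ range N, g n * (v i n : ℂ)‖ ^ 2 ≤ (1 + δ * (I.card : ℝ) ^ 2) * (N : ℝ) ^ 2 := by
  classical
  rcases Nat.eq_zero_or_pos N with hN | hN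
  · subst hN; simp
  have hN0 : (0 : ℝ) < N := by exact_mod_cast hN
  set c : ι → ℂ := fun i => ∑ n ∈ range N, g n * (v i n : ℂ) with hc
  have hcn : ∀ i ∈ I, ‖c i‖ ≤ N := by
    intro i hi
    rw [hc]
    refine (norm_sum_le _ _).trans ?_
    have : ∀ n ∈ range N, ‖g n * (v i n : ℂ)‖ ≤ 1 := by
      intro n _
      rw [norm_mul]
      have h1 : ‖((v i n : ℝ) : ℂ)‖ = 1 := by
        rcases hv i hi n with h | h <;> rw [h] <;> simp
      rw [h1, mul_one]
      exact hg n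
    refine (sum_le_sum this).trans ?_
    simp
  -- 0 ≤ ∑ ‖N g n - ∑ c_i v_i n‖²
  have h0 : 0 ≤ ∑ n ∈ range N, ‖(N : ℂ) * g n - ∑ i ∈ I, c i * (v i n : ℂ)‖ ^ 2 :=
    sum_nonneg fun n _ => by positivity
  have h1 : ((∑ n ∈ range N, ‖(N : ℂ) * g n - ∑ i ∈ I, c i * (v i n : ℂ)‖ ^ 2 : ℝ) : ℂ) =
      (N : ℂ) ^ 2 * ∑ n ∈ range N, g n * (starRingEnd ℂ) (g n) -
        (N : ℂ) * ∑ i ∈ I, c i * (starRingEnd ℂ) (c i) -
        (N : ℂ) * ∑ i ∈ I, c i * (starRingEnd ℂ) (c i) +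
        ∑ i ∈ I, ∑ j ∈ I, c i * (starRingEnd ℂ) (c j) *
          ((∑ n ∈ range N, v i n * v j n : ℝ) : ℂ) := by
    have e1 : ∀ z : ℂ, ((‖z‖ ^ 2 : ℝ) : ℂ) = z * (starRingEnd ℂ) z := by
      intro z
      rw [Complex.mul_conj, Complex.normSq_eq_norm_sq]
    push_cast
    have e2 : ∀ n ∈ range N, ((‖(N : ℂ) * g n - ∑ i ∈ I, c i * (v i n : ℂ)‖ : ℝ) : ℂ) ^ 2 =
        (N : ℂ) ^ 2 * (g n * (starRingEnd ℂ) (g n)) -
        (N : ℂ) * ∑ i ∈ I, (starRingEnd ℂ) (c i) * (g n * (v i n : ℂ)) -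
        (N : ℂ) * ∑ i ∈ I, c i * ((starRingEnd ℂ) (g n) * (v i n : ℂ)) +
        ∑ i ∈ I, ∑ j ∈ I, c i * (starRingEnd ℂ) (c j) * ((v i n : ℂ) * (v j n : ℂ)) := by
      intro n _
      have e3 := e1 ((N : ℂ) * g n - ∑ i ∈ I, c i * (v i n : ℂ))
      push_cast at e3
      rw [e3, map_sub, map_mul, map_sum, Complex.conj_natCast]
      simp only [map_mul, Complex.conj_ofReal]
      have e4 : (∑ i ∈ I, c i * (v i n : ℂ)) * (∑ i ∈ I, (starRingEnd ℂ) (c i) * (v i n : ℂ)) =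
          ∑ i ∈ I, ∑ j ∈ I, c i * (starRingEnd ℂ) (c j) * ((v i n : ℂ) * (v j n : ℂ)) := by
        rw [sum_mul_sum]
        refine sum_congr rfl fun i _ => sum_congr rfl fun j _ => ?_
        ring
      rw [← e4]
      have e5 : ∑ i ∈ I, (starRingEnd ℂ) (c i) * (g n * (v i n : ℂ)) =
          g n * ∑ i ∈ I, (starRingEnd ℂ) (c i) * (v i n : ℂ) := by
        rw [mul_sum]
        refine sum_congr rfl fun i _ => ?_
        ring
      have e6 : ∑ i ∈ I, c i * ((starRingEnd ℂ) (g n) * (v i n : ℂ)) =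
          (starRingEnd ℂ) (g n) * ∑ i ∈ I, c i * (v i n : ℂ) := by
        rw [mul_sum]
        refine sum_congr rfl fun i _ => ?_
        ring
      rw [e5, e6]
      ring
    rw [sum_congr rfl e2, sum_add_distrib, sum_sub_distrib, sum_sub_distrib, ← mul_sum, ← mul_sum,
      ← mul_sum]
    have e7 : ∑ n ∈ range N, ∑ i ∈ I, (starRingEnd ℂ) (c i) * (g n * (v i n : ℂ)) =
        ∑ i ∈ I, c i * (starRingEnd ℂ) (c i) := by
      rw [sum_comm]
      refine sum_congr rfl fun i _ => ?_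
      rw [← mul_sum, mul_comm]
    have e8 : ∑ n ∈ range N, ∑ i ∈ I, c i * ((starRingEnd ℂ) (g n) * (v i n : ℂ)) =
        ∑ i ∈ I, c i * (starRingEnd ℂ) (c i) := by
      rw [sum_comm]
      refine sum_congr rfl fun i _ => ?_
      rw [← mul_sum]
      congr 1
      rw [hc]
      simp only [map_sum, map_mul, Complex.conj_ofReal]
    have e9 : ∑ n ∈ range N, ∑ i ∈ I, ∑ j ∈ I, c i * (starRingEnd ℂ) (c j) *
        ((v i n : ℂ) * (v j n : ℂ)) = ∑ i ∈ I, ∑ j ∈ I, c i * (starRingEnd ℂ) (c j) *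
          ∑ n ∈ range N, (v i n : ℂ) * (v j n : ℂ) := by
      rw [sum_comm]
      refine sum_congr rfl fun i _ => ?_
      rw [sum_comm]
      refine sum_congr rfl fun j _ => ?_
      rw [mul_sum]
    rw [e7, e8, e9]
  have hconj : ∀ z : ℂ, z * (starRingEnd ℂ) z = ((‖z‖ ^ 2 : ℝ) : ℂ) := by
    intro z
    rw [Complex.mul_conj, Complex.normSq_eq_norm_sq]
  set G : ι → ι → ℝ := fun i j => ∑ n ∈ range N, v i n * v j n with hG
  set T : ℝ := ∑ i ∈ I, ‖c i‖ ^ 2 with hT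
  have h2 : (∑ n ∈ range N, ‖(N : ℂ) * g n - ∑ i ∈ I, c i * (v i n : ℂ)‖ ^ 2 : ℝ) =
      (N : ℝ) ^ 2 * ∑ n ∈ range N, ‖g n‖ ^ 2 - N * T - N * T +
        (∑ i ∈ I, ∑ j ∈ I, c i * (starRingEnd ℂ) (c j) * ((G i j : ℝ) : ℂ)).re := by
    have := congrArg Complex.re h1
    rw [Complex.ofReal_re] at this
    rw [this]
    simp only [hconj]
    have e1 : ∀ s : Finset ℕ, ∀ w : ℕ → ℝ, ∑ n ∈ s, ((w n : ℝ) : ℂ) = ((∑ n ∈ s, w n : ℝ) : ℂ) := by
      intro s w; push_cast; rfl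
    have e2 : ∀ s : Finset ι, ∀ w : ι → ℝ, ∑ n ∈ s, ((w n : ℝ) : ℂ) = ((∑ n ∈ s, w n : ℝ) : ℂ) := by
      intro s w; push_cast; rfl
    rw [e1, e2]
    rw [Complex.add_re, Complex.sub_re, Complex.sub_re]
    have e3 : (((N : ℂ) ^ 2 * ((∑ n ∈ range N, ‖g n‖ ^ 2 : ℝ) : ℂ))).re =
        (N : ℝ) ^ 2 * ∑ n ∈ range N, ‖g n‖ ^ 2 := by
      rw [← Complex.ofReal_natCast, ← Complex.ofReal_pow, ← Complex.ofReal_mul, Complex.ofReal_re]
    have e4 : ((N : ℂ) * ((∑ i ∈ I, ‖c i‖ ^ 2 : ℝ) : ℂ)).re = N * T := by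
      rw [← Complex.ofReal_natCast, ← Complex.ofReal_mul, Complex.ofReal_re]
    rw [e3, e4]
  have h3 : (∑ i ∈ I, ∑ j ∈ I, c i * (starRingEnd ℂ) (c j) * ((G i j : ℝ) : ℂ)).re ≤
      N * T + δ * N * ((I.card : ℝ) ^ 2 * (N : ℝ) ^ 2) := by
    have e1 : ∀ i ∈ I, ∀ j ∈ I, (c i * (starRingEnd ℂ) (c j) * ((G i j : ℝ) : ℂ)).re ≤
        (if i = j then N * ‖c i‖ ^ 2 else 0) + δ * N * ((N : ℝ) ^ 2) := by
      intro i hi j hj
      by_cases hij : i = j
      · subst hij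
        rw [if_pos rfl]
        have e2 : G i i = N := by
          rw [hG]
          show ∑ n ∈ range N, v i n * v i n = N
          have : ∀ n ∈ range N, v i n * v i n = 1 := by
            intro n _
            rcases hv i hi n with h | h <;> rw [h] <;> norm_num
          rw [sum_congr rfl this]
          simp
        rw [e2, hconj, ← Complex.ofReal_mul, Complex.ofReal_re]
        have : 0 ≤ δ * N * (N : ℝ) ^ 2 := by positivity
        linarith
      · rw [if_neg hij, zero_add]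
        refine (Complex.re_le_norm _).trans ?_
        rw [norm_mul, norm_mul, RCLike.norm_conj, Complex.norm_real, Real.norm_eq_abs]
        have g1 := h i hi j hj hij
        have g2 := hcn i hi
        have g3 := hcn j hj
        calc ‖c i‖ * ‖c j‖ * |G i j| ≤ N * N * (δ * N) := by
              apply mul_le_mul _ g1 (abs_nonneg _) (by positivity)
              exact mul_le_mul g2 g3 (norm_nonneg _) hN0.le
          _ = _ := by ring
    rw [Complex.re_sum]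
    have e2 : ∀ i ∈ I, (∑ j ∈ I, c i * (starRingEnd ℂ) (c j) * ((G i j : ℝ) : ℂ)).re ≤
        N * ‖c i‖ ^ 2 + I.card * (δ * N * ((N : ℝ) ^ 2)) := by
      intro i hi
      rw [Complex.re_sum]
      refine (sum_le_sum (e1 i hi)).trans ?_
      rw [sum_add_distrib, Finset.sum_ite_eq, if_pos hi, sum_const, nsmul_eq_mul]
    refine (sum_le_sum e2).trans ?_
    rw [sum_add_distrib, ← mul_sum, sum_const, nsmul_eq_mul]
    apply le_of_eq
    ring
  have h4 : ∑ n ∈ range N, ‖g n‖ ^ 2 ≤ N := by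
    have : ∀ n ∈ range N, ‖g n‖ ^ 2 ≤ 1 := fun n _ => pow_le_one₀ (norm_nonneg _) (hg n)
    refine (sum_le_sum this).trans ?_
    simp
  rw [h2] at h0
  have h5 : (N : ℝ) ^ 2 * ∑ n ∈ range N, ‖g n‖ ^ 2 ≤ (N : ℝ) ^ 2 * N :=
    mul_le_mul_of_nonneg_left h4 (by positivity)
  have h6 : N * T ≤ N * ((1 + δ * (I.card : ℝ) ^ 2) * (N : ℝ) ^ 2) := by nlinarith
  exact le_of_mul_le_mul_left h6 hN0

end Pool.Agent.Q133.EL
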