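import Pool.Agent.Q133.ELMain

/-!
# Products of `k` consecutive Liouville values: logarithmic averages, and all scales
-/

set_option autoImplicit false

namespace Pool.Agent.Q133.EL

open Finset Filter
open Pool.Agent.Y958.U (LZ)

lemma abel (p : ℕ → ℝ) (X : ℕ) (hX : 1 ≤ X) :
    ∑ n ∈ Icc 1 X, p n / n = (∑ n ∈ Icc 1 X, p n) / X +
      ∑ N ∈ Ico 1 X, (∑ n ∈ Icc 1 N, p n) / ((N : ℝ) * (N + 1)) := by
  induction X, hX using Nat.le_induction with
  | base => simp
  | succ X hX ih =>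
    rw [sum_Icc_succ_top (by omega), ih, sum_Ico_succ_top hX, sum_Icc_succ_top (by omega)]
    have h1 : (X : ℝ) ≠ 0 := by exact_mod_cast (by omega : X ≠ 0)
    have h2 : (X : ℝ) + 1 ≠ 0 := by positivity
    push_cast
    field_simp
    ring

open Classical in
/-- from almost all scales to logarithmic averages -/
theorem log_avg {E : Set ℕ} (hE : LZ E) (p : ℕ → ℝ) (hp : ∀ n, |p n| ≤ 1) (θ : ℝ) (hθ : 0 ≤ θ)
    (h : ∀ ε : ℝ, 0 < ε → ∃ N₀ : ℕ, ∀ N : ℕ, N₀ ≤ N → N ∉ E →
      |∑ n ∈ Icc 1 N, p n| ≤ (θ + ε) * N) (ε : ℝ) (hε : 0 < ε) :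
    ∃ X₀ : ℕ, ∀ X : ℕ, X₀ ≤ X → |∑ n ∈ Icc 1 X, p n / n| ≤ (θ + ε) * Real.log X := by
  obtain ⟨N₀, h1⟩ := h (ε / 3) (by positivity)
  obtain ⟨X₁, h2⟩ := eventually_atTop.1 (hE.eventually_lt_const (show (0 : ℝ) < ε / 3 by positivity))
  obtain ⟨X₂, h3⟩ := eventually_atTop.1 ((tendsto_atTop.1
    (Real.tendsto_log_atTop.comp tendsto_natCast_atTop_atTop)) ((1 + N₀ + θ + ε / 3) / (ε / 3)))
  refine ⟨X₁ + X₂ + 2, fun X hX => ?_⟩
  have hlog := h3 X (by omega)
  have hX2 : (1 : ℝ) < X := by exact_mod_cast (show 1 < X by omega)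
  have hlogpos : 0 < Real.log X := Real.log_pos hX2
  have h4 := h2 X (by omega)
  rw [div_lt_iff₀ hlogpos] at h4
  have h5 : 1 + N₀ + θ + ε / 3 ≤ ε / 3 * Real.log X := by
    rw [Function.comp_apply, div_le_iff₀ (by positivity)] at hlog
    linarith
  rw [abel p X (by omega)]
  have hS : ∀ N : ℕ, |∑ n ∈ Icc 1 N, p n| ≤ N := by
    intro N
    refine (abs_sum_le_sum_abs _ _).trans ((sum_le_sum fun n _ => hp n).trans ?_)
    simp
  have e1 : |(∑ n ∈ Icc 1 X, p n) / X| ≤ 1 := by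
    rw [abs_div, abs_of_pos (by linarith : (0 : ℝ) < X), div_le_one (by linarith)]
    exact hS X
  have e2 : ∀ N ∈ Ico 1 X, |(∑ n ∈ Icc 1 N, p n) / ((N : ℝ) * (N + 1))| ≤
      (if N < N₀ then 1 else 0) + (if N ∈ E then (1 : ℝ) / N else 0) + (θ + ε / 3) * (1 / N) := by
    intro N hN
    rw [mem_Ico] at hN
    have hN0 : (0 : ℝ) < N := by exact_mod_cast hN.1
    have hN1 : (1 : ℝ) ≤ N := by exact_mod_cast hN.1
    have a1 : 0 ≤ (if N < N₀ then (1 : ℝ) else 0) := by split_ifs <;> norm_num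
    have a2 : 0 ≤ (if N ∈ E then (1 : ℝ) / N else 0) := by split_ifs <;> positivity
    have a3 : 0 ≤ (θ + ε / 3) * (1 / N) := by positivity
    rw [abs_div, abs_of_pos (show (0 : ℝ) < (N : ℝ) * (N + 1) by positivity)]
    have b1 : |∑ n ∈ Icc 1 N, p n| / ((N : ℝ) * (N + 1)) ≤ 1 / N := by
      rw [div_le_div_iff₀ (by positivity) hN0]
      have := hS N
      nlinarith
    by_cases c1 : N < N₀
    · rw [if_pos c1]
      have : (1 : ℝ) / N ≤ 1 := by rw [div_le_one hN0]; exact hN1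
      linarith
    · by_cases c2 : N ∈ E
      · rw [if_pos c2]
        linarith
      · have b2 := h1 N (by omega) c2
        have b3 : |∑ n ∈ Icc 1 N, p n| / ((N : ℝ) * (N + 1)) ≤ (θ + ε / 3) * (1 / N) := by
          rw [mul_one_div, div_le_div_iff₀ (by positivity) hN0]
          have b4 : 0 ≤ θ + ε / 3 := by positivity
          nlinarith [mul_le_mul_of_nonneg_right b2 hN0.le, mul_nonneg b4 hN0.le]
        linarith
  have e3 : |∑ N ∈ Ico 1 X, (∑ n ∈ Icc 1 N, p n) / ((N : ℝ) * (N + 1))| ≤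
      N₀ + ∑ N ∈ Icc 1 X, (if N ∈ E then (1 : ℝ) / N else 0) +
        (θ + ε / 3) * (1 + Real.log X) := by
    refine (abs_sum_le_sum_abs _ _).trans ((sum_le_sum e2).trans ?_)
    rw [sum_add_distrib, sum_add_distrib, ← mul_sum]
    have f1 : ∑ N ∈ Ico 1 X, (if N < N₀ then (1 : ℝ) else 0) ≤ N₀ := by
      rw [sum_boole]
      have : ((Ico 1 X).filter (fun N => N < N₀)).card ≤ (range N₀).card := by
        apply card_le_card
        intro N hN
        rw [mem_filter] at hN
        exact mem_range.2 hN.2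
      rw [card_range] at this
      exact_mod_cast this
    have hsub : Ico 1 X ⊆ Icc 1 X := by
      intro N hN
      rw [mem_Ico] at hN
      rw [mem_Icc]
      exact ⟨hN.1, hN.2.le⟩
    have f2 : ∑ N ∈ Ico 1 X, (if N ∈ E then (1 : ℝ) / N else 0) ≤
        ∑ N ∈ Icc 1 X, (if N ∈ E then (1 : ℝ) / N else 0) :=
      sum_le_sum_of_subset_of_nonneg hsub fun N _ _ => by split_ifs <;> positivity
    have f3 : ∑ N ∈ Ico 1 X, (1 : ℝ) / N ≤ 1 + Real.log X := by
      have g1 : ∑ N ∈ Ico 1 X, (1 : ℝ) / N ≤ ∑ N ∈ Icc 1 X, (1 : ℝ) / N :=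
        sum_le_sum_of_subset_of_nonneg hsub fun N _ _ => by positivity
      have g2 : ∑ N ∈ Icc 1 X, (1 : ℝ) / N = ((harmonic X : ℚ) : ℝ) := by
        rw [harmonic_eq_sum_Icc]
        push_cast
        refine sum_congr rfl fun N _ => ?_
        rw [one_div]
      have g3 := harmonic_le_one_add_log X
      linarith
    have f4 : (θ + ε / 3) * ∑ N ∈ Ico 1 X, (1 : ℝ) / N ≤ (θ + ε / 3) * (1 + Real.log X) :=
      mul_le_mul_of_nonneg_left f3 (by positivity)
    linarith
  refine (abs_add_le _ _).trans ?_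
  nlinarith

/-- the number of the `n ≤ N` for which the product has the sign `σ` -/
noncomputable def cnt (k N : ℕ) (σ : ℝ) : ℕ :=
  ((Icc 1 N).filter (fun n => pr (xx 1 0) k n = σ)).card

lemma xx_mul (k m : ℕ) (hk : 1 ≤ k) (hm : 1 ≤ m) :
    xx 1 0 (k * m) = (-1 : ℝ) ^ ArithmeticFunction.cardFactors k * xx 1 0 m := by
  unfold xx
  rw [one_mul, one_mul, add_zero, add_zero, ArithmeticFunction.cardFactors_mul (by omega) (by omega),
    pow_add]

/-- both signs at every scale -/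
theorem all_scales : ∃ c : ℝ, 0 < c ∧ ∃ K : ℕ, ∀ k N : ℕ, 1 ≤ k → K * k ≤ N →
    ∀ σ : ℝ, (σ = 1 ∨ σ = -1) → c * N / k ≤ cnt k N σ := by
  classical
  obtain ⟨ε, hε, X₀, h⟩ := Pool.Agent.H376R2.MR.mr0
  refine ⟨ε / 4, by positivity, X₀ + 4, fun k N hk hN σ hσ => ?_⟩
  have hN4 : 4 * k ≤ N := by nlinarith
  set M := (N - 1) / k with hM
  have hMk : k * M ≤ N - 1 := Nat.mul_div_le _ _
  have hMX : X₀ ≤ M := by
    rw [hM, Nat.le_div_iff_mul_le (by omega)]
    have : (X₀ + 4) * k = X₀ * k + 4 * k := by ring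
    omega
  have h1 := h M hMX
  set s := (Icc 1 M).filter (fun n => Pool.Agent.H376R2.MR.lam n ≠
    Pool.Agent.H376R2.MR.lam (n + 1)) with hs
  have hchg : (Pool.Agent.H376R2.MR.chg M : ℝ) = s.card := rfl
  rw [hchg] at h1
  set f : ℕ → ℕ := fun m => if pr (xx 1 0) k (k * m) = σ then k * m else k * m + 1 with hf
  have hfs : ∀ m ∈ s, f m ∈ (Icc 1 N).filter (fun n => pr (xx 1 0) k n = σ) := by
    intro m hm
    rw [hs, mem_filter, mem_Icc] at hm
    obtain ⟨⟨hm1, hm2⟩, hm3⟩ := hm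
    have hkm : k * m ≤ N - 1 := (Nat.mul_le_mul_left k hm2).trans hMk
    have hkm1 : 1 ≤ k * m := Nat.mul_pos hk hm1
    have e1 := pr_mul_next (xx_pm 1 0) k (k * m)
    have e2 : xx 1 0 (k * m) * xx 1 0 (k * m + k) = -1 := by
      rw [show k * m + k = k * (m + 1) by ring, xx_mul k m hk hm1, xx_mul k (m + 1) hk (by omega)]
      have e3 : (-1 : ℝ) ^ ArithmeticFunction.cardFactors k *
          (-1 : ℝ) ^ ArithmeticFunction.cardFactors k = 1 := by
        rw [← pow_add, ← two_mul, pow_mul]; norm_num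
      have e4 : xx 1 0 m * xx 1 0 (m + 1) = -1 := by
        have g1 : ∀ n : ℕ, xx 1 0 n = ((Pool.Agent.H376R2.MR.lam n : ℤ) : ℝ) := by
          intro n
          unfold xx Pool.Agent.H376R2.MR.lam
          rw [one_mul, add_zero]
          push_cast
          rfl
        have g2 : xx 1 0 m ≠ xx 1 0 (m + 1) := by
          rw [g1, g1]
          exact_mod_cast hm3
        rcases xx_pm 1 0 m with a | a <;> rcases xx_pm 1 0 (m + 1) with b | b
        · exact absurd (a.trans b.symm) g2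
        · rw [a, b]; norm_num
        · rw [a, b]; norm_num
        · exact absurd (a.trans b.symm) g2
      calc _ = ((-1 : ℝ) ^ ArithmeticFunction.cardFactors k *
          (-1 : ℝ) ^ ArithmeticFunction.cardFactors k) * (xx 1 0 m * xx 1 0 (m + 1)) := by ring
        _ = -1 := by rw [e3, e4]; norm_num
    rw [e2] at e1
    rw [mem_filter, mem_Icc]
    simp only [hf]
    by_cases c : pr (xx 1 0) k (k * m) = σ
    · rw [if_pos c]
      exact ⟨⟨hkm1, by omega⟩, c⟩
    · rw [if_neg c]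
      refine ⟨⟨by omega, by omega⟩, ?_⟩
      rcases hσ with rfl | rfl
      · have a := (pr_pm (xx_pm 1 0) k (k * m)).resolve_left c
        rw [a] at e1
        linarith
      · have a := (pr_pm (xx_pm 1 0) k (k * m)).resolve_right c
        rw [a] at e1
        linarith
  have hfib : ∀ b ∈ s.image f, (s.filter (fun a => f a = b)).card ≤ 2 := by
    intro b _
    have : s.filter (fun a => f a = b) ⊆ {b / k, (b - 1) / k} := by
      intro a ha
      rw [mem_filter] at ha
      obtain ⟨-, ha⟩ := ha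
      rw [mem_insert, mem_singleton]
      simp only [hf] at ha
      split_ifs at ha with c
      · left
        rw [← ha, Nat.mul_div_cancel_left _ (by omega)]
      · right
        rw [← ha, Nat.add_sub_cancel, Nat.mul_div_cancel_left _ (by omega)]
    exact (card_le_card this).trans card_le_two
  have h2 : s.card ≤ 2 * (s.image f).card := card_le_mul_card_image s 2 hfib
  have h3 : (s.image f).card ≤ cnt k N σ := by
    unfold cnt
    apply card_le_card
    intro b hb
    rw [mem_image] at hb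
    obtain ⟨m, hm, rfl⟩ := hb
    exact hfs m hm
  have h4 : (s.card : ℝ) ≤ 2 * (cnt k N σ : ℝ) := by exact_mod_cast h2.trans (by omega)
  have h5 : (N : ℝ) ≤ 2 * (k * M) := by
    have e1 : N - 1 < k * (M + 1) := by
      have := Nat.lt_mul_div_succ (N - 1) (show 0 < k by omega)
      rw [← hM] at this
      exact this
    have e2 : N ≤ k * M + k := by
      have : k * (M + 1) = k * M + k := by ring
      omega
    have e3 : N ≤ 2 * (k * M) := by omega
    exact_mod_cast e3
  have hk0 : (0 : ℝ) < k := by exact_mod_cast hk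
  rw [div_le_iff₀ hk0]
  nlinarith

end Pool.Agent.Q133.EL
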