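import Pool.Agent.Q133.ELAbs
import Pool.Agent.Y842.EL.One
import Pool.Agent.H376R2.MR.Main

/-!
# Products of `k` consecutive Liouville values, every length `k`
-/

set_option autoImplicit false

namespace Pool.Agent.Q133.EL

open Finset
open Pool.Agent.Y958.U (LZ)

/-- the Liouville function along a progression, with real values -/
noncomputable def xx (a c n : ℕ) : ℝ := (-1 : ℝ) ^ ArithmeticFunction.cardFactors (a * n + c)

lemma xx_pm (a c n : ℕ) : xx a c n = 1 ∨ xx a c n = -1 := neg_one_pow_eq_or ℝ _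

lemma xx_abs (a c n : ℕ) : |xx a c n| ≤ 1 := by
  rcases xx_pm a c n with h | h <;> rw [h] <;> norm_num

lemma yy_xx (a c k n : ℕ) : ((Pool.Agent.Y842.EL.yy a c k n : ℤ) : ℝ) = xx a c n * xx a c (n + k) := by
  unfold Pool.Agent.Y842.EL.yy xx Pool.Agent.H376R2.MR.lam
  push_cast
  ring

/-- changing the range of summation -/
lemma sum_Icc_range (y : ℕ → ℝ) (hy : ∀ n, |y n| ≤ 1) (N : ℕ) :
    |∑ n ∈ Icc 1 N, y n - ∑ n ∈ range N, y n| ≤ 2 := by
  have h1 : ∑ n ∈ Icc 1 N, y n = ∑ n ∈ range N, y (n + 1) := by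
    rw [range_eq_Ico, sum_Ico_add' y 0 N 1]
    apply sum_congr _ fun _ _ => rfl
    ext n
    simp only [mem_Ico, mem_Icc]
    omega
  rw [h1]
  exact sum_shift hy N

lemma sum_Icc_range' (y : ℕ → ℂ) (hy : ∀ n, ‖y n‖ ≤ 1) (N : ℕ) :
    ‖∑ n ∈ Icc 1 N, y n - ∑ n ∈ range N, y n‖ ≤ 2 := by
  have h1 : ∑ n ∈ Icc 1 N, y n = ∑ n ∈ range N, y (n + 1) := by
    rw [range_eq_Ico, sum_Ico_add' y 0 N 1]
    apply sum_congr _ fun _ _ => rfl
    ext n
    simp only [mem_Ico, mem_Icc]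
    omega
  rw [h1, ← sum_sub_distrib, sum_range_sub y N]
  refine (norm_sub_le _ _).trans ?_
  linarith [hy N, hy 0]

/-- all two-point sums, with periodic weights, outside one set -/
theorem two_pt : ∃ E : Set ℕ, LZ E ∧ ∀ k a c q : ℕ, 1 ≤ k → 1 ≤ a → 1 ≤ q → ∀ ε : ℝ, 0 < ε →
    ∃ N₀ : ℕ, ∀ N : ℕ, N₀ ≤ N → N ∉ E → ∀ b : ℕ → ℝ, (∀ n, |b n| ≤ 1) → (∀ n, b (n + q) = b n) →
      |∑ n ∈ range N, b n * (xx a c n * xx a c (n + k))| ≤ ε * N := by
  obtain ⟨E, hE, h⟩ := Pool.Agent.Y842.EL.per_sum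
  refine ⟨E, hE, fun k a c q hk ha hq ε hε => ?_⟩
  obtain ⟨N₀, h1⟩ := h k a c q hk ha hq ε hε
  refine ⟨N₀, fun N hN hNE b hb hbq => ?_⟩
  have h2 := h1 N hN hNE b hb hbq
  simp only [yy_xx] at h2
  exact h2

/-- the property of the exceptional set that is used -/
def Good (E : Set ℕ) : Prop := ∀ k a c q : ℕ, 1 ≤ k → 1 ≤ a → 1 ≤ q → ∀ ε : ℝ, 0 < ε →
    ∃ N₀ : ℕ, ∀ N : ℕ, N₀ ≤ N → N ∉ E → ∀ b : ℕ → ℝ, (∀ n, |b n| ≤ 1) → (∀ n, b (n + q) = b n) →
      |∑ n ∈ range N, b n * (xx a c n * xx a c (n + k))| ≤ ε * N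

/-- the half bound -/
theorem half_bd {E : Set ℕ} (hE : Good E) (k a c q : ℕ) (hk : 1 ≤ k) (ha : 1 ≤ a) (hq : 1 ≤ q)
    (ε : ℝ) (hε : 0 < ε) : ∃ N₀ : ℕ, ∀ N : ℕ, N₀ ≤ N → N ∉ E →
      ∀ b : ℕ → ℝ, (∀ n, |b n| ≤ 1) → (∀ n, b (n + q) = b n) →
      |∑ n ∈ Icc 1 N, b n * pr (xx a c) k n| ≤ (1 / 2 + ε) * N := by
  obtain ⟨N₀, h1⟩ := hE k a c q hk ha hq ε hε
  obtain ⟨M, hM⟩ := exists_nat_gt (6 / ε)
  refine ⟨N₀ + M, fun N hN hNE b hb hbq => ?_⟩
  have h2 := h1 N (by omega) hNE (fun n => b n * b (n + 1))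
    (fun n => by
      rw [abs_mul]
      exact mul_le_one₀ (hb _) (abs_nonneg _) (hb _))
    (fun n => by
      show b (n + q) * b (n + q + 1) = b n * b (n + 1)
      rw [hbq, show n + q + 1 = n + 1 + q by ring, hbq])
  have h3 := half_pr (xx_pm a c) k hb N (ε * N) h2
  have h4 := sum_Icc_range (fun n => b n * pr (xx a c) k n)
    (fun n => by
      show |b n * pr (xx a c) k n| ≤ 1
      rw [abs_mul]
      exact mul_le_one₀ (hb _) (abs_nonneg _) (pr_abs (xx_pm a c) k n)) N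
  have h5 : (M : ℝ) ≤ N := by exact_mod_cast (by omega : M ≤ N)
  have h6 : 6 ≤ ε * N := by
    rw [div_lt_iff₀ hε] at hM
    nlinarith
  have h7 := abs_le.1 h3
  have h8 := abs_le.1 h4
  rw [abs_le]
  constructor <;> nlinarith [h7.1, h7.2, h8.1, h8.2]

/-- Bessel's inequality, sums over `range N` -/
theorem bessel_bd {E : Set ℕ} (hE : Good E) (H a c : ℕ) (ha : 1 ≤ a) (ε : ℝ) (hε : 0 < ε) :
    ∃ N₀ : ℕ, ∀ N : ℕ, N₀ ≤ N → N ∉ E → ∀ g : ℕ → ℂ, (∀ n, ‖g n‖ ≤ 1) →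
      ∑ h ∈ range H, ‖∑ n ∈ range N, g n * (xx a c (n + h) : ℂ)‖ ^ 2 ≤ (1 + ε) * (N : ℝ) ^ 2 := by
  have hδ : 0 < ε / (2 * ((H : ℝ) + 1) ^ 2) := by positivity
  have h1 : ∀ k : ℕ, ∃ N₀ : ℕ, ∀ N : ℕ, N₀ ≤ N → N ∉ E →
      |∑ n ∈ range N, xx a c n * xx a c (n + (k + 1))| ≤ ε / (2 * ((H : ℝ) + 1) ^ 2) * N := by
    intro k
    obtain ⟨N₀, h⟩ := hE (k + 1) a c 1 (by omega) ha le_rfl _ hδ
    refine ⟨N₀, fun N hN hNE => ?_⟩
    have h2 := h N hN hNE (fun _ => 1) (fun _ => by simp) (fun _ => rfl)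
    simpa using h2
  choose N₀ h1 using h1
  obtain ⟨M, hM⟩ := exists_nat_gt (2 * (H : ℝ) / (ε / (2 * ((H : ℝ) + 1) ^ 2)))
  refine ⟨∑ k ∈ range H, N₀ k + M, fun N hN hNE g hg => ?_⟩
  have hMN : (M : ℝ) ≤ N := by
    exact_mod_cast (show M ≤ N by omega)
  have hHN : 2 * (H : ℝ) ≤ ε / (2 * ((H : ℝ) + 1) ^ 2) * N := by
    rw [div_lt_iff₀ hδ] at hM
    nlinarith
  have key : ∀ i ∈ range H, ∀ j ∈ range H, i ≠ j →
      |∑ n ∈ range N, xx a c (n + i) * xx a c (n + j)| ≤ 2 * (ε / (2 * ((H : ℝ) + 1) ^ 2)) * N := by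
    have main : ∀ i ∈ range H, ∀ j ∈ range H, i < j →
        |∑ n ∈ range N, xx a c (n + i) * xx a c (n + j)| ≤
          2 * (ε / (2 * ((H : ℝ) + 1) ^ 2)) * N := by
      intro i hi j hj hij
      rw [mem_range] at hi hj
      have h2 : N₀ (j - i - 1) ≤ N := by
        have := single_le_sum (f := N₀) (fun _ _ => Nat.zero_le _)
          (mem_range.2 (show j - i - 1 < H by omega))
        omega
      have h3 := h1 (j - i - 1) N h2 hNE
      have h4 : ∑ n ∈ range N, xx a c (n + i) * xx a c (n + j) =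
          ∑ n ∈ range N, xx a c n * xx a c (n + (j - i - 1 + 1)) +
          (∑ n ∈ range i, xx a c (N + n) * xx a c (N + n + (j - i - 1 + 1)) -
            ∑ n ∈ range i, xx a c n * xx a c (n + (j - i - 1 + 1))) := by
        have e1 : ∑ n ∈ range (i + N), xx a c n * xx a c (n + (j - i - 1 + 1)) =
            ∑ n ∈ range i, xx a c n * xx a c (n + (j - i - 1 + 1)) +
              ∑ n ∈ range N, xx a c (i + n) * xx a c (i + n + (j - i - 1 + 1)) :=
          sum_range_add _ _ _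
        have e2 : ∑ n ∈ range (N + i), xx a c n * xx a c (n + (j - i - 1 + 1)) =
            ∑ n ∈ range N, xx a c n * xx a c (n + (j - i - 1 + 1)) +
              ∑ n ∈ range i, xx a c (N + n) * xx a c (N + n + (j - i - 1 + 1)) :=
          sum_range_add _ _ _
        have e3 : ∑ n ∈ range N, xx a c (n + i) * xx a c (n + j) =
            ∑ n ∈ range N, xx a c (i + n) * xx a c (i + n + (j - i - 1 + 1)) := by
          refine sum_congr rfl fun n _ => ?_
          rw [show i + n + (j - i - 1 + 1) = n + j by omega, add_comm i n]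
        rw [Nat.add_comm N i] at e2
        rw [e3]
        linarith
      have e4 : ∀ m : ℕ, |∑ n ∈ range i, xx a c (m + n) * xx a c (m + n + (j - i - 1 + 1))| ≤ H := by
        intro m
        refine (abs_sum_le_sum_abs _ _).trans ?_
        have : ∀ n ∈ range i, |xx a c (m + n) * xx a c (m + n + (j - i - 1 + 1))| ≤ 1 := by
          intro n _
          rw [abs_mul]
          exact mul_le_one₀ (xx_abs _ _ _) (abs_nonneg _) (xx_abs _ _ _)
        refine (sum_le_sum this).trans ?_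
        simp
        exact_mod_cast hi.le
      have e5 := e4 N
      have e6 := e4 0
      simp only [zero_add] at e6
      rw [h4]
      have e7 := abs_le.1 h3
      have e8 := abs_le.1 e5
      have e9 := abs_le.1 e6
      rw [abs_le]
      constructor <;> nlinarith [e7.1, e7.2, e8.1, e8.2, e9.1, e9.2]
    intro i hi j hj hij
    rcases Nat.lt_or_gt_of_ne hij with h | h
    · exact main i hi j hj h
    · have := main j hj i hi h
      have e : ∀ n ∈ range N, xx a c (n + i) * xx a c (n + j) = xx a c (n + j) * xx a c (n + i) :=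
        fun n _ => mul_comm _ _
      rw [sum_congr rfl e]
      exact this
  have hb := bessel (range H) (fun i n => xx a c (n + i)) (fun i _ n => xx_pm a c (n + i)) N
    (2 * (ε / (2 * ((H : ℝ) + 1) ^ 2))) (by positivity) key g hg
  refine hb.trans ?_
  apply mul_le_mul_of_nonneg_right _ (by positivity)
  rw [card_range]
  have : 2 * (ε / (2 * ((H : ℝ) + 1) ^ 2)) * (H : ℝ) ^ 2 ≤ ε := by
    rw [show 2 * (ε / (2 * ((H : ℝ) + 1) ^ 2)) * (H : ℝ) ^ 2 =
      ε * ((H : ℝ) ^ 2 / ((H : ℝ) + 1) ^ 2) by field_simp]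
    have h9 : (H : ℝ) ^ 2 / ((H : ℝ) + 1) ^ 2 ≤ 1 := by
      rw [div_le_one (by positivity)]
      have : (0 : ℝ) ≤ H := Nat.cast_nonneg H
      nlinarith
    nlinarith
  linarith

/-- the one-point sums -/
theorem one_pt {E : Set ℕ} (hE : Good E) (a c : ℕ) (ha : 1 ≤ a) (ε : ℝ) (hε : 0 < ε) :
    ∃ N₀ : ℕ, ∀ N : ℕ, N₀ ≤ N → N ∉ E → |∑ n ∈ range N, xx a c n| ≤ ε * N := by
  obtain ⟨H, hH⟩ := exists_nat_gt (8 / ε ^ 2)
  have hH0 : (0 : ℝ) < H := lt_trans (by positivity) hH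
  obtain ⟨N₁, h1⟩ := bessel_bd hE H a c ha 1 one_pos
  obtain ⟨M, hM⟩ := exists_nat_gt (4 * (H : ℝ) / ε)
  refine ⟨N₁ + M, fun N hN hNE => ?_⟩
  have hMN : (M : ℝ) ≤ N := by exact_mod_cast (show M ≤ N by omega)
  have hHN : 4 * (H : ℝ) ≤ ε * N := by
    rw [div_lt_iff₀ hε] at hM
    nlinarith
  have h2 := h1 N (by omega) hNE (fun _ => 1) (fun _ => by simp)
  simp only [one_mul] at h2
  by_contra hcon
  push Not at hcon
  have h3 : ∀ h ∈ range H, (ε * N / 2) ^ 2 ≤ ‖∑ n ∈ range N, (xx a c (n + h) : ℂ)‖ ^ 2 := by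
    intro h hh
    rw [mem_range] at hh
    have e1 : ∑ n ∈ range (h + N), xx a c n = ∑ n ∈ range h, xx a c n +
        ∑ n ∈ range N, xx a c (h + n) := sum_range_add _ _ _
    have e2 : ∑ n ∈ range (N + h), xx a c n = ∑ n ∈ range N, xx a c n +
        ∑ n ∈ range h, xx a c (N + n) := sum_range_add _ _ _
    have e4 : ∀ m : ℕ, |∑ n ∈ range h, xx a c (m + n)| ≤ H := by
      intro m
      refine (abs_sum_le_sum_abs _ _).trans ?_
      refine (sum_le_sum fun n _ => xx_abs a c (m + n)).trans ?_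
      simp
      exact_mod_cast hh.le
    have e5 := abs_le.1 (e4 N)
    have e6 := abs_le.1 (e4 0)
    simp only [zero_add] at e6
    rw [Nat.add_comm N h] at e2
    have e7 : ∑ n ∈ range N, xx a c (n + h) = ∑ n ∈ range N, xx a c (h + n) :=
      sum_congr rfl fun n _ => by rw [add_comm]
    have e8 : ε * N / 2 ≤ |∑ n ∈ range N, xx a c (n + h)| := by
      rw [e7]
      have : ∑ n ∈ range N, xx a c (h + n) = ∑ n ∈ range N, xx a c n +
        (∑ n ∈ range h, xx a c (N + n) - ∑ n ∈ range h, xx a c n) := by linarith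
      rw [this]
      have h9 : |∑ n ∈ range h, xx a c (N + n) - ∑ n ∈ range h, xx a c n| ≤ 2 * H := by
        rw [abs_le]; constructor <;> linarith [e5.1, e5.2, e6.1, e6.2]
      have h10 := abs_sub_abs_le_abs_sub (∑ n ∈ range N, xx a c n)
        (-(∑ n ∈ range h, xx a c (N + n) - ∑ n ∈ range h, xx a c n))
      rw [abs_neg, sub_neg_eq_add] at h10
      linarith
    have e9 : ‖∑ n ∈ range N, (xx a c (n + h) : ℂ)‖ = |∑ n ∈ range N, xx a c (n + h)| := by
      rw [← Complex.ofReal_sum, Complex.norm_real, Real.norm_eq_abs]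
    rw [e9]
    have hN0 : (0 : ℝ) ≤ N := Nat.cast_nonneg N
    apply pow_le_pow_left₀ (by positivity) e8
  have h4 := sum_le_sum h3
  rw [sum_const, card_range, nsmul_eq_mul] at h4
  have h5 := h4.trans h2
  have hN0 : (0 : ℝ) < N := by
    have : 0 < ε * (N : ℝ) := lt_of_lt_of_le (by positivity) hHN
    by_contra h
    push Not at h
    nlinarith
  have h6 : 8 < H * ε ^ 2 := by
    rwa [div_lt_iff₀ (by positivity)] at hH
  have h7 : (H : ℝ) * (ε * N / 2) ^ 2 = (H * ε ^ 2) * (N ^ 2 / 4) := by ring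
  rw [h7] at h5
  have h8 : (0 : ℝ) < (N : ℝ) ^ 2 := by positivity
  nlinarith

/-- the neighbouring lengths -/
theorem three_bd {E : Set ℕ} (hE : Good E) (k a c : ℕ) (ha : 1 ≤ a) (ε : ℝ) (hε : 0 < ε) :
    ∃ N₀ : ℕ, ∀ N : ℕ, N₀ ≤ N → N ∉ E →
      2 * |∑ n ∈ Icc 1 N, pr (xx a c) (k + 1) n| +
        |∑ n ∈ Icc 1 N, pr (xx a c) k n + ∑ n ∈ Icc 1 N, pr (xx a c) (k + 2) n| ≤ (1 + ε) * N := by
  obtain ⟨N₁, h1⟩ := one_pt hE a c ha (ε / 8) (by positivity)
  obtain ⟨N₂, h2⟩ := hE (k + 1) a c 1 (by omega) ha le_rfl (ε / 8) (by positivity)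
  obtain ⟨M, hM⟩ := exists_nat_gt ((48 + 24 * (k + 1 : ℝ)) / ε)
  refine ⟨N₁ + N₂ + M, fun N hN hNE => ?_⟩
  have hMN : (M : ℝ) ≤ N := by exact_mod_cast (show M ≤ N by omega)
  have hHN : 48 + 24 * (k + 1 : ℝ) ≤ ε * N := by
    rw [div_lt_iff₀ hε] at hM
    nlinarith
  have g1 := h1 N (by omega) hNE
  have g2 := h2 N (by omega) hNE (fun _ => 1) (fun _ => by simp) (fun _ => rfl)
  simp only [one_mul] at g2
  have g3 : |∑ n ∈ range N, xx a c (n + (k + 1))| ≤ ε / 4 * N := by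
    have e1 : ∑ n ∈ range ((k + 1) + N), xx a c n = ∑ n ∈ range (k + 1), xx a c n +
        ∑ n ∈ range N, xx a c ((k + 1) + n) := sum_range_add _ _ _
    have e2 : ∑ n ∈ range (N + (k + 1)), xx a c n = ∑ n ∈ range N, xx a c n +
        ∑ n ∈ range (k + 1), xx a c (N + n) := sum_range_add _ _ _
    have e4 : ∀ m : ℕ, |∑ n ∈ range (k + 1), xx a c (m + n)| ≤ k + 1 := by
      intro m
      refine (abs_sum_le_sum_abs _ _).trans ?_
      refine (sum_le_sum fun n _ => xx_abs a c (m + n)).trans ?_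
      simp
    have e5 := abs_le.1 (e4 N)
    have e6 := abs_le.1 (e4 0)
    simp only [zero_add] at e6
    rw [Nat.add_comm N (k + 1)] at e2
    have e7 : ∑ n ∈ range N, xx a c (n + (k + 1)) = ∑ n ∈ range N, xx a c ((k + 1) + n) :=
      sum_congr rfl fun n _ => by rw [add_comm]
    rw [e7]
    have e8 := abs_le.1 g1
    rw [abs_le]
    constructor <;> linarith [e5.1, e5.2, e6.1, e6.2, e8.1, e8.2]
  have hN0 : (0 : ℝ) ≤ N := Nat.cast_nonneg N
  have g4 := three_pr (xx_pm a c) k N (ε / 4 * N) (g1.trans (by nlinarith)) (g2.trans (by nlinarith)) g3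
  have t1 := sum_Icc_range (pr (xx a c) (k + 1)) (pr_abs (xx_pm a c) _) N
  have t2 := sum_Icc_range (pr (xx a c) k) (pr_abs (xx_pm a c) _) N
  have t3 := sum_Icc_range (pr (xx a c) (k + 2)) (pr_abs (xx_pm a c) _) N
  have u1 : |∑ n ∈ Icc 1 N, pr (xx a c) (k + 1) n| ≤ |∑ n ∈ range N, pr (xx a c) (k + 1) n| + 2 := by
    have := abs_sub_abs_le_abs_sub (∑ n ∈ Icc 1 N, pr (xx a c) (k + 1) n)
      (∑ n ∈ range N, pr (xx a c) (k + 1) n)
    linarith
  have u2 : |∑ n ∈ Icc 1 N, pr (xx a c) k n + ∑ n ∈ Icc 1 N, pr (xx a c) (k + 2) n| ≤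
      |∑ n ∈ range N, pr (xx a c) k n + ∑ n ∈ range N, pr (xx a c) (k + 2) n| + 4 := by
    have e1 := abs_sub_abs_le_abs_sub
      (∑ n ∈ Icc 1 N, pr (xx a c) k n + ∑ n ∈ Icc 1 N, pr (xx a c) (k + 2) n)
      (∑ n ∈ range N, pr (xx a c) k n + ∑ n ∈ range N, pr (xx a c) (k + 2) n)
    have e2 : |(∑ n ∈ Icc 1 N, pr (xx a c) k n + ∑ n ∈ Icc 1 N, pr (xx a c) (k + 2) n) -
      (∑ n ∈ range N, pr (xx a c) k n + ∑ n ∈ range N, pr (xx a c) (k + 2) n)| ≤ 4 := by
      have e3 := abs_le.1 t2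
      have e4 := abs_le.1 t3
      rw [abs_le]
      constructor <;> linarith [e3.1, e3.2, e4.1, e4.2]
    linarith
  have hk0 : (0 : ℝ) ≤ k := Nat.cast_nonneg k
  nlinarith

/-- shifting the summation by `i` -/
lemma sum_shift_i {y : ℕ → ℝ} (hy : ∀ n, |y n| ≤ 1) (N i : ℕ) :
    |∑ n ∈ range N, y (n + i) - ∑ n ∈ range N, y n| ≤ 2 * i := by
  induction i with
  | zero => simp
  | succ i ih =>
    have h1 := sum_shift (y := fun n => y (n + i)) (fun n => hy _) N
    have h2 : ∀ n, (fun n => y (n + i)) (n + 1) = y (n + (i + 1)) := fun n => by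
      show y (n + 1 + i) = y (n + (i + 1))
      congr 1; ring
    simp only [h2] at h1
    have h3 := abs_le.1 h1
    have h4 := abs_le.1 ih
    push_cast
    rw [abs_le]
    constructor <;> linarith [h3.1, h3.2, h4.1, h4.2]

/-- one-point and two-point sums at bounded shifts -/
theorem shift_pt {E : Set ℕ} (hE : Good E) (H a c : ℕ) (ha : 1 ≤ a) (ε : ℝ) (hε : 0 < ε) :
    ∃ N₀ : ℕ, ∀ N : ℕ, N₀ ≤ N → N ∉ E →
      (∀ i < H, |∑ n ∈ range N, xx a c (n + i)| ≤ ε * N) ∧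
      (∀ i < H, ∀ j < H, i < j → |∑ n ∈ range N, xx a c (n + i) * xx a c (n + j)| ≤ ε * N) := by
  obtain ⟨N₁, h1⟩ := one_pt hE a c ha (ε / 2) (by positivity)
  have h2 : ∀ k : ℕ, ∃ N₀ : ℕ, ∀ N : ℕ, N₀ ≤ N → N ∉ E →
      |∑ n ∈ range N, xx a c n * xx a c (n + (k + 1))| ≤ ε / 2 * N := by
    intro k
    obtain ⟨N₀, h⟩ := hE (k + 1) a c 1 (by omega) ha le_rfl (ε / 2) (by positivity)
    refine ⟨N₀, fun N hN hNE => ?_⟩
    have h2 := h N hN hNE (fun _ => 1) (fun _ => by simp) (fun _ => rfl)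
    simpa using h2
  choose N₂ h2 using h2
  obtain ⟨M, hM⟩ := exists_nat_gt (4 * (H : ℝ) / ε)
  refine ⟨N₁ + ∑ k ∈ range H, N₂ k + M, fun N hN hNE => ⟨fun i hi => ?_, fun i hi j hj hij => ?_⟩⟩
  · have hMN : (M : ℝ) ≤ N := by exact_mod_cast (show M ≤ N by omega)
    have hHN : 4 * (H : ℝ) ≤ ε * N := by
      rw [div_lt_iff₀ hε] at hM
      nlinarith
    have e1 := h1 N (by omega) hNE
    have e2 := sum_shift_i (xx_abs a c) N i
    have e3 : (i : ℝ) ≤ H := by exact_mod_cast hi.le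
    have e4 := abs_le.1 e1
    have e5 := abs_le.1 e2
    rw [abs_le]
    constructor <;> linarith [e4.1, e4.2, e5.1, e5.2]
  · have hMN : (M : ℝ) ≤ N := by exact_mod_cast (show M ≤ N by omega)
    have hHN : 4 * (H : ℝ) ≤ ε * N := by
      rw [div_lt_iff₀ hε] at hM
      nlinarith
    have g2 : N₂ (j - i - 1) ≤ N := by
      have := single_le_sum (f := N₂) (fun _ _ => Nat.zero_le _)
        (mem_range.2 (show j - i - 1 < H by omega))
      omega
    have e1 := h2 (j - i - 1) N g2 hNE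
    have e2 := sum_shift_i (y := fun n => xx a c n * xx a c (n + (j - i - 1 + 1))) (fun n => by
      show |xx a c n * xx a c (n + (j - i - 1 + 1))| ≤ 1
      rw [abs_mul]
      exact mul_le_one₀ (xx_abs _ _ _) (abs_nonneg _) (xx_abs _ _ _)) N i
    have e6 : ∀ n, xx a c (n + i) * xx a c (n + i + (j - i - 1 + 1)) =
        xx a c (n + i) * xx a c (n + j) := fun n => by
      rw [show n + i + (j - i - 1 + 1) = n + j by omega]
    simp only [e6] at e2
    have e3 : (i : ℝ) ≤ H := by exact_mod_cast hi.le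
    have e4 := abs_le.1 e1
    have e5 := abs_le.1 e2
    rw [abs_le]
    constructor <;> linarith [e4.1, e4.2, e5.1, e5.2]

/-- four neighbouring products, with the same arbitrary weights -/
theorem four_bd {E : Set ℕ} (hE : Good E) (k a c : ℕ) (hk : 1 ≤ k) (ha : 1 ≤ a) (ε : ℝ) (hε : 0 < ε) :
    ∃ N₀ : ℕ, ∀ N : ℕ, N₀ ≤ N → N ∉ E → ∀ g : ℕ → ℂ, (∀ n, ‖g n‖ ≤ 1) →
      ‖∑ n ∈ range N, g n * (pr (xx a c) k n : ℂ)‖ ^ 2 +
      ‖∑ n ∈ range N, g n * (pr (xx a c) (k + 1) n : ℂ)‖ ^ 2 +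
      ‖∑ n ∈ range N, g n * (pr (xx a c) (k + 2) n : ℂ)‖ ^ 2 +
      ‖∑ n ∈ range N, g n * (pr (xx a c) k (n + 1) : ℂ)‖ ^ 2 ≤ (1 + ε) * (N : ℝ) ^ 2 := by
  obtain ⟨N₀, h⟩ := shift_pt hE (k + 3) a c ha (ε / 16) (by positivity)
  refine ⟨N₀, fun N hN hNE g hg => ?_⟩
  obtain ⟨h1, h2⟩ := h N hN hNE
  set x := xx a c with hx
  have hxp : ∀ n, x n = 1 ∨ x n = -1 := xx_pm a c
  have sq := sq_one hxp
  have psq : ∀ k n, pr x k n * pr x k n = 1 := by
    intro k n
    rcases pr_pm hxp k n with h | h <;> rw [h] <;> norm_num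
  set v : Fin 4 → ℕ → ℝ := ![pr x k, pr x (k + 1), pr x (k + 2), fun n => pr x k (n + 1)] with hv
  have hvp : ∀ i n, v i n = 1 ∨ v i n = -1 := by
    intro i n
    fin_cases i
    · exact pr_pm hxp _ _
    · exact pr_pm hxp _ _
    · exact pr_pm hxp _ _
    · exact pr_pm hxp _ _
  -- products of the members
  have p01 : ∀ n, pr x k n * pr x (k + 1) n = x (n + k) := by
    intro n
    rw [pr_succ]
    calc pr x k n * (pr x k n * x (n + k)) = (pr x k n * pr x k n) * x (n + k) := by ring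
      _ = _ := by rw [psq, one_mul]
  have p02 : ∀ n, pr x k n * pr x (k + 2) n = x (n + k) * x (n + (k + 1)) := by
    intro n
    rw [show k + 2 = k + 1 + 1 from rfl, pr_succ, ← mul_assoc, p01]
  have p12 : ∀ n, pr x (k + 1) n * pr x (k + 2) n = x (n + (k + 1)) := by
    intro n
    rw [show k + 2 = k + 1 + 1 from rfl, pr_succ x (k + 1) n, ← mul_assoc, psq, one_mul]
  have p03 : ∀ n, pr x k n * pr x k (n + 1) = x n * x (n + k) := fun n => pr_mul_next hxp k n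
  have p13 : ∀ n, pr x (k + 1) n * pr x k (n + 1) = x n := by
    intro n
    rw [pr_succ', mul_assoc, psq, mul_one]
  have p23 : ∀ n, pr x (k + 2) n * pr x k (n + 1) = x n * x (n + (k + 1)) := by
    intro n
    rw [show k + 2 = k + 1 + 1 from rfl, pr_succ x (k + 1) n]
    calc pr x (k + 1) n * x (n + (k + 1)) * pr x k (n + 1) =
        (pr x (k + 1) n * pr x k (n + 1)) * x (n + (k + 1)) := by ring
      _ = _ := by rw [p13]
  have x0 : ∀ n, x n = x (n + 0) := fun n => rfl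
  have main : ∀ i j : Fin 4, i < j → |∑ n ∈ range N, v i n * v j n| ≤ ε / 16 * N := by
    intro i j hij
    fin_cases i <;> fin_cases j <;> simp at hij
    · show |∑ n ∈ range N, pr x k n * pr x (k + 1) n| ≤ _
      rw [sum_congr rfl fun n _ => p01 n]
      exact h1 k (by omega)
    · show |∑ n ∈ range N, pr x k n * pr x (k + 2) n| ≤ _
      rw [sum_congr rfl fun n _ => p02 n]
      exact h2 k (by omega) (k + 1) (by omega) (by omega)
    · show |∑ n ∈ range N, pr x k n * pr x k (n + 1)| ≤ _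
      rw [sum_congr rfl fun n _ => p03 n]
      exact h2 0 (by omega) k (by omega) (by omega)
    · show |∑ n ∈ range N, pr x (k + 1) n * pr x (k + 2) n| ≤ _
      rw [sum_congr rfl fun n _ => p12 n]
      exact h1 (k + 1) (by omega)
    · show |∑ n ∈ range N, pr x (k + 1) n * pr x k (n + 1)| ≤ _
      rw [sum_congr rfl fun n _ => p13 n]
      exact h1 0 (by omega)
    · show |∑ n ∈ range N, pr x (k + 2) n * pr x k (n + 1)| ≤ _
      rw [sum_congr rfl fun n _ => p23 n]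
      exact h2 0 (by omega) (k + 1) (by omega) (by omega)
  have key := bessel univ v (fun i _ n => hvp i n) N (ε / 16) (by positivity)
    (fun i _ j _ hij => by
      rcases lt_or_gt_of_ne hij with h | h
      · exact main i j h
      · have := main j i h
        have e : ∀ n ∈ range N, v i n * v j n = v j n * v i n := fun n _ => mul_comm _ _
        rw [sum_congr rfl e]
        exact this) g hg
  rw [Fin.sum_univ_four, card_univ, Fintype.card_fin] at key
  have e0 : ∀ n, v 0 n = pr x k n := fun n => rfl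
  have e1 : ∀ n, v 1 n = pr x (k + 1) n := fun n => rfl
  have e2 : ∀ n, v 2 n = pr x (k + 2) n := fun n => rfl
  have e3 : ∀ n, v 3 n = pr x k (n + 1) := fun n => rfl
  simp only [e0, e1, e2, e3] at key
  refine key.trans (le_of_eq ?_)
  push_cast
  ring

end Pool.Agent.Q133.EL
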