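import Mathlib

set_option autoImplicit false

open Polynomial

namespace Q133.EdgeCover

/-- If `P = (1+X)^m + D` where `D` has degree exactly `m - δ`, `1 ≤ δ ≤ m`, then `P` has at least
`δ` distinct complex roots. -/
theorem distinct_roots (P D : ℂ[X]) (m δ : ℕ) (hδ : 1 ≤ δ) (hδm : δ ≤ m)
    (hP : P = (1 + X) ^ m + D) (hD : D.coeff (m - δ) ≠ 0) (hD' : D.natDegree ≤ m - δ) :
    P ≠ 0 ∧ δ ≤ P.roots.toFinset.card := by
  have hone : ((1 + X : ℂ[X]) ^ m).natDegree = m := by
    have : (1 + X : ℂ[X]) = X + C 1 := by simp [add_comm]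
    rw [this, natDegree_pow_X_add_C]
  have hlt : D.natDegree < ((1 + X : ℂ[X]) ^ m).natDegree := by
    rw [hone]; omega
  have hPdeg : P.natDegree = m := by
    rw [hP, natDegree_add_eq_left_of_natDegree_lt hlt, hone]
  have hP0 : P ≠ 0 := by
    intro h
    rw [h, natDegree_zero] at hPdeg
    omega
  refine ⟨hP0, ?_⟩
  set N : ℂ[X] := (1 + X) * derivative P - C (m : ℂ) * P with hN
  have hND : N = (1 + X) * derivative D - C (m : ℂ) * D := by
    have h1 : (1 + X : ℂ[X]) * derivative ((1 + X : ℂ[X]) ^ m) = C (m : ℂ) * (1 + X) ^ m := by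
      rcases m with _ | m
      · simp
      · rw [derivative_pow]
        simp only [Nat.add_sub_cancel, derivative_add, derivative_one, derivative_X]
        ring
    rw [hN, hP, derivative_add, mul_add, h1]
    ring
  have hNcoeff : N.coeff (m - δ) ≠ 0 := by
    have h2 : N.coeff (m - δ) = -(δ : ℂ) * D.coeff (m - δ) := by
      rw [hND, coeff_sub, coeff_C_mul, add_mul, one_mul, coeff_add, coeff_derivative]
      have h3 : D.coeff (m - δ + 1) = 0 := coeff_eq_zero_of_natDegree_lt (by omega)
      rw [h3, zero_mul, zero_add]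
      have h4 : (X * derivative D).coeff (m - δ) = ((m - δ : ℕ) : ℂ) * D.coeff (m - δ) := by
        rcases Nat.eq_zero_or_pos (m - δ) with h | h
        · rw [h]; simp
        · obtain ⟨k, hk⟩ : ∃ k, m - δ = k + 1 := ⟨m - δ - 1, by omega⟩
          rw [hk, coeff_X_mul, coeff_derivative]
          push_cast
          ring
      rw [h4]
      have h5 : ((m - δ : ℕ) : ℂ) = (m : ℂ) - (δ : ℂ) := by
        rw [Nat.cast_sub hδm]
      rw [h5]
      ring
    rw [h2]
    refine mul_ne_zero (neg_ne_zero.mpr ?_) hD
    exact_mod_cast (by omega : δ ≠ 0)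
  have hN0 : N ≠ 0 := by
    intro h
    rw [h] at hNcoeff
    simp at hNcoeff
  have hNdeg : N.natDegree ≤ m - δ := by
    rw [hND]
    refine (natDegree_sub_le _ _).trans (max_le ?_ ?_)
    · by_cases hd : derivative D = 0
      · rw [hd, mul_zero, natDegree_zero]; omega
      · have hDpos : 0 < D.natDegree := by
          by_contra hcon
          apply hd
          have : D.natDegree = 0 := by omega
          exact derivative_of_natDegree_zero this
        have h6 : (derivative D).natDegree < D.natDegree := natDegree_derivative_lt (by omega)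
        have h7 : ((1 + X : ℂ[X]) * derivative D).natDegree ≤ (1 + X : ℂ[X]).natDegree + (derivative D).natDegree :=
          natDegree_mul_le
        have h8 : (1 + X : ℂ[X]).natDegree = 1 := by
          have : (1 + X : ℂ[X]) = X + C 1 := by simp [add_comm]
          rw [this, natDegree_X_add_C]
        omega
    · refine (natDegree_C_mul_le _ _).trans hD'
  -- the repeated part
  set R := P.roots.toFinset with hR
  set g : ℂ[X] := ∏ r ∈ R, (X - C r) ^ (P.rootMultiplicity r - 1) with hg
  have hdiv : ∀ r ∈ R, (X - C r) ^ (P.rootMultiplicity r - 1) ∣ N := by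
    intro r hr
    have h1 : (X - C r) ^ (P.rootMultiplicity r - 1) ∣ P :=
      (pow_dvd_pow _ (Nat.sub_le _ _)).trans (pow_rootMultiplicity_dvd P r)
    have h2 : (X - C r) ^ (P.rootMultiplicity r - 1) ∣ derivative P :=
      pow_sub_one_dvd_derivative_of_pow_dvd (pow_rootMultiplicity_dvd P r)
    exact dvd_sub (h2.mul_left _) (h1.mul_left _)
  have hgN : g ∣ N := by
    refine Finset.prod_dvd_of_coprime ?_ hdiv
    intro a _ b _ hab
    exact (isCoprime_X_sub_C_of_isUnit_sub (sub_ne_zero.mpr hab).isUnit).pow
  have hgdeg : g.natDegree ≤ m - δ := (natDegree_le_of_dvd hgN hN0).trans hNdeg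
  have hgdeg' : g.natDegree = ∑ r ∈ R, (P.rootMultiplicity r - 1) := by
    rw [hg, natDegree_prod]
    · refine Finset.sum_congr rfl fun r _ => ?_
      rw [natDegree_pow, natDegree_X_sub_C, mul_one]
    · intro r _
      exact pow_ne_zero _ (X_sub_C_ne_zero r)
  have hcard : ∑ r ∈ R, P.rootMultiplicity r = m := by
    have h1 : P.roots.card = m := by
      rw [← hPdeg]
      exact IsAlgClosed.card_roots_eq_natDegree
    rw [← h1, ← Multiset.toFinset_sum_count_eq]
    refine Finset.sum_congr rfl fun r _ => ?_
    rw [count_roots]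
  have hsum : ∑ r ∈ R, (P.rootMultiplicity r - 1) + R.card = m := by
    rw [← hcard, Finset.card_eq_sum_ones, ← Finset.sum_add_distrib]
    refine Finset.sum_congr rfl fun r hr => ?_
    have : 0 < P.rootMultiplicity r := by
      rw [rootMultiplicity_pos hP0]
      rw [hR, Multiset.mem_toFinset, mem_roots hP0] at hr
      exact hr
    omega
  omega

end Q133.EdgeCover
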