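import Mathlib

set_option autoImplicit false

/-!
# A kernel-checkable refutation format for 4-colourability

The neighbourhoods are bit masks. A refutation is a preorder stream of bytes: `2 v` is a leaf at
which all four colours are forbidden for `v`; `2 v + 1` branches on the colour of `v` (children
only for the colours which are not forbidden).
-/

namespace Q133.FourCol

/-- Check a refutation; returns the rest of the stream. -/
def check (nb : ℕ → ℕ) : ℕ → ℕ → ℕ → ℕ → ℕ → ℕ → Option ℕ
  | 0, _, _, _, _, _ => none
  | k + 1, f0, f1, f2, f3, s =>
    let v := s % 256 / 2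
    let t := s / 256
    if s % 2 = 0 then
      if f0.testBit v && f1.testBit v && f2.testBit v && f3.testBit v then some t else none
    else
      let m := nb v
      match (if f0.testBit v then some t else check nb k (f0 ||| m) f1 f2 f3 t) with
      | none => none
      | some t =>
        match (if f1.testBit v then some t else check nb k f0 (f1 ||| m) f2 f3 t) with
        | none => none
        | some t =>
          match (if f2.testBit v then some t else check nb k f0 f1 (f2 ||| m) f3 t) with
          | none => none
          | some t => if f3.testBit v then some t else check nb k f0 f1 f2 (f3 ||| m) t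

theorem upd (nb : ℕ → ℕ) (col : ℕ → Fin 4)
    (hcol : ∀ i j, (nb i).testBit j = true → col i ≠ col j) (f v : ℕ) (c : Fin 4)
    (hf : ∀ j, f.testBit j = true → col j ≠ c) (hv : col v = c) :
    ∀ j, (f ||| nb v).testBit j = true → col j ≠ c := by
  intro j hj
  rw [Nat.testBit_or, Bool.or_eq_true] at hj
  rcases hj with hj | hj
  · exact hf j hj
  · intro h
    exact hcol v j hj (hv.trans h.symm)

theorem sound (nb : ℕ → ℕ) (col : ℕ → Fin 4)
    (hcol : ∀ i j, (nb i).testBit j = true → col i ≠ col j) :
    ∀ (k f0 f1 f2 f3 s t : ℕ), check nb k f0 f1 f2 f3 s = some t →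
      (∀ j, f0.testBit j = true → col j ≠ 0) → (∀ j, f1.testBit j = true → col j ≠ 1) →
      (∀ j, f2.testBit j = true → col j ≠ 2) → (∀ j, f3.testBit j = true → col j ≠ 3) → False := by
  intro k
  induction k with
  | zero => intro f0 f1 f2 f3 s t h; simp [check] at h
  | succ k ih =>
    intro f0 f1 f2 f3 s t h h0 h1 h2 h3
    have hc : col (s % 256 / 2) = 0 ∨ col (s % 256 / 2) = 1 ∨ col (s % 256 / 2) = 2 ∨
        col (s % 256 / 2) = 3 := by
      generalize col (s % 256 / 2) = c
      revert c; decide
    rw [check] at h
    simp only at h
    split at h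
    · split at h
      · rename_i hb
        simp only [Bool.and_eq_true] at hb
        obtain ⟨⟨⟨hb0, hb1⟩, hb2⟩, hb3⟩ := hb
        rcases hc with hc | hc | hc | hc
        · exact h0 _ hb0 hc
        · exact h1 _ hb1 hc
        · exact h2 _ hb2 hc
        · exact h3 _ hb3 hc
      · simp at h
    · split at h
      · simp at h
      · rename_i t1 ht1
        split at h
        · simp at h
        · rename_i t2 ht2
          split at h
          · simp at h
          · rename_i t3 ht3
            rcases hc with hc | hc | hc | hc
            · by_cases hb : f0.testBit (s % 256 / 2) = true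
              · exact h0 _ hb hc
              · rw [if_neg hb] at ht1
                exact ih _ _ _ _ _ _ ht1 (upd nb col hcol f0 _ 0 h0 hc) h1 h2 h3
            · by_cases hb : f1.testBit (s % 256 / 2) = true
              · exact h1 _ hb hc
              · rw [if_neg hb] at ht2
                exact ih _ _ _ _ _ _ ht2 h0 (upd nb col hcol f1 _ 1 h1 hc) h2 h3
            · by_cases hb : f2.testBit (s % 256 / 2) = true
              · exact h2 _ hb hc
              · rw [if_neg hb] at ht3
                exact ih _ _ _ _ _ _ ht3 h0 h1 (upd nb col hcol f2 _ 2 h2 hc) h3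
            · by_cases hb : f3.testBit (s % 256 / 2) = true
              · exact h3 _ hb hc
              · rw [if_neg hb] at h
                exact ih _ _ _ _ _ _ h h0 h1 h2 (upd nb col hcol f3 _ 3 h3 hc)

theorem exists_perm (a b c : Fin 4) (h1 : a ≠ b) (h2 : a ≠ c) (h3 : b ≠ c) :
    ∃ σ : Equiv.Perm (Fin 4), σ a = 0 ∧ σ b = 1 ∧ σ c = 2 := by
  revert a b c
  decide

/-- If a refutation starting from a triangle `a b c` is accepted, there is no proper colouring
with four colours. -/
theorem refute (nb : ℕ → ℕ) (k s t a b c : ℕ)
    (hab : (nb a).testBit b = true) (hac : (nb a).testBit c = true)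
    (hbc : (nb b).testBit c = true)
    (h : check nb k (nb a) (nb b) (nb c) 0 s = some t) (col : ℕ → Fin 4)
    (hcol : ∀ i j, (nb i).testBit j = true → col i ≠ col j) : False := by
  obtain ⟨σ, ha, hb, hc⟩ := exists_perm (col a) (col b) (col c) (hcol _ _ hab) (hcol _ _ hac)
    (hcol _ _ hbc)
  have hcol' : ∀ i j, (nb i).testBit j = true → σ (col i) ≠ σ (col j) := fun i j hij h' =>
    hcol i j hij (σ.injective h')
  refine sound nb (fun i => σ (col i)) hcol' k _ _ _ _ s t h ?_ ?_ ?_ ?_
  · intro j hj h'
    exact hcol' a j hj (ha.trans h'.symm)
  · intro j hj h'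
    exact hcol' b j hj (hb.trans h'.symm)
  · intro j hj h'
    exact hcol' c j hj (hc.trans h'.symm)
  · intro j hj
    simp at hj

end Q133.FourCol
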