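import Mathlib

set_option autoImplicit false

namespace Q133.EPG

/-- The planar square grid: the vertex set is `ℤ × ℤ`, two points being adjacent when their
Euclidean distance is `1`. -/
def grid : SimpleGraph (ℤ × ℤ) where
  Adj p q := (p.1 = q.1 ∧ |p.2 - q.2| = 1) ∨ (p.2 = q.2 ∧ |p.1 - q.1| = 1)
  symm := ⟨fun p q h => by
    rcases h with ⟨h1, h2⟩ | ⟨h1, h2⟩
    · exact Or.inl ⟨h1.symm, by rw [abs_sub_comm]; exact h2⟩
    · exact Or.inr ⟨h1.symm, by rw [abs_sub_comm]; exact h2⟩⟩
  loopless := ⟨fun p h => by simp at h⟩

/-- The number of bends of a walk in the grid: the number of its interior vertices at which it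
switches between a horizontal edge (both ends have the same second coordinate) and a vertical
edge. -/
def bends : {u v : ℤ × ℤ} → grid.Walk u v → ℕ
  | _, _, .nil => 0
  | _, _, .cons _ .nil => 0
  | _, _, .cons (u := a) (v := b) _ (.cons (v := c) h p) =>
      (if (a.2 = b.2 ↔ b.2 = c.2) then 0 else 1) + bends (.cons h p)

/-- A grid path: a path in the grid. -/
structure GridPath where
  /-- first point -/
  start : ℤ × ℤ
  /-- last point -/
  finish : ℤ × ℤ
  /-- the underlying walk -/
  walk : grid.Walk start finish
  /-- no point is repeated -/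
  isPath : walk.IsPath

/-- `P` is a `k`-bend EPG representation of `G`: distinct vertices are adjacent if and only if their
grid paths have at least one grid edge in common, and every path has at most `k` bends. -/
def IsBendRep {V : Type} (G : SimpleGraph V) (k : ℕ) (P : V → GridPath) : Prop :=
  (∀ u v : V, u ≠ v → (G.Adj u v ↔ ∃ e, e ∈ (P u).walk.edges ∧ e ∈ (P v).walk.edges)) ∧
    ∀ v : V, bends (P v).walk ≤ k

end Q133.EPG
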