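import Mathlib
import Pool.Agent.Q133.GridDefs

set_option autoImplicit false
set_option linter.unusedSectionVars false

namespace Q133.EPG

/-- the unit edge with orientation `o` (`true` = horizontal), level `l`, position `x` -/
def edge (o : Bool) (l x : ℤ) : Sym2 (ℤ × ℤ) :=
  if o then s((x, l), (x + 1, l)) else s((l, x), (l, x + 1))

/-- A segment: orientation, level, and half-open range of positions. -/
structure Seg where
  o : Bool
  l : ℤ
  lo : ℤ
  hi : ℤ

/-- the unit edges of a segment -/
def Seg.edges (s : Seg) : Set (Sym2 (ℤ × ℤ)) := {e | ∃ x, s.lo ≤ x ∧ x < s.hi ∧ e = edge s.o s.l x}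

theorem edge_inj {o o' : Bool} {l l' x x' : ℤ} (h : edge o l x = edge o' l' x') :
    o = o' ∧ l = l' ∧ x = x' := by
  unfold edge at h
  rcases o <;> rcases o' <;> simp at h ⊢ <;> omega

/-- every grid edge is of this form -/
theorem exists_edge {p q : ℤ × ℤ} (h : grid.Adj p q) :
    ∃ l x, s(p, q) = edge (decide (p.2 = q.2)) l x ∧
      (p.2 = q.2 → l = p.2 ∧ x ≤ p.1 ∧ p.1 ≤ x + 1 ∧ x ≤ q.1 ∧ q.1 ≤ x + 1) ∧
      (p.2 ≠ q.2 → l = p.1 ∧ x ≤ p.2 ∧ p.2 ≤ x + 1 ∧ x ≤ q.2 ∧ q.2 ≤ x + 1 ∧ p.1 = q.1) := by
  obtain ⟨a, b⟩ := p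
  obtain ⟨c, d⟩ := q
  rcases h with ⟨h1, h2⟩ | ⟨h1, h2⟩
  · simp only at h1 h2
    subst h1
    have hbd : b ≠ d := by rintro rfl; simp at h2
    simp only [hbd, decide_false, edge]
    rcases abs_eq (zero_le_one) |>.mp h2 with h3 | h3
    · refine ⟨a, d, ?_, by tauto, fun _ => ⟨rfl, by omega, by omega, by omega, by omega, trivial⟩⟩
      have : b = d + 1 := by omega
      rw [this, Sym2.eq_swap]; rfl
    · refine ⟨a, b, ?_, by tauto, fun _ => ⟨rfl, by omega, by omega, by omega, by omega, trivial⟩⟩
      have : d = b + 1 := by omega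
      rw [this]; rfl
  · simp only at h1 h2
    subst h1
    simp only [decide_true, edge]
    rcases abs_eq (zero_le_one) |>.mp h2 with h3 | h3
    · refine ⟨b, c, ?_, fun _ => ⟨rfl, by omega, by omega, by omega, by omega⟩, by tauto⟩
      have : a = c + 1 := by omega
      rw [this, Sym2.eq_swap]; rfl
    · refine ⟨b, a, ?_, fun _ => ⟨rfl, by omega, by omega, by omega, by omega⟩, by tauto⟩
      have : c = a + 1 := by omega
      rw [this]; rfl

/-- Every walk with `b` bends is a union of at most `b + 1` segments. The first segment contains the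
first edge. -/
theorem exists_segs {a b : ℤ × ℤ} (h : grid.Adj a b) {c : ℤ × ℤ} (p : grid.Walk b c) :
    ∃ (s : Seg) (L : List Seg), L.length ≤ bends (SimpleGraph.Walk.cons h p) ∧
      s(a, b) ∈ s.edges ∧ s.lo < s.hi ∧ (∀ t ∈ L, t.lo < t.hi) ∧
      {e | e ∈ (SimpleGraph.Walk.cons h p).edges} = s.edges ∪ ⋃ t ∈ L, t.edges := by
  induction p generalizing a with
  | @nil b =>
    obtain ⟨l, x, h1, _⟩ := exists_edge h
    refine ⟨⟨decide (a.2 = b.2), l, x, x + 1⟩, [], by simp [bends], ?_, by simp, by simp, ?_⟩
    · exact ⟨x, le_refl _, by simp, h1⟩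
    · ext e
      simp only [SimpleGraph.Walk.edges_cons, SimpleGraph.Walk.edges_nil, List.mem_singleton,
        Set.mem_setOf_eq, List.not_mem_nil, Set.iUnion_of_empty, Set.iUnion_empty, Set.union_empty,
        Seg.edges]
      constructor
      · rintro rfl; exact ⟨x, le_refl _, by simp, h1⟩
      · rintro ⟨y, hy1, hy2, hy3⟩
        have : y = x := by omega
        rw [hy3, this, h1]
  | @cons b c d h' p ih =>
    obtain ⟨s, L, hL, hs, hlt, hLt, hE⟩ := ih h'
    obtain ⟨l, x, h1, h2, h3⟩ := exists_edge h
    obtain ⟨l', x', h1', h2', h3'⟩ := exists_edge h'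
    by_cases hor : (a.2 = b.2 ↔ b.2 = c.2)
    · -- same orientation: extend the first segment
      obtain ⟨y, hy1, hy2, hy3⟩ := hs
      rw [h1'] at hy3
      obtain ⟨e1, e2, e3⟩ := edge_inj hy3
      have hdec : decide (a.2 = b.2) = decide (b.2 = c.2) := by rw [decide_eq_decide]; exact hor
      have hll : l = l' := by
        by_cases hab : a.2 = b.2
        · rw [(h2 hab).1, (h2' (hor.mp hab)).1, hab]
        · rw [(h3 hab).1, (h3' (fun hh => hab (hor.mpr hh))).1, (h3 hab).2.2.2.2.2]
      have hxx : x' - 1 ≤ x ∧ x ≤ x' + 1 := by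
        by_cases hab : a.2 = b.2
        · have g1 := h2 hab
          have g2 := h2' (hor.mp hab)
          omega
        · have g1 := h3 hab
          have g2 := h3' (fun hh => hab (hor.mpr hh))
          omega
      refine ⟨⟨s.o, s.l, min s.lo x, max s.hi (x + 1)⟩, L, ?_, ?_, ?_, hLt, ?_⟩
      · rw [bends, if_pos hor, zero_add]; exact hL
      · refine ⟨x, min_le_right _ _, lt_of_lt_of_le (by omega) (le_max_right _ _), ?_⟩
        rw [h1, hdec, e1, hll, e2]
      · exact lt_of_le_of_lt (min_le_left _ _) (lt_of_lt_of_le hlt (le_max_left _ _))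
      · ext e
        have hE' := Set.ext_iff.mp hE e
        simp only [Set.mem_setOf_eq] at hE'
        rw [Set.mem_setOf_eq, SimpleGraph.Walk.edges_cons, List.mem_cons, hE']
        simp only [Set.mem_union, Seg.edges, Set.mem_setOf_eq]
        constructor
        · rintro (h4 | ⟨z, hz1, hz2, hz3⟩ | h4)
          · left
            refine ⟨x, min_le_right _ _, lt_of_lt_of_le (by omega) (le_max_right _ _), ?_⟩
            rw [h4, h1, hdec, e1, hll, e2]
          · left
            exact ⟨z, (min_le_left _ _).trans hz1, hz2.trans_le (le_max_left _ _), hz3⟩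
          · right; exact h4
        · rintro (⟨z, hz1, hz2, hz3⟩ | h4)
          · by_cases hzx : z = x
            · left
              rw [hz3, h1, hdec, e1, hll, e2, hzx]
            · right; left
              refine ⟨z, ?_, ?_, hz3⟩
              · rcases min_le_iff.mp hz1 with h5 | h5
                · exact h5
                · rcases lt_max_iff.mp hz2 with h6 | h6 <;> omega
              · rcases lt_max_iff.mp hz2 with h5 | h5
                · exact h5
                · rcases min_le_iff.mp hz1 with h6 | h6 <;> omega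
          · right; right; exact h4
    · refine ⟨⟨decide (a.2 = b.2), l, x, x + 1⟩, s :: L, ?_, ?_, by simp, ?_, ?_⟩
      · rw [bends, if_neg hor, List.length_cons, add_comm]
        omega
      · exact ⟨x, le_refl _, by simp, h1⟩
      · intro t ht
        rw [List.mem_cons] at ht
        rcases ht with rfl | ht
        · exact hlt
        · exact hLt t ht
      · ext e
        have hE' := Set.ext_iff.mp hE e
        simp only [Set.mem_setOf_eq] at hE'
        rw [Set.mem_setOf_eq, SimpleGraph.Walk.edges_cons, List.mem_cons, hE']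
        simp only [Set.mem_union, Set.mem_iUnion, List.mem_cons, exists_prop]
        constructor
        · rintro (h4 | h4 | ⟨t, ht1, ht2⟩)
          · left
            exact ⟨x, le_refl _, by simp, by rw [h4, h1]⟩
          · right; exact ⟨s, Or.inl rfl, h4⟩
          · right; exact ⟨t, Or.inr ht1, ht2⟩
        · rintro (⟨z, hz1, hz2, hz3⟩ | ⟨t, (rfl | ht1), ht2⟩)
          · left
            have : z = x := by simp only at hz1 hz2; omega
            rw [hz3, this, h1]
          · right; left; exact ht2
          · right; right; exact ⟨t, ht1, ht2⟩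

end Q133.EPG
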