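import Mathlib
import Pool.Agent.Q133.GridPath

set_option autoImplicit false
set_option linter.unusedSectionVars false

namespace Q133.EPG

open Classical

/-- a walk with at most `k` bends is a union of at most `k + 1` segments -/
theorem exists_fun {a b : ℤ × ℤ} (p : grid.Walk a b) (k : ℕ) (hk : bends p ≤ k) :
    ∃ f : Fin (k + 1) → Option Seg, (∀ i s, f i = some s → s.lo < s.hi) ∧
      ∀ e, e ∈ p.edges ↔ ∃ i s, f i = some s ∧ e ∈ s.edges := by
  cases p with
  | nil =>
    refine ⟨fun _ => none, by simp, by simp⟩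
  | cons h p =>
    obtain ⟨s, L, hL, _, hlt, hLt, hE⟩ := exists_segs h p
    refine ⟨fun i => (s :: L)[(i : ℕ)]?, ?_, ?_⟩
    · intro i t ht
      have hmem : t ∈ s :: L := List.mem_of_getElem? ht
      rw [List.mem_cons] at hmem
      rcases hmem with rfl | hmem
      · exact hlt
      · exact hLt t hmem
    · intro e
      have h1 := Set.ext_iff.mp hE e
      simp only [Set.mem_setOf_eq, Set.mem_union, Set.mem_iUnion, exists_prop] at h1
      rw [h1]
      constructor
      · rintro (h2 | ⟨t, ht, h2⟩)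
        · exact ⟨0, s, by simp, h2⟩
        · obtain ⟨j, hj⟩ := List.getElem?_of_mem ht
          have hjl : j < L.length := by
            by_contra hcon
            rw [List.getElem?_eq_none (by omega)] at hj
            exact absurd hj (by simp)
          refine ⟨⟨j + 1, by omega⟩, t, ?_, h2⟩
          simpa using hj
      · rintro ⟨i, t, ht, h2⟩
        have hmem : t ∈ s :: L := List.mem_of_getElem? ht
        rw [List.mem_cons] at hmem
        rcases hmem with rfl | hmem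
        · exact Or.inl h2
        · exact Or.inr ⟨t, hmem, h2⟩

theorem meet_iff {s t : Seg} (hs : s.lo < s.hi) (ht : t.lo < t.hi) :
    (∃ e, e ∈ s.edges ∧ e ∈ t.edges) ↔ (s.o = t.o ∧ s.l = t.l ∧ s.lo < t.hi ∧ t.lo < s.hi) := by
  constructor
  · rintro ⟨e, ⟨x, hx1, hx2, hx3⟩, ⟨y, hy1, hy2, hy3⟩⟩
    rw [hx3] at hy3
    obtain ⟨h1, h2, h3⟩ := edge_inj hy3
    exact ⟨h1, h2, by omega, by omega⟩
  · rintro ⟨h1, h2, h3, h4⟩
    refine ⟨edge s.o s.l (max s.lo t.lo), ⟨_, le_max_left _ _, max_lt hs h4, rfl⟩,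
      ⟨_, le_max_right _ _, max_lt h3 ht, by rw [h1, h2]⟩⟩

/-- code of a segment relative to a finite family of segments -/
noncomputable def code (T : Finset Seg) (s : Seg) : Option T × Fin (T.card + 1) × Fin (T.card + 1) :=
  (if h : ∃ t : T, (t : Seg).o = s.o ∧ (t : Seg).l = s.l then some h.choose else none,
   ⟨(T.filter (fun t => t.lo < s.hi)).card, Nat.lt_succ_of_le (Finset.card_le_card (Finset.filter_subset _ _))⟩,
   ⟨(T.filter (fun t => s.lo < t.hi)).card, Nat.lt_succ_of_le (Finset.card_le_card (Finset.filter_subset _ _))⟩)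

theorem code_eq {T : Finset Seg} (hT : ∀ t ∈ T, t.lo < t.hi) {s s' : Seg} (hs : s.lo < s.hi)
    (hs' : s'.lo < s'.hi) (h : code T s = code T s') (t : Seg) (ht : t ∈ T)
    (hm : ∃ e, e ∈ s.edges ∧ e ∈ t.edges) : ∃ e, e ∈ s'.edges ∧ e ∈ t.edges := by
  rw [meet_iff hs (hT t ht)] at hm
  rw [meet_iff hs' (hT t ht)]
  obtain ⟨h1, h2, h3, h4⟩ := hm
  simp only [code, Prod.mk.injEq, Fin.mk.injEq] at h
  obtain ⟨c1, c2, c3⟩ := h
  have hex : ∃ t : T, (t : Seg).o = s.o ∧ (t : Seg).l = s.l := ⟨⟨t, ht⟩, h1.symm, h2.symm⟩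
  rw [dif_pos hex] at c1
  have hex' : ∃ t : T, (t : Seg).o = s'.o ∧ (t : Seg).l = s'.l := by
    by_contra hcon
    rw [dif_neg hcon] at c1
    exact absurd c1 (by simp)
  rw [dif_pos hex', Option.some.injEq] at c1
  have g1 := hex.choose_spec
  have g2 := hex'.choose_spec
  rw [← c1] at g2
  refine ⟨?_, ?_, ?_, ?_⟩
  · rw [← h1, ← g1.1, g2.1]
  · rw [← h2, ← g1.2, g2.2]
  · -- chain argument
    rcases le_total s'.lo s.lo with h5 | h5
    · exact lt_of_le_of_lt h5 h3
    · have hsub : T.filter (fun t => s'.lo < t.hi) ⊆ T.filter (fun t => s.lo < t.hi) := by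
        intro u hu
        rw [Finset.mem_filter] at hu ⊢
        exact ⟨hu.1, lt_of_le_of_lt h5 hu.2⟩
      have heq := Finset.eq_of_subset_of_card_le hsub c3.le
      have hmem : t ∈ T.filter (fun t => s.lo < t.hi) := Finset.mem_filter.mpr ⟨ht, h3⟩
      rw [← heq] at hmem
      exact (Finset.mem_filter.mp hmem).2
  · rcases le_total s.hi s'.hi with h5 | h5
    · exact lt_of_lt_of_le h4 h5
    · have hsub : T.filter (fun t => t.lo < s'.hi) ⊆ T.filter (fun t => t.lo < s.hi) := by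
        intro u hu
        rw [Finset.mem_filter] at hu ⊢
        exact ⟨hu.1, lt_of_lt_of_le hu.2 h5⟩
      have heq := Finset.eq_of_subset_of_card_le hsub c2.le
      have hmem : t ∈ T.filter (fun t => t.lo < s.hi) := Finset.mem_filter.mpr ⟨ht, h4⟩
      rw [← heq] at hmem
      exact (Finset.mem_filter.mp hmem).2

/-- The counting bound: if the paths `B s` (`s ⊆ Fin m`) have pairwise different traces on the paths
`A a` (`a : Fin m`), then `2^m` is at most polynomial in `m`. -/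
theorem count_bound (m k : ℕ) (A : Fin m → Set (Sym2 (ℤ × ℤ))) (B : Finset (Fin m) → Set (Sym2 (ℤ × ℤ)))
    (hA : ∀ a, ∃ f : Fin (k + 1) → Option Seg, (∀ i s, f i = some s → s.lo < s.hi) ∧
      ∀ e, e ∈ A a ↔ ∃ i s, f i = some s ∧ e ∈ s.edges)
    (hB : ∀ S, ∃ f : Fin (k + 1) → Option Seg, (∀ i s, f i = some s → s.lo < s.hi) ∧
      ∀ e, e ∈ B S ↔ ∃ i s, f i = some s ∧ e ∈ s.edges)
    (hAB : ∀ a S, a ∈ S ↔ ∃ e, e ∈ A a ∧ e ∈ B S) :
    2 ^ m ≤ ((m * (k + 1) + 1) ^ 3 + 1) ^ (k + 1) := by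
  choose f hf1 hf2 using hA
  choose g hg1 hg2 using hB
  -- all segments of the family A
  set T : Finset Seg := (Finset.univ : Finset (Fin m × Fin (k + 1))).biUnion
    (fun q => (f q.1 q.2).toFinset) with hT
  have hTmem : ∀ t, t ∈ T ↔ ∃ a i, f a i = some t := by
    intro t
    simp only [hT, Finset.mem_biUnion, Finset.mem_univ, true_and, Option.mem_toFinset, Option.mem_def,
      Prod.exists]
  have hTlt : ∀ t ∈ T, t.lo < t.hi := by
    intro t ht
    obtain ⟨a, i, h⟩ := (hTmem t).mp ht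
    exact hf1 a i t h
  have hTcard : T.card ≤ m * (k + 1) := by
    calc T.card ≤ ∑ q : Fin m × Fin (k + 1), (f q.1 q.2).toFinset.card := Finset.card_biUnion_le
      _ ≤ ∑ q : Fin m × Fin (k + 1), 1 := by
          refine Finset.sum_le_sum fun q _ => ?_
          rcases f q.1 q.2 with _ | s <;> simp
      _ = m * (k + 1) := by simp
  -- code map
  let F : Finset (Fin m) → (Fin (k + 1) → Option (Option T × Fin (T.card + 1) × Fin (T.card + 1))) :=
    fun S i => (g S i).map (code T)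
  have hFinj : Function.Injective F := by
    intro S S' h
    have key : ∀ S S', F S = F S' → ∀ a, a ∈ S → a ∈ S' := by
      intro S S' h a ha
      rw [hAB] at ha ⊢
      obtain ⟨e, he1, he2⟩ := ha
      obtain ⟨i, s, hi, hs⟩ := (hf2 a e).mp he1
      obtain ⟨j, t, hj, ht⟩ := (hg2 S e).mp he2
      have hj' := congrFun h j
      simp only [F, hj, Option.map_some] at hj'
      rcases hgj : g S' j with _ | t'
      · rw [hgj] at hj'; simp at hj'
      · rw [hgj] at hj'
        simp only [Option.map_some, Option.some.injEq] at hj'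
        obtain ⟨e', he'1, he'2⟩ := code_eq hTlt (hg1 S j t hj) (hg1 S' j t' hgj) hj' s
          ((hTmem s).mpr ⟨a, i, hi⟩) ⟨e, ht, hs⟩
        exact ⟨e', (hf2 a e').mpr ⟨i, s, hi, he'2⟩, (hg2 S' e').mpr ⟨j, t', hgj, he'1⟩⟩
    exact Finset.Subset.antisymm (fun a ha => key S S' h a ha) (fun a ha => key S' S h.symm a ha)
  have hcard := Fintype.card_le_of_injective F hFinj
  rw [Fintype.card_finset, Fintype.card_fin, Fintype.card_fun, Fintype.card_fin, Fintype.card_option,
    Fintype.card_prod, Fintype.card_prod, Fintype.card_fin, Fintype.card_option, Fintype.card_coe] at hcard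
  refine hcard.trans (Nat.pow_le_pow_left ?_ _)
  have : (T.card + 1) * ((T.card + 1) * (T.card + 1)) = (T.card + 1) ^ 3 := by ring
  rw [this]
  gcongr

theorem exists_large (k : ℕ) : ∃ m : ℕ, ((m * (k + 1) + 1) ^ 3 + 1) ^ (k + 1) < 2 ^ m := by
  have h1 := tendsto_pow_const_div_const_pow_of_one_lt (3 * (k + 1)) (one_lt_two : (1 : ℝ) < 2)
  have hC : (0 : ℝ) < 1 / (2 * (k + 2) ^ 3) ^ (k + 1) := by positivity
  have h2 := (h1.eventually (gt_mem_nhds hC)).and (Filter.eventually_ge_atTop 1)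
  obtain ⟨m, hm1, hm2⟩ := h2.exists
  refine ⟨m, ?_⟩
  have hm2' : (1 : ℝ) ≤ m := by exact_mod_cast hm2
  rw [div_lt_div_iff₀ (by positivity) (by positivity), one_mul] at hm1
  have h3 : (((m * (k + 1) + 1) ^ 3 + 1 : ℕ) : ℝ) ≤ (2 * (k + 2) ^ 3) * (m : ℝ) ^ 3 := by
    push_cast
    have h4 : (m : ℝ) * (k + 1) + 1 ≤ m * (k + 2) := by nlinarith
    have h5 : ((m : ℝ) * (k + 1) + 1) ^ 3 ≤ (m * (k + 2)) ^ 3 := by gcongr
    have h6 : (1 : ℝ) ≤ (m * (k + 2)) ^ 3 := by
      apply one_le_pow₀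
      have : (0 : ℝ) ≤ k := Nat.cast_nonneg k
      nlinarith
    calc _ ≤ ((m : ℝ) * (k + 2)) ^ 3 + (m * (k + 2)) ^ 3 := add_le_add h5 h6
      _ = _ := by ring
  have h7 : ((((m * (k + 1) + 1) ^ 3 + 1) ^ (k + 1) : ℕ) : ℝ) < ((2 ^ m : ℕ) : ℝ) := by
    push_cast at h3 ⊢
    calc _ ≤ ((2 * ((k : ℝ) + 2) ^ 3) * (m : ℝ) ^ 3) ^ (k + 1) := by gcongr
      _ = (m : ℝ) ^ (3 * (k + 1)) * (2 * ((k : ℝ) + 2) ^ 3) ^ (k + 1) := by
          rw [mul_pow, ← pow_mul, mul_comm]
      _ < _ := hm1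
  exact_mod_cast h7

end Q133.EPG
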