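import Mathlib

/-! Combinatorial core of the half-integrality theorem for triangle decompositions: laminar systems
of triples. -/

set_option autoImplicit false

namespace Pool.Agent.Q133.HT

open Finset

/-- integral -/
def IsZ (q : ℚ) : Prop := ∃ k : ℤ, q = k
/-- half-integral -/
def IsH (q : ℚ) : Prop := ∃ k : ℤ, 2 * q = k

theorem IsZ.add {p q : ℚ} (hp : IsZ p) (hq : IsZ q) : IsZ (p + q) := by
  obtain ⟨a, rfl⟩ := hp
  obtain ⟨b, rfl⟩ := hq
  exact ⟨a + b, by push_cast; ring⟩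
theorem IsZ.sub {p q : ℚ} (hp : IsZ p) (hq : IsZ q) : IsZ (p - q) := by
  obtain ⟨a, rfl⟩ := hp
  obtain ⟨b, rfl⟩ := hq
  exact ⟨a - b, by push_cast; ring⟩
theorem IsZ.neg {p : ℚ} (hp : IsZ p) : IsZ (-p) := by
  obtain ⟨a, rfl⟩ := hp
  exact ⟨-a, by push_cast; ring⟩
theorem IsH.add {p q : ℚ} (hp : IsH p) (hq : IsH q) : IsH (p + q) := by
  obtain ⟨a, ha⟩ := hp
  obtain ⟨b, hb⟩ := hq
  exact ⟨a + b, by push_cast; linarith⟩
theorem IsH.sub {p q : ℚ} (hp : IsH p) (hq : IsH q) : IsH (p - q) := by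
  obtain ⟨a, ha⟩ := hp
  obtain ⟨b, hb⟩ := hq
  exact ⟨a - b, by push_cast; linarith⟩
theorem IsH.neg {p : ℚ} (hp : IsH p) : IsH (-p) := by
  obtain ⟨a, ha⟩ := hp
  exact ⟨-a, by push_cast; linarith⟩
theorem IsZ.toH {p : ℚ} (hp : IsZ p) : IsH p := by
  obtain ⟨a, rfl⟩ := hp
  exact ⟨2 * a, by push_cast; ring⟩
theorem IsZ_zero : IsZ 0 := ⟨0, by simp⟩
theorem IsH_zero : IsH 0 := ⟨0, by simp⟩

theorem IsH.sum {ι : Type} {s : Finset ι} {f : ι → ℚ} (h : ∀ i ∈ s, IsH (f i)) :
    IsH (∑ i ∈ s, f i) := by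
  classical
  induction s using Finset.induction_on with
  | empty => simpa using IsH_zero
  | insert a s ha ih =>
    rw [Finset.sum_insert ha]
    exact (h a (Finset.mem_insert_self a s)).add
      (ih fun i hi => h i (Finset.mem_insert_of_mem hi))

set_option linter.unusedSectionVars false

variable {V : Type} [Fintype V] [DecidableEq V]

/-- the structure of the triangles of a plane graph: `lt` is strict inclusion of the closed discs,
`side e T` tells on which side of `e` the triangle `T` lies -/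
structure Nest (T : Finset (Finset V)) (lt : Finset V → Finset V → Prop)
    (side : Finset V → Finset V → Prop) : Prop where
  card3 : ∀ t ∈ T, t.card = 3
  irrefl : ∀ t, ¬ lt t t
  trans : ∀ a b c, lt a b → lt b c → lt a c
  up : ∀ t ∈ T, ∀ f ∈ T, ∀ g ∈ T, lt f t → ∀ e : Finset V, e.card = 2 → e ⊆ f → ¬ e ⊆ t → e ⊆ g →
    lt g t
  mid : ∀ t ∈ T, ∀ f ∈ T, ∀ g ∈ T, (g = f ∨ lt g f) → lt f t → ∀ e : Finset V, e.card = 2 →
    e ⊆ g → e ⊆ t → e ⊆ f
  comp : ∀ f ∈ T, ∀ g ∈ T, ∀ e : Finset V, e.card = 2 → e ⊆ f → e ⊆ g → (side e f ↔ side e g) →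
    f = g ∨ lt f g ∨ lt g f
  sideInh : ∀ f ∈ T, ∀ g ∈ T, ∀ e : Finset V, e.card = 2 → e ⊆ f → e ⊆ g → lt f g →
    (side e f ↔ side e g)

open Classical in
/-- maximal elements of `I` -/
noncomputable def Mx (lt : Finset V → Finset V → Prop) (I : Finset (Finset V)) :
    Finset (Finset V) := I.filter fun f => ∀ g ∈ I, ¬ lt f g

open Classical in
/-- sum of `x` over the triangles below or equal to `f` which contain `e` -/
noncomputable def bb (T : Finset (Finset V)) (lt : Finset V → Finset V → Prop) (x : Finset V → ℚ)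
    (e f : Finset V) : ℚ := ∑ g ∈ T.filter (fun g => (g = f ∨ lt g f) ∧ e ⊆ g), x g

open Classical in
/-- sum of `x` over the triangles strictly below `f` which contain `e` -/
noncomputable def aa (T : Finset (Finset V)) (lt : Finset V → Finset V → Prop) (x : Finset V → ℚ)
    (e f : Finset V) : ℚ := ∑ g ∈ T.filter (fun g => lt g f ∧ e ⊆ g), x g

theorem bb_eq {T : Finset (Finset V)} {lt : Finset V → Finset V → Prop}
    (hirr : ∀ t, ¬ lt t t) {x : Finset V → ℚ} {e f : Finset V} (hf : f ∈ T) (hef : e ⊆ f) :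
    bb T lt x e f = x f + aa T lt x e f := by
  classical
  unfold bb aa
  have : T.filter (fun g => (g = f ∨ lt g f) ∧ e ⊆ g) =
      insert f (T.filter (fun g => lt g f ∧ e ⊆ g)) := by
    ext g
    simp only [Finset.mem_filter, Finset.mem_insert]
    constructor
    · rintro ⟨h1, h2 | h2, h3⟩
      · exact Or.inl h2
      · exact Or.inr ⟨h1, h2, h3⟩
    · rintro (h | ⟨h1, h2, h3⟩)
      · subst h
        exact ⟨hf, Or.inl rfl, hef⟩
      · exact ⟨h1, Or.inr h2, h3⟩
  rw [this, Finset.sum_insert]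
  intro h
  rw [Finset.mem_filter] at h
  exact hirr f h.2.1

open Classical in
theorem exists_max {lt : Finset V → Finset V → Prop} (htr : ∀ a b c, lt a b → lt b c → lt a c)
    (hirr : ∀ t, ¬ lt t t) (I : Finset (Finset V)) :
    ∀ (n : ℕ) (g : Finset V), g ∈ I → (I.filter fun h => lt g h).card = n →
      ∃ f ∈ Mx lt I, g = f ∨ lt g f := by
  intro n
  induction n using Nat.strong_induction_on with
  | _ n ih =>
    intro g hg hn
    by_cases hmax : ∀ h ∈ I, ¬ lt g h
    · exact ⟨g, by simp only [Mx, Finset.mem_filter]; exact ⟨hg, hmax⟩, Or.inl rfl⟩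
    · push Not at hmax
      obtain ⟨h, hh, hgh⟩ := hmax
      have hlt : (I.filter fun k => lt h k).card < n := by
        rw [← hn]
        apply Finset.card_lt_card
        rw [Finset.ssubset_iff_of_subset]
        · refine ⟨h, Finset.mem_filter.2 ⟨hh, hgh⟩, ?_⟩
          intro h'
          exact hirr h (Finset.mem_filter.1 h').2
        · intro k hk
          rw [Finset.mem_filter] at hk ⊢
          exact ⟨hk.1, htr _ _ _ hgh hk.2⟩
      obtain ⟨f, hf, hfh⟩ := ih _ hlt h hh rfl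
      refine ⟨f, hf, Or.inr ?_⟩
      rcases hfh with h' | h'
      · rw [← h']; exact hgh
      · exact htr _ _ _ hgh h'

theorem exists_max' {T : Finset (Finset V)} {lt side : Finset V → Finset V → Prop}
    (N : Nest T lt side) (I : Finset (Finset V)) {g : Finset V} (hg : g ∈ I) :
    ∃ f ∈ Mx lt I, g = f ∨ lt g f := by
  classical
  exact exists_max N.trans N.irrefl I _ g hg rfl

theorem mem_Mx {lt : Finset V → Finset V → Prop} {I : Finset (Finset V)} {f : Finset V} :
    f ∈ Mx lt I ↔ f ∈ I ∧ ∀ g ∈ I, ¬ lt f g := by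
  classical
  simp only [Mx, Finset.mem_filter]

/-- a region: a down-closed set `I` of triangles with boundary pairs the pairs in `t0` -/
structure Region (T : Finset (Finset V)) (lt : Finset V → Finset V → Prop)
    (I : Finset (Finset V)) (t0 : Finset V) : Prop where
  sub : I ⊆ T
  down : ∀ f ∈ I, ∀ g ∈ T, lt g f → g ∈ I
  cl : ∀ f ∈ I, ∀ e : Finset V, e.card = 2 → e ⊆ f → ¬ e ⊆ t0 → ∀ g ∈ T, e ⊆ g → g ∈ I
  bd : ∀ e : Finset V, e.card = 2 → e ⊆ t0 → ∀ f ∈ I, ∀ g ∈ I, (g = f ∨ lt g f) → e ⊆ g → e ⊆ f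

section region

variable {T : Finset (Finset V)} {lt side : Finset V → Finset V → Prop} (N : Nest T lt side)
  {I : Finset (Finset V)} {t0 : Finset V} (R : Region T lt I t0)

include N in
theorem side_unique {e f g : Finset V} (he : e.card = 2) (hI : I ⊆ T) (hf : f ∈ Mx lt I)
    (hg : g ∈ Mx lt I) (hef : e ⊆ f) (heg : e ⊆ g) (hs : side e f ↔ side e g) : f = g := by
  rw [mem_Mx] at hf hg
  rcases N.comp f (hI hf.1) g (hI hg.1) e he hef heg hs with h | h | h
  · exact h
  · exact absurd h (hf.2 g hg.1)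
  · exact absurd h (hg.2 f hf.1)

include N R in
theorem top_unique {e f f' g : Finset V} (he : e.card = 2) (hg : g ∈ T) (hf : f ∈ Mx lt I)
    (hf' : f' ∈ Mx lt I) (hef : e ⊆ f) (hef' : e ⊆ f') (heg : e ⊆ g) (h1 : g = f ∨ lt g f)
    (h2 : g = f' ∨ lt g f') : f = f' := by
  have m1 := mem_Mx.1 hf
  have m2 := mem_Mx.1 hf'
  have s1 : side e g ↔ side e f := by
    rcases h1 with h | h
    · rw [h]
    · exact N.sideInh g hg f (R.sub m1.1) e he heg hef h
  have s2 : side e g ↔ side e f' := by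
    rcases h2 with h | h
    · rw [h]
    · exact N.sideInh g hg f' (R.sub m2.1) e he heg hef' h
  exact side_unique N he R.sub hf hf' hef hef' (s1.symm.trans s2)

include N R in
theorem top_contains {e f g : Finset V} (he : e.card = 2) (hg : g ∈ I) (hf : f ∈ Mx lt I)
    (heg : e ⊆ g) (h1 : g = f ∨ lt g f) (hB : e ⊆ t0 ∨ ∃ f0 ∈ Mx lt I, e ⊆ f0) : e ⊆ f := by
  have m1 := mem_Mx.1 hf
  rcases hB with hB | ⟨f0, hf0, hef0⟩
  · exact R.bd e he hB f m1.1 g hg h1 heg
  · by_contra hcon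
    have hlt : lt g f := by
      rcases h1 with h | h
      · subst h
        exact absurd heg hcon
      · exact h
    have m0 := mem_Mx.1 hf0
    have := N.up f (R.sub m1.1) g (R.sub hg) f0 (R.sub m0.1) hlt e he heg hcon hef0
    exact m0.2 f m1.1 this

include N R in
open Classical in
theorem sum_formula (x : Finset V → ℚ) {e : Finset V} (he : e.card = 2)
    (hB : e ⊆ t0 ∨ ∃ f0 ∈ Mx lt I, e ⊆ f0) :
    ∑ g ∈ I.filter (fun g => e ⊆ g), x g = ∑ f ∈ (Mx lt I).filter (fun f => e ⊆ f),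
      bb T lt x e f := by
  have htop : ∀ g ∈ I, ∃ f ∈ Mx lt I, g = f ∨ lt g f := fun g hg => exists_max' N I hg
  choose! top htop1 htop2 using htop
  rw [← Finset.sum_fiberwise_of_maps_to (g := top)
    (t := (Mx lt I).filter (fun f => e ⊆ f))]
  · refine Finset.sum_congr rfl ?_
    intro f hf
    rw [Finset.mem_filter] at hf
    unfold bb
    refine Finset.sum_congr ?_ fun _ _ => rfl
    ext g
    simp only [Finset.mem_filter]
    constructor
    · rintro ⟨⟨hg, heg⟩, h⟩
      refine ⟨R.sub hg, ?_, heg⟩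
      rw [← h]
      exact htop2 g hg
    · rintro ⟨hg, h1, heg⟩
      have hgI : g ∈ I := by
        rcases h1 with h | h
        · rw [h]; exact (mem_Mx.1 hf.1).1
        · exact R.down f (mem_Mx.1 hf.1).1 g hg h
      refine ⟨⟨hgI, heg⟩, ?_⟩
      exact top_unique N R he hg (htop1 g hgI) hf.1
        (top_contains N R he hgI (htop1 g hgI) heg (htop2 g hgI) hB) hf.2 heg (htop2 g hgI) h1
  · intro g hg
    rw [Finset.mem_filter] at hg ⊢
    exact ⟨htop1 g hg.1, top_contains N R he hg.1 (htop1 g hg.1) hg.2 (htop2 g hg.1) hB⟩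

include N R in
open Classical in
/-- sums over a pair which is not a boundary pair -/
theorem sum_inner (x : Finset V → ℚ) {e f0 : Finset V} (he : e.card = 2) (hB : ¬ e ⊆ t0)
    (hf0 : f0 ∈ Mx lt I) (hef0 : e ⊆ f0) :
    ∑ f ∈ (Mx lt I).filter (fun f => e ⊆ f), bb T lt x e f =
      ∑ g ∈ T.filter (fun g => e ⊆ g), x g := by
  rw [← sum_formula N R x he (Or.inr ⟨f0, hf0, hef0⟩)]
  refine Finset.sum_congr ?_ fun _ _ => rfl
  ext g
  simp only [Finset.mem_filter]
  constructor
  · rintro ⟨h1, h2⟩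
    exact ⟨R.sub h1, h2⟩
  · rintro ⟨h1, h2⟩
    exact ⟨R.cl f0 (mem_Mx.1 hf0).1 e he hef0 hB g h1 h2, h2⟩

end region

end Pool.Agent.Q133.HT
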