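import Pool.Agent.Q133.HT1

/-! Parity lemmas and Lemma A. -/

set_option autoImplicit false

namespace Pool.Agent.Q133.HT

open Finset

set_option linter.unusedSectionVars false

variable {V : Type} [Fintype V] [DecidableEq V]

/-- weighted number of members of `M` containing `e` -/
def nn (M : Finset (Finset V)) (y : Finset V → ℤ) (e : Finset V) : ℤ :=
  ∑ f ∈ M.filter (fun f => e ⊆ f), y f

theorem vertex_even (M : Finset (Finset V)) (hM : ∀ f ∈ M, f.card = 3) (y : Finset V → ℤ) (v : V) :
    Even (∑ w ∈ univ.erase v, nn M y {v, w}) := by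
  have h : ∑ w ∈ univ.erase v, nn M y {v, w} = ∑ f ∈ M, if v ∈ f then 2 * y f else 0 := by
    unfold nn
    simp only [Finset.sum_filter]
    rw [Finset.sum_comm]
    refine Finset.sum_congr rfl ?_
    intro f hf
    by_cases hv : v ∈ f
    · rw [if_pos hv, ← Finset.sum_filter]
      rw [Finset.sum_const]
      have : ((univ.erase v).filter fun w => ({v, w} : Finset V) ⊆ f) = f.erase v := by
        ext w
        simp only [Finset.mem_filter, Finset.mem_erase, Finset.mem_univ, and_true,
          Finset.insert_subset_iff, Finset.singleton_subset_iff]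
        tauto
      rw [this, Finset.card_erase_of_mem hv, hM f hf]
      simp
    · rw [if_neg hv]
      apply Finset.sum_eq_zero
      intro w _
      rw [if_neg]
      intro h
      exact hv (h (Finset.mem_insert_self _ _))
  rw [h]
  apply Finset.even_sum
  intro f _
  split_ifs
  · exact even_two_mul _
  · exact Even.zero

theorem parity_v (M : Finset (Finset V)) (hM : ∀ f ∈ M, f.card = 3) (y : Finset V → ℤ)
    {t : Finset V} {v p q : V} (hvp : v ≠ p) (hvq : v ≠ q) (hpq : p ≠ q) (ht : t = {v, p, q})
    (hev : ∀ e : Finset V, e.card = 2 → ¬ e ⊆ t → Even (nn M y e)) :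
    Even (nn M y {v, p} + nn M y {v, q}) := by
  have h := vertex_even M hM y v
  have hp : p ∈ univ.erase v := by simp [hvp.symm]
  have hq : q ∈ (univ.erase v).erase p := by simp [hvq.symm, hpq.symm]
  rw [← Finset.add_sum_erase _ _ hp, ← Finset.add_sum_erase _ _ hq] at h
  have h2 : Even (∑ w ∈ ((univ.erase v).erase p).erase q, nn M y {v, w}) := by
    apply Finset.even_sum
    intro w hw
    simp only [Finset.mem_erase, Finset.mem_univ, and_true] at hw
    apply hev
    · exact Finset.card_pair hw.2.2.symm
    · rw [ht]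
      intro hsub
      have := hsub (Finset.mem_insert_of_mem (Finset.mem_singleton_self w))
      simp only [Finset.mem_insert, Finset.mem_singleton] at this
      tauto
  rw [← add_assoc] at h
  exact (Int.even_add.1 h).2 h2

theorem pair_cases {t e : Finset V} {a b c : V}
    (ht : t = {a, b, c}) (he : e.card = 2) (het : e ⊆ t) :
    e = {a, b} ∨ e = {a, c} ∨ e = {b, c} := by
  obtain ⟨u, v, huv, rfl⟩ := Finset.card_eq_two.1 he
  rw [Finset.insert_subset_iff, Finset.singleton_subset_iff, ht] at het
  simp only [Finset.mem_insert, Finset.mem_singleton] at het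
  rcases het with ⟨h1 | h1 | h1, h2 | h2 | h2⟩
  all_goals first
    | exact absurd (h1.trans h2.symm) huv
    | (rw [h1, h2]; first
        | exact Or.inl rfl
        | exact Or.inr (Or.inl rfl)
        | exact Or.inr (Or.inr rfl)
        | exact Or.inl (Finset.pair_comm _ _)
        | exact Or.inr (Or.inl (Finset.pair_comm _ _))
        | exact Or.inr (Or.inr (Finset.pair_comm _ _)))

theorem parity3 (M : Finset (Finset V)) (hM : ∀ f ∈ M, f.card = 3) (y : Finset V → ℤ)
    {t : Finset V} {a b c : V} (hab : a ≠ b) (hac : a ≠ c) (hbc : b ≠ c) (ht : t = {a, b, c})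
    (hev : ∀ e : Finset V, e.card = 2 → ¬ e ⊆ t → Even (nn M y e)) :
    Even (nn M y {a, b} + nn M y {a, c}) ∧ Even (nn M y {a, b} + nn M y {b, c}) ∧
      Even (nn M y {a, c} + nn M y {b, c}) := by
  refine ⟨parity_v M hM y hab hac hbc ht hev, ?_, ?_⟩
  · have := parity_v M hM y (v := b) (p := a) (q := c) hab.symm hbc hac
      (by rw [ht, Finset.insert_comm]) hev
    rwa [Finset.pair_comm b a] at this
  · have := parity_v M hM y (v := c) (p := a) (q := b) hac.symm hbc.symm hab
      (by
        rw [ht]
        ext z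
        simp only [Finset.mem_insert, Finset.mem_singleton]
        tauto) hev
    rwa [Finset.pair_comm c a, Finset.pair_comm c b] at this

theorem parity (M : Finset (Finset V)) (hM : ∀ f ∈ M, f.card = 3) (y : Finset V → ℤ)
    {t : Finset V} (ht : t.card = 3)
    (hev : ∀ e : Finset V, e.card = 2 → ¬ e ⊆ t → Even (nn M y e)) {e e' : Finset V}
    (he : e.card = 2) (he' : e'.card = 2) (het : e ⊆ t) (het' : e' ⊆ t) :
    Even (nn M y e - nn M y e') := by
  obtain ⟨a, b, c, hab, hac, hbc, rfl⟩ := Finset.card_eq_three.1 ht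
  obtain ⟨h1, h2, h3⟩ := parity3 M hM y hab hac hbc rfl hev
  rw [Int.even_iff] at h1 h2 h3 ⊢
  rcases pair_cases rfl he het with h | h | h <;>
    rcases pair_cases rfl he' het' with h' | h' | h' <;> rw [h, h'] <;> omega

theorem sum_pairs (M : Finset (Finset V)) (hM : ∀ f ∈ M, f.card = 3) (y : Finset V → ℤ) :
    ∑ e ∈ univ.powersetCard 2, nn M y e = 3 * ∑ f ∈ M, y f := by
  unfold nn
  simp only [Finset.sum_filter]
  rw [Finset.sum_comm, Finset.mul_sum]
  refine Finset.sum_congr rfl ?_
  intro f hf
  rw [← Finset.sum_filter, Finset.sum_const]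
  have : ((univ.powersetCard 2).filter fun e => e ⊆ f) = f.powersetCard 2 := by
    ext e
    simp only [Finset.mem_filter, Finset.mem_powersetCard, Finset.subset_univ, true_and]
    tauto
  rw [this, Finset.card_powersetCard, hM f hf]
  simp [Nat.choose]

theorem mod3 (M : Finset (Finset V)) (hM : ∀ f ∈ M, f.card = 3) (y : Finset V → ℤ)
    {t : Finset V} {a b c : V} (hab : a ≠ b) (hac : a ≠ c) (hbc : b ≠ c) (ht : t = {a, b, c})
    (hz : ∀ e : Finset V, e.card = 2 → ¬ e ⊆ t → nn M y e = 0) :
    nn M y {a, b} + nn M y {a, c} + nn M y {b, c} = 3 * ∑ f ∈ M, y f := by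
  rw [← sum_pairs M hM y]
  have hsub : ({({a, b} : Finset V), {a, c}, {b, c}} : Finset (Finset V)) ⊆ univ.powersetCard 2 := by
    intro e he
    simp only [Finset.mem_insert, Finset.mem_singleton] at he
    rw [Finset.mem_powersetCard]
    refine ⟨Finset.subset_univ _, ?_⟩
    rcases he with rfl | rfl | rfl
    · exact Finset.card_pair hab
    · exact Finset.card_pair hac
    · exact Finset.card_pair hbc
  rw [← Finset.sum_subset hsub]
  · have h1 : ({a, b} : Finset V) ≠ {a, c} := by
      intro h
      have : b ∈ ({a, c} : Finset V) := by rw [← h]; simp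
      simp only [Finset.mem_insert, Finset.mem_singleton] at this
      rcases this with h | h
      · exact hab h.symm
      · exact hbc h
    have h2 : ({a, b} : Finset V) ≠ {b, c} := by
      intro h
      have : a ∈ ({b, c} : Finset V) := by rw [← h]; simp
      simp only [Finset.mem_insert, Finset.mem_singleton] at this
      rcases this with h | h
      · exact hab h
      · exact hac h
    have h3 : ({a, c} : Finset V) ≠ {b, c} := by
      intro h
      have : a ∈ ({b, c} : Finset V) := by rw [← h]; simp
      simp only [Finset.mem_insert, Finset.mem_singleton] at this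
      rcases this with h | h
      · exact hab h
      · exact hac h
    rw [Finset.sum_insert, Finset.sum_insert, Finset.sum_singleton]
    · ring
    · simpa using h3
    · simp only [Finset.mem_insert, Finset.mem_singleton, not_or]
      exact ⟨h1, h2⟩
  · intro e he hne
    rw [Finset.mem_powersetCard] at he
    apply hz e he.2
    intro het
    apply hne
    simp only [Finset.mem_insert, Finset.mem_singleton]
    exact pair_cases ht he.2 het

/-- the region of the triangles strictly inside `t` -/
theorem region_in {T : Finset (Finset V)} {lt side : Finset V → Finset V → Prop}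
    (N : Nest T lt side) {t : Finset V} (ht : t ∈ T) [DecidablePred fun g => lt g t] :
    Region T lt (T.filter fun g => lt g t) t where
  sub := Finset.filter_subset _ _
  down := by
    intro f hf g hg hgf
    rw [Finset.mem_filter] at hf ⊢
    exact ⟨hg, N.trans _ _ _ hgf hf.2⟩
  cl := by
    intro f hf e he hef het g hg heg
    rw [Finset.mem_filter] at hf ⊢
    exact ⟨hg, N.up t ht f hf.1 g hg hf.2 e he hef het heg⟩
  bd := by
    intro e he het f hf g hg hgf heg
    rw [Finset.mem_filter] at hf hg
    exact N.mid t ht f hf.1 g hg.1 hgf hf.2 e he heg het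

/-- the region of all triangles -/
theorem region_all {T : Finset (Finset V)} {lt : Finset V → Finset V → Prop} : Region T lt T ∅ where
  sub := Finset.Subset.refl _
  down := fun _ _ g hg _ => hg
  cl := fun _ _ _ _ _ _ g hg _ => hg
  bd := by
    intro e he het
    rw [Finset.subset_empty] at het
    rw [het] at he
    simp at he

/-- a pair inside a triple -/
theorem exists_pair {f : Finset V} (hf : f.card = 3) : ∃ e : Finset V, e.card = 2 ∧ e ⊆ f := by
  obtain ⟨a, b, c, hab, hac, hbc, rfl⟩ := Finset.card_eq_three.1 hf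
  refine ⟨{a, b}, Finset.card_pair hab, ?_⟩
  intro z hz
  simp only [Finset.mem_insert, Finset.mem_singleton] at hz ⊢
  tauto

open Classical in
/-- Lemma A: if all triangles strictly inside `t` have half-integral weight then the sums over the
triangles strictly inside `t` at the three sides of `t` are congruent modulo 1 -/
theorem lemmaA {T : Finset (Finset V)} {lt side : Finset V → Finset V → Prop}
    (N : Nest T lt side) {x : Finset V → ℚ}
    (hx : ∀ e : Finset V, e.card = 2 → IsZ (∑ g ∈ T.filter (fun g => e ⊆ g), x g)) :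
    ∀ (n : ℕ) (t : Finset V), t ∈ T → (T.filter fun g => lt g t).card = n →
      (∀ f ∈ T, lt f t → IsH (x f)) → ∀ e e' : Finset V, e.card = 2 → e'.card = 2 → e ⊆ t →
      e' ⊆ t → IsZ (aa T lt x e t - aa T lt x e' t) := by
  intro n
  induction n using Nat.strong_induction_on with
  | _ n ih =>
    intro t ht hn hhalf e e' he he' het het'
    have R := region_in N ht
    set I := T.filter fun g => lt g t with hI
    have hMsub : ∀ f ∈ Mx lt I, f ∈ T ∧ lt f t := by
      intro f hf
      have := (mem_Mx.1 hf).1
      rwa [hI, Finset.mem_filter] at this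
    -- all sums `bb` at a maximal triangle are congruent and half-integral
    have hb : ∀ f ∈ Mx lt I, ∀ e1 e2 : Finset V, e1.card = 2 → e2.card = 2 → e1 ⊆ f → e2 ⊆ f →
        IsZ (bb T lt x e1 f - bb T lt x e2 f) := by
      intro f hf e1 e2 h1 h2 h3 h4
      obtain ⟨hfT, hft⟩ := hMsub f hf
      rw [bb_eq N.irrefl hfT h3, bb_eq N.irrefl hfT h4]
      have := ih (T.filter fun g => lt g f).card (by
        rw [← hn]
        apply Finset.card_lt_card
        rw [Finset.ssubset_iff_of_subset]
        · exact ⟨f, Finset.mem_filter.2 ⟨hfT, hft⟩, fun h =>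
            N.irrefl f (Finset.mem_filter.1 h).2⟩
        · intro g hg
          rw [Finset.mem_filter] at hg
          rw [hI, Finset.mem_filter]
          exact ⟨hg.1, N.trans _ _ _ hg.2 hft⟩) f hfT rfl
        (fun g hg hgf => hhalf g hg (N.trans _ _ _ hgf hft)) e1 e2 h1 h2 h3 h4
      have e0 : x f + aa T lt x e1 f - (x f + aa T lt x e2 f) =
        aa T lt x e1 f - aa T lt x e2 f := by ring
      rw [e0]
      exact this
    have hbH : ∀ f ∈ Mx lt I, ∀ e1 : Finset V, IsH (bb T lt x e1 f) := by
      intro f hf e1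
      obtain ⟨hfT, hft⟩ := hMsub f hf
      apply IsH.sum
      intro g hg
      rw [Finset.mem_filter] at hg
      rcases hg.2.1 with h | h
      · rw [h]; exact hhalf f hfT hft
      · exact hhalf g hg.1 (N.trans _ _ _ h hft)
    -- integers `y f` with `2 * bb e f ≡ y f` modulo 2
    have hy : ∀ f ∈ Mx lt I, ∃ y : ℤ, ∀ e1 : Finset V, e1.card = 2 → e1 ⊆ f →
        ∃ k : ℤ, 2 * bb T lt x e1 f = y + 2 * k := by
      intro f hf
      obtain ⟨e0, he0, he0f⟩ := exists_pair (N.card3 f (hMsub f hf).1)
      obtain ⟨y, hy⟩ := hbH f hf e0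
      refine ⟨y, fun e1 h1 h2 => ?_⟩
      obtain ⟨k, hk⟩ := hb f hf e1 e0 h1 he0 h2 he0f
      refine ⟨k, ?_⟩
      rw [← hy, ← hk]
      ring
    choose! y hy using hy
    have hM3 : ∀ f ∈ Mx lt I, f.card = 3 := fun f hf => N.card3 f (hMsub f hf).1
    have key : ∀ e1 : Finset V, e1.card = 2 → ∃ K : ℤ,
        2 * ∑ f ∈ (Mx lt I).filter (fun f => e1 ⊆ f), bb T lt x e1 f =
          (nn (Mx lt I) y e1 : ℚ) + 2 * K := by
      intro e1 h1
      have hk : ∀ f ∈ (Mx lt I).filter (fun f => e1 ⊆ f), ∃ k : ℤ,
          2 * bb T lt x e1 f = y f + 2 * k := by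
        intro f hf
        rw [Finset.mem_filter] at hf
        exact hy f hf.1 e1 h1 hf.2
      choose! k hk using hk
      refine ⟨∑ f ∈ (Mx lt I).filter (fun f => e1 ⊆ f), k f, ?_⟩
      rw [Finset.mul_sum, Finset.sum_congr rfl hk, Finset.sum_add_distrib, nn]
      push_cast
      rw [Finset.mul_sum]
    have hev : ∀ e1 : Finset V, e1.card = 2 → ¬ e1 ⊆ t → Even (nn (Mx lt I) y e1) := by
      intro e1 h1 h2
      by_cases hex : ∃ f0 ∈ Mx lt I, e1 ⊆ f0
      · obtain ⟨f0, hf0, hef0⟩ := hex
        obtain ⟨K, hK⟩ := key e1 h1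
        rw [sum_inner N R x h1 h2 hf0 hef0] at hK
        obtain ⟨m, hm⟩ := hx e1 h1
        rw [hm] at hK
        refine ⟨m - K, ?_⟩
        have : ((nn (Mx lt I) y e1 : ℤ) : ℚ) = ((m - K + (m - K) : ℤ) : ℚ) := by
          push_cast
          linarith
        exact_mod_cast this
      · have : (Mx lt I).filter (fun f => e1 ⊆ f) = ∅ := by
          rw [Finset.filter_eq_empty_iff]
          intro f hf h
          exact hex ⟨f, hf, h⟩
        rw [nn, this, Finset.sum_empty]
        exact Even.zero
    have hpar := parity (Mx lt I) hM3 y (N.card3 t ht) hev he he' het het'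
    have haa : ∀ e1 : Finset V, e1.card = 2 → e1 ⊆ t → aa T lt x e1 t =
        ∑ f ∈ (Mx lt I).filter (fun f => e1 ⊆ f), bb T lt x e1 f := by
      intro e1 h1 h2
      rw [← sum_formula N R x h1 (Or.inl h2), hI, Finset.filter_filter]
      rfl
    obtain ⟨K, hK⟩ := key e he
    obtain ⟨K', hK'⟩ := key e' he'
    rw [← haa e he het] at hK
    rw [← haa e' he' het'] at hK'
    obtain ⟨r, hr⟩ := hpar
    refine ⟨r + K - K', ?_⟩
    have hr' : ((nn (Mx lt I) y e : ℤ) : ℚ) - (nn (Mx lt I) y e' : ℤ) = r + r := by
      exact_mod_cast hr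
    push_cast
    linarith

end Pool.Agent.Q133.HT
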