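import Pool.Agent.Q133.HT2

/-! The reduction step and the abstract half-integrality theorem. -/

set_option autoImplicit false

namespace Pool.Agent.Q133.HT

open Finset

set_option linter.unusedSectionVars false

variable {V : Type} [Fintype V] [DecidableEq V]

/-- all sums of `x` at the sides of `f`, up to `f`, are congruent to `θ` modulo 1 -/
def Cls (T : Finset (Finset V)) (lt : Finset V → Finset V → Prop) (x : Finset V → ℚ) (θ : ℚ)
    (f : Finset V) : Prop := ∀ e : Finset V, e.card = 2 → e ⊆ f → IsZ (bb T lt x e f - θ)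

open Classical in
/-- signed indicator function of the classes of `θ` and `-θ` -/
noncomputable def yy (T : Finset (Finset V)) (lt : Finset V → Finset V → Prop) (x : Finset V → ℚ)
    (θ : ℚ) (f : Finset V) : ℤ :=
  (if Cls T lt x θ f then 1 else 0) - (if Cls T lt x (-θ) f then 1 else 0)

theorem yy_neg (T : Finset (Finset V)) (lt : Finset V → Finset V → Prop) (x : Finset V → ℚ)
    (θ : ℚ) (f : Finset V) : yy T lt x (-θ) f = - yy T lt x θ f := by
  unfold yy
  rw [neg_neg]
  ring

theorem IsZ_half_false {b θ : ℚ} (hθ : ¬ IsH θ) (h1 : IsZ (b - θ)) (h2 : IsZ (b + θ)) : False := by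
  obtain ⟨k, hk⟩ := h1
  obtain ⟨l, hl⟩ := h2
  exact hθ ⟨l - k, by push_cast; linarith⟩

theorem yy_pos {T : Finset (Finset V)} {lt : Finset V → Finset V → Prop} {x : Finset V → ℚ}
    {θ : ℚ} (hθ : ¬ IsH θ) {f : Finset V} (hf : f.card = 3) (h : Cls T lt x θ f) :
    yy T lt x θ f = 1 := by
  have h2 : ¬ Cls T lt x (-θ) f := by
    intro h2
    obtain ⟨e, he, hef⟩ := exists_pair hf
    exact IsZ_half_false hθ (h e he hef) (by simpa using h2 e he hef)
  unfold yy
  rw [if_pos h, if_neg h2]
  norm_num

theorem yy_negc {T : Finset (Finset V)} {lt : Finset V → Finset V → Prop} {x : Finset V → ℚ}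
    {θ : ℚ} (hθ : ¬ IsH θ) {f : Finset V} (hf : f.card = 3) (h : Cls T lt x (-θ) f) :
    yy T lt x θ f = -1 := by
  have hθ' : ¬ IsH (-θ) := fun h => hθ (by simpa using h.neg)
  have := yy_pos hθ' hf h
  rw [yy_neg] at this
  linarith

theorem yy_zero {T : Finset (Finset V)} {lt : Finset V → Finset V → Prop} {x : Finset V → ℚ}
    {θ : ℚ} {f : Finset V} (h1 : ¬ Cls T lt x θ f) (h2 : ¬ Cls T lt x (-θ) f) :
    yy T lt x θ f = 0 := by
  unfold yy
  rw [if_neg h1, if_neg h2]
  norm_num

theorem yy_cases (T : Finset (Finset V)) (lt : Finset V → Finset V → Prop) (x : Finset V → ℚ)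
    (θ : ℚ) (f : Finset V) : -1 ≤ yy T lt x θ f ∧ yy T lt x θ f ≤ 1 := by
  unfold yy
  split_ifs <;> norm_num

section region

variable {T : Finset (Finset V)} {lt side : Finset V → Finset V → Prop} (N : Nest T lt side)
  {I : Finset (Finset V)} {t0 : Finset V} (R : Region T lt I t0) {x : Finset V → ℚ}

include N R in
open Classical in
/-- the function `yy` sums to zero at the pairs which are not boundary pairs -/
theorem nn_zero (hx : ∀ e : Finset V, e.card = 2 → IsZ (∑ g ∈ T.filter (fun g => e ⊆ g), x g))
    (hb : ∀ f ∈ Mx lt I, ∀ e1 e2 : Finset V, e1.card = 2 → e2.card = 2 → e1 ⊆ f → e2 ⊆ f →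
      IsZ (bb T lt x e1 f - bb T lt x e2 f)) {θ : ℚ} (hθ : ¬ IsH θ)
    {e : Finset V} (he : e.card = 2) (het : ¬ e ⊆ t0) :
    nn (Mx lt I) (yy T lt x θ) e = 0 := by
  by_cases hex : ∃ f0 ∈ Mx lt I, e ⊆ f0
  · obtain ⟨f0, hf0, hef0⟩ := hex
    have hsum := hx e he
    rw [← sum_inner N R x he het hf0 hef0] at hsum
    unfold nn
    set M := (Mx lt I).filter (fun f => e ⊆ f) with hM
    have hMm : ∀ f, f ∈ M ↔ f ∈ Mx lt I ∧ e ⊆ f := by
      intro f
      rw [hM, Finset.mem_filter]
    rw [← Finset.sum_filter_add_sum_filter_not M (fun f => side e f)] at hsum ⊢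
    have cA : (M.filter fun f => side e f).card ≤ 1 := by
      rw [Finset.card_le_one]
      intro f hf g hg
      rw [Finset.mem_filter, hMm] at hf hg
      exact side_unique N he R.sub hf.1.1 hg.1.1 hf.1.2 hg.1.2 (by simp [hf.2, hg.2])
    have cB : (M.filter fun f => ¬ side e f).card ≤ 1 := by
      rw [Finset.card_le_one]
      intro f hf g hg
      rw [Finset.mem_filter, hMm] at hf hg
      exact side_unique N he R.sub hf.1.1 hg.1.1 hf.1.2 hg.1.2 (by simp [hf.2, hg.2])
    have hcls : ∀ f ∈ M, ∀ η : ℚ, Cls T lt x η f ↔ IsZ (bb T lt x e f - η) := by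
      intro f hf η
      rw [hMm] at hf
      constructor
      · intro h
        exact h e he hf.2
      · intro h e1 h1 h2
        have := hb f hf.1 e1 e h1 he h2 hf.2
        have e0 : bb T lt x e1 f - η = (bb T lt x e1 f - bb T lt x e f) + (bb T lt x e f - η) := by
          ring
        rw [e0]
        exact this.add h
    have hsingle : ∀ f ∈ M, IsZ (bb T lt x e f) → yy T lt x θ f = 0 := by
      intro f hf h
      apply yy_zero
      · rw [hcls f hf]
        intro h'
        apply hθ
        have : θ = bb T lt x e f - (bb T lt x e f - θ) := by ring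
        rw [this]
        exact (h.sub h').toH
      · rw [hcls f hf]
        intro h'
        apply hθ
        have : θ = (bb T lt x e f - -θ) - bb T lt x e f := by ring
        rw [this]
        exact (h'.sub h).toH
    rcases Finset.eq_empty_or_nonempty (M.filter fun f => side e f) with hA | ⟨f, hf⟩
    · rcases Finset.eq_empty_or_nonempty (M.filter fun f => ¬ side e f) with hB | ⟨g, hg⟩
      · rw [hA, hB]
        simp
      · have hB : (M.filter fun f => ¬ side e f) = {g} := by
          apply Finset.eq_singleton_iff_unique_mem.2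
          exact ⟨hg, fun h hh => Finset.card_le_one.1 cB h hh g hg⟩
        rw [hA, hB] at hsum ⊢
        rw [Finset.sum_empty, zero_add, Finset.sum_singleton] at hsum ⊢
        exact hsingle g (Finset.mem_filter.1 hg).1 hsum
    · have hA : (M.filter fun f => side e f) = {f} := by
        apply Finset.eq_singleton_iff_unique_mem.2
        exact ⟨hf, fun h hh => Finset.card_le_one.1 cA h hh f hf⟩
      rcases Finset.eq_empty_or_nonempty (M.filter fun f => ¬ side e f) with hB | ⟨g, hg⟩
      · rw [hA, hB] at hsum ⊢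
        rw [Finset.sum_empty, add_zero, Finset.sum_singleton] at hsum ⊢
        exact hsingle f (Finset.mem_filter.1 hf).1 hsum
      · have hB : (M.filter fun f => ¬ side e f) = {g} := by
          apply Finset.eq_singleton_iff_unique_mem.2
          exact ⟨hg, fun h hh => Finset.card_le_one.1 cB h hh g hg⟩
        rw [hA, hB] at hsum ⊢
        rw [Finset.sum_singleton, Finset.sum_singleton] at hsum ⊢
        have hfM := (Finset.mem_filter.1 hf).1
        have hgM := (Finset.mem_filter.1 hg).1
        have sw : ∀ η : ℚ, Cls T lt x η f ↔ Cls T lt x (-η) g := by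
          intro η
          rw [hcls f hfM, hcls g hgM]
          constructor
          · intro h
            have : bb T lt x e g - -η = (bb T lt x e f + bb T lt x e g) -
              (bb T lt x e f - η) := by ring
            rw [this]
            exact hsum.sub h
          · intro h
            have : bb T lt x e f - η = (bb T lt x e f + bb T lt x e g) -
              (bb T lt x e g - -η) := by ring
            rw [this]
            exact hsum.sub h
        have s1 := sw θ
        have s2 := sw (-θ)
        rw [neg_neg] at s2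
        unfold yy
        by_cases c1 : Cls T lt x θ f <;> by_cases c2 : Cls T lt x (-θ) f
        · rw [if_pos c1, if_pos c2, if_pos (s2.1 c2), if_pos (s1.1 c1)]; norm_num
        · rw [if_pos c1, if_neg c2, if_neg (fun h => c2 (s2.2 h)), if_pos (s1.1 c1)]; norm_num
        · rw [if_neg c1, if_pos c2, if_pos (s2.1 c2), if_neg (fun h => c1 (s1.2 h))]; norm_num
        · rw [if_neg c1, if_neg c2, if_neg (fun h => c2 (s2.2 h)),
            if_neg (fun h => c1 (s1.2 h))]
          norm_num
  · have : (Mx lt I).filter (fun f => e ⊆ f) = ∅ := by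
      rw [Finset.filter_eq_empty_iff]
      intro f hf h
      exact hex ⟨f, hf, h⟩
    rw [nn, this, Finset.sum_empty]

include R in
/-- on the boundary pairs the function `yy` has a constant sum `n` with `|n| ≤ 1` -/
theorem nn_const (N : Nest T lt side) {y : Finset V → ℤ} (hy : ∀ f, -1 ≤ y f ∧ y f ≤ 1)
    (hz : ∀ e : Finset V, e.card = 2 → ¬ e ⊆ t0 → nn (Mx lt I) y e = 0)
    (ht0 : t0 ∈ T) (hone : ∀ e : Finset V, e.card = 2 → e ⊆ t0 → ∀ f ∈ Mx lt I, ∀ g ∈ Mx lt I,
      e ⊆ f → e ⊆ g → f = g) :
    ∃ n : ℤ, -1 ≤ n ∧ n ≤ 1 ∧ ∀ e : Finset V, e.card = 2 → e ⊆ t0 → nn (Mx lt I) y e = n := by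
  classical
  have hM3 : ∀ f ∈ Mx lt I, f.card = 3 := fun f hf => N.card3 f (R.sub (mem_Mx.1 hf).1)
  obtain ⟨a, b, c, hab, hac, hbc, ht⟩ := Finset.card_eq_three.1 (N.card3 t0 ht0)
  have hbound : ∀ e : Finset V, e.card = 2 → e ⊆ t0 →
      -1 ≤ nn (Mx lt I) y e ∧ nn (Mx lt I) y e ≤ 1 := by
    intro e he het
    unfold nn
    have hc : ((Mx lt I).filter fun f => e ⊆ f).card ≤ 1 := by
      rw [Finset.card_le_one]
      intro f hf g hg
      rw [Finset.mem_filter] at hf hg
      exact hone e he het f hf.1 g hg.1 hf.2 hg.2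
    rcases Finset.eq_empty_or_nonempty ((Mx lt I).filter fun f => e ⊆ f) with h | ⟨f, hf⟩
    · rw [h]; simp
    · have : ((Mx lt I).filter fun f => e ⊆ f) = {f} := by
        apply Finset.eq_singleton_iff_unique_mem.2
        exact ⟨hf, fun h hh => Finset.card_le_one.1 hc h hh f hf⟩
      rw [this, Finset.sum_singleton]
      exact hy f
  have cab : ({a, b} : Finset V).card = 2 := Finset.card_pair hab
  have cac : ({a, c} : Finset V).card = 2 := Finset.card_pair hac
  have cbc : ({b, c} : Finset V).card = 2 := Finset.card_pair hbc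
  have sab : ({a, b} : Finset V) ⊆ t0 := by
    rw [ht]; intro z; simp only [Finset.mem_insert, Finset.mem_singleton]; tauto
  have sac : ({a, c} : Finset V) ⊆ t0 := by
    rw [ht]; intro z; simp only [Finset.mem_insert, Finset.mem_singleton]; tauto
  have sbc : ({b, c} : Finset V) ⊆ t0 := by
    rw [ht]; intro z; simp only [Finset.mem_insert, Finset.mem_singleton]; tauto
  have h1 := hbound _ cab sab
  have h2 := hbound _ cac sac
  have h3 := hbound _ cbc sbc
  obtain ⟨p1, p2, p3⟩ := parity3 (Mx lt I) hM3 y hab hac hbc ht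
    (fun e he het => by rw [hz e he het]; exact Even.zero)
  have hm := mod3 (Mx lt I) hM3 y hab hac hbc ht hz
  rw [Int.even_iff] at p1 p2 p3
  refine ⟨nn (Mx lt I) y {a, b}, h1.1, h1.2, ?_⟩
  intro e he het
  have e1 : nn (Mx lt I) y {a, c} = nn (Mx lt I) y {a, b} := by omega
  have e2 : nn (Mx lt I) y {b, c} = nn (Mx lt I) y {a, b} := by omega
  rcases pair_cases ht he het with h | h | h
  · rw [h]
  · rw [h, e1]
  · rw [h, e2]

open Classical in
/-- the set of triangles with weight not half-integral -/
noncomputable def SS (T : Finset (Finset V)) (x : Finset V → ℚ) : Finset (Finset V) :=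
  T.filter fun f => ¬ IsH (x f)

include N R in
open Classical in
theorem step (hx0 : ∀ t, 0 ≤ x t)
    (hx : ∀ e : Finset V, e.card = 2 → IsZ (∑ g ∈ T.filter (fun g => e ⊆ g), x g))
    (ht0 : (t0 ∈ T ∧ t0 ∉ I) ∨ t0 = ∅)
    (hone : ∀ e : Finset V, e.card = 2 → e ⊆ t0 → ∀ f ∈ Mx lt I, ∀ g ∈ Mx lt I,
      e ⊆ f → e ⊆ g → f = g)
    (hhalf : ∀ f ∈ I, ∀ g ∈ T, lt g f → IsH (x g))
    {f1 : Finset V} (hf1 : f1 ∈ I) (hf1' : ¬ IsH (x f1)) :
    ∃ x' : Finset V → ℚ, (∀ t, 0 ≤ x' t) ∧
      (∀ e : Finset V, e.card = 2 → ∑ g ∈ T.filter (fun g => e ⊆ g), x' g =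
        ∑ g ∈ T.filter (fun g => e ⊆ g), x g) ∧ (SS T x').card < (SS T x).card := by
  have hf1M : f1 ∈ Mx lt I := by
    obtain ⟨f, hf, h | h⟩ := exists_max' N I hf1
    · rw [h]; exact hf
    · exact absurd (hhalf f (mem_Mx.1 hf).1 f1 (R.sub hf1) h) hf1'
  have hMT : ∀ f ∈ Mx lt I, f ∈ T := fun f hf => R.sub (mem_Mx.1 hf).1
  have hM3 : ∀ f ∈ Mx lt I, f.card = 3 := fun f hf => N.card3 f (hMT f hf)
  have haH : ∀ f ∈ Mx lt I, ∀ e : Finset V, IsH (aa T lt x e f) := by
    intro f hf e
    apply IsH.sum
    intro g hg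
    rw [Finset.mem_filter] at hg
    exact hhalf f (mem_Mx.1 hf).1 g hg.1 hg.2.1
  have hb : ∀ f ∈ Mx lt I, ∀ e1 e2 : Finset V, e1.card = 2 → e2.card = 2 → e1 ⊆ f → e2 ⊆ f →
      IsZ (bb T lt x e1 f - bb T lt x e2 f) := by
    intro f hf e1 e2 h1 h2 h3 h4
    rw [bb_eq N.irrefl (hMT f hf) h3, bb_eq N.irrefl (hMT f hf) h4]
    have := lemmaA N hx _ f (hMT f hf) rfl
      (fun g hg hgf => hhalf f (mem_Mx.1 hf).1 g hg hgf) e1 e2 h1 h2 h3 h4
    have e0 : x f + aa T lt x e1 f - (x f + aa T lt x e2 f) =
      aa T lt x e1 f - aa T lt x e2 f := by ring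
    rw [e0]
    exact this
  -- the choice of the sign
  have hchoice : ∃ (θ : ℚ) (n : ℤ), ¬ IsH θ ∧ (Cls T lt x θ f1 ∨ Cls T lt x (-θ) f1) ∧
      (n = 0 ∨ (n = 1 ∧ t0 ∈ T)) ∧
      (∀ e : Finset V, e.card = 2 → e ⊆ t0 → nn (Mx lt I) (yy T lt x θ) e = n) := by
    obtain ⟨e0, he0, he0f⟩ := exists_pair (hM3 f1 hf1M)
    set θ := bb T lt x e0 f1 with hθdef
    have hθ : ¬ IsH θ := by
      intro h
      apply hf1'
      rw [hθdef, bb_eq N.irrefl (hMT f1 hf1M) he0f] at h
      have := h.sub (haH f1 hf1M e0)
      simpa using this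
    have hc : Cls T lt x θ f1 := fun e1 h1 h2 => hb f1 hf1M e1 e0 h1 he0 h2 he0f
    rcases ht0 with ⟨htT, -⟩ | htE
    · obtain ⟨n, hn1, hn2, hn3⟩ := nn_const R N (y := yy T lt x θ)
        (fun f => yy_cases T lt x θ f) (fun e he het => nn_zero N R hx hb hθ he het) htT hone
      by_cases hn : 0 ≤ n
      · refine ⟨θ, n, hθ, Or.inl hc, ?_, hn3⟩
        rcases hn.eq_or_lt with h | h
        · exact Or.inl h.symm
        · exact Or.inr ⟨by omega, htT⟩
      · have hn' : n = -1 := by omega
        refine ⟨-θ, 1, fun h => hθ (by simpa using h.neg), Or.inr (by simpa using hc),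
          Or.inr ⟨rfl, htT⟩, ?_⟩
        intro e he het
        have := hn3 e he het
        unfold nn at this ⊢
        simp only [yy_neg, Finset.sum_neg_distrib]
        rw [this, hn']
        norm_num
    · refine ⟨θ, 0, hθ, Or.inl hc, Or.inl rfl, ?_⟩
      intro e he het
      rw [htE, Finset.subset_empty] at het
      rw [het] at he
      simp at he
  obtain ⟨θ, n, hθ, hcl, hn, hnn⟩ := hchoice
  -- the shift
  obtain ⟨r, hr0, hr1, hrH⟩ : ∃ r : ℚ, 0 < r ∧ r < 1 / 2 ∧ IsH (θ - r) := by
    refine ⟨θ - (⌊2 * θ⌋ : ℚ) / 2, ?_, ?_, ⟨⌊2 * θ⌋, by ring⟩⟩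
    · have h1 := Int.floor_le (2 * θ)
      rcases h1.eq_or_lt with h | h
      · exact absurd ⟨⌊2 * θ⌋, h.symm⟩ hθ
      · linarith
    · have h1 := Int.lt_floor_add_one (2 * θ)
      linarith
  have hn0 : (0 : ℤ) ≤ n := by rcases hn with h | h <;> omega
  have ht0M : t0 ∉ Mx lt I := by
    intro h
    rcases ht0 with ⟨-, h'⟩ | h'
    · exact h' (mem_Mx.1 h).1
    · have := hM3 t0 h
      rw [h'] at this
      simp at this
  have hpos : ∀ g ∈ Mx lt I, Cls T lt x θ g → IsH (x g - r) := by
    intro g hg h
    obtain ⟨e, he, heg⟩ := exists_pair (hM3 g hg)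
    have h1 := h e he heg
    rw [bb_eq N.irrefl (hMT g hg) heg] at h1
    have : x g - r = (x g + aa T lt x e g - θ) + (θ - r) - aa T lt x e g := by ring
    rw [this]
    exact (h1.toH.add hrH).sub (haH g hg e)
  have hneg : ∀ g ∈ Mx lt I, Cls T lt x (-θ) g → IsH (x g + r) := by
    intro g hg h
    obtain ⟨e, he, heg⟩ := exists_pair (hM3 g hg)
    have h1 := h e he heg
    rw [bb_eq N.irrefl (hMT g hg) heg] at h1
    have : x g + r = (x g + aa T lt x e g - -θ) - (θ - r) - aa T lt x e g := by ring
    rw [this]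
    exact (h1.toH.sub hrH).sub (haH g hg e)
  have hposS : ∀ g ∈ Mx lt I, Cls T lt x θ g → ¬ IsH (x g) := by
    intro g hg h h'
    apply hθ
    have : θ = x g - (x g - r) + (θ - r) := by ring
    rw [this]
    exact (h'.sub (hpos g hg h)).add hrH
  have hnegS : ∀ g ∈ Mx lt I, Cls T lt x (-θ) g → ¬ IsH (x g) := by
    intro g hg h h'
    apply hθ
    have : θ = (x g + r) - x g + (θ - r) := by ring
    rw [this]
    exact ((hneg g hg h).sub h').add hrH
  set Y : Finset V → ℤ := fun g => if g ∈ Mx lt I then yy T lt x θ g else 0 with hY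
  set x' : Finset V → ℚ := fun g => x g - r * Y g + (if g = t0 then n * r else 0) with hx'
  have hx'M : ∀ g ∈ Mx lt I, x' g = x g - r * yy T lt x θ g := by
    intro g hg
    have hne : g ≠ t0 := fun h => ht0M (by rw [← h]; exact hg)
    simp only [hx', hY, if_pos hg, if_neg hne, add_zero]
  have hx'n : ∀ g, g ∉ Mx lt I → x' g = x g + (if g = t0 then n * r else 0) := by
    intro g hg
    simp only [hx', hY, if_neg hg, Int.cast_zero, mul_zero, sub_zero]
  refine ⟨x', ?_, ?_, ?_⟩
  · intro g
    by_cases hg : g ∈ Mx lt I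
    · rw [hx'M g hg]
      by_cases h1 : Cls T lt x θ g
      · rw [yy_pos hθ (hM3 g hg) h1]
        obtain ⟨k, hk⟩ := hpos g hg h1
        have hk' : (-1 : ℚ) < k := by
          rw [← hk]
          have := hx0 g
          linarith
        have hk2 : (0 : ℤ) ≤ k := by
          have : (-1 : ℤ) < k := by exact_mod_cast hk'
          omega
        have hk3 : (0 : ℚ) ≤ k := by exact_mod_cast hk2
        rw [← hk] at hk3
        push_cast
        linarith
      · by_cases h2 : Cls T lt x (-θ) g
        · rw [yy_negc hθ (hM3 g hg) h2]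
          have := hx0 g
          push_cast
          linarith
        · rw [yy_zero h1 h2]
          have := hx0 g
          push_cast
          linarith
    · rw [hx'n g hg]
      have h1 := hx0 g
      have h2 : (0 : ℚ) ≤ if g = t0 then n * r else 0 := by
        split_ifs
        · exact mul_nonneg (by exact_mod_cast hn0) hr0.le
        · exact le_refl 0
      linarith
  · intro e he
    simp only [hx', Finset.sum_add_distrib, Finset.sum_sub_distrib, ← Finset.mul_sum]
    have h1 : ∑ g ∈ T.filter (fun g => e ⊆ g), (Y g : ℚ) =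
        ((nn (Mx lt I) (yy T lt x θ) e : ℤ) : ℚ) := by
      unfold nn
      push_cast
      have hsub : (Mx lt I).filter (fun f => e ⊆ f) ⊆ T.filter (fun g => e ⊆ g) := by
        intro g hg
        rw [Finset.mem_filter] at hg ⊢
        exact ⟨hMT g hg.1, hg.2⟩
      rw [← Finset.sum_subset hsub]
      · refine Finset.sum_congr rfl ?_
        intro g hg
        rw [Finset.mem_filter] at hg
        simp only [hY, if_pos hg.1]
      · intro g hg hng
        rw [Finset.mem_filter] at hg hng
        have : g ∉ Mx lt I := fun h => hng ⟨h, hg.2⟩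
        simp only [hY, if_neg this, Int.cast_zero]
    have h2 : ∑ g ∈ T.filter (fun g => e ⊆ g), (if g = t0 then (n : ℚ) * r else 0) =
        if t0 ∈ T ∧ e ⊆ t0 then (n : ℚ) * r else 0 := by
      rw [Finset.sum_ite_eq']
      simp only [Finset.mem_filter]
    rw [h1, h2]
    by_cases het : e ⊆ t0
    · have htT : t0 ∈ T := by
        rcases ht0 with ⟨h, -⟩ | h
        · exact h
        · rw [h, Finset.subset_empty] at het
          rw [het] at he
          simp at he
      rw [if_pos ⟨htT, het⟩, hnn e he het]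
      ring
    · rw [if_neg (fun h => het h.2), nn_zero N R hx hb hθ he het]
      simp
  · -- counting
    set C : Finset (Finset V) := (Mx lt I).filter
      (fun g => Cls T lt x θ g ∨ Cls T lt x (-θ) g) with hC
    have hCS : C ⊆ SS T x := by
      intro g hg
      rw [hC, Finset.mem_filter] at hg
      rw [SS, Finset.mem_filter]
      refine ⟨hMT g hg.1, ?_⟩
      rcases hg.2 with h | h
      · exact hposS g hg.1 h
      · exact hnegS g hg.1 h
    have hmain : ∀ g ∈ SS T x', (g = t0 ∧ n ≠ 0) ∨ g ∈ SS T x \ C := by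
      intro g hg
      rw [SS, Finset.mem_filter] at hg
      obtain ⟨hgT, hgH⟩ := hg
      by_cases hgM : g ∈ Mx lt I
      · rw [hx'M g hgM] at hgH
        have c1 : ¬ Cls T lt x θ g := by
          intro h
          apply hgH
          rw [yy_pos hθ (hM3 g hgM) h]
          simpa using hpos g hgM h
        have c2 : ¬ Cls T lt x (-θ) g := by
          intro h
          apply hgH
          rw [yy_negc hθ (hM3 g hgM) h]
          simpa using hneg g hgM h
        rw [yy_zero c1 c2] at hgH
        right
        rw [Finset.mem_sdiff, SS, Finset.mem_filter, hC, Finset.mem_filter]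
        refine ⟨⟨hgT, by simpa using hgH⟩, ?_⟩
        rintro ⟨-, h | h⟩
        · exact c1 h
        · exact c2 h
      · rw [hx'n g hgM] at hgH
        by_cases hg0 : g = t0 ∧ n ≠ 0
        · exact Or.inl hg0
        · right
          rw [Finset.mem_sdiff, SS, Finset.mem_filter, hC, Finset.mem_filter]
          refine ⟨⟨hgT, ?_⟩, fun h => hgM h.1⟩
          by_cases h0 : g = t0
          · have hn' : n = 0 := by
              by_contra hne
              exact hg0 ⟨h0, hne⟩
            rw [if_pos h0, hn'] at hgH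
            simpa using hgH
          · rw [if_neg h0] at hgH
            simpa using hgH
    have hf1C : f1 ∈ C := by
      rw [hC, Finset.mem_filter]
      exact ⟨hf1M, hcl⟩
    have hcardC : (SS T x \ C).card = (SS T x).card - C.card := Finset.card_sdiff_of_subset hCS
    have hCle := Finset.card_le_card hCS
    have hCpos : 0 < C.card := Finset.card_pos.2 ⟨f1, hf1C⟩
    rcases hn with hn | ⟨hn, htT⟩
    · have hsub : SS T x' ⊆ SS T x \ C := by
        intro g hg
        rcases hmain g hg with h | h
        · exact absurd hn h.2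
        · exact h
      have := Finset.card_le_card hsub
      omega
    · have hsub : SS T x' ⊆ insert t0 (SS T x \ C) := by
        intro g hg
        rw [Finset.mem_insert]
        rcases hmain g hg with h | h
        · exact Or.inl h.1
        · exact Or.inr h
      have h1 := Finset.card_le_card hsub
      have h2 := Finset.card_insert_le t0 (SS T x \ C)
      have hC2 : 2 ≤ C.card := by
        obtain ⟨a, b, c, hab, hac, hbc, ht⟩ := Finset.card_eq_three.1 (N.card3 t0 htT)
        have hfind : ∀ e : Finset V, e.card = 2 → e ⊆ t0 → ∃ f ∈ C, e ⊆ f := by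
          intro e he het
          by_contra hcon
          push Not at hcon
          have h3 := hnn e he het
          have h4 : nn (Mx lt I) (yy T lt x θ) e = 0 := by
            unfold nn
            apply Finset.sum_eq_zero
            intro f hf
            rw [Finset.mem_filter] at hf
            have hfC : f ∉ C := fun h => hcon f h hf.2
            rw [hC, Finset.mem_filter] at hfC
            push Not at hfC
            obtain ⟨c1, c2⟩ := hfC hf.1
            exact yy_zero c1 c2
          omega
        have sab : ({a, b} : Finset V) ⊆ t0 := by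
          rw [ht]; intro z; simp only [Finset.mem_insert, Finset.mem_singleton]; tauto
        have sac : ({a, c} : Finset V) ⊆ t0 := by
          rw [ht]; intro z; simp only [Finset.mem_insert, Finset.mem_singleton]; tauto
        obtain ⟨f, hf, hef⟩ := hfind {a, b} (Finset.card_pair hab) sab
        obtain ⟨f', hf', hef'⟩ := hfind {a, c} (Finset.card_pair hac) sac
        have hne : f ≠ f' := by
          intro h
          rw [← h] at hef'
          have hfM : f ∈ Mx lt I := (Finset.mem_filter.1 hf).1
          have hsubf : t0 ⊆ f := by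
            rw [ht]
            intro z hz
            simp only [Finset.mem_insert, Finset.mem_singleton] at hz
            rcases hz with rfl | rfl | rfl
            · exact hef (by simp)
            · exact hef (by simp)
            · exact hef' (by simp)
          have : t0 = f := Finset.eq_of_subset_of_card_le hsubf
            (by rw [hM3 f hfM, N.card3 t0 htT])
          exact ht0M (by rw [this]; exact hfM)
        have : 1 < C.card := Finset.one_lt_card.2 ⟨f, hf, f', hf', hne⟩
        omega
      omega

end region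

open Classical in
/-- **Half-integrality.** In a laminar system of triples, a nonnegative weighting with integral
sums at all pairs can be replaced by a half-integral one with the same sums. -/
theorem half_integral {T : Finset (Finset V)} {lt side : Finset V → Finset V → Prop}
    (N : Nest T lt side) : ∀ (m : ℕ) (x : Finset V → ℚ), (SS T x).card = m → (∀ t, 0 ≤ x t) →
    (∀ e : Finset V, e.card = 2 → IsZ (∑ g ∈ T.filter (fun g => e ⊆ g), x g)) →
    ∃ x' : Finset V → ℚ, (∀ t, 0 ≤ x' t) ∧ (∀ t ∈ T, IsH (x' t)) ∧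
      ∀ e : Finset V, e.card = 2 → ∑ g ∈ T.filter (fun g => e ⊆ g), x' g =
        ∑ g ∈ T.filter (fun g => e ⊆ g), x g := by
  intro m
  induction m using Nat.strong_induction_on with
  | _ m ih =>
    intro x hm hx0 hx
    have fin : (∃ x' : Finset V → ℚ, (∀ t, 0 ≤ x' t) ∧
        (∀ e : Finset V, e.card = 2 → ∑ g ∈ T.filter (fun g => e ⊆ g), x' g =
          ∑ g ∈ T.filter (fun g => e ⊆ g), x g) ∧ (SS T x').card < (SS T x).card) →
        ∃ x' : Finset V → ℚ, (∀ t, 0 ≤ x' t) ∧ (∀ t ∈ T, IsH (x' t)) ∧
        ∀ e : Finset V, e.card = 2 → ∑ g ∈ T.filter (fun g => e ⊆ g), x' g =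
          ∑ g ∈ T.filter (fun g => e ⊆ g), x g := by
      rintro ⟨x1, h1, h2, h3⟩
      rw [hm] at h3
      obtain ⟨x2, h4, h5, h6⟩ := ih _ h3 x1 rfl h1 (fun e he => by rw [h2 e he]; exact hx e he)
      exact ⟨x2, h4, h5, fun e he => (h6 e he).trans (h2 e he)⟩
    by_cases hS : ∀ f ∈ T, IsH (x f)
    · exact ⟨x, hx0, hS, fun _ _ => rfl⟩
    · push Not at hS
      obtain ⟨f1, hf1, hf1'⟩ := hS
      apply fin
      by_cases hex : ∃ t ∈ T, ∃ f ∈ T, lt f t ∧ ¬ IsH (x f)
      · -- choose a minimal such triangle
        have hmin : ∀ (k : ℕ) (t : Finset V), t ∈ T → (T.filter fun g => lt g t).card = k →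
            (∃ f ∈ T, lt f t ∧ ¬ IsH (x f)) →
            ∃ t' ∈ T, (∃ f ∈ T, lt f t' ∧ ¬ IsH (x f)) ∧
              ∀ s ∈ T, lt s t' → ∀ f ∈ T, lt f s → IsH (x f) := by
          intro k
          induction k using Nat.strong_induction_on with
          | _ k ihk =>
            intro t ht hk hf
            by_cases hall : ∀ s ∈ T, lt s t → ∀ f ∈ T, lt f s → IsH (x f)
            · exact ⟨t, ht, hf, hall⟩
            · push Not at hall
              obtain ⟨s, hs, hst, f, hfT, hfs, hfH⟩ := hall
              refine ihk _ ?_ s hs rfl ⟨f, hfT, hfs, hfH⟩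
              rw [← hk]
              apply Finset.card_lt_card
              rw [Finset.ssubset_iff_of_subset]
              · exact ⟨s, Finset.mem_filter.2 ⟨hs, hst⟩, fun h =>
                  N.irrefl s (Finset.mem_filter.1 h).2⟩
              · intro g hg
                rw [Finset.mem_filter] at hg ⊢
                exact ⟨hg.1, N.trans _ _ _ hg.2 hst⟩
        obtain ⟨t, ht, hf⟩ := hex
        obtain ⟨t0, ht0, ⟨f, hfT, hft, hfH⟩, hall⟩ := hmin _ t ht rfl hf
        refine step N (region_in N ht0) hx0 hx (Or.inl ⟨ht0, ?_⟩) ?_ ?_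
          (f1 := f) (Finset.mem_filter.2 ⟨hfT, hft⟩) hfH
        · intro h
          exact N.irrefl t0 (Finset.mem_filter.1 h).2
        · intro e he het f hf g hg hef heg
          have hf' := Finset.mem_filter.1 (mem_Mx.1 hf).1
          have hg' := Finset.mem_filter.1 (mem_Mx.1 hg).1
          have s1 := N.sideInh f hf'.1 t0 ht0 e he hef het hf'.2
          have s2 := N.sideInh g hg'.1 t0 ht0 e he heg het hg'.2
          exact side_unique N he (Finset.filter_subset _ _) hf hg hef heg (s1.trans s2.symm)
        · intro s hs g hg hgs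
          rw [Finset.mem_filter] at hs
          exact hall s hs.1 hs.2 g hg hgs
      · push Not at hex
        refine step N (region_all (T := T) (lt := lt)) hx0 hx (Or.inr rfl) ?_ ?_
          (f1 := f1) hf1 hf1'
        · intro e he het
          rw [Finset.subset_empty] at het
          rw [het] at he
          simp at he
        · intro s hs g hg hgs
          exact hex s hs g hg hgs

end Pool.Agent.Q133.HT
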