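import Mathlib

/-! Definitions: multigraphs, planarity, rational triangle decompositions. -/

set_option autoImplicit false

namespace Pool.Agent.Q133.HT

/-- A multigraph with vertices `V` and edges `E`: every edge joins two distinct vertices (there are
no loops); several edges may join the same two vertices. -/
structure Multigraph (V E : Type) where
  ends : E → Sym2 V
  noLoop : ∀ e, ¬ (ends e).IsDiag

/-- The underlying simple graph: two vertices are adjacent if some edge joins them. -/
def Multigraph.simple {V E : Type} (G : Multigraph V E) : SimpleGraph V where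
  Adj u v := ∃ e, G.ends e = s(u, v)
  symm := ⟨fun u v ⟨e, he⟩ => ⟨e, by rw [he, Sym2.eq_swap]⟩⟩
  loopless := ⟨fun u ⟨e, he⟩ => G.noLoop e (by rw [he]; exact Sym2.mk_isDiag_iff.2 rfl)⟩

/-- A simple graph is planar: it has a straight-line drawing in the plane, with distinct points as
vertices, in which no vertex lies on an edge it is not an end of, and edges without common end are
disjoint. -/
def IsPlanar {V : Type} (H : SimpleGraph V) : Prop :=
  ∃ p : V → ℝ × ℝ, Function.Injective p ∧
    (∀ u v w, H.Adj u v → w ≠ u → w ≠ v → p w ∉ segment ℝ (p u) (p v)) ∧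
    ∀ u v x y, H.Adj u v → H.Adj x y → u ≠ x → u ≠ y → v ≠ x → v ≠ y →
      Disjoint (segment ℝ (p u) (p v)) (segment ℝ (p x) (p y))

/-- A triangle of a multigraph: a set of three edges `a`, `b`, `c` which join the three pairs of
three distinct vertices `u`, `v`, `w`. -/
def Multigraph.IsTriangle {V E : Type} [DecidableEq E] (G : Multigraph V E) (t : Finset E) :
    Prop :=
  ∃ (u v w : V) (a b c : E), u ≠ v ∧ v ≠ w ∧ u ≠ w ∧
    G.ends a = s(u, v) ∧ G.ends b = s(v, w) ∧ G.ends c = s(u, w) ∧ t = {a, b, c}

/-- `ω` is a rational `K_3`-decomposition: nonnegative rational weights on the triangles such that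
the weights of the triangles containing any given edge sum to 1. -/
def Multigraph.IsRatDecomp {V E : Type} [Fintype E] [DecidableEq E] (G : Multigraph V E)
    (ω : Finset E → ℚ) : Prop :=
  (∀ t, 0 ≤ ω t) ∧ (∀ t, ¬ G.IsTriangle t → ω t = 0) ∧
    ∀ e : E, ∑ t ∈ Finset.univ.filter (fun t : Finset E => e ∈ t), ω t = 1

end Pool.Agent.Q133.HT
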