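import Pool.Agent.Q133.HT3

/-! The triangles of a graph drawn with straight edges in the plane form a laminar system. -/

set_option autoImplicit false

namespace Pool.Agent.Q133.HT

open Finset

set_option linter.unusedSectionVars false

/-- orientation determinant -/
def dd (a b c : ℝ × ℝ) : ℝ := (b.1 - a.1) * (c.2 - a.2) - (b.2 - a.2) * (c.1 - a.1)

theorem dd_swap (a b c : ℝ × ℝ) : dd b a c = - dd a b c := by simp only [dd]; ring
theorem dd_rot (a b c : ℝ × ℝ) : dd b c a = dd a b c := by simp only [dd]; ring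
theorem dd_self (a b : ℝ × ℝ) : dd a b a = 0 := by simp only [dd]; ring
theorem dd_self' (a b : ℝ × ℝ) : dd a b b = 0 := by simp only [dd]; ring

theorem dd_comb (a b z w : ℝ × ℝ) {s t : ℝ} (h : s + t = 1) :
    dd a b (s • z + t • w) = s * dd a b z + t * dd a b w := by
  have : s = 1 - t := by linarith
  subst this
  simp only [dd, Prod.fst_add, Prod.snd_add, Prod.smul_fst, Prod.smul_snd, smul_eq_mul]
  ring

theorem convex_half (a b : ℝ × ℝ) : Convex ℝ {z | 0 ≤ dd a b z} := by
  intro z hz w hw s t hs ht hst
  simp only [Set.mem_ofPred_eq] at *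
  rw [dd_comb a b z w hst]
  exact add_nonneg (mul_nonneg hs hz) (mul_nonneg ht hw)

theorem convex_lt (a b : ℝ × ℝ) (c : ℝ) : Convex ℝ {z | dd a b z < c} := by
  intro z hz w hw s t hs ht hst
  simp only [Set.mem_ofPred_eq] at *
  rw [dd_comb a b z w hst]
  rcases hs.eq_or_lt with h | h
  · have : t = 1 := by linarith
    rw [← h, this]
    linarith
  · have h1 := mul_lt_mul_of_pos_left hz h
    have h2 := mul_le_mul_of_nonneg_left hw.le ht
    have h3 : s * c + t * c = c := by rw [← add_mul, hst, one_mul]
    linarith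

/-- barycentric coordinates -/
theorem bary {a b c : ℝ × ℝ} (h : dd a b c ≠ 0) (z : ℝ × ℝ) :
    z = (dd b c z / dd a b c) • a + (dd c a z / dd a b c) • b + (dd a b z / dd a b c) • c := by
  apply Prod.ext
  · simp only [Prod.fst_add, Prod.smul_fst, smul_eq_mul]
    field_simp
    simp only [dd]
    ring
  · simp only [Prod.snd_add, Prod.smul_snd, smul_eq_mul]
    field_simp
    simp only [dd]
    ring

theorem bary_sum (a b c z : ℝ × ℝ) : dd b c z + dd c a z + dd a b z = dd a b c := by
  simp only [dd]
  ring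

theorem hull_iff {a b c : ℝ × ℝ} (h : 0 < dd a b c) (z : ℝ × ℝ) :
    z ∈ convexHull ℝ ({a, b, c} : Set (ℝ × ℝ)) ↔ 0 ≤ dd a b z ∧ 0 ≤ dd b c z ∧ 0 ≤ dd c a z := by
  constructor
  · intro hz
    have h1 : convexHull ℝ ({a, b, c} : Set (ℝ × ℝ)) ⊆
        {z | 0 ≤ dd a b z} ∩ ({z | 0 ≤ dd b c z} ∩ {z | 0 ≤ dd c a z}) := by
      apply convexHull_min
      · intro w hw
        simp only [Set.mem_insert_iff, Set.mem_singleton_iff] at hw
        simp only [Set.mem_inter_iff, Set.mem_ofPred_eq]
        rcases hw with rfl | rfl | rfl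
        · rw [dd_self, dd_self', dd_rot]
          exact ⟨le_refl _, h.le, le_refl _⟩
        · rw [dd_self', dd_self]
          refine ⟨le_refl _, le_refl _, ?_⟩
          have : dd c a w = dd a w c := by simp only [dd]; ring
          rw [this]
          exact h.le
        · rw [dd_self', dd_self]
          exact ⟨h.le, le_refl _, le_refl _⟩
      · exact (convex_half a b).inter ((convex_half b c).inter (convex_half c a))
    exact h1 hz
  · rintro ⟨h1, h2, h3⟩
    rw [bary h.ne' z]
    have hs := bary_sum a b c z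
    have hconv := convex_convexHull ℝ ({a, b, c} : Set (ℝ × ℝ))
    have := hconv.sum_mem (t := (Finset.univ : Finset (Fin 3)))
      (w := ![dd b c z / dd a b c, dd c a z / dd a b c, dd a b z / dd a b c])
      (z := ![a, b, c]) (by
        intro i _
        fin_cases i
        · exact div_nonneg h2 h.le
        · exact div_nonneg h3 h.le
        · exact div_nonneg h1 h.le) (by
        simp only [Fin.sum_univ_three, Matrix.cons_val_zero, Matrix.cons_val_one,
          Matrix.cons_val]
        rw [← add_div, ← add_div, hs, div_self h.ne']) (by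
        intro i _
        apply subset_convexHull
        fin_cases i <;> simp)
    simpa [Fin.sum_univ_three] using this

theorem mem_seg_of_hull {a b c z : ℝ × ℝ} (h : 0 < dd a b c)
    (h2 : 0 ≤ dd b c z) (h3 : 0 ≤ dd c a z) (h0 : dd a b z = 0) : z ∈ segment ℝ a b := by
  refine ⟨dd b c z / dd a b c, dd c a z / dd a b c, div_nonneg h2 h.le, div_nonneg h3 h.le, ?_, ?_⟩
  · have hs := bary_sum a b c z
    rw [h0, add_zero] at hs
    rw [← add_div, hs, div_self h.ne']
  · conv_rhs => rw [bary h.ne' z, h0]
    simp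

/-- collinear points -/
theorem collinear_cases {a b c : ℝ × ℝ} (hab : a ≠ b) (h : dd a b c = 0) :
    c ∈ segment ℝ a b ∨ a ∈ segment ℝ b c ∨ b ∈ segment ℝ a c := by
  obtain ⟨τ, hτ⟩ : ∃ τ : ℝ, c = (1 - τ) • a + τ • b := by
    by_cases h1 : b.1 - a.1 = 0
    · have h2 : b.2 - a.2 ≠ 0 := by
        intro h2
        apply hab
        apply Prod.ext <;> linarith
      refine ⟨(c.2 - a.2) / (b.2 - a.2), ?_⟩
      have h3 : c.1 = a.1 := by
        simp only [dd, h1, zero_mul, zero_sub, neg_eq_zero, mul_eq_zero] at h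
        rcases h with h | h
        · exact absurd h h2
        · linarith
      apply Prod.ext
      · simp only [Prod.fst_add, Prod.smul_fst, smul_eq_mul]
        have : b.1 = a.1 := by linarith
        rw [this, h3]
        ring
      · simp only [Prod.snd_add, Prod.smul_snd, smul_eq_mul]
        field_simp
        ring
    · refine ⟨(c.1 - a.1) / (b.1 - a.1), ?_⟩
      have h3 : c.2 - a.2 = (b.2 - a.2) * (c.1 - a.1) / (b.1 - a.1) := by
        rw [eq_div_iff h1]
        simp only [dd] at h
        linarith
      apply Prod.ext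
      · simp only [Prod.fst_add, Prod.smul_fst, smul_eq_mul]
        field_simp
        ring
      · simp only [Prod.snd_add, Prod.smul_snd, smul_eq_mul]
        have : c.2 = a.2 + (b.2 - a.2) * (c.1 - a.1) / (b.1 - a.1) := by linarith
        rw [this]
        field_simp
        ring
  by_cases h0 : τ < 0
  · right; left
    -- a is between b and c
    refine ⟨-τ / (1 - τ), 1 / (1 - τ), div_nonneg (by linarith) (by linarith),
      div_nonneg (by linarith) (by linarith), ?_, ?_⟩
    · have : (1 - τ) ≠ 0 := by linarith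
      field_simp
      ring
    · rw [hτ]
      have : (1 - τ) ≠ 0 := by linarith
      apply Prod.ext
      · simp only [Prod.fst_add, Prod.smul_fst, smul_eq_mul]
        field_simp
        ring
      · simp only [Prod.snd_add, Prod.smul_snd, smul_eq_mul]
        field_simp
        ring
  · by_cases h1 : τ ≤ 1
    · left
      exact ⟨1 - τ, τ, by linarith, by linarith, by ring, hτ.symm⟩
    · right; right
      -- b is between a and c
      have hpos : 0 < τ := by linarith
      refine ⟨(τ - 1) / τ, 1 / τ, div_nonneg (by linarith) hpos.le,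
        div_nonneg (by linarith) hpos.le, ?_, ?_⟩
      · field_simp
        ring
      · rw [hτ]
        apply Prod.ext
        · simp only [Prod.fst_add, Prod.smul_fst, smul_eq_mul]
          field_simp
          ring
        · simp only [Prod.snd_add, Prod.smul_snd, smul_eq_mul]
          field_simp
          ring

/-- properly crossing segments meet -/
theorem cross_point {a b c d : ℝ × ℝ} (h1 : 0 < dd a b c) (h2 : dd a b d < 0)
    (h3 : dd c d a < 0) (h4 : 0 < dd c d b) :
    ∃ z, z ∈ segment ℝ a b ∧ z ∈ segment ℝ c d := by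
  have hD : 0 < dd c d b - dd c d a := by linarith
  have hD' : dd a b c - dd a b d = dd c d b - dd c d a := by simp only [dd]; ring
  refine ⟨(dd c d b / (dd c d b - dd c d a)) • a + (-dd c d a / (dd c d b - dd c d a)) • b,
    ⟨_, _, div_nonneg h4.le hD.le, div_nonneg (by linarith) hD.le, ?_, rfl⟩,
    ⟨-dd a b d / (dd a b c - dd a b d), dd a b c / (dd a b c - dd a b d),
      div_nonneg (by linarith) (by linarith), div_nonneg h1.le (by linarith), ?_, ?_⟩⟩
  · rw [← add_div]
    rw [show dd c d b + -dd c d a = dd c d b - dd c d a by ring, div_self hD.ne']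
  · rw [← add_div]
    rw [show -dd a b d + dd a b c = dd a b c - dd a b d by ring, div_self (by linarith)]
  · rw [hD']
    apply Prod.ext
    · simp only [Prod.fst_add, Prod.smul_fst, smul_eq_mul]
      field_simp
      simp only [dd]
      ring
    · simp only [Prod.snd_add, Prod.smul_snd, smul_eq_mul]
      field_simp
      simp only [dd]
      ring

/-- first exit from a triangle -/
theorem exit_time {α β : Fin 3 → ℝ} (hα : ∀ i, 0 < α i) (hβ : ∃ i, β i < 0) :
    ∃ s : ℝ, 0 ≤ s ∧ s ≤ 1 ∧ (∀ j, 0 ≤ (1 - s) * α j + s * β j) ∧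
      ∃ i, (1 - s) * α i + s * β i = 0 := by
  classical
  obtain ⟨i0, hi0⟩ := hβ
  obtain ⟨i, hi, hmin⟩ := Finset.exists_min_image (Finset.univ.filter fun i => β i < 0)
    (fun i => α i / (α i - β i)) ⟨i0, by simp [hi0]⟩
  simp only [Finset.mem_filter, Finset.mem_univ, true_and] at hi hmin
  have hpos : 0 < α i - β i := by have := hα i; linarith
  refine ⟨α i / (α i - β i), div_nonneg (hα i).le hpos.le, ?_, ?_, i, ?_⟩
  · rw [div_le_one hpos]
    linarith
  · intro j
    set s := α i / (α i - β i) with hs
    by_cases hj : β j < 0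
    · have h1 := hmin j hj
      have hpj : 0 < α j - β j := by have := hα j; linarith
      rw [le_div_iff₀ hpj] at h1
      nlinarith [h1]
    · push Not at hj
      have hs1 : s ≤ 1 := by rw [hs, div_le_one hpos]; linarith
      have hs0 : 0 ≤ s := by rw [hs]; exact div_nonneg (hα i).le hpos.le
      have := mul_nonneg (sub_nonneg.2 hs1) (hα j).le
      have := mul_nonneg hs0 hj
      linarith
  · field_simp
    ring

/-- straight-line drawings -/
structure Drw {V : Type} (H : SimpleGraph V) (p : V → ℝ × ℝ) : Prop where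
  inj : Function.Injective p
  novert : ∀ u v w, H.Adj u v → w ≠ u → w ≠ v → p w ∉ segment ℝ (p u) (p v)
  nocross : ∀ u v x y, H.Adj u v → H.Adj x y → u ≠ x → u ≠ y → v ≠ x → v ≠ y →
    Disjoint (segment ℝ (p u) (p v)) (segment ℝ (p x) (p y))

variable {V : Type} [Fintype V] [DecidableEq V] {H : SimpleGraph V} {p : V → ℝ × ℝ}

theorem nondeg (D : Drw H p) {u v w : V} (huv : H.Adj u v) (huw : H.Adj u w) (hvw : H.Adj v w) :
    dd (p u) (p v) (p w) ≠ 0 := by
  intro h
  rcases collinear_cases (fun h' => huv.ne (D.inj h')) h with h | h | h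
  · exact D.novert u v w huv huw.ne' hvw.ne' h
  · exact D.novert v w u hvw huv.ne huw.ne h
  · exact D.novert u w v huw huv.ne' hvw.ne h

/-- closed region of a triple -/
def reg (p : V → ℝ × ℝ) (t : Finset V) : Set (ℝ × ℝ) := convexHull ℝ (p '' (t : Set V))

theorem reg_eq (p : V → ℝ × ℝ) (a b c : V) :
    reg p {a, b, c} = convexHull ℝ ({p a, p b, p c} : Set (ℝ × ℝ)) := by
  unfold reg
  congr 1
  ext z
  simp only [Finset.coe_insert, Finset.coe_singleton, Set.mem_image, Set.mem_insert_iff,
    Set.mem_singleton_iff]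
  constructor
  · rintro ⟨v, rfl | rfl | rfl, rfl⟩ <;> simp
  · rintro (h | h | h)
    · exact ⟨a, Or.inl rfl, h.symm⟩
    · exact ⟨b, Or.inr (Or.inl rfl), h.symm⟩
    · exact ⟨c, Or.inr (Or.inr rfl), h.symm⟩

/-- triples oriented positively -/
theorem exists_oriented (D : Drw H p) {t : Finset V} (ht : H.IsNClique 3 t) :
    ∃ a b c, t = {a, b, c} ∧ H.Adj a b ∧ H.Adj b c ∧ H.Adj c a ∧
      0 < dd (p a) (p b) (p c) := by
  obtain ⟨a, b, c, hab, hac, hbc, rfl⟩ := SimpleGraph.is3Clique_iff.1 ht
  rcases lt_or_gt_of_ne (nondeg D hab hac hbc) with h | h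
  · refine ⟨b, a, c, ?_, hab.symm, hac, hbc.symm, ?_⟩
    · rw [Finset.insert_comm]
    · rw [dd_swap]; linarith
  · exact ⟨a, b, c, rfl, hab, hbc, hac.symm, h⟩

/-- a vertex inside a triangle and different from its corners is strictly inside -/
theorem strict_inside (D : Drw H p) {a b c u : V} (hab : H.Adj a b) (hbc : H.Adj b c)
    (hca : H.Adj c a) (ho : 0 < dd (p a) (p b) (p c)) (hu : u ∉ ({a, b, c} : Finset V))
    (hin : p u ∈ reg p {a, b, c}) :
    0 < dd (p a) (p b) (p u) ∧ 0 < dd (p b) (p c) (p u) ∧ 0 < dd (p c) (p a) (p u) := by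
  rw [reg_eq, hull_iff ho] at hin
  obtain ⟨h1, h2, h3⟩ := hin
  simp only [Finset.mem_insert, Finset.mem_singleton, not_or] at hu
  obtain ⟨ua, ub, uc⟩ := hu
  refine ⟨?_, ?_, ?_⟩
  · rcases h1.eq_or_lt with h | h
    · exact absurd (mem_seg_of_hull ho h2 h3 h.symm) (D.novert a b u hab ua ub)
    · exact h
  · rcases h2.eq_or_lt with h | h
    · exact absurd (mem_seg_of_hull (by rw [dd_rot]; exact ho) h3 h1 h.symm)
        (D.novert b c u hbc ub uc)
    · exact h
  · rcases h3.eq_or_lt with h | h
    · exact absurd (mem_seg_of_hull (by rw [← dd_rot, ← dd_rot] at ho; exact ho) h1 h2 h.symm)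
        (D.novert c a u hca uc ua)
    · exact h

/-- neighbours of a vertex strictly inside a triangle stay inside -/
theorem stay (D : Drw H p) {t : Finset V} (ht : H.IsNClique 3 t) {u w : V} (hu : u ∉ t)
    (hin : p u ∈ reg p t) (huw : H.Adj u w) : p w ∈ reg p t := by
  obtain ⟨a, b, c, rfl, hab, hbc, hca, ho⟩ := exists_oriented D ht
  obtain ⟨s1, s2, s3⟩ := strict_inside D hab hbc hca ho hu hin
  by_contra hcon
  have hw : w ∉ ({a, b, c} : Finset V) := by
    intro h
    apply hcon
    apply subset_convexHull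
    exact ⟨w, h, rfl⟩
  rw [reg_eq, hull_iff ho] at hcon
  simp only [Finset.mem_insert, Finset.mem_singleton, not_or] at hu hw
  obtain ⟨s, hs0, hs1, hall, i, hi⟩ := exit_time
    (α := ![dd (p a) (p b) (p u), dd (p b) (p c) (p u), dd (p c) (p a) (p u)])
    (β := ![dd (p a) (p b) (p w), dd (p b) (p c) (p w), dd (p c) (p a) (p w)])
    (by
      intro i
      fin_cases i
      · exact s1
      · exact s2
      · exact s3)
    (by
      by_contra h
      push Not at h
      apply hcon
      exact ⟨h 0, h 1, h 2⟩)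
  set z : ℝ × ℝ := (1 - s) • p u + s • p w with hz
  have hst : (1 - s) + s = 1 := by ring
  have z1 : 0 ≤ dd (p a) (p b) z := by rw [hz, dd_comb _ _ _ _ hst]; exact hall 0
  have z2 : 0 ≤ dd (p b) (p c) z := by rw [hz, dd_comb _ _ _ _ hst]; exact hall 1
  have z3 : 0 ≤ dd (p c) (p a) z := by rw [hz, dd_comb _ _ _ _ hst]; exact hall 2
  have zseg : z ∈ segment ℝ (p u) (p w) := ⟨1 - s, s, by linarith, hs0, hst, rfl⟩
  fin_cases i
  · have z0 : dd (p a) (p b) z = 0 := by rw [hz, dd_comb _ _ _ _ hst]; exact hi
    exact Set.disjoint_left.1 (D.nocross u w a b huw hab hu.1 hu.2.1 hw.1 hw.2.1) zseg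
      (mem_seg_of_hull ho z2 z3 z0)
  · have z0 : dd (p b) (p c) z = 0 := by rw [hz, dd_comb _ _ _ _ hst]; exact hi
    exact Set.disjoint_left.1 (D.nocross u w b c huw hbc hu.2.1 hu.2.2 hw.2.1 hw.2.2) zseg
      (mem_seg_of_hull (by rw [dd_rot]; exact ho) z3 z1 z0)
  · have z0 : dd (p c) (p a) z = 0 := by rw [hz, dd_comb _ _ _ _ hst]; exact hi
    exact Set.disjoint_left.1 (D.nocross u w c a huw hca hu.2.2 hu.1 hw.2.2 hw.1) zseg
      (mem_seg_of_hull (by rw [← dd_rot, ← dd_rot] at ho; exact ho) z1 z2 z0)

/-- weak nesting -/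
def le' (p : V → ℝ × ℝ) (f t : Finset V) : Prop := ∀ v ∈ f, p v ∈ reg p t

theorem le'_reg {f t : Finset V} (h : le' p f t) : reg p f ⊆ reg p t := by
  apply convexHull_min
  · rintro _ ⟨v, hv, rfl⟩
    exact h v hv
  · exact convex_convexHull ℝ _

theorem le'_trans {f g t : Finset V} (h1 : le' p f g) (h2 : le' p g t) : le' p f t :=
  fun v hv => le'_reg h2 (h1 v hv)

/-- a corner of `t` which lies in `f ⊴ t` is a corner of `f` -/
theorem corner_mem (D : Drw H p) {t f : Finset V} (ht : H.IsNClique 3 t) (hft : le' p f t)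
    {v : V} (hv : v ∈ t) (hvf : p v ∈ reg p f) : v ∈ f := by
  by_contra hcon
  obtain ⟨a, b, c, rfl, hab, hbc, hca, ho⟩ := exists_oriented D ht
  -- rotate so that `v = c`
  have key : ∀ x y z : V, ({x, y, z} : Finset V) = {a, b, c} → 0 < dd (p x) (p y) (p z) →
      v = z → False := by
    intro x y z hxyz hpos hvz
    subst hvz
    have hsub : p '' (f : Set V) ⊆ {w | dd (p x) (p y) w < dd (p x) (p y) (p v)} := by
      rintro _ ⟨q, hq, rfl⟩
      have hq1 : p q ∈ reg p {x, y, v} := by
        rw [hxyz]; exact hft q hq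
      rw [reg_eq, hull_iff hpos] at hq1
      obtain ⟨h1, h2, h3⟩ := hq1
      simp only [Set.mem_ofPred_eq]
      have hs := bary_sum (p x) (p y) (p v) (p q)
      have hle : dd (p x) (p y) (p q) ≤ dd (p x) (p y) (p v) := by linarith
      rcases hle.eq_or_lt with h | h
      · exfalso
        have e2 : dd (p y) (p v) (p q) = 0 := by linarith
        have e3 : dd (p v) (p x) (p q) = 0 := by linarith
        have hb := bary hpos.ne' (p q)
        rw [e2, e3, h, zero_div, zero_smul, zero_smul, zero_add, zero_add, div_self hpos.ne',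
          one_smul] at hb
        apply hcon
        rw [← D.inj hb]
        exact hq
      · exact h
    have h1 := convexHull_min hsub (convex_lt (p x) (p y) _) hvf
    simp only [Set.mem_ofPred_eq, lt_self_iff_false] at h1
  simp only [Finset.mem_insert, Finset.mem_singleton] at hv
  rcases hv with h | h | h
  · exact key b c a (by ext z; simp only [Finset.mem_insert, Finset.mem_singleton]; tauto)
      (by rw [dd_rot]; exact ho) h
  · exact key c a b (by ext z; simp only [Finset.mem_insert, Finset.mem_singleton]; tauto)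
      (by rw [← dd_rot, ← dd_rot] at ho; exact ho) h
  · exact key a b c rfl ho h

theorem le'_antisymm (D : Drw H p) {f t : Finset V} (hf : H.IsNClique 3 f)
    (ht : H.IsNClique 3 t) (h1 : le' p f t) (h2 : le' p t f) : f = t := by
  apply Finset.eq_of_subset_of_card_le
  · intro v hv
    exact corner_mem D hf h2 hv (h1 v hv)
  · rw [hf.card_eq, ht.card_eq]

/-- the two members of a pair -/
theorem pair_exists {e : Finset V} (he : e.card = 2) : ∃ q : V × V, q.1 ≠ q.2 ∧ e = {q.1, q.2} := by
  obtain ⟨u, v, huv, h⟩ := Finset.card_eq_two.1 he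
  exact ⟨(u, v), huv, h⟩

open Classical in
/-- an ordering of a pair -/
noncomputable def ord [Nonempty V] (e : Finset V) : V × V :=
  if he : e.card = 2 then (pair_exists he).choose else Classical.arbitrary _

theorem ord_spec [Nonempty V] {e : Finset V} (he : e.card = 2) :
    (ord e).1 ≠ (ord e).2 ∧ e = {(ord e).1, (ord e).2} := by
  unfold ord
  rw [dif_pos he]
  exact (pair_exists he).choose_spec

/-- the side of a triangle at a pair -/
def side [Nonempty V] (p : V → ℝ × ℝ) (e t : Finset V) : Prop :=
  ∃ w ∈ t, w ∉ e ∧ 0 < dd (p (ord e).1) (p (ord e).2) (p w)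

theorem third {t : Finset V} (ht : t.card = 3) {u v : V} (huv : u ≠ v)
    (h : ({u, v} : Finset V) ⊆ t) : ∃ w, w ≠ u ∧ w ≠ v ∧ t = {u, v, w} := by
  have h1 : (t \ {u, v}).card = 1 := by
    rw [Finset.card_sdiff_of_subset h, ht, Finset.card_pair huv]
  obtain ⟨w, hw⟩ := Finset.card_eq_one.1 h1
  have hwm : w ∈ t \ {u, v} := by rw [hw]; simp
  rw [Finset.mem_sdiff] at hwm
  simp only [Finset.mem_insert, Finset.mem_singleton, not_or] at hwm
  refine ⟨w, hwm.2.1, hwm.2.2, ?_⟩
  have := Finset.sdiff_union_of_subset h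
  rw [hw] at this
  rw [← this]
  ext z
  simp only [Finset.mem_union, Finset.mem_insert, Finset.mem_singleton]
  tauto

theorem side_iff [Nonempty V] {e t : Finset V} (he : e.card = 2) {w : V}
    (ht : t = {(ord e).1, (ord e).2, w}) (hw1 : w ≠ (ord e).1) (hw2 : w ≠ (ord e).2) :
    side p e t ↔ 0 < dd (p (ord e).1) (p (ord e).2) (p w) := by
  have hs := (ord_spec he).2
  constructor
  · rintro ⟨z, hz, hze, h⟩
    rw [hs] at hze
    rw [ht] at hz
    simp only [Finset.mem_insert, Finset.mem_singleton, not_or] at hz hze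
    rcases hz with h1 | h1 | h1
    · exact absurd h1 hze.1
    · exact absurd h1 hze.2
    · rw [← h1]; exact h
  · intro h
    refine ⟨w, ?_, ?_, h⟩
    · rw [ht]; simp
    · rw [hs]
      simp only [Finset.mem_insert, Finset.mem_singleton, not_or]
      exact ⟨hw1, hw2⟩

/-- two triangles at a common edge, on the same side, are nested -/
theorem same_side (D : Drw H p) {u v w1 w2 : V} (huv : H.Adj u v) (h1u : H.Adj u w1)
    (h1v : H.Adj v w1) (h2u : H.Adj u w2) (h2v : H.Adj v w2)
    (ho1 : 0 < dd (p u) (p v) (p w1)) (ho2 : 0 < dd (p u) (p v) (p w2)) :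
    p w2 ∈ reg p {u, v, w1} ∨ p w1 ∈ reg p {u, v, w2} := by
  by_cases hw : w1 = w2
  · left
    apply subset_convexHull
    exact ⟨w2, by simp [hw], rfl⟩
  have e1 : dd (p v) (p w2) (p w1) = - dd (p v) (p w1) (p w2) := by simp only [dd]; ring
  have e2 : dd (p w2) (p u) (p w1) = - dd (p w1) (p u) (p w2) := by simp only [dd]; ring
  rw [reg_eq, reg_eq, hull_iff ho1, hull_iff ho2, e1, e2]
  rcases le_total 0 (dd (p v) (p w1) (p w2)) with ha | ha <;>
    rcases le_total 0 (dd (p w1) (p u) (p w2)) with hb | hb
  · exact Or.inl ⟨ho2.le, ha, hb⟩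
  · -- the segments `v w2` and `u w1` cross unless an equality holds
    rcases ha.eq_or_lt with ha' | ha'
    · exact Or.inr ⟨ho1.le, by linarith, by linarith⟩
    rcases hb.eq_or_lt with hb' | hb'
    · exact Or.inl ⟨ho2.le, ha, by linarith⟩
    exfalso
    obtain ⟨z, hz1, hz2⟩ := cross_point (a := p v) (b := p w2) (c := p u) (d := p w1)
      (by
        have : dd (p v) (p w2) (p u) = dd (p u) (p v) (p w2) := by simp only [dd]; ring
        rw [this]; exact ho2)
      (by rw [e1]; linarith)
      (by
        have : dd (p u) (p w1) (p v) = - dd (p u) (p v) (p w1) := by simp only [dd]; ring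
        rw [this]; linarith)
      (by
        have : dd (p u) (p w1) (p w2) = - dd (p w1) (p u) (p w2) := by simp only [dd]; ring
        rw [this]; linarith)
    exact Set.disjoint_left.1 (D.nocross v w2 u w1 h2v h1u huv.ne' h1v.ne h2u.ne'
      (fun h => hw h.symm)) hz1 hz2
  · rcases ha.eq_or_lt with ha' | ha'
    · exact Or.inl ⟨ho2.le, by linarith, hb⟩
    rcases hb.eq_or_lt with hb' | hb'
    · exact Or.inr ⟨ho1.le, by linarith, by linarith⟩
    exfalso
    obtain ⟨z, hz1, hz2⟩ := cross_point (a := p v) (b := p w1) (c := p u) (d := p w2)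
      (by
        have : dd (p v) (p w1) (p u) = dd (p u) (p v) (p w1) := by simp only [dd]; ring
        rw [this]; exact ho1)
      (by exact ha')
      (by
        have : dd (p u) (p w2) (p v) = - dd (p u) (p v) (p w2) := by simp only [dd]; ring
        rw [this]; linarith)
      (by
        have : dd (p u) (p w2) (p w1) = dd (p w1) (p u) (p w2) := by simp only [dd]; ring
        rw [this]; linarith)
    exact Set.disjoint_left.1 (D.nocross v w1 u w2 h1v h2u huv.ne' h2v.ne h1u.ne' hw) hz1 hz2
  · exact Or.inr ⟨ho1.le, by linarith, by linarith⟩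

theorem le'_of_third {u v w1 w2 : V} (h : p w2 ∈ reg p {u, v, w1}) :
    le' p {u, v, w2} {u, v, w1} := by
  intro z hz
  simp only [Finset.mem_insert, Finset.mem_singleton] at hz
  rcases hz with rfl | rfl | rfl
  · apply subset_convexHull; exact ⟨z, by simp, rfl⟩
  · apply subset_convexHull; exact ⟨z, by simp, rfl⟩
  · exact h

open Classical in
/-- the triangles of a straight-line drawing form a laminar system -/
theorem nest [Nonempty V] (D : Drw H p) :
    Nest ((Finset.univ : Finset (Finset V)).filter fun t => H.IsNClique 3 t)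
      (fun f t => le' p f t ∧ H.IsNClique 3 f ∧ H.IsNClique 3 t ∧ f ≠ t) (side p) where
  card3 := by
    intro t ht
    exact (Finset.mem_filter.1 ht).2.card_eq
  irrefl := by
    intro t h
    exact h.2.2.2 rfl
  trans := by
    rintro a b c ⟨h1, h2, h3, h4⟩ ⟨h5, h6, h7, h8⟩
    refine ⟨le'_trans h1 h5, h2, h7, ?_⟩
    rintro rfl
    exact h4 (le'_antisymm D h2 h3 h1 h5)
  up := by
    intro t ht f hf g hg hft e he hef het heg
    have htc := (Finset.mem_filter.1 ht).2
    have hgc := (Finset.mem_filter.1 hg).2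
    obtain ⟨u, hue, hut⟩ := Finset.not_subset.1 het
    have hin : p u ∈ reg p t := hft.1 u (hef hue)
    refine ⟨?_, hgc, htc, ?_⟩
    · intro w hw
      by_cases huw : u = w
      · rw [← huw]; exact hin
      · exact stay D htc hut hin (hgc.isClique (heg hue) hw huw)
    · intro h
      rw [h] at heg
      exact hut (heg hue)
  mid := by
    intro t ht f hf g hg hgf hft e he heg het
    have htc := (Finset.mem_filter.1 ht).2
    intro v hv
    rcases hgf with h | h
    · rw [← h]; exact heg hv
    · exact corner_mem D htc hft.1 (het hv) (h.1 v (heg hv))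
  comp := by
    intro f hf g hg e he hef heg hs
    have hfc := (Finset.mem_filter.1 hf).2
    have hgc := (Finset.mem_filter.1 hg).2
    obtain ⟨hne, hpe⟩ := ord_spec he
    have hef' := hef
    have heg' := heg
    rw [hpe] at hef' heg'
    obtain ⟨w1, hw1, hw1', hf3⟩ := third hfc.card_eq hne hef'
    obtain ⟨w2, hw2, hw2', hg3⟩ := third hgc.card_eq hne heg'
    rw [side_iff he hf3 hw1 hw1', side_iff he hg3 hw2 hw2'] at hs
    set u := (ord e).1
    set v := (ord e).2
    have huf : u ∈ f := by rw [hf3]; simp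
    have hvf : v ∈ f := by rw [hf3]; simp
    have hw1f : w1 ∈ f := by rw [hf3]; simp
    have hug : u ∈ g := by rw [hg3]; simp
    have hvg : v ∈ g := by rw [hg3]; simp
    have hw2g : w2 ∈ g := by rw [hg3]; simp
    have auv := hfc.isClique huf hvf hne
    have a1u := hfc.isClique huf hw1f hw1.symm
    have a1v := hfc.isClique hvf hw1f hw1'.symm
    have a2u := hgc.isClique hug hw2g hw2.symm
    have a2v := hgc.isClique hvg hw2g hw2'.symm
    by_cases hfg : f = g
    · exact Or.inl hfg
    right
    suffices hlast : p w2 ∈ reg p {u, v, w1} ∨ p w1 ∈ reg p {u, v, w2} by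
      rcases hlast with h | h
      · right
        exact ⟨by rw [hf3, hg3]; exact le'_of_third h, hgc, hfc, fun h => hfg h.symm⟩
      · left
        exact ⟨by rw [hf3, hg3]; exact le'_of_third h, hfc, hgc, hfg⟩
    by_cases hpos : 0 < dd (p u) (p v) (p w1)
    · exact same_side D auv a1u a1v a2u a2v hpos (hs.1 hpos)
    · have hpos2 : ¬ 0 < dd (p u) (p v) (p w2) := fun h => hpos (hs.2 h)
      have n1 := nondeg D auv a1u a1v
      have n2 := nondeg D auv a2u a2v
      have m1 : 0 < dd (p v) (p u) (p w1) := by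
        rw [dd_swap]
        rcases lt_or_gt_of_ne n1 with h | h
        · linarith
        · exact absurd h hpos
      have m2 : 0 < dd (p v) (p u) (p w2) := by
        rw [dd_swap]
        rcases lt_or_gt_of_ne n2 with h | h
        · linarith
        · exact absurd h hpos2
      have := same_side D auv.symm a1v a1u a2v a2u m1 m2
      rwa [Finset.insert_comm v u {w1}, Finset.insert_comm v u {w2}] at this
  sideInh := by
    intro f hf g hg e he hef heg hfg
    have hfc := (Finset.mem_filter.1 hf).2
    have hgc := (Finset.mem_filter.1 hg).2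
    obtain ⟨hne, hpe⟩ := ord_spec he
    have hef' := hef
    have heg' := heg
    rw [hpe] at hef' heg'
    obtain ⟨w1, hw1, hw1', hf3⟩ := third hfc.card_eq hne hef'
    obtain ⟨w2, hw2, hw2', hg3⟩ := third hgc.card_eq hne heg'
    rw [side_iff he hf3 hw1 hw1', side_iff he hg3 hw2 hw2']
    set u := (ord e).1
    set v := (ord e).2
    have huf : u ∈ f := by rw [hf3]; simp
    have hvf : v ∈ f := by rw [hf3]; simp
    have hw1f : w1 ∈ f := by rw [hf3]; simp
    have hug : u ∈ g := by rw [hg3]; simp
    have hvg : v ∈ g := by rw [hg3]; simp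
    have hw2g : w2 ∈ g := by rw [hg3]; simp
    have auv := hfc.isClique huf hvf hne
    have a1u := hfc.isClique huf hw1f hw1.symm
    have a1v := hfc.isClique hvf hw1f hw1'.symm
    have a2u := hgc.isClique hug hw2g hw2.symm
    have a2v := hgc.isClique hvg hw2g hw2'.symm
    have n1 := nondeg D auv a1u a1v
    have n2 := nondeg D auv a2u a2v
    have hin : p w1 ∈ reg p g := hfg.1 w1 hw1f
    rw [hg3] at hin
    constructor
    · intro h
      by_contra hcon
      have m2 : 0 < dd (p v) (p u) (p w2) := by
        rw [dd_swap]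
        rcases lt_or_gt_of_ne n2 with h | h
        · linarith
        · exact absurd h hcon
      rw [Finset.insert_comm, reg_eq, hull_iff m2] at hin
      have := hin.1
      rw [dd_swap] at this
      linarith
    · intro h
      rw [reg_eq, hull_iff h] at hin
      exact lt_of_le_of_ne hin.1 n1.symm

end Pool.Agent.Q133.HT
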