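import Pool.Agent.Q133.HTGeo
import Pool.Agent.Q133.HTDefs

/-! From multigraphs to weighted triples and back. -/

set_option autoImplicit false

namespace Pool.Agent.Q133.HT

open Finset

set_option linter.unusedSectionVars false

variable {V E : Type} [Fintype V] [DecidableEq V] [Fintype E] [DecidableEq E]
  (G : Multigraph V E)

/-- the set of ends of an edge -/
def en (e : E) : Finset V := (G.ends e).toFinset

theorem mem_en {e : E} {v : V} : v ∈ en G e ↔ v ∈ G.ends e := Sym2.mem_toFinset

theorem en_card (e : E) : (en G e).card = 2 := Sym2.card_toFinset_of_not_isDiag _ (G.noLoop e)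

theorem en_of {e : E} {u v : V} (h : G.ends e = s(u, v)) : en G e = {u, v} := by
  ext z
  rw [mem_en, h]
  simp

theorem ends_of {e : E} {u v : V} (h : en G e = {u, v}) : G.ends e = s(u, v) := by
  have hc := en_card G e
  rw [h] at hc
  have huv : u ≠ v := by
    intro h'
    rw [h'] at hc
    simp at hc
  have h1 : u ∈ G.ends e := by rw [← mem_en, h]; simp
  have h2 : v ∈ G.ends e := by rw [← mem_en, h]; simp
  exact (Sym2.mem_and_mem_iff huv).1 ⟨h1, h2⟩

/-- the vertices of a set of edges -/
def vs (t : Finset E) : Finset V := t.biUnion (en G)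

theorem vs_tri {t : Finset E} {u v w : V} {a b c : E} (h1 : G.ends a = s(u, v))
    (h2 : G.ends b = s(v, w)) (h3 : G.ends c = s(u, w)) (ht : t = {a, b, c}) :
    vs G t = {u, v, w} := by
  unfold vs
  rw [ht]
  ext z
  simp only [Finset.mem_biUnion, Finset.mem_insert, Finset.mem_singleton]
  constructor
  · rintro ⟨e, rfl | rfl | rfl, hz⟩
    · rw [en_of G h1] at hz
      simp only [Finset.mem_insert, Finset.mem_singleton] at hz
      tauto
    · rw [en_of G h2] at hz
      simp only [Finset.mem_insert, Finset.mem_singleton] at hz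
      tauto
    · rw [en_of G h3] at hz
      simp only [Finset.mem_insert, Finset.mem_singleton] at hz
      tauto
  · rintro (rfl | rfl | rfl)
    · exact ⟨a, Or.inl rfl, by rw [en_of G h1]; simp⟩
    · exact ⟨a, Or.inl rfl, by rw [en_of G h1]; simp⟩
    · exact ⟨b, Or.inr (Or.inl rfl), by rw [en_of G h2]; simp⟩

theorem tri_clique {t : Finset E} (ht : G.IsTriangle t) : G.simple.IsNClique 3 (vs G t) := by
  obtain ⟨u, v, w, a, b, c, huv, hvw, huw, h1, h2, h3, h4⟩ := ht
  rw [vs_tri G h1 h2 h3 h4, SimpleGraph.is3Clique_iff]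
  exact ⟨u, v, w, ⟨a, h1⟩, ⟨c, h3⟩, ⟨b, h2⟩, rfl⟩

theorem pair_ne {u v w : V} (hvw : v ≠ w) (huv : u ≠ v) : ({u, v} : Finset V) ≠ {u, w} := by
  intro h
  have : v ∈ ({u, w} : Finset V) := by rw [← h]; simp
  simp only [Finset.mem_insert, Finset.mem_singleton] at this
  rcases this with h | h
  · exact huv h.symm
  · exact hvw h

/-- a triangle has exactly one edge at each of its three pairs -/
theorem tri_count {t : Finset E} (ht : G.IsTriangle t) {q : Finset V} (hq : q.card = 2) :
    (t.filter fun e => en G e = q).card = if q ⊆ vs G t then 1 else 0 := by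
  obtain ⟨u, v, w, a, b, c, huv, hvw, huw, h1, h2, h3, h4⟩ := ht
  have hv := vs_tri G h1 h2 h3 h4
  have e1 := en_of G h1
  have e2 := en_of G h2
  have e3 := en_of G h3
  have n12 : ({u, v} : Finset V) ≠ {v, w} := by
    rw [Finset.pair_comm u v]
    exact pair_ne huw huv.symm
  have n13 : ({u, v} : Finset V) ≠ {u, w} := pair_ne hvw huv
  have n23 : ({v, w} : Finset V) ≠ {u, w} := by
    rw [Finset.pair_comm v w, Finset.pair_comm u w]
    exact pair_ne huv.symm hvw.symm
  split_ifs with h
  · rcases pair_cases hv hq h with h | h | h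
    · rw [Finset.card_eq_one]
      refine ⟨a, ?_⟩
      ext e
      rw [Finset.mem_filter, h4, h]
      simp only [Finset.mem_insert, Finset.mem_singleton]
      constructor
      · rintro ⟨h | h | h, h'⟩
        · exact h
        · rw [h, e2] at h'; exact absurd h'.symm n12
        · rw [h, e3] at h'; exact absurd h'.symm n13
      · rintro rfl
        exact ⟨Or.inl rfl, e1⟩
    · rw [Finset.card_eq_one]
      refine ⟨c, ?_⟩
      ext e
      rw [Finset.mem_filter, h4, h]
      simp only [Finset.mem_insert, Finset.mem_singleton]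
      constructor
      · rintro ⟨h | h | h, h'⟩
        · rw [h, e1] at h'; exact absurd h' n13
        · rw [h, e2] at h'; exact absurd h' n23
        · exact h
      · rintro rfl
        exact ⟨Or.inr (Or.inr rfl), e3⟩
    · rw [Finset.card_eq_one]
      refine ⟨b, ?_⟩
      ext e
      rw [Finset.mem_filter, h4, h]
      simp only [Finset.mem_insert, Finset.mem_singleton]
      constructor
      · rintro ⟨h | h | h, h'⟩
        · rw [h, e1] at h'; exact absurd h' n12
        · exact h
        · rw [h, e3] at h'; exact absurd h'.symm n23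
      · rintro rfl
        exact ⟨Or.inr (Or.inl rfl), e2⟩
  · rw [Finset.card_eq_zero, Finset.filter_eq_empty_iff]
    intro e he h'
    apply h
    rw [← h', vs]
    exact Finset.subset_biUnion_of_mem (en G) he

open Classical in
/-- the family of triples -/
noncomputable def TT : Finset (Finset V) :=
  (Finset.univ : Finset (Finset V)).filter fun t => G.simple.IsNClique 3 t

open Classical in
/-- weights of triples -/
noncomputable def xx (ω : Finset E → ℚ) (T : Finset V) : ℚ :=
  ∑ t ∈ Finset.univ.filter (fun t : Finset E => vs G t = T), ω t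

open Classical in
theorem xx_sum {ω : Finset E → ℚ} (hω : G.IsRatDecomp ω) {q : Finset V} (hq : q.card = 2) :
    ∑ T ∈ (TT G).filter (fun T => q ⊆ T), xx G ω T =
      ((Finset.univ.filter fun e => en G e = q).card : ℚ) := by
  obtain ⟨h0, h1, h2⟩ := hω
  have hl : ∑ T ∈ (TT G).filter (fun T => q ⊆ T), xx G ω T =
      ∑ t : Finset E, if G.IsTriangle t ∧ q ⊆ vs G t then ω t else 0 := by
    unfold xx
    rw [← Finset.sum_filter]
    have hmaps : ∀ t ∈ Finset.univ.filter (fun t : Finset E => G.IsTriangle t ∧ q ⊆ vs G t),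
        vs G t ∈ (TT G).filter (fun T => q ⊆ T) := by
      intro t ht
      rw [Finset.mem_filter] at ht
      rw [Finset.mem_filter, TT, Finset.mem_filter]
      exact ⟨⟨Finset.mem_univ _, tri_clique G ht.2.1⟩, ht.2.2⟩
    rw [← Finset.sum_fiberwise_of_maps_to hmaps]
    refine Finset.sum_congr rfl ?_
    intro T hT
    rw [Finset.mem_filter] at hT
    rw [Finset.filter_filter]
    symm
    apply Finset.sum_subset
    · intro t ht
      rw [Finset.mem_filter] at ht ⊢
      exact ⟨ht.1, ht.2.2⟩
    · intro t ht hnt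
      rw [Finset.mem_filter] at ht hnt
      apply h1
      intro htri
      exact hnt ⟨ht.1, ⟨htri, by rw [ht.2]; exact hT.2⟩, ht.2⟩
  have hr : ((Finset.univ.filter fun e => en G e = q).card : ℚ) =
      ∑ t : Finset E, ω t * ((t.filter fun e => en G e = q).card : ℚ) := by
    rw [Finset.cast_card]
    have : ∀ e ∈ Finset.univ.filter (fun e => en G e = q), (1 : ℚ) =
        ∑ t : Finset E, if e ∈ t then ω t else 0 := by
      intro e _
      rw [← h2 e, Finset.sum_filter]
    rw [Finset.sum_congr rfl this, Finset.sum_comm]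
    refine Finset.sum_congr rfl ?_
    intro t _
    rw [Finset.cast_card, Finset.mul_sum, Finset.sum_filter, Finset.sum_filter, ← Finset.sum_filter]
    rw [Finset.sum_filter, ← Finset.sum_subset (Finset.subset_univ t)]
    · refine Finset.sum_congr rfl ?_
      intro e he
      rw [if_pos he, mul_one]
    · intro e _ he
      rw [if_neg he]
      simp
  rw [hl, hr]
  refine Finset.sum_congr rfl ?_
  intro t _
  by_cases ht : G.IsTriangle t
  · rw [tri_count G ht hq]
    by_cases hqt : q ⊆ vs G t
    · rw [if_pos ⟨ht, hqt⟩, if_pos hqt]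
      simp
    · rw [if_neg (fun h => hqt h.2), if_neg hqt]
      simp
  · rw [if_neg (fun h => ht h.1), h1 t ht, zero_mul]

open Classical in
/-- distribution of the units at a pair among the edges at this pair -/
theorem exists_assign {h : Finset V → ℕ} {q : Finset V}
    (hcard : ∑ T : Finset V, (if q ⊆ T then h T else 0) =
      2 * (Finset.univ.filter fun e => en G e = q).card) :
    ∃ F : (Σ T : Finset V, Fin (h T)) → Option E,
      (∀ s, q ⊆ s.1 → ∃ e, F s = some e ∧ en G e = q) ∧
      ∀ e, en G e = q → (Finset.univ.filter fun s => q ⊆ s.1 ∧ F s = some e).card = 2 := by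
  have hU : Fintype.card {s : Σ T : Finset V, Fin (h T) // q ⊆ s.1} =
      ∑ T : Finset V, (if q ⊆ T then h T else 0) := by
    rw [Fintype.card_subtype, Finset.card_filter, Fintype.sum_sigma]
    refine Finset.sum_congr rfl ?_
    intro T _
    by_cases hT : q ⊆ T
    · simp [hT]
    · simp [hT]
  have hE : Fintype.card ({e : E // en G e = q} × Fin 2) =
      2 * (Finset.univ.filter fun e => en G e = q).card := by
    rw [Fintype.card_prod, Fintype.card_subtype, Fintype.card_fin, mul_comm]
  let φ : {s : Σ T : Finset V, Fin (h T) // q ⊆ s.1} ≃ {e : E // en G e = q} × Fin 2 :=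
    Fintype.equivOfCardEq (by rw [hU, hE, hcard])
  refine ⟨fun s => if hs : q ⊆ s.1 then some (φ ⟨s, hs⟩).1.1 else none, ?_, ?_⟩
  · intro s hs
    exact ⟨(φ ⟨s, hs⟩).1.1, by simp only [dif_pos hs], (φ ⟨s, hs⟩).1.2⟩
  · intro e he
    have : (Finset.univ.filter fun s : Σ T : Finset V, Fin (h T) => q ⊆ s.1 ∧
        (if hs : q ⊆ s.1 then some (φ ⟨s, hs⟩).1.1 else none) = some e) =
        (Finset.univ : Finset (Fin 2)).image (fun i => (φ.symm (⟨e, he⟩, i)).1) := by
      ext s
      simp only [Finset.mem_filter, Finset.mem_univ, true_and, Finset.mem_image]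
      constructor
      · rintro ⟨hs, h'⟩
        rw [dif_pos hs, Option.some_inj] at h'
        refine ⟨(φ ⟨s, hs⟩).2, ?_⟩
        have : ((⟨e, he⟩ : {e : E // en G e = q}), (φ ⟨s, hs⟩).2) = φ ⟨s, hs⟩ := by
          apply Prod.ext
          · exact Subtype.ext h'.symm
          · rfl
        rw [this, Equiv.symm_apply_apply]
      · rintro ⟨i, rfl⟩
        refine ⟨(φ.symm (⟨e, he⟩, i)).2, ?_⟩
        rw [dif_pos (φ.symm (⟨e, he⟩, i)).2]
        simp
    rw [this, Finset.card_image_of_injective]
    · simp
    · intro i j hij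
      have h1 := φ.symm.injective (Subtype.ext hij)
      exact (Prod.ext_iff.1 h1).2

open Classical in
/-- half-integral weights on triples give half-integral weights on the triangles -/
theorem back {x : Finset V → ℚ} (hx0 : ∀ T, 0 ≤ x T) (hxH : ∀ T ∈ TT G, IsH (x T))
    (hsum : ∀ q : Finset V, q.card = 2 → ∑ T ∈ (TT G).filter (fun T => q ⊆ T), x T =
      ((Finset.univ.filter fun e => en G e = q).card : ℚ)) :
    ∃ ω : Finset E → ℚ, G.IsRatDecomp ω ∧ ∀ t, ω t = 0 ∨ ω t = 1 / 2 ∨ ω t = 1 := by
  -- numbers of units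
  have hh : ∀ T ∈ TT G, ∃ k : ℕ, (k : ℚ) = 2 * x T := by
    intro T hT
    obtain ⟨k, hk⟩ := hxH T hT
    have h1 : (0 : ℚ) ≤ k := by rw [← hk]; have := hx0 T; linarith
    have h2 : (0 : ℤ) ≤ k := by exact_mod_cast h1
    refine ⟨k.toNat, ?_⟩
    rw [hk]
    have : ((k.toNat : ℤ) : ℚ) = (k : ℚ) := by rw [Int.toNat_of_nonneg h2]
    exact_mod_cast this
  choose! k hk using hh
  set h : Finset V → ℕ := fun T => if T ∈ TT G then k T else 0 with hdef
  have hcard : ∀ q : Finset V, q.card = 2 → ∑ T : Finset V, (if q ⊆ T then h T else 0) =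
      2 * (Finset.univ.filter fun e => en G e = q).card := by
    intro q hq
    have h1 : ((∑ T : Finset V, (if q ⊆ T then h T else 0) : ℕ) : ℚ) =
        ((2 * (Finset.univ.filter fun e => en G e = q).card : ℕ) : ℚ) := by
      push_cast
      rw [← hsum q hq, Finset.mul_sum, Finset.sum_filter, ← Finset.sum_subset
        (Finset.subset_univ (TT G))]
      · refine Finset.sum_congr rfl ?_
        intro T hT
        simp only [hdef, if_pos hT, hk T hT]
      · intro T _ hT
        simp only [hdef, if_neg hT]
        simp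
    exact_mod_cast h1
  have hF : ∀ q : Finset V, q.card = 2 → ∃ F : (Σ T : Finset V, Fin (h T)) → Option E,
      (∀ s, q ⊆ s.1 → ∃ e, F s = some e ∧ en G e = q) ∧
      ∀ e, en G e = q → (Finset.univ.filter fun s => q ⊆ s.1 ∧ F s = some e).card = 2 :=
    fun q hq => exists_assign G (hcard q hq)
  choose! F hF1 hF2 using hF
  -- the triangle of a unit
  set τ : (Σ T : Finset V, Fin (h T)) → Finset E :=
    fun s => Finset.univ.filter fun e => en G e ⊆ s.1 ∧ F (en G e) s = some e with hτ
  have hmemτ : ∀ s e, e ∈ τ s ↔ en G e ⊆ s.1 ∧ F (en G e) s = some e := by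
    intro s e
    simp only [hτ, Finset.mem_filter, Finset.mem_univ, true_and]
  have htri : ∀ s, G.IsTriangle (τ s) := by
    intro s
    have hsT : s.1 ∈ TT G := by
      by_contra hcon
      have h0 : h s.1 = 0 := by simp only [hdef, if_neg hcon]
      have := s.2.2
      omega
    rw [TT, Finset.mem_filter] at hsT
    obtain ⟨u, v, w, huv, huw, hvw, hs⟩ := SimpleGraph.is3Clique_iff.1 hsT.2
    have c1 : ({u, v} : Finset V).card = 2 := Finset.card_pair huv.ne
    have c2 : ({v, w} : Finset V).card = 2 := Finset.card_pair hvw.ne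
    have c3 : ({u, w} : Finset V).card = 2 := Finset.card_pair huw.ne
    have s1 : ({u, v} : Finset V) ⊆ s.1 := by
      rw [hs]; intro z; simp only [Finset.mem_insert, Finset.mem_singleton]; tauto
    have s2 : ({v, w} : Finset V) ⊆ s.1 := by
      rw [hs]; intro z; simp only [Finset.mem_insert, Finset.mem_singleton]; tauto
    have s3 : ({u, w} : Finset V) ⊆ s.1 := by
      rw [hs]; intro z; simp only [Finset.mem_insert, Finset.mem_singleton]; tauto
    obtain ⟨a, ha, ha'⟩ := hF1 _ c1 s s1
    obtain ⟨b, hb, hb'⟩ := hF1 _ c2 s s2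
    obtain ⟨c, hc, hc'⟩ := hF1 _ c3 s s3
    refine ⟨u, v, w, a, b, c, huv.ne, hvw.ne, huw.ne, ends_of G ha', ends_of G hb',
      ends_of G hc', ?_⟩
    ext e
    rw [hmemτ]
    simp only [Finset.mem_insert, Finset.mem_singleton]
    constructor
    · rintro ⟨h1, h2⟩
      rcases pair_cases hs (en_card G e) h1 with h3 | h3 | h3
      · rw [h3, ha, Option.some_inj] at h2
        exact Or.inl h2.symm
      · rw [h3, hc, Option.some_inj] at h2
        exact Or.inr (Or.inr h2.symm)
      · rw [h3, hb, Option.some_inj] at h2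
        exact Or.inr (Or.inl h2.symm)
    · rintro (rfl | rfl | rfl)
      · rw [ha']; exact ⟨s1, ha⟩
      · rw [hb']; exact ⟨s2, hb⟩
      · rw [hc']; exact ⟨s3, hc⟩
  have hcount : ∀ e : E, (Finset.univ.filter fun s => e ∈ τ s).card = 2 := by
    intro e
    rw [← hF2 (en G e) (en_card G e) e rfl]
    congr 1
    ext s
    simp only [Finset.mem_filter, Finset.mem_univ, true_and, hmemτ]
  have hle : ∀ t : Finset E, (Finset.univ.filter fun s => τ s = t).card ≤ 2 := by
    intro t
    rcases Finset.eq_empty_or_nonempty t with ht | ⟨e, he⟩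
    · have : (Finset.univ.filter fun s => τ s = t) = ∅ := by
        rw [Finset.filter_eq_empty_iff]
        intro s _ hs
        obtain ⟨u, v, w, a, b, c, -, -, -, -, -, -, h4⟩ := htri s
        rw [hs, ht] at h4
        have : a ∈ (∅ : Finset E) := by rw [h4]; simp
        simp at this
      rw [this]
      simp
    · rw [← hcount e]
      apply Finset.card_le_card
      intro s hs
      rw [Finset.mem_filter] at hs ⊢
      exact ⟨hs.1, by rw [hs.2]; exact he⟩
  refine ⟨fun t => ((Finset.univ.filter fun s => τ s = t).card : ℚ) / 2, ⟨?_, ?_, ?_⟩, ?_⟩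
  · intro t
    positivity
  · intro t ht
    have : (Finset.univ.filter fun s => τ s = t) = ∅ := by
      rw [Finset.filter_eq_empty_iff]
      intro s _ hs
      exact ht (by rw [← hs]; exact htri s)
    simp only [this, Finset.card_empty, Nat.cast_zero, zero_div]
  · intro e
    rw [← Finset.sum_div]
    have hmaps : ∀ s ∈ Finset.univ.filter (fun s => e ∈ τ s),
        τ s ∈ Finset.univ.filter (fun t : Finset E => e ∈ t) := by
      intro s hs
      rw [Finset.mem_filter] at hs ⊢
      exact ⟨Finset.mem_univ _, hs.2⟩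
    have h1 := Finset.card_eq_sum_card_fiberwise hmaps
    rw [hcount e] at h1
    have h2 : ∀ t ∈ Finset.univ.filter (fun t : Finset E => e ∈ t),
        (((Finset.univ.filter fun s => τ s = t).card : ℕ) : ℚ) =
        (((Finset.univ.filter (fun s => e ∈ τ s)).filter fun s => τ s = t).card : ℕ) := by
      intro t ht
      rw [Finset.mem_filter] at ht
      congr 2
      rw [Finset.filter_filter]
      ext s
      simp only [Finset.mem_filter, Finset.mem_univ, true_and]
      constructor
      · intro h'
        exact ⟨by rw [h']; exact ht.2, h'⟩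
      · exact fun h' => h'.2
    rw [Finset.sum_congr rfl h2, ← Nat.cast_sum, ← h1]
    norm_num
  · intro t
    have := hle t
    simp only
    interval_cases hc : (Finset.univ.filter fun s => τ s = t).card
    · left; norm_num
    · right; left; norm_num
    · right; right; norm_num

open Classical in
/-- the main theorem -/
theorem main (hp : IsPlanar G.simple) (hG : ∃ ω, G.IsRatDecomp ω) :
    ∃ ω : Finset E → ℚ, G.IsRatDecomp ω ∧ ∀ t, ω t = 0 ∨ ω t = 1 / 2 ∨ ω t = 1 := by
  obtain ⟨ω, hω⟩ := hG
  obtain ⟨p, hp1, hp2, hp3⟩ := hp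
  have D : Drw G.simple p := ⟨hp1, hp2, hp3⟩
  by_cases hV : Nonempty V
  · have N := nest D
    obtain ⟨x', h1, h2, h3⟩ := half_integral N _ (xx G ω) rfl
      (fun T => Finset.sum_nonneg fun t _ => hω.1 t)
      (fun q hq => ⟨((Finset.univ.filter fun e => en G e = q).card : ℕ), by
        have := xx_sum G hω hq
        rw [TT] at this
        rw [this]
        norm_cast⟩)
    exact back G h1 h2 (fun q hq => (h3 q hq).trans (xx_sum G hω hq))
  · refine ⟨fun _ => 0, ⟨fun _ => le_refl _, fun _ _ => rfl, ?_⟩, fun _ => Or.inl rfl⟩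
    intro e
    exfalso
    apply hV
    have := en_card G e
    obtain ⟨v, hv⟩ := Finset.card_pos.1 (by rw [this]; norm_num : 0 < (en G e).card)
    exact ⟨v⟩

end Pool.Agent.Q133.HT
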