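import Mathlib

set_option autoImplicit false

namespace Q133.MaxTol

/-- length of the intersection of `[L,R]` and `[L',R']` -/
noncomputable def ovl (L R L' R' : ℝ) : ℝ := max 0 (min R R' - max L L')

/-- bounded tolerance graphs: intervals `[L v, R v]`, tolerances `0 < t v ≤ R v - L v`, and
distinct `x,y` adjacent iff `|I_x ∩ I_y| ≥ min (t x) (t y)` -/
def IsBoundedTolerance {V : Type*} (G : SimpleGraph V) : Prop :=
  ∃ L R t : V → ℝ, (∀ v, L v ≤ R v) ∧ (∀ v, 0 < t v) ∧ (∀ v, t v ≤ R v - L v) ∧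
    ∀ x y, x ≠ y → (G.Adj x y ↔ min (t x) (t y) ≤ ovl (L x) (R x) (L y) (R y))

/-- max-tolerance graphs: intervals `[L v, R v]`, tolerances `0 < t v`, and
distinct `x,y` adjacent iff `|I_x ∩ I_y| ≥ max (t x) (t y)` -/
def IsMaxTolerance {V : Type*} (G : SimpleGraph V) : Prop :=
  ∃ L R t : V → ℝ, (∀ v, L v ≤ R v) ∧ (∀ v, 0 < t v) ∧
    ∀ x y, x ≠ y → (G.Adj x y ↔ max (t x) (t y) ≤ ovl (L x) (R x) (L y) (R y))

/-- three coordinates: `x_k` and `y_k`, `f x y = ∑ max (x_k) (y_k)` -/
noncomputable def f (x y : Fin 3 → ℝ) : ℝ := ∑ k, max (x k) (y k)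

theorem exists_coord {x y z : Fin 3 → ℝ} (h1 : 0 < f x y) (h2 : f x z ≤ 0) :
    ∃ k, x k < y k ∧ z k < y k := by
  by_contra hcon
  push Not at hcon
  have : f x y ≤ f x z := by
    unfold f
    apply Finset.sum_le_sum
    intro k _
    apply max_le (le_max_left _ _)
    by_cases h : x k < y k
    · exact (hcon k h).trans (le_max_right _ _)
    · exact (not_lt.mp h).trans (le_max_left _ _)
  linarith

/-- the core of the argument -/
theorem core (a b : Fin 3 → Fin 3 → ℝ)
    (H1 : ∀ i i' j, i ≠ i' → ∃ k, a i k < a i' k ∧ b j k < a i' k)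
    (H2 : ∀ j j' i, j ≠ j' → ∃ k, b j k < b j' k ∧ a i k < b j' k)
    (k0 i2 i3 : Fin 3) (h1 : ∀ j, b j k0 < a i2 k0) (h2 : a i2 k0 < a i3 k0) : False := by
  -- the two other coordinates
  obtain ⟨k1, k2, hk⟩ : ∃ k1 k2 : Fin 3, ∀ k, k ≠ k0 → k = k1 ∨ k = k2 := by
    revert k0; intro k0 _ _
    refine ⟨k0 + 1, k0 + 2, ?_⟩
    revert k0
    intro k0 _ _
    fin_cases k0 <;> intro k hk <;> fin_cases k <;> simp_all
  -- for distinct j, j' : a coordinate k1 or k2
  have hb : ∀ j j', j ≠ j' → (b j k1 < b j' k1 ∧ a i2 k1 < b j' k1) ∨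
      (b j k2 < b j' k2 ∧ a i2 k2 < b j' k2) := by
    intro j j' hj
    obtain ⟨k, hk1, hk2⟩ := H2 j j' i2 hj
    have hkne : k ≠ k0 := by
      rintro rfl
      exact lt_asymm hk2 (h1 j')
    rcases hk k hkne with rfl | rfl
    · exact Or.inl ⟨hk1, hk2⟩
    · exact Or.inr ⟨hk1, hk2⟩
  -- the middle element of B
  obtain ⟨m, hm1, hm2⟩ : ∃ m, a i2 k1 < b m k1 ∧ a i2 k2 < b m k2 := by
    by_contra hcon
    push Not at hcon
    have h01 := hb 0 1 (by decide)
    have h10 := hb 1 0 (by decide)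
    have h02 := hb 0 2 (by decide)
    have h20 := hb 2 0 (by decide)
    have h12 := hb 1 2 (by decide)
    have h21 := hb 2 1 (by decide)
    have c0 := hcon 0
    have c1 := hcon 1
    have c2 := hcon 2
    rcases h01 with h01 | h01 <;> rcases h10 with h10 | h10 <;>
      first
      | exact absurd h01.1 (not_lt.mpr h10.1.le)
      | (rcases h02 with h02 | h02 <;> rcases h20 with h20 | h20 <;>
          first
          | exact absurd h02.1 (not_lt.mpr h20.1.le)
          | (rcases h12 with h12 | h12 <;> rcases h21 with h21 | h21 <;>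
              first
              | exact absurd h12.1 (not_lt.mpr h21.1.le)
              | exact absurd (c0 h10.2) (not_le.mpr h20.2)
              | exact absurd (c0 h20.2) (not_le.mpr h10.2)
              | exact absurd (c1 h01.2) (not_le.mpr h21.2)
              | exact absurd (c1 h21.2) (not_le.mpr h01.2)
              | exact absurd (c2 h02.2) (not_le.mpr h12.2)
              | exact absurd (c2 h12.2) (not_le.mpr h02.2)))
  obtain ⟨k, hk1, hk2⟩ := H1 i3 i2 m (by rintro rfl; exact lt_irrefl _ h2)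
  by_cases hkk : k = k0
  · subst hkk; exact lt_asymm hk1 h2
  · rcases hk k hkk with rfl | rfl
    · exact lt_asymm hk2 hm1
    · exact lt_asymm hk2 hm2

/-- for a pair of the same side: a winner in some coordinate that is above the whole other side -/
theorem pair (a b : Fin 3 → Fin 3 → ℝ)
    (H1 : ∀ i i' j, i ≠ i' → ∃ k, a i k < a i' k ∧ b j k < a i' k) (i i' : Fin 3) (h : i ≠ i') :
    ∃ k, (a i k < a i' k ∧ ∀ j, b j k < a i' k) ∨ (a i' k < a i k ∧ ∀ j, b j k < a i k) := by
  classical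
  -- K and K' are disjoint nonempty
  let K := Finset.univ.filter fun k => a i k < a i' k
  let K' := Finset.univ.filter fun k => a i' k < a i k
  have hdis : Disjoint K K' := by
    rw [Finset.disjoint_left]
    intro k h1 h2
    simp only [K, K', Finset.mem_filter, Finset.mem_univ, true_and] at h1 h2
    exact lt_asymm h1 h2
  have hcard : K.card + K'.card ≤ 3 := by
    rw [← Finset.card_union_of_disjoint hdis]
    exact (Finset.card_le_univ _).trans (by simp)
  have key : ∀ (i i' : Fin 3), i ≠ i' →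
      (Finset.univ.filter fun k => a i k < a i' k).card ≤ 1 →
      ∃ k, a i k < a i' k ∧ ∀ j, b j k < a i' k := by
    intro i i' hne hc
    obtain ⟨k, hk, hk'⟩ := H1 i i' 0 hne
    refine ⟨k, hk, fun j => ?_⟩
    obtain ⟨k2, hk2, hk2'⟩ := H1 i i' j hne
    have : k2 = k := Finset.card_le_one.mp hc k2 (by simp [hk2]) k (by simp [hk])
    rw [← this]; exact hk2'
  by_cases hK : K.card ≤ 1
  · obtain ⟨k, hk⟩ := key i i' h hK
    exact ⟨k, Or.inl hk⟩
  · have hK' : K'.card ≤ 1 := by omega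
    obtain ⟨k, hk⟩ := key i' i h.symm hK'
    exact ⟨k, Or.inr hk⟩

/-- if all pairs win in the same coordinate we are done -/
theorem one_coord (a b : Fin 3 → Fin 3 → ℝ)
    (H1 : ∀ i i' j, i ≠ i' → ∃ k, a i k < a i' k ∧ b j k < a i' k)
    (H2 : ∀ j j' i, j ≠ j' → ∃ k, b j k < b j' k ∧ a i k < b j' k)
    (k0 : Fin 3) (hk0 : ∀ k, (∃ i, ∀ j, b j k < a i k) → k = k0) : False := by
  have hp : ∀ i i', i ≠ i' → (a i k0 < a i' k0 ∧ ∀ j, b j k0 < a i' k0) ∨
      (a i' k0 < a i k0 ∧ ∀ j, b j k0 < a i k0) := by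
    intro i i' h
    obtain ⟨k, hk⟩ := pair a b H1 i i' h
    have : k = k0 := by
      rcases hk with hk | hk
      · exact hk0 k ⟨i', hk.2⟩
      · exact hk0 k ⟨i, hk.2⟩
    rwa [this] at hk
  have fin : ∀ x y, (∀ j, b j k0 < a x k0) → a x k0 < a y k0 → False :=
    fun x y h1 h2 => core a b H1 H2 k0 x y h1 h2
  rcases hp 0 1 (by decide) with h01 | h01 <;> rcases hp 0 2 (by decide) with h02 | h02 <;>
    rcases hp 1 2 (by decide) with h12 | h12
  · exact fin 1 2 h01.2 h12.1
  · exact fin 2 1 h02.2 h12.1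
  · exact fin 0 1 h02.2 h01.1
  · exact fin 0 1 h02.2 h01.1
  · exact fin 0 2 h01.2 h02.1
  · exact fin 0 2 h01.2 h02.1
  · exact fin 2 0 h12.2 h02.1
  · exact fin 1 0 h12.2 h01.1

theorem no_k33 (a b : Fin 3 → Fin 3 → ℝ)
    (H1 : ∀ i i' j, i ≠ i' → ∃ k, a i k < a i' k ∧ b j k < a i' k)
    (H2 : ∀ j j' i, j ≠ j' → ∃ k, b j k < b j' k ∧ a i k < b j' k) : False := by
  classical
  let P := Finset.univ.filter fun k : Fin 3 => ∃ i, ∀ j, b j k < a i k
  let Q := Finset.univ.filter fun k : Fin 3 => ∃ j, ∀ i, a i k < b j k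
  have hdis : Disjoint P Q := by
    rw [Finset.disjoint_left]
    intro k h1 h2
    simp only [P, Q, Finset.mem_filter, Finset.mem_univ, true_and] at h1 h2
    obtain ⟨i, hi⟩ := h1
    obtain ⟨j, hj⟩ := h2
    exact lt_asymm (hi j) (hj i)
  have hcard : P.card + Q.card ≤ 3 := by
    rw [← Finset.card_union_of_disjoint hdis]
    exact (Finset.card_le_univ _).trans (by simp)
  have hP : ∃ k, k ∈ P := by
    obtain ⟨k, hk⟩ := pair a b H1 0 1 (by decide)
    refine ⟨k, ?_⟩
    simp only [P, Finset.mem_filter, Finset.mem_univ, true_and]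
    rcases hk with hk | hk
    · exact ⟨1, hk.2⟩
    · exact ⟨0, hk.2⟩
  have hQ : ∃ k, k ∈ Q := by
    obtain ⟨k, hk⟩ := pair b a H2 0 1 (by decide)
    refine ⟨k, ?_⟩
    simp only [Q, Finset.mem_filter, Finset.mem_univ, true_and]
    rcases hk with hk | hk
    · exact ⟨1, hk.2⟩
    · exact ⟨0, hk.2⟩
  obtain ⟨kp, hkp⟩ := hP
  obtain ⟨kq, hkq⟩ := hQ
  by_cases h : P.card ≤ 1
  · refine one_coord a b H1 H2 kp fun k hk => ?_
    exact Finset.card_le_one.mp h k (by simpa [P] using hk) kp hkp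
  · have h' : Q.card ≤ 1 := by omega
    refine one_coord b a H2 H1 kq fun k hk => ?_
    exact Finset.card_le_one.mp h' k (by simpa [Q] using hk) kq hkq

/-- `K_{3,3}` -/
abbrev K33 : SimpleGraph (Fin 3 ⊕ Fin 3) := completeBipartiteGraph (Fin 3) (Fin 3)

theorem adj_iff_f {L R t L' R' t' : ℝ} (ht : 0 < t) :
    (max t t' ≤ ovl L R L' R') ↔ f ![L, -R, t] ![L', -R', t'] ≤ 0 := by
  unfold ovl f
  rw [Fin.sum_univ_three]
  simp only [Matrix.cons_val_zero, Matrix.cons_val_one, Matrix.cons_val]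
  have hmax : 0 < max t t' := lt_max_of_lt_left ht
  have hneg : max (-R) (-R') = - min R R' := max_neg_neg R R'
  rw [hneg, le_max_iff]
  constructor
  · rintro (h | h)
    · linarith
    · linarith
  · intro h
    right; linarith

theorem not_maxTol : ¬ IsMaxTolerance K33 := by
  rintro ⟨L, R, t, _, ht, hadj⟩
  have hadj' : ∀ x y, x ≠ y → (K33.Adj x y ↔ f ![L x, -R x, t x] ![L y, -R y, t y] ≤ 0) := by
    intro x y hxy
    rw [hadj x y hxy, adj_iff_f (ht x)]
  refine no_k33 (fun i => ![L (Sum.inl i), -R (Sum.inl i), t (Sum.inl i)])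
    (fun j => ![L (Sum.inr j), -R (Sum.inr j), t (Sum.inr j)]) ?_ ?_
  · intro i i' j hne
    apply exists_coord
    · have h := (hadj' (Sum.inl i) (Sum.inl i') (by simpa using hne)).not.mp (by simp)
      exact not_le.mp h
    · exact (hadj' (Sum.inl i) (Sum.inr j) (by simp)).mp (by simp)
  · intro j j' i hne
    apply exists_coord
    · have h := (hadj' (Sum.inr j) (Sum.inr j') (by simpa using hne)).not.mp (by simp)
      exact not_le.mp h
    · exact (hadj' (Sum.inr j) (Sum.inl i) (by simp)).mp (by simp)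

theorem boundedTol : IsBoundedTolerance K33 := by
  refine ⟨Sum.elim (fun i => 10 + (i : ℕ)) (fun j => (j : ℕ)),
    Sum.elim (fun i => 20 + (i : ℕ)) (fun j => 30 + (j : ℕ)),
    Sum.elim (fun _ => 10) (fun _ => 30), ?_, ?_, ?_, ?_⟩
  · rintro (i | j) <;> simp <;> norm_num
  · rintro (i | j) <;> simp
  · rintro (i | j) <;> simp <;> norm_num
  · rintro (i | j) (i' | j') hne
    · have hne' : i ≠ i' := by simpa using hne
      simp only [completeBipartiteGraph_adj, Sum.isLeft_inl, Sum.isRight_inl, Sum.elim_inl, ovl]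
      fin_cases i <;> fin_cases i' <;> simp at hne' ⊢ <;> norm_num
    · simp only [completeBipartiteGraph_adj, Sum.isLeft_inl, Sum.isRight_inr, Sum.elim_inl,
        Sum.elim_inr, ovl]
      fin_cases i <;> fin_cases j' <;> simp <;> norm_num
    · simp only [completeBipartiteGraph_adj, Sum.isLeft_inl, Sum.isRight_inr, Sum.elim_inl,
        Sum.elim_inr, ovl]
      fin_cases j <;> fin_cases i' <;> simp <;> norm_num
    · have hne' : j ≠ j' := by simpa using hne
      simp only [completeBipartiteGraph_adj, Sum.isLeft_inr, Sum.isRight_inr, Sum.elim_inr, ovl]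
      fin_cases j <;> fin_cases j' <;> simp at hne' ⊢ <;> norm_num

end Q133.MaxTol
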