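import Mathlib

/-!
# A coding of outerplanar graphs by integer sequences

Vertices of a noncrossing graph on `{0, ..., n}` get integer sequences such that the sequences of
adjacent vertices differ by `± δ k` or `± (δ k - δ (k+1))`, and all sequences are distinct.
-/

set_option linter.unusedTactic false

namespace Pool.Agent.Q133.OPCore

/-- The `k`-th unit sequence. -/
def dl (k : ℕ) : ℕ → ℤ := fun n => if n = k then 1 else 0

/-- Partial sums. -/
def ps (f : ℕ → ℤ) (r : ℕ) : ℤ := ∑ s ∈ Finset.range r, f s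

/-- The reflected lexicographic order. -/
def lt (f g : ℕ → ℤ) : Prop :=
  ∃ r, (∀ s < r, f s = g s) ∧
    ((ps f r % 2 = 0 ∧ f r < g r) ∨ (ps f r % 2 = 1 ∧ g r < f r))

theorem ps_congr {f g : ℕ → ℤ} {r : ℕ} (h : ∀ s < r, f s = g s) : ps f r = ps g r :=
  Finset.sum_congr rfl fun s hs => h s (Finset.mem_range.1 hs)

theorem ps_succ (f : ℕ → ℤ) (r : ℕ) : ps f (r + 1) = ps f r + f r :=
  Finset.sum_range_succ f r

theorem lt_trans {f g h : ℕ → ℤ} (h1 : lt f g) (h2 : lt g h) : lt f h := by
  obtain ⟨r, hr, hr'⟩ := h1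
  obtain ⟨s, hs, hs'⟩ := h2
  rcases Nat.lt_trichotomy r s with h | h | h
  · refine ⟨r, fun t ht => (hr t ht).trans (hs t (ht.trans h)), ?_⟩
    rw [← hs r h]; exact hr'
  · subst h
    refine ⟨r, fun t ht => (hr t ht).trans (hs t ht), ?_⟩
    rw [← ps_congr hr] at hs'
    omega
  · refine ⟨s, fun t ht => (hr t (ht.trans h)).trans (hs t ht), ?_⟩
    rw [hr s h, ps_congr fun t ht => hr t (ht.trans h)]; exact hs'

theorem lt_irrefl {f : ℕ → ℤ} : ¬ lt f f := by
  rintro ⟨r, -, h⟩; omega

/-- Adjacent sequences, in increasing order. -/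
def EP (x y : ℕ → ℤ) : Prop :=
  ∃ k, (ps x k % 2 = 0 ∧ ((∀ n, y n = x n + dl k n) ∨
      (∀ n, y n = x n + dl k n - dl (k + 1) n))) ∨
    (ps x k % 2 = 1 ∧ ((∀ n, x n = y n + dl k n) ∨
      (∀ n, x n = y n + dl k n - dl (k + 1) n)))

theorem dl_self (k : ℕ) : dl k k = 1 := by simp [dl]

theorem dl_ne {k n : ℕ} (h : n ≠ k) : dl k n = 0 := by simp [dl, h]

theorem EP.lt {x y : ℕ → ℤ} (h : EP x y) : lt x y := by
  obtain ⟨k, h | h⟩ := h
  · refine ⟨k, fun s hs => ?_, Or.inl ⟨h.1, ?_⟩⟩
    · have h1 := dl_ne (show s ≠ k by omega)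
      have h2 := dl_ne (show s ≠ k + 1 by omega)
      rcases h.2 with h | h <;> rw [h s] <;> omega
    · have h1 := dl_self k
      have h2 := dl_ne (show k ≠ k + 1 by omega)
      rcases h.2 with h | h <;> rw [h k] <;> omega
  · refine ⟨k, fun s hs => ?_, Or.inr ⟨h.1, ?_⟩⟩
    · have h1 := dl_ne (show s ≠ k by omega)
      have h2 := dl_ne (show s ≠ k + 1 by omega)
      rcases h.2 with h | h <;> rw [h s] <;> omega
    · have h1 := dl_self k
      have h2 := dl_ne (show k ≠ k + 1 by omega)
      rcases h.2 with h | h <;> rw [h k] <;> omega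

theorem btw (x y : ℕ → ℤ) (k : ℕ)
    (h : (∀ n, y n = x n + dl k n) ∨ (∀ n, y n = x n + dl k n - dl (k + 1) n)) :
    ∃ w : ℕ → ℤ, (ps x k % 2 = 0 → EP x w ∧ EP w y) ∧ (ps x k % 2 = 1 → EP y w ∧ EP w x) ∧
      ∀ n, k + 1 < n → w n = x n := by
  have hk1 := dl_self k
  have hk2 := dl_self (k + 1)
  have hk3 := dl_ne (show k ≠ k + 1 by omega)
  have hk4 := dl_ne (show k + 1 ≠ k by omega)
  have hlow : ∀ s < k, dl k s = 0 ∧ dl (k + 1) s = 0 := fun s hs =>
    ⟨dl_ne (by omega), dl_ne (by omega)⟩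
  have hhigh : ∀ s, k + 1 < s → dl k s = 0 ∧ dl (k + 1) s = 0 := fun s hs =>
    ⟨dl_ne (by omega), dl_ne (by omega)⟩
  have hy : ps y k = ps x k := ps_congr fun s hs => by
    have := hlow s hs
    rcases h with h | h <;> rw [h s] <;> omega
  rcases h with h | h
  · rcases Int.emod_two_eq_zero_or_one (x k) with hx | hx
    · -- w = x + δ (k+1)
      have hw : ps (fun n => x n + dl (k + 1) n) k = ps x k := ps_congr fun s hs => by
        have := hlow s hs
        (try beta_reduce)
        omega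
      refine ⟨fun n => x n + dl (k + 1) n, fun hp => ⟨⟨k + 1, Or.inl ⟨?_, Or.inl fun n => rfl⟩⟩,
        ⟨k, Or.inl ⟨?_, Or.inr fun n => ?_⟩⟩⟩, fun hp => ⟨⟨k, Or.inr ⟨?_, Or.inr fun n => ?_⟩⟩,
        ⟨k + 1, Or.inr ⟨?_, Or.inl fun n => rfl⟩⟩⟩, fun n hn => ?_⟩
      · rw [ps_succ]; omega
      · rw [hw]; exact hp
      · rw [h n]; ring
      · rw [hy]; exact hp
      · rw [h n]; ring
      · rw [ps_succ, hw]; (try beta_reduce); omega
      · have := hhigh n hn
        (try beta_reduce); omega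
    · -- w = y - δ (k+1)
      have hw : ps (fun n => y n - dl (k + 1) n) k = ps x k := by
        rw [← hy]
        exact ps_congr fun s hs => by
          have := hlow s hs
          (try beta_reduce)
          omega
      have hyk := h k
      refine ⟨fun n => y n - dl (k + 1) n, fun hp => ⟨⟨k, Or.inl ⟨hp, Or.inr fun n => ?_⟩⟩,
        ⟨k + 1, Or.inl ⟨?_, Or.inl fun n => ?_⟩⟩⟩, fun hp => ⟨⟨k + 1, Or.inr ⟨?_, Or.inl fun n => ?_⟩⟩,
        ⟨k, Or.inr ⟨?_, Or.inr fun n => ?_⟩⟩⟩, fun n hn => ?_⟩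
      · (try beta_reduce); rw [h n]
      · rw [ps_succ, hw]; (try beta_reduce); omega
      · (try beta_reduce); ring
      · rw [ps_succ, hy]; omega
      · (try beta_reduce); ring
      · rw [hw]; exact hp
      · (try beta_reduce); rw [h n]
      · have := hhigh n hn
        (try beta_reduce); rw [h n]; omega
  · rcases Int.emod_two_eq_zero_or_one (x k) with hx | hx
    · -- w = x + δ k
      have hw : ps (fun n => x n + dl k n) k = ps x k := ps_congr fun s hs => by
        have := hlow s hs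
        (try beta_reduce)
        omega
      have hyk := h k
      refine ⟨fun n => x n + dl k n, fun hp => ⟨⟨k, Or.inl ⟨hp, Or.inl fun n => rfl⟩⟩,
        ⟨k + 1, Or.inr ⟨?_, Or.inl fun n => ?_⟩⟩⟩, fun hp => ⟨⟨k + 1, Or.inl ⟨?_, Or.inl fun n => ?_⟩⟩,
        ⟨k, Or.inr ⟨?_, Or.inl fun n => rfl⟩⟩⟩, fun n hn => ?_⟩
      · rw [ps_succ, hw]; (try beta_reduce); omega
      · (try beta_reduce); rw [h n]; ring
      · rw [ps_succ, hy]; omega
      · (try beta_reduce); rw [h n]; ring
      · rw [hw]; exact hp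
      · have := hhigh n hn
        (try beta_reduce); omega
    · -- w = y - δ k
      have hw : ps (fun n => x n - dl (k + 1) n) k = ps x k := ps_congr fun s hs => by
        have := hlow s hs
        (try beta_reduce)
        omega
      have hyk := h k
      refine ⟨fun n => x n - dl (k + 1) n, fun hp => ⟨⟨k + 1, Or.inr ⟨?_, Or.inl fun n => ?_⟩⟩,
        ⟨k, Or.inl ⟨?_, Or.inl fun n => ?_⟩⟩⟩, fun hp => ⟨⟨k, Or.inr ⟨?_, Or.inl fun n => ?_⟩⟩,
        ⟨k + 1, Or.inl ⟨?_, Or.inl fun n => ?_⟩⟩⟩, fun n hn => ?_⟩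
      · rw [ps_succ]; omega
      · (try beta_reduce); ring
      · rw [hw]; exact hp
      · (try beta_reduce); rw [h n]; ring
      · rw [hy]; exact hp
      · (try beta_reduce); rw [h n]; ring
      · rw [ps_succ, hw]; (try beta_reduce); omega
      · (try beta_reduce); ring
      · have := hhigh n hn
        (try beta_reduce); omega

/-- The between lemma. -/
theorem EP.between {x y : ℕ → ℤ} (h : EP x y)
    (hx : ∃ N, ∀ n, N < n → x n = 0) (hy : ∃ N, ∀ n, N < n → y n = 0) :
    ∃ w : ℕ → ℤ, EP x w ∧ EP w y ∧ ∃ N, ∀ n, N < n → w n = 0 := by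
  obtain ⟨k, h | h⟩ := h
  · obtain ⟨w, h1, -, h3⟩ := btw x y k h.2
    obtain ⟨N, hN⟩ := hx
    refine ⟨w, (h1 h.1).1, (h1 h.1).2, N + k + 1, fun n hn => ?_⟩
    rw [h3 n (by omega), hN n (by omega)]
  · have hxy : ps y k = ps x k := ps_congr fun s hs => by
      have h1 := dl_ne (show s ≠ k by omega)
      have h2 := dl_ne (show s ≠ k + 1 by omega)
      rcases h.2 with h | h <;> rw [h s] <;> omega
    obtain ⟨w, -, h2, h3⟩ := btw y x k h.2
    obtain ⟨N, hN⟩ := hy
    have h2' := h2 (by rw [hxy]; exact h.1)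
    refine ⟨w, h2'.1, h2'.2, N + k + 1, fun n hn => ?_⟩
    rw [h3 n (by omega), hN n (by omega)]

/-- Interval induction. -/
theorem interval (R : ℕ → ℕ → Prop)
    (hR : ∀ a b c d, a < b → b < c → c < d → R a c → R b d → False) :
    ∀ m a b, b = a + m + 1 → ∀ x y : ℕ → ℤ, EP x y →
      (∃ N, ∀ n, N < n → x n = 0) → (∃ N, ∀ n, N < n → y n = 0) →
      ∃ p : ℕ → ℕ → ℤ, p a = x ∧ p b = y ∧
        (∀ i j, a ≤ i → i < j → j ≤ b → lt (p i) (p j)) ∧
        (∀ i j, a ≤ i → i < j → j ≤ b → R i j → EP (p i) (p j)) ∧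
        ∀ i, ∃ N, ∀ n, N < n → p i n = 0 := by
  classical
  intro m
  induction m using Nat.strong_induction_on with
  | _ m ih =>
  intro a b hb x y hxy hx hy
  rcases Nat.eq_zero_or_pos m with hm | hm
  · subst hm
    refine ⟨fun i => if i ≤ a then x else y, by simp, ?_, ?_, ?_, ?_⟩
    · (try beta_reduce); rw [if_neg (by omega)]
    · intro i j h1 h2 h3
      have : i = a := by omega
      subst this
      simp only [le_refl, if_true]
      rw [if_neg (by omega)]
      exact hxy.lt
    · intro i j h1 h2 h3 _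
      have : i = a := by omega
      subst this
      simp only [le_refl, if_true]
      rw [if_neg (by omega)]
      exact hxy
    · intro i
      by_cases h : i ≤ a <;> simp only [h, if_true, if_false] <;> assumption
  · -- choose the last neighbour of `a` before `b`
    obtain ⟨c, hc1, hc2, hc3, hc4⟩ : ∃ c, a < c ∧ c < b ∧ (c = a + 1 ∨ R a c) ∧
        ∀ j, c < j → j < b → ¬ R a j := by
      set S := (Finset.Ioo a b).filter fun j => j = a + 1 ∨ R a j with hS
      have hne : S.Nonempty := ⟨a + 1, by simp [hS]; omega⟩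
      have hmem : ∀ j ∈ S, (a < j ∧ j < b) ∧ (j = a + 1 ∨ R a j) := fun j hj => by
        rw [hS, Finset.mem_filter, Finset.mem_Ioo] at hj
        exact hj
      have hmem' := hmem _ (Finset.max'_mem S hne)
      refine ⟨S.max' hne, hmem'.1.1, hmem'.1.2, hmem'.2, fun j h1 h2 h3 => ?_⟩
      have : j ∈ S := by
        rw [hS, Finset.mem_filter, Finset.mem_Ioo]
        exact ⟨⟨hmem'.1.1.trans h1, h2⟩, Or.inr h3⟩
      exact absurd (Finset.le_max' S j this) (by omega)
    obtain ⟨w, hw1, hw2, hw3⟩ := hxy.between hx hy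
    obtain ⟨p, hp1, hp2, hp3, hp4, hp5⟩ := ih (c - a - 1) (by omega) a c (by omega) x w hw1 hx hw3
    obtain ⟨q, hq1, hq2, hq3, hq4, hq5⟩ := ih (b - c - 1) (by omega) c b (by omega) w y hw2 hw3 hy
    have hlt : ∀ i j, a ≤ i → i < j → j ≤ b →
        lt (if i ≤ c then p i else q i) (if j ≤ c then p j else q j) := by
      intro i j h1 h2 h3
      by_cases hj : j ≤ c
      · rw [if_pos hj, if_pos (by omega)]
        exact hp3 i j h1 h2 hj
      · rw [if_neg hj]
        by_cases hi : i ≤ c
        · rw [if_pos hi]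
          rcases Nat.lt_or_ge i c with h | h
          · have e1 := hp3 i c h1 h le_rfl
            have e2 := hq3 c j le_rfl (by omega) h3
            rw [hp2] at e1
            rw [hq1] at e2
            exact lt_trans e1 e2
          · have : i = c := by omega
            subst this
            rw [hp2, ← hq1]
            exact hq3 i j le_rfl h2 h3
        · rw [if_neg hi]
          exact hq3 i j (by omega) h2 h3
    refine ⟨fun i => if i ≤ c then p i else q i, ?_, ?_, hlt, ?_, ?_⟩
    · (try beta_reduce); rw [if_pos hc1.le]; exact hp1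
    · (try beta_reduce); rw [if_neg (by omega)]; exact hq2
    · intro i j h1 h2 h3 h4
      (try beta_reduce)
      by_cases hj : j ≤ c
      · rw [if_pos hj, if_pos (by omega)]
        exact hp4 i j h1 h2 hj h4
      · rw [if_neg hj]
        by_cases hi : i < c
        · -- a jumping edge must be `(a, b)`
          rcases Nat.eq_or_lt_of_le h1 with h | h
          · subst h
            rcases Nat.eq_or_lt_of_le h3 with h' | h'
            · subst h'
              rw [if_pos hi.le, hp1, hq2]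
              exact hxy
            · exact absurd h4 (hc4 j (by omega) h')
          · rcases hc3 with h' | h'
            · omega
            · exact (hR a i c j h hi (by omega) h' h4).elim
        · by_cases hi' : i = c
          · subst hi'
            rw [if_pos le_rfl, hp2, ← hq1]
            exact hq4 i j le_rfl h2 h3 h4
          · rw [if_neg (by omega)]
            exact hq4 i j (by omega) h2 h3 h4
    · intro i
      by_cases h : i ≤ c <;> simp only [h, if_true, if_false]
      · exact hp5 i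
      · exact hq5 i

/-- The coding theorem. -/
theorem coding (R : ℕ → ℕ → Prop)
    (hR : ∀ a b c d, a < b → b < c → c < d → R a c → R b d → False) (m : ℕ) :
    ∃ p : ℕ → ℕ → ℤ, (∀ i j, i < j → j ≤ m → p i ≠ p j) ∧
      (∀ i j, i < j → j ≤ m → R i j → EP (p i) (p j)) ∧
      ∃ N, ∀ i ≤ m, ∀ n, N < n → p i n = 0 := by
  obtain ⟨p, h1, h2, h3, h4, h5⟩ := interval R hR m 0 (m + 1) (by omega) (fun _ => 0) (dl 0)
    ⟨0, Or.inl ⟨by simp [ps], Or.inl fun n => by simp⟩⟩ ⟨0, fun _ _ => rfl⟩
    ⟨0, fun n hn => dl_ne (by omega)⟩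
  refine ⟨p, fun i j hij hj e => ?_, fun i j hij hj hr => h4 i j (by omega) hij (by omega) hr, ?_⟩
  · have := h3 i j (by omega) hij (by omega)
    rw [e] at this
    exact lt_irrefl this
  · choose N hN using h5
    refine ⟨(Finset.range (m + 1)).sup N, fun i hi n hn => hN i n (lt_of_le_of_lt ?_ hn)⟩
    exact Finset.le_sup (Finset.mem_range.2 (by omega))

end Pool.Agent.Q133.OPCore
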