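import Mathlib
import Pool.Agent.Q133.OPCore

/-!
# Evaluating integer sequences at powers of a transcendental unimodular number
-/

namespace Pool.Agent.Q133.OPEval

open Pool.Agent.Q133.OPCore Polynomial

/-- There is a transcendental complex number of modulus one. -/
theorem exists_tau : ∃ τ : ℂ, ‖τ‖ = 1 ∧ Transcendental ℤ τ := by
  by_contra hcon
  push Not at hcon
  have h1 : Set.Countable {x : ℂ | IsAlgebraic ℤ x} := Algebraic.countable ℤ ℂ
  have h2 : Set.MapsTo (fun t : ℝ => Complex.exp (t * Complex.I)) (Set.Ioo 0 1)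
      {x : ℂ | IsAlgebraic ℤ x} := by
    intro t _
    have h := hcon (Complex.exp (t * Complex.I)) (Complex.norm_exp_ofReal_mul_I t)
    simpa [Transcendental] using h
  have h3 : Set.InjOn (fun t : ℝ => Complex.exp (t * Complex.I)) (Set.Ioo 0 1) := by
    intro s hs t ht hst
    have hpi := Real.pi_gt_three
    have e1 : Complex.arg (Complex.exp (s * Complex.I)) = s := by
      rw [Complex.arg_exp_mul_I, toIocMod_eq_self]
      constructor
      · linarith [hs.1]
      · linarith [hs.2]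
    have e2 : Complex.arg (Complex.exp (t * Complex.I)) = t := by
      rw [Complex.arg_exp_mul_I, toIocMod_eq_self]
      constructor
      · linarith [ht.1]
      · linarith [ht.2]
    have hst' : Complex.exp (s * Complex.I) = Complex.exp (t * Complex.I) := hst
    rw [← e1, ← e2, hst']
  have h4 : Set.Countable (Set.Ioo (0 : ℝ) 1) := Set.MapsTo.countable_of_injOn h2 h3 h1
  have h5 := Cardinal.mk_Ioo_real (show (0 : ℝ) < 1 by norm_num)
  have h6 : Cardinal.mk (Set.Ioo (0 : ℝ) 1) ≤ Cardinal.aleph0 := Set.Countable.le_aleph0 h4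
  rw [h5] at h6
  exact absurd h6 (not_le.2 Cardinal.aleph0_lt_continuum)

variable {τ : ℂ} {b : ℕ → ℕ}

/-- The point of a sequence. -/
noncomputable def pt (τ : ℂ) (b : ℕ → ℕ) (n : ℕ) (f : ℕ → ℤ) : ℂ :=
  ∑ j ∈ Finset.range n, (f j : ℂ) * τ ^ (b j)

theorem pt_sub (n : ℕ) (f g : ℕ → ℤ) :
    pt τ b n f - pt τ b n g = pt τ b n (fun j => f j - g j) := by
  simp only [pt, ← Finset.sum_sub_distrib]
  refine Finset.sum_congr rfl fun j _ => ?_
  push_cast; ring

theorem pt_dl {n k : ℕ} (h : k < n) : pt τ b n (dl k) = τ ^ (b k) := by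
  simp only [pt, dl]
  rw [Finset.sum_eq_single k]
  · simp
  · intro j _ hj; simp [hj]
  · intro h'; exact absurd (Finset.mem_range.2 h) h'

theorem tau_ne (ht : Transcendental ℤ τ) : τ ≠ 0 := by
  rintro rfl; exact ht isAlgebraic_zero

theorem indep (ht : Transcendental ℤ τ) (hb : Function.Injective b) {n : ℕ} {g : ℕ → ℤ}
    (h : pt τ b n g = 0) : ∀ i < n, g i = 0 := by
  intro i hi
  have hP : aeval τ (∑ j ∈ Finset.range n, C (g j) * X ^ (b j) : ℤ[X]) = 0 := by
    rw [map_sum]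
    simpa [pt] using h
  have hP0 := (transcendental_iff.1 ht) _ hP
  have := congrArg (fun P : ℤ[X] => P.coeff (b i)) hP0
  simp only [finsetSum_coeff, coeff_C_mul, coeff_X_pow, coeff_zero] at this
  rw [Finset.sum_eq_single i] at this
  · simpa using this
  · intro j _ hj
    rw [if_neg fun h => hj (hb h).symm, mul_zero]
  · intro h'; exact absurd (Finset.mem_range.2 hi) h'

theorem conj_pow (hτ : ‖τ‖ = 1) (m : ℕ) : (starRingEnd ℂ) (τ ^ m) * τ ^ m = 1 := by
  rw [mul_comm, Complex.mul_conj, Complex.normSq_eq_norm_sq]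
  simp [hτ]

theorem symm_supp (hτ : ‖τ‖ = 1) (ht : Transcendental ℤ τ) (hb : Function.Injective b) {n : ℕ}
    {g : ℕ → ℤ} {c : ℕ} {s : ℤ} (hs : s ≠ 0)
    (h : (starRingEnd ℂ) (pt τ b n g) * τ ^ c = s * pt τ b n g) {i : ℕ} (hi : i < n)
    (hc : ∀ j < n, b i + b j ≠ c) : g i = 0 := by
  classical
  set B := ∑ j ∈ Finset.range n, b j with hB
  have hBj : ∀ j < n, b j ≤ B := fun j hj =>
    Finset.single_le_sum (f := b) (fun _ _ => Nat.zero_le _) (Finset.mem_range.2 hj)
  have hP : aeval τ (∑ j ∈ Finset.range n, C (g j) * X ^ (B - b j + c) -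
      ∑ j ∈ Finset.range n, C (s * g j) * X ^ (b j + B) : ℤ[X]) = 0 := by
    rw [map_sub, map_sum, map_sum]
    have e1 : ∑ j ∈ Finset.range n, aeval τ (C (g j) * X ^ (B - b j + c) : ℤ[X]) =
        (starRingEnd ℂ) (pt τ b n g) * τ ^ c * τ ^ B := by
      rw [pt, map_sum, Finset.sum_mul, Finset.sum_mul]
      refine Finset.sum_congr rfl fun j hj => ?_
      have hj' := hBj j (Finset.mem_range.1 hj)
      have e : (starRingEnd ℂ) (τ ^ b j) * τ ^ B = τ ^ (B - b j) := by
        have : τ ^ B = τ ^ (b j) * τ ^ (B - b j) := by rw [← pow_add]; congr 1; omega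
        rw [this, ← mul_assoc, conj_pow hτ, one_mul]
      simp only [map_mul, aeval_C, map_pow, aeval_X, map_intCast, pow_add]
      rw [← e]
      simp
      ring
    have e2 : ∑ j ∈ Finset.range n, aeval τ (C (s * g j) * X ^ (b j + B) : ℤ[X]) =
        s * pt τ b n g * τ ^ B := by
      rw [pt, Finset.mul_sum, Finset.sum_mul]
      refine Finset.sum_congr rfl fun j hj => ?_
      simp [pow_add]
      ring
    rw [e1, e2, h, sub_self]
  have hP0 := (transcendental_iff.1 ht) _ hP
  have := congrArg (fun P : ℤ[X] => P.coeff (b i + B)) hP0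
  simp only [coeff_sub, finsetSum_coeff, coeff_C_mul, coeff_X_pow, coeff_zero] at this
  rw [Finset.sum_eq_zero, Finset.sum_eq_single i] at this
  · simp only [if_true, mul_one, zero_sub, neg_eq_zero, mul_eq_zero, hs, false_or] at this
    exact this
  · intro j _ hj
    rw [if_neg fun h => hj (hb (by omega)), mul_zero]
  · intro h'; exact absurd (Finset.mem_range.2 hi) h'
  · intro j hj
    have hj' := hBj j (Finset.mem_range.1 hj)
    have := hc j (Finset.mem_range.1 hj)
    rw [if_neg (by omega), mul_zero]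

/-- The vector of an edge. -/
theorem ep_edge {x y : ℕ → ℤ} (h : EP x y) {N : ℕ} (hx : ∀ n, N < n → x n = 0)
    (hy : ∀ n, N < n → y n = 0) : ∃ s : ℤ, (s = 1 ∨ s = -1) ∧ ∃ k < N + 1,
      (∀ j, y j - x j = s * dl k j) ∨
      (k + 1 < N + 1 ∧ ∀ j, y j - x j = s * (dl k j - dl (k + 1) j)) := by
  have hk : ∀ k : ℕ, dl k k = 1 := dl_self
  have hk' : ∀ k : ℕ, dl k (k + 1) = 0 := fun k => dl_ne (by omega)
  have hk'' : ∀ k : ℕ, dl (k + 1) k = 0 := fun k => dl_ne (by omega)
  obtain ⟨k, ⟨-, h | h⟩ | ⟨-, h | h⟩⟩ := h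
  · have h1 := h k
    have h2 : k < N + 1 := by
      by_contra hc
      have := hx k (by omega)
      have := hy k (by omega)
      have := hk k
      omega
    exact ⟨1, Or.inl rfl, k, h2, Or.inl fun j => by rw [h j]; ring⟩
  · have h1 := h k
    have h1' := h (k + 1)
    have h2 : k + 1 < N + 1 := by
      by_contra hc
      have := hx (k + 1) (by omega)
      have := hy (k + 1) (by omega)
      have := hk (k + 1)
      have := hk' k
      omega
    exact ⟨1, Or.inl rfl, k, by omega, Or.inr ⟨h2, fun j => by rw [h j]; ring⟩⟩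
  · have h1 := h k
    have h2 : k < N + 1 := by
      by_contra hc
      have := hx k (by omega)
      have := hy k (by omega)
      have := hk k
      omega
    exact ⟨-1, Or.inr rfl, k, h2, Or.inl fun j => by rw [h j]; ring⟩
  · have h1 := h k
    have h1' := h (k + 1)
    have h2 : k + 1 < N + 1 := by
      by_contra hc
      have := hx (k + 1) (by omega)
      have := hy (k + 1) (by omega)
      have := hk (k + 1)
      have := hk' k
      omega
    exact ⟨-1, Or.inr rfl, k, by omega, Or.inr ⟨h2, fun j => by rw [h j]; ring⟩⟩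

theorem pt_smul (n : ℕ) (s : ℤ) (f : ℕ → ℤ) :
    pt τ b n (fun j => s * f j) = s * pt τ b n f := by
  simp only [pt, Finset.mul_sum]
  refine Finset.sum_congr rfl fun j _ => ?_
  push_cast; ring

/-- The edge vector of a pair of adjacent sequences. -/
theorem ep_edgeVec {x y : ℕ → ℤ} (h : EP x y) {N : ℕ} (hx : ∀ n, N < n → x n = 0)
    (hy : ∀ n, N < n → y n = 0) : ∃ s : ℤ, (s = 1 ∨ s = -1) ∧ ∃ k < N + 1,
      (pt τ b (N + 1) y - pt τ b (N + 1) x = s * τ ^ (b k)) ∨
      (k + 1 < N + 1 ∧ pt τ b (N + 1) y - pt τ b (N + 1) x =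
        s * (τ ^ (b k) - τ ^ (b (k + 1)))) := by
  obtain ⟨s, hs, k, hk, h | ⟨hk', h⟩⟩ := ep_edge h hx hy
  · refine ⟨s, hs, k, hk, Or.inl ?_⟩
    rw [pt_sub, show (fun j => y j - x j) = fun j => s * dl k j from funext h, pt_smul,
      pt_dl hk]
  · refine ⟨s, hs, k, hk, Or.inr ⟨hk', ?_⟩⟩
    rw [pt_sub, show (fun j => y j - x j) = fun j => s * (dl k j - dl (k + 1) j) from funext h,
      pt_smul, ← pt_sub, pt_dl hk, pt_dl hk']

theorem norm_edge_one (hτ : ‖τ‖ = 1) {s : ℤ} (hs : s = 1 ∨ s = -1) (k : ℕ) :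
    ‖(s : ℂ) * τ ^ (b k)‖ = 1 := by
  rcases hs with rfl | rfl <;> simp [hτ]

theorem norm_edge_two (hτ : ‖τ‖ = 1) (hb : Monotone b) {s : ℤ} (hs : s = 1 ∨ s = -1) (k : ℕ) :
    ‖(s : ℂ) * (τ ^ (b k) - τ ^ (b (k + 1)))‖ = ‖1 - τ ^ (b (k + 1) - b k)‖ := by
  have h1 : τ ^ (b (k + 1)) = τ ^ (b k) * τ ^ (b (k + 1) - b k) := by
    rw [← pow_add]; congr 1
    have := hb (show k ≤ k + 1 by omega)
    omega
  have h2 : τ ^ (b k) - τ ^ (b (k + 1)) = τ ^ (b k) * (1 - τ ^ (b (k + 1) - b k)) := by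
    rw [h1]; ring
  rw [h2, norm_mul, norm_mul, norm_pow, hτ, one_pow, one_mul]
  rcases hs with rfl | rfl <;> simp

end Pool.Agent.Q133.OPEval
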