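import Mathlib
import Pool.Agent.Q133.OctData

set_option autoImplicit false

/-!
# The unit distance graph of the 69 lattice points in the norm of an octagon
-/

namespace Q133.Octagon

open scoped Pointwise

/-- The unit distance graph of the norm with unit ball `K`. -/
def unitDistance (K : Set (ℝ × ℝ)) : SimpleGraph (ℝ × ℝ) :=
  SimpleGraph.fromRel (fun x y => gauge K (x - y) = 1)

/-- The octagon. -/
def oct : Set (ℝ × ℝ) :=
  {p | |p.1| ≤ 4 ∧ |p.2| ≤ 4 ∧ |p.1 + p.2| ≤ 6 ∧ |p.1 - p.2| ≤ 6}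

/-- The octagonal norm. -/
noncomputable def N (p : ℝ × ℝ) : ℝ :=
  max (max (|p.1| / 4) (|p.2| / 4)) (max (|p.1 + p.2| / 6) (|p.1 - p.2| / 6))

theorem N_le (p : ℝ × ℝ) (a : ℝ) :
    N p ≤ a ↔ |p.1| ≤ 4 * a ∧ |p.2| ≤ 4 * a ∧ |p.1 + p.2| ≤ 6 * a ∧ |p.1 - p.2| ≤ 6 * a := by
  unfold N
  rw [max_le_iff, max_le_iff, max_le_iff, div_le_iff₀ (by norm_num), div_le_iff₀ (by norm_num),
    div_le_iff₀ (by norm_num), div_le_iff₀ (by norm_num), mul_comm a 4, mul_comm a 6, and_assoc]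

theorem N_nonneg (p : ℝ × ℝ) : 0 ≤ N p :=
  le_trans (by positivity) (le_trans (le_max_left (|p.1| / 4) (|p.2| / 4)) (le_max_left _ _))

theorem mem_smul_iff (p : ℝ × ℝ) (a : ℝ) (ha : 0 < a) : p ∈ a • oct ↔ N p ≤ a := by
  rw [N_le, Set.mem_smul_set_iff_inv_smul_mem₀ ha.ne']
  simp only [oct, Set.mem_setOf_eq, Prod.smul_fst, Prod.smul_snd, smul_eq_mul, ← mul_add,
    ← mul_sub, abs_mul, abs_of_pos (inv_pos.2 ha), inv_mul_le_iff₀ ha]
  rw [mul_comm a 4, mul_comm a 6]

theorem gauge_oct (p : ℝ × ℝ) : gauge oct p = N p := by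
  apply le_antisymm
  · apply le_of_forall_pos_le_add
    intro ε hε
    apply gauge_le_of_mem (by have := N_nonneg p; positivity)
    rw [mem_smul_iff _ _ (by have := N_nonneg p; positivity)]
    linarith
  · apply le_of_forall_pos_le_add
    intro ε hε
    have habs : Absorbent ℝ oct := by
      apply absorbent_nhds_zero
      have : Metric.ball (0 : ℝ × ℝ) 1 ⊆ oct := by
        intro q hq
        rw [mem_ball_zero_iff, Prod.norm_def, max_lt_iff] at hq
        obtain ⟨h1, h2⟩ := hq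
        rw [Real.norm_eq_abs] at h1 h2
        refine ⟨by linarith, by linarith, ?_, ?_⟩
        · exact (abs_add_le _ _).trans (by linarith)
        · exact (abs_sub _ _).trans (by linarith)
      exact Filter.mem_of_superset (Metric.ball_mem_nhds 0 one_pos) this
    obtain ⟨b, hb0, hb, hmem⟩ := exists_lt_of_gauge_lt habs (lt_add_of_pos_right (gauge oct p) hε)
    rw [mem_smul_iff _ _ hb0] at hmem
    linarith

theorem convex_oct : Convex ℝ oct := by
  intro p hp q hq a b ha hb hab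
  have key : ∀ x y c : ℝ, |x| ≤ c → |y| ≤ c → |a * x + b * y| ≤ c := by
    intro x y c hx hy
    calc |a * x + b * y| ≤ |a * x| + |b * y| := abs_add_le _ _
      _ = a * |x| + b * |y| := by rw [abs_mul, abs_mul, abs_of_nonneg ha, abs_of_nonneg hb]
      _ ≤ a * c + b * c := by gcongr
      _ = c := by rw [← add_mul, hab, one_mul]
  obtain ⟨h1, h2, h3, h4⟩ := hp
  obtain ⟨k1, k2, k3, k4⟩ := hq
  refine ⟨key _ _ _ h1 k1, key _ _ _ h2 k2, ?_, ?_⟩
  · have := key _ _ _ h3 k3
    have e : (a • p + b • q).1 + (a • p + b • q).2 = a * (p.1 + p.2) + b * (q.1 + q.2) := by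
      simp; ring
    rw [e]; exact this
  · have := key _ _ _ h4 k4
    have e : (a • p + b • q).1 - (a • p + b • q).2 = a * (p.1 - p.2) + b * (q.1 - q.2) := by
      simp; ring
    rw [e]; exact this

theorem compact_oct : IsCompact oct := by
  apply Metric.isCompact_of_isClosed_isBounded
  · have h1 : IsClosed {p : ℝ × ℝ | |p.1| ≤ 4} :=
      isClosed_le (by fun_prop) (by fun_prop)
    have h2 : IsClosed {p : ℝ × ℝ | |p.2| ≤ 4} :=
      isClosed_le (by fun_prop) (by fun_prop)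
    have h3 : IsClosed {p : ℝ × ℝ | |p.1 + p.2| ≤ 6} :=
      isClosed_le (by fun_prop) (by fun_prop)
    have h4 : IsClosed {p : ℝ × ℝ | |p.1 - p.2| ≤ 6} :=
      isClosed_le (by fun_prop) (by fun_prop)
    exact h1.inter (h2.inter (h3.inter h4))
  · apply Metric.isBounded_closedBall (x := (0 : ℝ × ℝ)) (r := 4) |>.subset
    intro p hp
    rw [mem_closedBall_zero_iff, Prod.norm_def]
    exact max_le hp.1 hp.2.1

theorem interior_oct : (interior oct).Nonempty := by
  refine ⟨0, ?_⟩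
  rw [mem_interior_iff_mem_nhds]
  have : Metric.ball (0 : ℝ × ℝ) 1 ⊆ oct := by
    intro q hq
    rw [mem_ball_zero_iff, Prod.norm_def, max_lt_iff] at hq
    obtain ⟨h1, h2⟩ := hq
    rw [Real.norm_eq_abs] at h1 h2
    refine ⟨by linarith, by linarith, ?_, ?_⟩
    · exact (abs_add_le _ _).trans (by linarith)
    · exact (abs_sub _ _).trans (by linarith)
  exact Filter.mem_of_superset (Metric.ball_mem_nhds 0 one_pos) this

theorem neg_oct : ∀ p, p ∈ oct → -p ∈ oct := by
  intro p hp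
  obtain ⟨h1, h2, h3, h4⟩ := hp
  refine ⟨?_, ?_, ?_, ?_⟩
  · simpa using h1
  · simpa using h2
  · have e : (-p).1 + (-p).2 = -(p.1 + p.2) := by simp; ring
    rw [e, abs_neg]; exact h3
  · have e : (-p).1 - (-p).2 = -(p.1 - p.2) := by simp; ring
    rw [e, abs_neg]; exact h4

/-- The embedding of the vertices. -/
noncomputable def pt (i : Fin 69) : ℝ × ℝ := ((px i : ℝ), (py i : ℝ))

theorem pt_inj : Function.Injective pt := by
  intro i j h
  have h1 := congrArg Prod.fst h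
  have h2 := congrArg Prod.snd h
  simp only [pt, Int.cast_inj] at h1 h2
  exact pts_inj i j h1 h2

theorem abs_le_iff (a : ℤ) (n : ℕ) : |(a : ℝ)| ≤ n ↔ a.natAbs ≤ n := by
  rw [← Int.cast_abs, Int.abs_eq_natAbs]
  exact_mod_cast Iff.rfl

theorem le_abs_iff (a : ℤ) (n : ℕ) : (n : ℝ) ≤ |(a : ℝ)| ↔ n ≤ a.natAbs := by
  rw [← Int.cast_abs, Int.abs_eq_natAbs]
  exact_mod_cast Iff.rfl

theorem N_eq_one (a b : ℤ) : N ((a : ℝ), (b : ℝ)) = 1 ↔ unitZ a b = true := by
  have hle : N ((a : ℝ), (b : ℝ)) ≤ 1 ↔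
      (a.natAbs ≤ 4 ∧ b.natAbs ≤ 4 ∧ (a + b).natAbs ≤ 6 ∧ (a - b).natAbs ≤ 6) := by
    rw [N_le]
    simp only [mul_one]
    rw [← abs_le_iff, ← abs_le_iff, ← abs_le_iff, ← abs_le_iff]
    push_cast
    rfl
  have hge : 1 ≤ N ((a : ℝ), (b : ℝ)) ↔
      (4 ≤ a.natAbs ∨ 4 ≤ b.natAbs ∨ 6 ≤ (a + b).natAbs ∨ 6 ≤ (a - b).natAbs) := by
    unfold N
    rw [le_max_iff, le_max_iff, le_max_iff, le_div_iff₀ (by norm_num), le_div_iff₀ (by norm_num),
      le_div_iff₀ (by norm_num), le_div_iff₀ (by norm_num), one_mul, one_mul, or_assoc]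
    rw [← le_abs_iff, ← le_abs_iff, ← le_abs_iff, ← le_abs_iff]
    push_cast
    rfl
  rw [le_antisymm_iff, hle, hge]
  unfold unitZ
  simp only [Bool.and_eq_true, Bool.or_eq_true, decide_eq_true_eq, beq_iff_eq]
  omega

theorem adj_iff (i j : Fin 69) :
    (unitDistance oct).Adj (pt i) (pt j) ↔ unitZ (px i - px j) (py i - py j) = true := by
  have key : ∀ i j : Fin 69, gauge oct (pt i - pt j) = 1 ↔
      unitZ (px i - px j) (py i - py j) = true := by
    intro i j
    rw [gauge_oct, ← N_eq_one]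
    have : pt i - pt j = (((px i - px j : ℤ) : ℝ), ((py i - py j : ℤ) : ℝ)) := by
      unfold pt; push_cast; rfl
    rw [this]
  unfold unitDistance
  rw [SimpleGraph.fromRel_adj, key, key]
  have hsymm : ∀ i j : Fin 69, unitZ (px i - px j) (py i - py j) =
      unitZ (px j - px i) (py j - py i) := by decide +kernel
  have hne : ∀ i : Fin 69, unitZ (px i - px i) (py i - py i) ≠ true := by decide +kernel
  constructor
  · rintro ⟨_, h | h⟩
    · exact h
    · rw [hsymm]; exact h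
  · intro h
    refine ⟨?_, Or.inl h⟩
    intro hpt
    rw [pt_inj hpt] at h
    exact hne _ h

end Q133.Octagon
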