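import Mathlib

/-!
# Products of unimodular sequences along progressions, and a Bessel inequality
-/

set_option autoImplicit false

namespace Pool.Agent.Q133.OK

open Finset

/-- a Bessel inequality for almost orthogonal families -/
theorem boas {ι : Type*} (I : Finset ι) (N : ℕ) (v : ι → ℕ → ℂ) (R : ℝ) (hR : 0 ≤ R)
    (hG : ∀ i ∈ I, ∑ j ∈ I, ‖∑ n ∈ Icc 1 N, starRingEnd ℂ (v i n) * v j n‖ ≤ R)
    (g : ℕ → ℂ) (hg : ∀ n, ‖g n‖ ≤ 1) :
    ∑ i ∈ I, ‖∑ n ∈ Icc 1 N, g n * v i n‖ ^ 2 ≤ R * N := by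
  classical
  set T : ι → ℂ := fun i => ∑ n ∈ Icc 1 N, g n * v i n with hT
  set S : ℝ := ∑ i ∈ I, ‖T i‖ ^ 2 with hS
  have hS0 : 0 ≤ S := sum_nonneg fun i _ => by positivity
  set w : ℕ → ℂ := fun n => ∑ i ∈ I, starRingEnd ℂ (T i) * v i n with hw
  have h1 : (S : ℂ) = ∑ n ∈ Icc 1 N, g n * w n := by
    rw [hS]
    push_cast
    have : ∀ n, g n * w n = ∑ i ∈ I, starRingEnd ℂ (T i) * (g n * v i n) := by
      intro n
      rw [hw]
      simp only [mul_sum]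
      exact sum_congr rfl fun i _ => by ring
    rw [sum_congr rfl fun n _ => this n, sum_comm]
    refine sum_congr rfl fun i _ => ?_
    rw [← mul_sum]
    show _ = starRingEnd ℂ (T i) * T i
    rw [Complex.conj_mul']
  have h2 : S ≤ ∑ n ∈ Icc 1 N, ‖w n‖ := by
    have h3 : ‖(S : ℂ)‖ ≤ ∑ n ∈ Icc 1 N, ‖w n‖ := by
      rw [h1]
      refine (norm_sum_le _ _).trans (sum_le_sum fun n _ => ?_)
      rw [norm_mul]
      exact mul_le_of_le_one_left (norm_nonneg _) (hg n)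
    rwa [Complex.norm_real, Real.norm_of_nonneg hS0] at h3
  have h3 : (∑ n ∈ Icc 1 N, ‖w n‖) ^ 2 ≤ N * ∑ n ∈ Icc 1 N, ‖w n‖ ^ 2 := by
    have := sq_sum_le_card_mul_sum_sq (s := Icc 1 N) (f := fun n => ‖w n‖)
    simpa using this
  have hsym : ∀ i j, ‖∑ n ∈ Icc 1 N, starRingEnd ℂ (v i n) * v j n‖ =
      ‖∑ n ∈ Icc 1 N, starRingEnd ℂ (v j n) * v i n‖ := by
    intro i j
    rw [← Complex.norm_conj, map_sum]
    congr 1
    refine sum_congr rfl fun n _ => ?_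
    rw [map_mul, Complex.conj_conj]
    ring
  have h4 : ∑ n ∈ Icc 1 N, ‖w n‖ ^ 2 ≤ R * S := by
    have e1 : ((∑ n ∈ Icc 1 N, ‖w n‖ ^ 2 : ℝ) : ℂ) = ∑ i ∈ I, ∑ j ∈ I, T i * starRingEnd ℂ (T j) *
        ∑ n ∈ Icc 1 N, starRingEnd ℂ (v i n) * v j n := by
      push_cast
      have : ∀ n, (‖w n‖ : ℂ) ^ 2 = ∑ i ∈ I, ∑ j ∈ I, T i * starRingEnd ℂ (T j) *
          (starRingEnd ℂ (v i n) * v j n) := by
        intro n
        rw [← Complex.conj_mul', hw]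
        simp only [map_sum, map_mul, Complex.conj_conj]
        rw [sum_mul_sum]
        exact sum_congr rfl fun i _ => sum_congr rfl fun j _ => by ring
      rw [sum_congr rfl fun n _ => this n, sum_comm]
      refine sum_congr rfl fun i _ => ?_
      rw [sum_comm]
      refine sum_congr rfl fun j _ => ?_
      rw [mul_sum]
    have e2 : ∑ n ∈ Icc 1 N, ‖w n‖ ^ 2 ≤ ∑ i ∈ I, ∑ j ∈ I, ‖T i‖ * ‖T j‖ *
        ‖∑ n ∈ Icc 1 N, starRingEnd ℂ (v i n) * v j n‖ := by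
      have h5 : ‖((∑ n ∈ Icc 1 N, ‖w n‖ ^ 2 : ℝ) : ℂ)‖ ≤ ∑ i ∈ I, ∑ j ∈ I, ‖T i‖ * ‖T j‖ *
          ‖∑ n ∈ Icc 1 N, starRingEnd ℂ (v i n) * v j n‖ := by
        rw [e1]
        refine (norm_sum_le _ _).trans (sum_le_sum fun i _ => (norm_sum_le _ _).trans
          (sum_le_sum fun j _ => ?_))
        rw [norm_mul, norm_mul, Complex.norm_conj]
      rwa [Complex.norm_real, Real.norm_of_nonneg (sum_nonneg fun n _ => by positivity)] at h5
    refine e2.trans ?_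
    have e3 : ∀ i ∈ I, ∀ j ∈ I, ‖T i‖ * ‖T j‖ * ‖∑ n ∈ Icc 1 N, starRingEnd ℂ (v i n) * v j n‖ ≤
        ‖T i‖ ^ 2 / 2 * ‖∑ n ∈ Icc 1 N, starRingEnd ℂ (v i n) * v j n‖ +
        ‖T j‖ ^ 2 / 2 * ‖∑ n ∈ Icc 1 N, starRingEnd ℂ (v j n) * v i n‖ := by
      intro i _ j _
      rw [hsym j i]
      have : ‖T i‖ * ‖T j‖ ≤ ‖T i‖ ^ 2 / 2 + ‖T j‖ ^ 2 / 2 := by nlinarith [sq_nonneg (‖T i‖ - ‖T j‖)]
      nlinarith [mul_le_mul_of_nonneg_right this (norm_nonneg (∑ n ∈ Icc 1 N, starRingEnd ℂ (v i n) * v j n))]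
    refine (sum_le_sum fun i hi => sum_le_sum fun j hj => e3 i hi j hj).trans ?_
    simp only [sum_add_distrib]
    rw [sum_comm (f := fun i j => ‖T j‖ ^ 2 / 2 * ‖∑ n ∈ Icc 1 N, starRingEnd ℂ (v j n) * v i n‖)]
    have e4 : ∑ i ∈ I, ∑ j ∈ I, ‖T i‖ ^ 2 / 2 * ‖∑ n ∈ Icc 1 N, starRingEnd ℂ (v i n) * v j n‖ ≤
        R * S / 2 := by
      rw [hS, mul_sum, sum_div]
      refine sum_le_sum fun i hi => ?_
      rw [← mul_sum]
      nlinarith [mul_le_mul_of_nonneg_left (hG i hi) (show 0 ≤ ‖T i‖ ^ 2 / 2 by positivity)]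
    linarith
  have h5 : S ^ 2 ≤ N * (R * S) := by
    have a1 : S ^ 2 ≤ (∑ n ∈ Icc 1 N, ‖w n‖) ^ 2 := by
      apply pow_le_pow_left₀ hS0 h2
    have a2 := mul_le_mul_of_nonneg_left h4 (Nat.cast_nonneg (α := ℝ) N)
    linarith
  rcases eq_or_lt_of_le hS0 with h6 | h6
  · show S ≤ R * N
    rw [← h6]
    positivity
  · show S ≤ R * N
    by_contra hc
    push Not at hc
    nlinarith

/-- the product of `f` at `n, n + d, ..., n + d (k - 1)` -/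
noncomputable def P (f : ℕ → ℂ) (d k n : ℕ) : ℂ := ∏ i ∈ range k, f (n + d * i)

lemma P_succ (f : ℕ → ℂ) (d k n : ℕ) : P f d (k + 1) n = P f d k n * f (n + d * k) := by
  unfold P
  rw [prod_range_succ]

lemma P_succ' (f : ℕ → ℂ) (d k n : ℕ) : P f d (k + 1) n = f n * P f d k (n + d) := by
  unfold P
  rw [prod_range_succ', mul_comm]
  congr 1
  refine prod_congr rfl fun i _ => ?_
  congr 1
  ring

lemma P_norm {f : ℕ → ℂ} (hf : ∀ n, ‖f n‖ = 1) (d k n : ℕ) : ‖P f d k n‖ = 1 := by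
  unfold P
  rw [norm_prod]
  exact prod_eq_one fun i _ => hf _

lemma conj_self {z : ℂ} (hz : ‖z‖ = 1) : starRingEnd ℂ z * z = 1 := by
  rw [Complex.conj_mul', hz]
  simp

/-- consecutive products -/
lemma P_next {f : ℕ → ℂ} (hf : ∀ n, ‖f n‖ = 1) (d k n : ℕ) :
    starRingEnd ℂ (P f d k n) * P f d k (n + d) = starRingEnd ℂ (f n) * f (n + d * k) := by
  have h1 := P_succ f d k n
  have h2 := P_succ' f d k n
  have h3 := conj_self (P_norm hf d k n)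
  have h4 := conj_self (hf n)
  have h5 : P f d k n * f (n + d * k) = f n * P f d k (n + d) := by rw [← h1, h2]
  calc starRingEnd ℂ (P f d k n) * P f d k (n + d)
      = (starRingEnd ℂ (f n) * f n) * (starRingEnd ℂ (P f d k n) * P f d k (n + d)) := by rw [h4, one_mul]
    _ = starRingEnd ℂ (f n) * starRingEnd ℂ (P f d k n) * (f n * P f d k (n + d)) := by ring
    _ = (starRingEnd ℂ (P f d k n) * P f d k n) * (starRingEnd ℂ (f n) * f (n + d * k)) := by rw [← h5]; ring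
    _ = _ := by rw [h3, one_mul]

lemma sum_shift {F : ℕ → ℂ} (hF : ∀ n, ‖F n‖ ≤ 1) (N a : ℕ) :
    ‖∑ n ∈ Icc 1 N, F (n + a) - ∑ n ∈ Icc 1 N, F n‖ ≤ 2 * a := by
  induction a with
  | zero => simp
  | succ a ih =>
    have h1 : ∑ n ∈ Icc 1 N, F (n + (a + 1)) - ∑ n ∈ Icc 1 N, F (n + a) = F (N + 1 + a) - F (1 + a) := by
      rw [← sum_sub_distrib]
      clear ih
      induction N with
      | zero => simp
      | succ N ih =>
        rw [sum_Icc_succ_top (by omega), ih, show N + 1 + (a + 1) = N + 1 + 1 + a by ring]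
        ring
    have h2 : ‖∑ n ∈ Icc 1 N, F (n + (a + 1)) - ∑ n ∈ Icc 1 N, F (n + a)‖ ≤ 2 := by
      rw [h1]
      refine (norm_sub_le _ _).trans ?_
      linarith [hF (N + 1 + a), hF (1 + a)]
    have h3 := norm_add_le (∑ n ∈ Icc 1 N, F (n + (a + 1)) - ∑ n ∈ Icc 1 N, F (n + a))
      (∑ n ∈ Icc 1 N, F (n + a) - ∑ n ∈ Icc 1 N, F n)
    rw [sub_add_sub_cancel] at h3
    push_cast
    linarith

lemma norm_sum_le_N {F : ℕ → ℂ} (hF : ∀ n, ‖F n‖ ≤ 1) (N : ℕ) : ‖∑ n ∈ Icc 1 N, F n‖ ≤ N := by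
  refine (norm_sum_le _ _).trans ((sum_le_sum fun n _ => hF n).trans ?_)
  simp

/-- the square of the sum of a unimodular sequence, from its correlation with a shift -/
lemma two_shift {v : ℕ → ℂ} (hv : ∀ n, ‖v n‖ = 1) (N d : ℕ) (ρ : ℝ)
    (h : (∑ n ∈ Icc 1 N, starRingEnd ℂ (v n) * v (n + d)).re ≤ ρ) :
    ‖∑ n ∈ Icc 1 N, v n‖ ^ 2 ≤ N * (N + ρ) / 2 + 2 * d * N := by
  set S := ∑ n ∈ Icc 1 N, v n with hS
  set S' := ∑ n ∈ Icc 1 N, v (n + d) with hS'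
  have h1 : ‖S' - S‖ ≤ 2 * d := sum_shift (fun n => (hv n).le) N d
  have h2 : ‖S + S'‖ ^ 2 ≤ N * (2 * N + 2 * ρ) := by
    have a1 : S + S' = ∑ n ∈ Icc 1 N, (v n + v (n + d)) := by rw [sum_add_distrib]
    have a2 : ‖S + S'‖ ≤ ∑ n ∈ Icc 1 N, ‖v n + v (n + d)‖ := by
      rw [a1]
      exact norm_sum_le _ _
    have a3 : (∑ n ∈ Icc 1 N, ‖v n + v (n + d)‖) ^ 2 ≤ N * ∑ n ∈ Icc 1 N, ‖v n + v (n + d)‖ ^ 2 := by
      have := sq_sum_le_card_mul_sum_sq (s := Icc 1 N) (f := fun n => ‖v n + v (n + d)‖)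
      simpa using this
    have a4 : ∀ n, ‖v n + v (n + d)‖ ^ 2 = 2 + 2 * (starRingEnd ℂ (v n) * v (n + d)).re := by
      intro n
      have b1 := Complex.normSq_add (v n) (v (n + d))
      have b3 : Complex.normSq (v n) = 1 := by rw [← Complex.sq_norm, hv]; norm_num
      have b4 : Complex.normSq (v (n + d)) = 1 := by rw [← Complex.sq_norm, hv]; norm_num
      rw [Complex.sq_norm, b1, b3, b4]
      have b2 : (v n * starRingEnd ℂ (v (n + d))).re = (starRingEnd ℂ (v n) * v (n + d)).re := by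
        rw [← Complex.conj_re (v n * starRingEnd ℂ (v (n + d))), map_mul, Complex.conj_conj]
      rw [b2]
      ring
    have a5 : ∑ n ∈ Icc 1 N, ‖v n + v (n + d)‖ ^ 2 =
        2 * N + 2 * (∑ n ∈ Icc 1 N, starRingEnd ℂ (v n) * v (n + d)).re := by
      rw [sum_congr rfl fun n _ => a4 n, sum_add_distrib, ← mul_sum, Complex.re_sum]
      simp
      ring
    have a6 : ‖S + S'‖ ^ 2 ≤ (∑ n ∈ Icc 1 N, ‖v n + v (n + d)‖) ^ 2 :=
      pow_le_pow_left₀ (norm_nonneg _) a2 2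
    have a7 : (N : ℝ) * ∑ n ∈ Icc 1 N, ‖v n + v (n + d)‖ ^ 2 ≤ N * (2 * N + 2 * ρ) := by
      rw [a5]
      apply mul_le_mul_of_nonneg_left _ (Nat.cast_nonneg N)
      linarith
    linarith
  have h3 : ‖S‖ ≤ N := norm_sum_le_N (fun n => (hv n).le) N
  have h4 : 2 * ‖S‖ ≤ ‖S + S'‖ + 2 * d := by
    have : (2 : ℂ) * S = (S + S') - (S' - S) := by ring
    have h5 : ‖(2 : ℂ) * S‖ ≤ ‖S + S'‖ + ‖S' - S‖ := by
      rw [this]
      exact norm_sub_le _ _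
    rw [norm_mul] at h5
    norm_num at h5
    linarith
  have h5 : 0 ≤ ‖S + S'‖ := norm_nonneg _
  have hd : (0 : ℝ) ≤ d := Nat.cast_nonneg d
  have hSn : 0 ≤ ‖S‖ := norm_nonneg _
  -- (2‖S‖ - 2d) ≤ ‖S+S'‖
  by_cases hc : ‖S‖ ≤ d
  · -- small case
    have h6 : ‖S‖ ^ 2 ≤ d * N := by nlinarith
    have h7 : 0 ≤ (N : ℝ) * (N + ρ) / 2 := by
      have := sq_nonneg ‖S + S'‖
      nlinarith
    have h8 : 0 ≤ (d : ℝ) * N := by positivity
    nlinarith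
  · push Not at hc
    have h6 : (2 * ‖S‖ - 2 * d) ^ 2 ≤ ‖S + S'‖ ^ 2 := by
      apply pow_le_pow_left₀ (by linarith) (by linarith)
    nlinarith

end Pool.Agent.Q133.OK
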