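import Pool.Agent.Q133.OmK

/-!
# Sums of functions of `Ω` with values in a finite abelian group
-/

set_option autoImplicit false

namespace Pool.Agent.Q133.OK

open Finset
open ArithmeticFunction (cardFactors)
open Pool.Agent.Y958.U (LZ)
open Pool.Agent.Y842.QY (mB)

/-- indicator function -/
noncomputable def ind {G : Type} [DecidableEq G] (φ : ℕ → G) (g : G) (l : ℕ) : ℂ := if φ l = g then 1 else 0

lemma ind_le {G : Type} [DecidableEq G] (φ : ℕ → G) (g : G) (l : ℕ) : ‖ind φ g l‖ ≤ 1 := by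
  unfold ind
  split_ifs <;> simp

/-- the proportion of the `n ≤ N` with `φ (Ω n) = g` -/
noncomputable def pg {G : Type} [DecidableEq G] (φ : ℕ → G) (N : ℕ) (g : G) : ℝ :=
  (((Icc 1 N).filter (fun n => φ (cardFactors n) = g)).card : ℝ) / N

lemma mB_ind {G : Type} [DecidableEq G] (φ : ℕ → G) (g : G) (N : ℕ) : mB (ind φ g) N = (pg φ N g : ℂ) := by
  unfold mB pg ind
  rw [sum_boole]
  push_cast
  rfl

/-- two values at two points -/
lemma pair_cnt {G : Type} [DecidableEq G] (φ : ℕ → G) {E : Set ℕ} (g g' : G) (hE : CP (ind φ g) (ind φ g') E)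
    (a c : ℕ) (hac : a ≠ c) (ε : ℝ) (hε : 0 < ε) : ∃ N₀ : ℕ, ∀ N : ℕ, N₀ ≤ N → N ∉ E →
      |(((Icc 1 N).filter (fun n => φ (cardFactors (n + c)) = g ∧ φ (cardFactors (n + a)) = g')).card : ℝ) -
        N * (pg φ N g * pg φ N g')| ≤ ε * N := by
  obtain ⟨N₀, h⟩ := hE a c hac ε hε
  refine ⟨N₀, fun N hN hNE => ?_⟩
  have h1 := h N hN hNE
  rw [mB_ind, mB_ind] at h1
  have h2 : ∑ n ∈ Icc 1 N, ind φ g (cardFactors (n + c)) * ind φ g' (cardFactors (n + a)) =
      ((((Icc 1 N).filter (fun n => φ (cardFactors (n + c)) = g ∧ φ (cardFactors (n + a)) = g')).card : ℝ) : ℂ) := by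
    rw [card_filter]
    push_cast
    refine sum_congr rfl fun n _ => ?_
    unfold ind
    by_cases h3 : φ (cardFactors (n + c)) = g <;> by_cases h4 : φ (cardFactors (n + a)) = g' <;> simp [h3, h4]
  rw [h2] at h1
  have h3 : ((((Icc 1 N).filter (fun n => φ (cardFactors (n + c)) = g ∧ φ (cardFactors (n + a)) = g')).card : ℝ) : ℂ) -
      N * ((pg φ N g : ℂ) * (pg φ N g' : ℂ)) =
      (((((Icc 1 N).filter (fun n => φ (cardFactors (n + c)) = g ∧ φ (cardFactors (n + a)) = g')).card : ℝ) -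
        N * (pg φ N g * pg φ N g') : ℝ) : ℂ) := by
    push_cast
    ring
  rw [h3, Complex.norm_real] at h1
  exact h1

/-- one exceptional set for all the values of a function to a finite type -/
theorem pair_E' {G : Type} [Fintype G] [DecidableEq G] (φ : ℕ → G) :
    ∃ E : Set ℕ, LZ E ∧ ∀ g : G, CP (ind φ g) (ind φ g) E := by
  obtain ⟨ι, hι⟩ : ∃ e : Encodable G, True := ⟨Fintype.toEncodable G, trivial⟩
  obtain ⟨E, hE, h⟩ := pair_fam (fun g : G => ind φ g) (fun g l => ind_le φ g l)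
  exact ⟨E, hE, fun g => h g g⟩

lemma card_shift (N a : ℕ) (p : ℕ → Prop) [DecidablePred p] :
    ((Icc 1 N).filter p).card ≤ ((Icc 1 N).filter (fun n => p (n + a))).card + a := by
  have h1 : (Icc 1 N).filter p ⊆ (((Icc 1 N).filter (fun n => p (n + a))).image (fun n => n + a)) ∪ Icc 1 a := by
    intro n hn
    rw [mem_filter, mem_Icc] at hn
    rw [mem_union, mem_image, mem_Icc]
    by_cases h : n ≤ a
    · exact Or.inr ⟨hn.1.1, h⟩
    · left
      refine ⟨n - a, ?_, by omega⟩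
      rw [mem_filter, mem_Icc]
      refine ⟨by omega, ?_⟩
      rw [show n - a + a = n by omega]
      exact hn.2
  refine (card_le_card h1).trans ((card_union_le _ _).trans ?_)
  have h2 : (((Icc 1 N).filter (fun n => p (n + a))).image (fun n => n + a)).card ≤
      ((Icc 1 N).filter (fun n => p (n + a))).card := card_image_le
  rw [Nat.card_Icc]
  omega

/-- the values of the sum of `k` terms -/
theorem part5 {G : Type} [AddCommGroup G] [Fintype G] [DecidableEq G] (φ : ℕ → G) {E : Set ℕ}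
    (hE : ∀ g, CP (ind φ g) (ind φ g) E) (k d : ℕ) (hk : 1 ≤ k) (hd : 1 ≤ d) (ε : ℝ) (hε : 0 < ε) :
    ∃ N₀ : ℕ, ∀ N : ℕ, N₀ ≤ N → N ∉ E → ∀ w : G,
      (((Icc 1 N).filter (fun n => ∑ i ∈ range k, φ (cardFactors (n + d * i)) = w)).card : ℝ) ≤
        ((1 + ∑ g, pg φ N g ^ 2) / 2 + ε) * N := by
  have hdk : d * k ≠ 0 := by positivity
  have hδ : 0 < ε / (Fintype.card G + 1 : ℝ) := by positivity
  choose N₀ h using fun g => pair_cnt φ g g (hE g) (d * k) 0 hdk (ε / (Fintype.card G + 1 : ℝ)) hδ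
  obtain ⟨M, hM⟩ := exists_nat_gt ((d : ℝ) / ε)
  refine ⟨∑ g, N₀ g + M, fun N hN hNE w => ?_⟩
  have hN0 : (0 : ℝ) ≤ N := Nat.cast_nonneg N
  set W : ℕ → G := fun n => ∑ i ∈ range k, φ (cardFactors (n + d * i)) with hW
  set A := (Icc 1 N).filter (fun n => W n = w) with hA
  set A' := (Icc 1 N).filter (fun n => W (n + d) = w) with hA'
  have h1 : (A.card : ℝ) ≤ A'.card + d := by exact_mod_cast card_shift N d (fun n => W n = w)
  have h2 : (A.card : ℝ) + A'.card ≤ N + (A ∩ A').card := by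
    have a1 := card_union_add_card_inter A A'
    have a2 : (A ∪ A').card ≤ N := by
      have : A ∪ A' ⊆ Icc 1 N := union_subset (filter_subset _ _) (filter_subset _ _)
      refine (card_le_card this).trans ?_
      simp
    have a3 : ((A ∪ A').card : ℝ) + (A ∩ A').card = A.card + A'.card := by exact_mod_cast a1
    have a4 : ((A ∪ A').card : ℝ) ≤ N := by exact_mod_cast a2
    linarith
  have hWd : ∀ n, W (n + d) + φ (cardFactors n) = W n + φ (cardFactors (n + d * k)) := by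
    intro n
    rw [hW]
    have b1 := sum_range_succ (fun i => φ (cardFactors (n + d * i))) k
    have b2 := sum_range_succ' (fun i => φ (cardFactors (n + d * i))) k
    rw [b1] at b2
    have b3 : ∀ i ∈ range k, φ (cardFactors (n + d * (i + 1))) = φ (cardFactors (n + d + d * i)) := by
      intro i _
      congr 2
      ring
    rw [sum_congr rfl b3] at b2
    simp only [mul_zero, add_zero] at b2
    exact b2.symm
  have h3 : (A ∩ A').card ≤ ∑ g : G, ((Icc 1 N).filter (fun n => φ (cardFactors (n + 0)) = g ∧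
      φ (cardFactors (n + d * k)) = g)).card := by
    have a1 : A ∩ A' ⊆ (univ : Finset G).biUnion (fun g => (Icc 1 N).filter (fun n =>
        φ (cardFactors (n + 0)) = g ∧ φ (cardFactors (n + d * k)) = g)) := by
      intro n hn
      rw [hA, hA', mem_inter, mem_filter, mem_filter] at hn
      rw [mem_biUnion]
      refine ⟨φ (cardFactors n), mem_univ _, ?_⟩
      rw [mem_filter]
      refine ⟨hn.1.1, rfl, ?_⟩
      have a2 := hWd n
      rw [hn.1.2, hn.2.2] at a2
      exact (add_left_cancel a2).symm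
    exact (card_le_card a1).trans card_biUnion_le
  have h4 : ((A ∩ A').card : ℝ) ≤ N * ∑ g, pg φ N g ^ 2 + ε * N := by
    have a0 : ((A ∩ A').card : ℝ) ≤ ∑ g : G, (((Icc 1 N).filter (fun n => φ (cardFactors (n + 0)) = g ∧
      φ (cardFactors (n + d * k)) = g)).card : ℝ) := by exact_mod_cast h3
    refine a0.trans ?_
    have a1 : ∀ g ∈ (univ : Finset G), (((Icc 1 N).filter (fun n => φ (cardFactors (n + 0)) = g ∧
        φ (cardFactors (n + d * k)) = g)).card : ℝ) ≤ N * pg φ N g ^ 2 + ε / (Fintype.card G + 1 : ℝ) * N := by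
      intro g _
      have hle : N₀ g ≤ ∑ g, N₀ g := single_le_sum (f := N₀) (fun _ _ => Nat.zero_le _) (mem_univ g)
      have a2 := (abs_le.1 (h g N (by omega) hNE)).2
      have a3 : (N : ℝ) * (pg φ N g * pg φ N g) = N * pg φ N g ^ 2 := by ring
      linarith
    refine (sum_le_sum a1).trans ?_
    rw [sum_add_distrib, ← mul_sum, sum_const, nsmul_eq_mul, card_univ]
    have a4 : (Fintype.card G : ℝ) * (ε / (Fintype.card G + 1 : ℝ) * N) ≤ ε * N := by
      have : (Fintype.card G : ℝ) * (ε / (Fintype.card G + 1 : ℝ)) ≤ ε := by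
        rw [mul_div_assoc', div_le_iff₀ (by positivity)]
        nlinarith
      nlinarith
    linarith
  have h5 : (M : ℝ) ≤ N := by exact_mod_cast (by omega : M ≤ N)
  rw [div_lt_iff₀ hε] at hM
  have h6 : (d : ℝ) ≤ ε * N := by nlinarith
  show (A.card : ℝ) ≤ _
  nlinarith


open Classical in
/-- the indicator of a set, with values in `ZMod 2` -/
noncomputable def chi (S : Set ℕ) (l : ℕ) : ZMod 2 := if l ∈ S then 1 else 0

lemma zmod2 (x : ZMod 2) : x = 0 ∨ x = 1 := by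
  fin_cases x
  · exact Or.inl rfl
  · exact Or.inr rfl

lemma sign_id (x y z : ZMod 2) : (if x + y + z = 0 then (1 : ℝ) else -1) =
    1 - 2 * ((if x = 1 then 1 else 0) + (if y = 1 then 1 else 0) + (if z = 1 then 1 else 0)) +
    4 * ((if x = 1 ∧ y = 1 then 1 else 0) + (if y = 1 ∧ z = 1 then 1 else 0) + (if x = 1 ∧ z = 1 then 1 else 0)) -
    8 * (if x = 1 ∧ y = 1 ∧ z = 1 then 1 else 0) := by
  have h01 : (0 : ZMod 2) ≠ 1 := by decide
  have h11 : (1 : ZMod 2) + 1 = 0 := by decide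
  rcases zmod2 x with rfl | rfl <;> rcases zmod2 y with rfl | rfl <;> rcases zmod2 z with rfl | rfl <;>
    simp [h01, h11] <;> norm_num

/-- three points in a progression -/
theorem part6 (S : Set ℕ) {E : Set ℕ} (hE : ∀ g, CP (ind (chi S) g) (ind (chi S) g) E) (d : ℕ) (hd : 1 ≤ d)
    (ε : ℝ) (hε : 0 < ε) :
    ∃ N₀ : ℕ, ∀ N : ℕ, N₀ ≤ N → N ∉ E →
      |(((Icc 1 N).filter (fun n => chi S (cardFactors n) = 1 ∧ chi S (cardFactors (n + d)) = 1 ∧
        chi S (cardFactors (n + 2 * d)) = 1)).card : ℝ) / N - pg (chi S) N 1 ^ 3| ≤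
        (pg (chi S) N 1 ^ 2 + (1 - pg (chi S) N 1) ^ 2 + |1 - 2 * pg (chi S) N 1| ^ 3) / 8 + ε := by
  obtain ⟨N₁, h1⟩ := part5 (chi S) hE 3 d (by norm_num) hd (ε / 4) (by positivity)
  obtain ⟨N₂, h2⟩ := pair_cnt (chi S) 1 1 (hE 1) d 0 (by omega) (ε / 8) (by positivity)
  obtain ⟨N₃, h3⟩ := pair_cnt (chi S) 1 1 (hE 1) (2 * d) d (by omega) (ε / 8) (by positivity)
  obtain ⟨N₄, h4⟩ := pair_cnt (chi S) 1 1 (hE 1) (2 * d) 0 (by omega) (ε / 8) (by positivity)
  obtain ⟨M, hM⟩ := exists_nat_gt (12 * (d : ℝ) / ε)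
  refine ⟨N₁ + N₂ + N₃ + N₄ + M + 1, fun N hN hNE => ?_⟩
  replace h1 := h1 N (by omega) hNE
  replace h2 := h2 N (by omega) hNE
  replace h3 := h3 N (by omega) hNE
  replace h4 := h4 N (by omega) hNE
  have hN0 : (0 : ℝ) < N := by exact_mod_cast (by omega : 0 < N)
  have hMN : (M : ℝ) ≤ N := by exact_mod_cast (by omega : M ≤ N)
  rw [div_lt_iff₀ hε] at hM
  set p := pg (chi S) N 1 with hp
  set q : ℕ → ZMod 2 := fun n => chi S (cardFactors n) with hq
  have hpN : p * N = (((Icc 1 N).filter (fun n => q n = 1)).card : ℝ) := by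
    rw [hp]
    unfold pg
    rw [div_mul_cancel₀ _ hN0.ne']
  have hp0 : pg (chi S) N 0 = 1 - p := by
    have a1 : ((Icc 1 N).filter (fun n => q n = 0)).card + ((Icc 1 N).filter (fun n => q n = 1)).card = N := by
      have b1 := card_filter_add_card_filter_not (s := Icc 1 N) (fun n => q n = 0)
      have b2 : (Icc 1 N).filter (fun n => ¬ q n = 0) = (Icc 1 N).filter (fun n => q n = 1) := by
        apply filter_congr
        intro n _
        rcases zmod2 (q n) with h | h <;> rw [h] <;> decide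
      rw [b2] at b1
      simpa using b1
    have a2 : (((Icc 1 N).filter (fun n => q n = 0)).card : ℝ) + ((Icc 1 N).filter (fun n => q n = 1)).card = N := by
      exact_mod_cast a1
    have a3 : pg (chi S) N 0 = (((Icc 1 N).filter (fun n => q n = 0)).card : ℝ) / N := rfl
    rw [a3, div_eq_iff hN0.ne']
    linarith
  have hκ : ∑ g : ZMod 2, pg (chi S) N g ^ 2 = p ^ 2 + (1 - p) ^ 2 := by
    have : ∑ g : ZMod 2, pg (chi S) N g ^ 2 = pg (chi S) N 0 ^ 2 + pg (chi S) N 1 ^ 2 :=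
      Fin.sum_univ_two (fun g : Fin 2 => pg (chi S) N (g : ZMod 2) ^ 2)
    rw [this, hp0]
    ring
  rw [hκ] at h1
  set κ := p ^ 2 + (1 - p) ^ 2 with hκd
  have hW : ∀ n, ∑ i ∈ range 3, chi S (cardFactors (n + d * i)) = q (n + 0) + q (n + d) + q (n + 2 * d) := by
    intro n
    rw [sum_range_succ, sum_range_succ, sum_range_one]
    simp only [hq, mul_zero, mul_one, mul_comm d 2]
  set Wt : ℕ → ZMod 2 := fun n => q (n + 0) + q (n + d) + q (n + 2 * d) with hWt
  have e0 := h1 0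
  have e1 := h1 1
  simp only [hW] at e0 e1
  -- signs
  have hsum : (((Icc 1 N).filter (fun n => Wt n = 0)).card : ℝ) + ((Icc 1 N).filter (fun n => Wt n = 1)).card = N := by
    have b1 := card_filter_add_card_filter_not (s := Icc 1 N) (fun n => Wt n = 0)
    have b2 : (Icc 1 N).filter (fun n => ¬ Wt n = 0) = (Icc 1 N).filter (fun n => Wt n = 1) := by
      apply filter_congr
      intro n _
      rcases zmod2 (Wt n) with h | h <;> rw [h] <;> decide
    rw [b2] at b1
    have b3 : ((Icc 1 N).filter (fun n => Wt n = 0)).card + ((Icc 1 N).filter (fun n => Wt n = 1)).card = N := by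
      simpa using b1
    exact_mod_cast b3
  have hθ : ∑ n ∈ Icc 1 N, (if Wt n = 0 then (1 : ℝ) else -1) =
      (((Icc 1 N).filter (fun n => Wt n = 0)).card : ℝ) - ((Icc 1 N).filter (fun n => Wt n = 1)).card := by
    have c1 : ∀ n, (if Wt n = 0 then (1 : ℝ) else -1) = (if Wt n = 0 then (1 : ℝ) else 0) - (if Wt n = 1 then 1 else 0) := by
      intro n
      rcases zmod2 (Wt n) with h | h <;> rw [h] <;> simp
    rw [sum_congr rfl fun n _ => c1 n, sum_sub_distrib, sum_boole, sum_boole]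
  have hexp : ∑ n ∈ Icc 1 N, (if Wt n = 0 then (1 : ℝ) else -1) =
      N - 2 * ((((Icc 1 N).filter (fun n => q (n + 0) = 1)).card : ℝ) + ((Icc 1 N).filter (fun n => q (n + d) = 1)).card +
        ((Icc 1 N).filter (fun n => q (n + 2 * d) = 1)).card) +
      4 * ((((Icc 1 N).filter (fun n => q (n + 0) = 1 ∧ q (n + d) = 1)).card : ℝ) +
        ((Icc 1 N).filter (fun n => q (n + d) = 1 ∧ q (n + 2 * d) = 1)).card +
        ((Icc 1 N).filter (fun n => q (n + 0) = 1 ∧ q (n + 2 * d) = 1)).card) -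
      8 * ((Icc 1 N).filter (fun n => q (n + 0) = 1 ∧ q (n + d) = 1 ∧ q (n + 2 * d) = 1)).card := by
    rw [sum_congr rfl fun n _ => sign_id (q (n + 0)) (q (n + d)) (q (n + 2 * d))]
    rw [sum_sub_distrib, sum_add_distrib, sum_sub_distrib, ← mul_sum, ← mul_sum, ← mul_sum]
    simp only [sum_add_distrib, sum_boole, sum_const, Nat.card_Icc, Nat.add_sub_cancel, nsmul_eq_mul, mul_one]
  -- one point
  have o : ∀ a : ℕ, |(((Icc 1 N).filter (fun n => q (n + a) = 1)).card : ℝ) - p * N| ≤ 2 * a := by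
    intro a
    have a1 := one_pt (ind_le (chi S) (1 : ZMod 2)) a N
    rw [mB_ind] at a1
    have a2 : ∑ n ∈ Icc 1 N, ind (chi S) (1 : ZMod 2) (cardFactors (n + a)) =
        ((((Icc 1 N).filter (fun n => q (n + a) = 1)).card : ℝ) : ℂ) := by
      unfold ind
      rw [sum_boole]
      push_cast
      rfl
    rw [a2] at a1
    have a3 : ((((Icc 1 N).filter (fun n => q (n + a) = 1)).card : ℝ) : ℂ) - N * ((pg (chi S) N 1 : ℝ) : ℂ) =
        (((((Icc 1 N).filter (fun n => q (n + a) = 1)).card : ℝ) - p * N : ℝ) : ℂ) := by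
      push_cast
      ring
    rw [a3, Complex.norm_real] at a1
    exact a1
  have o0 := abs_le.1 (o 0)
  have o1 := abs_le.1 (o d)
  have o2 := abs_le.1 (o (2 * d))
  push_cast at o0 o1 o2
  replace h2 := abs_le.1 h2
  replace h3 := abs_le.1 h3
  replace h4 := abs_le.1 h4
  have hT : (Icc 1 N).filter (fun n => chi S (cardFactors n) = 1 ∧ chi S (cardFactors (n + d)) = 1 ∧
        chi S (cardFactors (n + 2 * d)) = 1) =
      (Icc 1 N).filter (fun n => q (n + 0) = 1 ∧ q (n + d) = 1 ∧ q (n + 2 * d) = 1) := rfl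
  rw [hT]
  set T := (((Icc 1 N).filter (fun n => q (n + 0) = 1 ∧ q (n + d) = 1 ∧ q (n + 2 * d) = 1)).card : ℝ) with hTd
  rw [hθ] at hexp
  set X0 := (((Icc 1 N).filter (fun n => Wt n = 0)).card : ℝ) with hX0
  set X1 := (((Icc 1 N).filter (fun n => Wt n = 1)).card : ℝ) with hX1
  change X0 ≤ _ at e0
  change X1 ≤ _ at e1
  have k2 : ((((Icc 1 N).filter (fun n => q (n + 0) = 1 ∧ q (n + d) = 1)).card : ℝ) - N * (p * p)) ≤ ε / 8 * N ∧
      -(ε / 8 * N) ≤ ((((Icc 1 N).filter (fun n => q (n + 0) = 1 ∧ q (n + d) = 1)).card : ℝ) - N * (p * p)) :=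
    ⟨h2.2, h2.1⟩
  have k3 : ((((Icc 1 N).filter (fun n => q (n + d) = 1 ∧ q (n + 2 * d) = 1)).card : ℝ) - N * (p * p)) ≤ ε / 8 * N ∧
      -(ε / 8 * N) ≤ ((((Icc 1 N).filter (fun n => q (n + d) = 1 ∧ q (n + 2 * d) = 1)).card : ℝ) - N * (p * p)) :=
    ⟨h3.2, h3.1⟩
  have k4 : ((((Icc 1 N).filter (fun n => q (n + 0) = 1 ∧ q (n + 2 * d) = 1)).card : ℝ) - N * (p * p)) ≤ ε / 8 * N ∧
      -(ε / 8 * N) ≤ ((((Icc 1 N).filter (fun n => q (n + 0) = 1 ∧ q (n + 2 * d) = 1)).card : ℝ) - N * (p * p)) :=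
    ⟨h4.2, h4.1⟩
  have hc : |(1 - 2 * p) ^ 3| = |1 - 2 * p| ^ 3 := abs_pow _ _
  have hc1 := neg_abs_le ((1 - 2 * p) ^ 3)
  have hc2 := le_abs_self ((1 - 2 * p) ^ 3)
  rw [hc] at hc1 hc2
  have key : |T - p ^ 3 * N| ≤ ((κ + |1 - 2 * p| ^ 3) / 8 + ε) * N := by
    have f1 : (1 - 2 * p) ^ 3 * N ≤ |1 - 2 * p| ^ 3 * N := mul_le_mul_of_nonneg_right hc2 hN0.le
    have f2 : -|1 - 2 * p| ^ 3 * N ≤ (1 - 2 * p) ^ 3 * N := mul_le_mul_of_nonneg_right hc1 hN0.le
    have hdN : 12 * (d : ℝ) ≤ ε * N := by nlinarith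
    rw [abs_le]
    constructor
    · nlinarith [o0.1, o0.2, o1.1, o1.2, o2.1, o2.2, k2.1, k2.2, k3.1, k3.2, k4.1, k4.2]
    · nlinarith [o0.1, o0.2, o1.1, o1.2, o2.1, o2.2, k2.1, k2.2, k3.1, k3.2, k4.1, k4.2]
  have : T / N - p ^ 3 = (T - p ^ 3 * N) / N := by
    field_simp
  rw [this, abs_div, abs_of_pos hN0, div_le_iff₀ hN0]
  exact key

end Pool.Agent.Q133.OK
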