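import Pool.Agent.Y842.QY.FinW
import Pool.Agent.Q133.OmAbs

/-!
# Products of functions of `Ω` at consecutive integers
-/

set_option autoImplicit false

namespace Pool.Agent.Q133.OK

open Finset
open ArithmeticFunction (cardFactors)
open Pool.Agent.Y958.U (LZ)
open Pool.Agent.Y842.EL (LZ_union LZ_diag')
open Pool.Agent.Y842.QY (csg mB Lc)

lemma csg_sum (n : ℕ) : ((csg (fun _ => (0 : Fin 1)) n).map Prod.snd).sum = cardFactors n := by
  unfold csg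
  rw [Multiset.map_map, ArithmeticFunction.cardFactors_eq_sum_factorization]
  rfl

lemma mB_le {B : ℕ → ℂ} (hB : ∀ l, ‖B l‖ ≤ 1) (N : ℕ) : ‖mB B N‖ ≤ 1 := by
  unfold mB
  rw [norm_div, Complex.norm_natCast]
  rcases Nat.eq_zero_or_pos N with h | h
  · simp [h]
  · rw [div_le_one (by exact_mod_cast h)]
    exact norm_sum_le_N (fun n => hB _) N

/-- one point -/
lemma one_pt {B : ℕ → ℂ} (hB : ∀ l, ‖B l‖ ≤ 1) (a N : ℕ) :
    ‖∑ n ∈ Icc 1 N, B (cardFactors (n + a)) - N * mB B N‖ ≤ 2 * a := by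
  have h1 := sum_shift (F := fun n => B (cardFactors n)) (fun n => hB _) N a
  have h2 : (N : ℂ) * mB B N = ∑ n ∈ Icc 1 N, B (cardFactors n) := by
    unfold mB
    rcases Nat.eq_zero_or_pos N with h | h
    · simp [h]
    · have : (N : ℂ) ≠ 0 := by exact_mod_cast h.ne'
      field_simp
  rw [h2]
  exact h1

/-- two points, outside one set -/
theorem pair_E (A B : ℕ → ℂ) (hA : ∀ l, ‖A l‖ ≤ 1) (hB : ∀ l, ‖B l‖ ≤ 1) :
    ∃ E : Set ℕ, LZ E ∧ ∀ a c : ℕ, a ≠ c → ∀ ε : ℝ, 0 < ε → ∃ N₀ : ℕ, ∀ N : ℕ, N₀ ≤ N → N ∉ E →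
      ‖∑ n ∈ Icc 1 N, A (cardFactors (n + c)) * B (cardFactors (n + a)) - N * (mB A N * mB B N)‖ ≤ ε * N := by
  obtain ⟨E, hE, h⟩ := Pool.Agent.Y842.QY.excW (fun _ => (0 : Fin 1))
    (fun s => A (s.map Prod.snd).sum) (fun s => hA _) (fun _ => 1) (fun n _ => by simp)
    (fun m n _ _ _ => by simp) B hB
  refine ⟨E, hE, fun a c hac ε hε => ?_⟩
  obtain ⟨N₀, h1⟩ := h a c hac (ε / 2) (by positivity)
  obtain ⟨M, hM⟩ := exists_nat_gt (2 * (c : ℝ) / (ε / 2))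
  refine ⟨N₀ + M, fun N hN hNE => ?_⟩
  have h2 := h1 N (by omega) hNE 0 N le_rfl
  have h3 : Lc (fun n => A ((csg (fun _ => (0 : Fin 1)) (n + c)).map Prod.snd).sum * 1 *
      Pool.Agent.Helper602.MK.ee (0 * n)) a N N B =
      ∑ n ∈ Icc 1 N, A (cardFactors (n + c)) * B (cardFactors (n + a)) -
        mB B N * ∑ n ∈ Icc 1 N, A (cardFactors (n + c)) := by
    unfold Lc
    rw [mul_sum, ← sum_sub_distrib]
    refine sum_congr rfl fun n _ => ?_
    simp only [csg_sum]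
    have : Pool.Agent.Helper602.MK.ee (0 * n) = 1 := by
      unfold Pool.Agent.Helper602.MK.ee
      simp
    rw [this]
    ring
  rw [h3] at h2
  have h4 := one_pt hA c N
  have h5 : ∑ n ∈ Icc 1 N, A (cardFactors (n + c)) * B (cardFactors (n + a)) - N * (mB A N * mB B N) =
      (∑ n ∈ Icc 1 N, A (cardFactors (n + c)) * B (cardFactors (n + a)) -
        mB B N * ∑ n ∈ Icc 1 N, A (cardFactors (n + c))) +
      mB B N * (∑ n ∈ Icc 1 N, A (cardFactors (n + c)) - N * mB A N) := by ring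
  rw [h5]
  refine (norm_add_le _ _).trans ?_
  rw [norm_mul]
  have h6 := mB_le hB N
  have h7 : ‖mB B N‖ * ‖∑ n ∈ Icc 1 N, A (cardFactors (n + c)) - N * mB A N‖ ≤ 1 * (2 * c) :=
    mul_le_mul h6 h4 (norm_nonneg _) zero_le_one
  have h8 : (M : ℝ) ≤ N := by exact_mod_cast (by omega : M ≤ N)
  rw [div_lt_iff₀ (by positivity)] at hM
  nlinarith

/-- correlations of all pairs from a countable family, outside one set -/
theorem pair_fam {ι : Type} [Encodable ι] (B : ι → ℕ → ℂ) (hB : ∀ i l, ‖B i l‖ ≤ 1) :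
    ∃ E : Set ℕ, LZ E ∧ ∀ i j : ι, ∀ a c : ℕ, a ≠ c → ∀ ε : ℝ, 0 < ε → ∃ N₀ : ℕ, ∀ N : ℕ, N₀ ≤ N → N ∉ E →
      ‖∑ n ∈ Icc 1 N, B i (cardFactors (n + c)) * B j (cardFactors (n + a)) -
        N * (mB (B i) N * mB (B j) N)‖ ≤ ε * N := by
  choose E hE h using fun t : ι × ι => pair_E (B t.1) (B t.2) (hB _) (hB _)
  obtain ⟨F, hF, h1⟩ := LZ_diag' E hE
  refine ⟨F, hF, fun i j a c hac ε hε => ?_⟩
  obtain ⟨N₁, h2⟩ := h1 (i, j)
  obtain ⟨N₂, h3⟩ := h (i, j) a c hac ε hε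
  exact ⟨max N₁ N₂, fun N hN hNE => h3 N (le_trans (le_max_right _ _) hN)
    fun hc => hNE (h2 N (le_trans (le_max_left _ _) hN) hc)⟩

/-- the two-point property used -/
def CP (A B : ℕ → ℂ) (E : Set ℕ) : Prop := ∀ a c : ℕ, a ≠ c → ∀ ε : ℝ, 0 < ε → ∃ N₀ : ℕ, ∀ N : ℕ, N₀ ≤ N →
  N ∉ E → ‖∑ n ∈ Icc 1 N, A (cardFactors (n + c)) * B (cardFactors (n + a)) - N * (mB A N * mB B N)‖ ≤ ε * N

/-- complex conjugate of a function -/
noncomputable def cj (B : ℕ → ℂ) (l : ℕ) : ℂ := starRingEnd ℂ (B l)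

lemma mB_cj (B : ℕ → ℂ) (N : ℕ) : mB (cj B) N = starRingEnd ℂ (mB B N) := by
  unfold mB cj
  rw [map_div₀, map_sum, Complex.conj_natCast]

/-- `e(x)` -/
noncomputable def e (x : ℝ) : ℂ := Complex.exp (2 * Real.pi * x * Complex.I)

lemma e_norm (x : ℝ) : ‖e x‖ = 1 := by
  unfold e
  have : (2 * Real.pi * x * Complex.I : ℂ) = ((2 * Real.pi * x : ℝ) : ℂ) * Complex.I := by push_cast; ring
  rw [this, Complex.norm_exp_ofReal_mul_I]

lemma e_add (x y : ℝ) : e (x + y) = e x * e y := by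
  unfold e
  rw [← Complex.exp_add]
  congr 1
  push_cast
  ring

lemma e_re (x : ℝ) : (e x).re = Real.cos (2 * Real.pi * x) := by
  unfold e
  have : (2 * Real.pi * x * Complex.I : ℂ) = ((2 * Real.pi * x : ℝ) : ℂ) * Complex.I := by push_cast; ring
  rw [this, Complex.exp_ofReal_mul_I_re]

/-- the exponential sum of the product along a progression -/
theorem part1 {B : ℕ → ℂ} (hB : ∀ l, ‖B l‖ = 1) {E : Set ℕ} (hE : CP (cj B) B E) (k d : ℕ) (hk : 1 ≤ k)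
    (hd : 1 ≤ d) (ε : ℝ) (hε : 0 < ε) : ∃ N₀ : ℕ, ∀ N : ℕ, N₀ ≤ N → N ∉ E → ∀ α : ℝ,
      ‖∑ n ∈ Icc 1 N, e (α * n) * P (fun m => B (cardFactors m)) d k n‖ ^ 2 ≤
        ((1 + ‖mB B N‖ ^ 2 * Real.cos (2 * Real.pi * (α * d))) / 2 + ε) * (N : ℝ) ^ 2 := by
  have hne : d * k ≠ 0 := by positivity
  obtain ⟨N₀, h1⟩ := hE (d * k) 0 hne ε hε
  obtain ⟨M, hM⟩ := exists_nat_gt (2 * (d : ℝ) / (ε / 2))
  refine ⟨N₀ + M, fun N hN hNE α => ?_⟩
  have h2 := h1 N (by omega) hNE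
  set f : ℕ → ℂ := fun m => B (cardFactors m) with hf
  have hfn : ∀ n, ‖f n‖ = 1 := fun n => hB _
  have hv : ∀ n : ℕ, ‖e (α * n) * P f d k n‖ = 1 := by
    intro n
    rw [norm_mul, e_norm, P_norm hfn, one_mul]
  have h3 : ∀ n : ℕ, starRingEnd ℂ (e (α * n) * P f d k n) * (e (α * (n + d : ℕ)) * P f d k (n + d)) =
      e (α * d) * (cj B (cardFactors (n + 0)) * B (cardFactors (n + d * k))) := by
    intro n
    have a1 := P_next hfn d k n
    have a2 : e (α * (n + d : ℕ)) = e (α * n) * e (α * d) := by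
      rw [← e_add]
      congr 1
      push_cast
      ring
    have a3 := conj_self (e_norm (α * n))
    rw [map_mul, a2]
    calc starRingEnd ℂ (e (α * n)) * starRingEnd ℂ (P f d k n) * (e (α * n) * e (α * d) * P f d k (n + d))
        = (starRingEnd ℂ (e (α * n)) * e (α * n)) * e (α * d) *
          (starRingEnd ℂ (P f d k n) * P f d k (n + d)) := by ring
      _ = _ := by
        rw [a3, a1, one_mul]
        rfl
  have h4 : (∑ n ∈ Icc 1 N, starRingEnd ℂ (e (α * n) * P f d k n) *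
      (e (α * (n + d : ℕ)) * P f d k (n + d))).re ≤
      N * ‖mB B N‖ ^ 2 * Real.cos (2 * Real.pi * (α * d)) + ε * N := by
    rw [sum_congr rfl fun n _ => h3 n, ← mul_sum]
    set S := ∑ n ∈ Icc 1 N, cj B (cardFactors (n + 0)) * B (cardFactors (n + d * k)) with hS
    have a1 : e (α * d) * S = e (α * d) * (N * (mB (cj B) N * mB B N)) +
        e (α * d) * (S - N * (mB (cj B) N * mB B N)) := by ring
    rw [a1, Complex.add_re]
    have a2 : (e (α * d) * (N * (mB (cj B) N * mB B N))).re =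
        N * ‖mB B N‖ ^ 2 * Real.cos (2 * Real.pi * (α * d)) := by
      rw [mB_cj, Complex.conj_mul']
      have : e (α * d) * (N * (‖mB B N‖ : ℂ) ^ 2) = ((N * ‖mB B N‖ ^ 2 : ℝ) : ℂ) * e (α * d) := by
        push_cast
        ring
      rw [this, Complex.re_ofReal_mul, e_re]
    have a3 : (e (α * d) * (S - N * (mB (cj B) N * mB B N))).re ≤ ε * N := by
      refine (Complex.re_le_norm _).trans ?_
      rw [norm_mul, e_norm, one_mul]
      exact h2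
    linarith
  have h5 := two_shift hv N d _ h4
  have h8 : (M : ℝ) ≤ N := by exact_mod_cast (by omega : M ≤ N)
  rw [div_lt_iff₀ (by positivity)] at hM
  have h10 : 2 * (d : ℝ) ≤ ε / 2 * N := by nlinarith
  have h9 : 2 * (d : ℝ) * N ≤ ε / 2 * N * N := mul_le_mul_of_nonneg_right h10 (Nat.cast_nonneg N)
  refine h5.trans ?_
  nlinarith


lemma norm_symm (u v : ℕ → ℂ) (N : ℕ) : ‖∑ n ∈ Icc 1 N, starRingEnd ℂ (u n) * v n‖ =
    ‖∑ n ∈ Icc 1 N, starRingEnd ℂ (v n) * u n‖ := by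
  rw [← Complex.norm_conj, map_sum]
  congr 1
  refine sum_congr rfl fun n _ => ?_
  rw [map_mul, Complex.conj_conj]
  ring

lemma norm_self_le {u : ℕ → ℂ} (hu : ∀ n, ‖u n‖ ≤ 1) (N : ℕ) :
    ‖∑ n ∈ Icc 1 N, starRingEnd ℂ (u n) * u n‖ ≤ N := by
  refine norm_sum_le_N (fun n => ?_) N
  rw [norm_mul, Complex.norm_conj]
  exact mul_le_one₀ (hu n) (norm_nonneg _) (hu n)

/-- four products and an arbitrary weight -/
theorem part2 {B : ℕ → ℂ} (hB : ∀ l, ‖B l‖ = 1) {E : Set ℕ} (hE : CP (cj B) B E) (hE' : CP B B E) (k d : ℕ)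
    (hk : 1 ≤ k) (hd : 1 ≤ d) (ε : ℝ) (hε : 0 < ε) : ∃ N₀ : ℕ, ∀ N : ℕ, N₀ ≤ N → N ∉ E →
      ∀ g : ℕ → ℂ, (∀ n, ‖g n‖ ≤ 1) →
      ‖∑ n ∈ Icc 1 N, g n * P (fun m => B (cardFactors m)) d k n‖ ^ 2 +
      ‖∑ n ∈ Icc 1 N, g n * P (fun m => B (cardFactors m)) d (k + 1) n‖ ^ 2 +
      ‖∑ n ∈ Icc 1 N, g n * P (fun m => B (cardFactors m)) d (k + 2) n‖ ^ 2 +
      ‖∑ n ∈ Icc 1 N, g n * P (fun m => B (cardFactors m)) d k (n + d)‖ ^ 2 ≤
        (1 + 3 * ‖mB B N‖ + ε) * (N : ℝ) ^ 2 := by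
  have hdk : d * k ≠ 0 := by positivity
  obtain ⟨N₁, h1⟩ := hE (d * k) 0 hdk (ε / 3) (by positivity)
  obtain ⟨N₂, h2⟩ := hE' (d * (k + 1)) (d * k) (by
    rw [mul_add]
    omega) (ε / 3) (by positivity)
  obtain ⟨N₃, h3⟩ := hE' (d * (k + 1)) 0 (by positivity) (ε / 3) (by positivity)
  obtain ⟨M, hM⟩ := exists_nat_gt (2 * ((d * (k + 1) : ℕ) : ℝ) / (ε / 3))
  refine ⟨N₁ + N₂ + N₃ + M, fun N hN hNE g hg => ?_⟩
  replace h1 := h1 N (by omega) hNE
  replace h2 := h2 N (by omega) hNE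
  replace h3 := h3 N (by omega) hNE
  set f : ℕ → ℂ := fun m => B (cardFactors m) with hf
  have hfn : ∀ n, ‖f n‖ = 1 := fun n => hB _
  set m := ‖mB B N‖ with hm
  have hm1 : m ≤ 1 := mB_le (fun l => (hB l).le) N
  have hm0 : 0 ≤ m := norm_nonneg _
  have hN0 : (0 : ℝ) ≤ N := Nat.cast_nonneg N
  have hMN : 2 * ((d * (k + 1) : ℕ) : ℝ) ≤ ε / 3 * N := by
    have h8 : (M : ℝ) ≤ N := by exact_mod_cast (by omega : M ≤ N)
    rw [div_lt_iff₀ (by positivity)] at hM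
    nlinarith
  have hm2 : m ^ 2 ≤ m := by nlinarith
  -- one point sums
  have o : ∀ a : ℕ, a ≤ d * (k + 1) → ‖∑ n ∈ Icc 1 N, f (n + a)‖ ≤ (m + ε / 3) * N := by
    intro a ha
    have a1 := one_pt (fun l => (hB l).le) a N
    have a2 : ∑ n ∈ Icc 1 N, f (n + a) = (∑ n ∈ Icc 1 N, B (cardFactors (n + a)) - N * mB B N) + N * mB B N := by
      rw [sub_add_cancel]
    have a3 := norm_add_le (∑ n ∈ Icc 1 N, B (cardFactors (n + a)) - N * mB B N) (N * mB B N)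
    rw [← a2, norm_mul, Complex.norm_natCast] at a3
    have a4 : (a : ℝ) ≤ ((d * (k + 1) : ℕ) : ℝ) := by exact_mod_cast ha
    nlinarith
  -- two point sums
  have t : ∀ (A C : ℕ → ℂ) (S : ℂ), ‖mB A N‖ = m → ‖mB C N‖ = m →
      ‖S - N * (mB A N * mB C N)‖ ≤ ε / 3 * N → ‖S‖ ≤ (m ^ 2 + ε / 3) * N := by
    intro A C S hA hC hS
    have a3 := norm_add_le (S - N * (mB A N * mB C N)) (N * (mB A N * mB C N))
    rw [sub_add_cancel, norm_mul (N : ℂ), norm_mul (mB A N), Complex.norm_natCast, hA, hC] at a3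
    nlinarith
  have hcj : ‖mB (cj B) N‖ = m := by rw [mB_cj, Complex.norm_conj]
  set v : Fin 4 → ℕ → ℂ := ![fun n => P f d k n, fun n => P f d (k + 1) n, fun n => P f d (k + 2) n,
    fun n => P f d k (n + d)] with hv
  have g01 : ‖∑ n ∈ Icc 1 N, starRingEnd ℂ (v 0 n) * v 1 n‖ ≤ (m + ε / 3) * N := by
    rw [sum_congr rfl (fun n _ => (show starRingEnd ℂ (v 0 n) * v 1 n = f (n + d * k) by
      show starRingEnd ℂ (P f d k n) * P f d (k + 1) n = _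
      rw [P_succ, ← mul_assoc, conj_self (P_norm hfn d k n), one_mul]))]
    exact o _ (by nlinarith)
  have g12 : ‖∑ n ∈ Icc 1 N, starRingEnd ℂ (v 1 n) * v 2 n‖ ≤ (m + ε / 3) * N := by
    rw [sum_congr rfl (fun n _ => (show starRingEnd ℂ (v 1 n) * v 2 n = f (n + d * (k + 1)) by
      show starRingEnd ℂ (P f d (k + 1) n) * P f d (k + 1 + 1) n = _
      rw [P_succ f d (k + 1), ← mul_assoc, conj_self (P_norm hfn d (k + 1) n), one_mul]))]
    exact o _ le_rfl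
  have g02 : ‖∑ n ∈ Icc 1 N, starRingEnd ℂ (v 0 n) * v 2 n‖ ≤ (m ^ 2 + ε / 3) * N := by
    rw [sum_congr rfl (fun n _ => (show starRingEnd ℂ (v 0 n) * v 2 n =
        B (cardFactors (n + d * k)) * B (cardFactors (n + d * (k + 1))) by
      show starRingEnd ℂ (P f d k n) * P f d (k + 1 + 1) n = _
      rw [P_succ f d (k + 1), P_succ f d k, mul_assoc, ← mul_assoc, conj_self (P_norm hfn d k n), one_mul]))]
    exact t B B _ rfl rfl h2
  have g03 : ‖∑ n ∈ Icc 1 N, starRingEnd ℂ (v 0 n) * v 3 n‖ ≤ (m ^ 2 + ε / 3) * N := by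
    rw [sum_congr rfl (fun n _ => (show starRingEnd ℂ (v 0 n) * v 3 n =
        cj B (cardFactors (n + 0)) * B (cardFactors (n + d * k)) from P_next hfn d k n))]
    exact t (cj B) B _ hcj rfl h1
  have g31 : ‖∑ n ∈ Icc 1 N, starRingEnd ℂ (v 3 n) * v 1 n‖ ≤ (m + ε / 3) * N := by
    rw [sum_congr rfl (fun n _ => (show starRingEnd ℂ (v 3 n) * v 1 n = f (n + 0) by
      show starRingEnd ℂ (P f d k (n + d)) * P f d (k + 1) n = _
      rw [P_succ' f d k, mul_comm (f n), ← mul_assoc, conj_self (P_norm hfn d k (n + d)), one_mul]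
      rfl))]
    exact o _ (Nat.zero_le _)
  have g32 : ‖∑ n ∈ Icc 1 N, starRingEnd ℂ (v 3 n) * v 2 n‖ ≤ (m ^ 2 + ε / 3) * N := by
    rw [sum_congr rfl (fun n _ => (show starRingEnd ℂ (v 3 n) * v 2 n =
        B (cardFactors (n + 0)) * B (cardFactors (n + d * (k + 1))) by
      show starRingEnd ℂ (P f d k (n + d)) * P f d (k + 1 + 1) n = _
      rw [P_succ f d (k + 1), P_succ' f d k]
      calc starRingEnd ℂ (P f d k (n + d)) * (f n * P f d k (n + d) * f (n + d * (k + 1)))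
          = (starRingEnd ℂ (P f d k (n + d)) * P f d k (n + d)) * (f n * f (n + d * (k + 1))) := by ring
        _ = _ := by
          rw [conj_self (P_norm hfn d k (n + d)), one_mul]
          rfl))]
    exact t B B _ rfl rfl h3
  have gd : ∀ i, ‖∑ n ∈ Icc 1 N, starRingEnd ℂ (v i n) * v i n‖ ≤ N := by
    intro i
    apply norm_self_le
    intro n
    fin_cases i
    · exact (P_norm hfn d k n).le
    · exact (P_norm hfn d (k + 1) n).le
    · exact (P_norm hfn d (k + 2) n).le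
    · exact (P_norm hfn d k (n + d)).le
  have hb := boas (univ : Finset (Fin 4)) N v ((1 + 3 * m + ε) * N) (by positivity) (by
    intro i _
    rw [Fin.sum_univ_four]
    have s10 := norm_symm (v 1) (v 0) N
    have s20 := norm_symm (v 2) (v 0) N
    have s30 := norm_symm (v 3) (v 0) N
    have s21 := norm_symm (v 2) (v 1) N
    have s13 := norm_symm (v 1) (v 3) N
    have s23 := norm_symm (v 2) (v 3) N
    have d0 := gd 0
    have d1 := gd 1
    have d2 := gd 2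
    have d3 := gd 3
    have hmm : m ^ 2 * N ≤ m * N := mul_le_mul_of_nonneg_right hm2 hN0
    have hm3 : 0 ≤ m * N := by positivity
    fin_cases i
    · show ‖∑ n ∈ Icc 1 N, starRingEnd ℂ (v 0 n) * v 0 n‖ + ‖∑ n ∈ Icc 1 N, starRingEnd ℂ (v 0 n) * v 1 n‖ +
        ‖∑ n ∈ Icc 1 N, starRingEnd ℂ (v 0 n) * v 2 n‖ + ‖∑ n ∈ Icc 1 N, starRingEnd ℂ (v 0 n) * v 3 n‖ ≤ _
      linarith
    · show ‖∑ n ∈ Icc 1 N, starRingEnd ℂ (v 1 n) * v 0 n‖ + ‖∑ n ∈ Icc 1 N, starRingEnd ℂ (v 1 n) * v 1 n‖ +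
        ‖∑ n ∈ Icc 1 N, starRingEnd ℂ (v 1 n) * v 2 n‖ + ‖∑ n ∈ Icc 1 N, starRingEnd ℂ (v 1 n) * v 3 n‖ ≤ _
      rw [s10, s13]
      linarith
    · show ‖∑ n ∈ Icc 1 N, starRingEnd ℂ (v 2 n) * v 0 n‖ + ‖∑ n ∈ Icc 1 N, starRingEnd ℂ (v 2 n) * v 1 n‖ +
        ‖∑ n ∈ Icc 1 N, starRingEnd ℂ (v 2 n) * v 2 n‖ + ‖∑ n ∈ Icc 1 N, starRingEnd ℂ (v 2 n) * v 3 n‖ ≤ _
      rw [s20, s21, s23]
      linarith
    · show ‖∑ n ∈ Icc 1 N, starRingEnd ℂ (v 3 n) * v 0 n‖ + ‖∑ n ∈ Icc 1 N, starRingEnd ℂ (v 3 n) * v 1 n‖ +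
        ‖∑ n ∈ Icc 1 N, starRingEnd ℂ (v 3 n) * v 2 n‖ + ‖∑ n ∈ Icc 1 N, starRingEnd ℂ (v 3 n) * v 3 n‖ ≤ _
      rw [s30]
      linarith) g hg
  rw [Fin.sum_univ_four] at hb
  have hb' : ‖∑ n ∈ Icc 1 N, g n * P f d k n‖ ^ 2 + ‖∑ n ∈ Icc 1 N, g n * P f d (k + 1) n‖ ^ 2 +
      ‖∑ n ∈ Icc 1 N, g n * P f d (k + 2) n‖ ^ 2 + ‖∑ n ∈ Icc 1 N, g n * P f d k (n + d)‖ ^ 2 ≤
      (1 + 3 * m + ε) * N * N := hb
  refine hb'.trans (le_of_eq (by ring))

/-- displacements -/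
theorem part3 {B : ℕ → ℂ} (hB : ∀ l, ‖B l‖ ≤ 1) {E : Set ℕ} (hE : CP (cj B) B E) (H : ℕ) (ε : ℝ) (hε : 0 < ε) :
    ∃ N₀ : ℕ, ∀ N : ℕ, N₀ ≤ N → N ∉ E → ∀ g : ℕ → ℂ, (∀ n, ‖g n‖ ≤ 1) →
      ∑ h ∈ range H, ‖∑ n ∈ Icc 1 N, g n * (B (cardFactors (n + h)) - mB B N)‖ ^ 2 ≤ (1 + ε) * (N : ℝ) ^ 2 := by
  set δ : ℝ := ε / (2 * (H + 1)) with hδ
  have hδ0 : 0 < δ := by positivity
  have h1 : ∀ t : ℕ × ℕ, ∃ N₀ : ℕ, ∀ N : ℕ, N₀ ≤ N → N ∉ E → t.1 ≠ t.2 →
      ‖∑ n ∈ Icc 1 N, cj B (cardFactors (n + t.2)) * B (cardFactors (n + t.1)) -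
        N * (mB (cj B) N * mB B N)‖ ≤ δ * N := by
    intro t
    by_cases h : t.1 ≠ t.2
    · obtain ⟨N₀, h2⟩ := hE t.1 t.2 h δ hδ0
      exact ⟨N₀, fun N hN hNE _ => h2 N hN hNE⟩
    · exact ⟨0, fun N _ _ h' => (h h').elim⟩
  choose N₀ h1 using h1
  obtain ⟨M, hM⟩ := exists_nat_gt (4 * (H : ℝ) / δ)
  refine ⟨∑ t ∈ range H ×ˢ range H, N₀ t + M, fun N hN hNE g hg => ?_⟩
  have hN0 : (0 : ℝ) ≤ N := Nat.cast_nonneg N
  set m := mB B N with hm
  have hm1 : ‖m‖ ≤ 1 := mB_le hB N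
  have hMN : 4 * (H : ℝ) ≤ δ * N := by
    have h8 : (M : ℝ) ≤ N := by exact_mod_cast (by omega : M ≤ N)
    rw [div_lt_iff₀ hδ0] at hM
    nlinarith
  set r : ℕ → ℂ := fun h => ∑ n ∈ Icc 1 N, B (cardFactors (n + h)) - N * m with hr
  have hrb : ∀ h, ‖r h‖ ≤ 2 * h := fun h => one_pt hB h N
  have hexp : ∀ h h' : ℕ, ∑ n ∈ Icc 1 N, starRingEnd ℂ (B (cardFactors (n + h)) - m) *
      (B (cardFactors (n + h')) - m) =
      (∑ n ∈ Icc 1 N, cj B (cardFactors (n + h)) * B (cardFactors (n + h')) - N * (starRingEnd ℂ m * m)) -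
        m * starRingEnd ℂ (r h) - starRingEnd ℂ m * r h' := by
    intro h h'
    have a1 : ∀ n, starRingEnd ℂ (B (cardFactors (n + h)) - m) * (B (cardFactors (n + h')) - m) =
        cj B (cardFactors (n + h)) * B (cardFactors (n + h')) - m * starRingEnd ℂ (B (cardFactors (n + h))) -
          starRingEnd ℂ m * B (cardFactors (n + h')) + starRingEnd ℂ m * m := by
      intro n
      rw [map_sub]
      unfold cj
      ring
    rw [sum_congr rfl fun n _ => a1 n, sum_add_distrib, sum_sub_distrib, sum_sub_distrib, ← mul_sum,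
      ← mul_sum, ← map_sum]
    simp only [hr, map_sub, map_mul, Complex.conj_natCast, sum_const, Nat.card_Icc, nsmul_eq_mul,
      Nat.add_sub_cancel]
    ring
  have hsm : ∀ h h' : ℕ, h < H → h' < H → ‖m * starRingEnd ℂ (r h)‖ + ‖starRingEnd ℂ m * r h'‖ ≤ 4 * H := by
    intro h h' hh hh'
    rw [norm_mul, norm_mul, Complex.norm_conj, Complex.norm_conj]
    have a1 : ‖m‖ * ‖r h‖ ≤ 1 * (2 * h) := mul_le_mul hm1 (hrb h) (norm_nonneg _) zero_le_one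
    have a2 : ‖m‖ * ‖r h'‖ ≤ 1 * (2 * h') := mul_le_mul hm1 (hrb h') (norm_nonneg _) zero_le_one
    have a3 : (h : ℝ) ≤ H := by exact_mod_cast hh.le
    have a4 : (h' : ℝ) ≤ H := by exact_mod_cast hh'.le
    linarith
  have hdiag : ∀ h : ℕ, h < H → ‖∑ n ∈ Icc 1 N, starRingEnd ℂ (B (cardFactors (n + h)) - m) *
      (B (cardFactors (n + h)) - m)‖ ≤ N + δ * N := by
    intro h hh
    rw [hexp h h]
    have a1 : ‖∑ n ∈ Icc 1 N, cj B (cardFactors (n + h)) * B (cardFactors (n + h)) - N * (starRingEnd ℂ m * m)‖ ≤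
        N := by
      have b1 : ∑ n ∈ Icc 1 N, cj B (cardFactors (n + h)) * B (cardFactors (n + h)) =
          ((∑ n ∈ Icc 1 N, ‖B (cardFactors (n + h))‖ ^ 2 : ℝ) : ℂ) := by
        push_cast
        refine sum_congr rfl fun n _ => ?_
        unfold cj
        rw [Complex.conj_mul']
      have b2 : (N : ℂ) * (starRingEnd ℂ m * m) = ((N * ‖m‖ ^ 2 : ℝ) : ℂ) := by
        rw [Complex.conj_mul']
        push_cast
        ring
      rw [b1, b2, ← Complex.ofReal_sub, Complex.norm_real, Real.norm_eq_abs]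
      have b3 : 0 ≤ ∑ n ∈ Icc 1 N, ‖B (cardFactors (n + h))‖ ^ 2 := sum_nonneg fun n _ => by positivity
      have b4 : ∑ n ∈ Icc 1 N, ‖B (cardFactors (n + h))‖ ^ 2 ≤ N := by
        refine (sum_le_sum fun n _ => pow_le_one₀ (norm_nonneg _) (hB _)).trans ?_
        simp
      have b5 : ‖m‖ ^ 2 ≤ 1 := pow_le_one₀ (norm_nonneg _) hm1
      rw [abs_le]
      constructor
      · nlinarith [sq_nonneg ‖m‖]
      · nlinarith [sq_nonneg ‖m‖, mul_nonneg hN0 (sq_nonneg ‖m‖)]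
    have a2 := hsm h h hh hh
    have a3 := norm_sub_le ((∑ n ∈ Icc 1 N, cj B (cardFactors (n + h)) * B (cardFactors (n + h)) -
      N * (starRingEnd ℂ m * m)) - m * starRingEnd ℂ (r h)) (starRingEnd ℂ m * r h)
    have a4 := norm_sub_le (∑ n ∈ Icc 1 N, cj B (cardFactors (n + h)) * B (cardFactors (n + h)) -
      N * (starRingEnd ℂ m * m)) (m * starRingEnd ℂ (r h))
    linarith
  have hoff : ∀ h h' : ℕ, h < H → h' < H → h ≠ h' → ‖∑ n ∈ Icc 1 N,
      starRingEnd ℂ (B (cardFactors (n + h)) - m) * (B (cardFactors (n + h')) - m)‖ ≤ 2 * δ * N := by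
    intro h h' hh hh' hne
    rw [hexp h h']
    have hle : N₀ (h', h) ≤ ∑ t ∈ range H ×ˢ range H, N₀ t :=
      single_le_sum (f := N₀) (fun _ _ => Nat.zero_le _) (mem_product.2 ⟨mem_range.2 hh', mem_range.2 hh⟩)
    have a1 := h1 (h', h) N (by omega) hNE (Ne.symm hne)
    rw [mB_cj] at a1
    have a2 := hsm h h' hh hh'
    have a3 := norm_sub_le ((∑ n ∈ Icc 1 N, cj B (cardFactors (n + h)) * B (cardFactors (n + h')) -
      N * (starRingEnd ℂ m * m)) - m * starRingEnd ℂ (r h)) (starRingEnd ℂ m * r h')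
    have a4 := norm_sub_le (∑ n ∈ Icc 1 N, cj B (cardFactors (n + h)) * B (cardFactors (n + h')) -
      N * (starRingEnd ℂ m * m)) (m * starRingEnd ℂ (r h))
    have a5 : ‖∑ n ∈ Icc 1 N, cj B (cardFactors (n + h)) * B (cardFactors (n + h')) -
      N * (starRingEnd ℂ m * m)‖ ≤ δ * N := a1
    linarith
  have hb := boas (range H) N (fun h n => B (cardFactors (n + h)) - m) ((1 + ε) * N) (by positivity) (by
    intro h hh
    have hh1 := mem_range.1 hh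
    rw [← add_sum_erase _ _ hh]
    have a1 : ∑ h' ∈ (range H).erase h, ‖∑ n ∈ Icc 1 N, starRingEnd ℂ (B (cardFactors (n + h)) - m) *
        (B (cardFactors (n + h')) - m)‖ ≤ ∑ _h' ∈ (range H).erase h, 2 * δ * N := by
      refine sum_le_sum fun h' hh' => ?_
      rw [mem_erase, mem_range] at hh'
      exact hoff h h' hh1 hh'.2 (Ne.symm hh'.1)
    rw [sum_const, card_erase_of_mem hh, card_range, nsmul_eq_mul] at a1
    have a2 := hdiag h hh1
    have a3 : ((H - 1 : ℕ) : ℝ) = H - 1 := by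
      rw [Nat.cast_sub (by omega)]
      simp
    rw [a3] at a1
    have a4 : δ * (2 * (H + 1)) = ε := by
      rw [hδ]
      field_simp
    have a5 : N + δ * N + (H - 1) * (2 * δ * N) ≤ (1 + ε) * N := by
      rw [← a4]
      nlinarith [mul_nonneg hδ0.le hN0, mul_nonneg (mul_nonneg hδ0.le hN0) (Nat.cast_nonneg (α := ℝ) H)]
    linarith) g hg
  refine hb.trans (le_of_eq (by ring))

end Pool.Agent.Q133.OK
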