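import Mathlib

set_option autoImplicit false

open Finset

set_option linter.unusedSectionVars false

namespace Q133.PInt

/-- `S` is a `p`-intersection representation of `G` on `[t]` -/
def IsRep {V : Type*} (G : SimpleGraph V) (p t : ℕ) (S : V → Finset (Fin t)) : Prop :=
  ∀ u v, u ≠ v → (G.Adj u v ↔ p ≤ (S u ∩ S v).card)

/-- the `p`-intersection number -/
noncomputable def theta {V : Type*} (p : ℕ) (G : SimpleGraph V) : ℕ :=
  sInf {t | ∃ S : V → Finset (Fin t), IsRep G p t S}

/-- `K(n × k)`: vertices `v^ℓ_α = (α, ℓ)`, adjacent iff `ℓ ≠ m` and `α ≠ β` -/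
def KK (n k : ℕ) : SimpleGraph (Fin n × Fin k) where
  Adj u v := u.2 ≠ v.2 ∧ u.1 ≠ v.1
  symm := ⟨fun _ _ h => ⟨h.1.symm, h.2.symm⟩⟩
  loopless := ⟨fun _ h => h.1 rfl⟩

/-! ### lower bound -/

/-- number of sets of the family containing `x` -/
def cnt {t k : ℕ} (A : Fin k → Finset (Fin t)) (x : Fin t) : ℤ :=
  ∑ l, if x ∈ A l then 1 else 0

theorem sum_cnt_mul {t k : ℕ} (A B : Fin k → Finset (Fin t)) :
    ∑ x : Fin t, cnt A x * cnt B x = ∑ l, ∑ m, ((A l ∩ B m).card : ℤ) := by
  have h : ∀ l m, ((A l ∩ B m).card : ℤ) =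
      ∑ x : Fin t, (if x ∈ A l then (1 : ℤ) else 0) * (if x ∈ B m then 1 else 0) := by
    intro l m
    have h2 : ∀ x : Fin t, (if x ∈ A l then (1 : ℤ) else 0) * (if x ∈ B m then 1 else 0) =
        if x ∈ A l ∩ B m then 1 else 0 := by
      intro x
      by_cases h1 : x ∈ A l <;> by_cases h2 : x ∈ B m <;> simp [h1, h2]
    simp only [h2]
    rw [Finset.sum_ite_mem]
    simp
  simp only [h, cnt]
  simp only [Finset.sum_mul_sum]
  rw [Finset.sum_comm]
  refine Finset.sum_congr rfl fun l _ => ?_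
  rw [Finset.sum_comm]

theorem sum_cnt {t k : ℕ} (A : Fin k → Finset (Fin t)) :
    ∑ x : Fin t, cnt A x = ∑ l, ((A l).card : ℤ) := by
  unfold cnt
  rw [Finset.sum_comm]
  refine Finset.sum_congr rfl fun l _ => ?_
  rw [Finset.sum_ite_mem]
  simp

theorem per_point (p c d : ℤ) (hp : 1 ≤ p) :
    (2 * p - 1) * (c * d) - p * (c * c - c) - p * (d * d - d) ≤ p * p := by
  nlinarith [sq_nonneg (2 * p - (c + d)), sq_nonneg (c - d),
    mul_nonneg (by linarith : (0 : ℤ) ≤ 4 * p - 1) (sq_nonneg (c - d))]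

theorem lower {n k p t : ℕ} (hn : 2 ≤ n) (hp : 1 ≤ p) {S : Fin n × Fin k → Finset (Fin t)}
    (hS : IsRep (KK n k) p t S) : k * (k - 1) ≤ p * t := by
  have hα : ((⟨0, by omega⟩ : Fin n)) ≠ ⟨1, by omega⟩ := by
    intro h; simp at h
  set α : Fin n := ⟨0, by omega⟩
  set β : Fin n := ⟨1, by omega⟩
  set A : Fin k → Finset (Fin t) := fun l => S (α, l) with hA
  set B : Fin k → Finset (Fin t) := fun l => S (β, l) with hB
  rcases Nat.eq_zero_or_pos k with rfl | hk
  · simp
  -- pair counts
  have hcross : ∀ l m, l ≠ m → (p : ℤ) ≤ ((A l ∩ B m).card : ℤ) := by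
    intro l m hlm
    have := (hS (α, l) (β, m) (by simp [hlm])).mp ⟨hlm, hα⟩
    exact_mod_cast this
  have hsame : ∀ (γ : Fin n) l m, l ≠ m →
      (((fun l => S (γ, l)) l ∩ (fun l => S (γ, l)) m).card : ℤ) ≤ p - 1 := by
    intro γ l m hlm
    have h1 := (hS (γ, l) (γ, m) (by simp [hlm])).not.mp (by simp [KK])
    push Not at h1
    have : ((S (γ, l) ∩ S (γ, m)).card : ℤ) < p := by exact_mod_cast h1
    show ((S (γ, l) ∩ S (γ, m)).card : ℤ) ≤ p - 1
    omega
  have hX : (p : ℤ) * (k * (k - 1)) ≤ ∑ x, cnt A x * cnt B x := by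
    rw [sum_cnt_mul]
    have h1 : ∀ l : Fin k, (p : ℤ) * (k - 1) ≤ ∑ m, ((A l ∩ B m).card : ℤ) := by
      intro l
      calc (p : ℤ) * (k - 1) = ∑ m ∈ univ.erase l, (p : ℤ) := by
            rw [Finset.sum_const, Finset.card_erase_of_mem (Finset.mem_univ l), Finset.card_univ,
              Fintype.card_fin, nsmul_eq_mul, Nat.cast_sub hk]
            push_cast; ring
        _ ≤ ∑ m ∈ univ.erase l, ((A l ∩ B m).card : ℤ) :=
            Finset.sum_le_sum fun m hm => hcross l m (Finset.ne_of_mem_erase hm).symm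
        _ ≤ ∑ m, ((A l ∩ B m).card : ℤ) :=
            Finset.sum_le_sum_of_subset_of_nonneg (Finset.erase_subset _ _)
              (fun _ _ _ => by positivity)
    calc (p : ℤ) * (k * (k - 1)) = ∑ _l : Fin k, (p : ℤ) * (k - 1) := by
          rw [Finset.sum_const, Finset.card_univ, Fintype.card_fin, nsmul_eq_mul]; ring
      _ ≤ _ := Finset.sum_le_sum fun l _ => h1 l
  have hY : ∀ γ : Fin n, ∑ x, (cnt (fun l => S (γ, l)) x * cnt (fun l => S (γ, l)) x -
      cnt (fun l => S (γ, l)) x) ≤ ((p : ℤ) - 1) * (k * (k - 1)) := by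
    intro γ
    rw [Finset.sum_sub_distrib, sum_cnt_mul, sum_cnt, ← Finset.sum_sub_distrib]
    have h1 : ∀ l : Fin k, ∑ m, (((fun l => S (γ, l)) l ∩ (fun l => S (γ, l)) m).card : ℤ) -
        (((fun l => S (γ, l)) l).card : ℤ) ≤ ((p : ℤ) - 1) * (k - 1) := by
      intro l
      rw [← Finset.add_sum_erase univ _ (Finset.mem_univ l)]
      simp only [Finset.inter_self, add_sub_cancel_left]
      calc ∑ m ∈ univ.erase l, ((S (γ, l) ∩ S (γ, m)).card : ℤ)
          ≤ ∑ m ∈ univ.erase l, ((p : ℤ) - 1) :=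
            Finset.sum_le_sum fun m hm => hsame γ l m (Finset.ne_of_mem_erase hm).symm
        _ = ((p : ℤ) - 1) * (k - 1) := by
            rw [Finset.sum_const, Finset.card_erase_of_mem (Finset.mem_univ l), Finset.card_univ,
              Fintype.card_fin, nsmul_eq_mul, Nat.cast_sub hk]
            push_cast; ring
    calc _ ≤ ∑ _l : Fin k, ((p : ℤ) - 1) * (k - 1) := Finset.sum_le_sum fun l _ => h1 l
      _ = _ := by
          rw [Finset.sum_const, Finset.card_univ, Fintype.card_fin, nsmul_eq_mul]; ring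
  have hsum : ∑ x : Fin t, ((2 * (p : ℤ) - 1) * (cnt A x * cnt B x) -
      p * (cnt A x * cnt A x - cnt A x) - p * (cnt B x * cnt B x - cnt B x)) ≤
        ∑ _x : Fin t, (p : ℤ) * p :=
    Finset.sum_le_sum fun x _ => per_point p _ _ (by exact_mod_cast hp)
  rw [Finset.sum_const, Finset.card_univ, Fintype.card_fin, nsmul_eq_mul,
    Finset.sum_sub_distrib, Finset.sum_sub_distrib, ← Finset.mul_sum, ← Finset.mul_sum,
    ← Finset.mul_sum] at hsum
  have h1 := hY α
  have h2 := hY β
  have hp' : (1 : ℤ) ≤ p := by exact_mod_cast hp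
  have h3 : (2 * (p : ℤ) - 1) * (p * (k * (k - 1))) ≤
      (2 * (p : ℤ) - 1) * ∑ x, cnt A x * cnt B x :=
    mul_le_mul_of_nonneg_left hX (by linarith)
  have h4 : (p : ℤ) * ∑ x, (cnt A x * cnt A x - cnt A x) ≤ p * (((p : ℤ) - 1) * (k * (k - 1))) :=
    mul_le_mul_of_nonneg_left h1 (by linarith)
  have h5 : (p : ℤ) * ∑ x, (cnt B x * cnt B x - cnt B x) ≤ p * (((p : ℤ) - 1) * (k * (k - 1))) :=
    mul_le_mul_of_nonneg_left h2 (by linarith)
  have h6 : (p : ℤ) * (k * (k - 1)) ≤ p * (p * t) := by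
    have : (2 * (p : ℤ) - 1) * (p * (k * (k - 1))) - p * (((p : ℤ) - 1) * (k * (k - 1))) -
      p * (((p : ℤ) - 1) * (k * (k - 1))) ≤ t * (p * p) := by linarith
    nlinarith
  have h7 : (k : ℤ) * (k - 1) ≤ p * t := le_of_mul_le_mul_left h6 (by linarith)
  have h8 : ((k * (k - 1) : ℕ) : ℤ) = k * (k - 1) := by
    push_cast [Nat.cast_sub hk]; ring
  have h9 : ((k * (k - 1) : ℕ) : ℤ) ≤ ((p * t : ℕ) : ℤ) := by
    rw [h8]; push_cast; exact h7
  exact_mod_cast h9

/-! ### the construction over a finite ring -/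

section ring

variable {R : Type*} [CommRing R] [Fintype R] [DecidableEq R]

/-- orbit `zB` -/
def orb (B : Finset R) (z : R) : Finset R := B.image fun b => z * b

structure Good (B : Finset R) (p : ℕ) : Prop where
  one_mem : (1 : R) ∈ B
  mul_mem : ∀ b ∈ B, ∀ b' ∈ B, b * b' ∈ B
  inv_mem : ∀ b ∈ B, ∃ b' ∈ B, b * b' = 1
  sub_unit : ∀ b ∈ B, ∀ b' ∈ B, b ≠ b' → IsUnit (b - b')
  card : B.card = p

variable {B : Finset R} {p : ℕ}

theorem mem_orb {z w : R} : w ∈ orb B z ↔ ∃ b ∈ B, z * b = w := by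
  simp [orb]

theorem orb_eq (hB : Good B p) {z w : R} : orb B z = orb B w ↔ ∃ b ∈ B, z * b = w := by
  constructor
  · intro h
    have : w ∈ orb B w := mem_orb.mpr ⟨1, hB.one_mem, by ring⟩
    rw [← h] at this
    exact mem_orb.mp this
  · rintro ⟨b, hb, rfl⟩
    obtain ⟨b', hb', hbb'⟩ := hB.inv_mem b hb
    ext x
    rw [mem_orb, mem_orb]
    constructor
    · rintro ⟨c, hc, rfl⟩
      refine ⟨b' * c, hB.mul_mem _ hb' _ hc, ?_⟩
      calc z * b * (b' * c) = z * (b * b') * c := by ring
        _ = z * c := by rw [hbb', mul_one]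
    · rintro ⟨c, hc, rfl⟩
      exact ⟨b * c, hB.mul_mem _ hb _ hc, by ring⟩

theorem card_orb (hB : Good B p) {z : R} (hz : z ≠ 0) : (orb B z).card = p := by
  unfold orb
  rw [Finset.card_image_of_injOn, hB.card]
  intro b hb b' hb' h
  by_contra hne
  have hu := hB.sub_unit b hb b' hb' hne
  have h1 : z * (b - b') = 0 := by
    have : z * b = z * b' := h
    rw [mul_sub, this, sub_self]
  exact hz (hu.mul_left_eq_zero.mp h1)

/-- the set of orbits of nonzero elements -/
def orbs (B : Finset R) : Finset (Finset R) := (univ.erase 0).image (orb B)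

theorem card_orbs (hB : Good B p) : p * (orbs B).card + 1 = Fintype.card R := by
  have h1 : (univ.erase (0 : R)).card = ∑ O ∈ orbs B, ((univ.erase (0 : R)).filter
      fun z => orb B z = O).card :=
    Finset.card_eq_sum_card_image (orb B) (univ.erase (0 : R))
  have h2 : ∀ O ∈ orbs B, ((univ.erase (0 : R)).filter fun z => orb B z = O).card = p := by
    intro O hO
    unfold orbs at hO
    rw [Finset.mem_image] at hO
    obtain ⟨w, hw, rfl⟩ := hO
    have hw0 : w ≠ 0 := Finset.ne_of_mem_erase hw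
    rw [← card_orb hB hw0]
    congr 1
    ext z
    simp only [Finset.mem_filter, Finset.mem_erase, Finset.mem_univ, and_true]
    constructor
    · rintro ⟨hz, h⟩
      rw [mem_orb]
      exact (orb_eq hB).mp h.symm
    · intro h
      rw [mem_orb] at h
      refine ⟨?_, ((orb_eq hB).mpr h).symm⟩
      obtain ⟨b, hb, rfl⟩ := h
      obtain ⟨b', hb', hbb'⟩ := hB.inv_mem b hb
      intro h0
      apply hw0
      calc w = w * (b * b') := by rw [hbb', mul_one]
        _ = (w * b) * b' := by ring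
        _ = 0 := by rw [h0, zero_mul]
  rw [Finset.sum_congr rfl h2, Finset.sum_const, Finset.card_erase_of_mem (Finset.mem_univ _),
    Finset.card_univ, smul_eq_mul] at h1
  have : 0 < Fintype.card R := Fintype.card_pos_iff.mpr ⟨0⟩
  rw [mul_comm]; omega

/-- index set -/
abbrev Idx (B : Finset R) := {O : Finset R // O ∈ orbs B} × R

/-- the sets of the representation: `(orb (g⁻¹ (ℓ - c)), c)` for `c ≠ ℓ` -/
def SS (B : Finset R) (g : Rˣ) (l : R) : Finset (Idx B) :=
  univ.filter fun x => x.2 ≠ l ∧ x.1.1 = orb B (((g⁻¹ : Rˣ) : R) * (l - x.2))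

/-- main count -/
theorem card_inter (hB : Good B p) (g h : Rˣ) (l m : R) (hlm : l ≠ m)
    (X : Finset R) (hX : X ⊆ B)
    (hXu : ∀ b ∈ X, IsUnit ((h : R) * b - g))
    (hXn : ∀ b ∈ B, b ∉ X → (h : R) * b = g) :
    (SS B g l ∩ SS B h m).card = X.card := by
  symm
  have hv : ∀ b : R, ∃ v : R, b ∈ X → v * ((h : R) * b - g) = 1 := by
    intro b
    by_cases hb : b ∈ X
    · obtain ⟨u, hu⟩ := hXu b hb
      exact ⟨((u⁻¹ : Rˣ) : R), fun _ => by rw [← hu]; simp⟩
    · exact ⟨0, fun h => absurd h hb⟩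
  choose v hv using hv
  have hgg : (g : R) * ((g⁻¹ : Rˣ) : R) = 1 := by simp
  have hhh : (h : R) * ((h⁻¹ : Rˣ) : R) = 1 := by simp
  let w : R → R := fun b => (m - l) * v b
  have hw : ∀ b ∈ X, w b ≠ 0 := by
    intro b hb h0
    apply hlm
    have : (m - l) * v b * ((h : R) * b - g) = 0 := by
      have h0' : (m - l) * v b = 0 := h0
      rw [h0', zero_mul]
    rw [mul_assoc, hv b hb, mul_one] at this
    exact (sub_eq_zero.mp this).symm
  -- identities
  have id2 : ∀ b ∈ X, m - (l - g * w b) = (h : R) * b * w b := by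
    intro b hb
    have h1 := hv b hb
    show m - (l - g * ((m - l) * v b)) = (h : R) * b * ((m - l) * v b)
    linear_combination (-(m - l)) * h1
  refine Finset.card_bij (fun b hb => ((⟨orb B (w b), ?_⟩ : {O : Finset R // O ∈ orbs B}),
    l - g * w b)) ?_ ?_ ?_
  · exact Finset.mem_image_of_mem _ (Finset.mem_erase.mpr ⟨hw b hb, Finset.mem_univ _⟩)
  · intro b hb
    rw [Finset.mem_inter]
    simp only [SS, Finset.mem_filter, Finset.mem_univ, true_and]
    have hne : w b ≠ 0 := hw b hb
    refine ⟨⟨?_, ?_⟩, ?_, ?_⟩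
    · intro h0
      apply hne
      have : (g : R) * w b = 0 := by linear_combination -h0
      have h2 : ((g⁻¹ : Rˣ) : R) * ((g : R) * w b) = 0 := by rw [this, mul_zero]
      rw [← mul_assoc, Units.inv_mul, one_mul] at h2
      exact h2
    · congr 1
      have : l - (l - g * w b) = g * w b := by ring
      rw [this, ← mul_assoc, Units.inv_mul, one_mul]
    · intro h0
      have h1 := id2 b hb
      rw [h0, sub_self] at h1
      apply hne
      obtain ⟨b', hb', hbb'⟩ := hB.inv_mem b (hX hb)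
      have h2 : ((h⁻¹ : Rˣ) : R) * ((h : R) * b * w b) = 0 := by rw [← h1, mul_zero]
      have h2' : b * w b = 0 := by
        calc b * w b = ((h : R) * ((h⁻¹ : Rˣ) : R)) * (b * w b) := by rw [hhh, one_mul]
          _ = ((h⁻¹ : Rˣ) : R) * ((h : R) * b * w b) := by ring
          _ = 0 := h2
      calc w b = (b * b') * w b := by rw [hbb', one_mul]
        _ = b' * (b * w b) := by ring
        _ = 0 := by rw [h2', mul_zero]
    · rw [id2 b hb]
      rw [orb_eq hB]
      refine ⟨b, hX hb, ?_⟩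
      calc w b * b = ((h : R) * ((h⁻¹ : Rˣ) : R)) * (b * w b) := by rw [hhh]; ring
        _ = ((h⁻¹ : Rˣ) : R) * ((h : R) * b * w b) := by ring
  · intro b hb b' hb' heq
    have h1 : l - g * w b = l - g * w b' := congrArg Prod.snd heq
    have h2 : (g : R) * w b = g * w b' := by linear_combination -h1
    have h3 : w b = w b' := by
      have := congrArg (fun x => ((g⁻¹ : Rˣ) : R) * x) h2
      simpa [← mul_assoc] using this
    have h4 := id2 b hb
    have h5 := id2 b' hb'
    rw [← h3] at h5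
    have h6 : (h : R) * ((b - b') * w b) = 0 := by
      linear_combination h5 - h4
    have h7 : (b - b') * w b = 0 := by
      have := congrArg (fun x => ((h⁻¹ : Rˣ) : R) * x) h6
      simpa [← mul_assoc] using this
    by_contra hne
    have hu := hB.sub_unit b (hX hb) b' (hX hb') hne
    exact hw b hb (hu.mul_right_eq_zero.mp h7)
  · rintro ⟨⟨O, hO⟩, c⟩ hx
    rw [Finset.mem_inter] at hx
    simp only [SS, Finset.mem_filter, Finset.mem_univ, true_and] at hx
    obtain ⟨⟨hcl, h1⟩, hcm, h2⟩ := hx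
    rw [h1, orb_eq hB] at h2
    obtain ⟨b, hb, hb2⟩ := h2
    have h3 : (h : R) * b * (l - c) = g * (m - c) := by
      have := congrArg (fun x => (h : R) * g * x) hb2
      have e1 : (h : R) * g * (((g⁻¹ : Rˣ) : R) * (l - c) * b) = (h : R) * b * (l - c) := by
        calc _ = ((g : R) * ((g⁻¹ : Rˣ) : R)) * ((h : R) * b * (l - c)) := by ring
          _ = _ := by rw [hgg, one_mul]
      have e2 : (h : R) * g * (((h⁻¹ : Rˣ) : R) * (m - c)) = g * (m - c) := by
        calc _ = ((h : R) * ((h⁻¹ : Rˣ) : R)) * (g * (m - c)) := by ring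
          _ = _ := by rw [hhh, one_mul]
      rw [← e1, ← e2]
      exact this
    have hbX : b ∈ X := by
      by_contra hbX
      have h4 := hXn b hb hbX
      rw [h4] at h3
      apply hlm
      have := congrArg (fun x => ((g⁻¹ : Rˣ) : R) * x) h3
      simp only [← mul_assoc, Units.inv_mul, one_mul] at this
      linear_combination this
    have h5 : l - c = g * w b := by
      have h6 := hv b hbX
      show l - c = g * ((m - l) * v b)
      have h7 : ((h : R) * b - g) * (l - c) = g * (m - l) := by linear_combination h3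
      linear_combination (-(l - c)) * h6 + v b * h7
    refine ⟨b, hbX, ?_⟩
    have hc : l - g * w b = c := by rw [← h5]; ring
    have ho : orb B (w b) = O := by
      rw [h1, h5, ← mul_assoc, Units.inv_mul, one_mul]
    exact Prod.ext (Subtype.ext ho) hc

/-- the representation of `K(n × k)` over a ring -/
theorem ring_rep (hB : Good B p) (hp : 1 ≤ p) {n k : ℕ} (g : Fin n → Rˣ)
    (hg : ∀ α β, α ≠ β → ∀ b ∈ B, IsUnit ((g β : R) * b - g α)) (e : Fin k ↪ R) :
    ∀ u v : Fin n × Fin k, u ≠ v →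
      ((KK n k).Adj u v ↔ p ≤ (SS B (g u.1) (e u.2) ∩ SS B (g v.1) (e v.2)).card) := by
  rintro ⟨α, l⟩ ⟨β, m⟩ hne
  simp only [KK]
  by_cases hlm : l = m
  · -- same part: no common element
    subst hlm
    have hαβ : α ≠ β := fun h => hne (by rw [h])
    simp only [ne_eq, not_true_eq_false, false_and, false_iff, not_le]
    have : SS B (g α) (e l) ∩ SS B (g β) (e l) = ∅ := by
      rw [Finset.eq_empty_iff_forall_notMem]
      rintro ⟨⟨O, hO⟩, c⟩ hx
      rw [Finset.mem_inter] at hx
      simp only [SS, Finset.mem_filter, Finset.mem_univ, true_and] at hx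
      obtain ⟨⟨hcl, h1⟩, hcm, h2⟩ := hx
      rw [h1, orb_eq hB] at h2
      obtain ⟨b, hb, hb2⟩ := h2
      have hu := hg α β hαβ b hb
      have hgg : (g α : R) * (((g α)⁻¹ : Rˣ) : R) = 1 := by simp
      have hhh : (g β : R) * (((g β)⁻¹ : Rˣ) : R) = 1 := by simp
      have h3 : ((g β : R) * b - g α) * (e l - c) = 0 := by
        have h4 := congrArg (fun x => (g β : R) * g α * x) hb2
        have e1 : (g β : R) * g α * ((((g α)⁻¹ : Rˣ) : R) * (e l - c) * b) =
            (g β : R) * b * (e l - c) := by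
          calc _ = ((g α : R) * (((g α)⁻¹ : Rˣ) : R)) * ((g β : R) * b * (e l - c)) := by ring
            _ = _ := by rw [hgg, one_mul]
        have e2 : (g β : R) * g α * ((((g β)⁻¹ : Rˣ) : R) * (e l - c)) = g α * (e l - c) := by
          calc _ = ((g β : R) * (((g β)⁻¹ : Rˣ) : R)) * (g α * (e l - c)) := by ring
            _ = _ := by rw [hhh, one_mul]
        have h4' : (g β : R) * b * (e l - c) = g α * (e l - c) := by
          rw [← e1, ← e2]; exact h4
        linear_combination h4'
      have h5 := hu.mul_right_eq_zero.mp h3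
      exact hcl (sub_eq_zero.mp h5).symm
    rw [this, Finset.card_empty]
    omega
  · have hlm' : e l ≠ e m := fun h => hlm (e.injective h)
    by_cases hαβ : α = β
    · subst hαβ
      rw [card_inter hB (g α) (g α) (e l) (e m) hlm' (B.erase 1) (Finset.erase_subset _ _)]
      · rw [Finset.card_erase_of_mem hB.one_mem, hB.card]
        simp only [ne_eq, not_true_eq_false, and_false, false_iff, not_le]
        omega
      · intro b hb
        have hb1 : b ≠ 1 := Finset.ne_of_mem_erase hb
        have : (g α : R) * b - g α = g α * (b - 1) := by ring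
        rw [this]
        exact (g α).isUnit.mul (hB.sub_unit b (Finset.mem_of_mem_erase hb) 1 hB.one_mem hb1)
      · intro b hb hbn
        have : b = 1 := by
          by_contra h
          exact hbn (Finset.mem_erase.mpr ⟨h, hb⟩)
        rw [this, mul_one]
    · rw [card_inter hB (g α) (g β) (e l) (e m) hlm' B (Finset.Subset.refl _)]
      · simp [hlm, hαβ, hB.card]
      · exact hg α β hαβ
      · intro b hb hbn
        exact absurd hb hbn

theorem theta_le (hB : Good B p) (hp : 1 ≤ p) {n k : ℕ} (g : Fin n → Rˣ)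
    (hg : ∀ α β, α ≠ β → ∀ b ∈ B, IsUnit ((g β : R) * b - g α)) (hk : k ≤ Fintype.card R) :
    ∃ t : ℕ, (∃ S : Fin n × Fin k → Finset (Fin t), IsRep (KK n k) p t S) ∧
      p * t = (Fintype.card R - 1) * Fintype.card R := by
  have hcard : Fintype.card (Idx B) = (orbs B).card * Fintype.card R := by
    rw [Fintype.card_prod, Fintype.card_coe]
  refine ⟨Fintype.card (Idx B), ?_, ?_⟩
  · obtain ⟨e⟩ : Nonempty (Fin k ↪ R) :=
      Function.Embedding.nonempty_of_card_le (by rwa [Fintype.card_fin])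
    let φ : Idx B ≃ Fin (Fintype.card (Idx B)) := Fintype.equivFin _
    refine ⟨fun u => (SS B (g u.1) (e u.2)).map φ.toEmbedding, ?_⟩
    intro u v huv
    rw [ring_rep hB hp g hg e u v huv, ← Finset.map_inter, Finset.card_map]
  · rw [hcard, ← mul_assoc]
    congr 1
    have := card_orbs hB
    omega

end ring

end Q133.PInt
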