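import Mathlib
import Pool.Agent.Q133.PInt

set_option autoImplicit false

open Finset Filter

namespace Q133.PInt

/-- roots of unity and coset representatives in a finite field -/
theorem field_data (F : Type) [Field F] [Fintype F] [DecidableEq F] (p n M : ℕ)
    (hM : Fintype.card F = p * M + 1) (hn : n ≤ M) (hM1 : 1 ≤ M) :
    ∃ (ζ : F) (g : Fin n → F), ζ ^ p = 1 ∧ (∀ s t, s < p → t < p → s ≠ t → ζ ^ s ≠ ζ ^ t) ∧
      (∀ α, g α ≠ 0) ∧ ∀ α β, α ≠ β → ∀ s, g β * ζ ^ s - g α ≠ 0 := by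
  obtain ⟨x, hx⟩ := IsCyclic.exists_generator (α := Fˣ)
  have hord : orderOf x = p * M := by
    rw [orderOf_eq_card_of_forall_mem_zpowers hx, Nat.card_eq_fintype_card, Fintype.card_units, hM]
    simp
  have hpow : ∀ s t : ℕ, (x : F) ^ s = (x : F) ^ t ↔ s ≡ t [MOD p * M] := by
    intro s t
    rw [← hord, ← pow_eq_pow_iff_modEq]
    constructor
    · intro h; ext; push_cast; exact h
    · intro h
      have := congrArg (fun u : Fˣ => (u : F)) h
      simpa using this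
  refine ⟨(x : F) ^ M, fun α => (x : F) ^ (α : ℕ), ?_, ?_, ?_, ?_⟩
  · rw [← pow_mul, ← pow_zero (x : F), hpow]
    have : M * p = 0 + p * M := by ring
    rw [this]
    exact Nat.ModEq.symm (by simp [Nat.ModEq])
  · intro s t hs ht hst h
    rw [← pow_mul, ← pow_mul, hpow] at h
    have h1 : M * s < p * M := by rw [mul_comm]; exact Nat.mul_lt_mul_of_pos_right hs hM1
    have h2 : M * t < p * M := by rw [mul_comm]; exact Nat.mul_lt_mul_of_pos_right ht hM1
    have h3 : M * s = M * t := Nat.ModEq.eq_of_lt_of_lt h h1 h2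
    exact hst (Nat.eq_of_mul_eq_mul_left hM1 h3)
  · intro α
    exact pow_ne_zero _ (Units.ne_zero x)
  · intro α β hαβ s h
    have h1 : (x : F) ^ ((β : ℕ) + M * s) = (x : F) ^ (α : ℕ) := by
      rw [pow_add, pow_mul]; exact sub_eq_zero.mp h
    rw [hpow] at h1
    have h2 : (β : ℕ) + M * s ≡ α [MOD M] := h1.of_mul_left p
    have h3 : (β : ℕ) ≡ α [MOD M] := by
      have : (β : ℕ) + M * s ≡ β [MOD M] := by simp [Nat.ModEq]
      exact this.symm.trans h2
    have h4 : (β : ℕ) = α :=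
      Nat.ModEq.eq_of_lt_of_lt h3 (lt_of_lt_of_le β.2 hn) (lt_of_lt_of_le α.2 hn)
    exact hαβ (Fin.ext h4.symm)

theorem prod_ring (F F' : Type) [Field F] [Fintype F] [DecidableEq F] [Field F'] [Fintype F']
    [DecidableEq F'] (p n M M' : ℕ) (hp : 1 ≤ p) (hM : Fintype.card F = p * M + 1)
    (hM' : Fintype.card F' = p * M' + 1) (hn : n ≤ M) (hn' : n ≤ M') (hM1 : 1 ≤ M) (hM1' : 1 ≤ M')
    (i j : ℕ) (hij : 1 ≤ i + j) (k : ℕ)
    (hk : k ≤ Fintype.card F ^ i * Fintype.card F' ^ j) :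
    ∃ t : ℕ, (∃ S : Fin n × Fin k → Finset (Fin t), IsRep (KK n k) p t S) ∧
      p * t = (Fintype.card F ^ i * Fintype.card F' ^ j - 1) *
        (Fintype.card F ^ i * Fintype.card F' ^ j) := by
  obtain ⟨ζ, g, h1, h2, h3, h4⟩ := field_data F p n M hM hn hM1
  obtain ⟨ζ', g', h1', h2', h3', h4'⟩ := field_data F' p n M' hM' hn' hM1'
  let R := (Fin i → F) × (Fin j → F')
  have hunit : ∀ (x : F) (y : F'), x ≠ 0 → y ≠ 0 → IsUnit (((fun _ => x), (fun _ => y)) : R) := by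
    intro x y hx hy
    rw [Prod.isUnit_iff, Pi.isUnit_iff, Pi.isUnit_iff]
    exact ⟨fun _ => hx.isUnit, fun _ => hy.isUnit⟩
  let pw : ℕ → R := fun s => ((fun _ => ζ ^ s), (fun _ => ζ' ^ s))
  have hpw : ∀ s t, pw s * pw t = pw (s + t) := by
    intro s t
    exact Prod.ext (funext fun a => (pow_add ζ s t).symm) (funext fun a => (pow_add ζ' s t).symm)
  have hpp : ∀ s, pw s = pw (s % p) := by
    intro s
    have e1 : ζ ^ s = ζ ^ (s % p) := by
      conv_lhs => rw [← Nat.mod_add_div s p, pow_add, pow_mul, h1, one_pow, mul_one]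
    have e2 : ζ' ^ s = ζ' ^ (s % p) := by
      conv_lhs => rw [← Nat.mod_add_div s p, pow_add, pow_mul, h1', one_pow, mul_one]
    simp only [pw, e1, e2]
  have hp0 : pw 0 = 1 := by
    simp only [pw, pow_zero]; rfl
  let B : Finset R := (Finset.range p).image pw
  have hmemB : ∀ s, pw s ∈ B := by
    intro s
    rw [hpp]
    exact Finset.mem_image_of_mem _ (Finset.mem_range.mpr (Nat.mod_lt _ hp))
  have hinj : ∀ s t, s < p → t < p → s ≠ t → pw s ≠ pw t := by
    intro s t hs ht hst h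
    rcases Nat.eq_zero_or_pos i with hi | hi
    · have hj : 0 < j := by omega
      have := congrFun (congrArg Prod.snd h) ⟨0, hj⟩
      exact h2' s t hs ht hst this
    · have := congrFun (congrArg Prod.fst h) ⟨0, hi⟩
      exact h2 s t hs ht hst this
  have hB : Good B p := by
    refine ⟨?_, ?_, ?_, ?_, ?_⟩
    · rw [← hp0]; exact hmemB 0
    · intro b hb b' hb'
      obtain ⟨s, _, rfl⟩ := Finset.mem_image.mp hb
      obtain ⟨t, _, rfl⟩ := Finset.mem_image.mp hb'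
      rw [hpw]; exact hmemB _
    · intro b hb
      obtain ⟨s, hs, rfl⟩ := Finset.mem_image.mp hb
      rw [Finset.mem_range] at hs
      refine ⟨pw (p - s), hmemB _, ?_⟩
      rw [hpw, Nat.add_sub_cancel' hs.le, hpp, Nat.mod_self, hp0]
    · intro b hb b' hb' hne
      obtain ⟨s, hs, rfl⟩ := Finset.mem_image.mp hb
      obtain ⟨t, ht, rfl⟩ := Finset.mem_image.mp hb'
      rw [Finset.mem_range] at hs ht
      have hst : s ≠ t := by rintro rfl; exact hne rfl
      have : pw s - pw t = (((fun _ => ζ ^ s - ζ ^ t), (fun _ => ζ' ^ s - ζ' ^ t)) : R) := rfl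
      rw [this]
      exact hunit _ _ (sub_ne_zero.mpr (h2 s t hs ht hst)) (sub_ne_zero.mpr (h2' s t hs ht hst))
    · rw [Finset.card_image_of_injOn, Finset.card_range]
      intro s hs t ht h
      by_contra hst
      exact hinj s t (by simpa using hs) (by simpa using ht) hst h
  let G : Fin n → Rˣ := fun α => (hunit (g α) (g' α) (h3 α) (h3' α)).unit
  have hG : ∀ α β, α ≠ β → ∀ b ∈ B, IsUnit ((G β : R) * b - G α) := by
    intro α β hαβ b hb
    obtain ⟨s, _, rfl⟩ := Finset.mem_image.mp hb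
    have : ((G β : R) * pw s - G α) =
        (((fun _ => g β * ζ ^ s - g α), (fun _ => g' β * ζ' ^ s - g' α)) : R) := by
      simp only [G, IsUnit.unit_spec, pw]
      rfl
    rw [this]
    exact hunit _ _ (h4 α β hαβ s) (h4' α β hαβ s)
  have hcard : Fintype.card R = Fintype.card F ^ i * Fintype.card F' ^ j := by
    simp [R]
  have := theta_le (R := R) hB hp G hG (k := k) (by rw [hcard]; exact hk)
  rw [hcard] at this
  exact this

theorem theta_le_of_rep {n k p t : ℕ}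
    (h : ∃ S : Fin n × Fin k → Finset (Fin t), IsRep (KK n k) p t S) : theta p (KK n k) ≤ t :=
  Nat.sInf_le h

theorem le_theta {n k p t : ℕ} (hn : 2 ≤ n) (hp : 1 ≤ p)
    (h : ∃ S : Fin n × Fin k → Finset (Fin t), IsRep (KK n k) p t S) :
    k * (k - 1) ≤ p * theta p (KK n k) := by
  have hne : {t | ∃ S : Fin n × Fin k → Finset (Fin t), IsRep (KK n k) p t S}.Nonempty := ⟨t, h⟩
  obtain ⟨S, hS⟩ := Nat.sInf_mem hne
  exact lower hn hp hS

/-- between `k` and `(1+ε)k` there is a number `q^i r^j` -/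
theorem dense_aux {q r : ℕ} (hr : 2 ≤ r) {ε : ℝ} (hε : 0 < ε) {u v : ℕ}
    (h1 : (r : ℝ) ^ v < (q : ℝ) ^ u) (h2 : (q : ℝ) ^ u < (1 + ε) * (r : ℝ) ^ v) :
    ∃ k0 : ℕ, ∀ k : ℕ, k0 ≤ k → ∃ i j : ℕ, 1 ≤ i + j ∧ k ≤ q ^ i * r ^ j ∧
      ((q ^ i * r ^ j : ℕ) : ℝ) ≤ (1 + ε) * k := by
  -- ρ = q^u / r^v > 1
  set ρ : ℝ := (q : ℝ) ^ u / (r : ℝ) ^ v with hρ
  have hrpos : (0 : ℝ) < r := by positivity
  have hrv : (0 : ℝ) < (r : ℝ) ^ v := by positivity
  have hρ1 : 1 < ρ := by rw [hρ, one_lt_div hrv]; exact h1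
  have hρ2 : ρ < 1 + ε := by rw [hρ, div_lt_iff₀ hrv]; exact h2
  obtain ⟨s0, hs0⟩ := pow_unbounded_of_one_lt (r : ℝ) hρ1
  -- k large : M ≥ s0 * v
  refine ⟨r ^ (s0 * v + 1), fun k hk => ?_⟩
  have hk0 : k ≠ 0 := by
    have : 0 < r ^ (s0 * v + 1) := by positivity
    omega
  set M := Nat.log r k with hM
  have hM1 : r ^ M ≤ k := Nat.pow_log_le_self r hk0
  have hM2 : k < r ^ (M + 1) := Nat.lt_pow_succ_log_self (by omega) k
  have hMge : s0 * v + 1 ≤ M := (Nat.le_log_iff_pow_le (by omega) hk0).mpr hk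
  -- smallest s with r^M ρ^s ≥ k
  have hex : ∃ s, (k : ℝ) ≤ (r : ℝ) ^ M * ρ ^ s := by
    refine ⟨s0, ?_⟩
    have : (k : ℝ) ≤ (r : ℝ) ^ (M + 1) := by exact_mod_cast hM2.le
    rw [pow_succ] at this
    exact this.trans (mul_le_mul_of_nonneg_left hs0.le (by positivity))
  classical
  set s := Nat.find hex with hs
  have hs1 : (k : ℝ) ≤ (r : ℝ) ^ M * ρ ^ s := Nat.find_spec hex
  have hsle : s ≤ s0 := by
    apply Nat.find_min'
    have : (k : ℝ) ≤ (r : ℝ) ^ (M + 1) := by exact_mod_cast hM2.le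
    rw [pow_succ] at this
    exact this.trans (mul_le_mul_of_nonneg_left hs0.le (by positivity))
  have hsv : s * v ≤ M := (Nat.mul_le_mul_right v hsle).trans (by omega)
  have hval : (r : ℝ) ^ M * ρ ^ s = ((q ^ (u * s) * r ^ (M - s * v) : ℕ) : ℝ) := by
    push_cast
    rw [hρ, div_pow, ← pow_mul, ← pow_mul]
    have : (r : ℝ) ^ M = (r : ℝ) ^ (M - s * v) * (r : ℝ) ^ (v * s) := by
      rw [← pow_add]; congr 1; rw [mul_comm v s]; omega
    rw [this]
    field_simp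
  refine ⟨u * s, M - s * v, ?_, ?_, ?_⟩
  · by_contra hcon
    have h3 : M - s * v = 0 := by omega
    have h4 : s * v ≤ s0 * v := Nat.mul_le_mul_right v hsle
    omega
  · rw [hval] at hs1
    exact_mod_cast hs1
  · rw [← hval]
    rcases Nat.eq_zero_or_pos s with h0 | h0
    · rw [h0, pow_zero, mul_one]
      have : (r : ℝ) ^ M ≤ k := by exact_mod_cast hM1
      nlinarith [this, (Nat.cast_nonneg k : (0 : ℝ) ≤ k)]
    · have hmin := Nat.find_min hex (m := s - 1) (by omega)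
      push Not at hmin
      have e : ρ ^ s = ρ ^ (s - 1) * ρ := by
        rw [← pow_succ]; congr 1; omega
      rw [e]
      have hk' : (0 : ℝ) ≤ k := Nat.cast_nonneg k
      calc (r : ℝ) ^ M * (ρ ^ (s - 1) * ρ) = ((r : ℝ) ^ M * ρ ^ (s - 1)) * ρ := by ring
        _ ≤ k * (1 + ε) := mul_le_mul hmin.le hρ2.le (by linarith) hk'
        _ = (1 + ε) * k := by ring

theorem dense {q r : ℕ} (hq : q.Prime) (hr : r.Prime) (hqr : q ≠ r) {ε : ℝ} (hε : 0 < ε)
    (hε1 : ε ≤ 1) :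
    ∃ k0 : ℕ, ∀ k : ℕ, k0 ≤ k → ∃ i j : ℕ, 1 ≤ i + j ∧ k ≤ q ^ i * r ^ j ∧
      ((q ^ i * r ^ j : ℕ) : ℝ) ≤ (1 + ε) * k := by
  have hlq : 0 < Real.log q := Real.log_pos (by exact_mod_cast hq.one_lt)
  have hlr : 0 < Real.log r := Real.log_pos (by exact_mod_cast hr.one_lt)
  have hle : 0 < Real.log (1 + ε) := Real.log_pos (by linarith)
  obtain ⟨N, hN⟩ := exists_nat_gt (Real.log r / Real.log (1 + ε))
  have hN1 : 0 < N + 1 := Nat.succ_pos N
  obtain ⟨a, b, hb0, _, hab⟩ := Real.exists_int_int_abs_mul_sub_le (Real.log q / Real.log r) hN1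
  -- b : multiplier (positive), a : nearest integer
  have hN2 : Real.log r / ((N + 1 : ℕ) + 1 : ℝ) < Real.log (1 + ε) := by
    have h1 : (0 : ℝ) < ((N + 1 : ℕ) + 1 : ℝ) := by positivity
    rw [div_lt_iff₀ h1]
    rw [div_lt_iff₀ hle] at hN
    push_cast
    nlinarith
  have hdiff : |(b : ℝ) * Real.log q - a * Real.log r| < Real.log (1 + ε) := by
    have e : (b : ℝ) * Real.log q - a * Real.log r =
        (b * (Real.log q / Real.log r) - a) * Real.log r := by
      field_simp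
    rw [e, abs_mul, abs_of_pos hlr]
    refine lt_of_le_of_lt (mul_le_mul_of_nonneg_right hab hlr.le) ?_
    rw [one_div, ← div_eq_inv_mul]
    exact hN2
  have hb1 : (1 : ℝ) ≤ b := by exact_mod_cast hb0
  have hapos : 0 < a := by
    by_contra hcon
    push Not at hcon
    have h1 : (a : ℝ) * Real.log r ≤ 0 :=
      mul_nonpos_of_nonpos_of_nonneg (by exact_mod_cast hcon) hlr.le
    have h2 : Real.log (1 + ε) ≤ Real.log q := by
      apply Real.log_le_log (by linarith)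
      have : (2 : ℝ) ≤ q := by exact_mod_cast hq.two_le
      linarith
    have h3 : Real.log q ≤ b * Real.log q := by nlinarith
    have h4 := (abs_lt.mp hdiff).2
    linarith
  obtain ⟨u, rfl⟩ := Int.eq_ofNat_of_zero_le hb0.le
  obtain ⟨v, rfl⟩ := Int.eq_ofNat_of_zero_le hapos.le
  have hu : 1 ≤ u := by exact_mod_cast hb0
  have hv : 1 ≤ v := by exact_mod_cast hapos
  simp only [Int.cast_natCast] at hdiff
  have hqpos : (0 : ℝ) < q := by exact_mod_cast hq.pos
  have hrpos : (0 : ℝ) < r := by exact_mod_cast hr.pos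
  have hne : (q : ℝ) ^ u ≠ (r : ℝ) ^ v := by
    intro h
    have h' : q ^ u = r ^ v := by exact_mod_cast h
    have h1 : q ∣ r ^ v := by rw [← h']; exact dvd_pow_self q (by omega)
    exact hqr ((Nat.prime_dvd_prime_iff_eq hq hr).mp (hq.dvd_of_dvd_pow h1))
  have hlogu : Real.log ((q : ℝ) ^ u) = u * Real.log q := Real.log_pow _ _
  have hlogv : Real.log ((r : ℝ) ^ v) = v * Real.log r := Real.log_pow _ _
  have hqu : (0 : ℝ) < (q : ℝ) ^ u := by positivity
  have hrv : (0 : ℝ) < (r : ℝ) ^ v := by positivity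
  rcases lt_or_gt_of_ne hne with hlt | hgt
  · -- q^u < r^v
    have h2 : (r : ℝ) ^ v < (1 + ε) * (q : ℝ) ^ u := by
      rw [← Real.log_lt_log_iff hrv (by positivity), Real.log_mul (by positivity) hqu.ne',
        hlogu, hlogv]
      have := (abs_lt.mp hdiff).1
      linarith
    obtain ⟨k0, hk0⟩ := dense_aux hq.two_le hε hlt h2
    refine ⟨k0, fun k hk => ?_⟩
    obtain ⟨i, j, h3, h4, h5⟩ := hk0 k hk
    refine ⟨j, i, by omega, ?_, ?_⟩
    · rw [mul_comm]; exact h4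
    · rw [mul_comm (q ^ j)]; exact h5
  · have h2 : (q : ℝ) ^ u < (1 + ε) * (r : ℝ) ^ v := by
      rw [← Real.log_lt_log_iff hqu (by positivity), Real.log_mul (by positivity) hrv.ne',
        hlogu, hlogv]
      have := (abs_lt.mp hdiff).2
      linarith
    exact dense_aux hr.two_le hε hgt h2

/-- for every `ε` and all large `k`: `k(k-1) ≤ p θ ≤ ((1+ε)k)^2` -/
theorem bounds {n p : ℕ} (hn : 2 ≤ n) (hp : 1 ≤ p) {ε : ℝ} (hε : 0 < ε) (hε1 : ε ≤ 1) :
    ∃ k0 : ℕ, ∀ k : ℕ, k0 ≤ k → k * (k - 1) ≤ p * theta p (KK n k) ∧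
      ((p * theta p (KK n k) : ℕ) : ℝ) ≤ ((1 + ε) * k) ^ 2 := by
  obtain ⟨q, hq, hqn, hq1⟩ := Nat.exists_prime_gt_modEq_one (k := p) (n * p + p) (by omega)
  obtain ⟨r, hr, hrn, hr1⟩ := Nat.exists_prime_gt_modEq_one (k := p) (max q (n * p + p)) (by omega)
  have hqr : q ≠ r := by
    have := le_max_left q (n * p + p)
    omega
  have hrn' : n * p + p < r := lt_of_le_of_lt (le_max_right _ _) hrn
  have := Fact.mk hq
  have := Fact.mk hr
  have getM : ∀ x : ℕ, n * p + p < x → x ≡ 1 [MOD p] → ∃ M, x = p * M + 1 ∧ n ≤ M ∧ 1 ≤ M := by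
    intro x hx h1
    have h2 : p ∣ x - 1 := (Nat.modEq_iff_dvd' (by omega)).mp h1.symm
    obtain ⟨M, hM⟩ := h2
    have h3 : x = p * M + 1 := by omega
    have h4 : n + 1 ≤ M := by
      by_contra hcon
      push Not at hcon
      have : p * M ≤ p * n := Nat.mul_le_mul_left p (by omega)
      have h5 : p * n = n * p := mul_comm _ _
      omega
    exact ⟨M, h3, by omega, by omega⟩
  obtain ⟨M, hM, hnM, hM1⟩ := getM q hqn hq1
  obtain ⟨M', hM', hnM', hM1'⟩ := getM r hrn' hr1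
  obtain ⟨k0, hk0⟩ := dense hq hr hqr hε hε1
  refine ⟨k0, fun k hk => ?_⟩
  obtain ⟨i, j, hij, hk1, hk2⟩ := hk0 k hk
  obtain ⟨t, hS, ht⟩ := prod_ring (ZMod q) (ZMod r) p n M M' hp (by rw [ZMod.card, hM])
    (by rw [ZMod.card, hM']) hnM hnM' hM1 hM1' i j hij k (by rw [ZMod.card, ZMod.card]; exact hk1)
  rw [ZMod.card, ZMod.card] at ht
  refine ⟨le_theta hn hp hS, ?_⟩
  have h1 : p * theta p (KK n k) ≤ (q ^ i * r ^ j) * (q ^ i * r ^ j) := by
    refine (Nat.mul_le_mul_left p (theta_le_of_rep hS)).trans ?_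
    rw [ht]
    exact Nat.mul_le_mul_right _ (Nat.sub_le _ _)
  have h2 : ((p * theta p (KK n k) : ℕ) : ℝ) ≤
      ((q ^ i * r ^ j : ℕ) : ℝ) * ((q ^ i * r ^ j : ℕ) : ℝ) := by exact_mod_cast h1
  refine h2.trans ?_
  rw [← sq]
  exact pow_le_pow_left₀ (Nat.cast_nonneg _) hk2 2

theorem asymptotics {n p : ℕ} (hn : 2 ≤ n) (hp : 1 ≤ p) :
    Tendsto (fun k : ℕ => (theta p (KK n k) : ℝ) / ((k : ℝ) ^ 2 / p)) atTop (nhds 1) := by
  rw [Metric.tendsto_atTop]
  intro δ hδ
  set ε : ℝ := min 1 (δ / 4) with hεdef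
  have hε : 0 < ε := lt_min one_pos (by linarith)
  have hε1 : ε ≤ 1 := min_le_left _ _
  have hε2 : ε ≤ δ / 4 := min_le_right _ _
  obtain ⟨k0, hk0⟩ := bounds (n := n) hn hp hε hε1
  obtain ⟨k1, hk1⟩ := exists_nat_gt (1 / δ)
  refine ⟨max k0 (k1 + 1), fun k hk => ?_⟩
  have hkk0 : k0 ≤ k := le_trans (le_max_left _ _) hk
  have hkk1 : k1 + 1 ≤ k := le_trans (le_max_right _ _) hk
  have hkpos : (0 : ℝ) < k := by
    have : 0 < k := by omega
    exact_mod_cast this
  have hppos : (0 : ℝ) < p := by exact_mod_cast hp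
  obtain ⟨h1, h2⟩ := hk0 k hkk0
  have e : (theta p (KK n k) : ℝ) / ((k : ℝ) ^ 2 / p) =
      ((p * theta p (KK n k) : ℕ) : ℝ) / (k : ℝ) ^ 2 := by
    push_cast
    field_simp
  rw [e, Real.dist_eq, abs_lt]
  have hk2 : (0 : ℝ) < (k : ℝ) ^ 2 := by positivity
  constructor
  · have h3 : (k : ℝ) * (k - 1) ≤ ((p * theta p (KK n k) : ℕ) : ℝ) := by
      have h4 : ((k * (k - 1) : ℕ) : ℝ) ≤ ((p * theta p (KK n k) : ℕ) : ℝ) := by exact_mod_cast h1
      rw [Nat.cast_mul, Nat.cast_sub (by omega)] at h4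
      simpa using h4
    have h5 : 1 - δ < ((p * theta p (KK n k) : ℕ) : ℝ) / (k : ℝ) ^ 2 := by
      rw [lt_div_iff₀ hk2]
      have h6 : 1 < δ * k := by
        have : (k1 : ℝ) ≤ k := by
          have : k1 ≤ k := by omega
          exact_mod_cast this
        have h7 : 1 / δ < k := lt_of_lt_of_le hk1 this
        rw [div_lt_iff₀ hδ] at h7
        linarith
      nlinarith
    linarith
  · have h5 : ((p * theta p (KK n k) : ℕ) : ℝ) / (k : ℝ) ^ 2 < 1 + δ := by
      rw [div_lt_iff₀ hk2]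
      have h6 : ((1 + ε) * k) ^ 2 = (1 + ε) ^ 2 * (k : ℝ) ^ 2 := by ring
      have h7 : (1 + ε) ^ 2 < 1 + δ := by nlinarith
      rw [h6] at h2
      exact lt_of_le_of_lt h2 (mul_lt_mul_of_pos_right h7 hk2)
    linarith

/-- exact value: if `k` is prime, `k ≡ 1 (mod p)` and `k > (n + 1) p`, then `p θ = k (k-1)` -/
theorem exact_prime {n p k : ℕ} (hn : 2 ≤ n) (hp : 1 ≤ p) (hk : k.Prime) (h1 : k ≡ 1 [MOD p])
    (hkn : n * p < k) : p * theta p (KK n k) = k * (k - 1) := by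
  have := Fact.mk hk
  have h2 : p ∣ k - 1 := (Nat.modEq_iff_dvd' hk.one_lt.le).mp h1.symm
  obtain ⟨M, hM⟩ := h2
  have h3 : k = p * M + 1 := by have := hk.one_lt; omega
  have h4 : n ≤ M := by
    by_contra hcon
    push Not at hcon
    have : p * (M + 1) ≤ p * n := Nat.mul_le_mul_left p (by omega)
    have h5 : p * n = n * p := mul_comm _ _
    have h6 : p * (M + 1) = p * M + p := by ring
    omega
  obtain ⟨t, hS, ht⟩ := prod_ring (ZMod k) (ZMod k) p n M M hp (by rw [ZMod.card, ← h3])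
    (by rw [ZMod.card, ← h3]) h4 h4 (by omega) (by omega) 1 0 (by norm_num) k (by simp [ZMod.card])
  rw [ZMod.card] at ht
  apply le_antisymm
  · refine (Nat.mul_le_mul_left p (theta_le_of_rep hS)).trans (le_of_eq ?_)
    rw [ht]; simp [mul_comm]
  · exact le_theta hn hp hS

end Q133.PInt
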