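import Mathlib

set_option autoImplicit false

open Finset Matrix

set_option linter.unusedSectionVars false

namespace Q133.PermQ

section cone

variable {ι R : Type*} [Fintype ι] [DecidableEq ι] [AddCommGroup ι] [CommRing R]

/-- matrix bordered by a row and a column `r` -/
def bord (h : R) (r : ι → R) (C : ι → ι → R) : Matrix (Option ι) (Option ι) R :=
  fun u v => match u, v with
  | none, none => h
  | none, some j => r j
  | some i, none => r i
  | some i, some j => C i j

/-- the term of a permutation when `r = 1` -/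
def T (h : R) (C : ι → ι → R) (σ : Equiv.Perm (Option ι)) : R :=
  ∏ v, bord h (fun _ => 1) C (σ v) v

def F (h : R) (C : ι → ι → R) (i j : ι) : R :=
  ∑ σ ∈ (univ : Finset (Equiv.Perm (Option ι))).filter
    (fun σ => σ none = some j ∧ σ.symm none = some i), T h C σ

theorem term_none (h : R) (r : ι → R) (C : ι → ι → R) (σ : Equiv.Perm (Option ι))
    (hσ : σ none = none) : ∏ v, bord h r C (σ v) v = T h C σ := by
  unfold T
  refine Finset.prod_congr rfl fun v _ => ?_
  cases v with
  | none => rw [hσ]; rfl
  | some k =>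
    have : σ (some k) ≠ none := by
      intro h; rw [← hσ] at h; exact absurd (σ.injective h) (by simp)
    obtain ⟨l, hl⟩ := Option.ne_none_iff_exists'.mp this
    rw [hl]; rfl

theorem term_some (h : R) (r : ι → R) (C : ι → ι → R) (σ : Equiv.Perm (Option ι)) (i j : ι)
    (hj : σ none = some j) (hi : σ.symm none = some i) :
    ∏ v, bord h r C (σ v) v = r j * r i * T h C σ := by
  have hi' : σ (some i) = none := by rw [← hi]; simp
  unfold T
  rw [Fintype.prod_option, Fintype.prod_option, hj]
  rw [← Finset.mul_prod_erase univ _ (Finset.mem_univ i),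
    ← Finset.mul_prod_erase univ (fun k => bord h (fun _ => 1) C (σ (some k)) (some k))
      (Finset.mem_univ i), hi']
  have : ∏ k ∈ univ.erase i, bord h r C (σ (some k)) (some k) =
      ∏ k ∈ univ.erase i, bord h (fun _ => 1) C (σ (some k)) (some k) := by
    refine Finset.prod_congr rfl fun k hk => ?_
    have hki : k ≠ i := Finset.ne_of_mem_erase hk
    have : σ (some k) ≠ none := by
      intro h; rw [← hi'] at h; exact hki (by simpa using σ.injective h)
    obtain ⟨l, hl⟩ := Option.ne_none_iff_exists'.mp this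
    rw [hl]; rfl
  rw [this]
  simp only [bord]
  ring

theorem perm_bord (h : R) (r : ι → R) (C : ι → ι → R) :
    (bord h r C).permanent =
      (∑ σ ∈ (univ : Finset (Equiv.Perm (Option ι))).filter (fun σ => σ none = none), T h C σ) +
        ∑ i, ∑ j, r i * r j * F h C i j := by
  unfold Matrix.permanent
  rw [← Finset.sum_filter_add_sum_filter_not univ (fun σ : Equiv.Perm (Option ι) => σ none = none)]
  congr 1
  · refine Finset.sum_congr rfl fun σ hσ => ?_
    exact term_none h r C σ (Finset.mem_filter.mp hσ).2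
  · have hF : ∀ i j, r i * r j * F h C i j =
        ∑ σ ∈ (univ : Finset (Equiv.Perm (Option ι))).filter
          (fun σ => σ none = some j ∧ σ.symm none = some i), ∏ v, bord h r C (σ v) v := by
      intro i j
      unfold F
      rw [Finset.mul_sum]
      refine Finset.sum_congr rfl fun σ hσ => ?_
      rw [Finset.mem_filter] at hσ
      rw [term_some h r C σ i j hσ.2.1 hσ.2.2]
      ring
    simp only [hF]
    rw [Finset.sum_comm]
    rw [← Finset.sum_product']
    rw [← Finset.sum_biUnion]
    · refine Finset.sum_congr ?_ fun _ _ => rfl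
      ext σ
      simp only [Finset.mem_filter, Finset.mem_univ, true_and, Finset.mem_biUnion,
        Finset.mem_product, Prod.exists]
      constructor
      · intro hσ
        obtain ⟨j, hj⟩ := Option.ne_none_iff_exists'.mp hσ
        have h2 : σ.symm none ≠ none := by
          intro h; apply hσ
          have := congrArg σ h
          simpa using this.symm
        obtain ⟨i, hi⟩ := Option.ne_none_iff_exists'.mp h2
        exact ⟨j, i, hj, hi⟩
      · rintro ⟨j, i, hj, _⟩
        rw [hj]; simp
    · rintro ⟨a, b⟩ _ ⟨c, d⟩ _ hne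
      rw [Function.onFun, Finset.disjoint_left]
      intro σ h1 h2
      simp only [Finset.mem_filter, Finset.mem_univ, true_and] at h1 h2
      apply hne
      have e1 := h1.1.symm.trans h2.1
      have e2 := h1.2.symm.trans h2.2
      simp at e1 e2
      rw [e1, e2]

theorem F_shift (h : R) (C : ι → ι → R) (hC : ∀ c i j, C (i + c) (j + c) = C i j) (c i j : ι) :
    F h C (i + c) (j + c) = F h C i j := by
  unfold F
  set s : Equiv.Perm (Option ι) := Equiv.optionCongr (Equiv.addRight c) with hs
  have s_none : s none = none := rfl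
  have s_some : ∀ k, s (some k) = some (k + c) := fun k => rfl
  have ss_none : s.symm none = none := rfl
  have ss_some : ∀ k, s.symm (some (k + c)) = some k := by
    intro k; rw [← s_some]; simp
  symm
  refine Finset.sum_equiv (Equiv.mk (fun σ => (s.symm.trans σ).trans s)
    (fun σ => (s.trans σ).trans s.symm) ?_ ?_) ?_ ?_
  · intro σ; ext1 v; simp
  · intro σ; ext1 v; simp
  · intro σ
    simp only [Finset.mem_filter, Finset.mem_univ, true_and, Equiv.coe_fn_mk,
      Equiv.trans_apply, Equiv.symm_trans_apply, Equiv.symm_symm, ss_none]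
    constructor
    · rintro ⟨h1, h2⟩
      rw [h1, h2]
      exact ⟨s_some j, s_some i⟩
    · rintro ⟨h1, h2⟩
      rw [← s_some] at h1 h2
      exact ⟨s.injective h1, s.injective h2⟩
  · intro σ _
    unfold T
    simp only [Equiv.coe_fn_mk, Equiv.trans_apply]
    rw [← Equiv.prod_comp s (fun v => bord h (fun _ => 1) C (s (σ (s.symm v))) v)]
    refine Finset.prod_congr rfl fun v _ => ?_
    simp only [Equiv.symm_apply_apply]
    cases v with
    | none =>
      cases σ none with
      | none => rfl
      | some k => rfl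
    | some l =>
      cases σ (some l) with
      | none => rfl
      | some k => exact (hC c k l).symm

/-- the permanent of a bordered shift-invariant matrix only depends on the autocorrelation of the
border -/
theorem perm_eq_of_homometric (h : R) (C : ι → ι → R) (hC : ∀ c i j, C (i + c) (j + c) = C i j)
    (r r' : ι → R) (hr : ∀ d, ∑ i, r i * r (i + d) = ∑ i, r' i * r' (i + d)) :
    (bord h r C).permanent = (bord h r' C).permanent := by
  have key : ∀ q : ι → R, ∑ i, ∑ j, q i * q j * F h C i j =
      ∑ d, F h C 0 d * ∑ i, q i * q (i + d) := by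
    intro q
    have e1 : ∀ i, ∑ j, q i * q j * F h C i j = ∑ d, q i * q (i + d) * F h C 0 d := by
      intro i
      rw [← Equiv.sum_comp (Equiv.addLeft i) (fun j => q i * q j * F h C i j)]
      refine Finset.sum_congr rfl fun d _ => ?_
      have := F_shift h C hC i 0 d
      simp only [Equiv.coe_addLeft]
      rw [← this, zero_add, add_comm d i]
    simp only [e1]
    rw [Finset.sum_comm]
    refine Finset.sum_congr rfl fun d _ => ?_
    rw [Finset.mul_sum]
    refine Finset.sum_congr rfl fun i _ => ?_
    ring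
  rw [perm_bord, perm_bord, key, key]
  simp only [hr]

end cone

/-! ### the polynomial `Q` -/

/-- the operator `ω` on `ℚ[x,λ,μ]`: linear, `ω(x^a λ^b μ^r) = x^a λ^b μ^r / r!` -/
noncomputable def omega : MvPolynomial (Fin 3) ℚ →ₗ[ℚ] MvPolynomial (Fin 3) ℚ :=
  (MvPolynomial.basisMonomials (Fin 3) ℚ).constr ℚ
    fun m => MvPolynomial.monomial m (1 / ((m 2).factorial : ℚ))

/-- `x I + λ A + μ J`, with `x = X 0`, `λ = X 1`, `μ = X 2` -/
noncomputable def qMatrix {V : Type*} [DecidableEq V] (G : SimpleGraph V)
    [DecidableRel G.Adj] : Matrix V V (MvPolynomial (Fin 3) ℚ) :=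
  (MvPolynomial.X 0 : MvPolynomial (Fin 3) ℚ) • (1 : Matrix V V (MvPolynomial (Fin 3) ℚ)) +
    (MvPolynomial.X 1 : MvPolynomial (Fin 3) ℚ) • G.adjMatrix (MvPolynomial (Fin 3) ℚ) +
    (MvPolynomial.X 2 : MvPolynomial (Fin 3) ℚ) • Matrix.of (fun _ _ => 1)

/-- `Q(G) = ω per (x I + λ A + μ J)` -/
noncomputable def Q {V : Type*} [Fintype V] [DecidableEq V] (G : SimpleGraph V)
    [DecidableRel G.Adj] : MvPolynomial (Fin 3) ℚ :=
  omega (qMatrix G).permanent

/-- the wheel-like graph: the cycle on `ZMod 8` and a hub (`none`) joined to `S` -/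
def cone (S : Finset (ZMod 8)) : SimpleGraph (Option (ZMod 8)) where
  Adj u v := match u, v with
    | none, none => False
    | none, some j => j ∈ S
    | some i, none => i ∈ S
    | some i, some j => j = i + 1 ∨ i = j + 1
  symm := ⟨by
    rintro (_ | i) (_ | j) h
    · exact h
    · exact h
    · exact h
    · exact h.symm⟩
  loopless := ⟨by
    rintro (_ | i) h
    · exact h
    · have : ∀ i : ZMod 8, ¬ (i = i + 1 ∨ i = i + 1) := by decide
      exact this i h⟩

instance (S : Finset (ZMod 8)) : DecidableRel (cone S).Adj := by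
  rintro (_ | i) (_ | j)
  · exact inferInstanceAs (Decidable False)
  · exact inferInstanceAs (Decidable (j ∈ S))
  · exact inferInstanceAs (Decidable (i ∈ S))
  · exact inferInstanceAs (Decidable (j = i + 1 ∨ i = j + 1))

def S1 : Finset (ZMod 8) := {0, 1, 4, 7}
def S2 : Finset (ZMod 8) := {0, 4, 5, 7}

theorem cone_ns (S : Finset (ZMod 8)) (j : ZMod 8) : (cone S).Adj none (some j) ↔ j ∈ S := Iff.rfl
theorem cone_sn (S : Finset (ZMod 8)) (j : ZMod 8) : (cone S).Adj (some j) none ↔ j ∈ S := Iff.rfl
theorem cone_ss (S : Finset (ZMod 8)) (i j : ZMod 8) :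
    (cone S).Adj (some i) (some j) ↔ j = i + 1 ∨ i = j + 1 := Iff.rfl

theorem qMatrix_cone (S : Finset (ZMod 8)) :
    qMatrix (cone S) = bord (MvPolynomial.X 0 + MvPolynomial.X 2)
      (fun i => (if i ∈ S then MvPolynomial.X 1 else 0) + MvPolynomial.X 2)
      (fun i j => (if i = j then MvPolynomial.X 0 else 0) +
        (if j = i + 1 ∨ i = j + 1 then MvPolynomial.X 1 else 0) + MvPolynomial.X 2) := by
  ext1 u v
  rcases u with _ | i <;> rcases v with _ | j
  · simp [qMatrix, bord]
  · simp [qMatrix, bord, SimpleGraph.adjMatrix_apply, cone_ns]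
  · simp [qMatrix, bord, SimpleGraph.adjMatrix_apply, cone_sn]
  · simp [qMatrix, bord, SimpleGraph.adjMatrix_apply, cone_ss, Matrix.one_apply]

theorem autocorr (S : Finset (ZMod 8)) (d : ZMod 8) :
    ∑ i : ZMod 8, ((if i ∈ S then (MvPolynomial.X 1 : MvPolynomial (Fin 3) ℚ) else 0) +
        MvPolynomial.X 2) * ((if i + d ∈ S then MvPolynomial.X 1 else 0) + MvPolynomial.X 2) =
      ((univ.filter (fun i : ZMod 8 => i ∈ S ∧ i + d ∈ S)).card : MvPolynomial (Fin 3) ℚ) *
        MvPolynomial.X 1 ^ 2 + 2 * (S.card : MvPolynomial (Fin 3) ℚ) *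
          MvPolynomial.X 1 * MvPolynomial.X 2 + 8 * MvPolynomial.X 2 ^ 2 := by
  have h1 : ∀ i : ZMod 8, ((if i ∈ S then (MvPolynomial.X 1 : MvPolynomial (Fin 3) ℚ) else 0) +
        MvPolynomial.X 2) * ((if i + d ∈ S then MvPolynomial.X 1 else 0) + MvPolynomial.X 2) =
        (if i ∈ S ∧ i + d ∈ S then MvPolynomial.X 1 ^ 2 else 0) +
        (if i ∈ S then MvPolynomial.X 1 * MvPolynomial.X 2 else 0) +
        (if i + d ∈ S then MvPolynomial.X 1 * MvPolynomial.X 2 else 0) +
        MvPolynomial.X 2 ^ 2 := by
    intro i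
    by_cases hi : i ∈ S <;> by_cases hj : i + d ∈ S <;> simp [hi, hj] <;> ring
  simp only [h1, Finset.sum_add_distrib]
  rw [← Finset.sum_filter, Finset.sum_const, ← Finset.sum_filter, Finset.sum_const]
  have h2 : ∑ i : ZMod 8, (if i + d ∈ S then
      (MvPolynomial.X 1 * MvPolynomial.X 2 : MvPolynomial (Fin 3) ℚ) else 0) =
      ∑ i : ZMod 8, (if i ∈ S then MvPolynomial.X 1 * MvPolynomial.X 2 else 0) :=
    Equiv.sum_comp (Equiv.addRight d) (fun i => if i ∈ S then
      (MvPolynomial.X 1 * MvPolynomial.X 2 : MvPolynomial (Fin 3) ℚ) else 0)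
  rw [h2, ← Finset.sum_filter, Finset.sum_const]
  have h3 : (univ.filter (fun i : ZMod 8 => i ∈ S)) = S := by ext; simp
  rw [h3, Finset.sum_const, Finset.card_univ, ZMod.card]
  simp only [nsmul_eq_mul]
  push_cast
  ring

theorem per_eq : (qMatrix (cone S1)).permanent = (qMatrix (cone S2)).permanent := by
  rw [qMatrix_cone, qMatrix_cone]
  apply perm_eq_of_homometric
  · intro c i j
    have e1 : (i + c = j + c) ↔ i = j := by simp
    have e2 : (j + c = i + c + 1) ↔ j = i + 1 := by
      rw [add_right_comm]; simp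
    have e3 : (i + c = j + c + 1) ↔ i = j + 1 := by
      rw [add_right_comm]; simp
    simp only [e1, e2, e3]
  · intro d
    rw [autocorr, autocorr]
    have hcard : S1.card = S2.card := by decide
    have hd : ∀ d : ZMod 8, (univ.filter (fun i : ZMod 8 => i ∈ S1 ∧ i + d ∈ S1)).card =
        (univ.filter (fun i : ZMod 8 => i ∈ S2 ∧ i + d ∈ S2)).card := by decide +kernel
    rw [hcard, hd d]

theorem Q_eq : Q (cone S1) = Q (cone S2) := congrArg omega per_eq

/-- a diamond: two triangles with a common edge -/
def Diamond {V : Type*} (G : SimpleGraph V) : Prop :=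
  ∃ a b c d : V, G.Adj a b ∧ G.Adj a c ∧ G.Adj b c ∧ G.Adj a d ∧ G.Adj b d ∧ c ≠ d

theorem diamond_iso {V W : Type*} {G : SimpleGraph V} {H : SimpleGraph W} (φ : G ≃g H)
    (h : Diamond G) : Diamond H := by
  obtain ⟨a, b, c, d, h1, h2, h3, h4, h5, h6⟩ := h
  exact ⟨φ a, φ b, φ c, φ d, φ.map_adj_iff.mpr h1, φ.map_adj_iff.mpr h2, φ.map_adj_iff.mpr h3,
    φ.map_adj_iff.mpr h4, φ.map_adj_iff.mpr h5, fun h => h6 (φ.injective h)⟩

theorem diamond1 : Diamond (cone S1) :=
  ⟨none, some 0, some 1, some 7, by decide, by decide, by decide, by decide, by decide, by decide⟩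

theorem not_diamond2 : ¬ Diamond (cone S2) := by
  unfold Diamond
  push Not
  decide +kernel

end Q133.PermQ
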