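import Pool.Agent.Q133.SemiDefs
import Pool.Agent.Q133.ArcBasic

/-! The complete graph with `3 k + 4` vertices is a semi-arc `k`-visibility graph. -/

namespace Q133.ArcVis

open Complex Set

theorem SeesCone.symm {V : Type} {A : V → Arc} {k : ℕ} {u v : V} (h : SeesCone A k u v) :
    SeesCone A k v u := by
  obtain ⟨β₁, β₂, c, d, h1, h2, h3, h4, h5, h6⟩ := h
  refine ⟨β₁, β₂, d, c, h1, h2, h3.symm, h5, h4, ?_⟩
  convert h6 using 3
  ext w
  simp only [cone, uIcc_comm d c]
  tauto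

/-- the rank of the end of an arc among the events -/
def rk (k v : ℕ) : ℕ :=
  if v ≤ k then k + 3 + 2 * v else if v ≤ 2 * k + 2 then v - k else k + 4 + 2 * (v - (2 * k + 3))

theorem rk_le {k v : ℕ} (hv : v < 3 * k + 4) : rk k v ≤ 3 * k + 4 := by
  unfold rk; split_ifs <;> omega

theorem rk_pos (k v : ℕ) : 0 < rk k v := by
  unfold rk; split_ifs <;> omega

/-- the angular length of the arc of `v` -/
noncomputable def len (k v : ℕ) : ℝ :=
  (if v ≤ k then 0 else Real.pi) + Real.pi * rk k v / (3 * k + 5)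

theorem frac_le {k m n : ℕ} (h : m ≤ n) :
    Real.pi * m / (3 * k + 5) ≤ Real.pi * n / ((3 * k + 5 : ℝ)) := by
  have : (m : ℝ) ≤ n := by exact_mod_cast h
  gcongr

theorem frac_lt_pi {k m : ℕ} (h : m ≤ 3 * k + 4) : Real.pi * m / (3 * k + 5) < Real.pi := by
  have h1 : (m : ℝ) ≤ 3 * k + 4 := by exact_mod_cast h
  rw [div_lt_iff₀ (by positivity)]
  exact mul_lt_mul_of_pos_left (by linarith) Real.pi_pos

/-- the representation -/
noncomputable def SA (k : ℕ) (v : Fin (3 * k + 4)) : Arc where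
  r := (v : ℕ) + 1
  a := 0
  l := len k v
  r_pos := by positivity
  l_nonneg := by
    unfold len
    split_ifs <;> positivity
  l_lt := by
    have := frac_lt_pi (k := k) (rk_le v.2)
    have hp := Real.pi_pos
    unfold len
    split_ifs <;> linarith

theorem SA_X {k : ℕ} {v : Fin (3 * k + 4)} {β : ℝ} (h0 : 0 < β) (h1 : β < Real.pi) (e : ℝ) :
    e ∈ X (SA k v) β ↔ (e = (v : ℕ) + 1 ∧ β ≤ len k v) ∨
      (e = -((v : ℕ) + 1) ∧ β + Real.pi ≤ len k v) := by
  have hl : len k v < 2 * Real.pi := (SA k v).l_lt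
  have hp := Real.pi_pos
  rw [X_iff]
  constructor
  · rintro (⟨he, n, hn⟩ | ⟨he, n, hn⟩)
    · left
      refine ⟨he, ?_⟩
      have hn1 : 0 ≤ β + n * (2 * Real.pi) := hn.1
      have hn2 : β + n * (2 * Real.pi) ≤ 0 + len k v := hn.2
      rcases lt_trichotomy n 0 with h | h | h
      · have : (n : ℝ) ≤ -1 := by exact_mod_cast (by omega : n ≤ -1)
        nlinarith
      · subst h; simpa using hn2
      · have : (1 : ℝ) ≤ n := by exact_mod_cast (by omega : 1 ≤ n)
        nlinarith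
    · right
      refine ⟨he, ?_⟩
      have hn1 : 0 ≤ β + Real.pi + n * (2 * Real.pi) := hn.1
      have hn2 : β + Real.pi + n * (2 * Real.pi) ≤ 0 + len k v := hn.2
      rcases lt_trichotomy n 0 with h | h | h
      · have : (n : ℝ) ≤ -1 := by exact_mod_cast (by omega : n ≤ -1)
        nlinarith
      · subst h; simpa using hn2
      · have : (1 : ℝ) ≤ n := by exact_mod_cast (by omega : 1 ≤ n)
        nlinarith
  · rintro (⟨he, h⟩ | ⟨he, h⟩)
    · refine Or.inl ⟨he, 0, ?_⟩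
      constructor
      · show (0 : ℝ) ≤ _
        simp; linarith
      · show _ ≤ 0 + len k v
        simpa using h
    · refine Or.inr ⟨he, 0, ?_⟩
      constructor
      · show (0 : ℝ) ≤ _
        simp; linarith
      · show _ ≤ 0 + len k v
        simpa using h

/-- the angles of a cone between the events `T` and `T + 1` -/
noncomputable def bl (k T : ℕ) : ℝ := Real.pi * (T + 1 / 4) / (3 * k + 5)
/-- the angles of a cone between the events `T` and `T + 1` -/
noncomputable def bu (k T : ℕ) : ℝ := Real.pi * (T + 3 / 4) / (3 * k + 5)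

theorem bl_pos (k T : ℕ) : 0 < bl k T := by
  have := Real.pi_pos
  unfold bl; positivity

theorem bl_lt_bu (k T : ℕ) : bl k T < bu k T := by
  have := Real.pi_pos
  unfold bl bu
  rw [div_lt_div_iff_of_pos_right (by positivity)]
  exact mul_lt_mul_of_pos_left (by linarith) this

theorem bu_lt {k T : ℕ} (hT : T ≤ 3 * k + 4) : bu k T < Real.pi := by
  have := Real.pi_pos
  have h1 : (T : ℝ) ≤ 3 * k + 4 := by exact_mod_cast hT
  unfold bu
  rw [div_lt_iff₀ (by positivity)]
  exact mul_lt_mul_of_pos_left (by linarith) this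

theorem lt_event {k T m : ℕ} {β : ℝ} (hβ : β ∈ Icc (bl k T) (bu k T)) :
    β ≤ Real.pi * m / (3 * k + 5) ↔ T < m := by
  have hp := Real.pi_pos
  constructor
  · intro h
    by_contra hc
    push Not at hc
    have h1 : (m : ℝ) ≤ T := by exact_mod_cast hc
    have h2 := hβ.1.trans h
    unfold bl at h2
    rw [div_le_div_iff_of_pos_right (by positivity)] at h2
    nlinarith
  · intro h
    refine hβ.2.trans ?_
    have h1 : (T : ℝ) + 1 ≤ m := by exact_mod_cast h
    unfold bu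
    rw [div_le_div_iff_of_pos_right (by positivity)]
    nlinarith

theorem SA_pos {k T : ℕ} (hT : T ≤ 3 * k + 4) {β : ℝ} (hβ : β ∈ Icc (bl k T) (bu k T))
    (v : Fin (3 * k + 4)) : β ≤ len k v ↔ (k < (v : ℕ) ∨ T < rk k v) := by
  have h1 : β < Real.pi := hβ.2.trans_lt (bu_lt hT)
  unfold len
  split_ifs with h
  · rw [zero_add, lt_event hβ]
    constructor
    · exact Or.inr
    · rintro (h2 | h2)
      · omega
      · exact h2
  · have : (0 : ℝ) ≤ Real.pi * rk k v / (3 * k + 5) := by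
      have := Real.pi_pos
      positivity
    constructor
    · intro _; left; omega
    · intro _; linarith

theorem SA_neg {k T : ℕ} {β : ℝ} (hβ : β ∈ Icc (bl k T) (bu k T))
    (v : Fin (3 * k + 4)) : β + Real.pi ≤ len k v ↔ (k < (v : ℕ) ∧ T < rk k v) := by
  have h0 : 0 < β := (bl_pos k T).trans_le hβ.1
  unfold len
  split_ifs with h
  · have := frac_lt_pi (k := k) (rk_le v.2)
    constructor
    · intro h2; linarith
    · intro h2; omega
  · rw [add_comm β, add_le_add_iff_left, lt_event hβ]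
    constructor
    · intro h2; exact ⟨by omega, h2⟩
    · exact fun h2 => h2.2

/-- a cone through the origin -/
theorem origin (k : ℕ) (u v : Fin (3 * k + 4)) (T : ℕ) (hT : T ≤ 3 * k + 4)
    (hu : k < (u : ℕ) ∨ T < rk k u) (hv : k < (v : ℕ) ∧ T < rk k v) (S : Finset ℕ)
    (hS : S.card ≤ k) (hB : ∀ w : ℕ, w < 3 * k + 4 → w ≠ u → w ≠ v →
      ((w < u ∧ (k < w ∨ T < rk k w)) ∨ (w < v ∧ k < w ∧ T < rk k w)) → w ∈ S) :
    SeesCone (SA k) k u v := by
  have hp := Real.pi_pos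
  refine ⟨bl k T, bu k T, (u : ℕ) + 1, -((v : ℕ) + 1), bl_lt_bu k T, ?_, ?_, ?_, ?_, ?_⟩
  · linarith [bu_lt hT, bl_pos k T]
  · have h1 : (0 : ℝ) ≤ (u : ℕ) := Nat.cast_nonneg _
    have h2 : (0 : ℝ) ≤ (v : ℕ) := Nat.cast_nonneg _
    intro h; linarith
  · intro β hβ
    exact (SA_X ((bl_pos k T).trans_le hβ.1) (hβ.2.trans_lt (bu_lt hT)) _).2
      (Or.inl ⟨rfl, (SA_pos hT hβ u).2 hu⟩)
  · intro β hβ
    exact (SA_X ((bl_pos k T).trans_le hβ.1) (hβ.2.trans_lt (bu_lt hT)) _).2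
      (Or.inr ⟨rfl, (SA_neg hβ v).2 hv⟩)
  · refine (Set.ncard_le_ncard_of_injOn (t := (S : Set ℕ)) (fun w : Fin (3 * k + 4) => (w : ℕ))
      ?_ (fun w _ w' _ h => Fin.ext h) (Finset.finite_toSet _)).trans ?_
    · rintro w ⟨h1, h2, z, hz, β, hβ, x, hx, rfl⟩
      have hx' : x ∈ X (SA k w) β := hz
      rw [SA_X ((bl_pos k T).trans_le hβ.1) (hβ.2.trans_lt (bu_lt hT))] at hx'
      have h3 : (0 : ℝ) ≤ (u : ℕ) := Nat.cast_nonneg _
      have h4 : (0 : ℝ) ≤ (v : ℕ) := Nat.cast_nonneg _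
      have h5 : (0 : ℝ) ≤ (w : ℕ) := Nat.cast_nonneg _
      rw [Set.uIcc_of_ge (by linarith)] at hx
      have hwu : (w : ℕ) ≠ u := fun h => h1 (Fin.ext h)
      have hwv : (w : ℕ) ≠ v := fun h => h2 (Fin.ext h)
      refine hB w w.2 hwu hwv ?_
      rcases hx' with ⟨he, hl⟩ | ⟨he, hl⟩
      · left
        have h6 : ((w : ℕ) : ℝ) ≤ (u : ℕ) := by linarith [hx.2]
        have h7 : (w : ℕ) ≤ u := by exact_mod_cast h6
        exact ⟨by omega, (SA_pos hT hβ w).1 hl⟩
      · right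
        have h6 : ((w : ℕ) : ℝ) ≤ (v : ℕ) := by linarith [hx.1]
        have h7 : (w : ℕ) ≤ v := by exact_mod_cast h6
        exact ⟨by omega, (SA_neg hβ w).1 hl⟩
    · rw [Set.ncard_coe_finset]; exact hS

/-- a cone which avoids the origin -/
theorem direct (k : ℕ) (u v : Fin (3 * k + 4)) (huv : (u : ℕ) < v) (h : (v : ℕ) ≤ u + (k + 1)) :
    SeesCone (SA k) k u v := by
  have hp := Real.pi_pos
  have hT : 0 ≤ 3 * k + 4 := Nat.zero_le _
  have huv' : ((u : ℕ) : ℝ) < (v : ℕ) := by exact_mod_cast huv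
  refine ⟨bl k 0, bu k 0, (u : ℕ) + 1, (v : ℕ) + 1, bl_lt_bu k 0, ?_, ?_, ?_, ?_, ?_⟩
  · linarith [bu_lt hT, bl_pos k 0]
  · intro h; linarith
  · intro β hβ
    exact (SA_X ((bl_pos k 0).trans_le hβ.1) (hβ.2.trans_lt (bu_lt hT)) _).2
      (Or.inl ⟨rfl, (SA_pos hT hβ u).2 (Or.inr (rk_pos _ _))⟩)
  · intro β hβ
    exact (SA_X ((bl_pos k 0).trans_le hβ.1) (hβ.2.trans_lt (bu_lt hT)) _).2
      (Or.inl ⟨rfl, (SA_pos hT hβ v).2 (Or.inr (rk_pos _ _))⟩)
  · refine (Set.ncard_le_ncard_of_injOn (t := (Finset.Ioo (u : ℕ) (v : ℕ) : Set ℕ))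
      (fun w : Fin (3 * k + 4) => (w : ℕ)) ?_ (fun w _ w' _ h => Fin.ext h)
      (Finset.finite_toSet _)).trans ?_
    · rintro w ⟨h1, h2, z, hz, β, hβ, x, hx, rfl⟩
      have hx' : x ∈ X (SA k w) β := hz
      rw [SA_X ((bl_pos k 0).trans_le hβ.1) (hβ.2.trans_lt (bu_lt hT))] at hx'
      have h3 : (0 : ℝ) ≤ (u : ℕ) := Nat.cast_nonneg _
      have h5 : (0 : ℝ) ≤ (w : ℕ) := Nat.cast_nonneg _
      rw [Set.uIcc_of_le (by linarith)] at hx
      have hwu : (w : ℕ) ≠ u := fun h => h1 (Fin.ext h)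
      have hwv : (w : ℕ) ≠ v := fun h => h2 (Fin.ext h)
      rcases hx' with ⟨he, -⟩ | ⟨he, -⟩
      · have h6 : ((u : ℕ) : ℝ) ≤ (w : ℕ) := by linarith [hx.1]
        have h7 : (u : ℕ) ≤ w := by exact_mod_cast h6
        have h8 : ((w : ℕ) : ℝ) ≤ (v : ℕ) := by linarith [hx.2]
        have h9 : (w : ℕ) ≤ v := by exact_mod_cast h8
        simp only [Finset.coe_Ioo, Set.mem_Ioo]
        omega
      · exfalso; linarith [hx.1]
    · rw [Set.ncard_coe_finset, Nat.card_Ioo]; omega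

theorem sees_of_lt (k : ℕ) (u v : Fin (3 * k + 4)) (huv : (u : ℕ) < v) :
    SeesCone (SA k) k u v := by
  have hv2 := v.2
  by_cases h : (v : ℕ) ≤ u + (k + 1)
  · exact direct k u v huv h
  push Not at h
  by_cases hu : (u : ℕ) ≤ k
  · by_cases hv : (v : ℕ) ≤ 2 * k + 3
    · -- all `w < v` have disappeared behind the origin
      refine origin k u v ((v : ℕ) - 1 - k) (by omega) (Or.inr ?_) ⟨by omega, ?_⟩
        (Finset.range u) (by simpa using hu) ?_
      · unfold rk; split_ifs <;> omega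
      · unfold rk; split_ifs <;> omega
      · intro w hw h1 h2 h3
        rw [Finset.mem_range]
        rcases h3 with h3 | ⟨h3, h4, h5⟩
        · exact h3.1
        · exfalso; unfold rk at h5; split_ifs at h5 <;> omega
    · obtain ⟨r, hr⟩ : ∃ r, (v : ℕ) = 2 * k + 3 + r := ⟨v - (2 * k + 3), by omega⟩
      rcases Nat.lt_or_ge (u : ℕ) r with hur | hur
      · refine origin k u v (k + 2 + 2 * u) (by omega) (Or.inr ?_) ⟨by omega, ?_⟩
          (Finset.Ico (2 * k + 3 + u) v) (by rw [Nat.card_Ico]; omega) ?_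
        · unfold rk; split_ifs <;> omega
        · unfold rk; split_ifs <;> omega
        · intro w hw h1 h2 h3
          rw [Finset.mem_Ico]
          rcases h3 with ⟨h3, h4⟩ | ⟨h3, h4, h5⟩
          · exfalso
            rcases h4 with h4 | h4
            · omega
            · unfold rk at h4; split_ifs at h4 <;> omega
          · unfold rk at h5; split_ifs at h5 <;> omega
      · refine origin k u v (k + 2 + 2 * r) (by omega) (Or.inr ?_) ⟨by omega, ?_⟩
          (Finset.Ico r u) (by rw [Nat.card_Ico]; omega) ?_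
        · unfold rk; split_ifs <;> omega
        · unfold rk; split_ifs <;> omega
        · intro w hw h1 h2 h3
          rw [Finset.mem_Ico]
          rcases h3 with ⟨h3, h4⟩ | ⟨h3, h4, h5⟩
          · rcases h4 with h4 | h4
            · omega
            · unfold rk at h4; split_ifs at h4 <;> omega
          · exfalso; unfold rk at h5; split_ifs at h5 <;> omega
  · obtain ⟨i, hi⟩ : ∃ i, (u : ℕ) = k + 1 + i := ⟨u - (k + 1), by omega⟩
    obtain ⟨r, hr⟩ : ∃ r, (v : ℕ) = 2 * k + 3 + i + r := ⟨v - (2 * k + 3 + i), by omega⟩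
    refine origin k u v (k + 3 + 2 * (i + r)) (by omega) (Or.inl (by omega)) ⟨by omega, ?_⟩
      (Finset.Ioc (i + r) k ∪ Finset.Ico (k + 1) u) ?_ ?_
    · unfold rk; split_ifs <;> omega
    · refine (Finset.card_union_le _ _).trans ?_
      rw [Nat.card_Ioc, Nat.card_Ico]; omega
    · intro w hw h1 h2 h3
      rw [Finset.mem_union, Finset.mem_Ioc, Finset.mem_Ico]
      rcases h3 with ⟨h3, h4⟩ | ⟨h3, h4, h5⟩
      · rcases h4 with h4 | h4
        · omega
        · unfold rk at h4; split_ifs at h4 <;> omega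
      · exfalso; unfold rk at h5; split_ifs at h5 <;> omega

theorem SA_disj (k : ℕ) (u v : Fin (3 * k + 4)) (huv : u ≠ v) :
    Disjoint (SA k u).pts (SA k v).pts := by
  rw [Set.disjoint_left]
  rintro z ⟨t, ht, rfl⟩ ⟨t', ht', h⟩
  have := congrArg norm h
  rw [norm_mul, norm_mul, Complex.norm_exp_ofReal_mul_I, Complex.norm_exp_ofReal_mul_I,
    mul_one, mul_one, Complex.norm_real, Complex.norm_real, Real.norm_eq_abs, Real.norm_eq_abs,
    abs_of_pos (SA k u).r_pos, abs_of_pos (SA k v).r_pos] at this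
  apply huv
  apply Fin.ext
  have h2 : ((u : ℕ) : ℝ) + 1 = (v : ℕ) + 1 := this
  have h3 : ((u : ℕ) : ℝ) = (v : ℕ) := by linarith
  exact_mod_cast h3

theorem semi_complete (k : ℕ) : IsSemiArcVis k (⊤ : SimpleGraph (Fin (3 * k + 4))) := by
  refine ⟨SA k, fun _ => rfl, SA_disj k, fun u v huv => ⟨fun _ => ?_, fun _ => by
    rw [SimpleGraph.top_adj]; exact huv⟩⟩
  rcases lt_or_gt_of_ne (fun h => huv (Fin.ext h) : (u : ℕ) ≠ v) with h | h
  · exact sees_of_lt k u v h
  · exact (sees_of_lt k v u h).symm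

end Q133.ArcVis
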