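import Pool.Agent.Q133.ArcDefs

/-!
# Semi-arc `k`-visibility graphs, with cones of sight
-/

namespace Q133.ArcVis

open Complex

/-- The cone with the angles `β₁ ≤ β ≤ β₂` and the (signed) radii `c`, `d`: the union of the
segments from `c e^{iβ}` to `d e^{iβ}`. Its circular ends are the points `c e^{iβ}` and the points
`d e^{iβ}`. If `c` and `d` have different signs, then its two straight sides meet at the origin. -/
def cone (β₁ β₂ c d : ℝ) : Set ℂ :=
  {z | ∃ β ∈ Set.Icc β₁ β₂, ∃ x ∈ Set.uIcc c d, z = (x : ℂ) * exp ((β : ℂ) * I)}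

/-- The arcs of `u` and `v` are radially `k`-visible: some non-degenerate cone has its two circular
ends contained in the arcs of `u` and `v` and meets at most `k` other arcs. -/
def SeesCone {V : Type} (A : V → Arc) (k : ℕ) (u v : V) : Prop :=
  ∃ β₁ β₂ c d : ℝ, β₁ < β₂ ∧ β₂ < β₁ + Real.pi ∧ c ≠ d ∧
    (∀ β ∈ Set.Icc β₁ β₂, (c : ℂ) * exp ((β : ℂ) * I) ∈ (A u).pts) ∧
    (∀ β ∈ Set.Icc β₁ β₂, (d : ℂ) * exp ((β : ℂ) * I) ∈ (A v).pts) ∧
    {w : V | w ≠ u ∧ w ≠ v ∧ ((A w).pts ∩ cone β₁ β₂ c d).Nonempty}.ncard ≤ k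

/-- `G` is a semi-arc `k`-visibility graph: it has a representation by pairwise disjoint arcs all
of which start at the angle `0` (on the positive `x`-axis). -/
def IsSemiArcVis {V : Type} (k : ℕ) (G : SimpleGraph V) : Prop :=
  ∃ A : V → Arc, (∀ v, (A v).a = 0) ∧ (∀ u v, u ≠ v → Disjoint (A u).pts (A v).pts) ∧
    ∀ u v, u ≠ v → (G.Adj u v ↔ SeesCone A k u v)

end Q133.ArcVis
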