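import Mathlib

set_option autoImplicit false

/-!
# A 2-adic colouring of the unit distance graph of `K × K`

Let `E = ℚ₂(√3)` and `O = ℤ₂[√3]`, with residue field `𝔽₂`. If `a, b ∈ E` satisfy
`a² - a b + b² = 1` then `a, b ∈ O` and `(a, b)` is not zero in `𝔽₂ × 𝔽₂`. This gives an additive
colouring with four colours.
-/

namespace Q133.UnitK

open scoped QuadraticAlgebra

instance : Fact (Nat.Prime 2) := ⟨Nat.prime_two⟩

/-- `ℤ₂[√3]`. -/
abbrev O := QuadraticAlgebra ℤ_[2] 3 0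

/-- `ℚ₂(√3)`. -/
abbrev E := QuadraticAlgebra ℚ_[2] 3 0

/-- The residue map `ℤ₂[√3] → 𝔽₂`. -/
noncomputable def res (z : O) : ZMod 2 := PadicInt.toZMod (z.re + z.im)

theorem res_add (z w : O) : res (z + w) = res z + res w := by
  unfold res
  simp only [QuadraticAlgebra.re_add, QuadraticAlgebra.im_add, map_add]
  ring

theorem res_sub (z w : O) : res (z - w) = res z - res w := by
  unfold res
  simp only [QuadraticAlgebra.re_sub, QuadraticAlgebra.im_sub, map_add, map_sub]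
  ring

theorem res_mul (z w : O) : res (z * w) = res z * res w := by
  unfold res
  simp only [QuadraticAlgebra.re_mul, QuadraticAlgebra.im_mul, map_add, map_mul]
  have h3 : (PadicInt.toZMod (3 : ℤ_[2]) : ZMod 2) = 1 := by
    rw [show (3 : ℤ_[2]) = ((3 : ℕ) : ℤ_[2]) by norm_num, map_natCast]; decide
  rw [h3, map_zero]
  ring

theorem res_one : res 1 = 1 := by
  unfold res
  simp

/-- `√3` and the prime element `1 + √3`. -/
noncomputable def pi : O := ⟨1, 1⟩

theorem res_zero_iff (z : O) (h : res z = 0) : ∃ w : O, z = pi * w := by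
  unfold res at h
  have hm : z.re + z.im ∈ RingHom.ker (PadicInt.toZMod : ℤ_[2] →+* ZMod 2) := h
  rw [PadicInt.ker_toZMod, PadicInt.maximalIdeal_eq_span_p, Ideal.mem_span_singleton] at hm
  obtain ⟨m, hm⟩ := hm
  have hm' : z.re + z.im = 2 * m := by simpa using hm
  refine ⟨⟨3 * m - 2 * z.re, z.re - m⟩, ?_⟩
  ext
  · simp only [pi, QuadraticAlgebra.re_mul]
    ring
  · simp only [pi, QuadraticAlgebra.im_mul]
    linear_combination hm'

/-- The prime element has square `2 (2 + √3)`. -/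
theorem pi_sq : pi * pi = (2 : O) * ⟨2, 1⟩ := by
  ext
  · simp [pi, QuadraticAlgebra.re_mul]
    norm_num
  · simp [pi, QuadraticAlgebra.im_mul]
    norm_num

theorem two_cancel (z w : O) (h : (2 : O) * z = 2 * w) : z = w := by
  have h1 := congrArg QuadraticAlgebra.re h
  have h2 := congrArg QuadraticAlgebra.im h
  simp at h1 h2
  ext
  · exact h1
  · exact h2

theorem toZ_two : (PadicInt.toZMod (2 : ℤ_[2]) : ZMod 2) = 0 := by
  rw [show (2 : ℤ_[2]) = ((2 : ℕ) : ℤ_[2]) by norm_num, map_natCast]; decide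

theorem res_two : res (2 : O) = 0 := by
  unfold res
  simp [toZ_two]

theorem zero_of_form (x y : ZMod 2) (h : x * x - x * y + y * y = 0) : x = 0 ∧ y = 0 := by
  revert x y
  decide

theorem desc : ∀ (n : ℕ) (A B : O), A * A - A * B + B * B = 4 ^ n →
    ∃ A' B' : O, A = 2 ^ n * A' ∧ B = 2 ^ n * B' ∧ A' * A' - A' * B' + B' * B' = 1 := by
  intro n
  induction n with
  | zero =>
    intro A B h
    exact ⟨A, B, by simp, by simp, by simpa using h⟩
  | succ n ih =>
    intro A B h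
    have h1 : res A * res A - res A * res B + res B * res B = 0 := by
      rw [← res_mul, ← res_mul, ← res_mul, ← res_sub, ← res_add, h, pow_succ,
        show (4 : O) = 2 * 2 by norm_num, res_mul, res_mul, res_two]
      ring
    obtain ⟨hA, hB⟩ := zero_of_form _ _ h1
    obtain ⟨A1, rfl⟩ := res_zero_iff A hA
    obtain ⟨B1, rfl⟩ := res_zero_iff B hB
    have h2 : (⟨2, 1⟩ : O) * (A1 * A1 - A1 * B1 + B1 * B1) = 2 * 4 ^ n := by
      apply two_cancel
      have : pi * A1 * (pi * A1) - pi * A1 * (pi * B1) + pi * B1 * (pi * B1) =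
          (pi * pi) * (A1 * A1 - A1 * B1 + B1 * B1) := by ring
      rw [this, pi_sq, pow_succ] at h
      calc (2 : O) * (⟨2, 1⟩ * (A1 * A1 - A1 * B1 + B1 * B1)) =
          2 * ⟨2, 1⟩ * (A1 * A1 - A1 * B1 + B1 * B1) := by ring
        _ = 4 ^ n * 4 := h
        _ = 2 * (2 * 4 ^ n) := by ring
    have hu : res (⟨2, 1⟩ : O) = 1 := by
      unfold res
      simp [toZ_two]
    have h3 : res A1 * res A1 - res A1 * res B1 + res B1 * res B1 = 0 := by
      have := congrArg res h2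
      rw [res_mul, hu, one_mul, res_mul, res_two, zero_mul, res_add, res_sub, res_mul, res_mul,
        res_mul] at this
      exact this
    obtain ⟨hA, hB⟩ := zero_of_form _ _ h3
    obtain ⟨A2, rfl⟩ := res_zero_iff A1 hA
    obtain ⟨B2, rfl⟩ := res_zero_iff B1 hB
    obtain ⟨A', B', h4, h5, h6⟩ := ih ((⟨2, 1⟩ : O) * A2) ((⟨2, 1⟩ : O) * B2) (by
      apply two_cancel
      calc (2 : O) * ((⟨2, 1⟩ : O) * A2 * (⟨2, 1⟩ * A2) - ⟨2, 1⟩ * A2 * (⟨2, 1⟩ * B2) +
            ⟨2, 1⟩ * B2 * (⟨2, 1⟩ * B2))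
          = (⟨2, 1⟩ : O) * ((2 * ⟨2, 1⟩) * (A2 * A2 - A2 * B2 + B2 * B2)) := by ring
        _ = (⟨2, 1⟩ : O) * (pi * A2 * (pi * A2) - pi * A2 * (pi * B2) + pi * B2 * (pi * B2)) := by
            rw [← pi_sq]; ring
        _ = 2 * 4 ^ n := h2)
    refine ⟨A', B', ?_, ?_, h6⟩
    · calc pi * (pi * A2) = (pi * pi) * A2 := by ring
        _ = 2 * (⟨2, 1⟩ * A2) := by rw [pi_sq]; ring
        _ = 2 ^ (n + 1) * A' := by rw [h4, pow_succ]; ring
    · calc pi * (pi * B2) = (pi * pi) * B2 := by ring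
        _ = 2 * (⟨2, 1⟩ * B2) := by rw [pi_sq]; ring
        _ = 2 ^ (n + 1) * B' := by rw [h5, pow_succ]; ring

/-- The inclusion `O → E`. -/
noncomputable def inc (z : O) : E := ⟨(z.re : ℚ_[2]), (z.im : ℚ_[2])⟩

theorem inc_add (z w : O) : inc (z + w) = inc z + inc w := by
  ext <;> simp [inc]

theorem inc_sub (z w : O) : inc (z - w) = inc z - inc w := by
  ext <;> simp [inc]

theorem inc_mul (z w : O) : inc (z * w) = inc z * inc w := by
  have h3 : ((3 : ℤ_[2]) : ℚ_[2]) = 3 := by norm_cast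
  ext <;> simp [inc, h3]

theorem inc_one : inc 1 = 1 := by
  ext <;> simp [inc]

theorem inc_inj {z w : O} (h : inc z = inc w) : z = w := by
  have h1 := congrArg QuadraticAlgebra.re h
  have h2 := congrArg QuadraticAlgebra.im h
  simp only [inc] at h1 h2
  ext
  · exact Subtype.ext h1
  · exact Subtype.ext h2

/-- Every element of `E` becomes integral after multiplication by a power of two. -/
theorem exists_int1 (x : ℚ_[2]) : ∃ n : ℕ, ‖(2 : ℚ_[2]) ^ n * x‖ ≤ 1 := by
  obtain ⟨n, hn⟩ := pow_unbounded_of_one_lt (‖x‖) (show (1 : ℝ) < 2 by norm_num)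
  refine ⟨n, ?_⟩
  rw [norm_mul, norm_pow, show ‖(2 : ℚ_[2])‖ = 2⁻¹ from by
    have := Padic.norm_p (p := 2); simpa using this, inv_pow]
  rw [inv_mul_le_iff₀ (by positivity), mul_one]
  exact hn.le

theorem int_mono (x : ℚ_[2]) (n m : ℕ) (h : ‖(2 : ℚ_[2]) ^ n * x‖ ≤ 1) :
    ‖(2 : ℚ_[2]) ^ (n + m) * x‖ ≤ 1 := by
  have h2 : ‖(2 : ℚ_[2])‖ = 2⁻¹ := by
    have := Padic.norm_p (p := 2); simpa using this
  rw [pow_add, mul_right_comm, norm_mul, norm_pow, h2]
  calc ‖(2 : ℚ_[2]) ^ n * x‖ * (2⁻¹ : ℝ) ^ m ≤ 1 * 1 := by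
        gcongr
        exact pow_le_one₀ (by norm_num) (by norm_num)
    _ = 1 := by norm_num

theorem two_ne : (2 : ℚ_[2]) ≠ 0 := by norm_num

theorem exists_int (a b : E) : ∃ (n : ℕ) (A B : O),
    inc A = ⟨2 ^ n * a.re, 2 ^ n * a.im⟩ ∧ inc B = ⟨2 ^ n * b.re, 2 ^ n * b.im⟩ := by
  obtain ⟨n1, h1⟩ := exists_int1 a.re
  obtain ⟨n2, h2⟩ := exists_int1 a.im
  obtain ⟨n3, h3⟩ := exists_int1 b.re
  obtain ⟨n4, h4⟩ := exists_int1 b.im
  refine ⟨n1 + n2 + n3 + n4,
    ⟨⟨2 ^ (n1 + n2 + n3 + n4) * a.re, ?_⟩, ⟨2 ^ (n1 + n2 + n3 + n4) * a.im, ?_⟩⟩,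
    ⟨⟨2 ^ (n1 + n2 + n3 + n4) * b.re, ?_⟩, ⟨2 ^ (n1 + n2 + n3 + n4) * b.im, ?_⟩⟩, rfl, rfl⟩
  · have := int_mono _ n1 (n2 + n3 + n4) h1
    rwa [← add_assoc, ← add_assoc] at this
  · have := int_mono _ n2 (n1 + n3 + n4) h2
    rwa [show n2 + (n1 + n3 + n4) = n1 + n2 + n3 + n4 by ring] at this
  · have := int_mono _ n3 (n1 + n2 + n4) h3
    rwa [show n3 + (n1 + n2 + n4) = n1 + n2 + n3 + n4 by ring] at this
  · have := int_mono _ n4 (n1 + n2 + n3) h4
    rwa [show n4 + (n1 + n2 + n3) = n1 + n2 + n3 + n4 by ring] at this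

theorem pow_two_eq (n : ℕ) : (2 : E) ^ n = ⟨2 ^ n, 0⟩ := by
  induction n with
  | zero => ext <;> simp
  | succ n ih =>
    rw [pow_succ, ih]
    ext <;> simp [pow_succ]

theorem inc_pow_two (n : ℕ) : inc ((2 : O) ^ n) = (2 : E) ^ n := by
  induction n with
  | zero => simp [inc_one]
  | succ n ih =>
    rw [pow_succ, inc_mul, ih, pow_succ]
    congr 1

theorem scale (n : ℕ) (a : E) : (⟨2 ^ n * a.re, 2 ^ n * a.im⟩ : E) = 2 ^ n * a := by
  rw [pow_two_eq]
  ext <;> simp

theorem scale_cancel (n : ℕ) (a b : E) (h : (2 : E) ^ n * a = 2 ^ n * b) : a = b := by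
  rw [← scale, ← scale] at h
  have h1 := congrArg QuadraticAlgebra.re h
  have h2 := congrArg QuadraticAlgebra.im h
  simp only at h1 h2
  ext
  · exact mul_left_cancel₀ (pow_ne_zero n two_ne) h1
  · exact mul_left_cancel₀ (pow_ne_zero n two_ne) h2

theorem form_int (a b : E) (h : a * a - a * b + b * b = 1) :
    ∃ A B : O, a = inc A ∧ b = inc B ∧ (res A ≠ 0 ∨ res B ≠ 0) := by
  obtain ⟨n, A, B, hA, hB⟩ := exists_int a b
  rw [scale] at hA hB
  have h4 : A * A - A * B + B * B = 4 ^ n := by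
    apply inc_inj
    rw [inc_add, inc_sub, inc_mul, inc_mul, inc_mul, hA, hB, show (4 : O) ^ n = 2 ^ n * 2 ^ n by
      rw [← mul_pow]; norm_num, inc_mul, inc_pow_two]
    linear_combination (2 ^ n * 2 ^ n : E) * h
  obtain ⟨A', B', h1, h2, h3⟩ := desc n A B h4
  refine ⟨A', B', ?_, ?_, ?_⟩
  · apply scale_cancel n
    rw [← hA, h1, inc_mul, inc_pow_two]
  · apply scale_cancel n
    rw [← hB, h2, inc_mul, inc_pow_two]
  · by_contra hcon
    push Not at hcon
    have := congrArg res h3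
    rw [res_add, res_sub, res_mul, res_mul, res_mul, hcon.1, hcon.2, res_one] at this
    revert this
    decide

/-- The lattice `O × O` in `E × E`. -/
noncomputable def lat : AddSubgroup (E × E) where
  carrier := {z | ∃ A B : O, z = (inc A, inc B)}
  zero_mem' := ⟨0, 0, by
    have : inc 0 = 0 := by ext <;> simp [inc]
    rw [this]; rfl⟩
  add_mem' := by
    rintro _ _ ⟨A, B, rfl⟩ ⟨A', B', rfl⟩
    exact ⟨A + A', B + B', by rw [inc_add, inc_add]; rfl⟩
  neg_mem' := by
    rintro _ ⟨A, B, rfl⟩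
    refine ⟨-A, -B, ?_⟩
    have : ∀ A : O, inc (-A) = - inc A := by
      intro A
      ext <;> simp [inc]
    rw [this, this]; rfl

/-- The representative of the coset of `z`. -/
noncomputable def rep (z : E × E) : E × E := Quotient.out (QuotientAddGroup.mk z : (E × E) ⧸ lat)

theorem rep_mem (z : E × E) : z - rep z ∈ lat := by
  have h : (QuotientAddGroup.mk (rep z) : (E × E) ⧸ lat) = QuotientAddGroup.mk z :=
    Quotient.out_eq _
  rw [QuotientAddGroup.eq] at h
  rwa [sub_eq_neg_add]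

theorem rep_eq (z w : E × E) (h : z - w ∈ lat) : rep z = rep w := by
  unfold rep
  congr 1
  rw [QuotientAddGroup.eq]
  have := lat.neg_mem h
  rwa [neg_sub, sub_eq_neg_add, add_comm, ← sub_eq_add_neg, sub_eq_neg_add] at this

/-- The colour of a point of `E × E`. -/
noncomputable def col (z : E × E) : ZMod 2 × ZMod 2 :=
  (res (Classical.choose (rep_mem z)), res (Classical.choose (Classical.choose_spec (rep_mem z))))

theorem col_spec (z : E × E) : ∃ A B : O, z - rep z = (inc A, inc B) ∧ col z = (res A, res B) :=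
  ⟨_, _, Classical.choose_spec (Classical.choose_spec (rep_mem z)), rfl⟩

/-- Points whose difference satisfies `a² - a b + b² = 1` have different colours. -/
theorem col_ne (z w : E × E)
    (h : (z.1 - w.1) * (z.1 - w.1) - (z.1 - w.1) * (z.2 - w.2) + (z.2 - w.2) * (z.2 - w.2) = 1) :
    col z ≠ col w := by
  obtain ⟨A, B, hA, hB, hne⟩ := form_int _ _ h
  have hzw : z - w ∈ lat := ⟨A, B, Prod.ext hA hB⟩
  have hrep := rep_eq z w hzw
  obtain ⟨A1, B1, h1, h1'⟩ := col_spec z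
  obtain ⟨A2, B2, h2, h2'⟩ := col_spec w
  rw [h1', h2']
  intro heq
  have e1 : inc A1 - inc A2 = inc A := by
    have a1 := congrArg Prod.fst h1
    have a2 := congrArg Prod.fst h2
    rw [← hrep] at a2
    simp only [Prod.fst_sub] at a1 a2
    rw [← a1, ← a2, ← hA]
    ring
  have e2 : inc B1 - inc B2 = inc B := by
    have a1 := congrArg Prod.snd h1
    have a2 := congrArg Prod.snd h2
    rw [← hrep] at a2
    simp only [Prod.snd_sub] at a1 a2
    rw [← a1, ← a2, ← hB]
    ring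
  rw [← inc_sub] at e1 e2
  have e1' := inc_inj e1
  have e2' := inc_inj e2
  rcases hne with hne | hne
  · apply hne
    have h5 : res A1 = res A2 := congrArg Prod.fst heq
    rw [← e1', res_sub, h5, sub_self]
  · apply hne
    have h5 : res B1 = res B2 := congrArg Prod.snd heq
    rw [← e2', res_sub, h5, sub_self]

end Q133.UnitK
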