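import Mathlib
import Pool.Agent.Q133.UnitK

set_option autoImplicit false

/-!
# The unit distance graph of `ℚ(√3, √11)²` has chromatic number `4`
-/

namespace Q133.UnitK

open Polynomial

/-- `3` is not a square in `ℚ₂`. -/
theorem three_nonsq (r : ℚ_[2]) : r ^ 2 ≠ 3 := by
  intro h
  have h3 : ‖(3 : ℚ_[2])‖ ≤ 1 := by
    have := Padic.norm_int_le_one (p := 2) 3
    simpa using this
  have hn : ‖r‖ ≤ 1 := by
    have h1 : ‖r‖ ^ 2 ≤ 1 := by rw [← norm_pow, h]; exact h3
    exact (sq_le_one_iff₀ (norm_nonneg r)).1 h1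
  obtain ⟨x, hx⟩ : ∃ x : ℤ_[2], (x : ℚ_[2]) = r := ⟨⟨r, hn⟩, rfl⟩
  have h2 : x ^ 2 = 3 := by
    apply Subtype.ext
    have h33 : ((3 : ℤ_[2]) : ℚ_[2]) = 3 := by norm_cast
    rw [h33, ← h, ← hx]
    exact PadicInt.coe_pow x 2
  have h4 := congrArg (PadicInt.toZModPow 2 : ℤ_[2] →+* ZMod (2 ^ 2)) h2
  rw [map_pow, show (3 : ℤ_[2]) = ((3 : ℕ) : ℤ_[2]) by norm_num, map_natCast] at h4
  generalize (PadicInt.toZModPow 2) x = y at h4
  revert y
  decide

instance : Fact (∀ r : ℚ_[2], r ^ 2 ≠ 3 + 0 * r) := ⟨fun r => by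
  rw [zero_mul, add_zero]; exact three_nonsq r⟩

/-- `33` is a square in `ℚ₂`. -/
theorem sqrt33 : ∃ c : ℚ_[2], c ^ 2 = 33 := by
  have h := hensels_lemma (p := 2) (R := ℤ_[2]) (F := X ^ 2 - C 33) (a := 1) ?_
  · obtain ⟨z, hz, -⟩ := h
    refine ⟨z, ?_⟩
    simp at hz
    have h1 : z ^ 2 = 33 := by linear_combination hz
    have h33 : ((33 : ℤ_[2]) : ℚ_[2]) = 33 := by norm_cast
    rw [← h33, ← h1]
    exact (PadicInt.coe_pow z 2).symm
  · have h2 : ‖(2 : ℤ_[2])‖ = 2⁻¹ := by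
      have := PadicInt.norm_p (p := 2); simpa using this
    have e1 : (aeval (1 : ℤ_[2])) (X ^ 2 - C (33 : ℤ_[2])) = -(2 ^ 5) := by
      simp; norm_num
    have e2 : (aeval (1 : ℤ_[2])) (derivative (X ^ 2 - C (33 : ℤ_[2]))) = 2 := by
      simp
      norm_num
    rw [e1, e2, norm_neg, norm_pow, h2]
    norm_num

/-- `K = ℚ(√3, √11)`, as a subfield of `ℝ`. -/
noncomputable abbrev K : IntermediateField ℚ ℝ := IntermediateField.adjoin ℚ {√3, √11}

/-- `√3` as an element of `K`. -/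
noncomputable def s3 : K := ⟨√3, IntermediateField.subset_adjoin ℚ _ (by simp)⟩

/-- `√11` as an element of `K`. -/
noncomputable def s11 : K := ⟨√11, IntermediateField.subset_adjoin ℚ _ (by simp)⟩

theorem s3_sq : s3 ^ 2 = 3 := by
  apply Subtype.ext
  simp [s3]
  rfl

theorem s11_sq : s11 ^ 2 = 11 := by
  apply Subtype.ext
  simp [s11]
  rfl

/-- There is an embedding of `K` in `ℚ₂(√3)`. -/
theorem exists_emb : Nonempty (K →ₐ[ℚ] E) := by
  obtain ⟨c, hc⟩ := sqrt33
  apply IntermediateField.nonempty_algHom_adjoin_of_splits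
  have key : ∀ (n : ℚ) (x : ℝ) (e : E), x ^ 2 = n → e ^ 2 = algebraMap ℚ E n →
      IsIntegral ℚ x ∧ ((minpoly ℚ x).map (algebraMap ℚ E)).Splits := by
    intro n x e hx he
    have hroot : aeval x (X ^ 2 - C n : ℚ[X]) = 0 := by
      simp [hx]
    refine ⟨⟨X ^ 2 - C n, monic_X_pow_sub_C n (by norm_num), by simpa using hroot⟩, ?_⟩
    have hdvd : minpoly ℚ x ∣ X ^ 2 - C n := minpoly.dvd ℚ x hroot
    have hmap : (X ^ 2 - C n : ℚ[X]).map (algebraMap ℚ E) = (X - C e) * (X - C (-e)) := by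
      simp only [Polynomial.map_sub, Polynomial.map_pow, map_X, map_C, ← he, C_neg, C_pow]
      ring
    have hsp : ((X ^ 2 - C n : ℚ[X]).map (algebraMap ℚ E)).Splits := by
      rw [hmap]
      exact (Splits.X_sub_C _).mul (Splits.X_sub_C _)
    refine hsp.of_dvd ?_ (Polynomial.map_dvd _ hdvd)
    rw [hmap]
    exact mul_ne_zero (X_sub_C_ne_zero _) (X_sub_C_ne_zero _)
  intro s hs
  rcases hs with rfl | hs
  · apply key 3 _ (⟨0, 1⟩ : E)
    · simp
    · rw [map_ofNat]
      ext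
      · simp [pow_two]; rfl
      · simp [pow_two]; rfl
  · rw [Set.mem_singleton_iff] at hs
    subst hs
    apply key 11 _ (⟨0, c / 3⟩ : E)
    · simp
    · rw [map_ofNat]
      ext
      · have h11 : (QuadraticAlgebra.re (11 : E)) = 11 := rfl
        rw [h11]
        simp [pow_two]
        rw [pow_two] at hc
        linear_combination (1 / 3 : ℚ_[2]) * hc
      · simp [pow_two]; rfl

/-- The unit distance graph on `K × K`. -/
def G : SimpleGraph (K × K) where
  Adj z w := (z.1 - w.1) ^ 2 + (z.2 - w.2) ^ 2 = 1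
  symm := ⟨fun z w h => by rw [← h]; ring⟩
  loopless := ⟨fun z h => by simp at h⟩

theorem s3_ne : s3 ≠ 0 := by
  intro h
  have := s3_sq
  rw [h] at this
  norm_num at this

theorem colorable_four : G.Colorable 4 := by
  obtain ⟨φ⟩ := exists_emb
  have hc : G.Coloring (ZMod 2 × ZMod 2) :=
    SimpleGraph.Coloring.mk
      (fun z => col (φ (z.1 + z.2 / s3), φ (2 * z.2 / s3))) (by
        intro z w h
        apply col_ne
        simp only [← map_sub, ← map_mul, ← map_add]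
        rw [← map_one φ]
        congr 1
        have h1 : (z.1 - w.1) ^ 2 + (z.2 - w.2) ^ 2 = 1 := h
        have h3 := s3_sq
        have hne := s3_ne
        field_simp
        linear_combination (s3 ^ 2) * h1 + (-(z.2 - w.2) ^ 2) * h3)
  have := hc.colorable
  simpa using this

/-- The seven points of the Moser spindle. -/
noncomputable def moser : Fin 7 → K × K :=
  ![(0, 0), (s3 / 2, 1 / 2), (s3 / 2, -1 / 2), (s3, 0),
    ((5 * s3 - s11) / 12, (s3 * s11 + 5) / 12), ((5 * s3 + s11) / 12, (s3 * s11 - 5) / 12),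
    (5 * s3 / 6, s3 * s11 / 6)]

theorem not_colorable_three : ¬ G.Colorable 3 := by
  rintro ⟨c⟩
  have h3 := s3_sq
  have h11 := s11_sq
  have e01 : G.Adj (moser 0) (moser 1) := by
    show ((0 : K) - s3 / 2) ^ 2 + ((0 : K) - 1 / 2) ^ 2 = 1
    linear_combination (1 / 4 : K) * h3
  have e02 : G.Adj (moser 0) (moser 2) := by
    show ((0 : K) - s3 / 2) ^ 2 + ((0 : K) - (-1) / 2) ^ 2 = 1
    linear_combination (1 / 4 : K) * h3
  have e12 : G.Adj (moser 1) (moser 2) := by
    show (s3 / 2 - s3 / 2) ^ 2 + ((1 : K) / 2 - (-1) / 2) ^ 2 = 1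
    ring
  have e13 : G.Adj (moser 1) (moser 3) := by
    show (s3 / 2 - s3) ^ 2 + ((1 : K) / 2 - 0) ^ 2 = 1
    linear_combination (1 / 4 : K) * h3
  have e23 : G.Adj (moser 2) (moser 3) := by
    show (s3 / 2 - s3) ^ 2 + ((-1 : K) / 2 - 0) ^ 2 = 1
    linear_combination (1 / 4 : K) * h3
  have e04 : G.Adj (moser 0) (moser 4) := by
    show (0 - (5 * s3 - s11) / 12) ^ 2 + (0 - (s3 * s11 + 5) / 12) ^ 2 = 1
    linear_combination (25 / 144 + s11 ^ 2 / 144 : K) * h3 + (4 / 144 : K) * h11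
  have e05 : G.Adj (moser 0) (moser 5) := by
    show (0 - (5 * s3 + s11) / 12) ^ 2 + (0 - (s3 * s11 - 5) / 12) ^ 2 = 1
    linear_combination (25 / 144 + s11 ^ 2 / 144 : K) * h3 + (4 / 144 : K) * h11
  have e45 : G.Adj (moser 4) (moser 5) := by
    show ((5 * s3 - s11) / 12 - (5 * s3 + s11) / 12) ^ 2 +
      ((s3 * s11 + 5) / 12 - (s3 * s11 - 5) / 12) ^ 2 = 1
    linear_combination (1 / 36 : K) * h11
  have e46 : G.Adj (moser 4) (moser 6) := by
    show ((5 * s3 - s11) / 12 - 5 * s3 / 6) ^ 2 + ((s3 * s11 + 5) / 12 - s3 * s11 / 6) ^ 2 = 1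
    linear_combination (25 / 144 + s11 ^ 2 / 144 : K) * h3 + (4 / 144 : K) * h11
  have e56 : G.Adj (moser 5) (moser 6) := by
    show ((5 * s3 + s11) / 12 - 5 * s3 / 6) ^ 2 + ((s3 * s11 - 5) / 12 - s3 * s11 / 6) ^ 2 = 1
    linear_combination (25 / 144 + s11 ^ 2 / 144 : K) * h3 + (4 / 144 : K) * h11
  have e36 : G.Adj (moser 3) (moser 6) := by
    show (s3 - 5 * s3 / 6) ^ 2 + (0 - s3 * s11 / 6) ^ 2 = 1
    linear_combination (1 / 36 + s11 ^ 2 / 36 : K) * h3 + (3 / 36 : K) * h11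
  have f01 := c.valid e01
  have f02 := c.valid e02
  have f12 := c.valid e12
  have f13 := c.valid e13
  have f23 := c.valid e23
  have f04 := c.valid e04
  have f05 := c.valid e05
  have f45 := c.valid e45
  have f46 := c.valid e46
  have f56 := c.valid e56
  have f36 := c.valid e36
  generalize c (moser 0) = x0 at *
  generalize c (moser 1) = x1 at *
  generalize c (moser 2) = x2 at *
  generalize c (moser 3) = x3 at *
  generalize c (moser 4) = x4 at *
  generalize c (moser 5) = x5 at *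
  generalize c (moser 6) = x6 at *
  have h30 : x3 = x0 := by
    clear * - f01 f02 f12 f13 f23
    revert x0 x1 x2 x3; decide
  have h60 : x6 = x0 := by
    clear * - f04 f05 f45 f46 f56
    revert x0 x4 x5 x6; decide
  exact f36 (h30.trans h60.symm)

end Q133.UnitK
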