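import Mathlib

/-!
# The number of colours which are not used by a random colouring

For a graph with at most `λ` vertices and a set `W` of vertices, the vertices outside `W` repeat a
colour of `W` with an average probability of at most `E |f(W)| / λ`.
-/

namespace Pool.Agent.Q133.Unused

open Finset
open scoped Classical

set_option linter.unusedSectionVars false

variable {V α : Type} [Fintype V] [Fintype α]

/-- the colourings which agree with `g` outside `U`, and which are proper on `U`, with colours in
`L` and not in `D v` -/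
noncomputable def C (G : SimpleGraph V) (D : V → Finset α) (g : V → α) (U : Finset V)
    (L : Finset α) : Finset (V → α) :=
  univ.filter fun f => (∀ v, v ∉ U → f v = g v) ∧ (∀ v ∈ U, f v ∈ L ∧ f v ∉ D v) ∧
    ∀ u ∈ U, ∀ v ∈ U, G.Adj u v → f u ≠ f v

/-- the number of vertices of `U` with the colour `c` -/
noncomputable def N (U : Finset V) (c : α) (f : V → α) : ℕ := (U.filter fun v => f v = c).card

lemma mem_C {G : SimpleGraph V} {D : V → Finset α} {g : V → α} {U : Finset V} {L : Finset α}
    {f : V → α} : f ∈ C G D g U L ↔ (∀ v, v ∉ U → f v = g v) ∧ (∀ v ∈ U, f v ∈ L ∧ f v ∉ D v) ∧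
    ∀ u ∈ U, ∀ v ∈ U, G.Adj u v → f u ≠ f v := by
  simp [C]

lemma sum_N_le (U : Finset V) (Y : Finset α) (f : V → α) :
    ∑ c ∈ Y, N U c f = (U.filter fun v => f v ∈ Y).card := by
  unfold N
  exact Finset.sum_card_fiberwise_eq_card_filter U Y f

/-- the average over the free colours -/
lemma bound {P : Finset (V → α)} {U : Finset V} {Y : Finset α} {c : α} (hUY : U.card ≤ Y.card)
    (h : ∀ c' ∈ Y, ∑ f ∈ P, N U c f ≤ ∑ f ∈ P, N U c' f) : ∑ f ∈ P, N U c f ≤ P.card := by
  rcases Nat.eq_zero_or_pos Y.card with h0 | h0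
  · have hU : U = ∅ := by
      rw [← card_eq_zero]; omega
    subst hU
    simp [N]
  · have h1 : Y.card * ∑ f ∈ P, N U c f ≤ P.card * Y.card := by
      calc Y.card * ∑ f ∈ P, N U c f = ∑ c' ∈ Y, ∑ f ∈ P, N U c f := by
            rw [sum_const, smul_eq_mul]
        _ ≤ ∑ c' ∈ Y, ∑ f ∈ P, N U c' f := sum_le_sum h
        _ = ∑ f ∈ P, ∑ c' ∈ Y, N U c' f := sum_comm
        _ ≤ ∑ f ∈ P, Y.card := by
            refine sum_le_sum fun f _ => ?_
            rw [sum_N_le]
            exact (card_filter_le _ _).trans hUY
        _ = P.card * Y.card := by rw [sum_const, smul_eq_mul]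
    rw [mul_comm P.card] at h1
    exact Nat.le_of_mul_le_mul_left h1 h0

/-- the fibre of a class -/
lemma fibre {G : SimpleGraph V} {D : V → Finset α} {g : V → α} {U : Finset V} {L : Finset α}
    {c' : α} {f₀ : V → α} (hf₀ : f₀ ∈ C G D g U L) (hc' : ∀ v, c' ∉ D v) (hc'L : c' ∈ L) :
    (C G D g U L).filter (fun f => (U.filter fun v => f v = c') = U.filter fun v => f₀ v = c') =
      C G D (fun v => if v ∈ U ∧ f₀ v = c' then c' else g v) (U.filter fun v => f₀ v ≠ c')
        (L.erase c') := by
  rw [mem_C] at hf₀
  obtain ⟨h1, h2, h3⟩ := hf₀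
  ext f
  rw [mem_filter, mem_C, mem_C]
  constructor
  · rintro ⟨⟨k1, k2, k3⟩, k4⟩
    have k4' : ∀ v ∈ U, (f v = c' ↔ f₀ v = c') := by
      intro v hv
      have := Finset.ext_iff.1 k4 v
      simpa [hv] using this
    refine ⟨?_, ?_, ?_⟩
    · intro v hv
      by_cases hvU : v ∈ U
      · have hv0 : f₀ v = c' := by
          by_contra hne
          exact hv (by rw [mem_filter]; exact ⟨hvU, hne⟩)
        rw [if_pos ⟨hvU, hv0⟩]
        exact (k4' v hvU).2 hv0
      · rw [if_neg (fun h => hvU h.1)]
        exact k1 v hvU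
    · intro v hv
      rw [mem_filter] at hv
      refine ⟨?_, (k2 v hv.1).2⟩
      rw [mem_erase]
      exact ⟨fun h => hv.2 ((k4' v hv.1).1 h), (k2 v hv.1).1⟩
    · intro u hu v hv
      rw [mem_filter] at hu hv
      exact k3 u hu.1 v hv.1
  · rintro ⟨k1, k2, k3⟩
    have hS : ∀ v ∈ U, f₀ v = c' → f v = c' := by
      intro v hv h0
      rw [k1 v (by rw [mem_filter]; exact fun h => h.2 h0), if_pos ⟨hv, h0⟩]
    have hN : ∀ v ∈ U, f₀ v ≠ c' → f v ∈ L ∧ f v ≠ c' ∧ f v ∉ D v := by
      intro v hv h0
      obtain ⟨a, b⟩ := k2 v (by rw [mem_filter]; exact ⟨hv, h0⟩)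
      rw [mem_erase] at a
      exact ⟨a.2, a.1, b⟩
    refine ⟨⟨?_, ?_, ?_⟩, ?_⟩
    · intro v hv
      rw [k1 v (by rw [mem_filter]; exact fun h => hv h.1), if_neg (fun h => hv h.1)]
    · intro v hv
      by_cases h0 : f₀ v = c'
      · rw [hS v hv h0]; exact ⟨hc'L, hc' v⟩
      · exact ⟨(hN v hv h0).1, (hN v hv h0).2.2⟩
    · intro u hu v hv huv
      by_cases hu0 : f₀ u = c' <;> by_cases hv0 : f₀ v = c'
      · exact absurd (hu0.trans hv0.symm) (h3 u hu v hv huv)
      · rw [hS u hu hu0]; exact (hN v hv hv0).2.1.symm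
      · rw [hS v hv hv0]; exact (hN u hu hu0).2.1
      · exact k3 u (by rw [mem_filter]; exact ⟨hu, hu0⟩) v (by rw [mem_filter]; exact ⟨hv, hv0⟩) huv
    · ext v
      rw [mem_filter, mem_filter]
      refine and_congr_right fun hv => ⟨fun h => ?_, fun h => hS v hv h⟩
      by_contra h0
      exact (hN v hv h0).2.1 h

/-- the exchange of two colours on `U` -/
noncomputable def sw (U : Finset V) (c c' : α) (f : V → α) : V → α :=
  fun v => if v ∈ U then Equiv.swap c c' (f v) else f v

lemma sw_sw (U : Finset V) (c c' : α) (f : V → α) : sw U c c' (sw U c c' f) = f := by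
  funext v
  unfold sw
  by_cases hv : v ∈ U
  · simp [hv]
  · simp [hv]

lemma N_sw (U : Finset V) (c c' : α) (f : V → α) : N U c' (sw U c c' f) = N U c f := by
  unfold N sw
  congr 1
  ext v
  rw [mem_filter, mem_filter]
  refine and_congr_right fun hv => ?_
  rw [if_pos hv]
  constructor
  · intro h
    have := congrArg (Equiv.swap c c') h
    rwa [Equiv.swap_apply_self, Equiv.swap_apply_right] at this
  · intro h
    rw [h, Equiv.swap_apply_left]

/-- **The key lemma**: a colour with restrictions is not used on more vertices, on average, than a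
free colour. -/
lemma key (G : SimpleGraph V) (D : V → Finset α) (X : Finset α) (hD : ∀ v, D v ⊆ X) :
    ∀ (n : ℕ) (U : Finset V) (g : V → α) (Y : Finset α), U.card = n → Disjoint X Y →
      U.card ≤ Y.card → ∀ c ∈ X, ∀ c' ∈ Y,
      ∑ f ∈ C G D g U (X ∪ Y), N U c f ≤ ∑ f ∈ C G D g U (X ∪ Y), N U c' f := by
  intro n
  induction n using Nat.strong_induction_on with
  | _ n ih =>
  intro U g Y hUn hXY hUY c hc c' hc'
  have hcc' : c ≠ c' := fun h => by
    subst h
    exact (disjoint_left.1 hXY) hc hc'
  have hcY : c ∉ Y := fun h => (disjoint_left.1 hXY) hc h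
  have hc'X : c' ∉ X := fun h => (disjoint_left.1 hXY) h hc'
  have hc'D : ∀ v, c' ∉ D v := fun v h => hc'X (hD v h)
  set P := C G D g U (X ∪ Y) with hP
  -- the colourings in which the two colours can be exchanged
  rw [← sum_filter_add_sum_filter_not P (fun f => ∀ v ∈ U, f v = c' → c ∉ D v) (N U c),
    ← sum_filter_add_sum_filter_not P (fun f => ∀ v ∈ U, f v = c' → c ∉ D v) (N U c')]
  refine add_le_add (le_of_eq ?_) ?_
  · -- the involution
    have hmap : ∀ f ∈ P.filter (fun f => ∀ v ∈ U, f v = c' → c ∉ D v),
        sw U c c' f ∈ P.filter (fun f => ∀ v ∈ U, f v = c' → c ∉ D v) := by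
      intro f hf
      rw [mem_filter, hP, mem_C] at hf ⊢
      obtain ⟨⟨h1, h2, h3⟩, h4⟩ := hf
      refine ⟨⟨?_, ?_, ?_⟩, ?_⟩
      · intro v hv
        unfold sw
        rw [if_neg hv]
        exact h1 v hv
      · intro v hv
        unfold sw
        rw [if_pos hv]
        by_cases e1 : f v = c
        · rw [e1, Equiv.swap_apply_left]
          exact ⟨mem_union_right _ hc', hc'D v⟩
        · by_cases e2 : f v = c'
          · rw [e2, Equiv.swap_apply_right]
            exact ⟨mem_union_left _ hc, h4 v hv e2⟩
          · rw [Equiv.swap_apply_of_ne_of_ne e1 e2]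
            exact h2 v hv
      · intro u hu v hv huv
        unfold sw
        rw [if_pos hu, if_pos hv]
        exact fun h => h3 u hu v hv huv ((Equiv.swap c c').injective h)
      · intro v hv h
        unfold sw at h
        rw [if_pos hv] at h
        have h5 : f v = c := by
          have := congrArg (Equiv.swap c c') h
          rwa [Equiv.swap_apply_self, Equiv.swap_apply_right] at this
        have := (h2 v hv).2
        rwa [h5] at this
    refine sum_nbij' (sw U c c') (sw U c c') hmap hmap (fun f _ => sw_sw U c c' f)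
      (fun f _ => sw_sw U c c' f) fun f _ => (N_sw U c c' f).symm
  · -- the other colourings
    set B := P.filter (fun f => ¬ ∀ v ∈ U, f v = c' → c ∉ D v) with hB
    have hB1 : B.card ≤ ∑ f ∈ B, N U c' f := by
      rw [card_eq_sum_ones]
      refine sum_le_sum fun f hf => ?_
      rw [hB, mem_filter] at hf
      obtain ⟨-, hf⟩ := hf
      push Not at hf
      obtain ⟨v, hv, h1, -⟩ := hf
      unfold N
      rw [Nat.succ_le_iff, card_pos]
      exact ⟨v, by rw [mem_filter]; exact ⟨hv, h1⟩⟩
    refine le_trans ?_ hB1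
    -- the classes
    rw [← sum_fiberwise_of_maps_to (s := B) (t := U.powerset)
      (g := fun f => U.filter fun v => f v = c') (fun f _ => by
        rw [mem_powerset]; exact filter_subset _ _) (N U c),
      card_eq_sum_card_fiberwise (s := B) (t := U.powerset)
      (f := fun f => U.filter fun v => f v = c') (fun f _ => by
        rw [mem_coe, mem_powerset]; exact filter_subset _ _)]
    refine sum_le_sum fun S _ => ?_
    rcases (B.filter fun f => (U.filter fun v => f v = c') = S).eq_empty_or_nonempty with
      he | ⟨f₀, hf₀⟩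
    · rw [he]; simp
    · rw [mem_filter, hB, mem_filter] at hf₀
      obtain ⟨⟨hf₀P, hf₀B⟩, rfl⟩ := hf₀
      push Not at hf₀B
      obtain ⟨z, hz, hz1, hz2⟩ := hf₀B
      have hfib : B.filter (fun f => (U.filter fun v => f v = c') = U.filter fun v => f₀ v = c') =
          P.filter (fun f => (U.filter fun v => f v = c') = U.filter fun v => f₀ v = c') := by
        ext f
        simp only [hB, mem_filter]
        constructor
        · rintro ⟨⟨a, -⟩, b⟩; exact ⟨a, b⟩
        · rintro ⟨a, b⟩
          refine ⟨⟨a, ?_⟩, b⟩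
          push Not
          have : z ∈ U.filter fun v => f v = c' := by rw [b, mem_filter]; exact ⟨hz, hz1⟩
          rw [mem_filter] at this
          exact ⟨z, hz, this.2, hz2⟩
      rw [hfib, hP, fibre hf₀P hc'D (mem_union_right _ hc')]
      set U' := U.filter fun v => f₀ v ≠ c' with hU'
      set g' : V → α := fun v => if v ∈ U ∧ f₀ v = c' then c' else g v with hg'
      have hL : (X ∪ Y).erase c' = X ∪ Y.erase c' := by
        ext a
        simp only [mem_erase, mem_union]
        constructor
        · rintro ⟨h1, h2 | h2⟩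
          · exact Or.inl h2
          · exact Or.inr ⟨h1, h2⟩
        · rintro (h2 | ⟨h1, h2⟩)
          · exact ⟨fun h => hc'X (h ▸ h2), Or.inl h2⟩
          · exact ⟨h1, Or.inr h2⟩
      rw [hL]
      have hcard : U'.card < U.card := by
        apply card_lt_card
        rw [hU', filter_ssubset]
        exact ⟨z, hz, by simpa using hz1⟩
      have hcard2 : U'.card ≤ (Y.erase c').card := by
        rw [card_erase_of_mem hc']; omega
      have hN : ∀ f ∈ C G D g' U' (X ∪ Y.erase c'), N U c f = N U' c f := by
        intro f hf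
        rw [mem_C] at hf
        unfold N
        congr 1
        ext v
        rw [mem_filter, mem_filter, hU', mem_filter]
        constructor
        · rintro ⟨h1, h2⟩
          refine ⟨⟨h1, fun h3 => ?_⟩, h2⟩
          have h4 := hf.1 v (by rw [hU', mem_filter]; exact fun h => h.2 h3)
          rw [hg'] at h4
          simp only [h1, h3, and_self, if_true] at h4
          exact hcc' (h2.symm.trans h4)
        · rintro ⟨⟨h1, -⟩, h2⟩; exact ⟨h1, h2⟩
      rw [sum_congr rfl hN]
      apply bound hcard2
      intro c'' hc''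
      exact ih U'.card (by omega) U' g' (Y.erase c') rfl
        (disjoint_of_subset_right (erase_subset _ _) hXY) hcard2 c hc c'' hc''

/-! ### Proper colourings -/

/-- the proper colourings -/
noncomputable def PC (G : SimpleGraph V) (α : Type) [Fintype α] : Finset (V → α) :=
  univ.filter fun f => ∀ u v, G.Adj u v → f u ≠ f v

lemma mem_PC {G : SimpleGraph V} {f : V → α} : f ∈ PC G α ↔ ∀ u v, G.Adj u v → f u ≠ f v := by
  simp [PC]

/-- the average over the vertices outside `W` of the probability of repeating a colour of `W` -/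
lemma repeat_le (G : SimpleGraph V) (W : Finset V) (hV : Fintype.card V ≤ Fintype.card α) :
    Fintype.card α * ∑ f ∈ PC G α, (Wᶜ.filter fun v => f v ∈ W.image f).card ≤
      Wᶜ.card * ∑ f ∈ PC G α, (W.image f).card := by
  rw [mul_sum, mul_sum]
  -- group the colourings by their restriction to `W`
  rw [← sum_fiberwise_of_maps_to (s := PC G α) (t := (univ : Finset (V → Option α)))
      (g := fun f v => if v ∈ W then some (f v) else none) (fun f _ => mem_univ _),
    ← sum_fiberwise_of_maps_to (s := PC G α) (t := (univ : Finset (V → Option α)))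
      (g := fun f v => if v ∈ W then some (f v) else none) (fun f _ => mem_univ _)]
  refine sum_le_sum fun r _ => ?_
  rcases ((PC G α).filter fun f => (fun v => if v ∈ W then some (f v) else none) = r).eq_empty_or_nonempty
    with he | ⟨g, hg⟩
  · rw [he]; simp
  · rw [mem_filter, mem_PC] at hg
    obtain ⟨hg, rfl⟩ := hg
    set X := W.image g with hX
    set D : V → Finset α := fun v => (W.filter fun w => G.Adj v w).image g with hD
    have hDX : ∀ v, D v ⊆ X := fun v => image_subset_image (filter_subset _ _)
    have hfib : (PC G α).filter (fun f => (fun v => if v ∈ W then some (f v) else none) =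
        fun v => if v ∈ W then some (g v) else none) = C G D g Wᶜ (X ∪ Xᶜ) := by
      ext f
      rw [mem_filter, mem_PC, mem_C]
      have hiff : ((fun v => if v ∈ W then some (f v) else none) =
          fun v => if v ∈ W then some (g v) else none) ↔ ∀ v ∈ W, f v = g v := by
        constructor
        · intro h v hv
          have := congrFun h v
          simpa [hv] using this
        · intro h
          funext v
          by_cases hv : v ∈ W
          · simp [hv, h v hv]
          · simp [hv]
      rw [hiff]
      constructor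
      · rintro ⟨h1, h2⟩
        refine ⟨?_, ?_, ?_⟩
        · intro v hv
          rw [mem_compl, not_not] at hv
          exact h2 v hv
        · intro v _
          refine ⟨by simp, ?_⟩
          rw [hD]
          simp only [mem_image, mem_filter, not_exists, not_and]
          rintro w ⟨hw, hvw⟩ he
          rw [← h2 w hw] at he
          exact h1 v w hvw he.symm
        · intro u _ v _ huv
          exact h1 u v huv
      · rintro ⟨h1, h2, h3⟩
        have h4 : ∀ v ∈ W, f v = g v := fun v hv => h1 v (by rw [mem_compl, not_not]; exact hv)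
        have h5 : ∀ v, v ∉ W → ∀ w ∈ W, G.Adj v w → f v ≠ f w := by
          intro v hv w hw hvw he
          apply (h2 v (mem_compl.2 hv)).2
          rw [hD]
          simp only [mem_image, mem_filter]
          exact ⟨w, ⟨hw, hvw⟩, by rw [he, h4 w hw]⟩
        refine ⟨fun u v huv => ?_, h4⟩
        by_cases hu : u ∈ W <;> by_cases hv : v ∈ W
        · rw [h4 u hu, h4 v hv]; exact hg u v huv
        · exact (h5 v hv u hu huv.symm).symm
        · exact h5 u hu v hv huv
        · exact h3 u (mem_compl.2 hu) v (mem_compl.2 hv) huv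
    rw [hfib]
    set P := C G D g Wᶜ (X ∪ Xᶜ) with hP
    have him : ∀ f ∈ P, W.image f = X := by
      intro f hf
      rw [hP, mem_C] at hf
      rw [hX]
      exact image_congr fun v hv => hf.1 v (by rw [mem_compl, not_not]; exact hv)
    have hcardW : X.card ≤ W.card := card_image_le
    have hWc : W.card + Wᶜ.card = Fintype.card V := by rw [card_add_card_compl]
    have hXc : X.card + Xᶜ.card = Fintype.card α := by rw [card_add_card_compl]
    have hkey : ∀ c ∈ X, ∀ c' ∈ Xᶜ, ∑ f ∈ P, N Wᶜ c f ≤ ∑ f ∈ P, N Wᶜ c' f := fun c hc c' hc' =>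
      key G D X hDX Wᶜ.card Wᶜ g Xᶜ rfl disjoint_compl_right (by omega) c hc c' hc'
    -- sum over all pairs
    have hsum : Xᶜ.card * ∑ f ∈ P, (Wᶜ.filter fun v => f v ∈ X).card ≤
        X.card * ∑ f ∈ P, (Wᶜ.filter fun v => f v ∈ Xᶜ).card := by
      calc Xᶜ.card * ∑ f ∈ P, (Wᶜ.filter fun v => f v ∈ X).card
          = ∑ c' ∈ Xᶜ, ∑ c ∈ X, ∑ f ∈ P, N Wᶜ c f := by
            rw [sum_const, smul_eq_mul, sum_comm]
            simp only [sum_N_le]
        _ ≤ ∑ c' ∈ Xᶜ, ∑ c ∈ X, ∑ f ∈ P, N Wᶜ c' f :=
            sum_le_sum fun c' hc' => sum_le_sum fun c hc => hkey c hc c' hc'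
        _ = X.card * ∑ f ∈ P, (Wᶜ.filter fun v => f v ∈ Xᶜ).card := by
            rw [sum_comm, sum_const, smul_eq_mul, sum_comm]
            simp only [sum_N_le]
    have hsplit : ∀ f : V → α, (Wᶜ.filter fun v => f v ∈ X).card +
        (Wᶜ.filter fun v => f v ∈ Xᶜ).card = Wᶜ.card := by
      intro f
      simp only [mem_compl]
      exact card_filter_add_card_filter_not _
    have hsplit' : ∑ f ∈ P, (Wᶜ.filter fun v => f v ∈ X).card +
        ∑ f ∈ P, (Wᶜ.filter fun v => f v ∈ Xᶜ).card = P.card * Wᶜ.card := by
      rw [← sum_add_distrib, sum_congr rfl fun f _ => hsplit f, sum_const, smul_eq_mul]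
    rw [← mul_sum, ← mul_sum]
    have hA : ∑ f ∈ P, (Wᶜ.filter fun v => f v ∈ W.image f).card =
        ∑ f ∈ P, (Wᶜ.filter fun v => f v ∈ X).card :=
      sum_congr rfl fun f hf => by rw [him f hf]
    have hB : ∑ f ∈ P, (W.image f).card = P.card * X.card := by
      rw [sum_congr rfl fun f hf => by rw [him f hf], sum_const, smul_eq_mul]
    rw [hA, hB]
    set A := ∑ f ∈ P, (Wᶜ.filter fun v => f v ∈ X).card
    set B := ∑ f ∈ P, (Wᶜ.filter fun v => f v ∈ Xᶜ).card
    have h6 : (X.card + Xᶜ.card) * A ≤ X.card * (A + B) := by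
      rw [add_mul, mul_add]; omega
    rw [hXc, hsplit'] at h6
    calc Fintype.card α * A ≤ X.card * (P.card * Wᶜ.card) := h6
      _ = Wᶜ.card * (P.card * X.card) := by ring

/-- one more vertex -/
lemma exists_vertex (G : SimpleGraph V) (W : Finset V) (hV : Fintype.card V ≤ Fintype.card α)
    (hW : Wᶜ.Nonempty) : ∃ v ∈ Wᶜ, Fintype.card α * ((PC G α).filter fun f => f v ∈ W.image f).card ≤
      ∑ f ∈ PC G α, (W.image f).card := by
  have h := repeat_le (α := α) G W hV
  have h1 : ∑ f ∈ PC G α, (Wᶜ.filter fun v => f v ∈ W.image f).card =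
      ∑ v ∈ Wᶜ, ((PC G α).filter fun f => f v ∈ W.image f).card := by
    simp only [card_filter]
    exact sum_comm
  rw [h1, mul_sum, ← smul_eq_mul (Wᶜ.card), ← sum_const] at h
  exact exists_le_of_sum_le hW h

/-- the bound, starting from any set of vertices -/
theorem main (G : SimpleGraph V) (hV : Fintype.card V ≤ Fintype.card α)
    (hα : 0 < Fintype.card α) : ∀ (n : ℕ) (W : Finset V), Wᶜ.card = n →
      (Fintype.card α : ℝ) * (PC G α).card - ∑ f ∈ PC G α, ((univ.image f).card : ℝ) ≤
      (1 - 1 / (Fintype.card α : ℝ)) ^ n *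
        ((Fintype.card α : ℝ) * (PC G α).card - ∑ f ∈ PC G α, ((W.image f).card : ℝ)) := by
  intro n
  induction n with
  | zero =>
    intro W hW
    rw [card_eq_zero, compl_eq_empty_iff] at hW
    subst hW
    rw [pow_zero, one_mul]
  | succ n ih =>
    intro W hW
    have hne : Wᶜ.Nonempty := by rw [← card_pos]; omega
    obtain ⟨v, hv, h⟩ := exists_vertex (α := α) G W hV hne
    have hvW : v ∉ W := mem_compl.1 hv
    have h1 : (insert v W)ᶜ.card = n := by
      rw [compl_insert, card_erase_of_mem hv]; omega
    refine (ih _ h1).trans ?_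
    rw [pow_succ, mul_assoc]
    have hl : (0 : ℝ) < Fintype.card α := by exact_mod_cast hα
    have hl1 : (1 : ℝ) ≤ Fintype.card α := by exact_mod_cast hα
    have hfac : (0 : ℝ) ≤ 1 - 1 / (Fintype.card α : ℝ) := by
      rw [sub_nonneg, div_le_one hl]; exact hl1
    refine mul_le_mul_of_nonneg_left ?_ (pow_nonneg hfac n)
    -- the increment
    have h2 : ∀ f : V → α, ((insert v W).image f).card + (if f v ∈ W.image f then 1 else 0) =
        (W.image f).card + 1 := by
      intro f
      rw [image_insert]
      by_cases hf : f v ∈ W.image f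
      · rw [insert_eq_of_mem hf, if_pos hf]
      · rw [card_insert_of_notMem hf, if_neg hf]
    have h3 : ∑ f ∈ PC G α, ((insert v W).image f).card +
        ((PC G α).filter fun f => f v ∈ W.image f).card =
        ∑ f ∈ PC G α, (W.image f).card + (PC G α).card := by
      rw [card_filter, ← sum_add_distrib, sum_congr rfl fun f _ => h2 f, sum_add_distrib,
        card_eq_sum_ones]
    have h4 : (∑ f ∈ PC G α, (((insert v W).image f).card : ℝ)) +
        ((PC G α).filter fun f => f v ∈ W.image f).card =
        ∑ f ∈ PC G α, ((W.image f).card : ℝ) + (PC G α).card := by exact_mod_cast h3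
    have h5 : (Fintype.card α : ℝ) * ((PC G α).filter fun f => f v ∈ W.image f).card ≤
        ∑ f ∈ PC G α, ((W.image f).card : ℝ) := by exact_mod_cast h
    set l : ℝ := (Fintype.card α : ℝ)
    set P : ℝ := ((PC G α).card : ℝ)
    set a : ℝ := (((PC G α).filter fun f => f v ∈ W.image f).card : ℝ)
    set u : ℝ := ∑ f ∈ PC G α, ((W.image f).card : ℝ)
    set u' : ℝ := ∑ f ∈ PC G α, (((insert v W).image f).card : ℝ)
    have h6 : a ≤ u / l := by rw [le_div_iff₀ hl]; linarith
    have h7 : (1 - 1 / l) * (l * P - u) = l * P - P - u + u / l := by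
      field_simp
      ring
    rw [h7]
    linarith

lemma card_congr {β γ : Type} [Fintype β] [Fintype γ] (G : SimpleGraph V) (e : β ≃ γ) :
    (PC G β).card = (PC G γ).card := by
  apply card_bij (fun f _ => fun v => e (f v))
  · intro f hf
    rw [mem_PC] at hf ⊢
    exact fun u v huv h => hf u v huv (e.injective h)
  · intro f _ f' _ h
    funext v
    exact e.injective (congrFun h v)
  · intro f hf
    rw [mem_PC] at hf
    refine ⟨fun v => e.symm (f v), ?_, by simp⟩
    rw [mem_PC]
    exact fun u v huv h => hf u v huv (e.symm.injective h)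

lemma card_avoid (G : SimpleGraph V) (c : α) :
    ((PC G α).filter fun f => c ∉ univ.image f).card = (PC G {x : α // x ≠ c}).card := by
  symm
  apply card_bij (fun f _ => fun v => (f v).1)
  · intro f hf
    rw [mem_PC] at hf
    rw [mem_filter, mem_PC]
    refine ⟨fun u v huv h => hf u v huv (Subtype.ext h), ?_⟩
    simp only [mem_image, mem_univ, true_and, not_exists]
    exact fun v => (f v).2
  · intro f _ f' _ h
    funext v
    exact Subtype.ext (congrFun h v)
  · intro f hf
    rw [mem_filter, mem_PC] at hf
    simp only [mem_image, mem_univ, true_and, not_exists] at hf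
    refine ⟨fun v => ⟨f v, hf.2 v⟩, ?_, rfl⟩
    rw [mem_PC]
    exact fun u v huv h => hf.1 u v huv (congrArg Subtype.val h)

/-- the number of unused colours -/
lemma unused (G : SimpleGraph V) (m : ℕ) (hm : Fintype.card α = m + 1) :
    (Fintype.card α : ℝ) * (PC G α).card - ∑ f ∈ PC G α, ((univ.image f).card : ℝ) =
      (Fintype.card α : ℝ) * (PC G (Fin m)).card := by
  have h1 : ∀ c : α, ((PC G α).filter fun f => c ∉ univ.image f).card = (PC G (Fin m)).card := by
    intro c
    rw [card_avoid]
    apply card_congr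
    apply Fintype.equivFinOfCardEq
    rw [Fintype.card_subtype_compl, Fintype.card_subtype_eq, hm]
    rfl
  have h2 : ∑ f ∈ PC G α, (univ.image f)ᶜ.card = Fintype.card α * (PC G (Fin m)).card := by
    have h3 : ∀ f : V → α, (univ.image f)ᶜ.card = ∑ c : α, if c ∉ univ.image f then 1 else 0 := by
      intro f
      rw [← card_filter]
      congr 1
      ext c
      simp
    rw [sum_congr rfl fun f _ => h3 f, sum_comm]
    simp only [← card_filter]
    rw [sum_congr rfl fun c _ => h1 c, sum_const, smul_eq_mul, card_univ]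
  have h4 : ∑ f ∈ PC G α, ((univ.image f).card + (univ.image f)ᶜ.card) =
      (PC G α).card * Fintype.card α := by
    rw [sum_congr rfl fun f _ => card_add_card_compl (univ.image f), sum_const, smul_eq_mul]
  rw [sum_add_distrib, h2] at h4
  have h5 : ∑ f ∈ PC G α, ((univ.image f).card : ℝ) + (Fintype.card α : ℝ) * (PC G (Fin m)).card =
      (PC G α).card * Fintype.card α := by exact_mod_cast h4
  linarith

/-- the bound, starting from a clique -/
theorem final (G : SimpleGraph V) (m : ℕ) (hm : Fintype.card α = m + 1)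
    (hV : Fintype.card V ≤ Fintype.card α) (K : Finset V) (hK : G.IsClique K) :
    ((m : ℝ) + 1) * (PC G (Fin m)).card ≤
      (1 - 1 / ((m : ℝ) + 1)) ^ (Fintype.card V - K.card) *
        (((m : ℝ) + 1) * (PC G α).card - (PC G α).card * K.card) := by
  have h := main (α := α) G hV (by omega) (Kᶜ.card) K rfl
  rw [unused G m hm, card_compl] at h
  have hu : ∑ f ∈ PC G α, ((K.image f).card : ℝ) = (PC G α).card * (K.card : ℝ) := by
    rw [sum_congr rfl (g := fun _ => (K.card : ℝ)), sum_const, nsmul_eq_mul]
    intro f hf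
    rw [mem_PC] at hf
    rw [card_image_of_injOn]
    intro u hu v hv huv
    by_contra hne
    exact hf u v (hK hu hv hne) huv
  rw [hu, hm] at h
  push_cast at h
  exact h

/-- the number of colourings -/
lemma card_coloring (G : SimpleGraph V) (β : Type) [Fintype β] :
    Nat.card (G.Coloring β) = (PC G β).card := by
  have e : G.Coloring β ≃ {f : V → β // f ∈ PC G β} :=
    { toFun := fun C => ⟨fun v => C v, by rw [mem_PC]; exact fun u v huv => C.valid huv⟩
      invFun := fun f => SimpleGraph.Coloring.mk f.1 (fun {u v} huv => (mem_PC.1 f.2) u v huv)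
      left_inv := fun C => by ext v; rfl
      right_inv := fun f => by ext v; rfl }
  rw [Nat.card_congr e, Nat.card_eq_fintype_card, Fintype.card_coe]

end Pool.Agent.Q133.Unused
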