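import Mathlib

set_option autoImplicit false

namespace Q133.Veto

/-- a veto interval representation of `G`: vertex `a` gets the triple `(l a, v a, r a)` -/
structure VetoRep {V : Type*} (G : SimpleGraph V) where
  l : V → ℝ
  v : V → ℝ
  r : V → ℝ
  hlv : ∀ a, l a < v a
  hvr : ∀ a, v a < r a
  /-- distinct vertices get distinct triples -/
  inj : ∀ a b, l a = l b → v a = v b → r a = r b → a = b
  /-- adjacency of distinct vertices -/
  adj : ∀ a b, a ≠ b → (G.Adj a b ↔
    (v a < l b ∧ l b < r a ∧ r a < v b) ∨ (v b < l a ∧ l a < r b ∧ r b < v a))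

variable {V : Type*} {G : SimpleGraph V}

/-- all intervals have the same length -/
def VetoRep.IsUnit (R : VetoRep G) : Prop := ∀ a b, R.r a - R.l a = R.r b - R.l b

/-- no interval properly contains another -/
def VetoRep.IsProper (R : VetoRep G) : Prop :=
  ∀ a b, ¬ (Set.Icc (R.l a) (R.r a) ⊂ Set.Icc (R.l b) (R.r b))

/-- every veto mark is the midpoint of its interval -/
def VetoRep.IsMidpoint (R : VetoRep G) : Prop := ∀ a, R.v a = (R.l a + R.r a) / 2

/-- UVI graphs -/
def IsUVI (G : SimpleGraph V) : Prop := ∃ R : VetoRep G, R.IsUnit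

/-- MPVI graphs -/
def IsMPVI (G : SimpleGraph V) : Prop := ∃ R : VetoRep G, R.IsMidpoint ∧ R.IsProper

theorem VetoRep.lr (R : VetoRep G) (a : V) : R.l a < R.r a := (R.hlv a).trans (R.hvr a)

/-- in a midpoint proper representation left ends and right ends are in the same strict order -/
theorem order {R : VetoRep G} (hm : R.IsMidpoint) (hp : R.IsProper) {a b : V} (hab : a ≠ b) :
    (R.l a < R.l b ∧ R.v a < R.v b ∧ R.r a < R.r b) ∨
      (R.l b < R.l a ∧ R.v b < R.v a ∧ R.r b < R.r a) := by
  have h1 := hm a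
  have h2 := hm b
  have key : ∀ x y : V, R.l x ≤ R.l y → x ≠ y →
      (R.l x < R.l y ∧ R.r x < R.r y) := by
    intro x y h hne
    have hp1 := hp y x
    have hp2 := hp x y
    by_cases hr : R.r x < R.r y
    · refine ⟨?_, hr⟩
      rcases lt_or_eq_of_le h with h | h
      · exact h
      · exfalso
        apply hp2
        rw [Set.ssubset_iff_subset_ne]
        refine ⟨Set.Icc_subset_Icc h.ge hr.le, ?_⟩
        intro he
        have := (Set.Icc_subset_Icc_iff (R.lr y).le).mp he.ge
        linarith [this.2]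
    · exfalso
      push Not at hr
      apply hp1
      rw [Set.ssubset_iff_subset_ne]
      refine ⟨Set.Icc_subset_Icc h hr, ?_⟩
      intro he
      have := (Set.Icc_subset_Icc_iff (R.lr x).le).mp he.ge
      apply hne
      apply R.inj
      · linarith [this.1]
      · rw [hm x, hm y]; linarith [this.1, this.2]
      · linarith [this.2]
  rcases le_total (R.l a) (R.l b) with h | h
  · have := key a b h hab
    exact Or.inl ⟨this.1, by rw [h1, h2]; linarith [this.1, this.2], this.2⟩
  · have := key b a h hab.symm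
    exact Or.inr ⟨this.1, by rw [h1, h2]; linarith [this.1, this.2], this.2⟩

/-- forward neighbours form an interval of the order -/
theorem forward {R : VetoRep G} (hm : R.IsMidpoint) (hp : R.IsProper) {x p q s : V}
    (hxp : R.v x < R.v p) (hpq : R.v p < R.v q) (hqs : R.v q < R.v s)
    (ap : G.Adj x p) (as : G.Adj x s) : G.Adj x q := by
  have hne : ∀ {a b : V}, R.v a < R.v b → a ≠ b := fun h h' => by rw [h'] at h; exact lt_irrefl _ h
  have oxp : R.l x < R.l p ∧ R.v x < R.v p ∧ R.r x < R.r p := by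
    rcases order hm hp (hne hxp) with h | h
    · exact h
    · exact absurd h.2.1 (not_lt.mpr hxp.le)
  have opq : R.l p < R.l q ∧ R.v p < R.v q ∧ R.r p < R.r q := by
    rcases order hm hp (hne hpq) with h | h
    · exact h
    · exact absurd h.2.1 (not_lt.mpr hpq.le)
  have oqs : R.l q < R.l s ∧ R.v q < R.v s ∧ R.r q < R.r s := by
    rcases order hm hp (hne hqs) with h | h
    · exact h
    · exact absurd h.2.1 (not_lt.mpr hqs.le)
  have e1 := (R.adj x p ap.ne).mp ap
  have e2 := (R.adj x s as.ne).mp as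
  have n1 := R.hlv x
  have n2 := R.hvr x
  have n3 := R.hlv p
  have n4 := R.hvr p
  have n5 := R.hlv s
  have n6 := R.hvr s
  have hxq : x ≠ q := hne (hxp.trans hpq)
  rw [R.adj x q hxq]
  left
  rcases e1 with e1 | e1
  · rcases e2 with e2 | e2
    · refine ⟨?_, ?_, ?_⟩
      · linarith [e1.1, opq.1]
      · linarith [e2.2.1, oqs.1]
      · linarith [e1.2.2, opq.2.1]
    · exfalso; linarith [e2.1, oxp.1, opq.1, oqs.1, oxp.2.1, opq.2.1, oqs.2.1]
  · exfalso; linarith [e1.1, oxp.1, oxp.2.1]

/-- backward neighbours form an interval of the order -/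
theorem backward {R : VetoRep G} (hm : R.IsMidpoint) (hp : R.IsProper) {x p q s : V}
    (hxp : R.v p < R.v x) (hpq : R.v q < R.v p) (hqs : R.v s < R.v q)
    (ap : G.Adj x p) (as : G.Adj x s) : G.Adj x q := by
  have hne : ∀ {a b : V}, R.v a < R.v b → a ≠ b := fun h h' => by rw [h'] at h; exact lt_irrefl _ h
  have oxp : R.l p < R.l x ∧ R.v p < R.v x ∧ R.r p < R.r x := by
    rcases order hm hp (hne hxp) with h | h
    · exact h
    · exact absurd h.2.1 (not_lt.mpr hxp.le)
  have opq : R.l q < R.l p ∧ R.v q < R.v p ∧ R.r q < R.r p := by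
    rcases order hm hp (hne hpq) with h | h
    · exact h
    · exact absurd h.2.1 (not_lt.mpr hpq.le)
  have oqs : R.l s < R.l q ∧ R.v s < R.v q ∧ R.r s < R.r q := by
    rcases order hm hp (hne hqs) with h | h
    · exact h
    · exact absurd h.2.1 (not_lt.mpr hqs.le)
  have e1 := (R.adj x p ap.ne).mp ap
  have e2 := (R.adj x s as.ne).mp as
  have n1 := R.hlv x
  have n2 := R.hvr x
  have n3 := R.hlv p
  have n4 := R.hvr p
  have n5 := R.hlv s
  have n6 := R.hvr s
  have hxq : x ≠ q := (hne (hpq.trans hxp)).symm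
  rw [R.adj x q hxq]
  right
  rcases e1 with e1 | e1
  · exfalso; linarith [e1.1, oxp.1, oxp.2.1]
  · rcases e2 with e2 | e2
    · exfalso; linarith [e2.1, oxp.1, opq.1, oqs.1, oxp.2.1, opq.2.1, oqs.2.1]
    · refine ⟨?_, ?_, ?_⟩
      · linarith [e1.1, opq.2.1]
      · linarith [e2.2.1, oqs.2.2]
      · linarith [e1.2.2, opq.2.2]

/-- the cube graph: `K_{4,4}` minus a perfect matching -/
def crown : SimpleGraph (Fin 8) where
  Adj i j := (i.val < 4 ∧ 4 ≤ j.val ∧ j.val ≠ i.val + 4) ∨ (j.val < 4 ∧ 4 ≤ i.val ∧ i.val ≠ j.val + 4)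
  symm := ⟨by decide⟩
  loopless := ⟨by decide⟩

instance : DecidableRel crown.Adj := fun i j => inferInstanceAs (Decidable
  ((i.val < 4 ∧ 4 ≤ j.val ∧ j.val ≠ i.val + 4) ∨ (j.val < 4 ∧ 4 ≤ i.val ∧ i.val ≠ j.val + 4)))

def L : Fin 8 → ℤ := ![8, 11, 10, 13, 21, 18, 3, 0]
def M : Fin 8 → ℤ := ![17, 19, 14, 16, 31, 26, 4, 1]

theorem check : ∀ a b : Fin 8, a ≠ b → (crown.Adj a b ↔
    (M a < L b ∧ L b < L a + 12 ∧ L a + 12 < M b) ∨
      (M b < L a ∧ L a < L b + 12 ∧ L b + 12 < M a)) := by decide +kernel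

theorem crown_uvi : IsUVI crown := by
  refine ⟨⟨fun a => (L a : ℝ), fun a => (M a : ℝ), fun a => (L a : ℝ) + 12, ?_, ?_, ?_, ?_⟩, ?_⟩
  · intro a
    have : ∀ a, L a < M a := by decide
    exact_mod_cast this a
  · intro a
    have : ∀ a, M a < L a + 12 := by decide
    exact_mod_cast this a
  · intro a b h _ _
    have : ∀ a b, L a = L b → a = b := by decide
    exact this a b (by exact_mod_cast h)
  · intro a b hab
    rw [check a b hab]
    constructor
    · rintro (⟨h1, h2, h3⟩ | ⟨h1, h2, h3⟩)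
      · exact Or.inl ⟨by exact_mod_cast h1, by exact_mod_cast h2, by exact_mod_cast h3⟩
      · exact Or.inr ⟨by exact_mod_cast h1, by exact_mod_cast h2, by exact_mod_cast h3⟩
    · rintro (⟨h1, h2, h3⟩ | ⟨h1, h2, h3⟩)
      · exact Or.inl ⟨by exact_mod_cast h1, by exact_mod_cast h2, by exact_mod_cast h3⟩
      · exact Or.inr ⟨by exact_mod_cast h1, by exact_mod_cast h2, by exact_mod_cast h3⟩
  · intro a b
    simp only [add_sub_cancel_left]

/-- every vertex `x` has three neighbours and any two of them, `p` and `s`, have a common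
neighbour `z` that is neither `x` nor adjacent to `x` nor adjacent to the third neighbour `q` -/
theorem crown_local : ∀ x p q s : Fin 8, crown.Adj x p → crown.Adj x q → crown.Adj x s →
    p ≠ q → q ≠ s → p ≠ s → ∃ z, crown.Adj z p ∧ crown.Adj z s ∧ ¬ crown.Adj z q ∧
      ¬ crown.Adj x z := by decide +kernel

theorem crown_deg : ∀ x : Fin 8, ∃ p q s, crown.Adj x p ∧ crown.Adj x q ∧ crown.Adj x s ∧
    p ≠ q ∧ q ≠ s ∧ p ≠ s := by decide +kernel

theorem crown_not_mpvi : ¬ IsMPVI crown := by
  rintro ⟨R, hm, hp⟩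
  have hinj : Function.Injective R.v := by
    intro a b h
    by_contra hne
    rcases order hm hp hne with h' | h'
    · exact absurd h (ne_of_lt h'.2.1)
    · exact absurd h.symm (ne_of_lt h'.2.1)
  -- first vertex
  obtain ⟨x, -, hx⟩ := Finset.exists_min_image (Finset.univ : Finset (Fin 8)) R.v ⟨0, by simp⟩
  have hx' : ∀ y, y ≠ x → R.v x < R.v y := fun y hy =>
    lt_of_le_of_ne (hx y (Finset.mem_univ y)) (fun h => hy (hinj h).symm)
  -- three neighbours in increasing order
  have main : ∀ p q s : Fin 8, crown.Adj x p → crown.Adj x q → crown.Adj x s →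
      R.v p < R.v q → R.v q < R.v s → False := by
    intro p q s ap aq as hpq hqs
    have npq : p ≠ q := fun h => by rw [h] at hpq; exact lt_irrefl _ hpq
    have nqs : q ≠ s := fun h => by rw [h] at hqs; exact lt_irrefl _ hqs
    have nps : p ≠ s := fun h => by rw [h] at hpq; exact lt_irrefl _ (hpq.trans hqs)
    obtain ⟨z, zp, zs, zq, xz⟩ := crown_local x p q s ap aq as npq nqs nps
    have hzp : z ≠ p := zp.ne
    have hzs : z ≠ s := zs.ne
    have hzq : z ≠ q := by rintro rfl; exact xz aq
    rcases lt_or_gt_of_ne (fun h => hzp (hinj h) : R.v z ≠ R.v p) with h1 | h1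
    · exact zq (forward hm hp h1 hpq hqs zp zs)
    · rcases lt_or_gt_of_ne (fun h => hzs (hinj h) : R.v z ≠ R.v s) with h2 | h2
      · exact xz (forward hm hp (hx' p ap.ne') h1 h2 ap as)
      · exact zq (backward hm hp h2 hqs hpq zs zp)
  obtain ⟨p, q, s, ap, aq, as, npq, nqs, nps⟩ := crown_deg x
  have f : ∀ {a b : Fin 8}, a ≠ b → R.v a < R.v b ∨ R.v b < R.v a := fun h =>
    lt_or_gt_of_ne fun h' => h (hinj h')
  rcases f npq with h1 | h1 <;> rcases f nqs with h2 | h2 <;> rcases f nps with h3 | h3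
  · exact main p q s ap aq as h1 h2
  · exact main p q s ap aq as h1 h2
  · exact main p s q ap as aq h3 h2
  · exact main s p q as ap aq h3 h1
  · exact main q p s aq ap as h1 h3
  · exact main q s p aq as ap h2 h3
  · exact main s q p as aq ap h2 h1
  · exact main s q p as aq ap h2 h1

end Q133.Veto
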