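import Mathlib

set_option autoImplicit false

namespace Q133.VetoCount

/-! ### veto intervals and double veto intervals -/

/-- a veto interval representation of `G`: vertex `a` gets the triple `(l a, v a, r a)` -/
structure VIRep {V : Type*} (G : SimpleGraph V) where
  l : V → ℝ
  v : V → ℝ
  r : V → ℝ
  hlv : ∀ a, l a < v a
  hvr : ∀ a, v a < r a
  /-- distinct vertices get distinct triples -/
  inj : ∀ a b, l a = l b → v a = v b → r a = r b → a = b
  /-- adjacency of distinct vertices -/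
  adj : ∀ a b, a ≠ b → (G.Adj a b ↔
    (v a < l b ∧ l b < r a ∧ r a < v b) ∨ (v b < l a ∧ l a < r b ∧ r b < v a))

/-- VI graphs -/
def IsVI {V : Type*} (G : SimpleGraph V) : Prop := Nonempty (VIRep G)

/-- a double veto interval representation: vertex `a` gets `(l a, v a, w a, r a)` -/
structure DVIRep {V : Type*} (G : SimpleGraph V) where
  l : V → ℝ
  v : V → ℝ
  w : V → ℝ
  r : V → ℝ
  hlv : ∀ a, l a < v a
  hvw : ∀ a, v a < w a
  hwr : ∀ a, w a < r a
  /-- distinct vertices get distinct quadruples -/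
  inj : ∀ a b, l a = l b → v a = v b → w a = w b → r a = r b → a = b
  /-- adjacency of distinct vertices -/
  adj : ∀ a b, a ≠ b → (G.Adj a b ↔
    (w a < l b ∧ l b < r a ∧ r a < v b) ∨ (w b < l a ∧ l a < r b ∧ r b < v a))

/-- double veto interval graphs -/
def IsDVI {V : Type*} (G : SimpleGraph V) : Prop := Nonempty (DVIRep G)

/-! ### upper bound for the number of VI graphs -/

section upper

variable {V : Type*}

/-- the `3|V|` points of a representation -/
def VIRep.pt {G : SimpleGraph V} (R : VIRep G) (p : V × Fin 3) : ℝ := ![R.l p.1, R.v p.1, R.r p.1] p.2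

open Classical in
/-- rank of a point -/
noncomputable def VIRep.rank [Fintype V] {G : SimpleGraph V} (R : VIRep G) (p : V × Fin 3) : ℕ :=
  (Finset.univ.filter fun q => R.pt q < R.pt p).card

theorem VIRep.rank_lt_card [Fintype V] {G : SimpleGraph V} (R : VIRep G) (p : V × Fin 3) :
    R.rank p < Fintype.card (V × Fin 3) := by
  classical
  unfold VIRep.rank
  apply Finset.card_lt_univ_of_notMem (x := p)
  simp

theorem VIRep.rank_lt_iff [Fintype V] {G : SimpleGraph V} (R : VIRep G) (p q : V × Fin 3) :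
    R.rank p < R.rank q ↔ R.pt p < R.pt q := by
  classical
  constructor
  · intro h
    by_contra hcon
    push Not at hcon
    have : R.rank q ≤ R.rank p := by
      unfold VIRep.rank
      apply Finset.card_le_card
      intro s hs
      simp only [Finset.mem_filter, Finset.mem_univ, true_and] at hs ⊢
      exact lt_of_lt_of_le hs hcon
    omega
  · intro h
    unfold VIRep.rank
    apply Finset.card_lt_card
    rw [Finset.ssubset_iff_of_subset]
    · exact ⟨p, by simp [h], by simp⟩
    · intro s hs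
      simp only [Finset.mem_filter, Finset.mem_univ, true_and] at hs ⊢
      exact hs.trans h

theorem VIRep.ext_of_rank [Fintype V] {G H : SimpleGraph V} (R : VIRep G) (S : VIRep H)
    (h : R.rank = S.rank) : G = H := by
  have key : ∀ p q, R.pt p < R.pt q ↔ S.pt p < S.pt q := by
    intro p q
    rw [← R.rank_lt_iff, ← S.rank_lt_iff, h]
  ext a b
  by_cases hab : a = b
  · subst hab; simp
  · rw [R.adj a b hab, S.adj a b hab]
    have e1 := key (a, 1) (b, 0)
    have e2 := key (b, 0) (a, 2)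
    have e3 := key (a, 2) (b, 1)
    have e4 := key (b, 1) (a, 0)
    have e5 := key (a, 0) (b, 2)
    have e6 := key (b, 2) (a, 1)
    simp only [VIRep.pt, Matrix.cons_val_zero, Matrix.cons_val_one, Matrix.cons_val] at e1 e2 e3 e4 e5 e6
    rw [e1, e2, e3, e4, e5, e6]

end upper

/-! ### the graph of a family of quadruples -/

/-- graph of a family of quadruples -/
def dgraph {V : Type*} (l v w r : V → ℝ) : SimpleGraph V where
  Adj a b := a ≠ b ∧ ((w a < l b ∧ l b < r a ∧ r a < v b) ∨ (w b < l a ∧ l a < r b ∧ r b < v a))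
  symm := ⟨fun _ _ h => ⟨h.1.symm, h.2.symm⟩⟩
  loopless := ⟨fun _ h => h.1 rfl⟩

section frames

variable (m N : ℕ)

/-- vertices: frames and probes -/
abbrev W := (Fin 4 × Fin m) ⊕ Fin N

/-- step -/
noncomputable def S : ℝ := (N : ℝ) + 1
/-- block length -/
noncomputable def T : ℝ := 2 * (m : ℝ) * S N

variable {m N}

noncomputable def dl (g : Fin N → Fin 4 → Fin m) : W m N → ℝ
  | Sum.inl (k, i) => ![-2, -3, 2 * T m N + 2 * (i : ℕ) * S N, 3 * T m N] k
  | Sum.inr j => (2 * (g j 0 : ℕ) + 1) * S N + (j : ℕ)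

noncomputable def dv (g : Fin N → Fin 4 → Fin m) : W m N → ℝ
  | Sum.inl (k, i) => ![-1, -1, 4 * T m N + 1, 3 * T m N + 2 * ((i : ℕ) + 1) * S N] k
  | Sum.inr j => T m N + (2 * (g j 1 : ℕ) + 1) * S N + (j : ℕ)

noncomputable def dw (g : Fin N → Fin 4 → Fin m) : W m N → ℝ
  | Sum.inl (k, i) => ![2 * (i : ℕ) * S N, 0, 4 * T m N + 2, 4 * T m N + 2] k
  | Sum.inr j => 2 * T m N + (2 * (g j 2 : ℕ) + 1) * S N + (j : ℕ)

noncomputable def dr (g : Fin N → Fin 4 → Fin m) : W m N → ℝ
  | Sum.inl (k, i) => ![T m N, T m N + 2 * (i : ℕ) * S N, 4 * T m N + 3, 4 * T m N + 4] k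
  | Sum.inr j => 3 * T m N + (2 * (g j 3 : ℕ) + 1) * S N + (j : ℕ)

theorem S_pos : 0 < S N := by unfold S; positivity

theorem j_lt (j : Fin N) : ((j : ℕ) : ℝ) < S N := by
  unfold S
  have : ((j : ℕ) : ℝ) < N := by exact_mod_cast j.2
  linarith

/-- comparison of grid points `2iS` with probe points `(2a+1)S + j` -/
theorem grid_lt (i a : ℕ) (j : Fin N) :
    2 * (i : ℝ) * S N < (2 * (a : ℝ) + 1) * S N + (j : ℕ) ↔ i ≤ a := by
  have hS := S_pos (N := N)
  have hj := j_lt j
  have hj0 : (0 : ℝ) ≤ (j : ℕ) := by positivity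
  constructor
  · intro h
    by_contra hcon
    push Not at hcon
    have : (a : ℝ) + 1 ≤ i := by exact_mod_cast hcon
    nlinarith
  · intro h
    have : (i : ℝ) ≤ a := by exact_mod_cast h
    nlinarith

theorem lt_grid (i a : ℕ) (j : Fin N) :
    (2 * (a : ℝ) + 1) * S N + (j : ℕ) < 2 * (i : ℝ) * S N ↔ a < i := by
  have hS := S_pos (N := N)
  have hj := j_lt j
  have hj0 : (0 : ℝ) ≤ (j : ℕ) := by positivity
  constructor
  · intro h
    by_contra hcon
    push Not at hcon
    have : (i : ℝ) ≤ a := by exact_mod_cast hcon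
    nlinarith
  · intro h
    have : (a : ℝ) + 1 ≤ i := by exact_mod_cast h
    nlinarith

/-- probe points are in `(0, T)` -/
theorem probe_bd (a : Fin m) (j : Fin N) :
    0 < (2 * ((a : ℕ) : ℝ) + 1) * S N + (j : ℕ) ∧
      (2 * ((a : ℕ) : ℝ) + 1) * S N + (j : ℕ) < T m N := by
  have hS := S_pos (N := N)
  have hj := j_lt j
  have hj0 : (0 : ℝ) ≤ (j : ℕ) := by positivity
  have ha : ((a : ℕ) : ℝ) + 1 ≤ m := by exact_mod_cast a.2
  have ha0 : (0 : ℝ) ≤ (a : ℕ) := by positivity
  constructor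
  · positivity
  · unfold T; nlinarith

theorem grid_bd (a : Fin m) : 0 ≤ 2 * ((a : ℕ) : ℝ) * S N ∧
    2 * (((a : ℕ) : ℝ) + 1) * S N ≤ T m N := by
  have hS := S_pos (N := N)
  have ha : ((a : ℕ) : ℝ) + 1 ≤ m := by exact_mod_cast a.2
  constructor
  · positivity
  · unfold T; nlinarith

theorem T_nonneg : 0 ≤ T m N := by
  have hS := S_pos (N := N)
  unfold T; positivity

/-- the DVI representation -/
noncomputable def dRep (g : Fin N → Fin 4 → Fin m) :
    DVIRep (dgraph (dl g) (dv g) (dw g) (dr g)) where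
  l := dl g
  v := dv g
  w := dw g
  r := dr g
  hlv := by
    have hT := T_nonneg (m := m) (N := N)
    have hS := S_pos (N := N)
    rintro (⟨k, i⟩ | j)
    · have hi := grid_bd (N := N) i
      fin_cases k
      · simp [dl, dv]
      · simp [dl, dv]
      · simp [dl, dv]; linarith [hi.2]
      · simp [dl, dv]; positivity
    · have h0 := probe_bd (g j 0) j
      have h1 := probe_bd (g j 1) j
      simp only [dl, dv]; linarith [h0.2, h1.1]
  hvw := by
    have hT := T_nonneg (m := m) (N := N)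
    have hS := S_pos (N := N)
    rintro (⟨k, i⟩ | j)
    · have hi := grid_bd (N := N) i
      fin_cases k
      · simp [dw, dv]; linarith [hi.1]
      · simp [dw, dv]
      · simp [dw, dv]
      · simp [dw, dv]; linarith [hi.2]
    · have h0 := probe_bd (g j 1) j
      have h1 := probe_bd (g j 2) j
      simp only [dw, dv]; linarith [h0.2, h1.1]
  hwr := by
    have hT := T_nonneg (m := m) (N := N)
    have hS := S_pos (N := N)
    rintro (⟨k, i⟩ | j)
    · have hi := grid_bd (N := N) i
      have hTpos : 0 < T m N := by linarith [hi.1, hi.2]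
      fin_cases k
      · simp [dw, dr]; linarith [hi.2]
      · simp [dw, dr]; linarith [hi.1]
      · simp [dw, dr]; norm_num
      · simp [dw, dr]; norm_num
    · have h0 := probe_bd (g j 2) j
      have h1 := probe_bd (g j 3) j
      simp only [dw, dr]; linarith [h0.2, h1.1]
  inj := by
    have hT := T_nonneg (m := m) (N := N)
    have hS := S_pos (N := N)
    have hgrid : ∀ i i' : Fin m, 2 * ((i : ℕ) : ℝ) * S N = 2 * ((i' : ℕ) : ℝ) * S N → i = i' := by
      intro i i' h
      have h2 : ((i : ℕ) : ℝ) = (i' : ℕ) := by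
        have := mul_right_cancel₀ hS.ne' h
        linarith
      exact Fin.ext (by exact_mod_cast h2)
    have hfin : ∀ (a a' : Fin m) (j j' : Fin N),
        (2 * ((a : ℕ) : ℝ) + 1) * S N + (j : ℕ) = (2 * ((a' : ℕ) : ℝ) + 1) * S N + (j' : ℕ) →
          j = j' := by
      intro a a' j j' h
      have h1 : ¬ (a' : ℕ) < (a : ℕ) := by
        intro hlt
        have h3 : ((a' : ℕ) : ℝ) + 1 ≤ (a : ℕ) := by exact_mod_cast hlt
        have hj := j_lt j'
        have hj0 : (0 : ℝ) ≤ (j : ℕ) := by positivity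
        nlinarith
      have h2 : ¬ (a : ℕ) < (a' : ℕ) := by
        intro hlt
        have h3 : ((a : ℕ) : ℝ) + 1 ≤ (a' : ℕ) := by exact_mod_cast hlt
        have hj := j_lt j
        have hj0 : (0 : ℝ) ≤ (j' : ℕ) := by positivity
        nlinarith
      have h3 : (a : ℕ) = (a' : ℕ) := by omega
      rw [h3] at h
      have h4 : ((j : ℕ) : ℝ) = (j' : ℕ) := by linarith
      exact Fin.ext (by exact_mod_cast h4)
    rintro (⟨k, i⟩ | j) (⟨k', i'⟩ | j') h1 h2 h3 h4
    · have hi := grid_bd (N := N) i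
      have hi' := grid_bd (N := N) i'
      have hTpos : 0 < T m N := by linarith [hi.1, hi.2]
      fin_cases k <;> fin_cases k' <;> simp [dl, dv, dw, dr] at h1 h2 h3 h4 ⊢ <;>
        first
        | (exfalso; linarith [hi.1, hi.2, hi'.1, hi'.2])
        | (apply hgrid; simp; tauto)
    · have hi := grid_bd (N := N) i
      have hp := probe_bd (g j' 0) j'
      have hTpos : 0 < T m N := by linarith [hi.1, hi.2]
      fin_cases k <;> simp [dl] at h1 <;> linarith [hi.1, hi.2, hp.1, hp.2]
    · have hi := grid_bd (N := N) i'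
      have hp := probe_bd (g j 0) j
      have hTpos : 0 < T m N := by linarith [hi.1, hi.2]
      fin_cases k' <;> simp [dl] at h1 <;> linarith [hi.1, hi.2, hp.1, hp.2]
    · have : j = j' := hfin _ _ _ _ h1
      rw [this]
  adj := by
    intro a b hab
    simp [dgraph, hab]

/-- adjacency of probes and frames -/
theorem adj_frame (g : Fin N → Fin 4 → Fin m) (j : Fin N) (k : Fin 4) (i : Fin m) :
    (dgraph (dl g) (dv g) (dw g) (dr g)).Adj (Sum.inl (k, i)) (Sum.inr j) ↔
      (![(i : ℕ) ≤ (g j 0 : ℕ), (i : ℕ) ≤ (g j 1 : ℕ), (g j 2 : ℕ) < (i : ℕ),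
        (g j 3 : ℕ) ≤ (i : ℕ)] : Fin 4 → Prop) k := by
  have hT := T_nonneg (m := m) (N := N)
  have hS := S_pos (N := N)
  have hi := grid_bd (N := N) i
  have hTpos : 0 < T m N := by linarith [hi.1, hi.2]
  have h0 := probe_bd (g j 0) j
  have h1 := probe_bd (g j 1) j
  have h2 := probe_bd (g j 2) j
  have h3 := probe_bd (g j 3) j
  have g0 := grid_lt (i : ℕ) (g j 0 : ℕ) j
  have g1 := grid_lt (i : ℕ) (g j 1 : ℕ) j
  have g2 := lt_grid (i : ℕ) (g j 2 : ℕ) j
  have g3 := lt_grid ((i : ℕ) + 1) (g j 3 : ℕ) j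
  push_cast at g3
  fin_cases k
  · simp only [dgraph, dl, dv, dw, dr, Fin.zero_eta, Matrix.cons_val_zero]
    rw [← g0]
    constructor
    · rintro ⟨_, h | h⟩
      · exact h.1
      · exfalso; linarith [h.1, h.2.1]
    · intro h
      refine ⟨by simp, Or.inl ⟨h, ?_, ?_⟩⟩ <;> linarith
  · simp only [dgraph, dl, dv, dw, dr, Fin.mk_one, Matrix.cons_val_one, Matrix.cons_val_zero]
    rw [← g1]
    constructor
    · rintro ⟨_, h | h⟩
      · linarith [h.2.2]
      · exfalso; linarith [h.1, h.2.1]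
    · intro h
      refine ⟨by simp, Or.inl ⟨?_, ?_, ?_⟩⟩ <;> linarith
  · simp only [dgraph, dl, dv, dw, dr, Fin.reduceFinMk, Matrix.cons_val]
    rw [← g2]
    constructor
    · rintro ⟨_, h | h⟩
      · exfalso; linarith [h.1, h.2.1]
      · linarith [h.1]
    · intro h
      refine ⟨by simp, Or.inr ⟨?_, ?_, ?_⟩⟩ <;> linarith
  · simp only [dgraph, dl, dv, dw, dr, Fin.reduceFinMk, Matrix.cons_val]
    rw [← Nat.lt_succ_iff, Nat.succ_eq_add_one, ← g3]
    constructor
    · rintro ⟨_, h | h⟩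
      · exfalso; linarith [h.1, h.2.1]
      · linarith [h.2.2]
    · intro h
      refine ⟨by simp, Or.inr ⟨?_, ?_, ?_⟩⟩ <;> linarith

theorem dgraph_inj {g g' : Fin N → Fin 4 → Fin m}
    (h : dgraph (dl g) (dv g) (dw g) (dr g) = dgraph (dl g') (dv g') (dw g') (dr g')) :
    g = g' := by
  funext j
  have key : ∀ k i, _ ↔ _ := fun k i => (adj_frame g j k i).symm.trans
    ((iff_of_eq (by rw [h])).trans (adj_frame g' j k i))
  have e0 : g j 0 = g' j 0 := by
    apply Fin.ext
    have a1 := (key 0 (g j 0)).mp le_rfl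
    have a2 := (key 0 (g' j 0)).mpr le_rfl
    exact le_antisymm a1 a2
  have e1 : g j 1 = g' j 1 := by
    apply Fin.ext
    have a1 := (key 1 (g j 1)).mp le_rfl
    have a2 := (key 1 (g' j 1)).mpr le_rfl
    exact le_antisymm a1 a2
  have e2 : g j 2 = g' j 2 := by
    apply Fin.ext
    have a1 := (key 2 (g j 2)).not.mp (lt_irrefl _)
    have a2 := (key 2 (g' j 2)).not.mpr (lt_irrefl _)
    have a1' : (g j 2 : ℕ) ≤ (g' j 2 : ℕ) := not_lt.mp a1
    have a2' : (g' j 2 : ℕ) ≤ (g j 2 : ℕ) := not_lt.mp a2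
    exact le_antisymm a1' a2'
  have e3 : g j 3 = g' j 3 := by
    apply Fin.ext
    have a1 := (key 3 (g j 3)).mp le_rfl
    have a2 := (key 3 (g' j 3)).mpr le_rfl
    exact le_antisymm a2 a1
  funext k
  fin_cases k
  · exact e0
  · exact e1
  · exact e2
  · exact e3

/-- if all DVI graphs on `W m N` are VI graphs then `(m^4)^N ≤ (3n)^(3n)`, `n = 4m + N` -/
theorem card_bound (h : ∀ G : SimpleGraph (W m N), IsDVI G → IsVI G) :
    (m ^ 4) ^ N ≤ (3 * (4 * m + N)) ^ (3 * (4 * m + N)) := by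
  classical
  have hR : ∀ g : Fin N → Fin 4 → Fin m, Nonempty (VIRep (dgraph (dl g) (dv g) (dw g) (dr g))) :=
    fun g => h _ ⟨dRep g⟩
  let R : ∀ g : Fin N → Fin 4 → Fin m, VIRep (dgraph (dl g) (dv g) (dw g) (dr g)) :=
    fun g => (hR g).some
  have hcard : Fintype.card (W m N × Fin 3) = 3 * (4 * m + N) := by
    simp [W, mul_comm]
  let f : (Fin N → Fin 4 → Fin m) → (W m N × Fin 3 → Fin (3 * (4 * m + N))) :=
    fun g p => ⟨(R g).rank p, hcard ▸ (R g).rank_lt_card p⟩
  have hf : Function.Injective f := by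
    intro g g' hgg
    apply dgraph_inj
    apply VIRep.ext_of_rank (R g) (R g')
    funext p
    have := congrFun hgg p
    exact congrArg Fin.val this
  have := Fintype.card_le_of_injective f hf
  rw [Fintype.card_fun, Fintype.card_fun, Fintype.card_fun, hcard, Fintype.card_fin,
    Fintype.card_fin, Fintype.card_fin, Fintype.card_fin] at this
  exact this

end frames

/-- numeric contradiction for `m = 2^60`, `N = 24 m` -/
theorem numeric (m : ℕ) (hm : m = 2 ^ 60) :
    (3 * (4 * m + 24 * m)) ^ (3 * (4 * m + 24 * m)) < (m ^ 4) ^ (24 * m) := by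
  have h1 : 3 * (4 * m + 24 * m) = 84 * m := by ring
  rw [h1]
  have h2 : 84 * m ≤ 2 ^ 67 := by rw [hm]; norm_num
  have hmpos : 0 < m := by rw [hm]; positivity
  calc (84 * m) ^ (84 * m) ≤ (2 ^ 67) ^ (84 * m) := Nat.pow_le_pow_left h2 _
    _ = 2 ^ (5628 * m) := by rw [← pow_mul]; congr 1; ring
    _ < 2 ^ (5760 * m) := Nat.pow_lt_pow_right (by norm_num) (by omega)
    _ = (m ^ 4) ^ (24 * m) := by
      have h3 : m ^ 4 = 2 ^ 240 := by rw [hm]; norm_num
      rw [h3, ← pow_mul]; congr 1; ring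

theorem exists_dvi_not_vi : ∃ (V : Type) (_ : Fintype V) (G : SimpleGraph V),
    IsDVI G ∧ ¬ IsVI G := by
  by_contra hcon
  push Not at hcon
  obtain ⟨m, hm⟩ : ∃ m : ℕ, m = 2 ^ 60 := ⟨_, rfl⟩
  have h := card_bound (m := m) (N := 24 * m) (fun G hG => hcon _ inferInstance G hG)
  exact absurd h (not_le.mpr (numeric m hm))

end Q133.VetoCount
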