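import Mathlib
import Pool.Agent.Q133.VetoCount

set_option autoImplicit false

namespace Q133.VetoMid

open Q133.VetoCount

/-- MVI graphs: there is a veto interval representation in which every mark is a midpoint -/
def IsMVI {V : Type*} (G : SimpleGraph V) : Prop :=
  ∃ R : VIRep G, ∀ a, R.v a = (R.l a + R.r a) / 2

/-! ### the graph of a family of triples -/

/-- graph of a family of triples -/
def tgraph {V : Type*} (l v r : V → ℝ) : SimpleGraph V where
  Adj a b := a ≠ b ∧ ((v a < l b ∧ l b < r a ∧ r a < v b) ∨ (v b < l a ∧ l a < r b ∧ r b < v a))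
  symm := ⟨fun _ _ h => ⟨h.1.symm, h.2.symm⟩⟩
  loopless := ⟨fun _ h => h.1 rfl⟩

section frames

variable (m N : ℕ)

/-- vertices: frames and probes -/
abbrev W := (Fin 3 × Fin m) ⊕ Fin N

variable {m N}

noncomputable def tl (g : Fin N → Fin 3 → Fin m) : W m N → ℝ
  | Sum.inl (k, _) => ![-1, -2, 2 * T m N] k
  | Sum.inr j => (2 * (g j 0 : ℕ) + 1) * S N + (j : ℕ)

noncomputable def tv (g : Fin N → Fin 3 → Fin m) : W m N → ℝ
  | Sum.inl (k, i) => ![2 * (i : ℕ) * S N, 0, 2 * T m N + 2 * ((i : ℕ) + 1) * S N] k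
  | Sum.inr j => T m N + (2 * (g j 1 : ℕ) + 1) * S N + (j : ℕ)

noncomputable def tr (g : Fin N → Fin 3 → Fin m) : W m N → ℝ
  | Sum.inl (k, i) => ![T m N, T m N + 2 * (i : ℕ) * S N, 3 * T m N + 1] k
  | Sum.inr j => 2 * T m N + (2 * (g j 2 : ℕ) + 1) * S N + (j : ℕ)

/-- the VI representation -/
noncomputable def tRep (g : Fin N → Fin 3 → Fin m) :
    VIRep (tgraph (tl g) (tv g) (tr g)) where
  l := tl g
  v := tv g
  r := tr g
  hlv := by
    have hT := T_nonneg (m := m) (N := N)
    have hS := S_pos (N := N)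
    rintro (⟨k, i⟩ | j)
    · have hi := grid_bd (N := N) i
      fin_cases k
      · simp [tl, tv]; linarith [hi.1]
      · simp [tl, tv]
      · simp [tl, tv]; positivity
    · have h0 := probe_bd (g j 0) j
      have h1 := probe_bd (g j 1) j
      simp only [tl, tv]; linarith [h0.2, h1.1]
  hvr := by
    have hT := T_nonneg (m := m) (N := N)
    have hS := S_pos (N := N)
    rintro (⟨k, i⟩ | j)
    · have hi := grid_bd (N := N) i
      have hTpos : 0 < T m N := by linarith [hi.1, hi.2]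
      fin_cases k
      · simp [tr, tv]; linarith [hi.2]
      · simp [tr, tv]; linarith [hi.1]
      · simp [tr, tv]; linarith [hi.2]
    · have h0 := probe_bd (g j 1) j
      have h1 := probe_bd (g j 2) j
      simp only [tr, tv]; linarith [h0.2, h1.1]
  inj := by
    have hT := T_nonneg (m := m) (N := N)
    have hS := S_pos (N := N)
    have hgrid : ∀ i i' : Fin m, 2 * ((i : ℕ) : ℝ) * S N = 2 * ((i' : ℕ) : ℝ) * S N → i = i' := by
      intro i i' h
      have h2 : ((i : ℕ) : ℝ) = (i' : ℕ) := by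
        have := mul_right_cancel₀ hS.ne' h
        linarith
      exact Fin.ext (by exact_mod_cast h2)
    have hfin : ∀ (a a' : Fin m) (j j' : Fin N),
        (2 * ((a : ℕ) : ℝ) + 1) * S N + (j : ℕ) = (2 * ((a' : ℕ) : ℝ) + 1) * S N + (j' : ℕ) →
          j = j' := by
      intro a a' j j' h
      have h1 : ¬ (a' : ℕ) < (a : ℕ) := by
        intro hlt
        have h3 : ((a' : ℕ) : ℝ) + 1 ≤ (a : ℕ) := by exact_mod_cast hlt
        have hj := j_lt j'
        have hj0 : (0 : ℝ) ≤ (j : ℕ) := by positivity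
        nlinarith
      have h2 : ¬ (a : ℕ) < (a' : ℕ) := by
        intro hlt
        have h3 : ((a : ℕ) : ℝ) + 1 ≤ (a' : ℕ) := by exact_mod_cast hlt
        have hj := j_lt j
        have hj0 : (0 : ℝ) ≤ (j' : ℕ) := by positivity
        nlinarith
      have h3 : (a : ℕ) = (a' : ℕ) := by omega
      rw [h3] at h
      have h4 : ((j : ℕ) : ℝ) = (j' : ℕ) := by linarith
      exact Fin.ext (by exact_mod_cast h4)
    rintro (⟨k, i⟩ | j) (⟨k', i'⟩ | j') h1 h2 h3
    · have hi := grid_bd (N := N) i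
      have hi' := grid_bd (N := N) i'
      have hTpos : 0 < T m N := by linarith [hi.1, hi.2]
      fin_cases k <;> fin_cases k' <;> simp [tl, tv, tr] at h1 h2 h3 ⊢ <;>
        first
        | (exfalso; linarith [hi.1, hi.2, hi'.1, hi'.2])
        | (apply hgrid; simp; tauto)
    · have hi := grid_bd (N := N) i
      have hp := probe_bd (g j' 0) j'
      have hTpos : 0 < T m N := by linarith [hi.1, hi.2]
      fin_cases k <;> simp [tl] at h1 <;> linarith [hi.1, hi.2, hp.1, hp.2]
    · have hi := grid_bd (N := N) i'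
      have hp := probe_bd (g j 0) j
      have hTpos : 0 < T m N := by linarith [hi.1, hi.2]
      fin_cases k' <;> simp [tl] at h1 <;> linarith [hi.1, hi.2, hp.1, hp.2]
    · have : j = j' := hfin _ _ _ _ h1
      rw [this]
  adj := by
    intro a b hab
    simp [tgraph, hab]

/-- adjacency of probes and frames -/
theorem adj_frame (g : Fin N → Fin 3 → Fin m) (j : Fin N) (k : Fin 3) (i : Fin m) :
    (tgraph (tl g) (tv g) (tr g)).Adj (Sum.inl (k, i)) (Sum.inr j) ↔
      (![(i : ℕ) ≤ (g j 0 : ℕ), (i : ℕ) ≤ (g j 1 : ℕ),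
        (g j 2 : ℕ) ≤ (i : ℕ)] : Fin 3 → Prop) k := by
  have hT := T_nonneg (m := m) (N := N)
  have hS := S_pos (N := N)
  have hi := grid_bd (N := N) i
  have hTpos : 0 < T m N := by linarith [hi.1, hi.2]
  have h0 := probe_bd (g j 0) j
  have h1 := probe_bd (g j 1) j
  have h2 := probe_bd (g j 2) j
  have g0 := grid_lt (i : ℕ) (g j 0 : ℕ) j
  have g1 := grid_lt (i : ℕ) (g j 1 : ℕ) j
  have g3 := lt_grid ((i : ℕ) + 1) (g j 2 : ℕ) j
  push_cast at g3
  fin_cases k
  · simp only [tgraph, tl, tv, tr, Fin.zero_eta, Matrix.cons_val_zero]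
    rw [← g0]
    constructor
    · rintro ⟨_, h | h⟩
      · exact h.1
      · exfalso; linarith [h.1, h.2.1]
    · intro h
      refine ⟨by simp, Or.inl ⟨h, ?_, ?_⟩⟩ <;> linarith
  · simp only [tgraph, tl, tv, tr, Fin.mk_one, Matrix.cons_val_one, Matrix.cons_val_zero]
    rw [← g1]
    constructor
    · rintro ⟨_, h | h⟩
      · linarith [h.2.2]
      · exfalso; linarith [h.1, h.2.1]
    · intro h
      refine ⟨by simp, Or.inl ⟨?_, ?_, ?_⟩⟩ <;> linarith
  · simp only [tgraph, tl, tv, tr, Fin.reduceFinMk, Matrix.cons_val]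
    rw [← Nat.lt_succ_iff, Nat.succ_eq_add_one, ← g3]
    constructor
    · rintro ⟨_, h | h⟩
      · exfalso; linarith [h.1, h.2.1]
      · linarith [h.2.2]
    · intro h
      refine ⟨by simp, Or.inr ⟨?_, ?_, ?_⟩⟩ <;> linarith

theorem tgraph_inj {g g' : Fin N → Fin 3 → Fin m}
    (h : tgraph (tl g) (tv g) (tr g) = tgraph (tl g') (tv g') (tr g')) :
    g = g' := by
  funext j
  have key : ∀ k i, _ ↔ _ := fun k i => (adj_frame g j k i).symm.trans
    ((iff_of_eq (by rw [h])).trans (adj_frame g' j k i))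
  have e0 : g j 0 = g' j 0 := by
    apply Fin.ext
    have a1 := (key 0 (g j 0)).mp le_rfl
    have a2 := (key 0 (g' j 0)).mpr le_rfl
    exact le_antisymm a1 a2
  have e1 : g j 1 = g' j 1 := by
    apply Fin.ext
    have a1 := (key 1 (g j 1)).mp le_rfl
    have a2 := (key 1 (g' j 1)).mpr le_rfl
    exact le_antisymm a1 a2
  have e3 : g j 2 = g' j 2 := by
    apply Fin.ext
    have a1 := (key 2 (g j 2)).mp le_rfl
    have a2 := (key 2 (g' j 2)).mpr le_rfl
    exact le_antisymm a2 a1
  funext k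
  fin_cases k
  · exact e0
  · exact e1
  · exact e3

end frames

/-! ### sign patterns of linear forms -/

section vc

variable {V : Type*}

/-- the points of a midpoint representation are linear functions of centres and half lengths -/
noncomputable def ptF (p : V × Fin 3) : Module.Dual ℝ (V × Fin 2 → ℝ) :=
  LinearMap.proj (p.1, (0 : Fin 2)) + ((p.2 : ℕ) - 1 : ℝ) • LinearMap.proj (p.1, (1 : Fin 2))

/-- parameters of a midpoint representation -/
noncomputable def param {G : SimpleGraph V} (R : VIRep G) (q : V × Fin 2) : ℝ :=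
  ![R.v q.1, (R.r q.1 - R.l q.1) / 2] q.2

theorem ptF_param {G : SimpleGraph V} (R : VIRep G) (hR : ∀ a, R.v a = (R.l a + R.r a) / 2)
    (p : V × Fin 3) : ptF p (param R) = R.pt p := by
  obtain ⟨a, k⟩ := p
  fin_cases k
  · simp [ptF, param, VIRep.pt, hR]; ring
  · simp [ptF, param, VIRep.pt]
  · simp [ptF, param, VIRep.pt, hR]; ring

open Classical in
/-- pattern of a point configuration -/
noncomputable def pat [Fintype V] (x : V × Fin 2 → ℝ) : Finset ((V × Fin 3) × (V × Fin 3)) :=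
  Finset.univ.filter fun e => ptF e.1 x < ptF e.2 x

theorem vc_bound [Fintype V] [DecidableEq V] (𝒜 : Finset (Finset ((V × Fin 3) × (V × Fin 3))))
    (h𝒜 : ∀ A ∈ 𝒜, ∃ x, A = pat x) : 𝒜.vcDim ≤ 2 * Fintype.card V := by
  classical
  rw [Finset.vcDim]
  apply Finset.sup_le
  intro s hs
  rw [Finset.mem_shatterer] at hs
  by_contra hcon
  push Not at hcon
  -- linear dependence
  let φ : s → Module.Dual ℝ (V × Fin 2 → ℝ) := fun e => ptF e.1.2 - ptF e.1.1
  have hdep : ¬ LinearIndependent ℝ φ := by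
    intro hli
    have h1 := hli.fintype_card_le_finrank
    rw [Subspace.dual_finrank_eq, Module.finrank_fintype_fun_eq_card, Fintype.card_prod,
      Fintype.card_fin, Fintype.card_coe] at h1
    omega
  rw [Fintype.not_linearIndependent_iff] at hdep
  obtain ⟨c, hc, e0, he0⟩ := hdep
  -- wlog some coefficient positive
  obtain ⟨d, hd, e1, he1⟩ : ∃ d : s → ℝ, ∑ i, d i • φ i = 0 ∧ ∃ e, 0 < d e := by
    rcases lt_or_gt_of_ne he0 with h | h
    · refine ⟨fun i => - c i, ?_, e0, by simpa using h⟩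
      have : ∀ i, (- c i) • φ i = - (c i • φ i) := by
        intro i
        ext x
        simp
      rw [Finset.sum_congr rfl fun i _ => this i, Finset.sum_neg_distrib, hc, neg_zero]
    · exact ⟨c, hc, e0, h⟩
  let t : Finset ((V × Fin 3) × (V × Fin 3)) :=
    (Finset.univ.filter fun e : s => 0 < d e).image Subtype.val
  have hts : t ⊆ s := by
    intro e he
    rw [Finset.mem_image] at he
    obtain ⟨e', _, rfl⟩ := he
    exact e'.2
  obtain ⟨A, hA, hAt⟩ := hs hts
  obtain ⟨x, rfl⟩ := h𝒜 A hA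
  have hmem : ∀ e : s, (0 < φ e x ↔ 0 < d e) := by
    intro e
    have h1 : (e : (V × Fin 3) × (V × Fin 3)) ∈ s ∩ pat x ↔ (e : (V × Fin 3) × (V × Fin 3)) ∈ t := by
      rw [hAt]
    rw [Finset.mem_inter] at h1
    simp only [e.2, true_and] at h1
    have h2 : (e : (V × Fin 3) × (V × Fin 3)) ∈ t ↔ 0 < d e := by
      simp only [t, Finset.mem_image, Finset.mem_filter, Finset.mem_univ, true_and]
      constructor
      · rintro ⟨e', h, he'⟩
        have : e' = e := Subtype.ext he'
        rwa [← this]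
      · intro h; exact ⟨e, h, rfl⟩
    rw [← h2, ← h1]
    simp [pat, φ]
  have hsum : ∑ i, d i * φ i x = 0 := by
    have := congrArg (fun f : Module.Dual ℝ (V × Fin 2 → ℝ) => f x) hd
    simpa using this
  have hpos : 0 < ∑ i, d i * φ i x := by
    apply Finset.sum_pos'
    · intro i _
      by_cases h : 0 < d i
      · exact (mul_pos h ((hmem i).mpr h)).le
      · have h2 : φ i x ≤ 0 := not_lt.mp (fun h' => h ((hmem i).mp h'))
        exact mul_nonneg_of_nonpos_of_nonpos (not_lt.mp h) h2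
    · exact ⟨e1, Finset.mem_univ _, mul_pos he1 ((hmem e1).mpr he1)⟩
  linarith

end vc

/-- `∑_{k ≤ d} C(M,k) ≤ (e q)^d` if `M = q d`, `q ≥ 1` -/
theorem sum_choose_le (M d : ℕ) (q : ℝ) (hq : 1 ≤ q) (hM : (M : ℝ) = q * d) :
    ((∑ k ∈ Finset.range (d + 1), M.choose k : ℕ) : ℝ) ≤ (Real.exp 1 * q) ^ d := by
  have hq0 : 0 < q := by linarith
  have h1 : ((∑ k ∈ Finset.range (d + 1), M.choose k : ℕ) : ℝ) ≤
      ∑ k ∈ Finset.range (d + 1), (M.choose k : ℝ) * (q ^ d * (1 / q) ^ k) := by
    push_cast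
    apply Finset.sum_le_sum
    intro k hk
    have hk' : k ≤ d := Nat.lt_succ_iff.mp (Finset.mem_range.mp hk)
    have : (1 : ℝ) ≤ q ^ d * (1 / q) ^ k := by
      have e : q ^ d * (1 / q) ^ k = q ^ (d - k) := by
        rw [one_div, inv_pow, pow_sub₀ _ hq0.ne' hk']
      rw [e]
      exact one_le_pow₀ hq
    calc (M.choose k : ℝ) = (M.choose k : ℝ) * 1 := (mul_one _).symm
      _ ≤ _ := mul_le_mul_of_nonneg_left this (by positivity)
  have h2 : ∑ k ∈ Finset.range (d + 1), (M.choose k : ℝ) * (q ^ d * (1 / q) ^ k) ≤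
      q ^ d * (1 / q + 1) ^ M := by
    have h3 : ∑ k ∈ Finset.range (d + 1), (M.choose k : ℝ) * (q ^ d * (1 / q) ^ k) ≤
        ∑ k ∈ Finset.range (max d M + 1), (M.choose k : ℝ) * (q ^ d * (1 / q) ^ k) := by
      apply Finset.sum_le_sum_of_subset_of_nonneg
      · intro k hk
        rw [Finset.mem_range] at hk ⊢
        have := le_max_left d M
        omega
      · intro k _ _
        positivity
    have h4 : ∑ k ∈ Finset.range (max d M + 1), (M.choose k : ℝ) * (q ^ d * (1 / q) ^ k) =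
        ∑ k ∈ Finset.range (M + 1), (M.choose k : ℝ) * (q ^ d * (1 / q) ^ k) := by
      symm
      apply Finset.sum_subset
      · intro k hk
        rw [Finset.mem_range] at hk ⊢
        have := le_max_right d M
        omega
      · intro k _ hk
        rw [Finset.mem_range] at hk
        have : M.choose k = 0 := Nat.choose_eq_zero_of_lt (by omega)
        rw [this]; simp
    refine h3.trans (h4.le.trans (le_of_eq ?_))
    rw [add_pow, Finset.mul_sum]
    refine Finset.sum_congr rfl fun k _ => ?_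
    rw [one_pow]; ring
  have h5 : (1 / q + 1) ^ M ≤ Real.exp 1 ^ d := by
    calc (1 / q + 1) ^ M ≤ (Real.exp (1 / q)) ^ M :=
          pow_le_pow_left₀ (by positivity) (Real.add_one_le_exp _) _
      _ = Real.exp (1 / q * M) := by rw [← Real.exp_nat_mul]; ring_nf
      _ = Real.exp d := by rw [hM]; congr 1; field_simp
      _ = Real.exp 1 ^ d := by rw [← Real.exp_nat_mul]; ring_nf
  calc ((∑ k ∈ Finset.range (d + 1), M.choose k : ℕ) : ℝ) ≤ q ^ d * (1 / q + 1) ^ M := h1.trans h2
    _ ≤ q ^ d * Real.exp 1 ^ d := mul_le_mul_of_nonneg_left h5 (by positivity)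
    _ = (Real.exp 1 * q) ^ d := by rw [mul_pow]; ring

theorem card_bound {m N : ℕ} (hm : 0 < m) (h : ∀ G : SimpleGraph (W m N), IsVI G → IsMVI G) :
    (((m ^ 3) ^ N : ℕ) : ℝ) ≤ (13 * ((3 * m + N : ℕ) : ℝ)) ^ (2 * (3 * m + N)) := by
  classical
  have hR : ∀ g : Fin N → Fin 3 → Fin m, IsMVI (tgraph (tl g) (tv g) (tr g)) :=
    fun g => h _ ⟨tRep g⟩
  choose R hR' using hR
  set n := 3 * m + N with hn
  have hcard : Fintype.card (W m N) = n := by
    simp [W, hn]
  let f : (Fin N → Fin 3 → Fin m) → Finset ((W m N × Fin 3) × (W m N × Fin 3)) :=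
    fun g => pat (param (R g))
  have hmemf : ∀ g p q, (p, q) ∈ f g ↔ (R g).pt p < (R g).pt q := by
    intro g p q
    simp only [f, pat, Finset.mem_filter, Finset.mem_univ, true_and]
    rw [ptF_param _ (hR' g), ptF_param _ (hR' g)]
  have hf : Function.Injective f := by
    intro g g' hgg
    apply tgraph_inj
    apply VIRep.ext_of_rank (R g) (R g')
    funext p
    unfold VIRep.rank
    congr 1
    ext q
    simp only [Finset.mem_filter, Finset.mem_univ, true_and]
    rw [← hmemf g, ← hmemf g', hgg]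
  let 𝒜 : Finset (Finset ((W m N × Fin 3) × (W m N × Fin 3))) := Finset.univ.image f
  have hA : 𝒜.card = (m ^ 3) ^ N := by
    rw [Finset.card_image_of_injective _ hf, Finset.card_univ, Fintype.card_fun, Fintype.card_fun,
      Fintype.card_fin, Fintype.card_fin, Fintype.card_fin]
  have hvc : 𝒜.vcDim ≤ 2 * n := by
    have := vc_bound 𝒜 (by
      intro A hA
      rw [Finset.mem_image] at hA
      obtain ⟨g, _, rfl⟩ := hA
      exact ⟨param (R g), rfl⟩)
    rwa [hcard] at this
  have h1 : 𝒜.card ≤ ∑ k ∈ Finset.range (2 * n + 1), (9 * n ^ 2).choose k := by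
    have h2 := 𝒜.card_le_card_shatterer
    have h3 := 𝒜.card_shatterer_le_sum_vcDim
    have h4 : Fintype.card ((W m N × Fin 3) × (W m N × Fin 3)) = 9 * n ^ 2 := by
      rw [Fintype.card_prod, Fintype.card_prod, hcard, Fintype.card_fin]; ring
    rw [h4] at h3
    refine h2.trans (h3.trans ?_)
    apply Finset.sum_le_sum_of_subset
    intro k hk
    rw [Finset.mem_Iic] at hk
    rw [Finset.mem_range]
    omega
  have hn1 : 1 ≤ n := by omega
  have hn1' : (1 : ℝ) ≤ n := by exact_mod_cast hn1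
  have h2 := sum_choose_le (9 * n ^ 2) (2 * n) (9 / 2 * n) (by linarith) (by push_cast; ring)
  have h3 : (((m ^ 3) ^ N : ℕ) : ℝ) ≤ ((∑ k ∈ Finset.range (2 * n + 1), (9 * n ^ 2).choose k : ℕ) : ℝ) := by
    rw [← hA]; exact_mod_cast h1
  refine h3.trans (h2.trans ?_)
  apply pow_le_pow_left₀ (by positivity)
  have he := Real.exp_one_lt_d9
  nlinarith

theorem numeric (m : ℕ) (hm : m = 2 ^ 41) :
    (13 * (3 * m + 12 * m)) ^ (2 * (3 * m + 12 * m)) < (m ^ 3) ^ (12 * m) := by
  have h1 : 13 * (3 * m + 12 * m) = 195 * m := by ring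
  have h1' : 2 * (3 * m + 12 * m) = 30 * m := by ring
  rw [h1, h1']
  have h2 : 195 * m ≤ 2 ^ 49 := by rw [hm]; norm_num
  have hmpos : 0 < m := by rw [hm]; positivity
  calc (195 * m) ^ (30 * m) ≤ (2 ^ 49) ^ (30 * m) := Nat.pow_le_pow_left h2 _
    _ = 2 ^ (1470 * m) := by rw [← pow_mul]; congr 1; ring
    _ < 2 ^ (1476 * m) := Nat.pow_lt_pow_right (by norm_num) (by omega)
    _ = (m ^ 3) ^ (12 * m) := by
      have h3 : m ^ 3 = 2 ^ 123 := by rw [hm]; norm_num
      rw [h3, ← pow_mul]; congr 1; ring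

theorem exists_vi_not_mvi : ∃ (V : Type) (_ : Fintype V) (G : SimpleGraph V),
    IsVI G ∧ ¬ IsMVI G := by
  by_contra hcon
  push Not at hcon
  obtain ⟨m, hm⟩ : ∃ m : ℕ, m = 2 ^ 41 := ⟨_, rfl⟩
  have hmpos : 0 < m := by rw [hm]; positivity
  have h := card_bound (m := m) (N := 12 * m) hmpos (fun G hG => hcon _ inferInstance G hG)
  have h2 := numeric m hm
  have h3 : (((m ^ 3) ^ (12 * m) : ℕ) : ℝ) ≤
      (((13 * (3 * m + 12 * m)) ^ (2 * (3 * m + 12 * m)) : ℕ) : ℝ) := by
    refine h.trans (le_of_eq ?_)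
    push_cast
    rfl
  exact absurd (by exact_mod_cast h3) (not_le.mpr h2)

end Q133.VetoMid
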