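import Mathlib

set_option autoImplicit false

namespace Q133.WUI

/-- edge labels: near / far -/
inductive Label
  | N
  | F
  deriving DecidableEq

/-- `I : V → ℝ` with threshold `t > 0` is a weak unit interval representation of `G` with respect
to the edge-labeling `ℓ`: for every edge `uv`, `|I u - I v| ≤ t` iff `uv` is near -/
def IsRep {V : Type*} (G : SimpleGraph V) (ℓ : G.edgeSet → Label) (I : V → ℝ) (t : ℝ) : Prop :=
  0 < t ∧ ∀ (u v : V) (h : G.Adj u v), |I u - I v| ≤ t ↔ ℓ ⟨s(u, v), h⟩ = Label.N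

/-- total weak unit interval graph -/
def IsTotal {V : Type*} (G : SimpleGraph V) : Prop :=
  ∀ ℓ : G.edgeSet → Label, ∃ (I : V → ℝ) (t : ℝ), IsRep G ℓ I t

/-- the 14 edges -/
def edges : List (Fin 8 × Fin 8) :=
  [(0,1),(1,2),(2,3),(3,0),(4,0),(4,1),(6,2),(6,3),(4,6),(5,1),(5,2),(7,3),(7,0),(5,7)]

/-- a square `0,1,2,3`, a triangle on every side of it (apexes `4,5,6,7`), and the two edges
joining opposite apexes -/
def G8 : SimpleGraph (Fin 8) where
  Adj i j := (i, j) ∈ edges ∨ (j, i) ∈ edges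
  symm := ⟨by decide⟩
  loopless := ⟨by decide⟩

instance : DecidableRel G8.Adj := fun i j =>
  inferInstanceAs (Decidable ((i, j) ∈ edges ∨ (j, i) ∈ edges))

theorem card_edges : G8.edgeFinset.card = 14 := by decide +kernel

/-- `|x - y| ≤ 3` -/
def near (x y : ℕ) : Bool := Nat.ble x (y + 3) && Nat.ble y (x + 3)

def good (x y z w : ℕ) (l1 l2 l3 l4 l5 : Bool) : Bool :=
  (List.range 17).any fun p => (near p x == l1) && ((near p y == l2) &&
    ((List.range 17).any fun r => (near r z == l3) && ((near r w == l4) && (near p r == l5))))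

def idx (l1 l2 l3 l4 l5 : Bool) : ℕ :=
  l1.toNat + 2 * l2.toNat + 4 * l3.toNat + 8 * l4.toNat + 16 * l5.toNat

/-- configurations for the square: `(a,b,c,d,maskPR,maskQS)` -/
def cfgs : Bool → Bool → Bool → Bool → List (ℕ × ℕ × ℕ × ℕ × ℕ × ℕ)
  | false, false, false, false => [(4, 9, 4, 9, 4025974783, 4025974783), (4, 8, 12, 8, 3730552831, 3018710911), (8, 4, 8, 12, 3018710911, 3730552831)]
  | false, false, false, true => [(5, 10, 4, 8, 4021780479, 3992420351), (4, 8, 12, 6, 3755720703, 3018850175), (6, 12, 8, 4, 4092591999, 3730831359)]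
  | false, false, true, false => [(4, 10, 5, 8, 4021780479, 3992420351), (4, 8, 12, 10, 3730831359, 3153977343), (8, 4, 10, 12, 3018850175, 4267702271)]
  | false, false, true, true => [(5, 9, 5, 4, 4092591999, 4267702271), (4, 9, 4, 5, 4265605119, 4126146431), (4, 10, 6, 5, 4092591999, 4126146431), (6, 10, 4, 5, 4265605119, 4267702271)]
  | false, true, false, false => [(4, 8, 5, 10, 3992420351, 4021780479), (4, 10, 12, 8, 4267702271, 3019759615), (8, 4, 6, 12, 3153977343, 3747332095)]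
  | false, true, false, true => [(4, 8, 10, 6, 4292870143, 3018710911), (6, 10, 8, 4, 4227858431, 3730552831), (4, 10, 11, 5, 4025974783, 2982150111), (5, 11, 10, 4, 4025974783, 3709860863)]
  | false, true, true, false => [(4, 8, 9, 8, 4267702271, 3153977343), (4, 9, 6, 9, 3992420351, 3992420351), (4, 8, 9, 10, 4126146431, 3153977343), (4, 10, 9, 8, 4267702271, 3724263423)]
  | false, true, true, true => [(4, 8, 5, 6, 4257217503, 4257217503), (4, 8, 9, 6, 4292870143, 3018710911), (5, 9, 6, 4, 4092591999, 4267702271)]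
  | true, false, false, false => [(5, 8, 4, 10, 3992420351, 4021780479), (4, 6, 12, 8, 3747332095, 4092591999), (6, 4, 8, 12, 3019759615, 3755720703)]
  | true, false, false, true => [(4, 5, 9, 5, 3755720703, 4092591999), (6, 4, 8, 4, 4257217503, 4257217503), (5, 4, 10, 6, 3216891903, 4092591999), (5, 6, 10, 4, 3755720703, 4265605119)]
  | true, false, true, false => [(4, 6, 10, 8, 3730552831, 4227858431), (6, 4, 8, 10, 3018710911, 4292870143), (4, 5, 11, 10, 3709860863, 4025974783), (5, 4, 10, 11, 2982150111, 4025974783)]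
  | true, false, true, true => [(4, 5, 9, 6, 3755720703, 4092591999), (5, 8, 4, 6, 4257217503, 4257217503), (6, 4, 8, 9, 3018710911, 4292870143)]
  | true, true, false, false => [(5, 4, 5, 9, 3153977343, 3755720703), (4, 6, 4, 8, 4257217503, 4257217503), (4, 5, 6, 10, 3724263423, 3755720703), (6, 5, 4, 10, 3153977343, 3216891903)]
  | true, true, false, true => [(4, 6, 9, 5, 3755720703, 4092591999), (5, 6, 4, 8, 4257217503, 4257217503), (6, 4, 5, 9, 3153977343, 3755720703)]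
  | true, true, true, false => [(4, 6, 5, 8, 4257217503, 4257217503), (4, 6, 9, 8, 3730552831, 4227858431), (5, 4, 6, 9, 3153977343, 3755720703)]
  | true, true, true, true => [(4, 5, 4, 5, 4257217503, 4257217503), (4, 6, 9, 6, 3755720703, 4092591999), (6, 4, 6, 9, 3153977343, 3755720703)]

theorem check0 : ∀ s1 s2 s3 s4 : Bool, ∀ x ∈ cfgs s1 s2 s3 s4,
    near x.1 x.2.1 = s1 ∧ near x.2.1 x.2.2.1 = s2 ∧ near x.2.2.1 x.2.2.2.1 = s3 ∧
      near x.2.2.2.1 x.1 = s4 := by decide +kernel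

theorem check1 : ∀ s1 s2 s3 s4 : Bool, ∀ x ∈ cfgs s1 s2 s3 s4, ∀ l1 l2 l3 l4 l5 : Bool,
    Nat.testBit x.2.2.2.2.1 (idx l1 l2 l3 l4 l5) = true →
      good x.1 x.2.1 x.2.2.1 x.2.2.2.1 l1 l2 l3 l4 l5 = true := by decide +kernel

theorem check2 : ∀ s1 s2 s3 s4 : Bool, ∀ x ∈ cfgs s1 s2 s3 s4, ∀ l1 l2 l3 l4 l5 : Bool,
    Nat.testBit x.2.2.2.2.2 (idx l1 l2 l3 l4 l5) = true →
      good x.2.1 x.2.2.1 x.2.2.2.1 x.1 l1 l2 l3 l4 l5 = true := by decide +kernel

theorem check3 : ∀ s1 s2 s3 s4 l1 l2 l3 l4 l5 m1 m2 m3 m4 m5 : Bool,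
    ∃ x ∈ cfgs s1 s2 s3 s4, Nat.testBit x.2.2.2.2.1 (idx l1 l2 l3 l4 l5) = true ∧
      Nat.testBit x.2.2.2.2.2 (idx m1 m2 m3 m4 m5) = true := by decide +kernel

theorem good_iff {x y z w : ℕ} {l1 l2 l3 l4 l5 : Bool} (h : good x y z w l1 l2 l3 l4 l5 = true) :
    ∃ p r : ℕ, near p x = l1 ∧ near p y = l2 ∧ near r z = l3 ∧ near r w = l4 ∧ near p r = l5 := by
  unfold good at h
  rw [List.any_eq_true] at h
  obtain ⟨p, _, hp⟩ := h
  rw [Bool.and_eq_true, Bool.and_eq_true, beq_iff_eq, beq_iff_eq, List.any_eq_true] at hp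
  obtain ⟨h1, h2, r, _, hr⟩ := hp
  rw [Bool.and_eq_true, Bool.and_eq_true, beq_iff_eq, beq_iff_eq, beq_iff_eq] at hr
  exact ⟨p, r, h1, h2, hr.1, hr.2.1, hr.2.2⟩

theorem exists_pos (s1 s2 s3 s4 l1 l2 l3 l4 l5 m1 m2 m3 m4 m5 : Bool) :
    ∃ a b c d p q r s : ℕ, near a b = s1 ∧ near b c = s2 ∧ near c d = s3 ∧ near d a = s4 ∧
      near p a = l1 ∧ near p b = l2 ∧ near r c = l3 ∧ near r d = l4 ∧ near p r = l5 ∧
      near q b = m1 ∧ near q c = m2 ∧ near s d = m3 ∧ near s a = m4 ∧ near q s = m5 := by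
  obtain ⟨x, hx, h1, h2⟩ := check3 s1 s2 s3 s4 l1 l2 l3 l4 l5 m1 m2 m3 m4 m5
  obtain ⟨e1, e2, e3, e4⟩ := check0 s1 s2 s3 s4 x hx
  obtain ⟨p, r, f1, f2, f3, f4, f5⟩ := good_iff (check1 s1 s2 s3 s4 x hx _ _ _ _ _ h1)
  obtain ⟨q, s, g1, g2, g3, g4, g5⟩ := good_iff (check2 s1 s2 s3 s4 x hx _ _ _ _ _ h2)
  exact ⟨_, _, _, _, p, q, r, s, e1, e2, e3, e4, f1, f2, f3, f4, f5, g1, g2, g3, g4, g5⟩

theorem near_iff (x y : ℕ) : near x y = true ↔ |(x : ℝ) - (y : ℝ)| ≤ 3 := by
  unfold near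
  rw [Bool.and_eq_true, Nat.ble_eq, Nat.ble_eq, abs_le]
  constructor
  · rintro ⟨h1, h2⟩
    have h1' : (x : ℝ) ≤ y + 3 := by exact_mod_cast h1
    have h2' : (y : ℝ) ≤ x + 3 := by exact_mod_cast h2
    constructor <;> linarith
  · rintro ⟨h1, h2⟩
    constructor
    · have : (x : ℝ) ≤ ((y + 3 : ℕ) : ℝ) := by push_cast; linarith
      exact_mod_cast this
    · have : (y : ℝ) ≤ ((x + 3 : ℕ) : ℝ) := by push_cast; linarith
      exact_mod_cast this

open Classical in
theorem total : IsTotal G8 := by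
  intro ℓ
  let f : Fin 8 → Fin 8 → Bool := fun i j =>
    if h : G8.Adj i j then decide (ℓ ⟨s(i, j), h⟩ = Label.N) else false
  obtain ⟨a, b, c, d, p, q, r, s, h⟩ := exists_pos (f 0 1) (f 1 2) (f 2 3) (f 3 0)
    (f 4 0) (f 4 1) (f 6 2) (f 6 3) (f 4 6) (f 5 1) (f 5 2) (f 7 3) (f 7 0) (f 5 7)
  let J : Fin 8 → ℕ := ![a, b, c, d, p, q, r, s]
  have hJ : ∀ e ∈ edges, near (J e.1) (J e.2) = f e.1 e.2 := by
    obtain ⟨h1, h2, h3, h4, h5, h6, h7, h8, h9, h10, h11, h12, h13, h14⟩ := h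
    intro e he
    simp only [edges, List.mem_cons, List.not_mem_nil, or_false] at he
    rcases he with rfl | rfl | rfl | rfl | rfl | rfl | rfl | rfl | rfl | rfl | rfl | rfl | rfl | rfl
    · exact h1
    · exact h2
    · exact h3
    · exact h4
    · exact h5
    · exact h6
    · exact h7
    · exact h8
    · exact h9
    · exact h10
    · exact h11
    · exact h12
    · exact h13
    · exact h14
  have key : ∀ u v : Fin 8, (u, v) ∈ edges → ∀ h : G8.Adj u v,
      (|((J u : ℕ) : ℝ) - (J v : ℕ)| ≤ 3 ↔ ℓ ⟨s(u, v), h⟩ = Label.N) := by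
    intro u v he h
    have h1 := hJ (u, v) he
    rw [← near_iff]
    simp only at h1
    rw [h1]
    simp only [f, h, dif_pos, decide_eq_true_eq]
  refine ⟨fun v => (J v : ℝ), 3, by norm_num, ?_⟩
  intro u v h
  rcases id h with he | he
  · exact key u v he h
  · have h2 := key v u he h.symm
    rw [abs_sub_comm]
    rw [h2]
    have : (⟨s(v, u), h.symm⟩ : G8.edgeSet) = ⟨s(u, v), h⟩ := Subtype.ext Sym2.eq_swap
    rw [this]

end Q133.WUI
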