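import Mathlib

set_option autoImplicit false
set_option linter.unusedSectionVars false

open Polynomial

namespace Q133.Wiener

/-! ### sums over unordered pairs -/

theorem two_mul_sum_sym2 {V M : Type*} [Fintype V] [DecidableEq V] [AddCommMonoid M]
    (f : Sym2 V → M) :
    2 • ∑ e ∈ (Finset.univ : Finset (Sym2 V)).filter (fun e => ¬ e.IsDiag), f e =
      ∑ i ∈ (Finset.univ : Finset V).offDiag, f s(i.1, i.2) := by
  classical
  let φ : V ≃ Fin (Fintype.card V) := Fintype.equivFin V
  letI : LinearOrder V := LinearOrder.lift' φ φ.injective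
  have h1 := Finset.sum_sym2_filter_not_isDiag (Finset.univ : Finset V) f
  rw [Finset.sym2_univ] at h1
  have h2 : ∑ e ∈ (Finset.univ : Finset (Sym2 V)).filter (fun e => ¬ e.IsDiag), f e =
      ∑ i ∈ (Finset.univ : Finset V).offDiag.filter (fun i => i.1 < i.2), f s(i.1, i.2) := by
    rw [← h1]
    refine Finset.sum_congr ?_ fun _ _ => rfl
    ext e
    simp
  have h3 : ∑ i ∈ (Finset.univ : Finset V).offDiag.filter (fun i => ¬ i.1 < i.2), f s(i.1, i.2) =
      ∑ i ∈ (Finset.univ : Finset V).offDiag.filter (fun i => i.1 < i.2), f s(i.1, i.2) := by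
    refine Finset.sum_nbij' Prod.swap Prod.swap ?_ ?_ ?_ ?_ ?_
    · intro i hi
      simp only [Finset.mem_filter, Finset.mem_offDiag, Finset.mem_univ, true_and, not_lt,
        Prod.fst_swap, Prod.snd_swap] at hi ⊢
      exact ⟨hi.1.symm, lt_of_le_of_ne hi.2 hi.1.symm⟩
    · intro i hi
      simp only [Finset.mem_filter, Finset.mem_offDiag, Finset.mem_univ, true_and, not_lt,
        Prod.fst_swap, Prod.snd_swap] at hi ⊢
      exact ⟨hi.1.symm, hi.2.le⟩
    · intro i _; exact Prod.swap_swap i
    · intro i _; exact Prod.swap_swap i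
    · intro i _
      rw [Prod.fst_swap, Prod.snd_swap, Sym2.eq_swap]
  rw [h2, ← Finset.sum_filter_add_sum_filter_not ((Finset.univ : Finset V).offDiag)
    (fun i => i.1 < i.2) (fun i => f s(i.1, i.2)), h3, two_nsmul]

/-- The value of a Lipschitz function bounds the distance from below. -/
theorem lip_le_dist {V : Type*} {G : SimpleGraph V} (hG : G.Connected) (f : V → ℤ)
    (hf : ∀ u v, G.Adj u v → |f u - f v| ≤ 1) (u v : V) : |f u - f v| ≤ G.dist u v := by
  obtain ⟨w, hw⟩ := hG.exists_walk_length_eq_dist u v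
  rw [← hw]
  clear hw
  induction w with
  | nil => simp
  | @cons a b c h _ ih =>
    rw [SimpleGraph.Walk.length_cons]
    have h1 := hf a b h
    push_cast
    calc |f a - f c| = |(f a - f b) + (f b - f c)| := by ring_nf
      _ ≤ |f a - f b| + |f b - f c| := abs_add_le _ _
      _ ≤ _ := by linarith

/-! ### trees given by a parent function -/

/-- The graph whose edges join `v ≠ r` to `p v`. -/
def parentGraph {V : Type*} (r : V) (p : V → V) (d : V → ℕ) (hd : ∀ v, v ≠ r → d v = d (p v) + 1) :
    SimpleGraph V where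
  Adj u v := (u ≠ r ∧ p u = v) ∨ (v ≠ r ∧ p v = u)
  symm := ⟨fun _ _ h => h.symm⟩
  loopless := ⟨fun v h => by
    rcases h with ⟨h1, h2⟩ | ⟨h1, h2⟩
    · have := hd v h1; rw [h2] at this; omega
    · have := hd v h1; rw [h2] at this; omega⟩

section parent

variable {V : Type*} {r : V} {p : V → V} {d : V → ℕ} {hd : ∀ v, v ≠ r → d v = d (p v) + 1}

theorem adj_parent {v : V} (hv : v ≠ r) : (parentGraph r p d hd).Adj v (p v) := Or.inl ⟨hv, rfl⟩

theorem reach_root (v : V) : (parentGraph r p d hd).Reachable v r := by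
  induction hn : d v generalizing v with
  | zero =>
    by_cases hv : v = r
    · rw [hv]
    · have := hd v hv; omega
  | succ n ih =>
    by_cases hv : v = r
    · rw [hv]
    · have h1 := hd v hv
      exact (adj_parent hv).reachable.trans (ih (p v) (by omega))

theorem parent_connected : (parentGraph r p d hd).Connected := by
  have : Nonempty V := ⟨r⟩
  exact SimpleGraph.Connected.mk fun u v => (reach_root u).trans (reach_root v).symm

theorem dist_root_le (v : V) : (parentGraph r p d hd).dist v r ≤ d v := by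
  induction hn : d v generalizing v with
  | zero =>
    by_cases hv : v = r
    · rw [hv]; simp
    · have := hd v hv; omega
  | succ n ih =>
    by_cases hv : v = r
    · rw [hv]; simp
    · have h1 := hd v hv
      have h2 := ih (p v) (by omega)
      have h3 := (parent_connected (r := r) (p := p) (d := d) (hd := hd)).dist_triangle
        (u := v) (v := p v) (w := r)
      have h4 : (parentGraph r p d hd).dist v (p v) = 1 :=
        SimpleGraph.dist_eq_one_iff_adj.mpr (adj_parent hv)
      omega

theorem parent_isTree [Finite V] : (parentGraph r p d hd).IsTree := by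
  classical
  have := Fintype.ofFinite V
  rw [SimpleGraph.isTree_iff_connected_and_card]
  refine ⟨parent_connected, ?_⟩
  have hE : (parentGraph r p d hd).edgeSet =
      (((Finset.univ.erase r).image (fun v => s(v, p v)) : Finset (Sym2 V)) : Set (Sym2 V)) := by
    ext e
    induction e with
    | _ u v =>
    simp only [SimpleGraph.mem_edgeSet, Finset.coe_image, Set.mem_image, Finset.mem_coe,
      Finset.mem_erase, Finset.mem_univ, and_true]
    constructor
    · rintro (⟨h1, h2⟩ | ⟨h1, h2⟩)
      · exact ⟨u, h1, by rw [h2]⟩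
      · exact ⟨v, h1, by rw [h2, Sym2.eq_swap]⟩
    · rintro ⟨w, hw, h⟩
      rw [Sym2.eq_iff] at h
      rcases h with ⟨h1, h2⟩ | ⟨h1, h2⟩
      · subst h1; exact Or.inl ⟨hw, h2⟩
      · subst h1; exact Or.inr ⟨hw, h2⟩
  rw [hE, Nat.card_coe_set_eq, Set.ncard_coe_finset, Finset.card_image_of_injOn]
  · rw [Finset.card_erase_of_mem (Finset.mem_univ r), Finset.card_univ, Nat.card_eq_fintype_card]
    have : 0 < Fintype.card V := Fintype.card_pos_iff.mpr ⟨r⟩
    omega
  · intro u hu v hv huv
    simp only [Finset.coe_erase, Finset.coe_univ, Set.mem_diff, Set.mem_univ, true_and,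
      Set.mem_singleton_iff] at hu hv
    have h : s(u, p u) = s(v, p v) := huv
    rw [Sym2.eq_iff] at h
    rcases h with ⟨h1, _⟩ | ⟨h1, h2⟩
    · exact h1
    · have h3 := hd u hu
      have h4 := hd v hv
      rw [h2] at h3
      rw [← h1] at h4
      omega

end parent

/-! ### a root near a point where a polynomial is small -/

theorem exists_root_near (P : ℂ[X]) (z : ℂ) (ε : ℝ) (hε : 0 < ε) (hP : P ≠ 0)
    (h : ‖P.eval z‖ < ‖P.leadingCoeff‖ * ε ^ P.natDegree) :
    ∃ r : ℂ, P.eval r = 0 ∧ ‖z - r‖ < ε := by
  by_contra hcon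
  push Not at hcon
  have h1 := (IsAlgClosed.splits P).eval_eq_prod_roots z
  have h2 : P.roots.card = P.natDegree := IsAlgClosed.card_roots_eq_natDegree
  have h3 : ∀ s : Multiset ℂ, (∀ r ∈ s, ε ≤ ‖z - r‖) → ε ^ s.card ≤ ‖(s.map (fun r => z - r)).prod‖ := by
    intro s
    induction s using Multiset.induction_on with
    | empty => intro _; simp
    | cons a s ih =>
      intro hs
      rw [Multiset.map_cons, Multiset.prod_cons, norm_mul, Multiset.card_cons, pow_succ, mul_comm]
      exact mul_le_mul (hs a (Multiset.mem_cons_self _ _))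
        (ih fun r hr => hs r (Multiset.mem_cons_of_mem hr)) (by positivity) (norm_nonneg _)
  have h4 := h3 P.roots (fun r hr => hcon r ((mem_roots hP).mp hr))
  rw [h2] at h4
  rw [h1, norm_mul] at h
  exact absurd h (not_lt.mpr (mul_le_mul_of_nonneg_left h4 (norm_nonneg _)))

end Q133.Wiener
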