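import Mathlib

set_option autoImplicit false

namespace Q133.Wiener

/-- The solutions of `b z^m = -a` with positive integers `a, b, m` are dense in `ℂ`. -/
theorem dense_solutions (w : ℂ) (δ : ℝ) (hδ : 0 < δ) :
    ∃ (m a b : ℕ) (z : ℂ), 1 ≤ m ∧ 1 ≤ a ∧ 1 ≤ b ∧ (b : ℂ) * z ^ m = -(a : ℂ) ∧ ‖z - w‖ < δ := by
  set ρ : ℝ := ‖w‖ with hρ
  have hρ0 : 0 ≤ ρ := norm_nonneg w
  set θ : ℝ := Complex.arg w with hθ
  have hw : w = (ρ : ℂ) * Complex.exp (θ * Complex.I) := (Complex.norm_mul_exp_arg_mul_I w).symm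
  obtain ⟨m, hm⟩ := exists_nat_gt (max 1 (ρ * Real.pi / (δ / 2)))
  have hm1 : (1 : ℝ) < m := lt_of_le_of_lt (le_max_left _ _) hm
  have hmpos : (0 : ℝ) < m := by linarith
  have hm1' : 1 ≤ m := by exact_mod_cast hm1.le
  have hm2 : ρ * (Real.pi / m) < δ / 2 := by
    have h1 : ρ * Real.pi / (δ / 2) < m := lt_of_le_of_lt (le_max_right _ _) hm
    rw [div_lt_iff₀ (by positivity)] at h1
    rw [← mul_div_assoc, div_lt_iff₀ hmpos]
    linarith
  -- the modulus
  have hlt : ρ ^ m < (ρ + δ / 2) ^ m := pow_lt_pow_left₀ (by linarith) hρ0 (by omega)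
  obtain ⟨q, hq1, hq2⟩ := exists_rat_btwn hlt
  have hq0 : (0 : ℝ) < q := lt_of_le_of_lt (by positivity) hq1
  have hq0' : 0 < q := by exact_mod_cast hq0
  set s : ℝ := (q : ℝ) ^ ((1 : ℝ) / m) with hs
  have hs0 : 0 ≤ s := Real.rpow_nonneg hq0.le _
  have hsm : s ^ m = q := by
    rw [hs, ← Real.rpow_natCast, ← Real.rpow_mul hq0.le]
    rw [one_div, inv_mul_cancel₀ hmpos.ne', Real.rpow_one]
  have hs1 : ρ < s := by
    by_contra h
    push Not at h
    have := pow_le_pow_left₀ hs0 h m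
    rw [hsm] at this
    linarith
  have hs2 : s < ρ + δ / 2 := by
    by_contra h
    push Not at h
    have := pow_le_pow_left₀ (by positivity : (0 : ℝ) ≤ ρ + δ / 2) h m
    rw [hsm] at this
    linarith
  -- the angle
  set l : ℤ := round ((θ * m / Real.pi - 1) / 2) with hl
  set φ : ℝ := Real.pi * (2 * l + 1) / m with hφ
  have hπ := Real.pi_pos
  have hangle : |φ - θ| ≤ Real.pi / m := by
    have h1 := abs_sub_round ((θ * m / Real.pi - 1) / 2)
    rw [← hl] at h1
    have h2 : φ - θ = -(2 * Real.pi / m) * ((θ * m / Real.pi - 1) / 2 - l) := by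
      rw [hφ]; field_simp; ring
    rw [h2, abs_mul, abs_neg, abs_of_pos (by positivity : 0 < 2 * Real.pi / m)]
    calc 2 * Real.pi / m * |(θ * m / Real.pi - 1) / 2 - l| ≤ 2 * Real.pi / m * (1 / 2) := by
          gcongr
      _ = Real.pi / m := by ring
  refine ⟨m, q.num.toNat, q.den, (s : ℂ) * Complex.exp (φ * Complex.I), hm1', ?_, q.den_pos, ?_, ?_⟩
  · have : 0 < q.num := Rat.num_pos.mpr hq0'
    omega
  · have h1 : ((s : ℂ) * Complex.exp (φ * Complex.I)) ^ m = -(q : ℂ) := by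
      rw [mul_pow, ← Complex.exp_nat_mul]
      have h2 : (m : ℂ) * ((φ : ℂ) * Complex.I) = Real.pi * Complex.I + l * (2 * Real.pi * Complex.I) := by
        rw [hφ]
        push_cast
        have : (m : ℂ) ≠ 0 := by exact_mod_cast hmpos.ne'
        field_simp
        ring
      rw [h2, Complex.exp_add, Complex.exp_pi_mul_I, Complex.exp_int_mul_two_pi_mul_I]
      have h3 : (s : ℂ) ^ m = (q : ℂ) := by
        rw [← Complex.ofReal_pow, hsm]
        simp
      rw [h3]
      ring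
    rw [h1]
    have h4 : (q.num.toNat : ℂ) = (q.num : ℂ) := by
      have : ((q.num.toNat : ℤ) : ℂ) = (q.num : ℂ) := by
        rw [Int.toNat_of_nonneg (Rat.num_nonneg.mpr hq0'.le)]
      exact_mod_cast this
    rw [h4]
    have h5 : (q : ℂ) * (q.den : ℂ) = (q.num : ℂ) := by
      exact_mod_cast Rat.mul_den_eq_num q
    rw [← h5]
    ring
  · have h1 : ‖Complex.exp (φ * Complex.I)‖ = 1 := Complex.norm_exp_ofReal_mul_I φ
    have h2 : (s : ℂ) * Complex.exp (φ * Complex.I) - w =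
        ((s - ρ : ℝ) : ℂ) * Complex.exp (φ * Complex.I) +
          (ρ : ℂ) * (Complex.exp (θ * Complex.I) * (Complex.exp (Complex.I * ((φ - θ : ℝ) : ℂ)) - 1)) := by
      conv_lhs => rw [hw]
      rw [mul_sub, mul_one, ← Complex.exp_add]
      have : (θ : ℂ) * Complex.I + Complex.I * ((φ - θ : ℝ) : ℂ) = φ * Complex.I := by
        push_cast; ring
      rw [this]
      push_cast
      ring
    rw [h2]
    calc _ ≤ ‖((s - ρ : ℝ) : ℂ) * Complex.exp (φ * Complex.I)‖ + _ := norm_add_le _ _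
      _ ≤ |s - ρ| * 1 + ρ * (1 * |φ - θ|) := by
          rw [norm_mul, h1, norm_mul, norm_mul, Complex.norm_exp_ofReal_mul_I, Complex.norm_real,
            Complex.norm_real, Real.norm_eq_abs, Real.norm_eq_abs, abs_of_nonneg hρ0]
          have h3 := Real.norm_exp_I_mul_ofReal_sub_one_le (x := φ - θ)
          rw [Real.norm_eq_abs] at h3
          gcongr
      _ < δ := by
          rw [abs_of_pos (by linarith)]
          have h4 : ρ * |φ - θ| ≤ ρ * (Real.pi / m) := by gcongr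
          linarith

end Q133.Wiener
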