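import Mathlib
import Pool.Agent.Q133.Wiener

set_option autoImplicit false
set_option linter.unusedSectionVars false

namespace Q133.Wiener.Cat

open Q133.Wiener

/-- vertices of a caterpillar: `(i, 0)` is the spine vertex `i`, the others are leaves at `i` -/
abbrev CV (L : ℕ) (c : ℕ → ℕ) := Σ i : Fin L, Fin (c i + 1)

/-- spine vertex -/
def sp {L : ℕ} {c : ℕ → ℕ} (i : ℕ) (h : i < L) : CV L c := ⟨⟨i, h⟩, ⟨0, Nat.succ_pos _⟩⟩

/-- height over the spine -/
def ht {L : ℕ} {c : ℕ → ℕ} (v : CV L c) : ℕ := if (v.2 : ℕ) = 0 then 0 else 1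

/-- parent -/
def par (L : ℕ) (c : ℕ → ℕ) (v : CV L c) : CV L c :=
  if (v.2 : ℕ) = 0 then sp ((v.1 : ℕ) - 1) (by omega) else sp (v.1 : ℕ) v.1.2

/-- depth -/
def dep (L : ℕ) (c : ℕ → ℕ) (v : CV L c) : ℕ := (v.1 : ℕ) + ht v

theorem eq_sp {L : ℕ} {c : ℕ → ℕ} (v : CV L c) (h : (v.2 : ℕ) = 0) : v = sp (v.1 : ℕ) v.1.2 := by
  rcases v with ⟨i, a⟩
  simp only [sp]
  have : a = ⟨0, Nat.succ_pos _⟩ := Fin.ext h
  rw [this]

theorem dep_sp {L : ℕ} {c : ℕ → ℕ} (i : ℕ) (h : i < L) : dep L c (sp i h) = i := by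
  simp [dep, sp, ht]

theorem dep_par (L : ℕ) (c : ℕ → ℕ) (hL : 0 < L) (v : CV L c) (hv : v ≠ sp 0 hL) :
    dep L c v = dep L c (par L c v) + 1 := by
  by_cases h : (v.2 : ℕ) = 0
  · have h1 : (v.1 : ℕ) ≠ 0 := by
      intro h1
      apply hv
      rw [eq_sp v h]
      simp only [h1]
    have h2 : par L c v = sp ((v.1 : ℕ) - 1) (by omega) := if_pos h
    rw [h2, dep_sp]
    simp only [dep, ht, h, if_true]
    omega
  · have h2 : par L c v = sp (v.1 : ℕ) v.1.2 := if_neg h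
    rw [h2, dep_sp]
    simp only [dep, ht, h, if_false]

/-- caterpillar -/
def T (L : ℕ) (c : ℕ → ℕ) (hL : 0 < L) : SimpleGraph (CV L c) :=
  parentGraph (sp 0 hL) (par L c) (dep L c) (dep_par L c hL)

theorem T_conn (L : ℕ) (c : ℕ → ℕ) (hL : 0 < L) : (T L c hL).Connected := parent_connected

theorem T_tree (L : ℕ) (c : ℕ → ℕ) (hL : 0 < L) : (T L c hL).IsTree := parent_isTree

/-- the distance function -/
def D {L : ℕ} {c : ℕ → ℕ} (u v : CV L c) : ℤ :=
  if u = v then 0 else |((u.1 : ℕ) : ℤ) - ((v.1 : ℕ) : ℤ)| + ht u + ht v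

theorem D_sp {L : ℕ} {c : ℕ → ℕ} (u : CV L c) (i : ℕ) (h : i < L) :
    D u (sp i h) = |((u.1 : ℕ) : ℤ) - (i : ℤ)| + ht u := by
  unfold D
  by_cases hu : u = sp i h
  · rw [if_pos hu, hu]; simp [sp, ht]
  · rw [if_neg hu]; simp [sp, ht]

theorem D_lip (L : ℕ) (c : ℕ → ℕ) (hL : 0 < L) (u v : CV L c) (hv : v ≠ sp 0 hL) :
    |D u v - D u (par L c v)| ≤ 1 := by
  by_cases h : (v.2 : ℕ) = 0
  · have h1 : (v.1 : ℕ) ≠ 0 := by
      intro h1
      apply hv
      rw [eq_sp v h]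
      simp only [h1]
    have h2 : D u v = |((u.1 : ℕ) : ℤ) - ((v.1 : ℕ) : ℤ)| + ht u := by
      conv_lhs => rw [eq_sp v h]
      rw [D_sp]
    have h3 : D u (par L c v) = |((u.1 : ℕ) : ℤ) - (((v.1 : ℕ) - 1 : ℕ) : ℤ)| + ht u := by
      unfold par
      rw [if_pos h, D_sp]
    rw [h2, h3]
    have h4 : (((v.1 : ℕ) - 1 : ℕ) : ℤ) = ((v.1 : ℕ) : ℤ) - 1 := by
      rw [Nat.cast_sub (by omega)]; simp
    rw [h4]
    have h5 := abs_abs_sub_abs_le (((u.1 : ℕ) : ℤ) - ((v.1 : ℕ) : ℤ)) (((u.1 : ℕ) : ℤ) - (((v.1 : ℕ) : ℤ) - 1))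
    have h6 : (((u.1 : ℕ) : ℤ) - ((v.1 : ℕ) : ℤ)) - (((u.1 : ℕ) : ℤ) - (((v.1 : ℕ) : ℤ) - 1)) = -1 := by ring
    rw [h6] at h5
    simp only [abs_neg, abs_one] at h5
    rw [add_sub_add_right_eq_sub]
    exact h5
  · have h3 : D u (par L c v) = |((u.1 : ℕ) : ℤ) - ((v.1 : ℕ) : ℤ)| + ht u := by
      unfold par
      rw [if_neg h, D_sp]
    rw [h3]
    unfold D
    by_cases huv : u = v
    · rw [if_pos huv, huv]
      have : ht v = 1 := by simp [ht, h]
      rw [this]; simp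
    · rw [if_neg huv]
      have : ht v = 1 := by simp [ht, h]
      rw [this]; simp

theorem dist_sp_le (L : ℕ) (c : ℕ → ℕ) (hL : 0 < L) (u : CV L c) :
    (T L c hL).dist u (sp (u.1 : ℕ) u.1.2) ≤ ht u := by
  by_cases h : (u.2 : ℕ) = 0
  · rw [← eq_sp u h]; simp
  · have h1 : u ≠ sp 0 hL := by
      intro hh
      apply h
      rw [hh]; rfl
    have h2 : (T L c hL).Adj u (par L c u) := adj_parent h1
    have h3 : par L c u = sp (u.1 : ℕ) u.1.2 := by unfold par; rw [if_neg h]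
    rw [h3] at h2
    rw [SimpleGraph.dist_eq_one_iff_adj.mpr h2]
    simp [ht, h]

theorem dist_spine (L : ℕ) (c : ℕ → ℕ) (hL : 0 < L) (i k : ℕ) (h : i + k < L) :
    (T L c hL).dist (sp i (by omega)) (sp (i + k) h) ≤ k := by
  induction k with
  | zero => simp
  | succ k ih =>
    have h1 := (T_conn L c hL).dist_triangle (u := sp i (by omega)) (v := sp (i + k) (by omega))
      (w := sp (i + (k + 1)) h)
    have h2 := ih (by omega)
    have h3 : (sp (i + (k + 1)) h : CV L c) ≠ sp 0 hL := by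
      intro hh
      have := congrArg (fun v : CV L c => (v.1 : ℕ)) hh
      simp [sp] at this
    have h4 : (T L c hL).Adj (sp (i + (k + 1)) h) (par L c (sp (i + (k + 1)) h)) := adj_parent h3
    have h5 : par L c (sp (i + (k + 1)) h) = sp (i + k) (by omega) := by
      unfold par
      simp only [sp, if_true]
      rfl
    rw [h5] at h4
    have h6 := SimpleGraph.dist_eq_one_iff_adj.mpr h4.symm
    omega

theorem dist_spine' (L : ℕ) (c : ℕ → ℕ) (hL : 0 < L) (i j : ℕ) (hi : i < L) (hj : j < L) :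
    ((T L c hL).dist (sp i hi) (sp j hj) : ℤ) ≤ |(i : ℤ) - j| := by
  rcases le_total i j with h | h
  · obtain ⟨k, rfl⟩ := Nat.exists_eq_add_of_le h
    have := dist_spine L c hL i k hj
    rw [abs_sub_comm, abs_of_nonneg (by push_cast; omega)]
    push_cast
    have h2 : ((T L c hL).dist (sp i hi) (sp (i + k) hj) : ℤ) ≤ k := by exact_mod_cast this
    linarith
  · obtain ⟨k, rfl⟩ := Nat.exists_eq_add_of_le h
    have := dist_spine L c hL j k hi
    rw [abs_of_nonneg (by push_cast; omega), SimpleGraph.dist_comm]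
    push_cast
    have h2 : ((T L c hL).dist (sp j hj) (sp (j + k) hi) : ℤ) ≤ k := by exact_mod_cast this
    linarith

theorem dist_eq (L : ℕ) (c : ℕ → ℕ) (hL : 0 < L) (u v : CV L c) :
    ((T L c hL).dist u v : ℤ) = D u v := by
  apply le_antisymm
  · unfold D
    by_cases huv : u = v
    · rw [if_pos huv, huv]; simp
    · rw [if_neg huv]
      have h1 := (T_conn L c hL).dist_triangle (u := u) (v := sp (u.1 : ℕ) u.1.2) (w := v)
      have h2 := (T_conn L c hL).dist_triangle (u := sp (u.1 : ℕ) u.1.2) (v := sp (v.1 : ℕ) v.1.2) (w := v)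
      have h3 := dist_sp_le L c hL u
      have h4 := dist_sp_le L c hL v
      rw [SimpleGraph.dist_comm] at h4
      have h5 := dist_spine' L c hL (u.1 : ℕ) (v.1 : ℕ) u.1.2 v.1.2
      have h1' : ((T L c hL).dist u v : ℤ) ≤ (T L c hL).dist u (sp (u.1 : ℕ) u.1.2) +
        (T L c hL).dist (sp (u.1 : ℕ) u.1.2) v := by exact_mod_cast h1
      have h2' : ((T L c hL).dist (sp (u.1 : ℕ) u.1.2) v : ℤ) ≤
        (T L c hL).dist (sp (u.1 : ℕ) u.1.2) (sp (v.1 : ℕ) v.1.2) +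
        (T L c hL).dist (sp (v.1 : ℕ) v.1.2) v := by exact_mod_cast h2
      have h3' : ((T L c hL).dist u (sp (u.1 : ℕ) u.1.2) : ℤ) ≤ ht u := by exact_mod_cast h3
      have h4' : ((T L c hL).dist (sp (v.1 : ℕ) v.1.2) v : ℤ) ≤ ht v := by exact_mod_cast h4
      linarith
  · have h1 := lip_le_dist (T_conn L c hL) (fun w => D u w) (by
      rintro a b (⟨h1, h2⟩ | ⟨h1, h2⟩)
      · rw [← h2]; exact D_lip L c hL u a h1
      · rw [← h2, abs_sub_comm]; exact D_lip L c hL u b h1) v u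
    have h2 : D u u = 0 := by simp [D]
    have h3 : (fun w => D u w) v - (fun w => D u w) u = D u v := by
      simp only [h2, sub_zero]
    rw [h3, SimpleGraph.dist_comm] at h1
    exact le_trans (le_abs_self _) h1

/-- the sum over ordered pairs, as a real function -/
noncomputable def W {V : Type} [Fintype V] [DecidableEq V] (G : SimpleGraph V) (x : ℝ) : ℝ :=
  ∑ q ∈ (Finset.univ : Finset V).offDiag, x ^ (G.dist q.1 q.2)

theorem sum_ht (L : ℕ) (c : ℕ → ℕ) (i : Fin L) (x : ℝ) :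
    ∑ a : Fin (c i + 1), x ^ (ht (⟨i, a⟩ : CV L c)) = 1 + c i * x := by
  rw [Fin.sum_univ_succ]
  simp [ht]

theorem sum_ht2 (L : ℕ) (c : ℕ → ℕ) (i : Fin L) (x : ℝ) :
    ∑ a : Fin (c i + 1), x ^ (2 * ht (⟨i, a⟩ : CV L c)) = 1 + c i * x ^ 2 := by
  rw [Fin.sum_univ_succ]
  simp [ht]

theorem W_eq (L : ℕ) (c : ℕ → ℕ) (hL : 0 < L) (x : ℝ) :
    W (T L c hL) x = ∑ i : Fin L, ∑ j : Fin L,
      x ^ (((i : ℤ) - (j : ℤ)).natAbs) * ((1 + c i * x) * (1 + c j * x)) -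
      ∑ i : Fin L, (1 + c i * x ^ 2) := by
  classical
  have h1 : W (T L c hL) x = ∑ q ∈ (Finset.univ : Finset (CV L c)).offDiag,
      x ^ ((((q.1.1 : ℕ) : ℤ) - ((q.2.1 : ℕ) : ℤ)).natAbs) * (x ^ ht q.1 * x ^ ht q.2) := by
    refine Finset.sum_congr rfl fun q hq => ?_
    rw [Finset.mem_offDiag] at hq
    have h2 := dist_eq L c hL q.1 q.2
    unfold D at h2
    rw [if_neg hq.2.2] at h2
    have h3 : (T L c hL).dist q.1 q.2 =
        (((q.1.1 : ℕ) : ℤ) - ((q.2.1 : ℕ) : ℤ)).natAbs + (ht q.1 + ht q.2) := by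
      have : ((T L c hL).dist q.1 q.2 : ℤ) =
        (((((q.1.1 : ℕ) : ℤ) - ((q.2.1 : ℕ) : ℤ)).natAbs + (ht q.1 + ht q.2) : ℕ) : ℤ) := by
        rw [h2]
        push_cast
        ring
      exact_mod_cast this
    rw [h3, pow_add, pow_add]
  have h4 : ∑ q ∈ (Finset.univ : Finset (CV L c)).diag,
      x ^ ((((q.1.1 : ℕ) : ℤ) - ((q.2.1 : ℕ) : ℤ)).natAbs) * (x ^ ht q.1 * x ^ ht q.2) =
      ∑ i : Fin L, (1 + c i * x ^ 2) := by
    rw [Finset.sum_diag, Fintype.sum_sigma]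
    refine Finset.sum_congr rfl fun i _ => ?_
    rw [← sum_ht2]
    refine Finset.sum_congr rfl fun a _ => ?_
    simp only [sub_self, Int.natAbs_zero, pow_zero, one_mul]
    rw [← pow_add, two_mul]
  have h5 : ∑ q ∈ (Finset.univ : Finset (CV L c)) ×ˢ (Finset.univ : Finset (CV L c)),
      x ^ ((((q.1.1 : ℕ) : ℤ) - ((q.2.1 : ℕ) : ℤ)).natAbs) * (x ^ ht q.1 * x ^ ht q.2) =
      ∑ i : Fin L, ∑ j : Fin L,
      x ^ (((i : ℤ) - (j : ℤ)).natAbs) * ((1 + c i * x) * (1 + c j * x)) := by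
    rw [Finset.sum_product, Fintype.sum_sigma]
    refine Finset.sum_congr rfl fun i _ => ?_
    rw [Finset.sum_comm, Fintype.sum_sigma]
    refine Finset.sum_congr rfl fun j _ => ?_
    rw [← sum_ht, ← sum_ht, Finset.sum_mul_sum, Finset.mul_sum, Finset.sum_comm]
    refine Finset.sum_congr rfl fun a _ => ?_
    rw [Finset.mul_sum]
  rw [h1, eq_sub_iff_add_eq, ← h4, ← h5, add_comm, ← Finset.diag_union_offDiag,
    Finset.sum_union (Finset.disjoint_diag_offDiag _)]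

end Q133.Wiener.Cat
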