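import Mathlib
import Pool.Agent.Q133.Wiener

set_option autoImplicit false
set_option linter.unusedSectionVars false

open Polynomial

namespace Q133.Wiener

/-- vertices of a branch: level `j` contains `c j + 1` vertices -/
abbrev Br (k : ℕ) (c : ℕ → ℕ) := Σ j : Fin k, Fin (c j + 1)

/-- parent -/
def par (N k : ℕ) (c : ℕ → ℕ) : Option (Fin N × Br k c) → Option (Fin N × Br k c)
  | none => none
  | some (i, b) => if h : (b.1 : ℕ) = 0 then none else
      some (i, ⟨⟨(b.1 : ℕ) - 1, by omega⟩, ⟨0, Nat.succ_pos _⟩⟩)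

/-- depth -/
def dep (N k : ℕ) (c : ℕ → ℕ) : Option (Fin N × Br k c) → ℕ
  | none => 0
  | some (_, b) => (b.1 : ℕ) + 1

theorem dep_par (N k : ℕ) (c : ℕ → ℕ) (v : Option (Fin N × Br k c)) (hv : v ≠ none) :
    dep N k c v = dep N k c (par N k c v) + 1 := by
  rcases v with _ | ⟨i, b⟩
  · exact absurd rfl hv
  · by_cases h : (b.1 : ℕ) = 0
    · simp [dep, par, h]
    · simp only [dep, par, h, dite_false]
      omega

/-- the tree -/
def T (N k : ℕ) (c : ℕ → ℕ) : SimpleGraph (Option (Fin N × Br k c)) :=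
  parentGraph none (par N k c) (dep N k c) (dep_par N k c)

theorem T_conn (N k : ℕ) (c : ℕ → ℕ) : (T N k c).Connected := parent_connected

theorem T_tree (N k : ℕ) (c : ℕ → ℕ) : (T N k c).IsTree := parent_isTree

theorem T_dist_le (N k : ℕ) (c : ℕ → ℕ) (u v : Option (Fin N × Br k c)) :
    (T N k c).dist u v ≤ dep N k c u + dep N k c v := by
  have h1 := (T_conn N k c).dist_triangle (u := u) (v := none) (w := v)
  have h2 : (T N k c).dist u none ≤ dep N k c u := dist_root_le u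
  have h3 : (T N k c).dist v none ≤ dep N k c v := dist_root_le v
  rw [SimpleGraph.dist_comm] at h3
  omega

theorem dep_le (N k : ℕ) (c : ℕ → ℕ) (u : Option (Fin N × Br k c)) : dep N k c u ≤ k := by
  rcases u with _ | ⟨i, b⟩
  · simp [dep]
  · have := b.1.2
    simp only [dep]
    omega

open Classical in
/-- signed depth relative to the branch `i` -/
noncomputable def sd (N k : ℕ) (c : ℕ → ℕ) (i : Fin N) : Option (Fin N × Br k c) → ℤ
  | none => 0
  | some (i', b) => if i' = i then ((b.1 : ℕ) : ℤ) + 1 else -(((b.1 : ℕ) : ℤ) + 1)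

theorem sd_par (N k : ℕ) (c : ℕ → ℕ) (i : Fin N) (v : Option (Fin N × Br k c)) (hv : v ≠ none) :
    |sd N k c i v - sd N k c i (par N k c v)| ≤ 1 := by
  rcases v with _ | ⟨i', b⟩
  · exact absurd rfl hv
  · by_cases h : (b.1 : ℕ) = 0
    · by_cases h' : i' = i
      · simp [sd, par, h, h']
      · simp [sd, par, h, h']
    · simp only [par, h, dite_false, sd]
      have h2 : (((b.1 : ℕ) - 1 : ℕ) : ℤ) = ((b.1 : ℕ) : ℤ) - 1 := by
        rw [Nat.cast_sub (by omega)]; simp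
      by_cases h' : i' = i
      · simp only [h', if_true, h2]
        rw [abs_le]; constructor <;> linarith
      · simp only [h', if_false, h2]
        rw [abs_le]; constructor <;> linarith

theorem T_dist_eq (N k : ℕ) (c : ℕ → ℕ) (i i' : Fin N) (b b' : Br k c) (h : i ≠ i') :
    (T N k c).dist (some (i, b)) (some (i', b')) = ((b.1 : ℕ) + 1) + ((b'.1 : ℕ) + 1) := by
  apply le_antisymm (T_dist_le N k c _ _)
  have h1 := lip_le_dist (T_conn N k c) (sd N k c i) (by
    rintro u v (⟨h1, h2⟩ | ⟨h1, h2⟩)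
    · rw [← h2]; exact sd_par N k c i u h1
    · rw [← h2, abs_sub_comm]; exact sd_par N k c i v h1) (some (i, b)) (some (i', b'))
  have h2 : sd N k c i (some (i, b)) = ((b.1 : ℕ) : ℤ) + 1 := by simp [sd]
  have h3 : sd N k c i (some (i', b')) = -(((b'.1 : ℕ) : ℤ) + 1) := by simp [sd, h.symm]
  rw [h2, h3] at h1
  have h4 : (((b.1 : ℕ) : ℤ) + 1 - -(((b'.1 : ℕ) : ℤ) + 1)) ≤ (T N k c).dist (some (i, b)) (some (i', b')) :=
    le_trans (le_abs_self _) h1
  have h5 : ((((b.1 : ℕ) + 1) + ((b'.1 : ℕ) + 1) : ℕ) : ℤ) ≤ (T N k c).dist (some (i, b)) (some (i', b')) := by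
    push_cast
    linarith
  exact_mod_cast h5

/-- the sum over ordered pairs -/
noncomputable def Wo {V : Type} [Fintype V] [DecidableEq V] (G : SimpleGraph V) : ℂ[X] :=
  ∑ q ∈ (Finset.univ : Finset V).offDiag, X ^ (G.dist q.1 q.2)

/-- ordered pairs in different branches -/
def emb (N k : ℕ) (c : ℕ → ℕ) : (Fin N × Fin N) × (Br k c × Br k c) →
    Option (Fin N × Br k c) × Option (Fin N × Br k c) :=
  fun q => (some (q.1.1, q.2.1), some (q.1.2, q.2.2))

theorem emb_inj (N k : ℕ) (c : ℕ → ℕ) : Function.Injective (emb N k c) := by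
  rintro ⟨⟨i, i'⟩, ⟨b, b'⟩⟩ ⟨⟨j, j'⟩, ⟨d, d'⟩⟩ h
  simp only [emb, Prod.mk.injEq, Option.some.injEq] at h
  obtain ⟨⟨h1, h2⟩, ⟨h3, h4⟩⟩ := h
  subst h1; subst h2; subst h3; subst h4
  rfl

/-- the index set of the pairs in different branches -/
def idx (N k : ℕ) (c : ℕ → ℕ) : Finset ((Fin N × Fin N) × (Br k c × Br k c)) :=
  (Finset.univ : Finset (Fin N)).offDiag ×ˢ Finset.univ

/-- pairs in different branches -/
def Diff (N k : ℕ) (c : ℕ → ℕ) : Finset (Option (Fin N × Br k c) × Option (Fin N × Br k c)) :=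
  (idx N k c).map ⟨emb N k c, emb_inj N k c⟩

theorem Diff_sub (N k : ℕ) (c : ℕ → ℕ) : Diff N k c ⊆ Finset.univ.offDiag := by
  intro q hq
  rw [Diff, Finset.mem_map] at hq
  obtain ⟨⟨⟨i, i'⟩, ⟨b, b'⟩⟩, h1, rfl⟩ := hq
  simp only [idx, Finset.mem_product, Finset.mem_offDiag, Finset.mem_univ, true_and, and_true] at h1
  simp only [Function.Embedding.coeFn_mk, emb, Finset.mem_offDiag, Finset.mem_univ, true_and]
  intro h
  rw [Option.some.injEq, Prod.mk.injEq] at h
  exact h1 h.1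

/-- level polynomial value -/
noncomputable def pz (k : ℕ) (c : ℕ → ℕ) (z : ℂ) : ℂ := ∑ b : Br k c, z ^ ((b.1 : ℕ) + 1)

theorem sum_Diff (N k : ℕ) (c : ℕ → ℕ) (z : ℂ) :
    ∑ q ∈ Diff N k c, z ^ ((T N k c).dist q.1 q.2) = ((N * N - N : ℕ) : ℂ) * pz k c z ^ 2 := by
  rw [Diff, Finset.sum_map, idx, Finset.sum_product]
  have h1 : ∀ i ∈ (Finset.univ : Finset (Fin N)).offDiag, ∑ x : Br k c × Br k c,
      z ^ ((T N k c).dist ((⟨emb N k c, emb_inj N k c⟩ : _ ↪ _) (i, x)).1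
        ((⟨emb N k c, emb_inj N k c⟩ : _ ↪ _) (i, x)).2) = pz k c z ^ 2 := by
    rintro ⟨i, i'⟩ hi
    rw [Finset.mem_offDiag] at hi
    have h2 : ∀ x : Br k c × Br k c, z ^ ((T N k c).dist ((⟨emb N k c, emb_inj N k c⟩ : _ ↪ _) ((i, i'), x)).1
        ((⟨emb N k c, emb_inj N k c⟩ : _ ↪ _) ((i, i'), x)).2) =
        z ^ ((x.1.1 : ℕ) + 1) * z ^ ((x.2.1 : ℕ) + 1) := by
      rintro ⟨b, b'⟩
      simp only [Function.Embedding.coeFn_mk, emb]
      rw [T_dist_eq N k c i i' b b' hi.2.2, pow_add]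
    rw [Finset.sum_congr rfl (fun x _ => h2 x), Fintype.sum_prod_type, pz, pow_two, Finset.sum_mul_sum]
  rw [Finset.sum_congr rfl h1, Finset.sum_const, Finset.offDiag_card, nsmul_eq_mul]
  simp

theorem card_Diff (N k : ℕ) (c : ℕ → ℕ) :
    (Diff N k c).card = (N * N - N) * (Fintype.card (Br k c)) ^ 2 := by
  rw [Diff, Finset.card_map, idx, Finset.card_product, Finset.offDiag_card, Finset.card_univ,
    Finset.card_univ, Fintype.card_fin, Fintype.card_prod, pow_two]

theorem card_rest (N k : ℕ) (c : ℕ → ℕ) (hN : 1 ≤ N) (hB : 1 ≤ Fintype.card (Br k c)) :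
    ((Finset.univ : Finset (Option (Fin N × Br k c))).offDiag \ Diff N k c).card ≤
      2 * N * (Fintype.card (Br k c)) ^ 2 := by
  rw [Finset.card_sdiff_of_subset (Diff_sub N k c), card_Diff, Finset.offDiag_card, Finset.card_univ,
    Fintype.card_option, Fintype.card_prod, Fintype.card_fin]
  set B := Fintype.card (Br k c)
  have h1 : (N * N - N) * B ^ 2 = N * N * B ^ 2 - N * B ^ 2 := by rw [Nat.sub_mul]
  have h2 : N * B ^ 2 ≤ N * N * B ^ 2 := by
    apply Nat.mul_le_mul_right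
    nlinarith
  have h3 : N * B ≤ N * B ^ 2 := by
    apply Nat.mul_le_mul_left
    nlinarith
  have h4 : (N * B + 1) * (N * B + 1) - (N * B + 1) = (N * B) * (N * B) + N * B := by
    have : (N * B + 1) * (N * B + 1) = (N * B) * (N * B) + N * B + (N * B + 1) := by ring
    omega
  have h5 : (N * B) * (N * B) = N * N * B ^ 2 := by ring
  rw [h1, h4, h5]
  have h6 : 2 * N * B ^ 2 = N * B ^ 2 + N * B ^ 2 := by ring
  omega

theorem natDegree_Wo_le (N k : ℕ) (c : ℕ → ℕ) : (Wo (T N k c)).natDegree ≤ 2 * k := by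
  rw [Wo]
  refine natDegree_sum_le_of_forall_le _ _ fun q _ => ?_
  rw [natDegree_X_pow]
  have h1 := T_dist_le N k c q.1 q.2
  have h2 := dep_le N k c q.1
  have h3 := dep_le N k c q.2
  omega

theorem coeff_Wo (N k : ℕ) (c : ℕ → ℕ) (hk : 1 ≤ k) :
    ((N * N - N : ℕ) : ℝ) * ((c (k - 1) : ℝ) + 1) ^ 2 ≤ ‖(Wo (T N k c)).coeff (2 * k)‖ := by
  have h1 : (Wo (T N k c)).coeff (2 * k) =
      ((((Finset.univ : Finset (Option (Fin N × Br k c))).offDiag.filter
        (fun q => 2 * k = (T N k c).dist q.1 q.2)).card : ℕ) : ℂ) := by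
    rw [Wo, finsetSum_coeff]
    simp only [coeff_X_pow]
    rw [Finset.sum_boole]
  rw [h1, Complex.norm_natCast]
  -- an injection
  let g : (Fin N × Fin N) × (Fin (c (k - 1) + 1) × Fin (c (k - 1) + 1)) →
      Option (Fin N × Br k c) × Option (Fin N × Br k c) := fun q =>
    (some (q.1.1, ⟨⟨k - 1, by omega⟩, q.2.1⟩), some (q.1.2, ⟨⟨k - 1, by omega⟩, q.2.2⟩))
  have hg : Function.Injective g := by
    rintro ⟨⟨i, i'⟩, ⟨b, b'⟩⟩ ⟨⟨j, j'⟩, ⟨d, d'⟩⟩ h
    simp only [g, Prod.mk.injEq, Option.some.injEq, Sigma.mk.injEq, heq_eq_eq, true_and] at h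
    obtain ⟨⟨h1, h2⟩, ⟨h3, h4⟩⟩ := h
    subst h1; subst h2; subst h3; subst h4
    rfl
  have h2 : ((Finset.univ : Finset (Fin N)).offDiag ×ˢ
      (Finset.univ : Finset (Fin (c (k - 1) + 1) × Fin (c (k - 1) + 1)))).image g ⊆
      (Finset.univ : Finset (Option (Fin N × Br k c))).offDiag.filter
        (fun q => 2 * k = (T N k c).dist q.1 q.2) := by
    intro q hq
    rw [Finset.mem_image] at hq
    obtain ⟨⟨⟨i, i'⟩, ⟨b, b'⟩⟩, hm, rfl⟩ := hq
    simp only [Finset.mem_product, Finset.mem_offDiag, Finset.mem_univ, true_and, and_true] at hm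
    simp only [g, Finset.mem_filter, Finset.mem_offDiag, Finset.mem_univ, true_and]
    refine ⟨?_, ?_⟩
    · intro h
      rw [Option.some.injEq, Prod.mk.injEq] at h
      exact hm h.1
    · rw [T_dist_eq N k c i i' _ _ hm]
      simp only
      omega
  have h3 := Finset.card_le_card h2
  rw [Finset.card_image_of_injective _ hg, Finset.card_product, Finset.offDiag_card,
    Finset.card_univ, Finset.card_univ, Fintype.card_fin, Fintype.card_prod, Fintype.card_fin] at h3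
  have h4 : ((N * N - N : ℕ) : ℝ) * ((c (k - 1) : ℝ) + 1) ^ 2 =
      (((N * N - N) * ((c (k - 1) + 1) * (c (k - 1) + 1)) : ℕ) : ℝ) := by
    push_cast
    ring
  rw [h4]
  exact_mod_cast h3

theorem exists_root (N k : ℕ) (c : ℕ → ℕ) (hN : 2 ≤ N) (hk : 1 ≤ k) (z : ℂ) (ε R : ℝ) (hε : 0 < ε)
    (hR1 : 1 ≤ R) (hR : ‖z‖ ≤ R)
    (h : ((N * N - N : ℕ) : ℝ) * ‖pz k c z‖ ^ 2 + 2 * N * (Fintype.card (Br k c) : ℝ) ^ 2 * R ^ (2 * k) <
      ((N * N - N : ℕ) : ℝ) * ((c (k - 1) : ℝ) + 1) ^ 2 * ε ^ (2 * k)) :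
    ∃ r : ℂ, (Wo (T N k c)).eval r = 0 ∧ ‖z - r‖ < ε := by
  have hBpos : 1 ≤ Fintype.card (Br k c) :=
    Fintype.card_pos_iff.mpr ⟨⟨⟨0, hk⟩, ⟨0, Nat.succ_pos _⟩⟩⟩
  have hNN : 1 ≤ N * N - N := by
    have : N * 2 ≤ N * N := Nat.mul_le_mul_left N hN
    omega
  have hcoeff := coeff_Wo N k c hk
  have hcpos : 0 < ‖(Wo (T N k c)).coeff (2 * k)‖ := by
    refine lt_of_lt_of_le ?_ hcoeff
    have : (1 : ℝ) ≤ ((N * N - N : ℕ) : ℝ) := by exact_mod_cast hNN
    positivity
  have hne : (Wo (T N k c)).coeff (2 * k) ≠ 0 := norm_pos_iff.mp hcpos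
  have hdeg : (Wo (T N k c)).natDegree = 2 * k :=
    le_antisymm (natDegree_Wo_le N k c) (le_natDegree_of_ne_zero hne)
  have hP : Wo (T N k c) ≠ 0 := fun h0 => by rw [h0] at hne; simp at hne
  refine exists_root_near _ z ε hε hP ?_
  rw [leadingCoeff, hdeg]
  have heval : (Wo (T N k c)).eval z = ((N * N - N : ℕ) : ℂ) * pz k c z ^ 2 +
      ∑ q ∈ (Finset.univ : Finset (Option (Fin N × Br k c))).offDiag \ Diff N k c,
        z ^ ((T N k c).dist q.1 q.2) := by
    rw [← sum_Diff, Wo, eval_finsetSum, add_comm, Finset.sum_sdiff (Diff_sub N k c)]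
    simp
  have hrest : ‖∑ q ∈ (Finset.univ : Finset (Option (Fin N × Br k c))).offDiag \ Diff N k c,
        z ^ ((T N k c).dist q.1 q.2)‖ ≤ 2 * N * (Fintype.card (Br k c) : ℝ) ^ 2 * R ^ (2 * k) := by
    calc _ ≤ ∑ q ∈ (Finset.univ : Finset (Option (Fin N × Br k c))).offDiag \ Diff N k c,
          ‖z ^ ((T N k c).dist q.1 q.2)‖ := norm_sum_le _ _
      _ ≤ ∑ q ∈ (Finset.univ : Finset (Option (Fin N × Br k c))).offDiag \ Diff N k c, R ^ (2 * k) := by
          refine Finset.sum_le_sum fun q _ => ?_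
          rw [norm_pow]
          calc ‖z‖ ^ ((T N k c).dist q.1 q.2) ≤ R ^ ((T N k c).dist q.1 q.2) :=
                pow_le_pow_left₀ (norm_nonneg _) hR _
            _ ≤ R ^ (2 * k) := by
                refine pow_le_pow_right₀ hR1 ?_
                have h1 := T_dist_le N k c q.1 q.2
                have h2 := dep_le N k c q.1
                have h3 := dep_le N k c q.2
                omega
      _ = (((Finset.univ : Finset (Option (Fin N × Br k c))).offDiag \ Diff N k c).card : ℝ) *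
            R ^ (2 * k) := by rw [Finset.sum_const, nsmul_eq_mul]
      _ ≤ _ := by
          refine mul_le_mul_of_nonneg_right ?_ (by positivity)
          exact_mod_cast card_rest N k c (by omega) hBpos
  rw [heval]
  calc _ ≤ ‖((N * N - N : ℕ) : ℂ) * pz k c z ^ 2‖ + _ := norm_add_le _ _
    _ ≤ ((N * N - N : ℕ) : ℝ) * ‖pz k c z‖ ^ 2 +
        2 * N * (Fintype.card (Br k c) : ℝ) ^ 2 * R ^ (2 * k) := by
        rw [norm_mul, norm_pow, Complex.norm_natCast]
        linarith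
    _ < _ := h
    _ ≤ _ := mul_le_mul_of_nonneg_right hcoeff (by positivity)

/-- level sizes for the density argument -/
def cc (m a b n : ℕ) (j : ℕ) : ℕ := if j = 0 then a * n - 1 else if j = m then b * n - 1 else 0

theorem pz_eq (k : ℕ) (c : ℕ → ℕ) (z : ℂ) :
    pz k c z = ∑ j ∈ Finset.range k, ((c j : ℂ) + 1) * z ^ (j + 1) := by
  rw [pz, Fintype.sum_sigma, ← Fin.sum_univ_eq_sum_range (fun j => ((c j : ℂ) + 1) * z ^ (j + 1))]
  refine Finset.sum_congr rfl fun j _ => ?_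
  simp

theorem card_Br (k : ℕ) (c : ℕ → ℕ) : Fintype.card (Br k c) = ∑ j ∈ Finset.range k, (c j + 1) := by
  rw [Fintype.card_sigma, ← Fin.sum_univ_eq_sum_range (fun j => c j + 1)]
  simp

theorem tree_root_near (m a b : ℕ) (hm : 1 ≤ m) (ha : 1 ≤ a) (hb : 1 ≤ b) (z : ℂ)
    (hz : (b : ℂ) * z ^ m = -(a : ℂ)) (ε : ℝ) (hε : 0 < ε) :
    ∃ (N k : ℕ) (c : ℕ → ℕ) (r : ℂ), 2 ≤ N ∧ 1 ≤ k ∧ (Wo (T N k c)).eval r = 0 ∧ ‖z - r‖ < ε := by
  set R : ℝ := max 1 ‖z‖ with hR
  set S : ℂ := ∑ j ∈ Finset.Ico 1 m, z ^ (j + 1) with hS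
  set K : ℝ := ‖S‖ ^ 2 + 2 * ((a : ℝ) + b + m) ^ 2 * R ^ (2 * (m + 1)) with hK
  have hKpos : 0 ≤ K := by positivity
  obtain ⟨n, hn⟩ := exists_nat_gt (max 1 (K / ((b : ℝ) ^ 2 * ε ^ (2 * (m + 1)))))
  have hn1 : (1 : ℝ) < n := lt_of_le_of_lt (le_max_left _ _) hn
  have hn1' : 1 ≤ n := by exact_mod_cast hn1.le
  have hbpos : (0 : ℝ) < b := by exact_mod_cast hb
  have hn2 : K < (n : ℝ) * ((b : ℝ) ^ 2 * ε ^ (2 * (m + 1))) := by
    have h1 : K / ((b : ℝ) ^ 2 * ε ^ (2 * (m + 1))) < n := lt_of_le_of_lt (le_max_right _ _) hn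
    rwa [div_lt_iff₀ (by positivity)] at h1
  have han : 1 ≤ a * n := Nat.mul_pos ha hn1'
  have hbn : 1 ≤ b * n := Nat.mul_pos hb hn1'
  set c := cc m a b n with hc
  have hc0 : (c 0 : ℂ) + 1 = (a : ℂ) * n := by
    have : c 0 + 1 = a * n := by simp only [hc, cc, if_true]; omega
    exact_mod_cast this
  have hcm' : c m + 1 = b * n := by
    simp only [hc, cc, if_true]
    rw [if_neg (by omega)]; omega
  have hcm : (c m : ℂ) + 1 = (b : ℂ) * n := by exact_mod_cast hcm'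
  have hp : pz (m + 1) c z = S := by
    rw [pz_eq, Finset.sum_range_succ, hcm, Finset.range_eq_Ico, ← Finset.sum_Ico_consecutive _ (Nat.zero_le 1) hm]
    have h1 : ∑ j ∈ Finset.Ico 1 m, ((c j : ℂ) + 1) * z ^ (j + 1) = S := by
      rw [hS]
      refine Finset.sum_congr rfl fun j hj => ?_
      rw [Finset.mem_Ico] at hj
      have : c j = 0 := by
        simp only [hc, cc]
        rw [if_neg (by omega), if_neg (by omega)]
      rw [this]; simp
    rw [h1]
    simp only [Nat.Ico_zero_eq_range, Finset.sum_range_one, hc0, zero_add, pow_one]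
    have : (b : ℂ) * n * z ^ (m + 1) = -(a : ℂ) * n * z := by
      rw [← hz, pow_succ]; ring
    rw [this]
    ring
  have hcard : (Fintype.card (Br (m + 1) c) : ℝ) ≤ ((a : ℝ) + b + m) * n := by
    have h1 : Fintype.card (Br (m + 1) c) ≤ (a + b + m) * n := by
      rw [card_Br, Finset.sum_range_succ, hcm', Finset.range_eq_Ico,
        ← Finset.sum_Ico_consecutive _ (Nat.zero_le 1) hm]
      have h2 : ∑ j ∈ Finset.Ico 1 m, (c j + 1) = m - 1 := by
        rw [Finset.sum_congr rfl (g := fun _ => 1)]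
        · simp
        · intro j hj
          rw [Finset.mem_Ico] at hj
          have : c j = 0 := by
            simp only [hc, cc]
            rw [if_neg (by omega), if_neg (by omega)]
          rw [this]
      rw [h2]
      simp only [Nat.Ico_zero_eq_range, Finset.sum_range_one]
      have h3 : c 0 + 1 = a * n := by simp only [hc, cc, if_true]; omega
      rw [h3]
      have h4 : m - 1 ≤ m * n := by nlinarith [Nat.sub_le m 1]
      nlinarith
    exact_mod_cast h1
  obtain ⟨r, hr1, hr2⟩ := exists_root (n + 1) (m + 1) c (by omega) (by omega) z ε R hε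
    (le_max_left _ _) (le_max_right _ _) (by
      rw [hp]
      have h1 : ((((n + 1) * (n + 1) - (n + 1) : ℕ)) : ℝ) = ((n : ℝ) + 1) * n := by
        have : (n + 1) * (n + 1) - (n + 1) = (n + 1) * n := by
          rw [Nat.mul_succ (n + 1) n]; omega
        rw [this]; push_cast; ring
      rw [h1]
      simp only [Nat.add_sub_cancel]
      have h2 : (c m : ℝ) + 1 = (b : ℝ) * n := by exact_mod_cast hcm'
      rw [h2]
      have hnpos : (0 : ℝ) < n := by linarith
      have h3 : (Fintype.card (Br (m + 1) c) : ℝ) ^ 2 ≤ (((a : ℝ) + b + m) * n) ^ 2 :=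
        pow_le_pow_left₀ (Nat.cast_nonneg _) hcard 2
      have hRpos : 0 < R ^ (2 * (m + 1)) := by positivity
      calc _ ≤ ((n : ℝ) + 1) * n * ‖S‖ ^ 2 +
            2 * ((n + 1 : ℕ) : ℝ) * (((a : ℝ) + b + m) * n) ^ 2 * R ^ (2 * (m + 1)) := by
            gcongr
        _ ≤ ((n : ℝ) + 1) * n * (n * K) := by
            rw [hK]
            push_cast
            have h4 : ((n : ℝ) + 1) * n * ‖S‖ ^ 2 ≤ ((n : ℝ) + 1) * n * (n * ‖S‖ ^ 2) := by
              have : ‖S‖ ^ 2 ≤ n * ‖S‖ ^ 2 := le_mul_of_one_le_left (by positivity) hn1.le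
              gcongr
            nlinarith
        _ < ((n : ℝ) + 1) * n * (n * ((n : ℝ) * ((b : ℝ) ^ 2 * ε ^ (2 * (m + 1))))) := by
            have : (0 : ℝ) < ((n : ℝ) + 1) * n := by positivity
            gcongr
        _ = _ := by ring)
  exact ⟨n + 1, m + 1, c, r, by omega, by omega, hr1, hr2⟩

theorem two_le_card (N k : ℕ) (c : ℕ → ℕ) (hN : 2 ≤ N) (hk : 1 ≤ k) :
    2 ≤ Fintype.card (Option (Fin N × Br k c)) := by
  have hBpos : 1 ≤ Fintype.card (Br k c) :=
    Fintype.card_pos_iff.mpr ⟨⟨⟨0, hk⟩, ⟨0, Nat.succ_pos _⟩⟩⟩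
  rw [Fintype.card_option, Fintype.card_prod, Fintype.card_fin]
  have : 1 ≤ N * Fintype.card (Br k c) := Nat.mul_pos (by omega) hBpos
  omega

end Q133.Wiener
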