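import Mathlib
import Pool.Agent.Q133.WienerCat

set_option autoImplicit false
set_option linter.unusedSectionVars false

namespace Q133.Wiener.Cat

open Q133.Wiener

theorem W_continuous {V : Type} [Fintype V] [DecidableEq V] (G : SimpleGraph V) :
    Continuous (W G) := by
  unfold W
  fun_prop

/-! ### double stars -/

theorem W_double (a b : ℕ) (x : ℝ) :
    W (T 2 (fun i => if i = 0 then a else b) (by norm_num)) x =
      2 * (a + b + 1) * x + (a ^ 2 + b ^ 2 + a + b) * x ^ 2 + 2 * a * b * x ^ 3 := by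
  rw [W_eq]
  simp only [Fin.sum_univ_two, Fin.val_zero, Fin.val_one, if_true, one_ne_zero, if_false]
  have h1 : (((0 : ℕ) : ℤ) - ((1 : ℕ) : ℤ)).natAbs = 1 := by decide
  have h2 : (((1 : ℕ) : ℤ) - ((0 : ℕ) : ℤ)).natAbs = 1 := by decide
  have h3 : (((0 : ℕ) : ℤ) - ((0 : ℕ) : ℤ)).natAbs = 0 := by decide
  have h4 : (((1 : ℕ) : ℤ) - ((1 : ℕ) : ℤ)).natAbs = 0 := by decide
  rw [h1, h2, h3, h4]
  ring

theorem double_root (p q : ℕ) (hp : 1 ≤ p) (hq : 1 ≤ q) (s1 s2 : ℝ) (hs1 : 0 < s1)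
    (h1 : 2 * (p : ℝ) * q * s1 < (p : ℝ) ^ 2 + q ^ 2) (h2 : (p : ℝ) ^ 2 + q ^ 2 < 2 * p * q * s2)
    (h12 : s1 < s2) :
    ∃ (a b : ℕ) (x : ℝ), -s2 < x ∧ x < -s1 ∧
      W (T 2 (fun i => if i = 0 then a else b) (by norm_num)) x = 0 := by
  set κ1 : ℝ := (p : ℝ) ^ 2 + q ^ 2 - 2 * p * q * s1 with hκ1
  set κ2 : ℝ := 2 * p * q * s2 - ((p : ℝ) ^ 2 + q ^ 2) with hκ2
  have hκ1pos : 0 < κ1 := by rw [hκ1]; linarith
  have hκ2pos : 0 < κ2 := by rw [hκ2]; linarith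
  have hs2 : 0 < s2 := hs1.trans h12
  have hpp : (1 : ℝ) ≤ p := by exact_mod_cast hp
  have hqq : (1 : ℝ) ≤ q := by exact_mod_cast hq
  obtain ⟨n, hn⟩ := exists_nat_gt (max 1 (max (2 * ((p : ℝ) + q + 1) / (s1 * κ1)) (((p : ℝ) + q) / κ2)))
  have hn1 : (1 : ℝ) < n := lt_of_le_of_lt (le_max_left _ _) hn
  have hn2 : 2 * ((p : ℝ) + q + 1) < n * (s1 * κ1) := by
    have : 2 * ((p : ℝ) + q + 1) / (s1 * κ1) < n :=
      lt_of_le_of_lt ((le_max_left _ _).trans (le_max_right _ _)) hn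
    rwa [div_lt_iff₀ (by positivity)] at this
  have hn3 : ((p : ℝ) + q) < n * κ2 := by
    have : ((p : ℝ) + q) / κ2 < n :=
      lt_of_le_of_lt ((le_max_right _ _).trans (le_max_right _ _)) hn
    rwa [div_lt_iff₀ (by positivity)] at this
  have hcont := W_continuous (T 2 (fun i => if i = 0 then p * n else q * n) (by norm_num))
  have hpos : 0 < W (T 2 (fun i => if i = 0 then p * n else q * n) (by norm_num)) (-s1) := by
    rw [W_double]
    push_cast
    have e : 2 * ((p : ℝ) * n + q * n + 1) * -s1 + (((p : ℝ) * n) ^ 2 + (q * n) ^ 2 + p * n + q * n) * (-s1) ^ 2 +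
        2 * (p * n) * (q * n) * (-s1) ^ 3 =
        n * s1 * (n * (s1 * κ1) - 2 * ((p : ℝ) + q)) + ((p : ℝ) + q) * n * s1 ^ 2 - 2 * s1 := by
      rw [hκ1]; ring
    rw [e]
    have h3 : 2 < n * (s1 * κ1) - 2 * ((p : ℝ) + q) := by linarith
    have h4 : s1 * 2 ≤ n * s1 * (n * (s1 * κ1) - 2 * ((p : ℝ) + q)) := by
      have : s1 ≤ n * s1 := le_mul_of_one_le_left hs1.le hn1.le
      exact mul_le_mul this h3.le (by norm_num) (by positivity)
    have h5 : 0 < ((p : ℝ) + q) * n * s1 ^ 2 := by positivity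
    linarith
  have hneg : W (T 2 (fun i => if i = 0 then p * n else q * n) (by norm_num)) (-s2) < 0 := by
    rw [W_double]
    push_cast
    have e : 2 * ((p : ℝ) * n + q * n + 1) * -s2 + (((p : ℝ) * n) ^ 2 + (q * n) ^ 2 + p * n + q * n) * (-s2) ^ 2 +
        2 * (p * n) * (q * n) * (-s2) ^ 3 =
        -(2 * ((p : ℝ) * n + q * n + 1) * s2) - n * s2 ^ 2 * (n * κ2 - ((p : ℝ) + q)) := by
      rw [hκ2]; ring
    rw [e]
    have h3 : 0 < n * κ2 - ((p : ℝ) + q) := by linarith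
    have h4 : 0 < n * s2 ^ 2 * (n * κ2 - ((p : ℝ) + q)) := by positivity
    have h5 : 0 < 2 * ((p : ℝ) * n + q * n + 1) * s2 := by positivity
    linarith
  have hivt := intermediate_value_Ioo (f := W (T 2 (fun i => if i = 0 then p * n else q * n) (by norm_num)))
    (by linarith : -s2 ≤ -s1) hcont.continuousOn
  obtain ⟨x, hx1, hx2⟩ := hivt (show (0 : ℝ) ∈ Set.Ioo _ _ from ⟨hneg, hpos⟩)
  exact ⟨p * n, q * n, x, hx1.1, hx1.2, hx2⟩

/-! ### brooms -/

/-- double geometric sum -/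
noncomputable def A (L : ℕ) (x : ℝ) : ℝ :=
  ∑ i ∈ Finset.range L, ∑ j ∈ Finset.range L, x ^ (((i : ℤ) - (j : ℤ)).natAbs)

theorem sum_refl (L : ℕ) (x : ℝ) :
    (1 - x) * ∑ i ∈ Finset.range L, x ^ (((i : ℤ) - (L : ℤ)).natAbs) = x * (1 - x ^ L) := by
  have h1 : ∑ i ∈ Finset.range L, x ^ (((i : ℤ) - (L : ℤ)).natAbs) = ∑ i ∈ Finset.range L, x ^ (i + 1) := by
    rw [← Finset.sum_range_reflect]
    refine Finset.sum_congr rfl fun i hi => ?_
    rw [Finset.mem_range] at hi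
    congr 1
    omega
  rw [h1]
  have h2 : ∑ i ∈ Finset.range L, x ^ (i + 1) = x * ∑ i ∈ Finset.range L, x ^ i := by
    rw [Finset.mul_sum]
    exact Finset.sum_congr rfl fun i _ => by rw [pow_succ']
  rw [h2]
  have h3 := mul_neg_geom_sum x L
  linear_combination x * h3

theorem A_eq (L : ℕ) (x : ℝ) : (1 - x) ^ 2 * A L x = L * (1 - x ^ 2) - 2 * x * (1 - x ^ L) := by
  induction L with
  | zero => simp [A]
  | succ L ih =>
    have h1 : A (L + 1) x = A L x + 2 * ∑ i ∈ Finset.range L, x ^ (((i : ℤ) - (L : ℤ)).natAbs) + 1 := by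
      unfold A
      rw [Finset.sum_range_succ]
      have e1 : ∀ i ∈ Finset.range L, ∑ j ∈ Finset.range (L + 1), x ^ (((i : ℤ) - (j : ℤ)).natAbs) =
          ∑ j ∈ Finset.range L, x ^ (((i : ℤ) - (j : ℤ)).natAbs) + x ^ (((i : ℤ) - (L : ℤ)).natAbs) := by
        intro i _
        rw [Finset.sum_range_succ]
      rw [Finset.sum_congr rfl e1, Finset.sum_add_distrib, Finset.sum_range_succ]
      have e2 : ∑ j ∈ Finset.range L, x ^ (((L : ℤ) - (j : ℤ)).natAbs) =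
          ∑ i ∈ Finset.range L, x ^ (((i : ℤ) - (L : ℤ)).natAbs) := by
        refine Finset.sum_congr rfl fun i _ => ?_
        rw [← Int.natAbs_neg, neg_sub]
      rw [e2]
      simp only [sub_self, Int.natAbs_zero, pow_zero]
      ring
    rw [h1]
    have h2 := sum_refl L x
    push_cast
    have h3 : (1 - x) ^ 2 * (A L x + 2 * ∑ i ∈ Finset.range L, x ^ (((i : ℤ) - (L : ℤ)).natAbs) + 1) =
        (1 - x) ^ 2 * A L x + 2 * (1 - x) * ((1 - x) * ∑ i ∈ Finset.range L, x ^ (((i : ℤ) - (L : ℤ)).natAbs)) +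
          (1 - x) ^ 2 := by ring
    rw [h3, ih, h2]
    ring

theorem W_broom (L m : ℕ) (hL : 0 < L) (x : ℝ) :
    W (T L (fun i => if i = 0 then m else 0) hL) x =
      A L x + 2 * m * x * ∑ j ∈ Finset.range L, x ^ j + m ^ 2 * x ^ 2 - L - m * x ^ 2 := by
  rw [W_eq]
  have e0 : ∀ i : Fin L, (((if (i : ℕ) = 0 then m else 0 : ℕ)) : ℝ) = if (i : ℕ) = 0 then (m : ℝ) else 0 := by
    intro i
    split_ifs <;> simp
  simp only [e0]
  rw [Fin.sum_univ_eq_sum_range (fun i => (1 + (if i = 0 then (m : ℝ) else 0) * x ^ 2)) L]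
  have e1 : ∀ i : Fin L, ∑ j : Fin L, x ^ (((i : ℕ) : ℤ) - ((j : ℕ) : ℤ)).natAbs *
      ((1 + (if (i : ℕ) = 0 then (m : ℝ) else 0) * x) * (1 + (if (j : ℕ) = 0 then (m : ℝ) else 0) * x)) =
      ∑ j ∈ Finset.range L, x ^ (((i : ℕ) : ℤ) - (j : ℤ)).natAbs *
      ((1 + (if (i : ℕ) = 0 then (m : ℝ) else 0) * x) * (1 + (if j = 0 then (m : ℝ) else 0) * x)) := by
    intro i
    rw [Fin.sum_univ_eq_sum_range (fun j => x ^ (((i : ℕ) : ℤ) - (j : ℤ)).natAbs *
      ((1 + (if (i : ℕ) = 0 then (m : ℝ) else 0) * x) * (1 + (if j = 0 then (m : ℝ) else 0) * x))) L]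
  rw [Finset.sum_congr rfl (fun i _ => e1 i)]
  rw [Fin.sum_univ_eq_sum_range (fun i => ∑ j ∈ Finset.range L, x ^ ((i : ℤ) - (j : ℤ)).natAbs *
      ((1 + (if i = 0 then (m : ℝ) else 0) * x) * (1 + (if j = 0 then (m : ℝ) else 0) * x))) L]
  have e2 : ∀ i j : ℕ, x ^ ((i : ℤ) - (j : ℤ)).natAbs *
      ((1 + (if i = 0 then (m : ℝ) else 0) * x) * (1 + (if j = 0 then (m : ℝ) else 0) * x)) =
      x ^ ((i : ℤ) - (j : ℤ)).natAbs + (if i = 0 then m * x * x ^ j else 0) +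
      (if j = 0 then m * x * x ^ i else 0) + (if i = 0 then (if j = 0 then m ^ 2 * x ^ 2 else 0) else 0) := by
    intro i j
    rcases Nat.eq_zero_or_pos i with hi | hi <;> rcases Nat.eq_zero_or_pos j with hj | hj
    · subst hi; subst hj; simp; ring
    · subst hi
      have hj' : j ≠ 0 := by omega
      simp [hj']
      ring
    · subst hj
      have hi' : i ≠ 0 := by omega
      simp [hi']
      ring
    · have hi' : i ≠ 0 := by omega
      have hj' : j ≠ 0 := by omega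
      simp [hi', hj']
  simp only [e2]
  simp only [Finset.sum_add_distrib]
  have h0 : 0 ∈ Finset.range L := Finset.mem_range.mpr hL
  have e3 : ∑ i ∈ Finset.range L, ∑ j ∈ Finset.range L, (if i = 0 then m * x * x ^ j else 0) =
      m * x * ∑ j ∈ Finset.range L, x ^ j := by
    rw [Finset.sum_comm]
    simp only [Finset.sum_ite_eq', h0, if_true]
    rw [Finset.mul_sum]
  have e4 : ∑ i ∈ Finset.range L, ∑ j ∈ Finset.range L, (if j = 0 then m * x * x ^ i else 0) =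
      m * x * ∑ j ∈ Finset.range L, x ^ j := by
    simp only [Finset.sum_ite_eq', h0, if_true]
    rw [Finset.mul_sum]
  have e5 : ∑ i ∈ Finset.range L, ∑ j ∈ Finset.range L,
      (if i = 0 then (if j = 0 then (m : ℝ) ^ 2 * x ^ 2 else 0) else 0) = m ^ 2 * x ^ 2 := by
    rw [Finset.sum_eq_single 0]
    · simp only [if_true, Finset.sum_ite_eq', h0]
    · intro i _ hi
      simp [hi]
    · intro h; exact absurd h0 h
  have e6 : ∑ i ∈ Finset.range L, (if i = 0 then (m : ℝ) else 0) * x ^ 2 = m * x ^ 2 := by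
    rw [← Finset.sum_mul, Finset.sum_ite_eq', if_pos h0]
  rw [e3, e4, e5, e6]
  simp only [Finset.sum_const, Finset.card_range, nsmul_eq_mul, mul_one]
  unfold A
  ring

theorem broom_bound (L m : ℕ) (hL : 0 < L) (hm : 1 ≤ m) (s : ℝ) (hs0 : 0 < s) (hs1 : s < 1) :
    |W (T L (fun i => if i = 0 then m else 0) hL) (-s) -
      ((m : ℝ) ^ 2 * s ^ 2 - 2 * (L : ℝ) * s / (1 + s))| ≤ 9 * (m : ℝ) := by
  rw [W_broom]
  have h1 := A_eq L (-s)
  have hs : (0 : ℝ) < 1 + s := by linarith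
  have hpow : |(-s) ^ L| ≤ 1 := by
    rw [abs_pow, abs_neg, abs_of_pos hs0]
    exact pow_le_one₀ hs0.le hs1.le
  rw [abs_le] at hpow
  have h2 : A L (-s) = (L * (1 - s ^ 2) + 2 * s * (1 - (-s) ^ L)) / (1 + s) ^ 2 := by
    rw [eq_div_iff (by positivity)]
    have e : (1 + s) ^ 2 = (1 - -s) ^ 2 := by ring
    rw [e, mul_comm, h1]
    ring
  have h3 : ∑ j ∈ Finset.range L, (-s) ^ j = (1 - (-s) ^ L) / (1 + s) := by
    rw [eq_div_iff hs.ne']
    have := mul_neg_geom_sum (-s) L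
    rw [← this]; ring
  have hmm : (1 : ℝ) ≤ m := by exact_mod_cast hm
  set y := (-s) ^ L with hy
  have h4 : A L (-s) + 2 * (m : ℝ) * (-s) * ∑ j ∈ Finset.range L, (-s) ^ j +
      (m : ℝ) ^ 2 * (-s) ^ 2 - (L : ℝ) - (m : ℝ) * (-s) ^ 2 -
      ((m : ℝ) ^ 2 * s ^ 2 - 2 * (L : ℝ) * s / (1 + s)) =
      2 * s * (1 - y) / (1 + s) ^ 2 - 2 * m * s * (1 - y) / (1 + s) - m * s ^ 2 := by
    rw [h2, h3]
    field_simp
    ring
  rw [h4]
  have h5 : 0 ≤ 2 * s * (1 - y) / (1 + s) ^ 2 := by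
    apply div_nonneg
    · nlinarith
    · positivity
  have h6 : 2 * s * (1 - y) / (1 + s) ^ 2 ≤ 4 := by
    rw [div_le_iff₀ (by positivity)]
    nlinarith
  have h7 : 0 ≤ 2 * m * s * (1 - y) / (1 + s) := by
    apply div_nonneg
    · have : 0 ≤ 1 - y := by linarith
      positivity
    · positivity
  have h8 : 2 * m * s * (1 - y) / (1 + s) ≤ 4 * m := by
    rw [div_le_iff₀ (by positivity)]
    have h9 : s * (1 - y) ≤ 2 * (1 + s) := by nlinarith
    nlinarith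
  have h9 : 0 ≤ m * s ^ 2 := by positivity
  have h10 : m * s ^ 2 ≤ m := by
    have : s ^ 2 ≤ 1 := pow_le_one₀ hs0.le hs1.le
    nlinarith
  rw [abs_le]
  constructor <;> linarith

theorem broom_root (s0 s1 s2 : ℝ) (h0 : 0 < s1) (h01 : s1 < s0) (h02 : s0 < s2) (h2 : s2 < 1) :
    ∃ (L m : ℕ) (hL : 0 < L) (x : ℝ), 1 ≤ m ∧ -s2 < x ∧ x < -s1 ∧
      W (T L (fun i => if i = 0 then m else 0) hL) x = 0 := by
  set c : ℝ := s0 * (1 + s0) / 2 with hc
  have hc0 : 0 < c := by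
    have : 0 < s0 := h0.trans h01
    positivity
  set κ1 : ℝ := 2 * c * s1 / (1 + s1) - s1 ^ 2 with hκ1
  set κ2 : ℝ := s2 ^ 2 - 2 * c * s2 / (1 + s2) with hκ2
  have hs0 : 0 < s0 := h0.trans h01
  have hs2 : 0 < s2 := hs0.trans h02
  have hκ1pos : 0 < κ1 := by
    have e : κ1 = s1 * (s0 * (1 + s0) - s1 * (1 + s1)) / (1 + s1) := by
      rw [hκ1, hc]; field_simp
    rw [e]
    have : 0 < s0 * (1 + s0) - s1 * (1 + s1) := by nlinarith
    positivity
  have hκ2pos : 0 < κ2 := by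
    have e : κ2 = s2 * (s2 * (1 + s2) - s0 * (1 + s0)) / (1 + s2) := by
      rw [hκ2, hc]; field_simp
    rw [e]
    have : 0 < s2 * (1 + s2) - s0 * (1 + s0) := by nlinarith
    positivity
  obtain ⟨m, hm⟩ := exists_nat_gt (max 1 (max (11 / κ1) (11 / κ2)))
  have hm1 : (1 : ℝ) < m := lt_of_le_of_lt (le_max_left _ _) hm
  have hm1' : 1 ≤ m := by exact_mod_cast hm1.le
  have hm2 : 11 < m * κ1 := by
    have : 11 / κ1 < m := lt_of_le_of_lt ((le_max_left _ _).trans (le_max_right _ _)) hm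
    rwa [div_lt_iff₀ hκ1pos] at this
  have hm3 : 11 < m * κ2 := by
    have : 11 / κ2 < m := lt_of_le_of_lt ((le_max_right _ _).trans (le_max_right _ _)) hm
    rwa [div_lt_iff₀ hκ2pos] at this
  set L : ℕ := ⌊c * m ^ 2⌋₊ + 1 with hL
  have hL1 : c * m ^ 2 < L := by
    rw [hL]; push_cast; exact Nat.lt_floor_add_one _
  have hL2 : (L : ℝ) ≤ c * m ^ 2 + 1 := by
    rw [hL]; push_cast
    have := Nat.floor_le (by positivity : 0 ≤ c * (m : ℝ) ^ 2)
    linarith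
  have hLpos : 0 < L := Nat.succ_pos _
  have hcont := W_continuous (T L (fun i => if i = 0 then m else 0) hLpos)
  have hneg : W (T L (fun i => if i = 0 then m else 0) hLpos) (-s1) < 0 := by
    have hb := broom_bound L m hLpos hm1' s1 h0 (by linarith)
    rw [abs_le] at hb
    have e1 : 2 * (c * (m : ℝ) ^ 2) * s1 / (1 + s1) ≤ 2 * (L : ℝ) * s1 / (1 + s1) := by gcongr
    have e2 : 2 * (c * (m : ℝ) ^ 2) * s1 / (1 + s1) = (m : ℝ) ^ 2 * (κ1 + s1 ^ 2) := by rw [hκ1]; ring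
    have e3 : (m : ℝ) * 11 < m * (m * κ1) := by
      have : (0 : ℝ) < m := by linarith
      gcongr
    nlinarith
  have hpos : 0 < W (T L (fun i => if i = 0 then m else 0) hLpos) (-s2) := by
    have hb := broom_bound L m hLpos hm1' s2 hs2 h2
    rw [abs_le] at hb
    have e1 : 2 * (L : ℝ) * s2 / (1 + s2) ≤ 2 * (c * (m : ℝ) ^ 2 + 1) * s2 / (1 + s2) := by gcongr
    have e2 : 2 * (c * (m : ℝ) ^ 2 + 1) * s2 / (1 + s2) = (m : ℝ) ^ 2 * (s2 ^ 2 - κ2) + 2 * (s2 / (1 + s2)) := by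
      rw [hκ2]; ring
    have e3 : (m : ℝ) * 11 < m * (m * κ2) := by
      have : (0 : ℝ) < m := by linarith
      gcongr
    have e4 : s2 / (1 + s2) ≤ 1 := by
      rw [div_le_one (by linarith)]; linarith
    nlinarith
  have hivt := intermediate_value_Ioo' (f := W (T L (fun i => if i = 0 then m else 0) hLpos))
    (by linarith : -s2 ≤ -s1) hcont.continuousOn
  obtain ⟨x, hx1, hx2⟩ := hivt (show (0 : ℝ) ∈ Set.Ioo _ _ from ⟨hneg, hpos⟩)
  exact ⟨L, m, hLpos, x, hm1', hx1.1, hx1.2, hx2⟩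

end Q133.Wiener.Cat
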