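import Mathlib

set_option autoImplicit false

/-!
# Intersection graphs of connected subgraphs of a subdivision
-/

namespace Q133.YGraph

/-- The vertices of a subdivision of `Y`: the old vertices, and `len u v` new vertices for every
edge `uv` with `u < v`. -/
inductive SV {W : Type} [LinearOrder W] (Y : SimpleGraph W) (len : W → W → ℕ) : Type
  | old : W → SV Y len
  | new : (u v : W) → u < v ∧ Y.Adj u v → Fin (len u v) → SV Y len

/-- Consecutive vertices of the paths which replace the edges. -/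
def Next {W : Type} [LinearOrder W] {Y : SimpleGraph W} {len : W → W → ℕ} :
    SV Y len → SV Y len → Prop
  | .old u, .old v => u < v ∧ Y.Adj u v ∧ len u v = 0
  | .old u, .new u' _ _ k => u = u' ∧ (k : ℕ) = 0
  | .new u v _ k, .old v' => v = v' ∧ (k : ℕ) + 1 = len u v
  | .new u v _ k, .new u' v' _ k' => u = u' ∧ v = v' ∧ (k : ℕ) + 1 = k'

/-- The subdivision of `Y` in which the edge `uv`, `u < v`, is replaced by a path with `len u v`
internal vertices. -/
def subdivision {W : Type} [LinearOrder W] (Y : SimpleGraph W) (len : W → W → ℕ) :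
    SimpleGraph (SV Y len) :=
  SimpleGraph.fromRel Next

/-- `X` is (isomorphic to) the intersection graph of a family of connected subgraphs of some
subdivision of `Y`. -/
def InClass {W : Type} [LinearOrder W] (Y : SimpleGraph W) {V : Type} (X : SimpleGraph V) : Prop :=
  ∃ (len : W → W → ℕ) (S : V → (subdivision Y len).Subgraph),
    (∀ v, (S v).Connected) ∧
    ∀ u v, u ≠ v → (X.Adj u v ↔ ∃ x, x ∈ (S u).verts ∧ x ∈ (S v).verts)

/-! ## The graph `K_{2,3}`, with parts `{0, 1}` and `{2, 3, 4}` -/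

/-- `K_{2,3}` on `Fin 5`. -/
def K23 : SimpleGraph (Fin 5) where
  Adj a b := (a ≤ 1 ∧ 2 ≤ b) ∨ (b ≤ 1 ∧ 2 ≤ a)
  symm := ⟨fun _ _ h => Or.symm h⟩
  loopless := ⟨fun a h => by revert a; decide⟩

/-- Only the edges at `0` are subdivided, by `n` new vertices. -/
def len (n : ℕ) (u _ : Fin 5) : ℕ := if u = 0 then n else 0

/-- The number of the middle vertex of an arm. -/
def mid (i : Fin 3) : Fin 5 := ⟨i + 2, by omega⟩

theorem mid_adj (i : Fin 3) : (0 : Fin 5) < mid i ∧ K23.Adj 0 (mid i) := by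
  revert i; unfold mid K23; decide

theorem mid_adj1 (i : Fin 3) : (1 : Fin 5) < mid i ∧ K23.Adj 1 (mid i) := by
  revert i; unfold mid K23; decide

theorem mid_inj {i j : Fin 3} (h : mid i = mid j) : i = j := by
  revert h; revert i j; unfold mid; decide

/-- The `k`-th vertex of the arm `i`. -/
def arm (n : ℕ) (i : Fin 3) (k : Fin n) : SV K23 (len n) := .new 0 (mid i) (mid_adj i) k

/-- The subgraph induced by a set of vertices. -/
def ind (n : ℕ) (s : Set (SV K23 (len n))) : (subdivision K23 (len n)).Subgraph :=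
  (⊤ : (subdivision K23 (len n)).Subgraph).induce s

/-- The vertex set of a tentacle set starting at `0`. -/
def low (n : ℕ) (ρ : Fin 3 → ℕ) : Set (SV K23 (len n)) :=
  {x | x = .old 0 ∨ ∃ (i : Fin 3) (k : Fin n), x = arm n i k ∧ (k : ℕ) < ρ i}

/-- The vertex set of a tentacle set starting at `1`. -/
def high (n : ℕ) (ρ : Fin 3 → ℕ) : Set (SV K23 (len n)) :=
  {x | x = .old 1 ∨ (∃ i : Fin 3, x = .old (mid i)) ∨
    ∃ (i : Fin 3) (k : Fin n), x = arm n i k ∧ ρ i ≤ (k : ℕ)}

theorem arm_inj {n : ℕ} {i j : Fin 3} {k l : Fin n} (h : arm n i k = arm n j l) :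
    i = j ∧ (k : ℕ) = l := by
  unfold arm at h
  injection h with h1 h2 h3
  have hij := mid_inj h2
  subst hij
  exact ⟨rfl, congrArg _ h3⟩

theorem low_high (n : ℕ) (ρ σ : Fin 3 → ℕ) (hρ : ∀ i, ρ i ≤ n) :
    (∃ x, x ∈ low n ρ ∧ x ∈ high n σ) ↔ ∃ i, σ i < ρ i := by
  constructor
  · rintro ⟨x, hx, hy⟩
    rcases hx with rfl | ⟨i, k, rfl, hk⟩
    · rcases hy with hy | ⟨i, hy⟩ | ⟨i, k, hy, _⟩
      · injection hy with h; exact absurd h (by decide)
      · injection hy with h
        exact absurd h (by revert i; unfold mid; decide)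
      · cases hy
    · rcases hy with hy | ⟨j, hy⟩ | ⟨j, l, hy, hl⟩
      · cases hy
      · cases hy
      · obtain ⟨rfl, hkl⟩ := arm_inj hy
        exact ⟨i, by omega⟩
  · rintro ⟨i, hi⟩
    have := hρ i
    exact ⟨arm n i ⟨σ i, by omega⟩, Or.inr ⟨i, _, rfl, hi⟩, Or.inr (Or.inr ⟨i, _, rfl, le_refl _⟩)⟩

theorem next_adj {n : ℕ} {x y : SV K23 (len n)} (hne : x ≠ y) (h : Next x y) :
    (subdivision K23 (len n)).Adj x y := by
  unfold subdivision
  rw [SimpleGraph.fromRel_adj]
  exact ⟨hne, Or.inl h⟩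

theorem ind_connected (n : ℕ) (s : Set (SV K23 (len n))) (r : SV K23 (len n)) (hr : r ∈ s)
    (h : ∀ x (hx : x ∈ s), ((subdivision K23 (len n)).induce s).Reachable ⟨r, hr⟩ ⟨x, hx⟩) :
    (ind n s).Connected := by
  unfold ind
  rw [← SimpleGraph.connected_induce_iff]
  rw [SimpleGraph.connected_iff_exists_forall_reachable]
  exact ⟨⟨r, hr⟩, fun ⟨x, hx⟩ => h x hx⟩

theorem low_connected (n : ℕ) (ρ : Fin 3 → ℕ) : (ind n (low n ρ)).Connected := by
  have h0 : (SV.old 0 : SV K23 (len n)) ∈ low n ρ := Or.inl rfl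
  apply ind_connected n _ (.old 0) h0
  have key : ∀ (i : Fin 3) (m : ℕ) (hm : m < n) (hmem : arm n i ⟨m, hm⟩ ∈ low n ρ),
      ((subdivision K23 (len n)).induce (low n ρ)).Reachable ⟨.old 0, h0⟩
        ⟨arm n i ⟨m, hm⟩, hmem⟩ := by
    intro i m
    induction m with
    | zero =>
      intro hm hmem
      apply SimpleGraph.Adj.reachable
      show (subdivision K23 (len n)).Adj (.old 0) (arm n i ⟨0, hm⟩)
      exact next_adj (by intro h; cases h) ⟨rfl, rfl⟩
    | succ m ih =>
      intro hm hmem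
      have hmem' : arm n i ⟨m, by omega⟩ ∈ low n ρ := by
        rcases hmem with h | ⟨j, k, h, hk⟩
        · cases h
        · obtain ⟨rfl, hkl⟩ := arm_inj h
          refine Or.inr ⟨i, _, rfl, ?_⟩
          simp only at hkl ⊢
          omega
      refine (ih (by omega) hmem').trans (SimpleGraph.Adj.reachable ?_)
      show (subdivision K23 (len n)).Adj (arm n i ⟨m, _⟩) (arm n i ⟨m + 1, hm⟩)
      refine next_adj ?_ ⟨rfl, rfl, rfl⟩
      intro h
      have := (arm_inj h).2
      simp at this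
  intro x hx
  rcases hx with rfl | ⟨i, k, rfl, hk⟩
  · exact SimpleGraph.Reachable.refl _
  · exact key i k k.2 _

theorem high_connected (n : ℕ) (ρ : Fin 3 → ℕ) : (ind n (high n ρ)).Connected := by
  have h0 : (SV.old 1 : SV K23 (len n)) ∈ high n ρ := Or.inl rfl
  have h1 : ∀ i : Fin 3, (SV.old (mid i) : SV K23 (len n)) ∈ high n ρ :=
    fun i => Or.inr (Or.inl ⟨i, rfl⟩)
  apply ind_connected n _ (.old 1) h0
  have hmid : ∀ i : Fin 3, ((subdivision K23 (len n)).induce (high n ρ)).Reachable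
      ⟨.old 1, h0⟩ ⟨.old (mid i), h1 i⟩ := by
    intro i
    apply SimpleGraph.Adj.reachable
    show (subdivision K23 (len n)).Adj (.old 1) (.old (mid i))
    refine next_adj ?_ ⟨(mid_adj1 i).1, (mid_adj1 i).2, ?_⟩
    · intro h
      injection h with h
      exact absurd (h ▸ (mid_adj1 i).1) (lt_irrefl _)
    · simp [len]
  have key : ∀ (i : Fin 3) (d m : ℕ) (hm : m < n) (hd : m + d + 1 = n)
      (hmem : arm n i ⟨m, hm⟩ ∈ high n ρ),
      ((subdivision K23 (len n)).induce (high n ρ)).Reachable ⟨.old 1, h0⟩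
        ⟨arm n i ⟨m, hm⟩, hmem⟩ := by
    intro i d
    induction d with
    | zero =>
      intro m hm hd hmem
      refine (hmid i).trans (SimpleGraph.Adj.reachable ?_)
      show (subdivision K23 (len n)).Adj (.old (mid i)) (arm n i ⟨m, hm⟩)
      refine (next_adj (x := arm n i ⟨m, hm⟩) (y := .old (mid i)) ?_ ⟨rfl, ?_⟩).symm
      · intro h; cases h
      · simp only [len, if_true]
        omega
    | succ d ih =>
      intro m hm hd hmem
      have hmem' : arm n i ⟨m + 1, by omega⟩ ∈ high n ρ := by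
        rcases hmem with h | ⟨j, h⟩ | ⟨j, k, h, hk⟩
        · cases h
        · cases h
        · obtain ⟨rfl, hkl⟩ := arm_inj h
          refine Or.inr (Or.inr ⟨i, _, rfl, ?_⟩)
          simp only at hkl ⊢
          omega
      refine (ih (m + 1) (by omega) (by omega) hmem').trans (SimpleGraph.Adj.reachable ?_)
      show (subdivision K23 (len n)).Adj (arm n i ⟨m + 1, _⟩) (arm n i ⟨m, hm⟩)
      refine (next_adj (x := arm n i ⟨m, hm⟩) (y := arm n i ⟨m + 1, _⟩) ?_ ⟨rfl, rfl, rfl⟩).symm
      intro h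
      have := (arm_inj h).2
      simp at this
  intro x hx
  rcases hx with rfl | ⟨i, rfl⟩ | ⟨i, k, rfl, hk⟩
  · exact SimpleGraph.Reachable.refl _
  · exact hmid i
  · have hk2 := k.2
    exact key i (n - 1 - k) k k.2 (by omega) _

/-- Complements of comparability graphs of posets of height two and dimension at most three are
intersection graphs of connected subgraphs of subdivisions of `K_{2,3}`. -/
theorem inClass_of_keys {V : Type} (X : SimpleGraph V) (Rl : V → V → Prop)
    (isMin : V → Prop) (hmin : ∀ x y, Rl x y → isMin x ∧ ¬ isMin y)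
    (hX : ∀ x y, X.Adj x y ↔ x ≠ y ∧ ¬ Rl x y ∧ ¬ Rl y x)
    (n : ℕ) (ρ : Fin 3 → V → ℕ) (hρ : ∀ i x, ρ i x ≤ n)
    (h1 : ∀ x y, Rl x y → ∀ i, ρ i x ≤ ρ i y)
    (h2 : ∀ x y, x ≠ y → ¬ Rl x y → ∃ i, ρ i y < ρ i x) : InClass K23 X := by
  classical
  refine ⟨len n, fun v => if isMin v then ind n (low n (fun i => ρ i v))
    else ind n (high n (fun i => ρ i v)), ?_, ?_⟩
  · intro v
    by_cases hv : isMin v
    · simp only [if_pos hv]; exact low_connected _ _
    · simp only [if_neg hv]; exact high_connected _ _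
  · intro u v huv
    have key : ∀ x y : V, x ≠ y → isMin x → ¬ isMin y →
        ((¬ Rl x y ∧ ¬ Rl y x) ↔
          ∃ z, z ∈ low n (fun i => ρ i x) ∧ z ∈ high n (fun i => ρ i y)) := by
      intro x y hxy hx hy
      rw [low_high n _ _ (fun i => hρ i x)]
      constructor
      · rintro ⟨h, _⟩
        exact h2 x y hxy h
      · rintro ⟨i, hi⟩
        refine ⟨fun h => ?_, fun h => hy (hmin _ _ h).1⟩
        exact absurd (h1 x y h i) (not_le.2 hi)
    by_cases hu : isMin u <;> by_cases hv : isMin v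
    · simp only [if_pos hu, if_pos hv]
      rw [hX]
      constructor
      · intro _
        exact ⟨.old 0, Or.inl rfl, Or.inl rfl⟩
      · intro _
        exact ⟨huv, fun h => (hmin _ _ h).2 hv, fun h => (hmin _ _ h).2 hu⟩
    · simp only [if_pos hu, if_neg hv]
      rw [hX]
      constructor
      · rintro ⟨_, h⟩
        exact (key u v huv hu hv).1 h
      · intro h
        exact ⟨huv, (key u v huv hu hv).2 h⟩
    · simp only [if_neg hu, if_pos hv]
      rw [hX]
      constructor
      · rintro ⟨_, ha, hb⟩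
        obtain ⟨z, hz1, hz2⟩ := (key v u huv.symm hv hu).1 ⟨hb, ha⟩
        exact ⟨z, hz2, hz1⟩
      · rintro ⟨z, hz1, hz2⟩
        have := (key v u huv.symm hv hu).2 ⟨z, hz2, hz1⟩
        exact ⟨huv, this.2, this.1⟩
    · simp only [if_neg hu, if_neg hv]
      rw [hX]
      constructor
      · intro _
        exact ⟨.old 1, Or.inl rfl, Or.inl rfl⟩
      · intro _
        exact ⟨huv, fun h => hu (hmin _ _ h).1, fun h => hv (hmin _ _ h).1⟩

end Q133.YGraph
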