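import Mathlib
import Pool.Agent.Q133.YGraph
import Pool.Agent.W125.DimH

set_option autoImplicit false

/-!
# Intersection graphs of connected subgraphs of subdivisions of `K_{2,3}` form a universal class
-/

namespace Q133.YGraph

open Pool.Agent.W125 Pool.Agent.W125.Dim

theorem InClass.of_iso {W : Type} [LinearOrder W] {Y : SimpleGraph W} {V V' : Type}
    {X : SimpleGraph V} {X' : SimpleGraph V'} (h : InClass Y X) (e : X' ≃g X) : InClass Y X' := by
  obtain ⟨len, S, h1, h2⟩ := h
  refine ⟨len, fun v => S (e v), fun v => h1 _, fun u v huv => ?_⟩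
  rw [← e.map_adj_iff]
  exact h2 _ _ (fun h => huv (e.injective h))

/-- Automorphisms of the complement. -/
def complAut {V : Type} (X : SimpleGraph V) : (Xᶜ ≃g Xᶜ) ≃* (X ≃g X) where
  toFun φ := ⟨φ.toEquiv, by
    intro a b
    have h := φ.map_adj_iff (v := a) (w := b)
    simp only [SimpleGraph.compl_adj] at h
    have hinj : φ a = φ b ↔ a = b := φ.injective.eq_iff
    show X.Adj (φ a) (φ b) ↔ X.Adj a b
    constructor
    · intro h1
      by_contra h2
      by_cases hab : a = b
      · subst hab; exact X.loopless.irrefl _ h1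
      · exact (h.2 ⟨hab, h2⟩).2 h1
    · intro h1
      by_contra h2
      have hab : a ≠ b := h1.ne
      exact (h.1 ⟨fun h3 => hab (hinj.1 h3), h2⟩).2 h1⟩
  invFun φ := ⟨φ.toEquiv, by
    intro a b
    have h := φ.map_adj_iff (v := a) (w := b)
    have hinj : φ a = φ b ↔ a = b := φ.injective.eq_iff
    show Xᶜ.Adj (φ a) (φ b) ↔ Xᶜ.Adj a b
    simp only [SimpleGraph.compl_adj]
    rw [h, ne_eq, hinj]⟩
  left_inv φ := by ext x; rfl
  right_inv φ := by ext x; rfl
  map_mul' φ ψ := by ext x; rfl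

variable {U W : Type} {A : U → W → Prop} {R : ℕ}

/-- The minimal elements. -/
def isMin : Vtx A R → Prop
  | .u _ => False
  | .w _ => True
  | .c l _ => (l : ℕ) % 2 = 0

theorem rel_min (x y : Vtx A R) (h : Dim.Rel x y) : isMin x ∧ ¬ isMin y := by
  match x, y, h with
  | .c l e, .c k f, h =>
    simp only [Dim.Rel, crel] at h
    simp only [isMin]
    omega
  | .c l e, .u x, h =>
    simp only [Dim.Rel] at h
    simp only [isMin, not_false_eq_true, and_true]
    omega
  | .w y, .c l e, h =>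
    simp only [Dim.Rel] at h
    simp only [isMin, true_and]
    omega

theorem inClass_compl [Finite U] [Finite W] (N : Num U W R) : InClass K23 (XG A R)ᶜ := by
  classical
  let K : Fin 3 → Vtx A R → ℤ × ℤ × ℤ := ![K1 N, K2 N, K3 N]
  have hK1 : ∀ x y, Dim.Rel x y → ∀ i, tl (K i x) < tl (K i y) := by
    intro x y h i
    obtain ⟨h1, h2, h3⟩ := key_rel N x y h
    fin_cases i
    · exact tl_lt h1
    · exact tl_lt h2
    · exact tl_lt h3
  have hK2 : ∀ x y, x ≠ y → ¬ Dim.Rel x y → ∃ i, tl (K i y) < tl (K i x) := by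
    intro x y hne h
    rcases key_nrel N x y hne h with h1 | h1 | h1
    · exact ⟨0, tl_lt h1⟩
    · exact ⟨1, tl_lt h1⟩
    · exact ⟨2, tl_lt h1⟩
  let ρ : Fin 3 → Vtx A R → ℕ := fun i x => {z | tl (K i z) < tl (K i x)}.ncard
  have hmono : ∀ i x y, tl (K i x) < tl (K i y) → ρ i x < ρ i y := by
    intro i x y h
    apply Set.ncard_lt_ncard _ (Set.toFinite _)
    refine ⟨fun z hz => lt_trans hz h, fun hsub => ?_⟩
    have h3 : x ∈ {z | tl (K i z) < tl (K i x)} :=
      hsub (show x ∈ {z | tl (K i z) < tl (K i y)} from h)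
    exact lt_irrefl _ (show tl (K i x) < tl (K i x) from h3)
  refine inClass_of_keys _ Dim.Rel isMin rel_min ?_ (Nat.card (Vtx A R)) ρ ?_ ?_ ?_
  · intro x y
    rw [SimpleGraph.compl_adj]
    simp only [XG, not_or]
  · intro i x
    rw [← Set.ncard_univ]
    exact Set.ncard_le_ncard (Set.subset_univ _) (Set.toFinite _)
  · intro x y h i
    exact (hmono i x y (hK1 x y h i)).le
  · intro x y hne h
    obtain ⟨i, hi⟩ := hK2 x y hne h
    exact ⟨i, hmono i y x hi⟩

theorem exists_small' (G : Type) [Group G] [Finite G] :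
    ∃ (V : Type) (_ : Finite V) (X : SimpleGraph V), InClass K23 X ∧
      Nonempty ((X ≃g X) ≃* G) := by
  let R := Nat.card (G ⊕ (G ⊕ G)) * (Nat.card ((G × G) ⊕ Fin (Nat.card G + 1)) + 1) + 1
  obtain ⟨N⟩ := exists_num (U := (G × G) ⊕ Fin (Nat.card G + 1)) (W := G ⊕ (G ⊕ G)) (R := R)
    (Nat.le_succ _)
  refine ⟨Vtx (GA G) R, inferInstance, (XG (GA G) R)ᶜ, inClass_compl N,
    ⟨(complAut _).trans ?_⟩⟩
  exact (MulEquiv.ofBijective (⟨⟨act R, by
    have h := act_mul R (1 : G) 1
    rw [mul_one] at h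
    exact (mul_eq_left (a := act R (1 : G))).1 h.symm⟩, act_mul R⟩ : G →* _)
    (act_bijective R (Nat.succ_pos _))).symm

/-- Every finite group is the automorphism group of a graph of the class of `K_{2,3}`. -/
theorem universal (G : Type) [Group G] [Finite G] :
    ∃ (n : ℕ) (X : SimpleGraph (Fin n)), InClass K23 X ∧ Nonempty ((X ≃g X) ≃* G) := by
  obtain ⟨V, hV, X, h1, ⟨h2⟩⟩ := exists_small' G
  obtain ⟨n, ⟨f⟩⟩ := Finite.exists_equiv_fin V
  have i : X.comap f.symm ≃g X := SimpleGraph.Iso.comap f.symm X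
  exact ⟨n, X.comap f.symm, h1.of_iso i, ⟨(autCongr i.symm).symm.trans h2⟩⟩

end Q133.YGraph
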